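import Pool.Agent.Lib.NU4.Blue
import Pool.Agent.Lib.F4.D_MXC
import Pool.Agent.Lib.F4.D_NF2
import Pool.Agent.Lib.F4.D_PSD

/-! Project nu4: the exchange between fields and bivectors. -/

open scoped Classical Topology ContDiff ComplexOrder Matrix Kronecker
open Set Filter MeasureTheory

set_option linter.unusedVariables false

noncomputable section

namespace Pool.Agent.Lib.NU4

open Pool.Agent.Lib.SV (E)
open Pool.Agent.Lib.HS32 Pool.Agent.Lib.HLK Pool.Agent.Lib.F4
open Pool.Agent.Lib.K3E (kan wk lk)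

namespace X29

variable {n : ℕ} {M : Mf n} {H : M.Fam (Mat n)}

theorem nz_iff {σ : Type} {W : M.Fam (σ → ℂ)} : Nz W ↔ ¬Zr M W := by
  constructor
  · rintro ⟨e, he, z, hz, h⟩ k
    exact h (k e he z hz)
  · intro h
    by_contra k
    exact h fun e he z hz => by_contra fun c => k ⟨e, he, z, hz, c⟩

theorem sml_congr {m : ℕ} {W U : M.Fam (Fs n → ℂ)} (h : M.All fun e z => W e z = U e z)
    (s : Sml M H m W) : Sml M H m U := by
  obtain ⟨C, hC, k⟩ := s
  refine ⟨C, hC, fun ε u a b c => le_of_eq_of_le ?_ (k ε u a b c)⟩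
  refine integral_congr_ae (Eventually.of_forall fun x => ?_)
  simp only [cu, Mf.ev]
  rw [h _ (Mf.ch_mem x) _ (Mf.ch_tgt x)]

theorem pa_of {q : ℕ} {W : M.Fam (Fs n → ℂ)} (h : DgM M q W) : Pa M ((-1) ^ q) W :=
  fun e he z hz => funext fun A => by
    by_cases c : A.card = q
    · simp only [IDX.par, c, Pi.smul_apply, smul_eq_mul]
    · simp only [IDX.par, h e he z hz A c, Pi.smul_apply, smul_eq_mul, mul_zero]

theorem pa_zero {s : ℂ} {W : M.Fam (Fs n → ℂ)} (h : Pa M s W) {e : M.Ch} (he : e ∈ M.C)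
    {z : E n} (hz : z ∈ e.target) {A : Fs n} (c : (-1 : ℂ) ^ A.card ≠ s) : W e z A = 0 := by
  have k := congrFun (h e he z hz) A
  simp only [IDX.par, Pi.smul_apply, smul_eq_mul] at k
  by_contra d
  exact c (mul_right_cancel₀ d k)

/-- The flip of the parity. -/
theorem flip [M.Cpt] (hSG : St_SG) (hEV : St_EV) (hIX : St_IX0) (hINF : St_INF) (hHLP : St_HLP)
    {a : ℝ → M.X → ℝ} (cx : Cx M H a) (no : NoS M) {m : ℕ} (hm : 2 ≤ m) {s : ℂ}
    (hs : s = 1 ∨ s = -1) {W : M.Fam (Fs n → ℂ)} (h : HM M m W) (nz : Nz W) (p : Pa M s W)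
    (sl : Sml M H m W) : ∃ U, HM M m U ∧ Nz U ∧ Pa M (-s) U ∧ Sml M H m U := by
  have a1 := hEV n M H a m s W cx hm hs h nz p ((hSG n M H a m W cx hm h).2 sl).2
  have a2 := hIX n M H m s cx.kae (hINF n M H a cx no).2.2 hs a1
  refine hHLP n M H a m (-s) cx hm ?_ a2
  rcases hs with r | r
  · exact Or.inr (by rw [r])
  · exact Or.inl (by rw [r, neg_neg])

end X29

open X29 in
theorem st_EXC (hSG : St_SG) (hEV : St_EV) (hIX : St_IX0) (hINF : St_INF) (hHLP : St_HLP)
    (hKV : St_KV) (hNMU : St_NMU) (hKIT : St_KIT) (hFK : St_FK) : St_EXC := by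
  intro M _ H a m B hm
  have cx := B.cx
  have hH := cx.kae.toMet
  have three : ∀ t, HM M m t → DgM M 3 t → Sml M H m t → Zr M t := fun t h d s => by
    by_contra c
    have g := hSG 4 M H a m t cx hm h
    exact absurd (hKV 4 M H m 3 t cx.kae rfl (by norm_num) hm
      (LD.st_NF2 LD.st_MXC LD.st_PSD 4 M H a cx.kae cx.out).1 h d (nz_iff.2 c) (g.1 (g.2 s).1).2) (not_le.2 B.k)
  have cardle : ∀ A : Fs 4, A.card ≤ 4 := fun A => by
    simpa using Finset.card_le_univ A
  refine ⟨three, fun ⟨π, h, d, nz, s⟩ => ?_, fun ⟨W, h, nz, s⟩ => ?_⟩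
  · obtain ⟨U, hU, nU, pU, sU⟩ := flip hSG hEV hIX hINF hHLP cx B.no hm (Or.inl rfl) h nz
      (by simpa using pa_of d) s
    have K := hKIT 4 M H m U hH
    have N := (hNMU 4 M H a m m U cx hU sU).1
    have z3 := three _ ((K.2.2.2.1 3).2.1 hU) (K.2.2.2.1 3).1 (N 3)
    have d1 : DgM M 1 U := fun e he z hz A c => by
      by_cases c3 : A.card = 3
      · have := congrFun (z3 e he z hz) A
        simpa only [prt, if_pos c3, Pi.zero_apply] using this
      · refine pa_zero pU he hz ?_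
        have := cardle A
        have k : A.card = 0 ∨ A.card = 2 ∨ A.card = 4 := by omega
        rcases k with k | k | k <;> rw [k] <;> norm_num
    have eq : M.All fun e z => U e z = vec M (fun e z k => U e z {k}) e z := fun e he z hz =>
      (hFK 4 0 0 0 0 0 (U e z)).2.2.2.2.2.2.2.2.2.2.2.2.2.2.2.2.2.1 (d1 e he z hz)
    have ht := (K.2.2.2.2.1 hU).2.1
    refine ⟨_, ht, ((K.2.1 _ ht).2.2).2 ?_, sml_congr eq sU⟩
    obtain ⟨e, he, z, hz, c⟩ := nU
    exact ⟨e, he, z, hz, fun k => c ((eq e he z hz).trans k)⟩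
  · have K0 := (hKIT 4 M H m 0 hH).2.1 W h
    obtain ⟨U, hU, nU, pU, sU⟩ := flip hSG hEV hIX hINF hHLP cx B.no hm (Or.inr rfl) K0.1
      (K0.2.2.1 nz) (by simpa using pa_of K0.2.1) s
    have K := hKIT 4 M H m U hH
    have N := (hNMU 4 M H a m m U cx hU sU).1
    have z0 := B.no m (by omega) _ (K.2.2.2.2.1 hU).2.2.1
    have z4 := B.no (m - 1) (by omega) _ ((K.2.2.2.2.1 hU).2.2.2.1 (by omega))
    have d2 : DgM M 2 U := fun e he z hz A c => by
      by_cases c0 : A.card = 0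
      · rw [Finset.card_eq_zero.1 c0]
        exact z0 e he z hz
      by_cases c4 : A.card = 4
      · rw [Finset.eq_univ_of_card A (by simpa using c4)]
        exact z4 e he z hz
      refine pa_zero pU he hz ?_
      have := cardle A
      have k : A.card = 1 ∨ A.card = 3 := by omega
      rcases k with k | k <;> rw [k] <;> norm_num
    exact ⟨U, hU, d2, nU, sU⟩

end Pool.Agent.Lib.NU4
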