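import Pool.Agent.Lib.NU4.B_R1
import Pool.Agent.Lib.F4.B_DVC
import Pool.Agent.Lib.F4.A_Z0

/-! Project nu4: the theorem on the manifold layer. -/

open scoped Classical Topology Matrix
open Set Filter

noncomputable section

namespace Pool.Agent.Lib.NU4

open Pool.Agent.Lib.SV (E)
open Pool.Agent.Lib.HS32 Pool.Agent.Lib.HLK Pool.Agent.Lib.F4

open R1 in
theorem st_MAIN (hFK : St_FK) (hB2 : St_B2) (hINF : St_INF) (hSMV : St_SMV) (hRC : St_RC)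
    (hT3 : St_T3) (hWR : St_WR) (hR2 : St_R2) (hPQ : St_PQ) : St_MAIN := by
  intro M _ H a V W hH hN hO no hV hW hVW
  refine not_lt.1 fun k => ?_
  have cx : Cx M H a := ⟨four_pos, hH, hN, hO⟩
  have bad : Bad M H a := ⟨cx, no, k⟩
  have v1 : ∀ U, HT M 1 U → V1 M U := fun U hU =>
    ⟨hU, no 1 one_pos _ (z0_sec (m := 1) ((st_DVC 4 M).1 U hU))⟩
  have key : ∀ U U', HT M 1 U → HT M 1 U' → ¬Zr M (wd M U (vec M U')) → Wf M H (1 : ℕ) U :=
    fun U U' h h' k => ⟨h, fun c => k fun e he z hz => by simp [wd, c e he z hz, crv], by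
      refine (hPQ M H a U bad (v1 U h)).elim id fun ⟨q, hq⟩ => ?_
      obtain ⟨m, g, g1, g2, g3, g4, g5⟩ := hWR M H U U' hH.toMet no (v1 U h) (v1 U' h') (nz k)
      obtain ⟨N, s, β, κ, s1, s2, s3, s4, s5⟩ := hRC 4 M H U m g q hH.toMet (v1 U h) g1 g2 g3 g4 g5
        hq (hINF 4 M H a cx no).2.1
      obtain ⟨b1, b3, b4⟩ := hB2 4 M H N hH.toMet
      exact hSMV 4 M H a U cx (v1 U h) (Or.inr (hT3 4 M H U _ _ s β q κ hH (v1 U h) b1 b3
        ((b4 s).1 s1).1 ((b4 s).1 s1).2 s2 hq s3 s4 s5))⟩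
  have k1 : ¬Zr M (wd M V (vec M W)) := fun c => hVW fun e he z hz =>
    (hFK 4 (V e z) (W e z) 0 0 0 0).2.2.2.2.2.2.2.2.2.2.2.2.2.2.2.1.1 (c e he z hz)
  exact k1 (hR2 M H a 1 1 V W bad one_pos one_pos (key V W hV hW k1)
    (key W V hW hV fun c => k1 (swp hFK c)))

end Pool.Agent.Lib.NU4
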