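import Pool.Agent.Lib.NU4.Defs

/-! Project nu4: the numerical dimension of a nef canonical bundle without sections, in dimension
four. Blueprint. -/

open scoped Classical Topology ContDiff ComplexOrder Matrix Kronecker
open Set Filter MeasureTheory

set_option linter.unusedVariables false

noncomputable section

namespace Pool.Agent.Lib.NU4

open Pool.Agent.Lib.SV (E)
open Pool.Agent.Lib.HS32 Pool.Agent.Lib.HLK Pool.Agent.Lib.F4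
open Pool.Agent.Lib.K3E (kan wk lk)

/-! ### Pointwise algebra -/

/-- The exterior algebra. -/
def St_FK : Prop := ∀ (n : ℕ) (v w a : E n) (g : Mat n) (c : ℂ) (W : Fs n → ℂ),
  crv v * crv w = -(crv w * crv v) ∧ crv v * crv v = 0 ∧
  anv a * crv v + crv v * anv a = (a ⬝ᵥ v) • 1 ∧ La g * crv v = crv (g *ᵥ v) * La g ∧
  anv a * La g = La g * anv (a ᵥ* g) ∧ crv (v + w) = crv v + crv w ∧
  crv (v - w) = crv v - crv w ∧ crv (c • v) = c • crv v ∧ anv (v + w) = anv v + anv w ∧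
  anv (v - w) = anv v - anv w ∧ anv (c • v) = c • anv v ∧ anv a *ᵥ vac n = 0 ∧
  La g *ᵥ vac n = vac n ∧ Dg 0 (vac n) ∧ (∀ k, (crv v *ᵥ vac n) {k} = v k) ∧
  (crv v *ᵥ crv w *ᵥ vac n = 0 ↔ wg v w = 0) ∧
  (Dg 0 W → W = W ∅ • vac n) ∧ (Dg 1 W → W = crv (fun k => W {k}) *ᵥ vac n) ∧
  dL g * crv v = crv (g *ᵥ v) + crv v * dL g ∧ dL g *ᵥ vac n = 0 ∧
  ∀ q, Dg q W → Dg (q + 1) (crv v *ᵥ W) ∧ Dg q (La g *ᵥ W) ∧ Dg (q - 1) (anv a *ᵥ W) ∧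
    Dg q (dL g *ᵥ W)

/-- Proportional multivectors. -/
def St_ALG : Prop := (∀ (n : ℕ) (w y v : E n) (π : Fs n → ℂ),
    (Dg 2 π → crv w *ᵥ π = 0 → crv y *ᵥ π = 0 → Pr (crv w *ᵥ crv y *ᵥ vac n) π) ∧
    (w ≠ 0 → wg w y = 0 → wg w v = 0 → wg y v = 0)) ∧
  ∀ (w y v : E 4) (π : Fs 4 → ℂ), Dg 2 π → w ≠ 0 → crv w *ᵥ π = 0 → crv v *ᵥ π ≠ 0 →
    crv v *ᵥ crv y *ᵥ π = 0 → ∃ c : ℂ, crv y *ᵥ π = c • crv v *ᵥ π

/-- Pointwise inequalities. -/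
def St_PW : Prop := ∀ (n : ℕ) (H T : Mat n) (v a : E n) (W : Fs n → ℂ), H.PosDef →
  0 ≤ ng H W ∧ (ng H W = 0 → W = 0) ∧ ng H (crv v *ᵥ W) ≤ nq H v * ng H W ∧
  ng H (anv a *ᵥ W) ≤ (p1 H a a).re * ng H W ∧ ng H (crv v *ᵥ vac n) = nq H v ∧
  cg H T (crv v *ᵥ vac n) = nq T v ∧ (∀ B, Pr W B → ng H B * cg H T W = ng H W * cg H T B) ∧
  (∀ q, ng H (fun A => if A.card = q then W A else 0) ≤ ng H W) ∧
  (T.PosSemidef → 0 ≤ cg H T W ∧ cg H T W ≤ (H⁻¹ * T).trace.re * ng H W ∧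
    cg H T (crv v *ᵥ W) ≤ 2 * (ng H W * nq T v + nq H v * cg H T W) ∧
    (crv v *ᵥ W = 0 → ng H W * nq T v ≤ nq H v * cg H T W) ∧
    ∀ q, cg H T (fun A => if A.card = q then W A else 0) ≤ cg H T W)

/-! ### Calculus in coordinates -/

/-- The derivative of Lie. -/
def St_LIE : Prop := ∀ (n : ℕ) (v y : E n → E n) (W : E n → Fs n → ℂ) (f : E n → ℂ) (z : E n),
  HolV v z → HolV y z → HolV W z → HolN f z →
  HolN (dir v f) z ∧ HolN (dv v) z ∧ HolV (br v y) z ∧ HolV (pf0 W) z ∧ HolV (lie v W) z ∧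
  HolV (lder v W) z ∧ HolV (fun w => crv (v w) *ᵥ W w) z ∧
  ((∀ᶠ w in 𝓝 z, crv (v w) *ᵥ W w = 0) → lie v W z = lder v W z + dv v z • W z) ∧
  lder v (fun w => crv (y w) *ᵥ W w) z = crv (br v y z) *ᵥ W z + crv (y z) *ᵥ lder v W z ∧
  lder v (fun _ => vac n) z = 0 ∧
  lder v (fun w => f w • W w) z = dir v f z • W z + f z • lder v W z ∧
  pf0 (fun w => crv (v w) *ᵥ vac n) z = dv v z • vac n ∧ br v y z = -br y v z ∧
  dv (br v y) z = dir v (dv y) z - dir y (dv v) z ∧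
  dv (fun w => f w • v w) z = dir v f z + f z * dv v z ∧
  br v (fun w => f w • y w) z = dir v f z • y z + f z • br v y z ∧
  lder (fun w => f w • v w) W z = f z • lder v W z - crv (v z) *ᵥ anv (gd f z) *ᵥ W z

/-! ### Sections -/

/-- Operations on sections. -/
def St_KIT : Prop := ∀ (n : ℕ) (M : Mf n) (H : M.Fam (Mat n)) (m : ℕ) (W : M.Fam (Fs n → ℂ)),
  M.Met H → (HM M m W ↔ (lk H m).Sec W ∧ Hol W) ∧
  (∀ V, HT M m V → HM M m (vec M V) ∧ DgM M 1 (vec M V) ∧ (¬Zr M V ↔ Nz (vec M V))) ∧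
  (∀ (a : ℕ) V, HT M a V → (HM M m W → HM M (a + m) (wd M V W)) ∧
    ((lk H m).Sec W → (lk H (a + m)).Sec (wd M V W))) ∧
  (∀ q, DgM M q (prt M q W) ∧ (HM M m W → HM M m (prt M q W)) ∧
    ((lk H m).Sec W → (lk H m).Sec (prt M q W))) ∧
  (HM M m W → (∀ U (c : ℂ), HM M m U → HM M m (W + U) ∧ HM M m (W - U) ∧ HM M m (c • W)) ∧
    HT M m (fun e z k => W e z {k}) ∧ M.HSec m (fun e z => W e z ∅) ∧
    (0 < m → M.HSec (m - 1) fun e z => W e z Finset.univ) ∧ (M.Cpt → Nz W → Den M W)) ∧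
  (∀ x, (lk H m).pn W x = ng (M.ev H x) (M.ev W x) / (M.ev H x).det.re ^ m ∧
    ∀ T, cu T (lk H m) W x = cg (M.ev H x) (M.ev T x) (M.ev W x) / (M.ev H x).det.re ^ m) ∧
  ((lk H m).Sec W → M.Rep ((lk H m).pn W) (fun e z => ng (H e z) (W e z) / (H e z).det.re ^ m) ∧
    M.Sm ((lk H m).pn W)) ∧
  ∀ (L : M.Co) (φ : M.Fam ℝ) (q : ℕ) (U : M.Fam (Fs n → ℂ)), DgM M q U →
    (lam H L φ).pp W U = (lam H L φ).pp (prt M q W) U

/-- The bundle with two slots. -/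
def St_B2 : Prop := ∀ (n : ℕ) (M : Mf n) (H : M.Fam (Mat n)) (m : ℕ), M.Met H →
  (b2 M H m).Ok ∧ (b2 M H m).Hl ∧ ∀ h, HM2 M m h ↔ (b2 M H m).Sec h ∧ Hol h

/-- Only finitely many levels carry tensors. -/
def St_INF : Prop := ∀ (n : ℕ) (M : Mf n) [M.Cpt] (H : M.Fam (Mat n)) (a : ℝ → M.X → ℝ),
  Cx M H a → NoS M → {m | ∃ W, HM M m W ∧ Nz W}.Finite ∧ {m | ∃ h, HM2 M m h ∧ Nz h}.Finite ∧
    {m | Ah H (kan M m) (wk H m)}.Finite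

/-! ### The analytic tools -/

/-- Integration by parts. -/
def St_IBP : Prop := ∀ (n : ℕ) (M : Mf n) [M.Cpt] (H : M.Fam (Mat n)) (m : ℕ)
  (W : M.Fam (Fs n → ℂ)) (F v : M.X → ℝ), M.Kae H → M.Sm F → M.Sm v → (lk H m).Sec W →
  (lk H m).Sec (iot M v W) ∧ (lk H m).Sec (sm M F W) ∧ (lk H m).Sec (P0 M H m W) ∧
  (M.All fun e z => P0 M H m (sm M F W) e z = sm M F (P0 M H m W) e z + iot M F W e z ∧
    (oP H (wt M H m v)).ap W e z = P0 M H m W e z - ((m : ℂ) - 1) • iot M v W e z ∧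
    P0 M H m W e z = pf0 (W e) z - ((m : ℂ) - 1) • anv (gd (ld (H e)) z) *ᵥ W e z) ∧
  (∀ x, (lk H m).pn (iot M v W) x ≤ M.gr H v v x * (lk H m).pn W x) ∧
  (Hol W → ∫ x, F x * cu (M.hs v) (lk H m) W x ∂M.mu H =
      -((lk H m).ip H (iot M v W) (P0 M H m (sm M F W))).re ∧
    ((m : ℝ) - 1) * ∫ x, F x * cu (-M.ric H) (lk H m) W x ∂M.mu H =
      ((lk H m).ip H (P0 M H m W) (P0 M H m (sm M F W))).re)

/-- Small curvature gives parallel multivectors. -/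
def St_SG : Prop := ∀ (n : ℕ) (M : Mf n) [M.Cpt] (H : M.Fam (Mat n)) (a : ℝ → M.X → ℝ) (m : ℕ)
  (W : M.Fam (Fs n → ℂ)), Cx M H a → 2 ≤ m → HM M m W →
  (N0 M H a m W → Ap1 M H m W ∧ Ap2 M H m W) ∧ (Sml M H m W → N0 M H a m W ∧ Par M H a m W)

/-- Parallel multivectors have small curvature. -/
def St_APS : Prop := ∀ (n : ℕ) (M : Mf n) [M.Cpt] (H : M.Fam (Mat n)) (m : ℕ)
  (W : M.Fam (Fs n → ℂ)), M.Kae H → 2 ≤ m → HM M m W → Ap1 M H m W → Sml M H m W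

/-- A parallel multivector gives a class. -/
def St_EV : Prop := ∀ (n : ℕ) (M : Mf n) [M.Cpt] (H : M.Fam (Mat n)) (a : ℝ → M.X → ℝ) (m : ℕ)
  (s : ℂ) (W : M.Fam (Fs n → ℂ)), Cx M H a → 2 ≤ m → s = 1 ∨ s = -1 → HM M m W → Nz W →
  Pa M s W → Par M H a m W → Ahp M H m s

/-- The index is zero at every level. -/
def St_IX0 : Prop := ∀ (n : ℕ) (M : Mf n) [M.Cpt] (H : M.Fam (Mat n)) (m : ℕ) (s : ℂ), M.Kae H →
  {b | Ah H (kan M b) (wk H b)}.Finite → s = 1 ∨ s = -1 → Ahp M H m s → Ahp M H m (-s)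

/-- The hard Lefschetz theorem with parity. -/
def St_HLP : Prop := ∀ (n : ℕ) (M : Mf n) [M.Cpt] (H : M.Fam (Mat n)) (a : ℝ → M.X → ℝ) (m : ℕ)
  (s : ℂ), Cx M H a → 2 ≤ m → s = 1 ∨ s = -1 → Ahp M H m s →
  ∃ W, HM M m W ∧ Nz W ∧ Pa M s W ∧ Sml M H m W

/-- The hard Lefschetz theorem for one class. -/
def St_HLX : Prop := ∀ (n : ℕ) (M : Mf n) [M.Cpt] (H : M.Fam (Mat n)) (a : ℝ → M.X → ℝ) (m : ℕ)
  (x : M.Fam (Fs n → ℂ)), Cx M H a → 2 ≤ m → (lk H m).Sec x → Zr M ((oQ H).ap x) →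
  (∀ η : ℝ, 0 < η → ∃ y, (lk H m).Sec y ∧ (lk H m).nr H (x - (oQ H).ap y) ≤ η) ∨
  ∃ W, HM M m W ∧ Sml M H m W ∧
    ¬Tendsto (fun ε => (lw M H m (a ε)).ip H W x) (𝓝[>] 0) (𝓝 0)

/-- The vanishing theorem in degree `n - 1`. -/
def St_KV : Prop := ∀ (n : ℕ) (M : Mf n) [M.Cpt] (H : M.Fam (Mat n)) (m q : ℕ)
  (W : M.Fam (Fs n → ℂ)), M.Kae H → q + 1 = n → 0 < q → 2 ≤ m →
  0 ≤ ∫ x, M.tr H (-M.ric H) x ∂M.mu H → HM M m W → DgM M q W → Nz W → Ap2 M H m W → k2 M H ≤ 0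

/-- The logarithm of the norm of a holomorphic section. -/
def St_LG : Prop := ∀ (n : ℕ) (M : Mf n) [M.Cpt] (H : M.Fam (Mat n)) (σ : Type) [Fintype σ]
  [DecidableEq σ] (b : Bun M σ) (s : M.Fam (σ → ℂ)), M.Kae H → b.Ok → b.Hl → b.Sec s → Hol s →
  Nz s → M.mu H {x | b.pn s x = 0} = 0 ∧ ∃ C : ℝ, 0 ≤ C ∧ ∀ d : ℝ, 0 < d →
    (∀ x, -C ≤ M.lap H (fun y => Real.log (b.pn s y + d)) x) ∧
    ∫ x in {x | d ≤ b.pn s x ∧ b.pn s x ≤ 2 * d},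
      M.gr H (b.pn s) (b.pn s) x / b.pn s x ^ 2 ∂M.mu H ≤ C

/-- No mass near the zero set. -/
def St_NM : Prop := ∀ (n : ℕ) (M : Mf n) [M.Cpt] (H : M.Fam (Mat n)) (a : ℝ → M.X → ℝ) (m : ℕ)
  (W : M.Fam (Fs n → ℂ)) (η : ℝ), Cx M H a → HM M m W → Nz W → 0 < η →
  ∃ d ε₀ : ℝ, 0 < d ∧ 0 < ε₀ ∧ ∀ ε ∈ Ioc (0 : ℝ) 1, ε ≤ ε₀ →
    ∫ x in {x | (lk H m).pn W x ≤ d}, M.tr H (om M H ε (a ε)) x ∂M.mu H ≤ η

/-- The smallness passes to products, parts and divisors. -/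
def St_NMU : Prop := ∀ (n : ℕ) (M : Mf n) [M.Cpt] (H : M.Fam (Mat n)) (a : ℝ → M.X → ℝ)
  (m l : ℕ) (W : M.Fam (Fs n → ℂ)), Cx M H a → HM M m W → Sml M H m W →
  (∀ q, Sml M H m (prt M q W)) ∧
  (∀ V, HT M l V → Sml M H l (vec M V) → Sml M H (l + m) (wd M V W)) ∧
  (Nz W → (∀ V, HT M l V → Zr M (wd M V W) → N0 M H a l (vec M V)) ∧
    ∀ U, HM M l U → (M.All fun e z => Pr (U e z) (W e z)) → N0 M H a l U)

/-- Level one. -/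
def St_SMV : Prop := ∀ (n : ℕ) (M : Mf n) [M.Cpt] (H : M.Fam (Mat n)) (a : ℝ → M.X → ℝ)
  (V : M.Fam (E n)), Cx M H a → V1 M V →
  (N0 M H a 1 (vec M V) ∨ ∫ x, qV M H (-M.ric H) V x ∂M.mu H ≤ 0) → Sml M H 1 (vec M V)

/-! ### Projective structures -/

/-- The obstruction. -/
def St_XS : Prop := ∀ (n : ℕ) (M : Mf n) (H : M.Fam (Mat n)) (V : M.Fam (E n)), M.Kae H →
  HT M 1 V → (M.All fun e z => ContDiffAt ℝ ∞ (a0 M H V e) z ∧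
    ContDiffAt ℝ ∞ (qq (V e) (a0 M H V e)) z) ∧
  (M.Ov fun e e' x => HolN (fun w => qq (V e') (a0 M H V e') w -
    (jm (e ∘ e'.symm) w).det ^ 2 * qq (V e) (a0 M H V e) (e (e'.symm w))) (e' x)) ∧
  (lk H 2).Sec (xq M H V) ∧ DgM M 1 (xq M H V) ∧ Zr M ((oQ H).ap (xq M H V))

/-- An exact obstruction gives a projective structure. -/
def St_QEX : Prop := ∀ (n : ℕ) (M : Mf n) [M.Cpt] (H : M.Fam (Mat n)) (V : M.Fam (E n)), 0 < n →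
  M.Kae H → NoS M → HT M 1 V →
  (∀ η : ℝ, 0 < η → ∃ y, (lk H 2).Sec y ∧ (lk H 2).nr H (xq M H V - (oQ H).ap y) ≤ η) →
  ∃ q, Pq M H V q

/-- The affine structure given by an invariant multivector. -/
def St_EIG : Prop := ∀ (n : ℕ) (M : Mf n) (H : M.Fam (Mat n)) (V : M.Fam (E n)) (m : ℕ)
  (g : M.Fam (Fs n → ℂ)), M.Met H → HT M 1 V → 2 ≤ m → HM M m g → Zr M (wd M V g) →
  (M.All fun e z => Pr (lie (V e) (g e) z) (g e z)) → ∃ b, Af M H V g b ∧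
    (M.All fun e z => g e z ≠ 0 → lie (V e) (g e) z = (((m : ℂ) - 1) * b e z) • g e z) ∧
    Ev M V g fun e z => ((m : ℂ) - 1) * b e z

/-- The law of the expression of Riccati. -/
def St_QQL : Prop := ∀ (n : ℕ) (M : Mf n) (H : M.Fam (Mat n)) (V : M.Fam (E n)) (σ : Type)
  [Fintype σ] [DecidableEq σ] (B : Bun M σ) (s : M.Fam (σ → ℂ)) (b : M.Fam ℂ), M.Met H →
  HT M 1 V → B.Ok → B.Sec s → Af M H V s b → M.Ov fun e e' x => s e (e x) ≠ 0 →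
    qq (V e') (b e') (e' x) - qq (V e') (a0 M H V e') (e' x) =
      jd M e e' x ^ 2 * (qq (V e) (b e) (e x) - qq (V e) (a0 M H V e) (e x))

/-- The last bracket of Rankin and Cohen. -/
def St_RC : Prop := ∀ (n : ℕ) (M : Mf n) [M.Cpt] (H : M.Fam (Mat n)) (V : M.Fam (E n)) (m : ℕ)
  (g : M.Fam (Fs n → ℂ)) (q : M.Fam ℂ), M.Met H → V1 M V → 2 ≤ m → HM M m g → Nz g →
  Zr M (wd M V g) → (M.All fun e z => Pr (lie (V e) (g e) z) (g e z)) → Pq M H V q →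
  {N | ∃ h, HM2 M N h ∧ Nz h}.Finite → ∃ (N : ℕ) (h : M.Fam (Fs n × Fs n → ℂ)) (β : M.Fam ℂ)
    (κ : ℂ), HM2 M N h ∧ Nz h ∧ Af M H V h β ∧ Ev M V h (fun e z => κ * β e z) ∧
    M.All fun e z => h e z ≠ 0 → qq (V e) (β e) z = q e z

/-- The derivative of the norm along the field. -/
def St_VB : Prop := ∀ (n : ℕ) (M : Mf n) [M.Cpt] (H : M.Fam (Mat n)) (V : M.Fam (E n)) (σ : Type)
  [Fintype σ] [DecidableEq σ] (B : Bun M σ) (s : M.Fam (σ → ℂ)) (β : M.Fam ℂ) (κ : ℂ), M.Met H →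
  HT M 1 V → B.Ok → B.Sec s → Hol s → Af M H V s β → Ev M V s (fun e z => κ * β e z) →
  ∃ C : ℝ, M.All fun e z => s e z ≠ 0 → ‖dir (V e) (M.lc (B.pn s) e) z -
    κ * (β e z - a0 M H V e z) * (B.pn s (e.symm z) : ℝ)‖ ^ 2 ≤
      C * (H e z).det.re * B.pn s (e.symm z) ^ 2

/-- The test function. -/
def St_T3 : Prop := ∀ (n : ℕ) (M : Mf n) [M.Cpt] (H : M.Fam (Mat n)) (V : M.Fam (E n)) (σ : Type)
  [Fintype σ] [DecidableEq σ] (B : Bun M σ) (s : M.Fam (σ → ℂ)) (β q : M.Fam ℂ) (κ : ℂ),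
  M.Kae H → V1 M V → B.Ok → B.Hl → B.Sec s → Hol s → Nz s → Pq M H V q → Af M H V s β →
  Ev M V s (fun e z => κ * β e z) → (M.All fun e z => s e z ≠ 0 → qq (V e) (β e) z = q e z) →
  ∫ x, qV M H (-M.ric H) V x ∂M.mu H ≤ 0

/-- An invariant multivector. -/
def St_WR : Prop := ∀ (M : Mf 4) [M.Cpt] (H : M.Fam (Mat 4)) (V W : M.Fam (E 4)), M.Met H →
  NoS M → V1 M V → V1 M W → Nz (wd M V (vec M W)) → ∃ m g, 2 ≤ m ∧ HM M m g ∧ Nz g ∧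
    Zr M (wd M V g) ∧ M.All fun e z => Pr (lie (V e) (g e) z) (g e z)

/-! ### One parallel direction -/

/-- The covariant derivative. -/
def St_NAB : Prop := ∀ (n : ℕ) (M : Mf n) (H : M.Fam (Mat n)) (m l : ℕ) (W : M.Fam (E n))
  (ρ : M.Fam (Fs n → ℂ)), M.Met H → 2 ≤ m → HT M m W → HM M l ρ → Zr M (wd M W ρ) →
  HM M (m + l) (nab M m l W ρ) ∧ Zr M (wd M W (nab M m l W ρ)) ∧
  (∀ q, DgM M q ρ → DgM M q (nab M m l W ρ)) ∧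
  (Zr M ρ → Zr M (nab M m l W ρ)) ∧ ∀ V, HT M 1 V → Zr M (nab M m l W ρ) →
    M.All fun e z => nab M m (1 + l) W (wd M V ρ) e z = wd M (yy M m W V) ρ e z

/-- Two parallel objects. -/
def St_PPI : Prop := ∀ (n : ℕ) (M : Mf n) [M.Cpt] (H : M.Fam (Mat n)) (a : ℝ → M.X → ℝ)
  (m l : ℕ) (W : M.Fam (E n)), Cx M H a → 2 ≤ m → 2 ≤ l → HT M m W → Par M H a m (vec M W) →
  (∀ π, HM M l π → Par M H a l π → Zr M (wd M W π) → Zr M (nab M m l W π)) ∧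
  ∀ U, HT M l U → Par M H a l (vec M U) → Zr M (wd M W (vec M U)) → M.All fun e z =>
    (dv (U e) z / ((l : ℂ) - 1)) • W e z = (dv (W e) z / ((m : ℂ) - 1)) • U e z

/-- Recurrence. -/
def St_REC : Prop := ∀ (n : ℕ) (M : Mf n) [M.Cpt] (H : M.Fam (Mat n)) (a : ℝ → M.X → ℝ) (l : ℕ)
  (W : M.Fam (E n)) (ρ τ : M.Fam (Fs n → ℂ)), Cx M H a → HT M 2 W → Par M H a 2 (vec M W) →
  HM M l ρ → HM M (2 + l) τ → Zr M (wd M W ρ) → Zr M (wd M W τ) →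
  (M.All fun e z => nab M 2 l W ρ e z = τ e z ∧ Pr (ρ e z) (τ e z)) →
  Zr M (nab M 2 (2 + l) W τ) → Zr M τ

/-- The bracket is tangent to the plane. -/
def St_NIL : Prop := ∀ (M : Mf 4) [M.Cpt] (H : M.Fam (Mat 4)) (a : ℝ → M.X → ℝ)
  (W V : M.Fam (E 4)) (π : M.Fam (Fs 4 → ℂ)), Cx M H a → NoS M → HT M 2 W → ¬Zr M W →
  Par M H a 2 (vec M W) → HT M 1 V → HM M 2 π → DgM M 2 π → Zr M (wd M W π) →
  Zr M (nab M 2 2 W π) → Nz (wd M V π) → Zr M (wd M (yy M 2 W V) π)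

/-- The bracket with a multiple of the field. -/
def St_CMP : Prop := ∀ (n : ℕ) (M : Mf n) [M.Cpt] (H : M.Fam (Mat n)) (m : ℕ)
  (W U V : M.Fam (E n)) (π : M.Fam (Fs n → ℂ)), M.Met H → 2 ≤ m → HT M 2 W → ¬Zr M W →
  HT M m U → ¬Zr M U → HT M 1 V → HM M 2 π → DgM M 2 π → Zr M (wd M W (vec M U)) →
  (M.All fun e z => (dv (U e) z / ((m : ℂ) - 1)) • W e z = (dv (W e) z / ((2 : ℕ) - 1)) • U e z) →
  Zr M (wd M W π) → Zr M (wd M (yy M 2 W V) π) → Nz (wd M W (vec M (yy M 2 W V))) →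
  ∃ ϖ, HM M (2 * m + 1) ϖ ∧ DgM M 2 ϖ ∧ Nz ϖ ∧ M.All fun e z => Pr (ϖ e z) (π e z)

/-- A field that is tangent to the parallel direction. -/
def St_N4H : Prop := ∀ (n : ℕ) (M : Mf n) [M.Cpt] (H : M.Fam (Mat n)) (a : ℝ → M.X → ℝ)
  (W : M.Fam (E n)), Cx M H a → HT M 2 W → ¬Zr M W → Sml M H 2 (vec M W) →
  Par M H a 2 (vec M W) → ∀ e ∈ M.C, ∀ (U : Set (E n)) (Y : E n → E n), IsOpen U →
  U ⊆ e.target → DifferentiableOn ℂ Y U → (∀ z ∈ U, wg (W e z) (Y z) = 0) →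
  ∃ h : E n → ℂ, DifferentiableOn ℂ h U ∧ ∀ z ∈ U, h z • W e z = dv (W e) z • Y z

/-- The pointwise bound. -/
def St_PB : Prop := ∀ (n : ℕ) (M : Mf n) [M.Cpt] (H : M.Fam (Mat n)) (W V : M.Fam (E n)),
  M.Met H → HT M 2 W → V1 M V → Nz (wd M W (vec M V)) → Zr M (wd M W (vec M (yy M 2 W V))) →
  (∀ e ∈ M.C, ∀ (U : Set (E n)) (Y : E n → E n), IsOpen U → U ⊆ e.target →
    DifferentiableOn ℂ Y U → (∀ z ∈ U, wg (W e z) (Y z) = 0) →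
    ∃ h : E n → ℂ, DifferentiableOn ℂ h U ∧ ∀ z ∈ U, h z • W e z = dv (W e) z • Y z) →
  ∃ (b : M.Fam ℂ) (C : ℝ), Af M H V (wd M W (vec M V)) b ∧ M.All fun e z =>
    wd M W (vec M V) e z ≠ 0 → ‖qq (V e) (a0 M H V e) z - qq (V e) (b e) z‖ *
      ‖dir (W e) (M.lc ((lk H 3).pn (wd M W (vec M V))) e) z‖ ≤ C * (H e z).det.re ^ 2 *
        ((lk H 3).pn (wd M W (vec M V)) (e.symm z) + √(M.gr H ((lk H 3).pn (wd M W (vec M V)))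
          ((lk H 3).pn (wd M W (vec M V))) (e.symm z)))

/-- The pairing tends to zero. -/
def St_PA : Prop := ∀ (n : ℕ) (M : Mf n) [M.Cpt] (H : M.Fam (Mat n)) (a : ℝ → M.X → ℝ)
  (W V : M.Fam (E n)) (g : M.Fam (Fs n → ℂ)) (b : M.Fam ℂ) (C : ℝ), Cx M H a → HT M 2 W →
  HT M 1 V → Par M H a 2 (vec M W) → HM M 3 g → Nz g → Af M H V g b →
  (M.All fun e z => g e z ≠ 0 → ‖qq (V e) (a0 M H V e) z - qq (V e) (b e) z‖ *
    ‖dir (W e) (M.lc ((lk H 3).pn g) e) z‖ ≤ C * (H e z).det.re ^ 2 *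
      ((lk H 3).pn g (e.symm z) + √(M.gr H ((lk H 3).pn g) ((lk H 3).pn g) (e.symm z)))) →
  Tendsto (fun ε => (lw M H 2 (a ε)).ip H (vec M W) (xq M H V)) (𝓝[>] 0) (𝓝 0)

/-! ### The assembly -/

/-- The situation that is to be excluded. -/
structure Bad (M : Mf 4) (H : M.Fam (Mat 4)) (a : ℝ → M.X → ℝ) : Prop where
  cx : Cx M H a
  no : NoS M
  k : 0 < k2 M H

/-- A field of level `m` on which the curvature vanishes. -/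
def Wf {n : ℕ} (M : Mf n) (H : M.Fam (Mat n)) (m : ℕ) (W : M.Fam (E n)) : Prop :=
  HT M m W ∧ ¬Zr M W ∧ Sml M H m (vec M W)

/-- The exchange between fields and bivectors. -/
def St_EXC : Prop := ∀ (M : Mf 4) [M.Cpt] (H : M.Fam (Mat 4)) (a : ℝ → M.X → ℝ) (m : ℕ),
  Bad M H a → 2 ≤ m → (∀ t, HM M m t → DgM M 3 t → Sml M H m t → Zr M t) ∧
  ((∃ π, HM M m π ∧ DgM M 2 π ∧ Nz π ∧ Sml M H m π) ↔ ∃ W, Wf M H m W)

/-- Two directions. -/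
def St_R2 : Prop := ∀ (M : Mf 4) [M.Cpt] (H : M.Fam (Mat 4)) (a : ℝ → M.X → ℝ) (m l : ℕ)
  (W U : M.Fam (E 4)), Bad M H a → 0 < m → 0 < l → Wf M H m W → Wf M H l U →
  Zr M (wd M W (vec M U))

/-- One direction. -/
def St_R1 : Prop := ∀ (M : Mf 4) [M.Cpt] (H : M.Fam (Mat 4)) (a : ℝ → M.X → ℝ)
  (W V : M.Fam (E 4)), Bad M H a → Wf M H 2 W → V1 M V →
  Sml M H 1 (vec M V) ∨ (Nz (wd M W (vec M V)) ∧ Zr M (wd M W (vec M (yy M 2 W V))))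

/-- A projective structure exists, or the curvature vanishes on the field. -/
def St_PQ : Prop := ∀ (M : Mf 4) [M.Cpt] (H : M.Fam (Mat 4)) (a : ℝ → M.X → ℝ) (V : M.Fam (E 4)),
  Bad M H a → V1 M V → Sml M H 1 (vec M V) ∨ ∃ q, Pq M H V q

/-- The theorem on the manifold layer. -/
def St_MAIN : Prop := ∀ (M : Mf 4) [M.Cpt] (H : M.Fam (Mat 4)) (a : ℝ → M.X → ℝ)
  (V W : M.Fam (E 4)), M.Kae H → W86.Nef M H → ZK47.Out M H 0 a → NoS M → HT M 1 V → HT M 1 W →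
  ¬Zr M (fun e z => wg (V e z) (W e z)) → k2 M H ≤ 0

end Pool.Agent.Lib.NU4
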