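import Pool.Agent.Lib.NU4.Flip71e

/-! Project nu4, row APS: approximate invariant densities give small curvature. -/

open scoped Classical Topology ContDiff ComplexOrder Matrix
open Set MeasureTheory Complex Filter

noncomputable section

namespace Pool.Agent.Lib.NU4

open Pool.Agent.Lib.HS32 Pool.Agent.Lib.HLK
open Pool.Agent.Lib.K3E (kan wk lk)
open Pool.Agent.Lib.EXH (aw)
open Fl

namespace APS

variable {n : ℕ} {M : Mf n} [M.Cpt] {H : M.Fam (Mat n)} {L : M.Co} {φ : M.Fam ℝ}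

theorem bd (hH : M.Kae H) (hφ : M.WtC L φ) {V : M.Fam (Fs n → ℂ)} (hV : (lam H L φ).Sec V)
    (hh : Hol V) {v : M.X → ℝ} (hv : M.Sm v) : ∃ K : ℝ, 0 ≤ K ∧ ∀ F, M.Sm F →
      ∫ x, F x * cu (M.hw φ + M.ric H + M.hs v) (lam H L φ) V x ∂M.mu H ≤
        K * ∫ x, √((lam H L φ).pn ((oP H φ).ap (mf F V)) x) ∂M.mu H := by
  have hm := hH.toMet
  have it := (mMU n M H hm).2.2.2.2.1
  obtain ⟨o, -, a0⟩ := aLAM n M H L φ hm hφ
  let g : Geo M (Fs n) := ⟨H, lam H L φ, hm, o⟩
  obtain ⟨hψ, e0⟩ := (a0 v).1 hv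
  have V1 : (lam H L (aw M φ v)).Sec V := ⟨hV.sm, hV.cmp⟩
  have P1 := aSP n M H L _ V hm hψ V1
  have P2 : (lam H L φ).Sec ((oP H (aw M φ v)).ap V) := ⟨P1.sm, P1.cmp⟩
  obtain ⟨K, K0, hK⟩ := (o.pp_rep P2 P2).2.re.exists_bound
  refine ⟨√K, Real.sqrt_nonneg _, fun F hF => ?_⟩
  have k := pol hH hψ V1 hh (hF.mul hv.exp)
  have e1 : ∀ x, F x * Real.exp (v x) * cu (M.hw (aw M φ v) + M.ric H) (lam H L (aw M φ v)) V x =
      F x * cu (M.hw φ + M.ric H + M.hs v) (lam H L φ) V x := fun x => by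
    rw [cu_aw, cu_congr (T := M.hw φ + M.ric H + M.hs v) fun e he z hz => by
      simp only [Pi.add_apply, e0 e he z hz, add_right_comm], mul_assoc, ← mul_assoc (Real.exp _),
      ← Real.exp_add, add_neg_cancel, Real.exp_zero, one_mul]
  have e2 : ∀ U x, ((F x * Real.exp (v x) : ℝ) : ℂ) * (lam H L (aw M φ v)).pp U V x =
      (lam H L φ).pp U (mf F V) x := fun U x => by
    rw [((a0 v).2 U V x).1, mul_comm ((lam H L φ).pp U V x), ← mul_assoc, ← ofReal_mul, mul_assoc,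
      ← Real.exp_add, add_neg_cancel, Real.exp_zero, mul_one, (pp_mf _ _ _ _).2]
  have s1 : (lam H L φ).Sec (mf F V) := CUT.sec_mul hF hV
  have s2 := aSP n M H L φ _ hm hφ s1
  have a := aADJ n M H L φ _ _ hH hφ P2 s1
  simp only [e1, e2] at k
  rw [Bun.ip, Bun.ip] at a
  have c := (o.pp_rep P2 s2).2
  rw [k, a, neg_re, neg_neg, ← RCLike.re_to_complex, ← integral_re (it _ _ c.continuous),
    ← integral_const_mul]
  refine integral_mono (it _ _ c.re.continuous)
    ((it _ _ (o.pp_rep s2 s2).2.re.continuous.sqrt).const_mul _) fun x => ?_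
  exact (le_abs_self _).trans ((pcs g _ _ x).trans (mul_le_mul_of_nonneg_right
    (Real.sqrt_le_sqrt ((le_abs_self _).trans (hK x))) (Real.sqrt_nonneg _)))

end APS

theorem st_APS : St_APS := by
  intro n M _ H m V hH h2 hV ⟨C, hC⟩
  have hm := hH.toMet
  have hφ := (K3E.bKAN n M H m hm).1
  have k : (2 : ℝ) ≤ m := by exact_mod_cast h2
  have it := (mMU n M H hm).2.2.2.2.1 ℝ
  have s := (hm_iff (H := H).1 hV).1
  have cH := (aCU n M H H _ _ V hm hm.toTen hφ s).2.1
  obtain ⟨K, hK⟩ := isCompact_univ.exists_bound_of_continuousOn cH.continuousOn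
  refine ⟨|K| * |C|, by positivity, fun ε u hε hu hle => ?_⟩
  have hv := hu.const_mul ((m : ℝ) - 1)
  have e0 : 0 ≤ ((m : ℝ) - 1) * ε := mul_nonneg (by linarith) hε
  obtain ⟨B, B0, hB⟩ := APS.bd hH hφ s hV.hol hv
  have tθ := (hφ.clo.toTen.add ((mHES n M).2.2.2.2.2.2.2.2.1 H hm).toTen).add
    ((mHES n M).1 _ hv).toTen
  have c1 := (aCU n M H _ _ _ V hm tθ hφ s).2.1
  obtain ⟨-, c2, c3⟩ := aCU n M H _ _ _ V hm (tθ.add (hm.toTen.smul (((m : ℝ) - 1) * ε))) hφ s
  have c4 := c3 0 le_rfl (by simpa only [zero_smul, add_zero] using curv_le hm h2 hu hle)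
  refine le_of_mul_le_mul_left (a := (m : ℝ) - 1) ?_ (by linarith)
  rw [← integral_const_mul]
  simp only [← cu_curv hm m ε hu]
  refine le_of_forall_pos_le_add fun η hη => ?_
  obtain ⟨F, f1, f2, f3, f4⟩ := hC (η / (B + 1)) (by positivity)
  have i1 := it (fun x => F x * cu (M.hw (wk H m) + M.ric H + M.hs fun x => ((m : ℝ) - 1) * u x)
    (lk H m) V x) (f1.continuous.mul c1)
  have i2 := it _ f1.continuous
  refine (integral_mono (it _ c2) (i1.add (i2.const_mul (((m : ℝ) - 1) * ε * |K|)))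
    fun x => ?_).trans ?_
  · have a1 := c4 x
    have a2 := (le_abs_self _).trans ((hK x trivial).trans (le_abs_self K))
    have a3 := f2 x
    simp only [zero_mul, neg_zero, cu_add, Pi.add_apply] at a1 ⊢
    have a4 := mul_le_mul_of_nonneg_left a2 (mul_nonneg e0 (by linarith : 0 ≤ F x))
    nlinarith
  · simp only [Pi.add_apply]
    rw [integral_add i1 (i2.const_mul _), integral_const_mul]
    have a1 := (hB F f1).trans (mul_le_mul_of_nonneg_left f4 B0)
    have a2 := mul_le_mul_of_nonneg_left (f3.trans (le_abs_self C)) (mul_nonneg e0 (abs_nonneg K))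
    have a3 : B * (η / (B + 1)) ≤ η := by
      rw [← mul_div_assoc, div_le_iff₀ (by positivity)]
      nlinarith
    nlinarith

end Pool.Agent.Lib.NU4
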