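import Pool.Agent.Lib.NU4.Blue
import Pool.Agent.Lib.HLK.B_FK2
import Pool.Agent.Lib.HLK.B_FK3
import Pool.Agent.Lib.HLK.B_FK1

/-! Project nu4: the bundle with two slots. -/

open scoped Classical Topology ContDiff ComplexOrder Matrix Kronecker
open Set Filter MeasureTheory

set_option linter.unusedVariables false

noncomputable section

namespace Pool.Agent.Lib.NU4

open Pool.Agent.Lib.SV (E)
open Pool.Agent.Lib.HS32 Pool.Agent.Lib.HLK Pool.Agent.Lib.F4

namespace B2

variable {n : ℕ} {M : Mf n} {H : M.Fam (Mat n)} {m : ℕ}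

theorem f2 : St_FK2 := st_FK2 st_FK1

theorem f3 : St_FK3 := st_FK3 st_FK1 f2

theorem hl : (b2 M H m).Hl := fun e he e' he' x hx hx' A B => by
  obtain ⟨t1, t2, -, t3, -⟩ := (mTR n M).2.1 e he e' he' x hx hx'
  have hj : ∀ i j, HolN (fun w => jm (e ∘ e'.symm) w i j) (e' x) := fun i j => by
    filter_upwards [((mHOL n _ _).2.2 (BCHN.hol_comp t1 i)).2.1 j,
      (BCHN.jm_ev mHOL t1 i j).eventually_nhds] with w h1 h2 using h1.congr_of_eventuallyEq h2
  have hc : HolN (fun w => (jm (e ∘ e'.symm) w).det) (e' x) := BCHN.hol_det hj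
  have h0 : ∀ᶠ w in 𝓝 (e' x), (jm (e ∘ e'.symm) w).det ≠ 0 :=
    hc.self_of_nhds.continuousAt.eventually_ne (by
      have h := t3.self_of_nhds.2.2.2.2.2.2
      rw [e'.left_inv hx'] at h
      rw [← h]
      exact t2)
  filter_upwards [(f3 n _ _).1 hj A.1 B.1, (f3 n _ _).1 hj A.2 B.2, hc, h0, t3.eventually_nhds]
    with w h1 h1' h2 h3 h4
  refine (((h2.pow m).inv (pow_ne_zero m h3)).mul (h1.mul h1')).congr_of_eventuallyEq
    (h4.mono fun y hy => ?_)
  simp only [b2, jd, hy.2.2.2.2.2.2, Matrix.smul_apply, smul_eq_mul, Pi.mul_apply, Pi.inv_apply,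
    Pi.pow_apply, Matrix.kroneckerMap_apply]

theorem ok (hH : M.Met H) : (b2 M H m).Ok where
  tsm e he e' he' x hx hx' A B := ((mHOL n _ _).2.2 (hl e he e' he' x hx hx' A B)).1
  one e he x hx := by
    simp only [b2, jd, (mTR n M).2.2.1 e he x hx, (f2 n).1, Matrix.det_one, one_pow, inv_one,
      one_smul, Matrix.one_kronecker_one]
  mul e he e' he' x hx hx' e'' he'' hx'' := by
    simp only [b2, jd, ((mTR n M).2.1 e he e' he' x hx hx').2.2.2.2 e'' he'' hx'',
      ((f2 n).2 _).2.2.1, Matrix.det_mul, mul_pow, Matrix.mul_kronecker_mul, Matrix.smul_mul,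
      Matrix.mul_smul, smul_smul, mul_inv]
    rw [mul_comm]
  gsm e he z hz A B := by
    have h1 := ((f3 n _ _).2 (hH.sm e he z hz)).1
    have h2 : ContDiffAt ℝ ∞ (fun w => (H e w).det) z := by
      simp only [Matrix.det_apply']
      exact ContDiffAt.sum fun s _ => contDiffAt_const.mul
        (contDiffAt_prod fun i _ => hH.sm e he z hz _ _)
    exact ((h2.pow m).inv (pow_ne_zero m (hH.pos e he z hz).det_pos.ne')).mul
      ((h1 A.1 B.1).mul (h1 A.2 B.2))
  pos e he z hz := by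
    have h := ((f2 n).2 _).2.2.2.2.2 (hH.pos e he z hz)
    exact (h.kronecker h).smul (inv_pos.2 (pow_pos (hH.pos e he z hz).det_pos m))
  cmp e he e' he' x hx hx' := by
    simp only [b2, jd, hH.cmp e he e' he' x hx hx', ((f2 n).2 _).2.2.1, ((f2 n).2 _).1,
      Matrix.det_mul, Matrix.det_conjTranspose, mul_pow, mul_inv, Matrix.mul_kronecker_mul,
      Matrix.conjTranspose_smul, Matrix.conjTranspose_kronecker, Matrix.smul_mul, Matrix.mul_smul,
      smul_smul, star_inv₀, star_pow]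
    congr 1
    ring

end B2

theorem st_B2 : St_B2 := fun n M H m hH => ⟨B2.ok hH, B2.hl, fun h =>
  ⟨fun a => ⟨⟨fun e he z hz => contDiffAt_pi.2 fun i => ((mHOL n _ _).2.2 (a.hol e he z hz i)).1,
    fun e he e' he' x hx hx' => (a.cmp e he e' he' x hx hx').trans (Matrix.smul_mulVec _ _ _).symm⟩,
    a.hol⟩, fun a => ⟨a.2, fun e he e' he' x hx hx' =>
      (a.1.cmp e he e' he' x hx hx').trans (Matrix.smul_mulVec _ _ _)⟩⟩⟩

end Pool.Agent.Lib.NU4
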