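import Pool.Agent.Lib.NU4.Blue

/-! Project nu4: the bracket with a multiple of the field. -/

open scoped Classical Topology ContDiff ComplexOrder Matrix Kronecker
open Set Filter MeasureTheory

set_option linter.unusedVariables false

noncomputable section

namespace Pool.Agent.Lib.NU4

open Pool.Agent.Lib.SV (E)
open Pool.Agent.Lib.HS32 Pool.Agent.Lib.HLK Pool.Agent.Lib.F4
open Pool.Agent.Lib.K3E (kan wk lk)

namespace C68

variable {n : ℕ}

theorem br_congr {V U U' : E n → E n} {z : E n} (h : U =ᶠ[𝓝 z] U') : br V U z = br V U' z := by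
  have h1 : ∀ i k, dz k (fun w => U w i) z = dz k (fun w => U' w i) z := fun i k =>
    dz_congr (h.mono fun w hw => congrFun hw i)
  funext i
  simp only [br, dirv, dir, Pi.sub_apply, h1, h.eq_of_nhds]

theorem cont {σ : Type} {s : E n → σ → ℂ} {z : E n} (h : HolV s z) (i : σ) :
    ContinuousAt (fun w => s w i) z := (h i).self_of_nhds.continuousAt

theorem swap (hF : St_FK) (v w : E n) :
    crv v *ᵥ crv w *ᵥ vac n = -(crv w *ᵥ crv v *ᵥ vac n) := by
  rw [Matrix.mulVec_mulVec, Matrix.mulVec_mulVec, (hF n v w 0 0 0 0).1, Matrix.neg_mulVec]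

theorem loc (hF : St_FK) (hL : St_LIE) {W U V : E n → E n} {z : E n} {c d : ℂ} (hW : HolV W z)
    (hU : HolV U z) (hV : HolV V z) (h0 : W z ≠ 0) (hw : ∀ᶠ w in 𝓝 z, wg (W w) (U w) = 0)
    (hc : c • W z = d • U z) : ∃ s : ℂ, U z = s • W z ∧
      crv (br U V z - c • V z) *ᵥ crv (U z) *ᵥ vac n =
        (s * s) • crv (br W V z - d • V z) *ᵥ crv (W z) *ᵥ vac n := by
  obtain ⟨k, hk⟩ := Function.ne_iff.1 h0
  have hk' : ∀ᶠ w in 𝓝 z, W w k ≠ 0 := (cont hW k).eventually_ne hk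
  obtain ⟨f, hf⟩ : ∃ f : E n → ℂ, f = fun w => U w k / W w k := ⟨_, rfl⟩
  have f1 : HolN f z := by
    filter_upwards [hk', hW k, hU k] with w a b c
    simp only [hf, div_eq_mul_inv]
    exact c.mul (b.inv a)
  have f2 : U =ᶠ[𝓝 z] fun w => f w • W w := by
    filter_upwards [hk', hw] with w a b
    funext i
    have := congrFun (congrFun b i) k
    simp only [wg, Matrix.of_apply, Matrix.zero_apply] at this
    rw [hf, Pi.smul_apply, smul_eq_mul, div_mul_eq_mul_div, eq_div_iff a]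
    linear_combination -this
  have f3 : U z = f z • W z := f2.eq_of_nhds
  have f4 : c = f z * d := by
    have := congrFun hc k
    rw [f3] at this
    simp only [Pi.smul_apply, smul_eq_mul] at this
    exact mul_right_cancel₀ hk (by linear_combination this)
  have h0 : HolV (fun _ : E n => (0 : Fs n → ℂ)) z := fun i =>
    Eventually.of_forall fun _ => differentiableAt_const _
  have l1 := (hL n U V _ f z hU hV h0 f1).2.2.2.2.2.2.2.2.2.2.2.2.1
  have l2 := (hL n V W _ f z hV hW h0 f1).2.2.2.2.2.2.2.2.2.2.2.2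
  have e : br U V z - c • V z = f z • (br W V z - d • V z) - dir V f z • W z := by
    rw [l1, br_congr f2, l2.2.2.2.1, l2.1, f4]
    module
  have a := fun v w c => hF n v w 0 0 c 0
  refine ⟨f z, f3, ?_⟩
  rw [e, f3, (a _ _ 0).2.2.2.2.2.2.1, (a _ 0 _).2.2.2.2.2.2.2.1, (a _ 0 _).2.2.2.2.2.2.2.1,
    (a _ 0 _).2.2.2.2.2.2.2.1, Matrix.sub_mulVec]
  simp only [Matrix.smul_mulVec, Matrix.mulVec_smul, Matrix.mulVec_mulVec, Matrix.smul_mul,
    (a _ 0 0).2.1, Matrix.zero_mulVec, smul_zero, sub_zero, smul_smul]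

theorem key (hF : St_FK) (hL : St_LIE) (hK : St_KIT) (hN : St_NAB) {M : Mf n}
    {H : M.Fam (Mat n)} {m : ℕ} {U V : M.Fam (E n)} (hH : M.Met H) (hm : 2 ≤ m) (hU : HT M m U)
    (hV : HT M 1 V) : ∃ ϖ, HM M (m + (1 + m)) ϖ ∧ DgM M 2 ϖ ∧
      M.All fun e z => ϖ e z = crv (yy M m U V e z) *ᵥ crv (U e z) *ᵥ vac n := by
  obtain ⟨u1, u2, -⟩ := (hK n M H m 0 hH).2.1 U hU
  have a := fun v w => hF n v w 0 0 0
  have r1 := ((hK n M H m _ hH).2.2.1 1 V hV).1 u1
  have z1 : Zr M (wd M U (vec M U)) := fun e he z hz => by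
    simp only [wd, vec, Matrix.mulVec_mulVec, (a _ 0 0).2.1, Matrix.zero_mulVec]
  have z2 : Zr M (wd M U (wd M V (vec M U))) := fun e he z hz => by
    simp only [wd, vec]
    rw [swap hF (V e z), Matrix.mulVec_neg, Matrix.mulVec_mulVec, (a _ 0 0).2.1,
      Matrix.zero_mulVec, neg_zero]
  have z3 : Zr M (nab M m m U (vec M U)) := fun e he z hz => by
    have h0 : HolV (fun _ : E n => (0 : Fs n → ℂ)) z := fun i =>
      Eventually.of_forall fun _ => differentiableAt_const _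
    have l := (hL n _ _ _ (fun _ => 0) z (hU.hol e he z hz) (hU.hol e he z hz) h0
      (Eventually.of_forall fun _ => differentiableAt_const _)).2.2.2.2.2.2.2.2.2.2.2.1
    have m1 : (m : ℂ) - 1 ≠ 0 := sub_ne_zero.2 (by exact_mod_cast (by omega : m ≠ 1))
    change crv (U e z) *ᵥ pf0 (fun w => crv (U e w) *ᵥ vac n) z - _ • crv (U e z) *ᵥ vac n = 0
    rw [l, div_self m1, one_mul, Matrix.mulVec_smul, sub_self]
  obtain ⟨n1, -, n2, -⟩ := hN n M H m (1 + m) U _ hH hm hU r1 z2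
  exact ⟨_, n1, n2 2 fun e he z hz => ((a (V e z) 0 _).2.2.2.2.2.2.2.2.2.2.2.2.2.2.2.2.2.2.2.2 1
    (u2 e he z hz)).1, (hN n M H m m U _ hH hm hU u1 z1).2.2.2.2 V hV z3⟩

end C68

open C68 in
theorem st_CMP (hF : St_FK) (hA : St_ALG) (hL : St_LIE) (hK : St_KIT) (hN : St_NAB) : St_CMP := by
  intro n M hc H m W U V π hH hm hW nW hU nU hV hπ dπ zU hd zW zY nY
  obtain ⟨ϖ, p1, p2, p3⟩ := key hF hL hK hN hH hm hU hV
  obtain ⟨τ, t1, -, t3⟩ := key hF hL hK hN hH le_rfl hW hV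
  have den : ∀ (l : ℕ) Y, HT M l Y → ¬Zr M Y → M.All fun e z => ∃ᶠ w in 𝓝 z, Y e w ≠ 0 :=
    fun l Y hY nY e he z hz => by
      obtain ⟨u1, -, u3⟩ := (hK n M H l 0 hH).2.1 Y hY
      refine (((hK n M H l _ hH).2.2.2.2.1 u1).2.2.2.2 hc (u3.1 nY) e he z hz).mono
        fun w hw h0 => hw ?_
      have := (hF n 0 0 0 0 0 0).2.2.2.2.2.2.2.1
      rw [zero_smul, zero_smul] at this
      simp only [vec, h0, this, Matrix.zero_mulVec]
  have lc : M.All fun e z => W e z ≠ 0 → ∃ s : ℂ, U e z = s • W e z ∧ ϖ e z = (s * s) • τ e z :=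
    fun e he z hz h0 => by
      rw [p3 e he z hz, t3 e he z hz]
      exact loc hF hL (hW.hol e he z hz) (hU.hol e he z hz) (hV.hol e he z hz) h0
        ((Mf.AllOn.ev zU he hz).mono fun w hw =>
          (hF n _ _ 0 0 0 0).2.2.2.2.2.2.2.2.2.2.2.2.2.2.2.1.1 hw) (hd e he z hz)
  refine ⟨ϖ, (by omega : m + (1 + m) = 2 * m + 1) ▸ p1, p2, ?_, fun e he z hz I J => ?_⟩
  · obtain ⟨e, he, z, hz, h1⟩ := nY
    have h2 : τ e z ≠ 0 := by
      rw [t3 e he z hz, swap hF, neg_ne_zero]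
      exact h1
    obtain ⟨I, hI⟩ := Function.ne_iff.1 h2
    obtain ⟨w, a, b, c⟩ := ((den m U hU nU e he z hz).and_eventually
      (((cont (t1.hol e he z hz) I).eventually_ne hI).and (e.open_target.mem_nhds hz))).exists
    have h0 : W e w ≠ 0 := fun h0 => b (by
      have := (hF n 0 0 0 0 0 0).2.2.2.2.2.2.2.1
      rw [zero_smul, zero_smul] at this
      simp only [t3 e he w c, h0, this, Matrix.zero_mulVec, Matrix.mulVec_zero, Pi.zero_apply])
    obtain ⟨s, s1, s2⟩ := lc e he w c h0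
    have s0 : s ≠ 0 := fun h => a (by rw [s1, h, zero_smul])
    refine ⟨e, he, w, c, fun h => ?_⟩
    have := congrFun (s2.symm.trans h) I
    exact mul_ne_zero (mul_ne_zero s0 s0) b this
  · have c1 := cont (p1.hol e he z hz)
    have c2 := cont (hπ.hol e he z hz)
    have c3 : ContinuousAt (fun w => ϖ e w I * π e w J - ϖ e w J * π e w I) z :=
      ((c1 I).mul (c2 J)).sub ((c1 J).mul (c2 I))
    refine sub_eq_zero.1 ((isClosed_singleton (x := (0 : ℂ))).mem_of_frequently_of_tendsto ?_ c3)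
    refine ((den 2 W hW nW e he z hz).and_eventually (e.open_target.mem_nhds hz)).mono
      fun w ⟨a, b⟩ => ?_
    obtain ⟨s, -, s2⟩ := lc e he w b a
    have := (hA.1 n (yy M 2 W V e w) (W e w) 0 (π e w)).1 (dπ e he w b) (zY e he w b)
      (zW e he w b) I J
    rw [← t3 e he w b] at this
    simp only [mem_singleton_iff, s2, Pi.smul_apply, smul_eq_mul]
    linear_combination s * s * this

end Pool.Agent.Lib.NU4
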