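import Pool.Agent.Lib.NU4.Blue
import Pool.Agent.Lib.HLK.B_FK1
import Pool.Agent.Lib.HLK.B_FK2
import Pool.Agent.Lib.HLK.B_FK3
import Pool.Agent.Lib.HLK.B_SP

/-! The affine structure given by an invariant multivector. -/

open scoped Classical Topology ContDiff ComplexOrder Matrix
open Set Filter Complex

noncomputable section

namespace Pool.Agent.Lib.NU4

open Pool.Agent.Lib.SV (E)
open Pool.Agent.Lib.HS32 Pool.Agent.Lib.HLK Pool.Agent.Lib.F4 Pool.Agent.Lib.KP
open Pool.Agent.Lib.K3E (kan wk lk triv)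

namespace E76

variable {n : ℕ} {M : Mf n} {H : M.Fam (Mat n)}

theorem wt (hH : M.Met H) (m : ℕ) : M.WtC (kan M m) (wk H m) := by
  have h := (mINV n M H hH).2.2.2.2.2.2.1
  refine ⟨fun e he z hz => contDiffAt_const.mul (h.sm e he z hz), fun e he e' he' x hx hx' => ?_⟩
  have k := h.cmp e he e' he' x hx hx'
  simp only [wk, kan, Mf.Co.tw, triv, mul_one, map_pow, Real.log_pow] at k ⊢
  rw [k]; ring

theorem sec (hH : M.Met H) {m : ℕ} {W : M.Fam (Fs n → ℂ)} (h : (lk H m).Sec W) :
    (lk H m).Sec ((oP H (wk H m)).ap W) :=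
  st_SP st_FK1 (st_FK2 st_FK1) (st_FK3 st_FK1 (st_FK2 st_FK1)) n M H _ _ W hH (wt hH m) h

theorem p0 (hH : M.Met H) (m : ℕ) (W : M.Fam (Fs n → ℂ)) : M.All fun e z =>
    (oP H (wk H m)).ap W e z = pf0 (W e) z - ((m : ℂ) - 1) • anv (gd (ld (H e)) z) *ᵥ W e z := by
  intro e he z hz
  have d := cd_diff (cd_ofReal ((mINV n M H hH).2.2.2.2.2.2.1.sm e he z hz))
  have k : (fun w => (T60.phC M H (wk H m) e w : ℂ)) = fun w => ((m : ℂ) - 1) * ld (H e) w := by
    funext w
    simp only [T60.phC, wk, ld]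
    push_cast; ring
  have k2 : ∀ i, dz i (fun w => ((m : ℂ) - 1) * ld (H e) w) z = ((m : ℂ) - 1) * dz i (ld (H e)) z :=
    fun i => dz_const_mul _ d
  rw [SP.ap_eq, k]
  simp only [k2, pf0, anv, gd, Matrix.mulVec_sub, Matrix.mulVec_smul, Finset.sum_sub_distrib,
    Matrix.sum_mulVec, Matrix.smul_mulVec, Finset.smul_sum, smul_smul]

/-- The product of the field and of the weighted divergence. -/
theorem wp (hF : St_FK) (hH : M.Met H) (m : ℕ) {V : M.Fam (E n)} {W : M.Fam (Fs n → ℂ)}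
    (h : Zr M (wd M V W)) : M.All fun e z => wd M V ((oP H (wk H m)).ap W) e z =
      lie (V e) (W e) z - (((m : ℂ) - 1) * a0 M H V e z) • W e z := by
  intro e he z hz
  have k := congrArg (· *ᵥ W e z) (hF n (V e z) 0 (gd (ld (H e)) z) 0 0 0).2.2.1
  have k0 : crv (V e z) *ᵥ W e z = 0 := h e he z hz
  have k1 : gd (ld (H e)) z ⬝ᵥ V e z = a0 M H V e z := by
    simp only [a0, dir, gd, dotProduct, mul_comm]
  simp only [Matrix.add_mulVec, ← Matrix.mulVec_mulVec, k0, Matrix.mulVec_zero, zero_add, k1,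
    Matrix.smul_mulVec, Matrix.one_mulVec] at k
  simp only [wd, p0 hH m W e he z hz, Matrix.mulVec_sub, Matrix.mulVec_smul, k, smul_smul, lie]

end E76

open E76 in
theorem st_EIG (hL : St_LIE) (hF : St_FK) (hK : St_KIT) : St_EIG := by
  intro n M H V m g hH hV hm hg h0 hp
  have m1 : (m : ℂ) - 1 ≠ 0 := sub_ne_zero.2 (by exact_mod_cast (by omega : m ≠ 1))
  have ex : ∀ (e : M.Ch) (z : E n), ∃ b : ℂ, e ∈ M.C → z ∈ e.target → g e z ≠ 0 →
      lie (V e) (g e) z = (((m : ℂ) - 1) * b) • g e z := fun e z => by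
    by_cases c : g e z = 0
    · exact ⟨0, fun _ _ k => absurd c k⟩
    obtain ⟨I, hI⟩ := Function.ne_iff.1 c
    have hI' : g e z I ≠ 0 := hI
    refine ⟨lie (V e) (g e) z I / (((m : ℂ) - 1) * g e z I), fun he hz _ => funext fun J => ?_⟩
    have := hp e he z hz J I
    simp only [Pi.smul_apply, smul_eq_mul]
    field_simp
    linear_combination this
  choose b hb using ex
  have li := fun e he z hz => hL n (V e) (V e) (g e) (fun _ => 0) z (hV.hol e he z hz)
    (hV.hol e he z hz) (hg.hol e he z hz) (Eventually.of_forall fun _ => differentiableAt_const _)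
  refine ⟨b, ⟨fun e he z hz k => ?_, fun e he e' he' x hx hx' k => ?_⟩, fun e he z hz => hb e z he hz,
    fun e z => -dL (dj (V e) z) + dv (V e) z • 1, fun e he z hz => ⟨fun i j => ?_, fun k => ?_⟩⟩
  · obtain ⟨I, hI⟩ := Function.ne_iff.1 k
    have g1 := hg.hol e he z hz I
    have g2 := g1.self_of_nhds.continuousAt.eventually_ne (y := 0) hI
    have ev : ∀ᶠ w in 𝓝 z, b e w = lie (V e) (g e) w I / (((m : ℂ) - 1) * g e w I) := by
      filter_upwards [g2, e.open_target.mem_nhds hz] with w a1 a2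
      rw [hb e w he a2 (fun c => a1 (congrFun c I)), Pi.smul_apply, smul_eq_mul]
      field_simp
    filter_upwards [g1, g2, (li e he z hz).2.2.2.2.1 I, ev.eventually_nhds] with w a1 a2 a3 a4
    have a5 := a1.const_mul ((m : ℂ) - 1)
    exact ((a3.fun_mul (a5.fun_inv (mul_ne_zero m1 a2))).congr_of_eventuallyEq a4 :)
  · have hz := e.map_source hx
    have hz' := e'.map_source hx'
    have j0 : jd M e e' x ≠ 0 := ((mTR n M).2.1 e he e' he' x hx hx').2.1
    have c0 := hg.cmp e he e' he' x hx hx'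
    have k' : g e' (e' x) ≠ 0 := fun c => k (by rw [c0, c, Matrix.mulVec_zero, smul_zero])
    have s := (((hK n M H m _ hH).2.2.1 1 V (by exact_mod_cast hV)).2
      (sec hH ((hK n M H m g hH).1.1 hg).1)).cmp e he e' he' x hx hx'
    beta_reduce at s c0
    rw [wp hF hH m h0 e he _ hz, wp hF hH m h0 e' he' _ hz', hb e _ he hz k, hb e' _ he' hz' k',
      ← sub_smul, ← sub_smul] at s
    simp only [lam, kan, Mf.Co.tw, triv, mul_one, Matrix.smul_mulVec, Matrix.mulVec_smul,
      smul_smul] at s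
    have c1 : La (M.J e e' x) *ᵥ g e' (e' x) = jd M e e' x ^ m • g e (e x) := by
      rw [c0, smul_smul, mul_inv_cancel₀ (pow_ne_zero m j0), one_smul]
    rw [c1, smul_smul] at s
    have s2 := smul_left_injective ℂ k s
    simp only [jd] at j0 ⊢
    rw [pow_add] at s2
    field_simp at s2
    rw [← s2, mul_comm]
  · have a1 := ((mHOL n _ _).2.2 (li e he z hz).2.1).1.continuousAt
    have a2 : ∀ p q, ContinuousAt (fun w => dj (V e) w p q) z := fun p q =>
      (cd_dz ((mHOL n _ _).2.2 (hV.hol e he z hz p)).1 q).continuousAt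
    simp only [dL, Matrix.add_apply, Matrix.neg_apply, Matrix.sum_apply, Matrix.smul_apply,
      smul_eq_mul]
    exact (tendsto_finsetSum _ fun p _ => tendsto_finsetSum _ fun q _ =>
      (a2 p q).mul continuousAt_const).neg.add (a1.mul continuousAt_const)
  · have a := (li e he z hz).2.2.2.2.2.2.2.1 (Mf.AllOn.ev h0 he hz)
    rw [← hb e z he hz k, a, lder, Matrix.add_mulVec, Matrix.neg_mulVec, Matrix.smul_mulVec,
      Matrix.one_mulVec]
    abel

end Pool.Agent.Lib.NU4
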