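import Pool.Agent.Lib.NU4.B_IX0

/-! Project nu4: a parallel multivector gives a class. -/

open scoped Classical Topology ContDiff ComplexOrder Matrix
open Set MeasureTheory Complex Filter

set_option linter.unusedVariables false

noncomputable section

namespace Pool.Agent.Lib.NU4

open Pool.Agent.Lib.SV (E)
open Pool.Agent.Lib.HS32 Pool.Agent.Lib.KP Pool.Agent.Lib.HLK
open Pool.Agent.Lib.K3E (kan lk)

namespace EV

/-- The pointwise inequality of Cauchy and Schwarz. -/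
theorem pcs {n : ℕ} {M : Mf n} {σ : Type} [Fintype σ] [DecidableEq σ] (g : Geo M σ)
    (U W : M.Fam (σ → ℂ)) (x : M.X) : ‖g.b.pp U W x‖ ≤ √(g.b.pn U x) * √(g.b.pn W x) := by
  let c : PreInnerProductSpace.Core ℂ (M.Fam (σ → ℂ)) :=
    { inner U W := g.b.pp U W x
      conj_inner_symm U W := Pre.pp_star _ _ x
      re_inner_nonneg U := Pre.pn_nonneg U x
      add_left U V W := by
        simp only [Bun.pp, Mf.ev, Pi.add_apply, star_add, add_dotProduct]
      smul_left U W r := by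
        simp only [Bun.pp, Mf.ev, Pi.smul_apply, star_smul, smul_dotProduct, smul_eq_mul]
        rfl }
  have h := @InnerProductSpace.Core.inner_mul_inner_self_le ℂ _ _ _ _ c U W
  change ‖g.b.pp U W x‖ * ‖g.b.pp W U x‖ ≤ g.b.pn U x * g.b.pn W x at h
  rw [← Pre.pp_star (g := g) W U x, norm_star, ← sq] at h
  rw [← Real.sqrt_mul (Pre.pn_nonneg U x)]
  exact Real.le_sqrt_of_sq_le h

/-- A parallel multivector is orthogonal in the limit to the image of `Q`. -/
theorem weak {n : ℕ} {M : Mf n} [M.Cpt] {H : M.Fam (Mat n)} {a : ℝ → M.X → ℝ} {m : ℕ}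
    {W y : M.Fam (Fs n → ℂ)} (hc : Cx M H a) (hW : (lk H m).Sec W) (hy : (lk H m).Sec y)
    (hp : Par M H a m W) : Tendsto (fun ε => ∫ x, (Real.exp (-(((m : ℝ) - 1) * a ε x)) : ℂ) *
      (lk H m).pp ((oQ H).ap y) W x ∂M.mu H) (𝓝[>] 0) (𝓝 0) := by
  have hH := hc.kae.toMet
  have w := (K3E.bKAN n M H m hH).1
  obtain ⟨ob, -, a1⟩ := aLAM n M H _ _ hH w
  let g : Geo M (Fs n) := ⟨H, lk H m, hH, ob⟩
  have it := (mMU n M H hH).2.2.2.2.1 ℝ
  obtain ⟨B, B0, hB⟩ := (ob.pp_rep hy hy).2.re.exists_bound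
  have lim := (hp ((m : ℝ) - 1)).const_mul √B
  rw [mul_zero] at lim
  refine squeeze_zero_norm' ?_ lim
  filter_upwards [Ioc_mem_nhdsGT one_pos] with ε hε
  have su : M.Sm fun x => ((m : ℝ) - 1) * a ε x := (hc.out.sm ε hε).const_mul _
  obtain ⟨a2, a3⟩ := a1 fun x => ((m : ℝ) - 1) * a ε x
  have w2 := (a2 su).1
  have hW' : (lw M H m (a ε)).Sec W := ⟨hW.sm, hW.cmp⟩
  have hP := aSP n M H _ _ W hH w2 hW'
  have hP' : (lk H m).Sec ((oP H (wt M H m (a ε))).ap W) := ⟨hP.sm, hP.cmp⟩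
  have ad := aADJ n M H _ _ y W hc.kae w2 ⟨hy.sm, hy.cmp⟩ hW'
  simp only [Bun.ip, (a3 _ _ _).1] at ad
  simp only [mul_comm _ ((lk H m).pp _ W _)]
  rw [ad, norm_neg, ← integral_const_mul]
  refine norm_integral_le_of_norm_le ((it _ (su.neg.exp.continuous.mul
    (ob.pp_rep hP' hP').2.re.continuous.sqrt)).const_mul _) (Eventually.of_forall fun x => ?_)
  rw [norm_mul, norm_real, Real.norm_of_nonneg (Real.exp_pos _).le, mul_comm, mul_left_comm]
  refine mul_le_mul_of_nonneg_left ((pcs g _ _ x).trans (mul_le_mul_of_nonneg_right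
    (Real.sqrt_le_sqrt ((le_abs_self _).trans (hB x))) (Real.sqrt_nonneg _))) (Real.exp_pos _).le

end EV

theorem st_EV : St_EV := by
  intro n M _ H a m s W hc hm hs hW hz hp hP
  have hK := hc.kae
  have hH := hK.toMet
  have w := (K3E.bKAN n M H m hH).1
  have ob := (aLAM n M H _ _ hH w).1
  have hD := (aSKW n M H _ _ hK w).1
  obtain ⟨ε, hε, hl⟩ := IDX.bLEV aSKW aWS aREL aDNS IDX.bPAR n M H _ _ hH ob hD hK w
  obtain ⟨r, rfl, hr⟩ : ∃ r : ℝ, s = r ∧ r * r = 1 := by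
    rcases hs with rfl | rfl
    · exact ⟨1, by simp, by simp⟩
    · exact ⟨-1, by simp, by simp⟩
  have hS : (lk H m).Sec W := ⟨fun e he z hz => contDiffAt_pi.2 fun i =>
    ((mHOL n _ _).2.2 (hW.hol e he z hz i)).1, fun e he e' he' x hx hx' => by
      refine (hW.cmp e he e' he' x hx hx').trans ?_
      simp [lam, kan, K3E.triv, Mf.Co.tw, Matrix.smul_mulVec]⟩
  have m1 : (1 : ℝ) ≤ (m : ℝ) - 1 := by
    have : (2 : ℝ) ≤ m := by exact_mod_cast hm
    linarith
  obtain ⟨δ, C, δ0, hC⟩ := hc.out.itg (2 * ((m : ℝ) - 1)) (by linarith)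
  let t : ℕ → ℝ := fun j => min δ 1 * (1 / ((j : ℝ) + 1))
  have t1 : ∀ j, 0 < t j ∧ t j ≤ min δ 1 := fun j =>
    ⟨mul_pos (lt_min δ0 one_pos) (by positivity), mul_le_of_le_one_right (lt_min δ0 one_pos).le (by
      rw [div_le_one (by positivity)]
      linarith [j.cast_nonneg (α := ℝ)])⟩
  have t2 : ∀ j, t j ∈ Ioc (0 : ℝ) 1 := fun j => ⟨(t1 j).1, (t1 j).2.trans (min_le_right _ _)⟩
  have t3 : Tendsto t atTop (𝓝[>] 0) := tendsto_nhdsWithin_iff.2 ⟨by
    simpa only [mul_zero] using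
      (tendsto_one_div_add_atTop_nhds_zero_nat (𝕜 := ℝ)).const_mul (min δ 1),
    Eventually.of_forall fun j => (t1 j).1⟩
  refine (IX0.iff hH ob hD hε hl hr).2 (ev31 hK w hH ob hD ε hε hl hr hS hW.hol hz hp
    (l := atTop) (F := fun j x => Real.exp (-(((m : ℝ) - 1) * a (t j) x))) (C := C)
    (fun j => ⟨((hc.out.sm _ (t2 j)).const_mul _).neg.exp.continuous, fun x => ?_, ?_⟩)
    fun y hy => (EV.weak hc hS hy hP).comp t3)
  · have := Real.one_le_exp (x := -(((m : ℝ) - 1) * a (t j) x))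
      (by nlinarith [hc.out.le _ (t2 j) x])
    linarith
  · refine Eq.trans_le ?_ (hC _ (t2 j) ((t1 j).2.trans (min_le_left _ _)))
    refine integral_congr_ae (Eventually.of_forall fun x => ?_)
    beta_reduce
    rw [← Real.exp_nat_mul]
    exact congrArg _ (by push_cast; ring)

end Pool.Agent.Lib.NU4
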