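import Pool.Agent.Lib.F4.Clo
import Pool.Agent.Lib.F4.A_XT
import Pool.Agent.Lib.F4.BlueS

/-! Project nu4: the product of a vector and a multivector. -/

open scoped Classical Topology ContDiff ComplexOrder Matrix
open Set Filter

noncomputable section

namespace Pool.Agent.Lib.NU4.W98

open Pool.Agent.Lib.SV (E)
open Pool.Agent.Lib.HS32 Pool.Agent.Lib.HLK Pool.Agent.Lib.F4
open Pool.Agent.Lib.K3E (lk kan wk triv)
open Pool.Agent.Lib.F4.Clo (U1 vac)

variable {n : ℕ}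

/-- The product with a vector. -/
def cv (v : E n) : Mx (Fs n) := ∑ k, v k • cr k

/-- The contraction with a covector. -/
def av (b : E n) : Mx (Fs n) := ∑ k, b k • an k

/-- The squared norm of a multivector. -/
def nn (H : Mat n) (Y : Fs n → ℂ) : ℝ := (star Y ⬝ᵥ La H *ᵥ Y).re

/-- The curvature term at a point. -/
def qn (θ H : Mat n) (Y : Fs n → ℂ) : ℝ := (star Y ⬝ᵥ CU.qm θ (La H) an *ᵥ Y).re

theorem car (b v : E n) : av b * cv v + cv v * av b = (b ⬝ᵥ v) • (1 : Mx (Fs n)) := by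
  have h : cv v * av b = ∑ i, ∑ j, (b i * v j) • (cr j * an i) := by
    simp only [av, cv, Finset.sum_mul, Finset.mul_sum, Matrix.smul_mul, Matrix.mul_smul, smul_smul]
  have h' : av b * cv v = ∑ i, ∑ j, (b i * v j) • (an i * cr j) := by
    simp only [av, cv, Finset.sum_mul, Finset.mul_sum, Matrix.smul_mul, Matrix.mul_smul, smul_smul]
    rw [Finset.sum_comm]
    simp only [mul_comm]
  rw [h, h', ← Finset.sum_add_distrib, dotProduct, Finset.sum_smul]
  refine Finset.sum_congr rfl fun i _ => ?_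
  simp only [← Finset.sum_add_distrib, ← smul_add, ((aFK1 n).1 _ _).2.2, smul_ite, smul_zero,
    Finset.sum_ite_eq, Finset.mem_univ, if_true]

theorem cvcv (v w : E n) : cv v * cv w + cv w * cv v = 0 := by
  have h : cv w * cv v = ∑ i, ∑ j, (v i * w j) • (cr j * cr i) := by
    simp only [cv, Finset.sum_mul, Finset.mul_sum, Matrix.smul_mul, Matrix.mul_smul, smul_smul]
  have h' : cv v * cv w = ∑ i, ∑ j, (v i * w j) • (cr i * cr j) := by
    simp only [cv, Finset.sum_mul, Finset.mul_sum, Matrix.smul_mul, Matrix.mul_smul, smul_smul]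
    rw [Finset.sum_comm]
    simp only [mul_comm]
  rw [h, h', ← Finset.sum_add_distrib]
  simp only [← Finset.sum_add_distrib, ← smul_add, ((aFK1 n).1 _ _).1, smul_zero,
    Finset.sum_const_zero]

theorem cv_ct (v : E n) : (cv v)ᴴ = av (star v) := by
  simp only [cv, av, an, Matrix.conjTranspose_sum, Matrix.conjTranspose_smul, Pi.star_apply]

theorem av_ct (b : E n) : (av b)ᴴ = cv (star b) := by
  simp only [cv, av, an, Matrix.conjTranspose_sum, Matrix.conjTranspose_smul, Pi.star_apply,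
    Matrix.conjTranspose_conjTranspose]

theorem cv_smul (c : ℂ) (v : E n) : cv (c • v) = c • cv v := by
  simp only [cv, Finset.smul_sum, smul_smul, Pi.smul_apply, smul_eq_mul]

theorem cv_add (v w : E n) : cv (v + w) = cv v + cv w := by
  simp only [cv, Pi.add_apply, add_smul, Finset.sum_add_distrib]

theorem la_cv (g : Mat n) (v : E n) : La g * cv v = cv (g *ᵥ v) * La g := by
  simp only [cv, Finset.sum_mul, Finset.mul_sum, Matrix.smul_mul, Matrix.mul_smul,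
    ((aFK2 n).2 g).2.2.2.1, Finset.smul_sum, smul_smul, Matrix.mulVec, dotProduct,
    Finset.sum_smul]
  rw [Finset.sum_comm]
  simp only [mul_comm]

theorem av_la (g : Mat n) (b : E n) : av b * La g = La g * av (b ᵥ* g) := by
  simp only [av, Finset.sum_mul, Finset.mul_sum, Matrix.smul_mul, Matrix.mul_smul,
    ((aFK2 n).2 g).2.2.2.2.1, Finset.smul_sum, smul_smul, Matrix.vecMul, dotProduct,
    Finset.sum_smul]
  exact Finset.sum_comm

theorem u1_cv (v : E n) : U1 n *ᵥ v = cv v *ᵥ vac n := by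
  simp only [Clo.u1_eq, cv, Matrix.sum_mulVec, Matrix.smul_mulVec]

theorem av_vac (b : E n) : av b *ᵥ vac n = 0 := by
  simp only [av, Matrix.sum_mulVec, Matrix.smul_mulVec, Clo.an_vac, smul_zero,
    Finset.sum_const_zero]

theorem av_cv (b v : E n) (Y : Fs n → ℂ) :
    av b *ᵥ cv v *ᵥ Y = (b ⬝ᵥ v) • Y - cv v *ᵥ av b *ᵥ Y := by
  rw [Matrix.mulVec_mulVec, Matrix.mulVec_mulVec, eq_sub_iff_add_eq, ← Matrix.add_mulVec, car,
    Matrix.smul_mulVec, Matrix.one_mulVec]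

theorem pyth {H : Mat n} (hH : H.IsHermitian) (v : E n) :
    (cv v)ᴴ * La H * cv v + (av (star v ᵥ* H))ᴴ * La H * av (star v ᵥ* H) =
      (star v ⬝ᵥ H *ᵥ v) • La H := by
  have e : star (star v ᵥ* H) = H *ᵥ v := by rw [Matrix.star_vecMul, star_star, hH.eq]
  rw [cv_ct, av_ct, e, Matrix.mul_assoc, Matrix.mul_assoc, la_cv, ← av_la, ← Matrix.mul_assoc,
    ← Matrix.mul_assoc, ← add_mul, car, Matrix.smul_mul, Matrix.one_mul]

theorem nn_mv (H : Mat n) (A : Mx (Fs n)) (Y : Fs n → ℂ) :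
    nn H (A *ᵥ Y) = (star Y ⬝ᵥ (Aᴴ * La H * A) *ᵥ Y).re := by
  simp only [nn, ← Matrix.mulVec_mulVec, Matrix.star_mulVec, ← Matrix.dotProduct_mulVec]

theorem nn_nonneg {H : Mat n} (hH : H.PosDef) (Y : Fs n → ℂ) : 0 ≤ nn H Y :=
  (Complex.le_def.1 ((((aFK2 n).2 H).2.2.2.2.2 hH).posSemidef.dotProduct_mulVec_nonneg Y)).1

theorem nn_pos {H : Mat n} (hH : H.PosDef) {Y : Fs n → ℂ} (h : Y ≠ 0) : 0 < nn H Y :=
  (Complex.pos_iff.1 ((((aFK2 n).2 H).2.2.2.2.2 hH).dotProduct_mulVec_pos h)).1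

theorem nn_smul (H : Mat n) (c : ℂ) (Y : Fs n → ℂ) : nn H (c • Y) = ‖c‖ ^ 2 * nn H Y := by
  have : c * star c = ((‖c‖ ^ 2 : ℝ) : ℂ) := by
    rw [Complex.star_def, Complex.mul_conj, Complex.normSq_eq_norm_sq]
  simp only [nn, star_smul, Matrix.mulVec_smul, smul_dotProduct, dotProduct_smul, smul_eq_mul,
    ← mul_assoc, this, Complex.re_ofReal_mul]

theorem nn_sub {H : Mat n} (hH : H.PosDef) (X Y : Fs n → ℂ) :
    nn H (X - Y) ≤ 2 * nn H X + 2 * nn H Y := by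
  have h := nn_nonneg hH (X + Y)
  simp only [nn, star_add, star_sub, Matrix.mulVec_add, Matrix.mulVec_sub, add_dotProduct,
    sub_dotProduct, dotProduct_add, dotProduct_sub, Complex.add_re, Complex.sub_re] at h ⊢
  linarith

theorem nn_cv {H : Mat n} (hH : H.PosDef) (v : E n) (Y : Fs n → ℂ) :
    nn H (cv v *ᵥ Y) ≤ nq H v * nn H Y := by
  have h := congrArg (fun A => (star Y ⬝ᵥ A *ᵥ Y).re) (pyth hH.1 v)
  have p := nn_nonneg hH (av (star v ᵥ* H) *ᵥ Y)
  have r : star v ⬝ᵥ H *ᵥ v = (nq H v : ℝ) :=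
    (Complex.ext rfl (Complex.le_def.1 (hH.posSemidef.dotProduct_mulVec_nonneg v)).2.symm)
  simp only [Matrix.add_mulVec, dotProduct_add, Complex.add_re, ← nn_mv, r, Matrix.smul_mulVec,
    dotProduct_smul, smul_eq_mul, Complex.re_ofReal_mul] at h
  rw [nn, nn]
  rw [nn] at h
  linarith

theorem qn_fac (B H : Mat n) (Y : Fs n → ℂ) : qn (Bᴴ * B) H Y = ∑ m, nn H (av (B m) *ᵥ Y) := by
  have e : CU.qm (Bᴴ * B) (La H) an = ∑ m, (av (B m))ᴴ * La H * av (B m) := by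
    simp only [CU.qm, av, Matrix.mul_apply, Matrix.conjTranspose_apply, Finset.sum_smul,
      Matrix.conjTranspose_sum, Matrix.conjTranspose_smul, Finset.sum_mul, Finset.mul_sum,
      Matrix.smul_mul, Matrix.mul_smul, smul_smul]
    rw [Finset.sum_comm (s := Finset.univ) (t := Finset.univ)
      (f := fun m k => ∑ l, (B m k * star (B m l)) • ((an l)ᴴ * La H * an k))]
    refine Finset.sum_congr rfl fun k _ => ?_
    rw [Finset.sum_comm]
    exact Finset.sum_congr rfl fun m _ => Finset.sum_congr rfl fun l _ => by rw [mul_comm]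
  simp only [qn, e, nn_mv, Matrix.sum_mulVec, dotProduct_sum, Complex.re_sum]

theorem nq_fac (B : Mat n) (v : E n) : nq (Bᴴ * B) v = ∑ m, ‖B m ⬝ᵥ v‖ ^ 2 := by
  rw [nq, ← Matrix.mulVec_mulVec, Matrix.dotProduct_mulVec, ← Matrix.star_mulVec, dotProduct,
    Complex.re_sum]
  refine Finset.sum_congr rfl fun m _ => ?_
  rw [Pi.star_apply, Complex.star_def, Complex.conj_mul', ← Complex.ofReal_pow, Complex.ofReal_re]
  rfl

theorem qn_nonneg {θ H : Mat n} (hθ : θ.PosSemidef) (hH : H.PosDef) (Y : Fs n → ℂ) :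
    0 ≤ qn θ H Y := by
  obtain ⟨B, rfl⟩ := Mf.psd_factor hθ
  rw [qn_fac]
  exact Finset.sum_nonneg fun m _ => nn_nonneg hH _

theorem qn_smul (θ H : Mat n) (c : ℂ) (Y : Fs n → ℂ) : qn θ H (c • Y) = ‖c‖ ^ 2 * qn θ H Y := by
  have : c * star c = ((‖c‖ ^ 2 : ℝ) : ℂ) := by
    rw [Complex.star_def, Complex.mul_conj, Complex.normSq_eq_norm_sq]
  simp only [qn, star_smul, Matrix.mulVec_smul, smul_dotProduct, dotProduct_smul, smul_eq_mul,
    ← mul_assoc, this, Complex.re_ofReal_mul]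

/-- The curvature term of a product. -/
theorem qn_cv {θ H : Mat n} (hθ : θ.PosSemidef) (hH : H.PosDef) (v : E n) (Y : Fs n → ℂ) :
    qn θ H (cv v *ᵥ Y) ≤ 2 * (nq θ v * nn H Y + nq H v * qn θ H Y) := by
  obtain ⟨B, rfl⟩ := Mf.psd_factor hθ
  rw [qn_fac, qn_fac, nq_fac, Finset.sum_mul, Finset.mul_sum, ← Finset.sum_add_distrib,
    Finset.mul_sum]
  refine Finset.sum_le_sum fun m _ => ?_
  rw [av_cv]
  have a := nn_sub hH ((B m ⬝ᵥ v) • Y) (cv v *ᵥ av (B m) *ᵥ Y)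
  have b := nn_cv hH v (av (B m) *ᵥ Y)
  rw [nn_smul] at a
  linarith

/-- The reverse inequality. -/
theorem qn_rev {θ H : Mat n} (hθ : θ.PosSemidef) (hH : H.PosDef) (v : E n) (Y : Fs n → ℂ) :
    nq θ v * nn H Y ≤ 2 * (qn θ H (cv v *ᵥ Y) + nq H v * qn θ H Y) := by
  obtain ⟨B, rfl⟩ := Mf.psd_factor hθ
  rw [qn_fac, qn_fac, nq_fac, Finset.sum_mul, Finset.mul_sum, ← Finset.sum_add_distrib,
    Finset.mul_sum]
  refine Finset.sum_le_sum fun m _ => ?_
  have a := nn_sub hH (av (B m) *ᵥ cv v *ᵥ Y) ((-1 : ℂ) • cv v *ᵥ av (B m) *ᵥ Y)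
  have b := nn_cv hH v (av (B m) *ᵥ Y)
  rw [nn_smul, av_cv, neg_one_smul, sub_neg_eq_add, sub_add_cancel, nn_smul, ← av_cv] at a
  simp only [norm_neg, norm_one] at a
  linarith

/-- The case of a product equal to zero. -/
theorem qn_zero {θ H : Mat n} (hθ : θ.PosSemidef) (hH : H.PosDef) {v : E n} {Y : Fs n → ℂ}
    (h : cv v *ᵥ Y = 0) : nq θ v * nn H Y ≤ nq H v * qn θ H Y := by
  obtain ⟨B, rfl⟩ := Mf.psd_factor hθ
  rw [qn_fac, nq_fac, Finset.sum_mul, Finset.mul_sum]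
  refine Finset.sum_le_sum fun m _ => ?_
  have a := av_cv (B m) v Y
  rw [h, Matrix.mulVec_zero, eq_comm, sub_eq_zero] at a
  rw [← nn_smul, a]
  exact nn_cv hH v _

theorem nn_vac (H : Mat n) : nn H (vac n) = 1 := by
  rw [nn, Clo.la_vac]
  simp

theorem nn_u1 (H : Mat n) (v : E n) : nn H (U1 n *ᵥ v) = nq H v := by
  rw [nn, Clo.la_u1, u1_cv, u1_cv, Matrix.star_mulVec, ← Matrix.dotProduct_mulVec, cv_ct, av_cv,
    av_vac, Matrix.mulVec_zero, sub_zero, nq]
  simp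

theorem qn_u1 (θ H : Mat n) (v : E n) : qn θ H (U1 n *ᵥ v) = nq θ v := by
  rw [qn, ← CU.qm_eq, nq, Finset.sum_comm]
  refine congrArg Complex.re ?_
  simp only [Clo.an_u1, Matrix.mulVec_smul, Clo.la_vac, star_smul, smul_dotProduct,
    dotProduct_smul]
  simp [dotProduct, Matrix.mulVec, Finset.mul_sum, Pi.single_apply, mul_comm, mul_assoc]

theorem v1_u1 (v : E n) : v1 (U1 n *ᵥ v) = v := by
  funext k
  simp [v1, Clo.an_u1, -Matrix.mulVec_mulVec]

theorem u1_ap (v : E n) (A : Fs n) : (U1 n *ᵥ v) A = ∑ k, if A = {k} then v k else 0 := by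
  simp [Matrix.mulVec, dotProduct, U1, FK1.cr_apply, FK1.sg]

theorem u1_v1 {Y : Fs n → ℂ} (h : ∀ A, A.card ≠ 1 → Y A = 0) : U1 n *ᵥ v1 Y = Y := by
  funext A
  have b : ∀ k, v1 Y k = Y {k} := fun k => by
    simp [v1, Matrix.mulVec, dotProduct, FK1.an_apply, FK1.sg]
  rw [u1_ap]
  by_cases c : A.card = 1
  · obtain ⟨k, rfl⟩ := Finset.card_eq_one.1 c
    simp [b]
  · rw [h A c]
    exact Finset.sum_eq_zero fun k _ => if_neg fun e => c (by rw [e, Finset.card_singleton])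

theorem cv_deg {q : ℕ} (v : E n) {Y : Fs n → ℂ} (h : ∀ A, A.card ≠ q → Y A = 0) (A : Fs n)
    (hA : A.card ≠ q + 1) : (cv v *ᵥ Y) A = 0 := by
  simp only [cv, Matrix.sum_mulVec, Matrix.smul_mulVec, Finset.sum_apply, Pi.smul_apply]
  refine Finset.sum_eq_zero fun k _ => ?_
  rw [Matrix.mulVec, dotProduct, Finset.sum_eq_zero, smul_zero]
  intro B _
  by_cases c : k ∉ B ∧ A = insert k B
  · rw [h B fun e => hA (by rw [c.2, Finset.card_insert_of_notMem c.1, e]), mul_zero]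
  · rw [cr, Matrix.of_apply, if_neg c, zero_mul]

/-! ### On the manifold -/

variable {M : Mf n} {H θ : M.Fam (Mat n)}

/-- The product of a vector field and a multivector. -/
def wv (V : M.Fam (E n)) (W : M.Fam (Fs n → ℂ)) : M.Fam (Fs n → ℂ) :=
  fun e z => cv (V e z) *ᵥ W e z

/-- A vector field as a multivector. -/
def vec (V : M.Fam (E n)) : M.Fam (Fs n → ℂ) := fun e z => U1 n *ᵥ V e z

theorem pn_eq (L : M.Co) (φ : M.Fam ℝ) (W : M.Fam (Fs n → ℂ)) (x : M.X) :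
    (lam H L φ).pn W x = Real.exp (-M.ev φ x) * nn (M.ev H x) (M.ev W x) := by
  simp only [Bun.pn, Bun.pp, lam, Mf.ev, nn, Matrix.smul_mulVec, dotProduct_smul, smul_eq_mul,
    Complex.re_ofReal_mul]

theorem cu_eq (L : M.Co) (φ : M.Fam ℝ) (W : M.Fam (Fs n → ℂ)) (x : M.X) :
    cu θ (lam H L φ) W x = Real.exp (-M.ev φ x) * qn (M.ev θ x) (M.ev H x) (M.ev W x) := by
  simp only [cu, Mf.ev, CU.qm_eq]
  simp only [lam, CU.qm_smul, qn, Matrix.smul_mulVec, dotProduct_smul, smul_eq_mul,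
    Complex.re_ofReal_mul]

theorem pn_vec (L : M.Co) (φ : M.Fam ℝ) (V : M.Fam (E n)) (x : M.X) :
    (lam H L φ).pn (vec V) x = Real.exp (-M.ev φ x) * nq (M.ev H x) (M.ev V x) := by
  rw [pn_eq, ← nn_u1]
  rfl

theorem cu_vec (L : M.Co) (φ : M.Fam ℝ) (V : M.Fam (E n)) (x : M.X) :
    cu θ (lam H L φ) (vec V) x = Real.exp (-M.ev φ x) * nq (M.ev θ x) (M.ev V x) := by
  rw [cu_eq, ← qn_u1 _ (M.ev H x)]
  rfl

theorem cu_qV (hH : M.Met H) (V : M.Fam (E n)) (x : M.X) :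
    cu θ (lk H 1) (vec V) x = qV M H θ V x := by
  have p := (Complex.pos_iff.1 (hH.pos.ch x).det_pos).1
  rw [cu_vec]
  simp only [qV, Mf.ev, wk, Nat.cast_one, one_mul, Real.exp_neg, Real.exp_log p]
  rw [mul_comm, div_eq_mul_inv]

theorem psd (hθ : M.Le 0 θ) (x : M.X) : (M.ev θ x).PosSemidef := by
  simpa only [Pi.zero_apply, sub_zero, Mf.ev] using Mf.AllOn.ch hθ x

theorem cu_nonneg (hH : M.Met H) (hθ : M.Le 0 θ) (L : M.Co) (φ : M.Fam ℝ)
    (W : M.Fam (Fs n → ℂ)) (x : M.X) : 0 ≤ cu θ (lam H L φ) W x := by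
  rw [cu_eq]
  exact mul_nonneg (Real.exp_pos _).le (qn_nonneg (psd hθ x) (hH.pos.ch x) _)

theorem pn_nonneg (hH : M.Met H) (L : M.Co) (φ : M.Fam ℝ) (W : M.Fam (Fs n → ℂ)) (x : M.X) :
    0 ≤ (lam H L φ).pn W x := by
  rw [pn_eq]
  exact mul_nonneg (Real.exp_pos _).le (nn_nonneg (hH.pos.ch x) _)

theorem wk_add (a m : ℕ) (x : M.X) : Real.exp (-M.ev (wk H (a + m)) x) =
    Real.exp (-M.ev (wk H a) x) * Real.exp (-M.ev (wk H m) x) := by
  rw [← Real.exp_add]
  simp only [Mf.ev, wk, Nat.cast_add]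
  exact congrArg _ (by ring)

section
variable (hH : M.Met H) (hθ : M.Le 0 θ) (a m : ℕ) (V : M.Fam (E n)) (W : M.Fam (Fs n → ℂ))
  (x : M.X)
include hH

/-- The norm of a product. -/
theorem pn_wv : (lk H (a + m)).pn (wv V W) x ≤ (lk H a).pn (vec V) x * (lk H m).pn W x := by
  rw [pn_eq, pn_vec, pn_eq, wk_add, mul_mul_mul_comm]
  exact mul_le_mul_of_nonneg_left (nn_cv (hH.pos.ch x) _ _) (by positivity)

include hθ

/-- The curvature term of a product. -/
theorem cu_wv : cu θ (lk H (a + m)) (wv V W) x ≤ 2 * (cu θ (lk H a) (vec V) x * (lk H m).pn W x +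
    (lk H a).pn (vec V) x * cu θ (lk H m) W x) := by
  rw [cu_eq, cu_vec, pn_vec, pn_eq, cu_eq, wk_add, mul_mul_mul_comm, mul_mul_mul_comm _ (nq _ _),
    ← mul_add, mul_left_comm]
  exact mul_le_mul_of_nonneg_left (qn_cv (psd hθ x) (hH.pos.ch x) _ _) (by positivity)

/-- The reverse inequality. -/
theorem cu_rev : cu θ (lk H a) (vec V) x * (lk H m).pn W x ≤
    2 * (cu θ (lk H (a + m)) (wv V W) x + (lk H a).pn (vec V) x * cu θ (lk H m) W x) := by
  rw [cu_eq (kan M (a + m)), cu_vec, pn_vec, pn_eq, cu_eq, wk_add, mul_mul_mul_comm,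
    mul_mul_mul_comm _ (nq _ _) _ (qn _ _ _), ← mul_add, mul_left_comm 2]
  exact mul_le_mul_of_nonneg_left (qn_rev (psd hθ x) (hH.pos.ch x) _ _) (by positivity)

/-- The case of a product equal to zero. -/
theorem cu_zero (h : M.ev (wv V W) x = 0) :
    cu θ (lk H a) (vec V) x * (lk H m).pn W x ≤ (lk H a).pn (vec V) x * cu θ (lk H m) W x := by
  rw [cu_vec, pn_vec, pn_eq, cu_eq, mul_mul_mul_comm, mul_mul_mul_comm _ (nq _ _) _ (qn _ _ _)]
  exact mul_le_mul_of_nonneg_left (qn_zero (psd hθ x) (hH.pos.ch x) h) (by positivity)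

end

/-- Proportional multivectors. -/
theorem cu_prop {L L' : M.Co} {φ φ' : M.Fam ℝ} {W W' : M.Fam (Fs n → ℂ)} {x : M.X} {s : ℂ}
    (h : M.ev W x = s • M.ev W' x) :
    cu θ (lam H L φ) W x * (lam H L' φ').pn W' x =
      (lam H L φ).pn W x * cu θ (lam H L' φ') W' x := by
  rw [cu_eq, cu_eq, pn_eq, pn_eq, h, nn_smul, qn_smul]
  ring

theorem deg_wv {q : ℕ} (V : M.Fam (E n)) {W : M.Fam (Fs n → ℂ)} (h : Deg q W) :
    Deg (q + 1) (wv V W) := fun e z => cv_deg _ (h e z)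

theorem deg_vec (V : M.Fam (E n)) : Deg 1 (vec V) := fun e z A hA => by
  rw [vec, u1_ap]
  exact Finset.sum_eq_zero fun k _ => if_neg fun e => hA (by rw [e, Finset.card_singleton])

theorem vec_v1 {Y : M.Fam (Fs n → ℂ)} (h : Deg 1 Y) : vec (fun e z => v1 (Y e z)) = Y :=
  funext fun e => funext fun z => u1_v1 (h e z)

theorem wv_ap (V : M.Fam (E n)) (W : M.Fam (Fs n → ℂ)) (e : M.Ch) (A : Fs n) :
    (fun z => wv V W e z A) = fun z => ∑ k, V e z k * ∑ B, cr k A B * W e z B := by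
  funext z
  simp only [wv, cv, Matrix.sum_mulVec, Matrix.smul_mulVec, Finset.sum_apply, Pi.smul_apply,
    smul_eq_mul]
  rfl

theorem hol_wv {V : M.Fam (E n)} {W : M.Fam (Fs n → ℂ)} (hV : Hol V) (hW : Hol W) :
    Hol (wv V W) := fun e he z hz A => by
  rw [wv_ap]
  filter_upwards [eventually_all.2 (hV e he z hz), eventually_all.2 (hW e he z hz)] with w h1 h2
  exact DifferentiableAt.fun_sum fun k _ => (h1 k).mul
    (DifferentiableAt.fun_sum fun B _ => (h2 B).const_mul _)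

theorem hol_vec {V : M.Fam (E n)} (hV : Hol V) : Hol (vec V) := fun e he z hz A => by
  filter_upwards [eventually_all.2 (hV e he z hz)] with w h1
  simp only [vec, Matrix.mulVec, dotProduct]
  exact DifferentiableAt.fun_sum fun k _ => (h1 k).const_mul _

theorem sec_mk {a : ℕ} {Y : M.Fam (Fs n → ℂ)} (h1 : M.All fun e z => ContDiffAt ℝ ∞ (Y e) z)
    (h2 : M.Ov fun e e' x => La (M.J e e' x) *ᵥ Y e' (e' x) = jd M e e' x ^ a • Y e (e x)) :
    (lk H a).Sec Y := ⟨h1, fun e he e' he' x hx hx' => by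
  have d : jd M e e' x ≠ 0 := ((mTR n M).2.1 e he e' he' x hx hx').2.1
  show Y e (e x) = ((jd M e e' x ^ a * 1)⁻¹ • La (M.J e e' x)) *ᵥ Y e' (e' x)
  rw [Matrix.smul_mulVec, h2 e he e' he' x hx hx', smul_smul, mul_one,
    inv_mul_cancel₀ (pow_ne_zero a d), one_smul]⟩

/-- The product of smooth sections. -/
theorem sec_wv0 {a m : ℕ} {V : M.Fam (E n)} {W : M.Fam (Fs n → ℂ)}
    (h1 : M.All fun e z => ContDiffAt ℝ ∞ (V e) z)
    (h2 : M.Ov fun e e' x => M.J e e' x *ᵥ V e' (e' x) = jd M e e' x ^ a • V e (e x))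
    (hW : (lk H m).Sec W) : (lk H (a + m)).Sec (wv V W) := by
  refine sec_mk (fun e he z hz => contDiffAt_pi.2 fun A => ?_) fun e he e' he' x hx hx' => ?_
  · rw [wv_ap]
    exact ContDiffAt.sum fun k _ => (contDiffAt_pi.1 (h1 e he z hz) k).mul
      (ContDiffAt.sum fun B _ => contDiffAt_const.mul (contDiffAt_pi.1 (hW.sm e he z hz) B))
  · simp only [wv]
    rw [Matrix.mulVec_mulVec, la_cv, ← Matrix.mulVec_mulVec, XT.key hW e he e' he' x hx hx',
      h2 e he e' he' x hx hx', cv_smul, Matrix.smul_mulVec, Matrix.mulVec_smul, smul_smul,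
      zpow_natCast, pow_add]

theorem ht_sm {a : ℤ} {V : M.Fam (E n)} (hV : HT M a V) :
    M.All fun e z => ContDiffAt ℝ ∞ (V e) z := fun e he z hz =>
  contDiffAt_pi.2 fun k => ((mHOL n _ _).2.2 (hV.hol e he z hz k)).1

/-- The product of a holomorphic vector field and a section. -/
theorem sec_wv {a m : ℕ} {V : M.Fam (E n)} {W : M.Fam (Fs n → ℂ)} (hV : HT M a V)
    (hW : (lk H m).Sec W) : (lk H (a + m)).Sec (wv V W) :=
  sec_wv0 (ht_sm hV) (fun e he e' he' x hx hx' => by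
    simpa only [zpow_natCast] using hV.cmp e he e' he' x hx hx') hW

theorem sec_vec {a : ℕ} {V : M.Fam (E n)} (hV : HT M a V) : (lk H a).Sec (vec V) :=
  sec_mk (fun e he z hz => contDiffAt_pi.2 fun A =>
    ((mHOL n _ _).2.2 (hol_vec hV.hol e he z hz A)).1) fun e he e' he' x hx hx' => by
    simp only [vec]
    rw [Clo.la_u1, hV.cmp e he e' he' x hx hx', Matrix.mulVec_smul, zpow_natCast]

theorem nz_vec {V : M.Fam (E n)} : Nz (vec V) ↔ ¬Zr M V := by
  have h : ∀ v : E n, U1 n *ᵥ v = 0 ↔ v = 0 := fun v => ⟨fun h => by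
    rw [← v1_u1 v, h]
    funext k
    simp [v1], fun h => by rw [h, Matrix.mulVec_zero]⟩
  simp only [Nz, Zr, Mf.AllOn, vec, ne_eq, h, not_forall, exists_prop]

/-- The product of two vectors. -/
theorem v2_cv (v w : E n) : v2 (cv v *ᵥ U1 n *ᵥ w) = wg v w := by
  ext k l
  have a : ∀ k : Fin n, an k = av (Pi.single k 1) := fun k => by simp [av, Pi.single_apply]
  rw [v2, Matrix.of_apply, a k, av_cv, ← a k, Clo.an_u1, Matrix.mulVec_sub, Matrix.mulVec_smul,
    Matrix.mulVec_smul, Matrix.mulVec_smul, ← u1_cv, Clo.an_u1, Clo.an_u1]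
  simp [wg, mul_comm]

end Pool.Agent.Lib.NU4.W98
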