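import Pool.Agent.Lib.NU4.Blue
import Pool.Agent.Lib.NU4.Wdg98

/-! Project nu4: the exterior algebra. -/

open scoped Classical Matrix

noncomputable section

namespace Pool.Agent.Lib.NU4

open Pool.Agent.Lib.SV (E)
open Pool.Agent.Lib.HS32 Pool.Agent.Lib.HLK Pool.Agent.Lib.F4

namespace FK98

variable {n : ℕ}

theorem half {A : Mx (Fs n)} (h : A + A = 0) : A = 0 := by
  rw [← two_smul ℂ A] at h
  exact (smul_eq_zero.1 h).resolve_left two_ne_zero

theorem an_ap (k : Fin n) (Y : Fs n → ℂ) (A : Fs n) :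
    (an k *ᵥ Y) A = if k ∉ A then FK1.sg k A * Y (insert k A) else 0 := by
  by_cases c : k ∈ A <;> simp [Matrix.mulVec, dotProduct, FK1.an_apply, c]

theorem dl_eq (g : Mat n) : dL g = ∑ i, cr i * anv (g i) := by
  simp only [dL, anv, Finset.mul_sum, Matrix.mul_smul]

theorem crv_one (i : Fin n) : crv (Pi.single i 1) = cr i := by simp [crv, Pi.single_apply]

theorem dg_an {q : ℕ} (a : E n) {W : Fs n → ℂ} (h : Dg q W) : Dg (q - 1) (anv a *ᵥ W) := by
  intro A hA
  simp only [anv, Matrix.sum_mulVec, Matrix.smul_mulVec, Finset.sum_apply, Pi.smul_apply, an_ap]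
  refine Finset.sum_eq_zero fun k _ => ?_
  by_cases c : k ∉ A
  · rw [if_pos c, h _ fun e => hA (by rw [← e, Finset.card_insert_of_notMem c]; rfl), mul_zero,
      smul_zero]
  · rw [if_neg c, smul_zero]

theorem dg_la {q : ℕ} (g : Mat n) {W : Fs n → ℂ} (h : Dg q W) : Dg q (La g *ᵥ W) := by
  intro A hA
  rw [Matrix.mulVec, dotProduct]
  refine Finset.sum_eq_zero fun B _ => ?_
  by_cases c : B.card = A.card
  · rw [h B (c ▸ hA), mul_zero]
  · simp only [La, Matrix.of_apply, dif_neg c, zero_mul]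

theorem dg0 {W : Fs n → ℂ} (h : Dg 0 W) : W = W ∅ • vac n := by
  funext A
  by_cases c : A = ∅
  · simp [vac, c]
  · rw [h A fun e => c (Finset.card_eq_zero.1 e)]
    simp [vac, c]

theorem dl_vac (g : Mat n) : dL g *ᵥ vac n = 0 := by
  rw [dl_eq, Matrix.sum_mulVec]
  refine Finset.sum_eq_zero fun i _ => ?_
  rw [← Matrix.mulVec_mulVec, show anv (g i) *ᵥ vac n = 0 from W98.av_vac _, Matrix.mulVec_zero]

end FK98

open FK98

theorem st_FK : St_FK := by
  intro n v w a g c W
  have u : ∀ v : E n, crv v *ᵥ vac n = Clo.U1 n *ᵥ v := fun v => (W98.u1_cv v).symm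
  have ac : ∀ v w : E n, crv v * crv w = -(crv w * crv v) := fun v w =>
    eq_neg_of_add_eq_zero_left (W98.cvcv v w)
  refine ⟨ac v w, half (W98.cvcv v v), W98.car a v, W98.la_cv g v, W98.av_la g a, W98.cv_add v w,
    ?_, W98.cv_smul c v, ?_, ?_, ?_, W98.av_vac a, Clo.la_vac g, fun A hA => ?_, fun k => ?_,
    ⟨fun h => ?_, fun h => ?_⟩, dg0, fun h => ?_, ?_, dl_vac g, fun q h =>
    ⟨W98.cv_deg v h, dg_la g h, dg_an a h, ?_⟩⟩
  · simp only [crv, Pi.sub_apply, sub_smul, Finset.sum_sub_distrib]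
  · simp only [anv, Pi.add_apply, add_smul, Finset.sum_add_distrib]
  · simp only [anv, Pi.sub_apply, sub_smul, Finset.sum_sub_distrib]
  · simp only [anv, Finset.smul_sum, smul_smul, Pi.smul_apply, smul_eq_mul]
  · exact Pi.single_eq_of_ne (fun e => hA (by rw [e, Finset.card_empty])) _
  · rw [u, W98.u1_ap]
    simp
  · rw [u] at h
    rw [← W98.v2_cv, show W98.cv v *ᵥ Clo.U1 n *ᵥ w = 0 from h]
    ext k l
    simp [v2]
  · have e : crv v * crv w = crv w * crv v := by
      simp only [crv, Finset.sum_mul, Finset.mul_sum, Matrix.smul_mul, Matrix.mul_smul, smul_smul]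
      refine Finset.sum_congr rfl fun i _ => Finset.sum_congr rfl fun j _ => ?_
      have := congrFun (congrFun h i) j
      simp only [wg, Matrix.of_apply, Matrix.zero_apply, sub_eq_zero] at this
      rw [this]
    have z : crv v * crv w = 0 := half (by
      nth_rewrite 2 [e]
      exact W98.cvcv v w)
    rw [Matrix.mulVec_mulVec, z, Matrix.zero_mulVec]
  · have e : v1 W = fun k => W {k} := funext fun k => by simp [v1, an_ap, FK1.sg]
    rw [u, ← e, W98.u1_v1 h]
  · rw [dl_eq, Finset.sum_mul, Finset.mul_sum]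
    nth_rewrite 2 [crv]
    rw [← Finset.sum_add_distrib]
    refine Finset.sum_congr rfl fun i _ => ?_
    have e : anv (g i) * crv v = (g i ⬝ᵥ v) • 1 - crv v * anv (g i) :=
      eq_sub_of_add_eq (W98.car _ _)
    rw [Matrix.mul_assoc, e, Matrix.mul_sub, Matrix.mul_smul, Matrix.mul_one, ← Matrix.mul_assoc,
      ← Matrix.mul_assoc, ← crv_one i, ac _ v, Matrix.neg_mul, sub_neg_eq_add]
    rfl
  · rcases q with _ | q
    · rw [dg0 h, Matrix.mulVec_smul, dl_vac, smul_zero]
      exact fun _ _ => rfl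
    · intro A hA
      rw [dl_eq, Matrix.sum_mulVec, Finset.sum_apply]
      refine Finset.sum_eq_zero fun i _ => ?_
      rw [← Matrix.mulVec_mulVec, ← crv_one]
      exact W98.cv_deg _ (dg_an _ h) A hA

end Pool.Agent.Lib.NU4
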