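import Pool.Agent.Lib.NU4.Flip71e

/-! Project nu4, row HLP: the hard Lefschetz theorem with parity. -/

open scoped Classical Topology ContDiff ComplexOrder Matrix
open Set MeasureTheory Filter

noncomputable section

namespace Pool.Agent.Lib.NU4

open Pool.Agent.Lib.HS32 Pool.Agent.Lib.HLK
open Pool.Agent.Lib.K3E (kan wk lk)
open Pool.Agent.Lib.IDX.DIM (pj)
open Fl

theorem st_HLP : St_HLP := by
  intro n M _ H a m s hc h2 hs hA
  have hm := hc.kae.toMet
  have hφ := (K3E.bKAN n M H m hm).1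
  let g : Geo M (Fs n) := ⟨H, lk H m, hm, (aLAM n M H _ _ hm hφ).1⟩
  obtain ⟨C, w, ε, w1, w2, w3⟩ := seq hc.n0 hc.kae hc.out h2
  obtain ⟨q, V, q1, v1, v2, v3, v4, v5⟩ := hlp (p := fun q => (-1 : ℂ) ^ q = s) hc.n0 hc.kae hφ w1
    w2 fun η hη => by
      obtain ⟨W, a1, a2, a3, a4⟩ := hA η hη
      have e : M.All fun e z => pj (fun q => (-1 : ℂ) ^ q = s) W e z = W e z := fun e he z hz =>
        funext fun A => by
          by_cases c : (-1 : ℂ) ^ A.card = s
          · exact if_pos c
          · have h : (-1 : ℂ) ^ A.card * W e z A = s * W e z A := congrFun (a2 e he z hz) A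
            exact (if_neg c).trans (by_contra fun d => c (mul_right_cancel₀ (Ne.symm d) h))
      have e' := ap_congr (oD H (wk H m)) e
      refine ⟨_, pj_sec (fun q => (-1 : ℂ) ^ q = s) a1, fun e z A c => if_neg c, ?_, ?_⟩
      · rw [← a3]
        unfold Bun.nr Bun.pn
        rw [show (lam H (kan M m) (wk H m)).pp _ _ = _ from Pre.pp_congr (g := g) e e]
      · refine le_of_eq_of_le ?_ a4
        unfold Bun.nr Bun.pn
        rw [show (lam H (kan M m) (wk H m)).pp _ _ = _ from Pre.pp_congr (g := g) e' e']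
  have hV : HM M m V := hm_iff.2 ⟨v1, v2⟩
  refine ⟨V, hV, v3, fun e he z hz => funext fun A => ?_, v5.sml hc.kae h2 hV w3⟩
  change (-1 : ℂ) ^ A.card * V e z A = s * V e z A
  by_cases c : A.card = q
  · rw [c, q1]
  · rw [v4 e z A c, mul_zero, mul_zero]

end Pool.Agent.Lib.NU4
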