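import Pool.Agent.Lib.IDX.All

/-! The weak kernels of one parity, and the parts of given degree. -/

open scoped Classical Topology ContDiff ComplexOrder Matrix
open Set MeasureTheory Complex Metric Filter UniformSpace

noncomputable section

namespace Pool.Agent.Lib.NU4.Fl

open Pool.Agent.Lib.SV (E)
open Pool.Agent.Lib.HS32 Pool.Agent.Lib.KP Pool.Agent.Lib.HLK Pool.Agent.Lib.IDX
open Pool.Agent.Lib.IDX.DIM (pj)

section abs

variable {V : Type} [SeminormedAddCommGroup V] [InnerProductSpace ℂ V] {D e : V →ₗ[ℂ] V}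

theorem dense (h : Lev D e) {r : ℝ} (hr : r * r = 1) (h0 : wk D e r = ⊥) {f : V}
    (hf : ‖e f - (r : ℂ) • f‖ = 0) {η : ℝ} (hη : 0 < η) : ∃ y, ‖f - D y‖ < η := by
  have dk := PRE.dk h
  have rr : (r : ℂ) * r = 1 := by exact_mod_cast hr
  let K : Submodule ℂ (Completion V) := LinearMap.range (Completion.toComplₗᵢ.toLinearMap ∘ₗ D)
  have m : (f : Completion V) ∈ K.topologicalClosure := by
    rw [← Submodule.orthogonal_orthogonal_eq_closure, Submodule.mem_orthogonal]
    intro u hu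
    have u0 : ∀ w : V, inner ℂ u ((D w : V) : Completion V) = 0 := fun w =>
      (Submodule.mem_orthogonal' _ _).1 hu _ ⟨w, rfl⟩
    have k : u + (r : ℂ) • IDX29.ex e u ∈ wk D e r := fun w => by
      refine ⟨?_, ?_⟩
      · rw [inner_add_left, inner_smul_left, dk.iv.sy, dk.exc, (dk.od w).coe, Completion.coe_neg,
          inner_neg_right, u0, u0]
        simp
      · rw [inner_add_left, inner_add_left, inner_smul_left, inner_smul_left, dk.iv.sy, dk.iv.sy,
          dk.exc, dk.exc, h.ee, conj_ofReal]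
        linear_combination (-inner ℂ u ((e w : V) : Completion V)) * rr
    rw [h0, Submodule.mem_bot] at k
    have k2 := congrArg (fun a => inner ℂ a (f : Completion V)) k
    simp only [inner_add_left, inner_smul_left, inner_zero_left, conj_ofReal] at k2
    rw [dk.iv.sy, dk.exc, (PRE.eqv hf).coe, Completion.coe_smul, inner_smul_right] at k2
    linear_combination k2 / 2 - inner ℂ u (f : Completion V) / 2 * rr
  obtain ⟨_, ⟨y, rfl⟩, hy⟩ := Metric.mem_closure_iff.1 m η hη
  refine ⟨y, ?_⟩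
  rw [dist_eq_norm] at hy
  rwa [← Completion.norm_coe, Completion.coe_sub]

theorem near (h : Lev D e) {r : ℝ} (hr : r * r = 1) (h0 : wk D e r ≠ ⊥) {η : ℝ} (hη : 0 < η) :
    ∃ s, e s = (r : ℂ) • s ∧ ‖s‖ = 1 ∧ ‖D s‖ ≤ η := by
  have dk := PRE.dk h
  have rr : (r : ℂ) * r = 1 := by exact_mod_cast hr
  have r1 : ‖(r : ℂ)‖ = 1 := by
    have := congrArg norm rr
    rw [norm_mul, norm_one] at this
    nlinarith [norm_nonneg (r : ℂ)]
  obtain ⟨u, hu, u0⟩ := (Submodule.ne_bot_iff _).1 h0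
  have n0 := norm_pos_iff.2 u0
  obtain ⟨s, s1, s2⟩ := h.ws u 0 (fun s => by rw [(hu s).1, inner_zero_left])
    (min (‖u‖ / 2) (η * ‖u‖ / 2)) (by positivity)
  rw [zero_add, Completion.norm_coe] at s2
  obtain ⟨s1, -⟩ := lt_min_iff.1 s1
  obtain ⟨-, s2⟩ := lt_min_iff.1 s2
  set t := s + (r : ℂ) • e s with ht
  have t1 : e t = (r : ℂ) • t := by
    rw [ht, map_add, map_smul, h.ee, smul_add, smul_smul, rr, one_smul, add_comm]
  have t2 : ‖D t‖ ≤ η * ‖u‖ := by
    have a : ‖D (e s)‖ ≤ ‖D s‖ := by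
      have := norm_sub_le (D (e s) + e (D s)) (e (D s))
      rwa [add_sub_cancel_right, h.od, zero_add, dk.nrm] at this
    rw [ht, map_add, map_smul]
    refine (norm_add_le _ _).trans ?_
    rw [norm_smul, r1]
    linarith
  have t3 : ‖u‖ ≤ ‖t‖ := by
    have a : inner ℂ u (t : Completion V) = 2 * (inner ℂ u u - inner ℂ u (u - s)) := by
      rw [ht, Completion.coe_add, Completion.coe_smul, inner_add_right, inner_smul_right,
        (hu s).2, inner_sub_right]
      linear_combination inner ℂ u (s : Completion V) * rr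
    have b := norm_inner_le_norm (𝕜 := ℂ) u (t : Completion V)
    have c := norm_inner_le_norm (𝕜 := ℂ) u (u - s)
    have d := norm_sub_norm_le (inner ℂ u u) (inner ℂ u (u - s))
    rw [a, norm_mul, Completion.norm_coe, Complex.norm_ofNat] at b
    rw [inner_self_eq_norm_sq_to_K, norm_pow] at d
    rw [inner_self_eq_norm_sq_to_K] at b
    simp only [RCLike.norm_ofReal, abs_norm] at d
    nlinarith
  have t0 : 0 < ‖t‖ := n0.trans_le t3
  refine ⟨((‖t‖⁻¹ : ℝ) : ℂ) • t, by rw [map_smul, t1, smul_comm], ?_, ?_⟩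
  · rw [norm_smul, norm_real, norm_inv, norm_norm, inv_mul_cancel₀ t0.ne']
  · rw [map_smul, norm_smul, norm_real, norm_inv, norm_norm, ← div_eq_inv_mul, div_le_iff₀ t0]
    nlinarith

end abs

variable {n : ℕ} {M : Mf n} {H : M.Fam (Mat n)} {L : M.Co} {φ : M.Fam ℝ}

/-- The matrix of the projection. -/
def dm (n : ℕ) (p : ℕ → Prop) : Mx (Fs n) := Matrix.diagonal fun A => if p A.card then 1 else 0

theorem pj_eq (p : ℕ → Prop) (W : M.Fam (Fs n → ℂ)) (e : M.Ch) (z : E n) :
    pj p W e z = dm n p *ᵥ W e z := funext fun A => by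
  rw [dm, Matrix.mulVec_diagonal, pj]
  split_ifs <;> simp

theorem dm_ct (p : ℕ → Prop) : (dm n p)ᴴ = dm n p := by
  rw [dm, Matrix.diagonal_conjTranspose]
  exact congrArg _ (funext fun A => by simp only [Pi.star_apply]; split_ifs <;> simp)

theorem dm_la (p : ℕ → Prop) (g : Mat n) : dm n p * La g = La g * dm n p := by
  ext A B
  rw [dm, Matrix.diagonal_mul, Matrix.mul_diagonal, La, Matrix.of_apply]
  by_cases h : B.card = A.card
  · rw [mul_comm]
    exact congrArg _ (by rw [h])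
  · rw [dif_neg h, mul_zero, zero_mul]

theorem dm_cr (p : ℕ → Prop) (k : Fin n) : dm n p * cr k = cr k * dm n fun q => p (q + 1) := by
  ext A B
  rw [dm, dm, Matrix.diagonal_mul, Matrix.mul_diagonal, cr, Matrix.of_apply]
  by_cases h : k ∉ B ∧ A = insert k B
  · rw [h.2, Finset.card_insert_of_notMem h.1, mul_comm]
  · rw [if_neg h, mul_zero, zero_mul]

theorem pj_sec (p : ℕ → Prop) {W : M.Fam (Fs n → ℂ)} (hW : (lam H L φ).Sec W) :
    (lam H L φ).Sec (pj p W) := by
  refine ⟨fun e he z hz => contDiffAt_pi.2 fun A => ?_, fun e he e' he' x hx hx' => ?_⟩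
  · by_cases c : p A.card
    · simpa only [pj, if_pos c] using contDiffAt_pi.1 (hW.sm e he z hz) A
    · simpa only [pj, if_neg c] using contDiffAt_const
  · have := hW.cmp e he e' he' x hx hx'
    beta_reduce at this
    simp only [pj_eq, this, lam]
    rw [Matrix.mulVec_mulVec, Matrix.mulVec_mulVec, Matrix.mul_smul, Matrix.smul_mul, dm_la]

theorem pj_hol (p : ℕ → Prop) {W : M.Fam (Fs n → ℂ)} (hW : Hol W) : Hol (pj p W) :=
  fun e he z hz A => by
    by_cases c : p A.card
    · simpa only [pj, if_pos c] using hW e he z hz A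
    · simp only [pj, if_neg c]
      exact Eventually.of_forall fun w => differentiableAt_const _

theorem pj_pp (p : ℕ → Prop) (W W' : M.Fam (Fs n → ℂ)) :
    (lam H L φ).pp (pj p W) W' = (lam H L φ).pp W (pj p W') := by
  funext x
  simp only [Bun.pp, Mf.ev, pj_eq, lam]
  rw [Matrix.star_mulVec, dm_ct, ← Matrix.dotProduct_mulVec, Matrix.mulVec_mulVec,
    Matrix.mulVec_mulVec, Matrix.mul_smul, Matrix.smul_mul, dm_la]

theorem q_ap (W : M.Fam (Fs n → ℂ)) (e : M.Ch) (z : E n) :
    (oQ H).ap W e z = ∑ l, (∑ k, (H e z)⁻¹ k l • cr k) *ᵥ dzbv l (W e) z := by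
  simp only [Op.ap, oQ, Matrix.zero_mulVec, zero_add, add_zero]

theorem pj_q (p : ℕ → Prop) (W : M.Fam (Fs n → ℂ)) :
    pj p ((oQ H).ap W) = (oQ H).ap (pj (fun q => p (q + 1)) W) := by
  funext e z
  have e2 : ∀ k, dzbv k (pj (fun q => p (q + 1)) W e) z =
      dm n (fun q => p (q + 1)) *ᵥ dzbv k (W e) z := fun k => funext fun A => by
    rw [dm, Matrix.mulVec_diagonal]
    by_cases c : p (A.card + 1)
    · simp only [dzbv, pj, if_pos c, one_mul]
    · simp only [dzbv, pj, if_neg c, zero_mul, dzb_const]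
  simp only [pj_eq, q_ap, e2, Matrix.mulVec_sum, Matrix.mulVec_mulVec, Matrix.sum_mul,
    Matrix.mul_sum, Matrix.smul_mul, Matrix.mul_smul, dm_cr]

theorem q_hol {W : M.Fam (Fs n → ℂ)} (h : Hol W) : M.All fun e z => (oQ H).ap W e z = 0 :=
  fun e he z hz => by
    have d : ∀ k, dzbv k (W e) z = 0 := fun k => funext fun i => by
      have d := (h e he z hz i).self_of_nhds
      exact ((mHOL n _ _).1 (d.restrictScalars ℝ)).1 d k
    simp only [q_ap, d, Matrix.mulVec_zero, Finset.sum_const_zero]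

/-- The section `V` is asymptotically orthogonal to the image of `Q` for the densities `F j`. -/
def WP (H : M.Fam (Mat n)) (L : M.Co) (φ : M.Fam ℝ) (F : ℕ → M.X → ℝ) (V : M.Fam (Fs n → ℂ)) :
    Prop := ∀ y, (lam H L φ).Sec y →
  Tendsto (fun j => ∫ x, (F j x : ℂ) * (lam H L φ).pp ((oQ H).ap y) V x ∂M.mu H) (hyperfilter ℕ)
    (𝓝 0)

theorem WP.pj {F : ℕ → M.X → ℝ} {V : M.Fam (Fs n → ℂ)} (h : WP H L φ F V) (p : ℕ → Prop) :
    WP H L φ F (pj p V) := fun y hy => by
  simpa only [← pj_pp, pj_q] using h _ (pj_sec (fun q => p (q + 1)) hy)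

end Pool.Agent.Lib.NU4.Fl
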