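import Pool.Agent.Lib.NU4.Near84
import Pool.Agent.Lib.NU4.Flip71a

/-! Project nu4: a closed section is almost exact, or it pairs with a holomorphic section. -/

open scoped Classical Topology ContDiff ComplexOrder Matrix
open Set MeasureTheory Complex Metric Filter

noncomputable section

namespace Pool.Agent.Lib.NU4.Dich84

open Pool.Agent.Lib.SV (E)
open Pool.Agent.Lib.HS32 Pool.Agent.Lib.KP Pool.Agent.Lib.HLK
open Pool.Agent.Lib.EXH (aw)
open Pool.Agent.Lib.HLK.ONE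
open Pool.Agent.Lib.IDX.DIM (pj)

section gen

variable {n : ℕ} {M : Mf n} {σ : Type} [Fintype σ] [DecidableEq σ] {b : Bun M σ}

/-- The product of a family by a real function. -/
def mf (χ : M.X → ℝ) (s : M.Fam (σ → ℂ)) : M.Fam (σ → ℂ) := fun e z => (χ (e.symm z) : ℂ) • s e z

theorem mf_sec {χ : M.X → ℝ} (hχ : M.Sm χ) {s : M.Fam (σ → ℂ)} (hs : b.Sec s) :
    b.Sec (mf χ s) :=
  ⟨fun e he z hz => (ofRealCLM.contDiff.contDiffAt.comp z (hχ e he z hz)).smul (hs.sm e he z hz),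
    fun e he e' he' x hx hx' => by
      simp only [mf, e.left_inv hx, e'.left_inv hx', Matrix.mulVec_smul,
        ← hs.cmp e he e' he' x hx hx']⟩

theorem mf_ev (χ : M.X → ℝ) (s : M.Fam (σ → ℂ)) (x : M.X) :
    M.ev (mf χ s) x = (χ x : ℂ) • M.ev s x := by
  simp only [Mf.ev, mf, (M.ch x).left_inv (Mf.mem_ch x)]

theorem mf_pp (χ : M.X → ℝ) (s d : M.Fam (σ → ℂ)) (x : M.X) :
    b.pp (mf χ s) d x = χ x * b.pp s d x ∧ b.pn (mf χ s) x = χ x ^ 2 * b.pn s x := by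
  refine ⟨?_, ?_⟩
  · simp only [Bun.pp, mf_ev, star_smul, smul_dotProduct, smul_eq_mul, RCLike.star_def,
      conj_ofReal]
  · simp only [Bun.pn, Bun.pp, mf_ev, star_smul, smul_dotProduct, smul_eq_mul, RCLike.star_def,
      conj_ofReal, Matrix.mulVec_smul, dotProduct_smul, re_ofReal_mul]
    ring

/-- The weighted product with a fixed section is controlled by the norm without weight. -/
theorem cross [M.Cpt] {H : M.Fam (Mat n)} (hH : M.Met H) (hb : b.Ok) {s : M.Fam (σ → ℂ)}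
    (hs : b.Sec s) : ∃ K : ℝ, 0 ≤ K ∧ (∀ x, b.pn s x ≤ K) ∧ ∀ (χ : M.X → ℝ) (C : ℝ) d, M.Sm χ →
      b.Sec d → ∫ x, χ x ^ 2 ∂M.mu H ≤ C →
      ‖∫ x, (χ x : ℂ) * b.pp s d x ∂M.mu H‖ ^ 2 ≤ K * C * b.nr H d := by
  obtain ⟨K, K0, hK⟩ := (hb.pp_rep hs hs).2.exists_bound
  have hK' : ∀ x, b.pn s x ≤ K := fun x => (re_le_norm _).trans (hK x)
  refine ⟨K, K0.le, hK', fun χ C d hχ hd hC => ?_⟩
  let g : Geo M σ := ⟨H, b, hH, hb⟩
  let u : Pre g := Pre.mk (mf χ s) (mf_sec hχ hs)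
  let v : Pre g := Pre.mk d hd
  have e : ∫ x, (χ x : ℂ) * b.pp s d x ∂M.mu H = inner ℂ u v :=
    integral_congr_ae (Eventually.of_forall fun x => (mf_pp χ s d x).1.symm)
  have h1 : ‖u‖ ^ 2 ≤ K * C := by
    rw [Pre.norm_sq]
    refine le_trans ?_ (mul_le_mul_of_nonneg_left hC K0.le)
    rw [← integral_const_mul]
    refine integral_mono (itg u) (((mMU n M H hH).2.2.2.2.1 ℝ _
      (hχ.continuous.pow 2)).const_mul _) fun x => ?_
    change b.pn (mf χ s) x ≤ K * χ x ^ 2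
    rw [(mf_pp χ s d x).2, mul_comm]
    exact mul_le_mul_of_nonneg_right (hK' x) (sq_nonneg _)
  rw [e, show b.nr H d = ‖v‖ ^ 2 from (Pre.norm_sq v).symm]
  refine (pow_le_pow_left₀ (norm_nonneg _) (norm_inner_le_norm u v) 2).trans ?_
  rw [mul_pow]
  exact mul_le_mul_of_nonneg_right h1 (sq_nonneg _)

end gen

variable {n : ℕ} {M : Mf n} [M.Cpt] {H : M.Fam (Mat n)} {L : M.Co} {φ : M.Fam ℝ}

/-- One weight. -/
theorem step {ε η : ℝ} {w : M.X → ℝ} {x : M.Fam (Fs n → ℂ)} (hH : M.Kae H) (hφ : M.WtC L φ)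
    (hε : 0 ≤ ε) (hw : M.Sm w) (w0 : ∀ x, w x ≤ 0)
    (hc : M.Le 0 (M.hw φ + M.ric H + M.hs w + ε • H)) (hx : (lam H L φ).Sec x)
    (hQ : M.All fun e z => (oQ H).ap x e z = 0) (hη : 0 < η) :
    ∃ (u y : M.Fam (Fs n → ℂ)) (N : ℝ), (lam H L φ).Sec u ∧ (lam H L φ).Sec y ∧
      (lam H L φ).nr H (x - (oQ H).ap y) ≤ 2 * N + 2 * η ^ 2 ∧ (lam H L φ).nr H u ≤ N ∧
      N ≤ 2 * (lam H L (aw M φ w)).nr H x + 2 * η ^ 2 ∧
      (∀ s, (lam H L φ).Sec s → ‖(lam H L (aw M φ w)).ip H ((oQ H).ap s) u‖ ^ 2 ≤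
        (lam H L (aw M φ w)).nr H s * η ^ 2) ∧
      ∫ p, gb H (lam H L φ) u p ∂M.mu H ≤ 2 * η ^ 2 + ε * n * N ∧
      N - η ≤ ((lam H L (aw M φ w)).ip H x u).re := by
  have hm := hH.toMet
  obtain ⟨o0, l0, a0⟩ := aLAM n M H L φ hm hφ
  obtain ⟨⟨hψ, hh⟩, a1⟩ := And.intro ((a0 w).1 hw) (a0 w).2
  obtain ⟨o1, l1, -⟩ := aLAM n M H L _ hm hψ
  let g0 : Geo M (Fs n) := ⟨H, lam H L φ, hm, o0⟩
  let g1 : Geo M (Fs n) := ⟨H, lam H L (aw M φ w), hm, o1⟩
  let ι : Pre g1 →ₗ[ℂ] Pre g0 :=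
    ⟨⟨fun u => Pre.mk u.val ⟨u.sec.sm, u.sec.cmp⟩, fun _ _ => rfl⟩, fun _ _ => rfl⟩
  have ex : ∀ x, 1 ≤ Real.exp (-w x) := fun x => Real.one_le_exp (by linarith [w0 x])
  have i1 : ∀ a, ‖ι a‖ ≤ ‖a‖ := fun a => by
    refine sq2 ?_ (norm_nonneg _)
    rw [Pre.norm_sq, Pre.norm_sq]
    refine integral_mono (itg (ι a)) (itg a) fun x => ?_
    have := (a1 a.val a.val x).2.1
    have p := Pre.pn_nonneg (g := g0) a.val x
    change (lam H L φ).pn a.val x ≤ (lam H L (aw M φ w)).pn a.val x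
    change 0 ≤ (lam H L φ).pn a.val x at p
    rw [this]
    nlinarith [ex x]
  have q1 : ∀ W, g1.b.Sec W → g1.b.Sec ((oQ H).ap W) := fun W h => (aSQ n M H L _ W hm h).1
  have p1 : ∀ W, g1.b.Sec W → g1.b.Sec ((oP H (aw M φ w)).ap W) := fun W h =>
    aSP n M H L _ W hm hψ h
  obtain ⟨k1, -, s1⟩ := aSKW n M H L _ hH hψ
  have eD : ∀ s : Pre g1, Pre.op (g := g1) _ k1.sec s = Pre.op _ q1 s + Pre.op _ p1 s := fun s =>
    Pre.ext (funext fun e => funext fun z => by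
      show (if e ∈ M.C ∧ z ∈ e.target then (oD H (aw M φ w)).ap s.val e z else 0) =
        (if e ∈ M.C ∧ z ∈ e.target then (oQ H).ap s.val e z else 0) +
        if e ∈ M.C ∧ z ∈ e.target then (oP H (aw M φ w)).ap s.val e z else 0
      by_cases c : e ∈ M.C ∧ z ∈ e.target
      · simp only [if_pos c]
        exact (s1 _ s.sec).1 e z
      · simp only [if_neg c, add_zero])
  have ort : ∀ a b : Pre g1, inner ℂ (Pre.op _ q1 a) (Pre.op _ p1 b) = 0 := fun a b =>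
    (ip_op q1 p1 a b).2.2.trans ((s1 _ a.sec).2.1 _ b.sec)
  have adj : ∀ a b : Pre g1, inner ℂ (Pre.op _ q1 a) b = -inner ℂ a (Pre.op _ p1 b) := fun a b => by
    rw [(ip_op q1 p1 a b).1, (ip_op q1 p1 a b).2.1]
    exact aADJ n M H L _ _ _ hH hψ a.sec b.sec
  let f : Pre g1 := Pre.mk x ⟨hx.sm, hx.cmp⟩
  have f0 : ‖Pre.op _ q1 f‖ = 0 := by
    refine pow_eq_zero_iff (two_ne_zero) |>.1 ?_
    rw [nr_op q1 f]
    have k : M.All fun e z => (oQ H).ap x e z = (0 : M.Fam (Fs n → ℂ)) e z := hQ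
    change ∫ p, ((lam H L (aw M φ w)).pp ((oQ H).ap x) ((oQ H).ap x) p).re ∂M.mu H = 0
    rw [show (lam H L (aw M φ w)).pp ((oQ H).ap x) ((oQ H).ap x) = _ from
      Pre.pp_congr (g := g1) k k]
    simp [Bun.pp, Mf.ev]
  obtain ⟨u, y, c1, c2, c3, c4, c5⟩ := Near84.near3 (Pre g1) (Pre.op _ p1) (Pre.op _ q1) adj ort
    (fun t d f hd => by
      simpa only [eD] using (aDNS (Pre g1) (Pre.op (g := g1) _ k1.sec) (Pre.op_skew (g := g1) k1)
        (aWS n M _ g1 _ k1)).1 t d f hd) f f0 η hη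
  refine ⟨u.val, y.val, ‖u‖ ^ 2, (ι u).sec, (ι y).sec, ?_, ?_, ?_, fun s hs => ?_, ?_, c5⟩
  · have k : M.All fun e z => (ι (f - Pre.op _ q1 y)).val e z = (x - (oQ H).ap y.val) e z :=
      fun e he z hz => by
        show x e z - (Pre.op _ q1 y).val e z = x e z - (oQ H).ap y.val e z
        rw [Pre.op_val q1 y e he z hz]
    have e : (lam H L φ).nr H (x - (oQ H).ap y.val) = ‖ι (f - Pre.op _ q1 y)‖ ^ 2 := by
      rw [Pre.norm_sq]
      unfold Bun.nr Bun.pn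
      rw [Pre.pp_congr (g := g0) k k]
    have h1 : ‖f - Pre.op _ q1 y‖ ≤ ‖u‖ + η := by
      have := norm_add_le u (f - u - Pre.op _ q1 y)
      rw [show u + (f - u - Pre.op _ q1 y) = f - Pre.op _ q1 y by abel] at this
      linarith
    rw [e]
    have := pow_le_pow_left₀ (norm_nonneg _) ((i1 _).trans h1) 2
    nlinarith [sq_nonneg (‖u‖ - η)]
  · exact (Pre.norm_sq (ι u)).symm.le.trans (pow_le_pow_left₀ (norm_nonneg _) (i1 u) 2)
  · rw [show (lam H L (aw M φ w)).nr H x = ‖f‖ ^ 2 from (Pre.norm_sq f).symm]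
    have := pow_le_pow_left₀ (norm_nonneg _) c4 2
    nlinarith [sq_nonneg (‖f‖ - η)]
  · let t : Pre g1 := Pre.mk s ⟨hs.sm, hs.cmp⟩
    rw [show (lam H L (aw M φ w)).nr H s = ‖t‖ ^ 2 from (Pre.norm_sq t).symm,
      show (lam H L (aw M φ w)).ip H ((oQ H).ap s) u.val = _ from (ip_op q1 p1 t u).1.symm, adj,
      norm_neg, ← mul_pow]
    exact pow_le_pow_left₀ (norm_nonneg _) ((norm_inner_le_norm _ _).trans
      (mul_le_mul_of_nonneg_left c3 (norm_nonneg _))) 2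
  have it := (mMU n M H hm).2.2.2.2.1 ℝ
  obtain ⟨-, g0c, g0p, -⟩ := (aGB n M _ H _ hm o0 l0).1 _ (ι u).sec
  obtain ⟨-, g1c, -, -⟩ := (aGB n M _ H _ hm o1 l1).1 _ u.sec
  have boc := aBOC n M H L _ _ hH hψ u.sec
  rw [show (lam H L (aw M φ w)).nr H ((oQ H).ap u.val) = _ from (nr_op q1 u).symm,
    show (lam H L (aw M φ w)).nr H ((oP H _).ap u.val) = _ from (nr_op p1 u).symm] at boc
  obtain ⟨-, cc, cl⟩ := aCU n M H _ L _ _ hm
    (hψ.clo.toTen.add ((mHES n M).2.2.2.2.2.2.2.2.1 H hm).toTen) hψ u.sec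
  have cl' := cl ε hε fun e he z hz => by
    have := hc e he z hz
    simp only [Pi.add_apply, hh e he z hz] at this ⊢
    rwa [add_right_comm (M.hw φ e z)]
  have m1 : -(ε * n * ‖u‖ ^ 2) ≤
      ∫ x, cu (M.hw (aw M φ w) + M.ric H) (lam H L (aw M φ w)) u.val x ∂M.mu H := by
    rw [Pre.norm_sq, Bun.nr, ← integral_const_mul, ← integral_neg]
    exact integral_mono ((itg u).const_mul _).neg (it _ cc) cl'
  have m2 : ∫ x, gb H (lam H L φ) u.val x ∂M.mu H ≤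
      ∫ x, gb H (lam H L (aw M φ w)) u.val x ∂M.mu H :=
    integral_mono (it _ g0c) (it _ g1c) fun x => by
      have := g0p x
      change 0 ≤ gb H (lam H L φ) u.val x at this
      simp only [(a1 u.val u.val x).2.2]
      nlinarith [ex x]
  have m3 := pow_le_pow_left₀ (norm_nonneg _) c2 2
  have m4 := pow_le_pow_left₀ (norm_nonneg _) c3 2
  linarith

/-- The dichotomy. -/
theorem dich {ε : ℕ → ℝ} {w : ℕ → M.X → ℝ} {C : ℝ} {q : ℕ} {x : M.Fam (Fs n → ℂ)} (hn : 0 < n)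
    (hH : M.Kae H) (hφ : M.WtC L φ) (hε : ∀ j, 0 ≤ ε j) (hε0 : Tendsto ε atTop (𝓝 0))
    (hw : ∀ j, M.Sm (w j)) (w0 : ∀ j x, w j x ≤ 0)
    (hc : ∀ j, M.Le 0 (M.hw φ + M.ric H + M.hs (w j) + ε j • H))
    (hC : ∀ j, ∫ p, Real.exp (-w j p) ^ 2 ∂M.mu H ≤ C) (hx : (lam H L φ).Sec x) (hd : Deg q x)
    (hQ : M.All fun e z => (oQ H).ap x e z = 0) :
    (∀ η : ℝ, 0 < η → ∃ y, (lam H L φ).Sec y ∧ (lam H L φ).nr H (x - (oQ H).ap y) ≤ η) ∨
    ∃ W, (lam H L φ).Sec W ∧ Hol W ∧ Deg q W ∧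
      Fl.WP H L φ (fun j p => Real.exp (-w j p)) W ∧ ∃ c : ℝ, 0 < c ∧ ∀ᶠ j in hyperfilter ℕ,
        c ≤ (∫ p, (Real.exp (-w j p) : ℂ) * (lam H L φ).pp x W p ∂M.mu H).re := by
  refine or_iff_not_imp_left.2 fun h => ?_
  push Not at h
  obtain ⟨η, hη, h⟩ := h
  have hm := hH.toMet
  obtain ⟨o0, l0, a0⟩ := aLAM n M H L φ hm hφ
  let g : Geo M (Fs n) := ⟨H, lam H L φ, hm, o0⟩
  have it := (mMU n M H hm).2.2.2.2.1
  have sx : ∀ j, M.Sm fun p => Real.exp (-w j p) := fun j => (hw j).neg.exp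
  have ex : ∀ j p, 1 ≤ Real.exp (-w j p) := fun j p => Real.one_le_exp (by linarith [w0 j p])
  have bd : ∀ s, (lam H L φ).Sec s → ∃ B : ℝ, 0 ≤ B ∧ ∀ j,
      (lam H L (aw M φ (w j))).nr H s ≤ B := fun s hs => by
    obtain ⟨K, K0, hK, -⟩ := cross hm o0 hs
    refine ⟨K * C, mul_nonneg K0 ((integral_nonneg fun p => sq_nonneg _).trans (hC 0)), fun j =>
      le_trans ?_ (mul_le_mul_of_nonneg_left (hC j) K0)⟩
    rw [← integral_const_mul, Bun.nr]
    simp only [fun p => ((a0 (w j)).2 s s p).2.1]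
    refine integral_mono (it ℝ _ ((continuous_re.comp (o0.pp_rep hs hs).2.continuous).mul
      (sx j).continuous)) ((it ℝ _ ((sx j).continuous.pow 2)).const_mul _) fun p => ?_
    have := ex j p
    exact mul_le_mul (hK p) (by nlinarith) (by linarith) K0
  have ipw : ∀ j s d, (lam H L (aw M φ (w j))).ip H s d =
      ∫ p, (Real.exp (-w j p) : ℂ) * (lam H L φ).pp s d p ∂M.mu H := fun j s d => by
    simp only [Bun.ip, fun p => ((a0 (w j)).2 s d p).1, mul_comm]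
  let δ : ℕ → ℝ := fun j => 1 / ((j : ℝ) + 1)
  have δ0 : ∀ j, 0 < δ j := fun j => by positivity
  have δ1 : ∀ j, δ j ≤ 1 := fun j => by
    rw [div_le_one (by positivity)]; linarith [j.cast_nonneg (α := ℝ)]
  have δt : Tendsto δ atTop (𝓝 0) := tendsto_one_div_add_atTop_nhds_zero_nat
  choose u y N s1 s2 s3 s4 s5 s6 s7 s8 using fun j =>
    step hH hφ (hε j) (hw j) (w0 j) (hc j) hx hQ (δ0 j)
  obtain ⟨B, B0, hB⟩ := bd x hx
  have NB : ∀ j, N j ≤ 2 * B + 2 := fun j => by nlinarith [s5 j, hB j, δ0 j, δ1 j]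
  have n0 : (0 : ℝ) ≤ n := n.cast_nonneg
  have gt : Tendsto (fun j => 2 * δ j ^ 2 + ε j * n * (2 * B + 2)) atTop (𝓝 0) := by
    simpa using ((δt.pow 2).const_mul 2).add ((hε0.mul_const (n : ℝ)).mul_const (2 * B + 2))
  have g1 : ∀ j, ∫ p, gb H (lam H L φ) (u j) p ∂M.mu H ≤
      2 * δ j ^ 2 + ε j * n * (2 * B + 2) := fun j =>
    (s7 j).trans (by nlinarith [mul_le_mul_of_nonneg_left (NB j) (mul_nonneg (hε j) n0)])
  obtain ⟨D, hD⟩ := gt.bddAbove_range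
  obtain ⟨V, v1, v2, v3⟩ := aVL n M _ H _ (hyperfilter ℕ) u (max D (2 * B + 2)) hn hm o0 l0
    (fun j => ⟨s1 j, ((s4 j).trans (NB j)).trans (le_max_right _ _),
      ((g1 j).trans (hD ⟨j, rfl⟩)).trans (le_max_left _ _)⟩)
    ((squeeze_zero (fun j => integral_nonneg ((aGB n M _ H _ hm o0 l0).1 _ (s1 j)).2.2.1)
      g1 gt).mono_left Nat.hyperfilter_le_atTop)
  have cr : ∀ s, (lam H L φ).Sec s → Tendsto (fun j => (lam H L (aw M φ (w j))).ip H s (u j) -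
      ∫ p, (Real.exp (-w j p) : ℂ) * (lam H L φ).pp s V p ∂M.mu H) (hyperfilter ℕ) (𝓝 0) :=
    fun s hs => by
    obtain ⟨K, K0, -, hK⟩ := cross hm o0 hs
    have sd : ∀ j, (lam H L φ).Sec (u j - V) := fun j =>
      (Pre.mk (g := g) (u j) (s1 j) - Pre.mk (g := g) V v1).sec
    have t := v3.const_mul (K * C)
    rw [mul_zero] at t
    have t2 := (squeeze_zero (fun j => sq_nonneg _)
      (fun j => hK _ C _ (sx j) (sd j) (hC j)) t).sqrt
    simp only [Real.sqrt_sq (norm_nonneg _), Real.sqrt_zero] at t2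
    refine (tendsto_zero_iff_norm_tendsto_zero.2 t2).congr fun j => ?_
    have c : ∀ d, (lam H L φ).Sec d → Integrable
        (fun p => (Real.exp (-w j p) : ℂ) * (lam H L φ).pp s d p) (M.mu H) := fun d hd =>
      it ℂ _ ((continuous_ofReal.comp (sx j).continuous).mul (o0.pp_rep hs hd).2.continuous)
    rw [ipw, ← integral_sub (c _ (s1 j)) (c _ v1)]
    refine integral_congr_ae (Eventually.of_forall fun p => ?_)
    simp only [Bun.pp, Mf.ev, Pi.sub_apply, Matrix.mulVec_sub, dotProduct_sub, mul_sub]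
  have wp : Fl.WP H L φ (fun j p => Real.exp (-w j p)) V := fun s hs => by
    obtain ⟨A, A0, hA⟩ := bd s hs
    have t : Tendsto (fun j => A * δ j ^ 2) atTop (𝓝 0) := by
      simpa using (δt.pow 2).const_mul A
    have t2 := (squeeze_zero (fun j => sq_nonneg _) (fun j => (s6 j s hs).trans
      (mul_le_mul_of_nonneg_right (hA j) (sq_nonneg _))) t).sqrt
    simp only [Real.sqrt_sq (norm_nonneg _), Real.sqrt_zero] at t2
    have t3 := ((tendsto_zero_iff_norm_tendsto_zero.2 t2).mono_left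
      Nat.hyperfilter_le_atTop).sub (cr _ (aSQ n M H L _ s hm hs).1)
    simpa only [sub_sub_cancel, sub_zero] using t3
  have px : pj (· = q) x = x := funext fun e => funext fun z => funext fun A => by
    by_cases c : A.card = q
    · simp only [pj, if_pos c]
    · simp only [pj, if_neg c, hd e z A c]
  refine ⟨pj (· = q) V, Fl.pj_sec _ v1, Fl.pj_hol _ v2, fun e z A c => by simp only [pj, if_neg c],
    wp.pj _, η / 8, by positivity, ?_⟩
  rw [← Fl.pj_pp, px]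
  have t := (continuous_re.tendsto _).comp (cr x hx)
  filter_upwards [(tendsto_order.1 t).2 (η / 8) (by simpa using hη),
    (tendsto_order.1 (δt.mono_left Nat.hyperfilter_le_atTop)).2 (η / 8) (by positivity)]
    with j h1 h2
  simp only [Function.comp, sub_re] at h1
  have := h _ (s2 j)
  nlinarith [s3 j, s8 j, δ0 j, δ1 j]

end Pool.Agent.Lib.NU4.Dich84
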