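import Pool.Agent.Lib.NU4.Flip71c

/-! The curvature term of a holomorphic section that is asymptotically orthogonal to the image
of `Q`. -/

open scoped Classical Topology ContDiff ComplexOrder Matrix
open Set MeasureTheory Complex Metric Filter

noncomputable section

namespace Pool.Agent.Lib.NU4.Fl

open Pool.Agent.Lib.SV (E)
open Pool.Agent.Lib.HS32 Pool.Agent.Lib.KP Pool.Agent.Lib.HLK
open Pool.Agent.Lib.EXH (aw)
open Pool.Agent.Lib.HLK.ONE

variable {n : ℕ} {M : Mf n} {H : M.Fam (Mat n)} {L : M.Co} {φ : M.Fam ℝ}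

theorem cu_mf (θ : M.Fam (Mat n)) (b : Bun M (Fs n)) (F : M.X → ℝ) (W : M.Fam (Fs n → ℂ))
    (x : M.X) : cu θ b (mf F W) x = F x ^ 2 * cu θ b W x := by
  simp only [cu, Mf.ev, mf, Mf.ch_symm, star_smul, smul_dotProduct, Matrix.mulVec_smul,
    dotProduct_smul, smul_eq_mul, RCLike.star_def, conj_ofReal]
  rw [← re_ofReal_mul, Finset.mul_sum]
  refine congrArg re (Finset.sum_congr rfl fun k _ => ?_)
  rw [Finset.mul_sum]
  exact Finset.sum_congr rfl fun l _ => by push_cast; ring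

theorem cu_add (S T : M.Fam (Mat n)) (c : ℝ) (b : Bun M (Fs n)) (W : M.Fam (Fs n → ℂ)) (x : M.X) :
    cu (S + c • T) b W x = cu S b W x + c * cu T b W x := by
  simp only [cu, Mf.ev, Pi.add_apply, Pi.smul_apply, Matrix.add_apply, Matrix.smul_apply,
    real_smul, add_mul, Finset.sum_add_distrib, add_re, mul_assoc, ← Finset.mul_sum, re_ofReal_mul]

theorem cu_congr {S T : M.Fam (Mat n)} (h : M.All fun e z => S e z = T e z) (b : Bun M (Fs n))
    (W : M.Fam (Fs n → ℂ)) (x : M.X) : cu S b W x = cu T b W x := by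
  simp only [cu, Mf.ev, h _ (Mf.ch_mem x) _ (Mf.ch_tgt x)]

theorem cu_aw (θ : M.Fam (Mat n)) (v : M.X → ℝ) (W : M.Fam (Fs n → ℂ)) (x : M.X) :
    cu θ (lam H L (aw M φ v)) W x = Real.exp (-v x) * cu θ (lam H L φ) W x := by
  simp only [cu, Mf.ev, lam, aw, Pi.add_apply, Mf.ch_symm, neg_add, Real.exp_add, ofReal_mul,
    Matrix.smul_mulVec, dotProduct_smul, smul_eq_mul]
  rw [← re_ofReal_mul, Finset.mul_sum]
  refine congrArg re (Finset.sum_congr rfl fun k _ => ?_)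
  rw [Finset.mul_sum]
  exact Finset.sum_congr rfl fun l _ => by ring

variable [M.Cpt]

theorem pol (hH : M.Kae H) (hφ : M.WtC L φ) {V : M.Fam (Fs n → ℂ)} (hV : (lam H L φ).Sec V)
    (hh : Hol V) {F : M.X → ℝ} (hF : M.Sm F) :
    ∫ x, F x * cu (M.hw φ + M.ric H) (lam H L φ) V x ∂M.mu H =
      -(∫ x, (F x : ℂ) * (lam H L φ).pp ((oQ H).ap ((oP H φ).ap V)) V x ∂M.mu H).re := by
  have hm := hH.toMet
  obtain ⟨o, l0, -⟩ := aLAM n M H L φ hm hφ
  have it := (mMU n M H hm).2.2.2.2.1 ℝ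
  let g : Geo M (Fs n) := ⟨H, lam H L φ, hm, o⟩
  have q : ∀ W, g.b.Sec W → g.b.Sec ((oQ H).ap W) := fun W h => (aSQ n M H L _ W hm h).1
  have p : ∀ W, g.b.Sec W → g.b.Sec ((oP H φ).ap W) := fun W h => aSP n M H L _ W hm hφ h
  have boc : ∀ u : Pre g, ‖Pre.op _ q u‖ ^ 2 + ‖Pre.op _ p u‖ ^ 2 =
      ∫ x, gb H (lam H L φ) u.val x ∂M.mu H +
        ∫ x, cu (M.hw φ + M.ric H) (lam H L φ) u.val x ∂M.mu H := fun u => by
    rw [nr_op q, nr_op p]
    exact aBOC n M H L φ _ hH hφ u.sec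
  let v : Pre g := Pre.mk V hV
  let s : Pre g := Pre.mk (mf F V) (CUT.sec_mul hF hV)
  have q0 : Pre.op _ q v = 0 := Pre.ext (funext fun e => funext fun z => by
    show (if e ∈ M.C ∧ z ∈ e.target then (oQ H).ap V e z else 0) = 0
    split_ifs with c
    · exact q_hol hh e c.1 z c.2
    · rfl)
  have e1 : (v + s).val = mf (fun x => 1 + F x) V := funext fun e => funext fun z => by
    show V e z + (F (e.symm z) : ℂ) • V e z = ((1 + F (e.symm z) : ℝ) : ℂ) • V e z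
    rw [ofReal_add, ofReal_one, add_smul, one_smul]
  have g1 := ((aGB n M _ H _ hm o l0).1 _ (v + s).sec).2.2.2 V hV hh
  rw [show (v + s).val - V = s.val from add_sub_cancel_left V _] at g1
  have b0 := boc v
  have b1 := boc s
  have b2 := boc (v + s)
  have cc := (aCU n M H _ L φ V hm
    (hφ.clo.toTen.add ((mHES n M).2.2.2.2.2.2.2.2.1 H hm).toTen) hφ hV).2.1
  rw [map_add, map_add, q0, zero_add, @norm_add_sq ℂ, ← show gb H (lam H L φ) s.val = _ from g1, e1]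
    at b2
  rw [q0, norm_zero] at b0
  simp only [v, s, Pre.val_mk, IDX.HA.gb_zero _ hh, integral_zero, cu_mf] at b0 b1 b2
  have e2 : ∀ x, (1 + F x) ^ 2 * cu (M.hw φ + M.ric H) (lam H L φ) V x =
      cu (M.hw φ + M.ric H) (lam H L φ) V x + (2 * (F x * cu (M.hw φ + M.ric H) (lam H L φ) V x) +
        F x ^ 2 * cu (M.hw φ + M.ric H) (lam H L φ) V x) := fun x => by ring
  have i1 := it (fun x => F x * cu (M.hw φ + M.ric H) (lam H L φ) V x) (hF.continuous.mul cc)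
  have i2 := it (fun x => F x ^ 2 * cu (M.hw φ + M.ric H) (lam H L φ) V x)
    ((hF.pow 2).continuous.mul cc)
  have i3 := it (fun x => 2 * (F x * cu (M.hw φ + M.ric H) (lam H L φ) V x) +
    F x ^ 2 * cu (M.hw φ + M.ric H) (lam H L φ) V x)
    ((continuous_const.mul (hF.continuous.mul cc)).add ((hF.pow 2).continuous.mul cc))
  simp only [e2] at b2
  rw [integral_add (it _ cc) i3, integral_add (i1.const_mul 2) i2, integral_const_mul] at b2
  have a := aADJ n M H L φ _ _ hH hφ (p _ hV) s.sec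
  have e3 := (ip_op p p v s).2.2
  simp only [Bun.ip, s, Pre.val_mk, (pp_mf _ _ _ _).2] at a
  rw [a, neg_re, neg_neg]
  change _ = ((lam H L φ).ip H ((oP H φ).ap v.val) ((oP H φ).ap s.val)).re
  rw [← show _ = (lam H L φ).ip H _ _ from e3]
  simp only [RCLike.re_to_complex] at b2
  linarith

theorem WP.cu {F : ℕ → M.X → ℝ} {V : M.Fam (Fs n → ℂ)} (h : WP H L φ F V) (hH : M.Kae H)
    (hφ : M.WtC L φ) (hV : (lam H L φ).Sec V) (hh : Hol V) (hF : ∀ j, M.Sm (F j)) {v : M.X → ℝ}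
    (hv : M.Sm v) : Tendsto (fun j => ∫ x, F j x *
      cu (M.hw φ + M.ric H + M.hs v) (lam H L φ) V x ∂M.mu H) (hyperfilter ℕ) (𝓝 0) := by
  have hm := hH.toMet
  obtain ⟨-, -, a0⟩ := aLAM n M H L φ hm hφ
  obtain ⟨hψ, e0⟩ := (a0 v).1 hv
  have V1 : (lam H L (aw M φ v)).Sec V := ⟨hV.sm, hV.cmp⟩
  have P1 := aSP n M H L _ V hm hψ V1
  have t := ((continuous_re.tendsto _).comp (h _ ⟨P1.sm, P1.cmp⟩)).neg
  rw [zero_re, neg_zero] at t
  refine t.congr fun j => ?_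
  have k := pol hH hψ V1 hh ((hF j).mul hv.exp)
  have e1 : ∀ x, F j x * Real.exp (v x) *
      HLK.cu (M.hw (aw M φ v) + M.ric H) (lam H L (aw M φ v)) V x =
        F j x * HLK.cu (M.hw φ + M.ric H + M.hs v) (lam H L φ) V x := fun x => by
    rw [cu_aw, cu_congr (T := M.hw φ + M.ric H + M.hs v) fun e he z hz => by
      simp only [Pi.add_apply, e0 e he z hz, add_right_comm], mul_assoc, ← mul_assoc (Real.exp _),
      ← Real.exp_add, add_neg_cancel, Real.exp_zero, one_mul]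
  have e2 : ∀ U x, ((F j x * Real.exp (v x) : ℝ) : ℂ) * (lam H L (aw M φ v)).pp U V x =
      F j x * (lam H L φ).pp U V x := fun U x => by
    rw [((a0 v).2 U V x).1, mul_comm ((lam H L φ).pp U V x), ← mul_assoc, ← ofReal_mul, mul_assoc,
      ← Real.exp_add, add_neg_cancel, Real.exp_zero, mul_one]
  simp only [e1, e2] at k
  exact k.symm

theorem WP.sm {F : ℕ → M.X → ℝ} {V : M.Fam (Fs n → ℂ)} {C : ℝ} (h : WP H L φ F V) (hH : M.Kae H)
    (hφ : M.WtC L φ) (hV : (lam H L φ).Sec V) (hh : Hol V)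
    (hF : ∀ j, M.Sm (F j) ∧ (∀ x, 1 / 2 ≤ F j x) ∧ ∫ x, F j x ^ 2 ∂M.mu H ≤ C) :
    ∃ B : ℝ, 0 ≤ B ∧ ∀ (ε : ℝ) (v : M.X → ℝ), 0 ≤ ε → M.Sm v →
      M.Le 0 (M.hw φ + M.ric H + M.hs v + ε • H) →
      ∫ x, HLK.cu (M.hw φ + M.ric H + M.hs v + ε • H) (lam H L φ) V x ∂M.mu H ≤ B * ε := by
  have hm := hH.toMet
  have it := (mMU n M H hm).2.2.2.2.1 ℝ
  have cH := (aCU n M H H L φ V hm hm.toTen hφ hV).2.1
  obtain ⟨K, hK⟩ := isCompact_univ.exists_bound_of_continuousOn cH.continuousOn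
  have C0 : 0 ≤ C := (integral_nonneg fun x => sq_nonneg _).trans (hF 0).2.2
  refine ⟨4 * |K| * C, by positivity, fun ε v hε hv hle => ?_⟩
  have tθ := (hφ.clo.toTen.add ((mHES n M).2.2.2.2.2.2.2.2.1 H hm).toTen).add
    ((mHES n M).1 v hv).toTen
  have c1 := (aCU n M H _ L φ V hm tθ hφ hV).2.1
  obtain ⟨-, c2, c3⟩ := aCU n M H _ L φ V hm (tθ.add (hm.toTen.smul ε)) hφ hV
  have c4 := c3 0 le_rfl (by simpa only [zero_smul, add_zero] using hle)
  have t := ((h.cu hH hφ hV hh (fun j => (hF j).1) hv).const_mul 2).add_const (4 * |K| * C * ε)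
  rw [mul_zero, zero_add] at t
  refine ge_of_tendsto' t fun j => ?_
  obtain ⟨f1, f2, f3⟩ := hF j
  have i1 := it (fun x => F j x * HLK.cu (M.hw φ + M.ric H + M.hs v) (lam H L φ) V x)
    (f1.continuous.mul c1)
  have i2 := it _ (f1.pow 2).continuous
  refine (integral_mono (it _ c2) ((i1.const_mul 2).add (i2.const_mul (4 * |K| * ε)))
    fun x => ?_).trans ?_
  · have a1 := c4 x
    have a2 := (le_abs_self _).trans ((hK x trivial).trans (le_abs_self K))
    have a3 := f2 x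
    simp only [zero_mul, neg_zero, cu_add, Pi.add_apply, Pi.mul_apply] at a1 ⊢
    have a4 := mul_le_mul_of_nonneg_left a2 (mul_nonneg hε (by linarith : 0 ≤ F j x))
    have a5 := mul_nonneg (mul_nonneg hε (abs_nonneg K)) (mul_nonneg (by linarith : 0 ≤ F j x)
      (by linarith : 0 ≤ 2 * F j x - 1))
    nlinarith
  · simp only [Pi.add_apply]
    rw [integral_add (i1.const_mul 2) (i2.const_mul _), integral_const_mul, integral_const_mul]
    have := mul_le_mul_of_nonneg_left f3 (by positivity : 0 ≤ 4 * |K| * ε)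
    linarith

end Pool.Agent.Lib.NU4.Fl
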