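import Pool.Agent.Lib.NU4.Blue
import Pool.Agent.Lib.NU4.Dich84
import Pool.Agent.Lib.NU4.Flip71d
import Pool.Agent.Lib.K3E.B_KAN

/-! Project nu4, row HLX: the hard Lefschetz theorem for one class. -/

open scoped Classical Topology ContDiff ComplexOrder Matrix
open Set MeasureTheory Complex Metric Filter

noncomputable section

namespace Pool.Agent.Lib.NU4

open Pool.Agent.Lib.SV (E)
open Pool.Agent.Lib.HS32 Pool.Agent.Lib.KP Pool.Agent.Lib.HLK Pool.Agent.Lib.F4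
open Pool.Agent.Lib.EXH (aw)
open Pool.Agent.Lib.K3E (kan wk lk)

namespace Hlx84

open Dich84

variable {n : ℕ} {M : Mf n} [M.Cpt] {H : M.Fam (Mat n)} {L : M.Co} {φ : M.Fam ℝ}

/-- The dichotomy, without condition on the degree. -/
theorem dich0 {ε : ℕ → ℝ} {w : ℕ → M.X → ℝ} {C : ℝ} {x : M.Fam (Fs n → ℂ)} (hn : 0 < n)
    (hH : M.Kae H) (hφ : M.WtC L φ) (hε : ∀ j, 0 ≤ ε j) (hε0 : Tendsto ε atTop (𝓝 0))
    (hw : ∀ j, M.Sm (w j)) (w0 : ∀ j x, w j x ≤ 0)
    (hc : ∀ j, M.Le 0 (M.hw φ + M.ric H + M.hs (w j) + ε j • H))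
    (hC : ∀ j, ∫ p, Real.exp (-w j p) ^ 2 ∂M.mu H ≤ C) (hx : (lam H L φ).Sec x)
    (hQ : M.All fun e z => (oQ H).ap x e z = 0) :
    (∀ η : ℝ, 0 < η → ∃ y, (lam H L φ).Sec y ∧ (lam H L φ).nr H (x - (oQ H).ap y) ≤ η) ∨
    ∃ W, (lam H L φ).Sec W ∧ Hol W ∧
      Fl.WP H L φ (fun j p => Real.exp (-w j p)) W ∧ ∃ c : ℝ, 0 < c ∧ ∀ᶠ j in hyperfilter ℕ,
        c ≤ ((lam H L (aw M φ (w j))).ip H x W).re := by
  refine or_iff_not_imp_left.2 fun h => ?_
  push Not at h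
  obtain ⟨η, hη, h⟩ := h
  have hm := hH.toMet
  obtain ⟨o0, l0, a0⟩ := aLAM n M H L φ hm hφ
  let g : Geo M (Fs n) := ⟨H, lam H L φ, hm, o0⟩
  have it := (mMU n M H hm).2.2.2.2.1
  have sx : ∀ j, M.Sm fun p => Real.exp (-w j p) := fun j => (hw j).neg.exp
  have ex : ∀ j p, 1 ≤ Real.exp (-w j p) := fun j p => Real.one_le_exp (by linarith [w0 j p])
  have bd : ∀ s, (lam H L φ).Sec s → ∃ B : ℝ, 0 ≤ B ∧ ∀ j,
      (lam H L (aw M φ (w j))).nr H s ≤ B := fun s hs => by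
    obtain ⟨K, K0, hK, -⟩ := cross hm o0 hs
    refine ⟨K * C, mul_nonneg K0 ((integral_nonneg fun p => sq_nonneg _).trans (hC 0)), fun j =>
      le_trans ?_ (mul_le_mul_of_nonneg_left (hC j) K0)⟩
    rw [← integral_const_mul, Bun.nr]
    simp only [fun p => ((a0 (w j)).2 s s p).2.1]
    refine integral_mono (it ℝ _ ((continuous_re.comp (o0.pp_rep hs hs).2.continuous).mul
      (sx j).continuous)) ((it ℝ _ ((sx j).continuous.pow 2)).const_mul _) fun p => ?_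
    have := ex j p
    exact mul_le_mul (hK p) (by nlinarith) (by linarith) K0
  have ipw : ∀ j s d, (lam H L (aw M φ (w j))).ip H s d =
      ∫ p, (Real.exp (-w j p) : ℂ) * (lam H L φ).pp s d p ∂M.mu H := fun j s d => by
    simp only [Bun.ip, fun p => ((a0 (w j)).2 s d p).1, mul_comm]
  let δ : ℕ → ℝ := fun j => 1 / ((j : ℝ) + 1)
  have δ0 : ∀ j, 0 < δ j := fun j => by positivity
  have δ1 : ∀ j, δ j ≤ 1 := fun j => by
    rw [div_le_one (by positivity)]; linarith [j.cast_nonneg (α := ℝ)]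
  have δt : Tendsto δ atTop (𝓝 0) := tendsto_one_div_add_atTop_nhds_zero_nat
  choose u y N s1 s2 s3 s4 s5 s6 s7 s8 using fun j =>
    step hH hφ (hε j) (hw j) (w0 j) (hc j) hx hQ (δ0 j)
  obtain ⟨B, B0, hB⟩ := bd x hx
  have NB : ∀ j, N j ≤ 2 * B + 2 := fun j => by nlinarith [s5 j, hB j, δ0 j, δ1 j]
  have n0 : (0 : ℝ) ≤ n := n.cast_nonneg
  have gt : Tendsto (fun j => 2 * δ j ^ 2 + ε j * n * (2 * B + 2)) atTop (𝓝 0) := by
    simpa using ((δt.pow 2).const_mul 2).add ((hε0.mul_const (n : ℝ)).mul_const (2 * B + 2))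
  have g1 : ∀ j, ∫ p, gb H (lam H L φ) (u j) p ∂M.mu H ≤
      2 * δ j ^ 2 + ε j * n * (2 * B + 2) := fun j =>
    (s7 j).trans (by nlinarith [mul_le_mul_of_nonneg_left (NB j) (mul_nonneg (hε j) n0)])
  obtain ⟨D, hD⟩ := gt.bddAbove_range
  obtain ⟨V, v1, v2, v3⟩ := aVL n M _ H _ (hyperfilter ℕ) u (max D (2 * B + 2)) hn hm o0 l0
    (fun j => ⟨s1 j, ((s4 j).trans (NB j)).trans (le_max_right _ _),
      ((g1 j).trans (hD ⟨j, rfl⟩)).trans (le_max_left _ _)⟩)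
    ((squeeze_zero (fun j => integral_nonneg ((aGB n M _ H _ hm o0 l0).1 _ (s1 j)).2.2.1)
      g1 gt).mono_left Nat.hyperfilter_le_atTop)
  have cr : ∀ s, (lam H L φ).Sec s → Tendsto (fun j => (lam H L (aw M φ (w j))).ip H s (u j) -
      ∫ p, (Real.exp (-w j p) : ℂ) * (lam H L φ).pp s V p ∂M.mu H) (hyperfilter ℕ) (𝓝 0) :=
    fun s hs => by
    obtain ⟨K, K0, -, hK⟩ := cross hm o0 hs
    have sd : ∀ j, (lam H L φ).Sec (u j - V) := fun j =>
      (Pre.mk (g := g) (u j) (s1 j) - Pre.mk (g := g) V v1).sec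
    have t := v3.const_mul (K * C)
    rw [mul_zero] at t
    have t2 := (squeeze_zero (fun j => sq_nonneg _)
      (fun j => hK _ C _ (sx j) (sd j) (hC j)) t).sqrt
    simp only [Real.sqrt_sq (norm_nonneg _), Real.sqrt_zero] at t2
    refine (tendsto_zero_iff_norm_tendsto_zero.2 t2).congr fun j => ?_
    have c : ∀ d, (lam H L φ).Sec d → Integrable
        (fun p => (Real.exp (-w j p) : ℂ) * (lam H L φ).pp s d p) (M.mu H) := fun d hd =>
      it ℂ _ ((continuous_ofReal.comp (sx j).continuous).mul (o0.pp_rep hs hd).2.continuous)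
    rw [ipw, ← integral_sub (c _ (s1 j)) (c _ v1)]
    refine integral_congr_ae (Eventually.of_forall fun p => ?_)
    simp only [Bun.pp, Mf.ev, Pi.sub_apply, Matrix.mulVec_sub, dotProduct_sub, mul_sub]
  have wp : Fl.WP H L φ (fun j p => Real.exp (-w j p)) V := fun s hs => by
    obtain ⟨A, A0, hA⟩ := bd s hs
    have t : Tendsto (fun j => A * δ j ^ 2) atTop (𝓝 0) := by
      simpa using (δt.pow 2).const_mul A
    have t2 := (squeeze_zero (fun j => sq_nonneg _) (fun j => (s6 j s hs).trans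
      (mul_le_mul_of_nonneg_right (hA j) (sq_nonneg _))) t).sqrt
    simp only [Real.sqrt_sq (norm_nonneg _), Real.sqrt_zero] at t2
    have t3 := ((tendsto_zero_iff_norm_tendsto_zero.2 t2).mono_left
      Nat.hyperfilter_le_atTop).sub (cr _ (aSQ n M H L _ s hm hs).1)
    simpa only [sub_sub_cancel, sub_zero] using t3
  refine ⟨V, v1, v2, wp, η / 8, by positivity, ?_⟩
  have t := (continuous_re.tendsto _).comp (cr x hx)
  filter_upwards [(tendsto_order.1 t).2 (η / 8) (by simpa using hη),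
    (tendsto_order.1 (δt.mono_left Nat.hyperfilter_le_atTop)).2 (η / 8) (by positivity)]
    with j h1 h2
  simp only [Function.comp, sub_re] at h1
  have := h _ (s2 j)
  rw [ipw j x V]
  nlinarith [s3 j, s8 j, δ0 j, δ1 j]

omit [M.Cpt] in
/-- The curvature at the level `m`. -/
theorem lev (hm : M.Met H) (m : ℕ) (ε : ℝ) {u : M.X → ℝ} (hu : M.Sm u) : M.All fun e z =>
    (M.hw (wk H m) + M.ric H + M.hs (fun x => ((m : ℝ) - 1) * u x) + (((m : ℝ) - 1) * ε) • H) e z =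
      ((0 : M.Fam (Mat n)) + ((m : ℝ) - 1) • om M H ε u) e z := fun c hc z hz => by
  have q1 := (K3E.bKAN n M H m hm).2 c hc z hz
  have q2 := ((mLAP n M _ _ hu hu).1 ((m : ℝ) - 1) c hc z hz).2.2.2.1
  simp only [om, Pi.add_apply, Pi.zero_apply, Pi.smul_apply, Pi.neg_apply, q1, q2]
  module

end Hlx84

open Hlx84 in
theorem st_HLX (hKIT : St_KIT) : St_HLX := by
  intro n M _ H a m x cx h2 hx hQ
  have hH := cx.kae
  have hm := hH.toMet
  have hφ := (K3E.bKAN n M H m hm).1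
  have k0 : (0 : ℝ) < (m : ℝ) - 1 := by
    have : (2 : ℝ) ≤ m := by exact_mod_cast h2
    linarith
  obtain ⟨e₀, C, he₀, hC⟩ := cx.out.itg (2 * ((m : ℝ) - 1)) (by positivity)
  let ε : ℕ → ℝ := fun j => min e₀ 1 * (1 / ((j : ℝ) + 1))
  have m0 : 0 < min e₀ 1 := lt_min he₀ one_pos
  have ε0 : ∀ j, 0 < ε j := fun j => by positivity
  have ε1 : ∀ j, ε j ≤ min e₀ 1 := fun j => mul_le_of_le_one_right m0.le (by
    rw [div_le_one (by positivity)]; linarith [j.cast_nonneg (α := ℝ)])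
  have εI : ∀ j, ε j ∈ Ioc (0 : ℝ) 1 := fun j => ⟨ε0 j, (ε1 j).trans (min_le_right _ _)⟩
  have εt : Tendsto ε atTop (𝓝 0) := by
    simpa only [mul_zero] using
      (tendsto_one_div_add_atTop_nhds_zero_nat (𝕜 := ℝ)).const_mul (min e₀ 1)
  have sa := fun j => cx.out.sm _ (εI j)
  have pos : ∀ (t : ℝ) u, M.Sm u → M.Le 0 (om M H t u) → M.Le 0 (M.hw (wk H m) + M.ric H +
      M.hs (fun x => ((m : ℝ) - 1) * u x) + (((m : ℝ) - 1) * t) • H) := fun t u hu h c hc z hz => by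
    have p := Mf.psd_rsmul (h c hc z hz) k0.le
    beta_reduce
    rw [lev hm m t hu c hc z hz]
    simpa only [Pi.add_apply, Pi.zero_apply, Pi.smul_apply, sub_zero, zero_add] using p
  have w0 : ∀ j p, ((m : ℝ) - 1) * a (ε j) p ≤ 0 := fun j p =>
    mul_nonpos_of_nonneg_of_nonpos k0.le (cx.out.le _ (εI j) p)
  have c2 : ∀ j, ∫ p, Real.exp (-(((m : ℝ) - 1) * a (ε j) p)) ^ 2 ∂M.mu H ≤ C := fun j => by
    have := hC _ (εI j) ((ε1 j).trans (min_le_left _ _))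
    simpa only [← Real.exp_nat_mul, Nat.cast_ofNat, mul_neg, mul_assoc] using this
  refine (dich0 (ε := fun j => ((m : ℝ) - 1) * ε j) (w := fun j p => ((m : ℝ) - 1) * a (ε j) p)
    cx.n0 hH hφ (fun j => (mul_pos k0 (ε0 j)).le) (by simpa using εt.const_mul ((m : ℝ) - 1))
    (fun j => (sa j).const_mul _) w0 (fun j => pos _ _ (sa j) fun c hc z hz => ?_) c2 hx
    hQ).imp_right ?_
  · have p := ((cx.out.kae _ (εI j)).pos c hc z hz).posSemidef
    simpa only [om, Pi.add_apply, Pi.zero_apply, Pi.smul_apply, Pi.neg_apply, Pi.sub_apply,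
      sub_zero, zero_sub] using p
  rintro ⟨W, w1, w2, w3, c, c0, hc⟩
  refine ⟨W, (hKIT n M H m W hm).1.2 ⟨w1, w2⟩, ?_, fun t => ?_⟩
  · obtain ⟨B, B0, hB⟩ := w3.sm (C := C) hH hφ w1 w2 fun j =>
      ⟨((sa j).const_mul _).neg.exp, fun p => le_trans (by norm_num)
        (Real.one_le_exp (neg_nonneg.2 (w0 j p))), c2 j⟩
    refine ⟨B, B0, fun t u ht hu h => ?_⟩
    have b := hB _ _ (mul_nonneg k0.le ht) (hu.const_mul _) (pos t u hu h)
    have z : ∀ p, cu (0 : M.Fam (Mat n)) (lk H m) W p = 0 := fun p => by simp [cu, Mf.ev]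
    have z2 := fun p => (Fl.cu_congr (lev hm m t hu) (lk H m) W p).trans
      ((Fl.cu_add _ _ _ _ _ _).trans (by rw [z, zero_add]))
    simp only [z2] at b
    rw [integral_const_mul] at b
    exact le_of_mul_le_mul_left (b.trans_eq (by ring)) k0
  · have t1 : Tendsto ε (hyperfilter ℕ) (𝓝[>] 0) :=
      (tendsto_nhdsWithin_iff.2 ⟨εt, Eventually.of_forall ε0⟩).mono_left Nat.hyperfilter_le_atTop
    have t2 := (continuous_re.tendsto _).comp (t.comp t1)
    obtain ⟨j, h1, h3⟩ := (hc.and ((tendsto_order.1 t2).2 c (by simpa using c0))).exists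
    obtain ⟨o0, -, a0⟩ := aLAM n M H _ _ hm hφ
    obtain ⟨o1, -, -⟩ := aLAM n M H _ _ hm ((a0 _).1 ((sa j).const_mul ((m : ℝ) - 1))).1
    let g : Geo M (Fs n) := ⟨H, _, hm, o1⟩
    have s := NEAR.re_symm (Pre.mk (g := g) x ⟨hx.sm, hx.cmp⟩) (Pre.mk (g := g) W ⟨w1.sm, w1.cmp⟩)
    exact absurd (h1.trans_eq s) (not_le.2 h3)

end Pool.Agent.Lib.NU4
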