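import Pool.Agent.Lib.NU4.Blue
import Pool.Agent.Lib.HLK.All
import Pool.Agent.Lib.K3E.B_KAN

/-! Project nu4: the two integral identities for holomorphic multivectors. -/

open scoped Classical Topology ContDiff ComplexOrder Matrix
open Set Filter MeasureTheory

noncomputable section

namespace Pool.Agent.Lib.NU4.I57

open Pool.Agent.Lib.SV (E)
open Pool.Agent.Lib.HS32 Pool.Agent.Lib.HLK Pool.Agent.Lib.F4 Pool.Agent.Lib.HLK.BOC
open Pool.Agent.Lib.K3E (kan wk lk)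
open Pool.Agent.Lib.KP.T60 (phC phC_sm)

variable {n : ℕ} {M : Mf n} {H : M.Fam (Mat n)} {L : M.Co} {φ : M.Fam ℝ}
  {W U : M.Fam (Fs n → ℂ)} {F : M.X → ℝ}

theorem key [M.Cpt] (hK : M.Kae H) (hφ : M.WtC L φ) (hU : (lam H L φ).Sec U)
    (hF : (lam H L φ).Sec (sm M F W)) (θ : M.Fam (Mat n)) (c : ℝ)
    (h : M.All fun e z => ∀ l, dzbv l (U e) z = ∑ k, ((c : ℂ) * θ e z l k) • an k *ᵥ W e z) :
    c * ∫ x, F x * cu θ (lam H L φ) W x ∂M.mu H =
      -((lam H L φ).ip H U ((oP H φ).ap (sm M F W))).re := by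
  obtain ⟨ok, -, -⟩ := aLAM n M H L φ hK.toMet hφ
  have hQ := (aSQ n M H L φ U hK.toMet hU).1
  have hi := (mMU n M H hK.toMet).2.2.2.2.1 _ _ (ok.pp_rep hQ hF).2.continuous
  rw [← Complex.neg_re, ← aADJ n M H L φ _ _ hK hφ hU hF, Bun.ip, ← integral_const_mul]
  refine Eq.trans (integral_congr_ae (Eventually.of_forall fun x => ?_)) (integral_re hi)
  have he := Mf.ch_mem x
  have hz := Mf.ch_tgt x
  have b : ((lam H L φ).pp ((oQ H).ap U) (sm M F W) x).re =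
      ((lam H L φ).pp (sm M F W) ((oQ H).ap U) x).re := by
    rw [← Pre.pp_star (g := ⟨H, lam H L φ, hK.toMet, ok⟩)]
    exact Complex.conj_re _
  have c1 : ∀ l (v : Fs n → ℂ), star (W (M.ch x) (M.ch x x)) ⬝ᵥ
      (lam H L φ).G (M.ch x) (M.ch x x) *ᵥ (∑ k, (H (M.ch x) (M.ch x x))⁻¹ k l • cr k) *ᵥ v =
      star (an l *ᵥ W (M.ch x) (M.ch x x)) ⬝ᵥ (lam H L φ).G (M.ch x) (M.ch x x) *ᵥ v :=
    fun l v => by
    rw [Matrix.mulVec_mulVec, g_cr aFK2 hK.toMet he hz, ← Matrix.mulVec_mulVec,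
      Matrix.dotProduct_mulVec, Matrix.star_mulVec, an, Matrix.conjTranspose_conjTranspose]
  have q : (oQ H).ap U (M.ch x) (M.ch x x) = ∑ l, (∑ k, (H (M.ch x) (M.ch x x))⁻¹ k l • cr k) *ᵥ
      dzbv l (U (M.ch x)) (M.ch x x) := by
    simp only [apQ, Matrix.sum_mulVec, Matrix.smul_mulVec]
  have s : (lam H L φ).pp (sm M F W) ((oQ H).ap U) x = ((c * F x : ℝ) : ℂ) *
      ∑ k, ∑ l, θ (M.ch x) (M.ch x x) l k * (star (an l *ᵥ W (M.ch x) (M.ch x x)) ⬝ᵥ
        (lam H L φ).G (M.ch x) (M.ch x x) *ᵥ an k *ᵥ W (M.ch x) (M.ch x x)) := by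
    rw [Bun.pp, Mf.ev, Mf.ev, Mf.ev, q, sm, (M.ch x).left_inv (Mf.mem_ch x), star_smul,
      smul_dotProduct, Matrix.mulVec_sum, dotProduct_sum]
    simp only [c1, h _ he _ hz, Matrix.mulVec_sum, dotProduct_sum, Matrix.mulVec_smul,
      dotProduct_smul, smul_eq_mul, Finset.mul_sum]
    rw [Finset.sum_comm]
    refine Finset.sum_congr rfl fun k _ => Finset.sum_congr rfl fun l _ => ?_
    rw [Complex.star_def, Complex.conj_ofReal]
    push_cast
    ring
  show c * (F x * cu θ (lam H L φ) W x) = ((lam H L φ).pp ((oQ H).ap U) (sm M F W) x).re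
  rw [b, s, Complex.re_ofReal_mul, cu, Mf.ev, mul_assoc]

theorem hz0 {σ : Type} [Fintype σ] {V : E n → σ → ℂ} {z : E n} (h : ∀ i, HolN (fun w => V w i) z)
    (l : Fin n) : dzbv l V =ᶠ[𝓝 z] fun _ => 0 := by
  filter_upwards [eventually_all.2 h] with w hw
  exact funext fun i => GB.dzb_hol (hw i)

theorem d_iot {v : M.X → ℝ} (hv : M.Sm v) (hW : (lam H L φ).Sec W) (hh : Hol W) :
    M.All fun e z => ∀ l, dzbv l (iot M v W e) z =
      ∑ k, (((1 : ℝ) : ℂ) * M.hs v e z l k) • an k *ᵥ W e z := fun e he z hz l => by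
  have a : iot M v W e = fun w => ∑ k, dz k (M.lc v e) w • an k *ᵥ W e w := by
    funext w
    simp only [iot, anv, gd, Matrix.sum_mulVec, Matrix.smul_mulVec]
  have s := hW.sm e he z hz
  have p := fun k => cd_dz (hv.lc e he z hz) k
  rw [a, dzbv_sum fun k => sm_sm (p k) _ s]
  refine Finset.sum_congr rfl fun k _ => ?_
  rw [dzbv_sm (p k) _ s, (hz0 (hh e he z hz) l).eq_of_nhds, Matrix.mulVec_zero, smul_zero,
    add_zero, Complex.ofReal_one, one_mul]
  rfl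

theorem d_p (hH : M.Met H) (hφ : M.WtC L φ) (hW : (lam H L φ).Sec W) (hh : Hol W) :
    M.All fun e z => ∀ l, dzbv l ((oP H φ).ap W e) z =
      ∑ k, (-(M.hw φ + M.ric H) e z l k) • an k *ᵥ W e z := fun e he z hz l => by
  have s := hW.sm e he z hz
  have hp := fun m => cd_dz (cd_ofReal (phC_sm hH hφ he hz)) m
  have z0 := hz0 (hh e he z hz) l
  have z1 : ∀ m, dzv m (dzbv l (W e)) z = 0 := fun m => funext fun i => by
    have : (fun w => dzbv l (W e) w i) =ᶠ[𝓝 z] fun _ => 0 := z0.mono fun w hw => congrFun hw i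
    exact (dz_congr this).trans (dz_const 0)
  rw [apP, dzbv_sub (ContDiffAt.sum fun m _ => sm_cv _ (sm_dzv s m))
    (ContDiffAt.sum fun m _ => sm_sm (hp m) _ s),
    dzbv_sum fun m => sm_cv _ (sm_dzv s m), dzbv_sum fun m => sm_sm (hp m) _ s]
  simp only [dzbv_cv _ (sm_dzv s _), comm s, dzbv_sm (hp _) _ s, hess_phC hH hφ he hz, z1,
    z0.eq_of_nhds, Matrix.mulVec_zero, smul_zero, add_zero, Finset.sum_const_zero, zero_sub,
    neg_smul, Finset.sum_neg_distrib]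

theorem last [M.Cpt] {m : ℕ} {v : M.X → ℝ} (hK : M.Kae H) (hv : M.Sm v) (hW : (lk H m).Sec W)
    (h1 : (lk H m).Sec (iot M v W)) (h2 : (lk H m).Sec (sm M F W)) (hh : Hol W) :
    ∫ x, F x * cu (M.hs v) (lk H m) W x ∂M.mu H =
      -((lk H m).ip H (iot M v W) (P0 M H m (sm M F W))).re ∧
    ((m : ℝ) - 1) * ∫ x, F x * cu (-M.ric H) (lk H m) W x ∂M.mu H =
      ((lk H m).ip H (P0 M H m W) (P0 M H m (sm M F W))).re := by
  obtain ⟨k1, k2⟩ := K3E.bKAN n M H m hK.toMet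
  refine ⟨(one_mul _).symm.trans (key hK k1 h1 h2 _ 1 (d_iot hv hW hh)), ?_⟩
  have := key hK k1 (aSP n M H _ _ W hK.toMet k1 hW) h2 (-M.ric H) (-((m : ℝ) - 1))
    fun e he z hz l => by
      rw [d_p hK.toMet k1 hW hh e he z hz l]
      refine Finset.sum_congr rfl fun k _ => ?_
      congr 1
      simp only [Pi.add_apply, Pi.neg_apply, k2 e he z hz, Matrix.add_apply, Matrix.neg_apply,
        Matrix.smul_apply, Complex.real_smul]
      push_cast
      ring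
  rw [neg_mul] at this
  exact neg_injective this

end Pool.Agent.Lib.NU4.I57
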