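import Pool.Agent.Lib.NU4.Ibp20
import Pool.Agent.Lib.NU4.Ibp57

/-! Project nu4: integration by parts. -/

namespace Pool.Agent.Lib.NU4

theorem st_IBP (hKIT : St_KIT) (hFK : St_FK) (hPW : St_PW) : St_IBP := by
  intro n M _ H m W F v hK hF hv hW
  obtain ⟨a, b, c, d, e⟩ := ibp20 hKIT hFK hPW n M H m W F v hK hF hv hW
  exact ⟨a, b, c, d, e, I57.last hK hv hW a b⟩

end Pool.Agent.Lib.NU4
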