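import Pool.Agent.Lib.NU4.Inf69
import Pool.Agent.Lib.F4P.Inf

/-! Project nu4, row INF. -/

namespace Pool.Agent.Lib.NU4

theorem st_INF (hK : St_KIT) : St_INF := fun n M _ H a hc ns =>
  have np : ¬F4G.Plu M := fun ⟨m, m0, t, t1, t2⟩ => t2 (ns m m0 t t1)
  I69.core hK hc (F4P.inf_k hc.n0 hc.kae hc.nef np) (F4P.inf_L hc.n0 hc.kae hc.nef np)

end Pool.Agent.Lib.NU4
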