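import Pool.Agent.Lib.IDX.All

/-! Project nu4: the index is zero at every level; almost harmonic sections of the other parity. -/

open scoped Classical Topology ContDiff ComplexOrder Matrix ENNReal
open Set MeasureTheory Complex Metric Filter UniformSpace

set_option linter.unusedVariables false

noncomputable section

namespace Pool.Agent.Lib.NU4

open Pool.Agent.Lib.SV (E)
open Pool.Agent.Lib.HS32 Pool.Agent.Lib.KP Pool.Agent.Lib.HLK Pool.Agent.Lib.IDX

namespace I31

section abs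

variable {V : Type} [SeminormedAddCommGroup V] [InnerProductSpace ℂ V] {D e : V →ₗ[ℂ] V}

/-- If the weak kernel of parity `s` is zero, the vectors of parity `s` are limits of images. -/
theorem rng (h : Lev D e) {s : ℝ} (hs : s * s = 1) (hk : wk D e s = ⊥) {f : V}
    (hf : ∀ w, inner ℂ f (e w) = s * inner ℂ f w) {d : ℝ} (hd : 0 < d) : ∃ w, ‖f - D w‖ < d := by
  have k := PRE.dk h
  have hs' : (s : ℂ) * s = 1 := by exact_mod_cast hs
  let R : Submodule ℂ (Completion V) :=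
    LinearMap.range ((Completion.toComplₗᵢ (𝕜 := ℂ) (E := V)).toLinearMap ∘ₗ D)
  have m : (f : Completion V) ∈ R.topologicalClosure := by
    rw [← Submodule.orthogonal_orthogonal_eq_closure, Submodule.mem_orthogonal]
    intro u hu
    have u0 : ∀ w : V, inner ℂ u ((D w : V) : Completion V) = 0 := fun w =>
      Submodule.inner_left_of_mem_orthogonal (K := R) ⟨w, rfl⟩ hu
    have m1 : u + (s : ℂ) • IDX29.ex e u ∈ wk D e s := fun w => by
      constructor
      · rw [inner_add_left, inner_smul_left, u0, k.iv.sy, k.exc, (k.od w).coe, Completion.coe_neg,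
          inner_neg_right, u0]
        simp
      · rw [inner_add_left, inner_add_left, inner_smul_left, inner_smul_left, k.iv.sy, k.iv.sy,
          k.exc, k.exc, h.ee, Complex.conj_ofReal]
        linear_combination (-inner ℂ u ((e w : V) : Completion V)) * hs'
    rw [hk, Submodule.mem_bot] at m1
    have e1 : ((e f : V) : Completion V) = (s : ℂ) • (f : Completion V) := by
      rw [← Completion.coe_smul]
      refine IDX29.Eqv.coe fun y => ?_
      rw [← inner_conj_symm, h.es, hf, inner_smul_right, map_mul, Complex.conj_ofReal,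
        inner_conj_symm]
    have e2 := congrArg (fun x => inner ℂ x (f : Completion V)) m1
    simp only [inner_add_left, inner_smul_left, inner_zero_left, k.iv.sy, k.exc, e1,
      inner_smul_right, Complex.conj_ofReal] at e2
    linear_combination (1 / 2) * e2 - (1 / 2) * inner ℂ u (f : Completion V) * hs'
  obtain ⟨_, ⟨w, rfl⟩, hw⟩ := Metric.mem_closure_iff.1 m d hd
  refine ⟨w, ?_⟩
  rwa [dist_eq_norm, show ((Completion.toComplₗᵢ (𝕜 := ℂ) (E := V)).toLinearMap ∘ₗ D) w =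
    ((D w : V) : Completion V) from rfl, ← Completion.coe_sub, Completion.norm_coe] at hw

/-- A weak kernel that is not zero gives almost harmonic vectors of the same parity. -/
theorem aps (h : Lev D e) {s : ℝ} (hs : s * s = 1) (hk : wk D e s ≠ ⊥) {η : ℝ} (hη : 0 < η) :
    ∃ w, ‖w‖ = 1 ∧ ‖D w‖ ≤ η ∧ e w = (s : ℂ) • w := by
  have k := PRE.dk h
  have hs' : (s : ℂ) * s = 1 := by exact_mod_cast hs
  have n1 : ‖(s : ℂ)‖ = 1 := by
    have := congrArg norm hs'
    rw [norm_mul, norm_one] at this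
    nlinarith [norm_nonneg (s : ℂ)]
  obtain ⟨u, hu, u0⟩ := (Submodule.ne_bot_iff _).1 hk
  have p := norm_pos_iff.2 u0
  have eu : IDX29.ex e u = (s : ℂ) • u := ext_inner_right ℂ fun y => by
    refine Completion.induction_on y (isClosed_eq (by fun_prop) (by fun_prop)) fun w => ?_
    rw [k.iv.sy, k.exc, (hu w).2, inner_smul_left, Complex.conj_ofReal]
  obtain ⟨t, t1, t2⟩ := h.ws u 0 (fun t => by rw [(hu t).1, inner_zero_left])
    (min (‖u‖ / 2) (η * ‖u‖ / 2)) (lt_min (by positivity) (by positivity))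
  rw [zero_add, Completion.norm_coe] at t2
  have a1 : ‖(2 : ℂ) • u - ((t + (s : ℂ) • e t : V) : Completion V)‖ ≤ 2 * ‖u - t‖ := by
    have : (2 : ℂ) • u - ((t + (s : ℂ) • e t : V) : Completion V) =
        (u - t) + (s : ℂ) • IDX29.ex e (u - t) := by
      rw [map_sub, eu, k.exc, Completion.coe_add, Completion.coe_smul, smul_sub, smul_smul, hs',
        one_smul, two_smul]
      abel
    rw [this]
    refine (norm_add_le _ _).trans ?_
    rw [norm_smul, n1, k.iv.nrm]
    linarith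
  have a2 : ‖u‖ ≤ ‖t + (s : ℂ) • e t‖ := by
    have := norm_sub_norm_le ((2 : ℂ) • u) ((t + (s : ℂ) • e t : V) : Completion V)
    rw [norm_smul, Completion.norm_coe, Complex.norm_ofNat] at this
    linarith [(lt_min_iff.1 t1).1]
  have a3 : ‖D (t + (s : ℂ) • e t)‖ ≤ η * ‖u‖ := by
    have : ‖D (e t)‖ ≤ ‖D t‖ := by
      have := norm_sub_le (D (e t) + e (D t)) (e (D t))
      rwa [add_sub_cancel_right, h.od, zero_add, k.nrm] at this
    rw [map_add, map_smul]
    refine (norm_add_le _ _).trans ?_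
    rw [norm_smul, n1]
    linarith [(lt_min_iff.1 t2).2]
  have p2 := p.trans_le a2
  refine ⟨((‖t + (s : ℂ) • e t‖⁻¹ : ℝ) : ℂ) • (t + (s : ℂ) • e t), ?_, ?_, ?_⟩
  · rw [norm_smul, norm_real, norm_inv, norm_norm, inv_mul_cancel₀ p2.ne']
  · rw [map_smul, norm_smul, norm_real, norm_inv, norm_norm, inv_mul_le_iff₀ p2]
    nlinarith
  · rw [map_smul, smul_comm (s : ℂ), map_add, map_smul, h.ee, smul_add (s : ℂ), smul_smul (s : ℂ),
      hs', one_smul, add_comm (e t)]

end abs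

theorem ptw {n : ℕ} {M : Mf n} {σ : Type} [Fintype σ] [DecidableEq σ] (g : Geo M σ)
    (r V : M.Fam (σ → ℂ)) (x : M.X) (c : ℝ) :
    2 * c * (g.b.pp r V x).re ≤ g.b.pn r x + c ^ 2 * g.b.pn V x := by
  have h := Pre.pn_nonneg (g := g) (r - (c : ℂ) • V) x
  have e : g.b.pp (r - (c : ℂ) • V) (r - (c : ℂ) • V) x = g.b.pp r r x - c * g.b.pp r V x -
      c * g.b.pp V r x + c * (c * g.b.pp V V x) := by
    simp only [Bun.pp, Mf.ev, Pi.sub_apply, Pi.smul_apply, star_sub, star_smul, sub_dotProduct,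
      smul_dotProduct, Matrix.mulVec_sub, Matrix.mulVec_smul, dotProduct_sub, dotProduct_smul,
      smul_eq_mul, RCLike.star_def, Complex.conj_ofReal]
    ring
  have e2 : (g.b.pp V r x).re = (g.b.pp r V x).re := by
    rw [← Pre.pp_star (g := g) V r x]
    rfl
  rw [Bun.pn, e] at h
  simp only [add_re, sub_re, re_ofReal_mul, e2] at h
  unfold Bun.pn
  nlinarith

end I31

open I31

variable {n : ℕ} {M : Mf n} [M.Cpt] {H : M.Fam (Mat n)}

/-- Finitely many levels with almost harmonic sections: the index is zero at every level. -/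
theorem idx31 {L : ℕ → M.Co} {φ : ℕ → M.Fam ℝ} {A : M.Co} {ψ : M.Fam ℝ} (hK : M.Kae H)
    (hN : ∀ b, Nx (L b) (φ b) A ψ (L (b + 1)) (φ (b + 1))) (hf : {b | Ah H (L b) (φ b)}.Finite)
    (a : ℕ) (hH : M.Met H) (ob : (lam H (L a) (φ a)).Ok)
    (oD' : (oD H (φ a)).Skew (lam H (L a) (φ a)) H)
    (ε : Pre (geo (L a) (φ a) hH ob) →ₗ[ℂ] Pre (geo (L a) (φ a) hH ob))
    (hε : ∀ w, (ε w).val = par w.val) :
    (∀ r, FiniteDimensional ℂ (wk (Pre.op (g := geo (L a) (φ a) hH ob) _ oD'.sec) ε r)) ∧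
    Module.finrank ℂ (wk (Pre.op (g := geo (L a) (φ a) hH ob) _ oD'.sec) ε 1) =
      Module.finrank ℂ (wk (Pre.op (g := geo (L a) (φ a) hH ob) _ oD'.sec) ε (-1)) := by
  have hb : ∀ b, (lam H (L b) (φ b)).Ok := fun b => (aLAM n M H _ _ hH (hN b).wl).1
  have hD : ∀ b, (oD H (φ b)).Skew (lam H (L b) (φ b)) H :=
    fun b => (aSKW n M H _ _ hK (hN b).wl).1
  have hMUL := bMUL aLAM
  obtain ⟨N, s, hs, h1⟩ := bSIG n M A ψ (hN 0).wa
  choose e he hl using fun b => bLEV aSKW aWS aREL aDNS bPAR n M H (L b) (φ b) hH (hb b) (hD b) hK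
    (hN b).wl
  choose m t C hm ht ha hc using fun b j => bSTP hMUL (bCOM aLAM aSKW aZER hMUL) n M H (L b) A
    (L (b + 1)) (φ b) ψ (φ (b + 1)) (s j) hH (hb b) (hb (b + 1)) (hD b) (hD (b + 1)) hK (hN b)
    (hs j)
  have kz : Kz (V := fun b => Pre (geo (L (a + b)) (φ (a + b)) hH (hb (a + b))))
      (fun b => Pre.op (g := geo (L (a + b)) (φ (a + b)) hH (hb (a + b))) (oD H (φ (a + b)))
        (hD (a + b)).sec) (fun b => e (a + b)) (fun b => m (a + b)) fun b => t (a + b) := by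
    refine ⟨fun b => hl _, fun b => ha _, fun b j => ⟨_, fun x => (hc _ j x).1⟩,
      fun b j => ⟨_, fun x => (hc _ j x).2⟩,
      fun b j x => Pre.ext ?_, fun b i j x => Pre.ext ?_, fun b i j x => Pre.ext ?_,
      fun b x => (st_INJ n M _ _ _).2 fun c hc z hz => ?_⟩
    · refine (he _ _).trans ?_
      rw [hm, hm, he]
      funext c z B
      simp only [par, ml, Pi.smul_apply, smul_eq_mul]
      ring
    · refine (hm _ _ _).trans (Eq.trans ?_ (hm _ _ _).symm)
      rw [hm, hm]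
      funext c z
      exact smul_comm _ _ _
    · refine Eq.trans ?_ (ht _ _ _).symm
      rw [hm, ht, hm]
      funext c z
      exact smul_comm _ _ _
    · rw [Pre.val_sub, TOP.val_sum]
      simp only [ht, hm, Pi.sub_apply, Finset.sum_apply, ml, smul_smul]
      rw [← Finset.sum_smul, h1 c hc z hz, one_smul, sub_self]
  obtain ⟨f1, f2⟩ := bPRE _ _ _ N _ _ kz
  obtain rfl : ε = e a := LinearMap.ext fun w => Pre.ext ((hε w).trans (he a w).symm)
  refine ⟨f1 0, by_contra fun h => ?_⟩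
  refine (f2 h) ((hf.preimage (f := fun b => a + b) (add_right_injective a).injOn).subset
    fun b hb' η hη => ?_)
  obtain ⟨w, w1, w2⟩ := hb' (Real.sqrt η) (Real.sqrt_pos.2 hη)
  refine ⟨w.val, w.sec, ?_, ?_⟩
  · have := Pre.norm_sq w
    rw [w1, one_pow] at this
    exact this.symm
  · refine (TOP.nr_op (g := geo (L (a + b)) (φ (a + b)) hH (hb _)) (hD _).sec w).trans_le ?_
    exact (pow_le_pow_left₀ (norm_nonneg _) w2 2).trans_eq (Real.sq_sqrt hη.le)

/-- A holomorphic section that is weakly parallel gives a weak kernel that is not zero. -/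
theorem ev31 {L : M.Co} {φ : M.Fam ℝ} (hK : M.Kae H) (hφ : M.WtC L φ) (hH : M.Met H)
    (ob : (lam H L φ).Ok) (hD : (oD H φ).Skew (lam H L φ) H)
    (ε : Pre (geo L φ hH ob) →ₗ[ℂ] Pre (geo L φ hH ob)) (hε : ∀ w, (ε w).val = par w.val)
    (hl : Lev (Pre.op (g := geo L φ hH ob) _ hD.sec) ε) {V : M.Fam (Fs n → ℂ)} {s : ℝ}
    (hs : s * s = 1) (hV : (lam H L φ).Sec V) (hh : Hol V) (hz : Nz V)
    (hp : M.All fun e z => par V e z = (s : ℂ) • V e z) {ι : Type} {l : Filter ι} [l.NeBot]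
    {F : ι → M.X → ℝ} {C : ℝ}
    (hF : ∀ j, Continuous (F j) ∧ (∀ x, 1 / 2 ≤ F j x) ∧ ∫ x, F j x ^ 2 ∂M.mu H ≤ C)
    (hw : ∀ y, (lam H L φ).Sec y → Tendsto
      (fun j => ∫ x, (F j x : ℂ) * (lam H L φ).pp ((oQ H).ap y) V x ∂M.mu H) l (𝓝 0)) :
    wk (Pre.op (g := geo L φ hH ob) _ hD.sec) ε s ≠ ⊥ := fun hk => by
  let g := geo L φ hH ob
  let v : Pre g := Pre.mk V hV
  have it := (mMU n M H hH).2.2.2.2.1
  have q0 : ∀ W, g.b.Sec W → g.b.Sec ((oQ H).ap W) := fun W h => (aSQ n M H L _ W hH h).1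
  have p0 : ∀ W, g.b.Sec W → g.b.Sec ((oP H φ).ap W) := fun W h => aSP n M H L _ W hH hφ h
  obtain ⟨-, -, s0⟩ := aSKW n M H L φ hK hφ
  have v0 : 0 < ‖v‖ := (norm_nonneg v).lt_of_ne' fun h => by
    obtain ⟨e, he, z, hz, c⟩ := hz
    exact c ((st_INJ n M _ g v).1 h e he z hz)
  obtain ⟨B, B0, hB⟩ := (g.ok.pp_rep hV hV).2.re.exists_bound
  set t := ‖v‖ ^ 2 / (2 * (1 + B * |C|)) with ht
  have t0 : 0 < t := by positivity
  obtain ⟨w, hw'⟩ := rng hl hs hk (f := v) (fun w => by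
    have k : ‖ε v - (s : ℂ) • v‖ = 0 := (st_INJ n M _ g _).2 fun e he z hz => by
      beta_reduce
      rw [Pre.val_sub, Pre.val_smul, hε]
      exact sub_eq_zero.2 (hp e he z hz)
    have := norm_inner_le_norm (𝕜 := ℂ) (ε v - (s : ℂ) • v) w
    rwa [k, zero_mul, norm_le_zero_iff, inner_sub_left, sub_eq_zero, hl.es, inner_smul_left,
      Complex.conj_ofReal] at this) t0
  have eD : Pre.op (g := g) _ hD.sec w = Pre.op _ q0 w + Pre.op _ p0 w :=
    Pre.ext (funext fun e => funext fun z => by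
      show (if e ∈ M.C ∧ z ∈ e.target then (oD H φ).ap w.val e z else 0) =
        (if e ∈ M.C ∧ z ∈ e.target then (oQ H).ap w.val e z else 0) +
        if e ∈ M.C ∧ z ∈ e.target then (oP H φ).ap w.val e z else 0
      by_cases c : e ∈ M.C ∧ z ∈ e.target
      · simp only [if_pos c]
        exact (s0 _ w.sec).1 e z
      · simp only [if_neg c, add_zero])
  have o1 : inner ℂ v (Pre.op _ p0 w) = 0 := by
    have a := aADJ n M H L φ V w.val hK hφ hV w.sec
    have z : (lam H L φ).pp ((oQ H).ap V) w.val = (lam H L φ).pp 0 w.val :=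
      Pre.pp_congr (g := g) (fun e he z hz => by
        have d : ∀ k, dzbv k (V e) z = 0 := fun k => funext fun i => by
          have d := (hh e he z hz i).self_of_nhds
          exact ((mHOL n _ _).1 (d.restrictScalars ℝ)).1 d k
        simp [Op.ap, oQ, d]) fun _ _ _ _ => rfl
    rw [Bun.ip, z] at a
    simp only [Bun.pp, Mf.ev, Pi.zero_apply, star_zero, zero_dotProduct, integral_zero] at a
    exact (ONE.ip_op q0 p0 v w).2.1.trans (neg_eq_zero.1 a.symm)
  have o2 : inner ℂ (Pre.op _ q0 w) (Pre.op _ p0 w) = 0 :=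
    (ONE.ip_op q0 p0 w w).2.2.trans ((s0 _ w.sec).2.1 _ w.sec)
  have r1 : ‖v - Pre.op _ q0 w‖ ^ 2 ≤ t ^ 2 := by
    rw [eD, ← sub_sub] at hw'
    have := pow_le_pow_left₀ (norm_nonneg _) hw'.le 2
    rw [@norm_sub_sq ℂ, inner_sub_left, o1, o2] at this
    simp only [sub_self, map_zero, mul_zero, sub_zero] at this
    linarith [sq_nonneg ‖Pre.op _ p0 w‖]
  set r := v - Pre.op _ q0 w with hr
  have cq := (g.ok.pp_rep (q0 _ w.sec) hV).2.continuous
  have key : ∀ j, ‖v‖ ^ 2 / 4 ≤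
      (∫ x, (F j x : ℂ) * g.b.pp ((oQ H).ap w.val) V x ∂M.mu H).re := fun j => by
    obtain ⟨f1, f2, f3⟩ := hF j
    have i1 := it ℂ _ ((continuous_ofReal.comp f1).mul cq)
    have i2 := it ℝ _ (f1.pow 2)
    have pt : ∀ x, t * g.b.pn v.val x - g.b.pn r.val x - t ^ 2 * B * F j x ^ 2 ≤
        2 * t * ((F j x : ℂ) * g.b.pp ((oQ H).ap w.val) V x).re := fun x => by
      have a := ptw g r.val V x (t * F j x)
      have b : (g.b.pp r.val V x).re = g.b.pn V x - (g.b.pp ((oQ H).ap w.val) V x).re := by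
        rw [← Pre.pp_congr (g := g) (Pre.op_val q0 w) fun _ _ _ _ => rfl, Bun.pn, ← sub_re]
        simp only [hr, Bun.pp, Mf.ev, Pre.val_sub, Pi.sub_apply, star_sub, sub_dotProduct]
        rfl
      have c : g.b.pn V x ≤ B := (le_abs_self _).trans (hB x)
      have d := Pre.pn_nonneg (g := g) V x
      rw [b] at a
      rw [re_ofReal_mul]
      change t * g.b.pn V x - _ - _ ≤ _
      nlinarith [mul_le_mul_of_nonneg_left c (sq_nonneg (t * F j x)),
        mul_nonneg (mul_nonneg t0.le d) (sub_nonneg.2 (f2 x))]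
    have i3 : Integrable (fun x => t * g.b.pn v.val x - g.b.pn r.val x) (M.mu g.H) :=
      ((ONE.itg v).const_mul t).sub (ONE.itg r)
    have i4 : Integrable (fun x => t ^ 2 * B * F j x ^ 2) (M.mu g.H) := i2.const_mul _
    have m : ∫ x, (t * g.b.pn v.val x - g.b.pn r.val x - t ^ 2 * B * F j x ^ 2) ∂M.mu g.H ≤ _ :=
      integral_mono (i3.sub i4) (i1.re.const_mul (2 * t)) pt
    rw [integral_sub i3 i4, integral_sub ((ONE.itg v).const_mul t) (ONE.itg r), integral_const_mul, integral_const_mul,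
      integral_const_mul, ← Bun.nr, ← Bun.nr, ← Pre.norm_sq, ← Pre.norm_sq] at m
    have e := integral_re i1
    have e2 : t * (2 * (1 + B * |C|)) = ‖v‖ ^ 2 := div_mul_cancel₀ _ (by positivity)
    have m2 := mul_le_mul_of_nonneg_left (f3.trans (le_abs_self C)) (mul_nonneg (sq_nonneg t) B0.le)
    refine le_of_mul_le_mul_left ?_ (show 0 < 2 * t by positivity)
    refine le_trans ?_ (m.trans_eq (congrArg _ e))
    change _ ≤ _ - _ - t ^ 2 * B * ∫ x, F j x ^ 2 ∂M.mu H
    have m3 := congrArg (t * ·) e2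
    beta_reduce at m3
    linarith
  have := ge_of_tendsto' ((continuous_re.tendsto _).comp (hw _ w.sec)) key
  rw [zero_re] at this
  nlinarith

/-- Almost harmonic sections of the other parity. -/
theorem ahp31 {L : ℕ → M.Co} {φ : ℕ → M.Fam ℝ} {A : M.Co} {ψ : M.Fam ℝ} (hK : M.Kae H)
    (hN : ∀ b, Nx (L b) (φ b) A ψ (L (b + 1)) (φ (b + 1))) (hf : {b | Ah H (L b) (φ b)}.Finite)
    (a : ℕ) {V : M.Fam (Fs n → ℂ)} {q : ℕ} (hV : (lam H (L a) (φ a)).Sec V) (hh : Hol V)
    (hz : Nz V) (hq : Deg q V) {ι : Type} {l : Filter ι} [l.NeBot] {F : ι → M.X → ℝ} {C : ℝ}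
    (hF : ∀ j, Continuous (F j) ∧ (∀ x, 1 / 2 ≤ F j x) ∧ ∫ x, F j x ^ 2 ∂M.mu H ≤ C)
    (hw : ∀ y, (lam H (L a) (φ a)).Sec y → Tendsto (fun j =>
      ∫ x, (F j x : ℂ) * (lam H (L a) (φ a)).pp ((oQ H).ap y) V x ∂M.mu H) l (𝓝 0))
    {η : ℝ} (hη : 0 < η) : ∃ W, (lam H (L a) (φ a)).Sec W ∧ (lam H (L a) (φ a)).nr H W = 1 ∧
      (lam H (L a) (φ a)).nr H ((oD H (φ a)).ap W) ≤ η ∧
      ∀ e z B, (Even B.card ↔ Even q) → W e z B = 0 := by
  have hH := hK.toMet
  have ob := (aLAM n M H _ _ hH (hN a).wl).1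
  have hD := (aSKW n M H _ _ hK (hN a).wl).1
  obtain ⟨ε, hε, hl⟩ := bLEV aSKW aWS aREL aDNS bPAR n M H _ _ hH ob hD hK (hN a).wl
  obtain ⟨f1, f2⟩ := idx31 hK hN hf a hH ob hD ε hε
  have hs : (-1 : ℝ) ^ q * (-1) ^ q = 1 := by rw [← mul_pow]; simp
  have k := ev31 hK (hN a).wl hH ob hD ε hε hl hs hV hh hz (fun e he z hz => funext fun B => by
    by_cases c : B.card = q
    · simp [par, c]
    · simp [par, hq e z B c]) hF hw
  have k2 : wk (Pre.op (g := geo (L a) (φ a) hH ob) _ hD.sec) ε (-(-1) ^ q) ≠ ⊥ := fun c => k (by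
    have := f1 ((-1) ^ q)
    have := f1 (-(-1) ^ q)
    rw [← Submodule.finrank_eq_zero] at c ⊢
    rcases neg_one_pow_eq_or ℝ q with h | h <;> rw [h] at c ⊢
    · rwa [f2]
    · rwa [neg_neg, f2] at c)
  obtain ⟨w, w1, w2, w3⟩ := aps hl (by rw [neg_mul_neg, hs]) k2 (Real.sqrt_pos.2 hη)
  refine ⟨w.val, w.sec, ?_, ?_, fun e z B c => ?_⟩
  · have := Pre.norm_sq w
    rw [w1, one_pow] at this
    exact this.symm
  · refine (TOP.nr_op (g := geo (L a) (φ a) hH ob) hD.sec w).trans_le ?_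
    exact (pow_le_pow_left₀ (norm_nonneg _) w2 2).trans_eq (Real.sq_sqrt hη.le)
  · have u := congrFun (congrFun (congrFun ((hε w).symm.trans (congrArg Pre.val w3)) e) z) B
    have u2 : (-1 : ℂ) ^ B.card = (-1) ^ q := by
      by_cases h : Even q
      · rw [h.neg_one_pow, (c.2 h).neg_one_pow]
      · rw [(Nat.not_even_iff_odd.1 h).neg_one_pow,
          (Nat.not_even_iff_odd.1 (mt c.1 h)).neg_one_pow]
    simp only [par, Pre.val_smul, Pi.smul_apply, smul_eq_mul, u2] at u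
    push_cast at u
    have u3 : (-1 : ℂ) ^ q ≠ 0 := pow_ne_zero _ (by norm_num)
    exact (mul_eq_zero.1 (show (2 * (-1 : ℂ) ^ q) * w.val e z B = 0 by
      linear_combination u)).resolve_left (mul_ne_zero two_ne_zero u3)

end Pool.Agent.Lib.NU4
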