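import Pool.Agent.Lib.NU4.Blue
import Pool.Agent.Lib.NU4.Idx31
import Pool.Agent.Lib.K3E.B_KAN

/-! Project nu4: the index is zero at every level. -/

open scoped Classical Topology ContDiff ComplexOrder Matrix
open Set MeasureTheory Complex Filter UniformSpace

set_option linter.unusedVariables false

noncomputable section

namespace Pool.Agent.Lib.NU4

open Pool.Agent.Lib.SV (E)
open Pool.Agent.Lib.HS32 Pool.Agent.Lib.KP Pool.Agent.Lib.HLK
open Pool.Agent.Lib.K3E (kan lk)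
open Pool.Agent.Lib.IDX (Lev geo)

namespace IX0

/-- Almost harmonic vectors of parity `s` give a weak kernel that is not zero. -/
theorem apk {V : Type} [SeminormedAddCommGroup V] [InnerProductSpace ℂ V] {D e : V →ₗ[ℂ] V}
    (h : Lev D e) {s : ℝ}
    (hA : ∀ η : ℝ, 0 < η → ∃ w, ‖w‖ = 1 ∧ ‖D w‖ ≤ η ∧ ‖e w - (s : ℂ) • w‖ = 0) :
    IDX.wk D e s ≠ ⊥ := by
  choose w w1 w2 w3 using fun j : ℕ => hA (1 / ((j : ℝ) + 1)) (by positivity)
  obtain ⟨u, -, f, hf, hu⟩ := (h.rel.closure.isCompact_of_isClosed isClosed_closure).tendsto_subseq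
    (x := fun j => (w j : Completion V)) fun j => subset_closure ⟨w j, ⟨(w1 j).le, (w2 j).trans (by
      rw [div_le_one (by positivity)]
      linarith [j.cast_nonneg (α := ℝ)])⟩, rfl⟩
  have lim : ∀ y : V, Tendsto (fun j => inner ℂ (w (f j)) y) atTop
      (𝓝 (inner ℂ u (y : Completion V))) := fun y => by
    simpa only [Function.comp, Completion.inner_coe] using
      hu.inner (𝕜 := ℂ) (tendsto_const_nhds (x := (y : Completion V)))
  refine (Submodule.ne_bot_iff _).2 ⟨u, fun y => ⟨?_, ?_⟩, fun c => ?_⟩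
  · refine tendsto_nhds_unique (lim _) (squeeze_zero_norm (a := fun j => 1 / ((f j : ℝ) + 1) * ‖y‖)
      (fun j => ?_) ?_)
    · rw [← norm_neg, ← h.sk]
      exact (norm_inner_le_norm _ _).trans (mul_le_mul_of_nonneg_right (w2 _) (norm_nonneg _))
    · simpa using ((tendsto_one_div_add_atTop_nhds_zero_nat (𝕜 := ℝ)).comp
        hf.tendsto_atTop).mul_const ‖y‖
  · refine tendsto_nhds_unique (lim _) (((lim y).const_mul (s : ℂ)).congr fun j => ?_)
    have := norm_inner_le_norm (𝕜 := ℂ) (e (w (f j)) - (s : ℂ) • w (f j)) y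
    rw [w3, zero_mul, norm_le_zero_iff, inner_sub_left, sub_eq_zero, h.es, inner_smul_left,
      Complex.conj_ofReal] at this
    exact this.symm
  · have := hu.norm
    simp only [Function.comp, Completion.norm_coe, w1, c, norm_zero] at this
    exact one_ne_zero (tendsto_nhds_unique tendsto_const_nhds this)

/-- The dictionary. -/
theorem iff {n : ℕ} {M : Mf n} [M.Cpt] {H : M.Fam (Mat n)} {m : ℕ} (hH : M.Met H)
    (ob : (lk H m).Ok) (hD : (oD H (K3E.wk H m)).Skew (lk H m) H)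
    {ε : Pre (geo (kan M m) (K3E.wk H m) hH ob) →ₗ[ℂ] Pre (geo (kan M m) (K3E.wk H m) hH ob)}
    (hε : ∀ w, (ε w).val = IDX.par w.val)
    (hl : Lev (Pre.op (g := geo (kan M m) (K3E.wk H m) hH ob) _ hD.sec) ε) {s : ℝ}
    (hs : s * s = 1) : Ahp M H m s ↔
      IDX.wk (Pre.op (g := geo (kan M m) (K3E.wk H m) hH ob) _ hD.sec) ε s ≠ ⊥ := by
  let g := geo (kan M m) (K3E.wk H m) hH ob
  refine ⟨fun h => apk hl fun η hη => ?_, fun h η hη => ?_⟩
  · obtain ⟨W, w1, w2, w3, w4⟩ := h (η ^ 2) (by positivity)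
    refine ⟨Pre.mk W w1, ?_, ?_, (IDX.st_INJ n M _ g _).2 fun e he z hz => ?_⟩
    · have : ‖Pre.mk (g := g) W w1‖ ^ 2 = 1 := (Pre.norm_sq _).trans w3
      nlinarith [norm_nonneg (Pre.mk (g := g) W w1)]
    · exact ONE.sq2 ((ONE.nr_op (g := g) hD.sec (Pre.mk W w1)).trans_le w4) hη.le
    · beta_reduce
      rw [Pre.val_sub, Pre.val_smul, hε]
      exact sub_eq_zero.2 (w2 e he z hz)
  · obtain ⟨w, w1, w2, w3⟩ := I31.aps hl hs h (Real.sqrt_pos.2 hη)
    refine ⟨w.val, w.sec, fun e he z hz => ?_, ?_, ?_⟩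
    · exact congrFun (congrFun ((hε w).symm.trans (congrArg Pre.val w3)) e) z
    · have := Pre.norm_sq w
      rw [w1, one_pow] at this
      exact this.symm
    · refine (ONE.nr_op (g := g) hD.sec w).symm.trans_le ?_
      exact (pow_le_pow_left₀ (norm_nonneg _) w2 2).trans_eq (Real.sq_sqrt hη.le)

end IX0

theorem st_IX0 : St_IX0 := by
  intro n M _ H m s hK hf hs hA
  have hH := hK.toMet
  have w := fun a => (K3E.bKAN n M H a hH).1
  have ob := (aLAM n M H _ _ hH (w m)).1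
  have hD := (aSKW n M H _ _ hK (w m)).1
  obtain ⟨ε, hε, hl⟩ := IDX.bLEV aSKW aWS aREL aDNS IDX.bPAR n M H _ _ hH ob hD hK (w m)
  obtain ⟨f1, f2⟩ := idx31 (L := kan M) (φ := K3E.wk H) (A := kan M 1) (ψ := K3E.wk H 1) hK
    (fun b => ⟨w _, w _, w _, fun e _ e' _ x _ _ => by simp [kan, K3E.triv, Mf.Co.tw, pow_succ],
      fun e _ z _ => by simp only [K3E.wk]; push_cast; ring⟩) hf m hH ob hD ε hε
  have k1 := IX0.iff hH ob hD hε hl (s := 1) (by norm_num)
  have k2 := IX0.iff hH ob hD hε hl (s := -1) (by norm_num)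
  have := f1 1
  have := f1 (-1)
  rw [Ne, ← Submodule.finrank_eq_zero] at k1 k2
  rw [← f2, ← k1, ofReal_neg] at k2
  rw [← ofReal_one] at hs
  rcases hs with rfl | rfl
  · exact k2.2 hA
  · rw [neg_neg]
    exact k2.1 hA

end Pool.Agent.Lib.NU4
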