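import Pool.Agent.Lib.NU4.Blue
import Pool.Agent.Lib.NU4.Wdg98
import Pool.Agent.Lib.F4.A_XP
import Pool.Agent.Lib.K3E.B_ID

/-! Project nu4, row KIT: operations on sections. -/

open scoped Classical Topology ContDiff ComplexOrder Matrix
open Set Filter

noncomputable section

namespace Pool.Agent.Lib.NU4

open Pool.Agent.Lib.SV (E)
open Pool.Agent.Lib.HS32 Pool.Agent.Lib.HLK Pool.Agent.Lib.F4
open Pool.Agent.Lib.K3E (kan wk lk)

namespace K92

variable {n : ℕ} {M : Mf n} {H : M.Fam (Mat n)} {m : ℕ} {W : M.Fam (Fs n → ℂ)}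

theorem tr_eq (e e' : M.Ch) (x : M.X) (Y : Fs n → ℂ) : (lk H m).T e e' x *ᵥ Y =
    (jd M e e' x ^ m)⁻¹ • La (M.J e e' x) *ᵥ Y := by
  show ((jd M e e' x ^ m * 1)⁻¹ • La (M.J e e' x)) *ᵥ Y = _
  rw [mul_one, Matrix.smul_mulVec]

theorem hm_iff (H : M.Fam (Mat n)) : HM M m W ↔ (lk H m).Sec W ∧ Hol W :=
  ⟨fun h => ⟨⟨fun e he z hz => contDiffAt_pi.2 fun A =>
      ((mHOL n _ _).2.2 (h.hol e he z hz A)).1,
    fun e he e' he' x hx hx' => (h.cmp e he e' he' x hx hx').trans (tr_eq e e' x _).symm⟩, h.hol⟩,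
  fun h => ⟨h.2, fun e he e' he' x hx hx' =>
    (h.1.cmp e he e' he' x hx hx').trans (tr_eq e e' x _)⟩⟩

theorem vec_eq (V : M.Fam (E n)) : vec M V = W98.vec V :=
  funext fun e => funext fun z => (W98.u1_cv (V e z)).symm

theorem la_prt (g : Mat n) (q : ℕ) (Y : Fs n → ℂ) :
    La g *ᵥ (fun A => if A.card = q then Y A else 0) =
      fun A => if A.card = q then (La g *ᵥ Y) A else 0 := by
  funext A
  have k : ∀ B : Fs n, (La g A B * if B.card = q then Y B else 0) =
      if A.card = q then La g A B * Y B else 0 := fun B => by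
    by_cases c : B.card = A.card
    · rw [c]; split_ifs <;> simp
    · simp [La, c]
  simp only [Matrix.mulVec, dotProduct, k]
  split_ifs <;> simp

theorem prt_sec (q : ℕ) (h : (lk H m).Sec W) : (lk H m).Sec (prt M q W) := by
  refine ⟨fun e he z hz => contDiffAt_pi.2 fun A => ?_, fun e he e' he' x hx hx' => ?_⟩
  · by_cases c : A.card = q
    · simpa only [prt, if_pos c] using contDiffAt_pi.1 (h.sm e he z hz) A
    · simpa only [prt, if_neg c] using contDiffAt_const
  · have a := h.cmp e he e' he' x hx hx'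
    beta_reduce at a ⊢
    rw [tr_eq] at a ⊢
    show _ = _ • La _ *ᵥ fun A => if A.card = q then W e' (e' x) A else 0
    rw [la_prt]
    funext A
    simp only [prt, a, Pi.smul_apply, smul_ite, smul_zero]

theorem prt_hol (q : ℕ) (h : Hol W) : Hol (prt M q W) := fun e he z hz A => by
  by_cases c : A.card = q
  · simpa only [prt, if_pos c] using h e he z hz A
  · simp only [prt, if_neg c]
    exact Eventually.of_forall fun w => differentiableAt_const _

theorem la_top (g : Mat n) (Y : Fs n → ℂ) :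
    (La g *ᵥ Y) Finset.univ = g.det * Y Finset.univ := by
  rw [Matrix.mulVec, dotProduct, Finset.sum_eq_single Finset.univ]
  · congr 1
    rw [La, Matrix.of_apply, dif_pos rfl]
    have b : Function.Bijective ((Finset.univ : Fs n).orderEmbOfFin rfl) :=
      ⟨(Finset.univ.orderEmbOfFin rfl).injective, fun k => by
        have := Finset.range_orderEmbOfFin (Finset.univ : Fs n) rfl
        exact this.symm ▸ Finset.mem_coe.2 (Finset.mem_univ k) |> mem_range.1⟩
    exact Matrix.det_submatrix_equiv_self (Equiv.ofBijective _ b) g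
  · intro B _ hB
    rw [La, Matrix.of_apply, dif_neg fun c => hB (Finset.eq_univ_of_card B
      (c.trans Finset.card_univ)), zero_mul]
  · exact fun c => (c (Finset.mem_univ _)).elim

theorem v1_eq (Y : Fs n → ℂ) : v1 Y = fun k => Y {k} := funext fun k => by
  simp [v1, Matrix.mulVec, dotProduct, FK1.an_apply, FK1.sg]

theorem hsec {a : ℕ} {s : M.Fam ℂ} (h1 : M.All fun e z => HolN (s e) z)
    (h2 : M.Ov fun e e' x => s e' (e' x) = s e (e x) * jd M e e' x ^ a) : M.HSec a s :=
  ⟨⟨fun e he z hz => ((mHOL n _ _).2.2 (h1 e he z hz)).1, h2⟩,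
    fun e he z hz => (h1 e he z hz).self_of_nhds⟩

theorem ex_eq {g : Mat n} (hg : g.PosDef) (m : ℕ) (t : ℝ) :
    Real.exp (-(m * Real.log g.det.re)) * t = t / g.det.re ^ m := by
  rw [Real.exp_neg, ← Real.log_pow, Real.exp_log (pow_pos (Complex.pos_iff.1 hg.det_pos).1 m),
    mul_comm, div_eq_mul_inv]

theorem dot_prt (g : Mat n) (q : ℕ) (Y : Fs n → ℂ) {U : Fs n → ℂ} (h : Dg q U) :
    star Y ⬝ᵥ La g *ᵥ U = star (fun A => if A.card = q then Y A else 0) ⬝ᵥ La g *ᵥ U := by
  have a : U = fun A => if A.card = q then U A else 0 := funext fun A => by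
    split_ifs with c
    · rfl
    · exact h A c
  rw [a, la_prt]
  refine Finset.sum_congr rfl fun A _ => ?_
  simp only [Pi.star_apply]
  split_ifs <;> simp

end K92

open K92 in
theorem st_KIT : St_KIT := by
  intro n M H m W hH
  refine ⟨hm_iff H, fun V hV => ?_, fun a V hV => ⟨fun h => ?_, W98.sec_wv hV⟩,
    fun q => ⟨fun e _ z _ A c => if_neg c, fun h => ?_, prt_sec q⟩, fun h => ?_, fun x => ?_,
    fun h => ?_, fun L φ q U hU => funext fun x => ?_⟩
  · rw [vec_eq]
    exact ⟨(hm_iff H).2 ⟨W98.sec_vec hV, W98.hol_vec hV.hol⟩, fun e _ z _ => W98.deg_vec V e z,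
      W98.nz_vec.symm⟩
  · exact (hm_iff H).2 ⟨W98.sec_wv hV ((hm_iff H).1 h).1, W98.hol_wv hV.hol h.hol⟩
  · exact (hm_iff H).2 ⟨prt_sec q ((hm_iff H).1 h).1, prt_hol q h.hol⟩
  · have s := ((hm_iff H).1 h).1
    obtain ⟨x0, x1, -⟩ := st_XT st_XP n M H m W s h.hol
    refine ⟨fun U c hU => ?_, by simpa only [v1_eq] using x1,
      hsec x0.hol fun e he e' he' x hx hx' => ?_,
      fun m0 => hsec (fun e he z hz => h.hol e he z hz _) fun e he e' he' x hx hx' => ?_,
      fun hM nz e he z hz => ?_⟩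
    · have t := ((hm_iff H).1 hU).1
      refine ⟨(hm_iff H).2 ⟨(lk H m).secs.add_mem s t, fun e he z hz i => ?_⟩,
        (hm_iff H).2 ⟨(lk H m).secs.sub_mem s t, fun e he z hz i => ?_⟩,
        (hm_iff H).2 ⟨(lk H m).secs.smul_mem c s, fun e he z hz i => ?_⟩⟩
      · exact ((h.hol e he z hz i).and (hU.hol e he z hz i)).mono fun w k => k.1.add k.2
      · exact ((h.hol e he z hz i).and (hU.hol e he z hz i)).mono fun w k => k.1.sub k.2
      · exact (h.hol e he z hz i).mono fun w k => k.const_mul c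
    · have := x0.cmp e he e' he' x hx hx'
      beta_reduce at this ⊢
      rw [this, zpow_natCast, mul_comm]
    · have d : jd M e e' x ≠ 0 := ((mTR n M).2.1 e he e' he' x hx hx').2.1
      have := congrFun (XT.key s e he e' he' x hx hx') Finset.univ
      rw [la_top, zpow_natCast, Pi.smul_apply, smul_eq_mul] at this
      obtain ⟨k, rfl⟩ := Nat.exists_eq_add_one_of_ne_zero m0.ne'
      beta_reduce
      refine mul_left_cancel₀ d (this.trans ?_)
      rw [Nat.add_sub_cancel]
      ring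
    · obtain ⟨i, hi⟩ := K3E.bID n M _ (fun e e' x => La (M.J e e' x)) m W ⟨h.hol, nz, h.cmp⟩
        e he z hz
      exact hi.mono fun w hw c => hw (congrFun c i)
  · refine ⟨(W98.pn_eq _ _ W x).trans (ex_eq (hH.pos.ch x) m _), fun T =>
      (W98.cu_eq _ _ W x).trans ((ex_eq (hH.pos.ch x) m _).trans ?_)⟩
    rw [W98.qn, ← CU.qm_eq]
    rfl
  · obtain ⟨r, s⟩ := (aLAM n M H _ _ hH (K3E.bKAN n M H m hH).1).1.pp_rep h h
    refine ⟨fun e he z hz => ?_, s.re⟩
    beta_reduce
    rw [Bun.pn, r e he z hz, ← ex_eq (hH.pos e he z hz)]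
    simp only [lam, wk, ng, Matrix.smul_mulVec, dotProduct_smul, smul_eq_mul,
      Complex.re_ofReal_mul]
  · simp only [Bun.pp, lam, Mf.ev, Matrix.smul_mulVec, dotProduct_smul]
    rw [dot_prt _ q _ (Mf.AllOn.ch hU x)]
    rfl

end Pool.Agent.Lib.NU4
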