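import Pool.Agent.Lib.NU4.Nm43
import Pool.Agent.Lib.KT.B_POL
import Pool.Agent.Lib.KT.B_NEG
import Pool.Agent.Lib.HLK.Defs
import Pool.Agent.Lib.ZK47.Blue

/-! Project nu4: the logarithm of the norm of a holomorphic section of a Hermitian bundle is almost
plurisubharmonic, and the zero set is null. -/

open scoped Classical Topology ContDiff ComplexOrder Matrix
open Set Filter MeasureTheory Metric Complex

noncomputable section

namespace Pool.Agent.Lib.NU4.Nm43

open Pool.Agent.Lib.SV (E)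
open Pool.Agent.Lib.HS32 Pool.Agent.Lib.HLK Pool.Agent.Lib.RAA
open Pool.Agent.Lib.KH (Pol)

variable {n : ℕ} {σ : Type} [Fintype σ] [DecidableEq σ]

theorem hom_bound {A B C : Type} [TopologicalSpace A] [NormedAddCommGroup B] [NormedSpace ℝ B]
    [ProperSpace B] [NormedAddCommGroup C] [NormedSpace ℝ C] [ProperSpace C] {K : Set A}
    (hK : IsCompact K) {F P : A → B → C → ℝ}
    (cF : ∀ p : A × B × C, p.1 ∈ K → ContinuousAt (fun q : A × B × C => F q.1 q.2.1 q.2.2) p)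
    (cP : ∀ p : A × B × C, p.1 ∈ K → ContinuousAt (fun q : A × B × C => P q.1 q.2.1 q.2.2) p)
    (hF : ∀ z v s (a b : ℝ), F z (a • v) (b • s) = a ^ 2 * b ^ 2 * F z v s)
    (hP : ∀ z v s (a b : ℝ), P z (a • v) (b • s) = a ^ 2 * b ^ 2 * P z v s)
    (pos : ∀ z ∈ K, ∀ v s, v ≠ 0 → s ≠ 0 → 0 < P z v s) :
    ∃ c : ℝ, 0 ≤ c ∧ ∀ z ∈ K, ∀ v s, -(c * P z v s) ≤ F z v s := by
  have nz : ∀ {D : Type} [NormedAddCommGroup D] {v : D}, v ∈ sphere (0 : D) 1 → v ≠ 0 :=
    fun h e => by simp [e] at h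
  obtain ⟨c, hc⟩ := (hK.prod ((isCompact_sphere (0 : B) 1).prod
    (isCompact_sphere (0 : C) 1))).exists_bound_of_continuousOn
    (f := fun q : A × B × C => F q.1 q.2.1 q.2.2 / P q.1 q.2.1 q.2.2) fun p hp =>
      ((cF p hp.1).div (cP p hp.1) (pos _ hp.1 _ _ (nz hp.2.1) (nz hp.2.2)).ne').continuousWithinAt
  refine ⟨max c 0, le_max_right _ _, fun z hz v s => ?_⟩
  have un : ∀ {D : Type} [NormedAddCommGroup D] [NormedSpace ℝ D] {v : D}, v ≠ 0 →
      ‖v‖⁻¹ • v ∈ sphere (0 : D) 1 ∧ v = ‖v‖ • ‖v‖⁻¹ • v := fun h =>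
    ⟨by simp [norm_smul, h], by simp [smul_smul, h]⟩
  by_cases h : v = 0 ∨ s = 0
  · have e : F z v s = 0 ∧ P z v s = 0 := by
      rcases h with h | h
      · have a := hF z v s 0 1
        have b := hP z v s 0 1
        simp only [zero_smul, one_smul, ← h] at a b
        exact ⟨by simpa using a, by simpa using b⟩
      · have a := hF z v s 1 0
        have b := hP z v s 1 0
        simp only [zero_smul, one_smul, ← h] at a b
        exact ⟨by simpa using a, by simpa using b⟩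
    simp [e.1, e.2]
  · push Not at h
    obtain ⟨v1, v2⟩ := un h.1
    obtain ⟨s1, s2⟩ := un h.2
    have p := pos z hz _ _ (nz v1) (nz s1)
    have k := (abs_le.1 ((hc (z, _, _) ⟨hz, v1, s1⟩).trans (le_max_left c 0))).1
    rw [le_div_iff₀ p] at k
    rw [v2, s2, hF, hP]
    have := mul_le_mul_of_nonneg_left k (show 0 ≤ ‖v‖ ^ 2 * ‖s‖ ^ 2 by positivity)
    simp only at this
    linarith

theorem hq_rs {ι : Type} [Fintype ι] (A : Matrix ι ι ℂ) (b : ℝ) (s : ι → ℂ) :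
    hq A (b • s) = b ^ 2 * hq A s := by
  simp only [hq, star_smul, star_trivial, Matrix.mulVec_smul, smul_dotProduct, dotProduct_smul,
    real_smul, re_ofReal_mul]
  ring

theorem cv_rs (G : E n → Matrix σ σ ℂ) (a : ℝ) (v z : E n) :
    cv G (a • v) z = (a ^ 2) • cv G v z := by
  have e1 : (Matrix.of fun i j => hV (a • v) (fun w => G w i j) z) =
      (a ^ 2) • Matrix.of fun i j => hV v (fun w => G w i j) z := by
    ext i j
    simp only [hV, star_smul, star_trivial, Matrix.mulVec_smul, smul_dotProduct, dotProduct_smul,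
      Matrix.of_apply, Matrix.smul_apply, smul_smul, sq]
  have e2 : (Matrix.of fun i j => dVb (a • v) (fun w => G w i j) z) =
      a • Matrix.of fun i j => dVb v (fun w => G w i j) z := by
    ext i j
    simp only [dVb, Pi.smul_apply, star_smul, star_trivial, Matrix.of_apply, Matrix.smul_apply,
      Finset.smul_sum, smul_mul_assoc]
  have e3 : (Matrix.of fun i j => dV (a • v) (fun w => G w i j) z) =
      a • Matrix.of fun i j => dV v (fun w => G w i j) z := by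
    ext i j
    simp only [dV, Pi.smul_apply, Matrix.of_apply, Matrix.smul_apply, Finset.smul_sum,
      smul_mul_assoc]
  rw [cv, cv, e1, e2, e3, Matrix.smul_mul, Matrix.smul_mul, Matrix.mul_smul, smul_smul, smul_sub,
    sq]

theorem hq_cont {X ι : Type} [TopologicalSpace X] [Fintype ι] {A : X → Matrix ι ι ℂ}
    {s : X → ι → ℂ} {x : X} (hA : ∀ i j, ContinuousAt (fun y => A y i j) x)
    (hs : ContinuousAt s x) : ContinuousAt (fun y => hq (A y) (s y)) x := by
  have c := continuousAt_pi.1 hs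
  simp only [hq, dotProduct, Matrix.mulVec, Pi.star_apply]
  exact continuous_re.continuousAt.comp (tendsto_finsetSum _ fun i _ => (c i).star.mul
    (tendsto_finsetSum _ fun j _ => (hA i j).mul (c j)))

theorem cv_cont {X : Type} [TopologicalSpace X] {G : E n → Matrix σ σ ℂ} {z v : X → E n} {x : X}
    (hG : SmI G (z x)) (h0 : (G (z x)).det ≠ 0) (hz : ContinuousAt z x) (hv : ContinuousAt v x)
    (i j : σ) : ContinuousAt (fun y => cv G (v y) (z y) i j) x := by
  have c := continuousAt_pi.1 hv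
  have g : ContinuousAt (fun y => G (z y)) x := continuousAt_pi.2 fun i => continuousAt_pi.2
    fun j => ContinuousAt.comp (f := z) (hG i j).continuousAt hz
  have gi : ContinuousAt (fun y => (G (z y))⁻¹) x :=
    ContinuousAt.comp (f := fun y => G (z y)) (continuousAt_matrix_inv _ (by
      rw [Ring.inverse_eq_inv']; exact continuousAt_inv₀ h0)) g
  have gj := fun a b => continuousAt_pi.1 (continuousAt_pi.1 gi a) b
  simp only [cv, Matrix.sub_apply, Matrix.mul_apply, Matrix.of_apply, hV, dV, dVb, dotProduct,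
    Matrix.mulVec, Pi.star_apply, hess_apply]
  refine (tendsto_finsetSum _ fun k _ => (c k).star.mul (tendsto_finsetSum _ fun l _ =>
    (ContinuousAt.comp (f := z) (cd_dzb (cd_dz (hG i j) l) k).continuousAt hz).mul (c l))).sub
    (tendsto_finsetSum _ fun a _ => (tendsto_finsetSum _ fun b _ => (tendsto_finsetSum _
      fun k _ => (c k).star.mul (ContinuousAt.comp (f := z) (cd_dzb (hG i b) k).continuousAt
        hz)).mul (gj b a)).mul (tendsto_finsetSum _ fun k _ => (c k).mul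
          (ContinuousAt.comp (f := z) (cd_dz (hG a j) k).continuousAt hz)))

/-- The curvature is bounded on compact sets. -/
theorem cv_bound {G : E n → Matrix σ σ ℂ} {H : E n → Mat n} {K : Set (E n)} (hK : IsCompact K)
    (hG : ∀ z ∈ K, SmI G z ∧ (G z).PosDef) (hH : ∀ z ∈ K, SmM H z ∧ (H z).PosDef) :
    ∃ c : ℝ, 0 ≤ c ∧ ∀ z ∈ K, ∀ v s, -(c * (nq (H z) v * hq (G z) s)) ≤ hq (cv G v z) s := by
  refine hom_bound hK (F := fun z v s => hq (cv G v z) s)
    (P := fun z v s => nq (H z) v * hq (G z) s) (fun p hp => ?_) (fun p hp => ?_)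
    (fun z v s a b => ?_) (fun z v s a b => ?_) fun z hz v s hv hs =>
      mul_pos ((hH z hz).2.re_dotProduct_pos hv) ((hG z hz).2.re_dotProduct_pos hs)
  · exact hq_cont (cv_cont (hG _ hp).1 (hG _ hp).2.det_pos.ne' continuousAt_fst
      (continuousAt_fst.comp continuousAt_snd)) (continuousAt_snd.comp continuousAt_snd)
  · exact (hq_cont (A := fun q : E n × E n × (σ → ℂ) => H q.1) (fun i j =>
      ContinuousAt.comp (f := Prod.fst) ((hH _ hp).1 i j).continuousAt continuousAt_fst)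
      (continuousAt_fst.comp continuousAt_snd)).mul (hq_cont (fun i j =>
      ContinuousAt.comp (f := Prod.fst) ((hG _ hp).1 i j).continuousAt continuousAt_fst)
      (continuousAt_snd.comp continuousAt_snd))
  · rw [cv_rs, hq_rs, A4.hq_smul]; ring
  · have : nq (H z) (a • v) = a ^ 2 * nq (H z) v := hq_rs _ _ _
    rw [this, hq_rs]; ring

variable {M : Mf n}

theorem pn_rep {b : Bun M σ} (hb : b.Ok) {W : M.Fam (σ → ℂ)} (hW : b.Sec W) :
    M.Rep (b.pn W) (fun e z => hq (b.G e z) (W e z)) ∧ M.Sm (b.pn W) ∧ (∀ x, 0 ≤ b.pn W x) ∧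
      M.All fun e z => b.pn W (e.symm z) = 0 ↔ W e z = 0 := by
  have r : M.Rep (b.pn W) (fun e z => hq (b.G e z) (W e z)) := fun e he z hz =>
    congrArg re ((hb.pp_rep hW hW).1 e he z hz)
  refine ⟨r, (hb.pp_rep hW hW).2.re, fun x => A4.hq_nonneg (hb.pos.ch x).posSemidef _,
    fun e he z hz => ?_⟩
  beta_reduce
  rw [r e he z hz]
  refine ⟨fun h => by_contra fun h0 => ((hb.pos e he z hz).re_dotProduct_pos h0).ne' h, fun h => ?_⟩
  simp only [hq, h, Matrix.mulVec_zero, dotProduct_zero, zero_re]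

/-- The logarithm of the norm of a holomorphic section is almost plurisubharmonic. -/
theorem pol [M.Cpt] {H : M.Fam (Mat n)} (hH : M.Met H) {b : Bun M σ} (hb : b.Ok) : ∃ C : ℝ, 0 ≤ C ∧
    ∀ W, b.Sec W → Hol W → ∀ d : ℝ, 0 < d →
      M.Le 0 (C • H + M.hs fun x => Real.log (b.pn W x + d)) := by
  obtain ⟨V, hV1⟩ := (mCOV n M).2.2.1
  have sb : ∀ a, ∀ z ∈ closedBall (V.c a) (V.ρ a), z ∈ (V.e a).target := fun a z hz =>
    V.sub a (closedBall_subset_closedBall (by linarith [V.pos a]) hz)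
  choose c c0 hc using fun a => cv_bound (G := b.G (V.e a)) (H := H (V.e a))
    (isCompact_closedBall (V.c a) (V.ρ a))
    (fun z hz => ⟨hb.gsm _ (V.mem a) z (sb a z hz), hb.pos _ (V.mem a) z (sb a z hz)⟩)
    fun z hz => ⟨hH.sm _ (V.mem a) z (sb a z hz), hH.pos _ (V.mem a) z (sb a z hz)⟩
  have C0 : 0 ≤ ∑ a, c a := Finset.sum_nonneg fun a _ => c0 a
  refine ⟨∑ a, c a, C0, fun W hW hol d hd e' he' z' hz' => ?_⟩
  obtain ⟨r, sm, nn, zr⟩ := pn_rep hb hW
  have tn : M.Ten ((∑ a, c a) • H + M.hs fun x => Real.log (b.pn W x + d)) :=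
    (hH.toTen.smul _).add ((mHES n M).1 _ (sm_log sm nn hd)).toTen
  obtain ⟨a, xa, za, -⟩ := V.cov (e'.symm z')
  have t := tn.cmp _ (V.mem a) e' he' _ xa (e'.map_target hz')
  beta_reduce at t
  rw [e'.right_inv hz'] at t
  show (_ - 0 : Mat n).PosSemidef
  rw [sub_zero, t]
  refine Matrix.PosSemidef.conjTranspose_mul_mul_same ?_ _
  set e := V.e a
  set z := e (e'.symm z')
  have he : e ∈ M.C := V.mem a
  have hz : z ∈ e.target := e.map_source xa
  have g := fun i => (mHOL n (fun w => W e w i) z).2.2 (hol e he z hz i)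
  have T := fun v => st_TEN0 n σ (b.G e) (W e) z v (hb.gsm e he z hz) (hb.pos.ev he hz)
    fun i => (g i).1
  have cd := (T 0).1
  have q0 : ∀ᶠ w in 𝓝 z, 0 ≤ hq (b.G e w) (W e w) :=
    (hb.pos.ev he hz).mono fun w hw => A4.hq_nonneg hw.posSemidef _
  have p0 : 0 < hq (b.G e z) (W e z) + d := add_pos_of_nonneg_of_pos q0.self_of_nhds hd
  have e1 : M.hs (fun y => Real.log (b.pn W y + d)) e z =
      hess (fun w => ((Real.log (hq (b.G e w) (W e w) + d) : ℝ) : ℂ)) z :=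
    hess_congr ((r.ev he hz).mono fun w hw => congrArg (fun t : ℝ => ((Real.log (t + d) : ℝ) : ℂ)) hw)
  have hp := hH.pos e he z hz
  show ((∑ a, c a) • H e z + M.hs _ e z).PosSemidef
  rw [e1]
  refine A4.psd_of ((Mf.herm_rsmul hp.1 _).add
    (hess_herm ((cd.add contDiffAt_const).log p0.ne'))) fun v => ?_
  have n0 : 0 ≤ nq (H e z) v := hp.posSemidef.re_dotProduct_nonneg v
  rw [A4.nq_add, A4.nq_smul]
  refine KT.POL.q_log cd ?_ (mul_nonneg C0 n0) hd
  by_cases h0 : W e z = 0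
  · exact KT.POL.q_zero cd (by simp only [hq, h0, Matrix.mulVec_zero, dotProduct_zero, zero_re]) q0
  · have p1 : 0 < hq (b.G e z) (W e z) := (hb.pos e he z hz).re_dotProduct_pos h0
    refine KT.POL.q_pos cd p1 ?_
    have k := (T v).2 (fun i => ?_) h0
    · have k1 := hc a z (ball_subset_closedBall za) v (W e z)
      have k2 : -(c a * nq (H e z) v) ≤ hq (cv (b.G e) v z) (W e z) / hq (b.G e z) (W e z) := by
        rw [le_div_iff₀ p1]; linarith
      have k3 := mul_le_mul_of_nonneg_right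
        (Finset.single_le_sum (fun a _ => c0 a) (Finset.mem_univ a)) n0
      have k4 : KH.MAX.lw (fun w => Real.log (hq (b.G e w) (W e w))) z v =
        nq (hl (fun w => hq (b.G e w) (W e w)) z) v := rfl
      linarith
    · have a := ((mHOL n (fun w => W e w i) z).1 (cd_diff (g i).1)).1 (hol e he z hz i).self_of_nhds
      exact ⟨by simp only [dVb, a, mul_zero, Finset.sum_const_zero],
        by rw [hV, (g i).2.2.1, Matrix.zero_mulVec, dotProduct_zero]⟩

theorem pol' [M.Cpt] {H : M.Fam (Mat n)} (hH : M.Met H) {b : Bun M σ} (hb : b.Ok)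
    {W : M.Fam (σ → ℂ)} (hW : b.Sec W) (hol : Hol W) : Pol M H (b.pn W) := by
  obtain ⟨C, -, h⟩ := pol hH hb
  exact ⟨(pn_rep hb hW).2.1, (pn_rep hb hW).2.2.1, C, fun d hd => h W hW hol d hd.1⟩

theorem lap_ge [M.Cpt] {H : M.Fam (Mat n)} (hH : M.Met H) {b : Bun M σ} (hb : b.Ok)
    {W : M.Fam (σ → ℂ)} (hW : b.Sec W) (hol : Hol W) :
    ∃ C : ℝ, ∀ d : ℝ, 0 < d → ∀ x, -C ≤ M.lap H (fun y => Real.log (b.pn W y + d)) x := by
  obtain ⟨C, -, h⟩ := pol hH hb
  refine ⟨C * n, fun d hd x => ?_⟩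
  have := hH.tr_nonneg (h W hW hol d hd) x
  rw [Mf.tr_add, Mf.tr_smul, hH.tr_self] at this
  exact neg_le_iff_add_nonneg'.2 this

/-- The zero set of a holomorphic section is null. -/
theorem null [M.Cpt] {H : M.Fam (Mat n)} (hH : M.Met H) {b : Bun M σ} (hb : b.Ok)
    {W : M.Fam (σ → ℂ)} (hW : b.Sec W) (hol : Hol W) (nz : Nz W) :
    M.mu H {x | b.pn W x = 0} = 0 := by
  obtain ⟨e, he, z, hz, h0⟩ := nz
  obtain ⟨-, sm, -, zr⟩ := pn_rep hb hW
  obtain ⟨ε, ε0, hε⟩ := KT.NEG.pol hH (pol' hH hb hW hol) fun h => h0 ((zr e he z hz).1 h)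
  have := (ae_lt_top (sm.continuous.measurable.ennreal_ofReal.pow_const _) hε).mono
    (q := fun y => b.pn W y ≠ 0) fun y hy h => by
      rw [h, ENNReal.ofReal_zero, ENNReal.zero_rpow_of_neg (neg_neg_of_pos ε0)] at hy
      exact lt_irrefl _ hy
  simpa only [ae_iff, not_not] using this

/-- No mass near the zero set of a holomorphic section. -/
theorem nm_sec [M.Cpt] {H θ : M.Fam (Mat n)} (hH : M.Kae H) (hθ : M.Ten θ) {b : Bun M σ}
    (hb : b.Ok) {W : M.Fam (σ → ℂ)} (hW : b.Sec W) (hol : Hol W) (nz : Nz W) (η : ℝ) (hη : 0 < η) :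
    ∃ p : ℕ, 0 < p ∧ ∀ Cp : ℝ, ∃ s : ℝ, 0 < s ∧ ∀ (ε : ℝ) (u : M.X → ℝ),
      ε ≤ 1 → M.Sm u → (∀ x, u x ≤ 0) → M.Le 0 (θ + ε • H + M.hs u) →
      ∫ x, Real.exp (-(p * u x)) ∂M.mu H ≤ Cp →
      ∫ x in {x | b.pn W x ≤ s}, M.tr H (θ + ε • H + M.hs u) x ∂M.mu H ≤ η :=
  nm_form hH hθ (pn_rep hb hW).2.1 (pn_rep hb hW).2.2.1 (null hH.toMet hb hW hol nz)
    (lap_ge hH.toMet hb hW hol) η hη

/-- A bound away from the zero set is enough. -/
theorem sm_nm [M.Cpt] {H θ : M.Fam (Mat n)} (hH : M.Kae H) (hθ : M.Ten θ) {b : Bun M σ}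
    (hb : b.Ok) {W : M.Fam (σ → ℂ)} (hW : b.Sec W) (hol : Hol W) (nz : Nz W) {ι : Type}
    {l : Filter ι} {ε : ι → ℝ} {u g h : ι → M.X → ℝ} {C : ℝ}
    (hu : ∀ᶠ j in l, ε j ≤ 1 ∧ M.Sm (u j) ∧ (∀ x, u j x ≤ 0) ∧ M.Le 0 (θ + ε j • H + M.hs (u j)))
    (hi : ∀ p : ℕ, 0 < p → ∃ Cp : ℝ, ∀ᶠ j in l, ∫ x, Real.exp (-(p * u j x)) ∂M.mu H ≤ Cp)
    (hg : ∀ᶠ j in l, Continuous (g j) ∧ Continuous (h j) ∧ ∀ x, 0 ≤ g j x ∧
      g j x ≤ C * M.tr H (θ + ε j • H + M.hs (u j)) x ∧ b.pn W x * g j x ≤ h j x)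
    (hh : Tendsto (fun j => ∫ x, h j x ∂M.mu H) l (𝓝 0)) :
    Tendsto (fun j => ∫ x, g j x ∂M.mu H) l (𝓝 0) := by
  have I := (mMU n M H hH.toMet).2.2.2.2.1 ℝ
  obtain ⟨-, sm, nn, -⟩ := pn_rep hb hW
  refine tendsto_order.2 ⟨fun a ha => hg.mono fun j hj => ha.trans_le
    (integral_nonneg fun x => (hj.2.2 x).1), fun a ha => ?_⟩
  have c0 : 0 < max C 0 + 1 := by positivity
  obtain ⟨p, hp, k⟩ := nm_sec hH hθ hb hW hol nz (a / 2 / (max C 0 + 1)) (by positivity)
  obtain ⟨Cp, hi⟩ := hi p hp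
  obtain ⟨s, s0, k⟩ := k Cp
  filter_upwards [hu, hi, hg, hh.eventually (gt_mem_nhds (show 0 < s * (a / 2) by positivity))]
    with j ⟨u1, u2, u3, u4⟩ hi ⟨g1, g2, g3⟩ hh
  have k1 := k _ _ u1 u2 u3 u4 hi
  have ms : MeasurableSet {x | b.pn W x ≤ s} :=
    (isClosed_le sm.continuous continuous_const).measurableSet
  have ct : Continuous (M.tr H (θ + ε j • H + M.hs (u j))) := ((mINV n M H hH.toMet).1 _
    ((hθ.add (hH.toMet.toTen.smul _)).add ((mHES n M).1 _ u2).toTen)).2.1.continuous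
  have i1 : Integrable (fun x => (max C 0 + 1) * {x | b.pn W x ≤ s}.indicator
      (M.tr H (θ + ε j • H + M.hs (u j))) x) (M.mu H) := ((I _ ct).indicator ms).const_mul _
  have i2 : Integrable (fun x => s⁻¹ * h j x) (M.mu H) := (I _ g2).const_mul _
  have k2 := integral_mono (I _ g1) (i1.add i2) fun x => by
    obtain ⟨a1, a2, a3⟩ := g3 x
    have t0 := hH.toMet.tr_nonneg u4 x
    have h0 : 0 ≤ s⁻¹ * h j x := mul_nonneg (inv_pos.2 s0).le ((mul_nonneg (nn x) a1).trans a3)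
    simp only [Pi.add_apply]
    by_cases hx : x ∈ {x | b.pn W x ≤ s}
    · rw [indicator_of_mem hx]
      nlinarith [mul_le_mul_of_nonneg_right (le_max_left C 0) t0]
    · rw [indicator_of_notMem hx, mul_zero, zero_add, le_inv_mul_iff₀ s0]
      exact (mul_le_mul_of_nonneg_right (not_le.1 hx).le a1).trans a3
  simp only [Pi.add_apply] at k2
  rw [integral_add i1 i2, integral_const_mul, integral_const_mul, integral_indicator ms] at k2
  have k3 := (le_div_iff₀' c0).1 k1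
  have k4 := (inv_mul_lt_iff₀ s0).2 hh
  linarith

/-- The weights of the theorem on the canonical class satisfy the hypotheses. -/
theorem out_hyp [M.Cpt] {H : M.Fam (Mat n)} {a : ℝ → M.X → ℝ} (ha : ZK47.Out M H 0 a) {ι : Type}
    {l : Filter ι} {ε : ι → ℝ} (hε : Tendsto ε l (𝓝[>] 0)) :
    (∀ᶠ j in l, ε j ≤ 1 ∧ M.Sm (a (ε j)) ∧ (∀ x, a (ε j) x ≤ 0) ∧
      M.Le 0 (-M.ric H + ε j • H + M.hs (a (ε j)))) ∧
    ∀ p : ℕ, 0 < p → ∃ Cp : ℝ, ∀ᶠ j in l, ∫ x, Real.exp (-(p * a (ε j) x)) ∂M.mu H ≤ Cp := by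
  have e : ∀ᶠ j in l, ε j ∈ Ioc (0 : ℝ) 1 := hε.eventually (Ioc_mem_nhdsGT one_pos)
  refine ⟨e.mono fun j hj => ⟨hj.2, ha.sm _ hj, ha.le _ hj, ?_⟩, fun p hp => ?_⟩
  · have := (ha.kae _ hj).toMet.nonneg
    rwa [zero_sub] at this
  · obtain ⟨ε₀, C, e0, h⟩ := ha.itg p (by exact_mod_cast hp)
    exact ⟨C, (e.and (hε.eventually (Ioc_mem_nhdsGT e0))).mono fun j hj => h _ hj.1 hj.2.2⟩

end Pool.Agent.Lib.NU4.Nm43
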