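import Pool.Agent.Lib.NU4.Blue
import Pool.Agent.Lib.NU4.Nm43b

/-! Project nu4, row LG: the logarithm of the norm of a holomorphic section. -/

open scoped Classical Topology ContDiff ComplexOrder Matrix
open Set Filter MeasureTheory

noncomputable section

namespace Pool.Agent.Lib.NU4

open Pool.Agent.Lib.SV (E)
open Pool.Agent.Lib.HS32 Pool.Agent.Lib.HLK

namespace LG49

variable {n : ℕ} {M : Mf n}

/-- The weighted energy is bounded. -/
theorem energy [M.Cpt] {H : M.Fam (Mat n)} (hH : M.Kae H) {ρ : M.X → ℝ} (hρ : M.Sm ρ)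
    (h0 : ∀ x, 0 ≤ ρ x) {C d : ℝ} (hC0 : 0 ≤ C) (hd : 0 < d)
    (hC : ∀ x, -C ≤ M.lap H (fun y => Real.log (ρ y + d)) x) :
    Continuous (fun x => d / (ρ x + d) ^ 3 * M.gr H ρ ρ x) ∧
      ∫ x, d / (ρ x + d) ^ 3 * M.gr H ρ ρ x ∂M.mu H ≤ C * (M.mu H).real univ := by
  have := (mMU n M H hH.toMet).2.1
  have I := (mMU n M H hH.toMet).2.2.2.2.1 ℝ
  have p : ∀ x, 0 < ρ x + d := fun x => by have := h0 x; positivity
  have c1 : ∀ y, ContDiffAt ℝ ∞ (fun t : ℝ => Real.log (t + d)) (ρ y) := fun y =>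
    (contDiffAt_id.add contDiffAt_const).log (p y).ne'
  have c2 : ∀ y, ContDiffAt ℝ ∞ (fun t : ℝ => 1 - d * (t + d)⁻¹) (ρ y) := fun y =>
    contDiffAt_const.sub (contDiffAt_const.mul ((contDiffAt_id.add contDiffAt_const).inv (p y).ne'))
  have e1 : ∀ x, deriv (fun t : ℝ => Real.log (t + d)) (ρ x) = (ρ x + d)⁻¹ := fun x => by
    rw [deriv_comp_add_const, Real.deriv_log]
  have e2 : ∀ x, deriv (fun t : ℝ => 1 - d * (t + d)⁻¹) (ρ x) = d / (ρ x + d) ^ 2 := fun x => by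
    have h := ((((hasDerivAt_id (ρ x)).add_const d).inv (p x).ne').const_mul d).const_sub 1
    refine h.deriv.trans ?_
    simp only [id]
    ring
  have s1 := Nm43.sm_log hρ h0 hd
  have s2 : M.Sm fun x => 1 - d * (ρ x + d)⁻¹ := ((mLAP n M ρ ρ hρ hρ).2.1 _ c2).1
  have g : ∀ x, M.gr H (fun y => Real.log (ρ y + d)) (fun y => 1 - d * (ρ y + d)⁻¹) x =
      d / (ρ x + d) ^ 3 * M.gr H ρ ρ x := fun x => by
    rw [(((mLAP n M ρ _ hρ s2).2.2 H hH.toMet).2.2.2.1 _ c1 x).2,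
      (((mLAP n M ρ _ hρ s2).2.2 H hH.toMet).2.2.1 x 0).2.2.2.2.2.1,
      (((mLAP n M ρ ρ hρ hρ).2.2 H hH.toMet).2.2.2.1 _ c2 x).2, e1, e2]
    have := (p x).ne'
    field_simp
  have sg := ((mLAP n M _ _ s1 s2).2.2 H hH.toMet).2.1.continuous
  have sl := ((mLAP n M _ _ s1 s2).2.2 H hH.toMet).1.continuous
  have G := ((mGRN n M).2 H _ _ hH s1 s2).2.1
  simp only [g] at G
  refine ⟨by simpa only [funext g] using sg, ?_⟩
  have b : ∫ _, -C ∂M.mu H ≤ ∫ x, (1 - d * (ρ x + d)⁻¹) *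
      M.lap H (fun y => Real.log (ρ y + d)) x ∂M.mu H := by
    refine integral_mono (integrable_const _) (I _ (s2.continuous.mul sl)) fun x => ?_
    have q0 : 0 ≤ d * (ρ x + d)⁻¹ := (mul_pos hd (inv_pos.2 (p x))).le
    have q1 : d * (ρ x + d)⁻¹ ≤ 1 := by
      rw [← div_eq_mul_inv, div_le_one (p x)]
      linarith [h0 x]
    have := hC x
    beta_reduce
    nlinarith
  rw [integral_const, smul_eq_mul] at b
  linarith

/-- The gradient of the logarithm on a shell. -/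
theorem shell [M.Cpt] {H : M.Fam (Mat n)} (hH : M.Kae H) {ρ : M.X → ℝ} (hρ : M.Sm ρ)
    (h0 : ∀ x, 0 ≤ ρ x) {C d : ℝ} (hC0 : 0 ≤ C) (hd : 0 < d)
    (hC : ∀ x, -C ≤ M.lap H (fun y => Real.log (ρ y + d)) x) :
    IntegrableOn (fun x => M.gr H ρ ρ x / ρ x ^ 2) {x | d ≤ ρ x ∧ ρ x ≤ 2 * d} (M.mu H) ∧
      ∫ x in {x | d ≤ ρ x ∧ ρ x ≤ 2 * d}, M.gr H ρ ρ x / ρ x ^ 2 ∂M.mu H ≤
        16 * (C * (M.mu H).real univ) := by
  have I := (mMU n M H hH.toMet).2.2.2.2.1 ℝ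
  obtain ⟨c, b⟩ := energy hH hρ h0 hC0 hd hC
  have g0 : ∀ x, 0 ≤ M.gr H ρ ρ x := fun x =>
    (((mLAP n M ρ ρ hρ hρ).2.2 H hH.toMet).2.2.1 x 0).2.2.2.2.2.2.1
  have sg := ((mLAP n M ρ ρ hρ hρ).2.2 H hH.toMet).2.1.continuous
  have ms : MeasurableSet {x | d ≤ ρ x ∧ ρ x ≤ 2 * d} :=
    ((isClosed_le continuous_const hρ.continuous).inter
      (isClosed_le hρ.continuous continuous_const)).measurableSet
  have k : ∀ x ∈ {x | d ≤ ρ x ∧ ρ x ≤ 2 * d}, M.gr H ρ ρ x / ρ x ^ 2 ≤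
      16 * (d / (ρ x + d) ^ 3 * M.gr H ρ ρ x) := fun x hx => by
    have p : 0 < ρ x := hd.trans_le hx.1
    have a : (ρ x + d) ^ 3 ≤ (2 * ρ x) ^ 3 := pow_le_pow_left₀ (by positivity) (by linarith [hx.1]) 3
    have a2 : 1 / ρ x ^ 2 ≤ 16 * (d / (ρ x + d) ^ 3) := by
      rw [← mul_div_assoc, div_le_div_iff₀ (by positivity) (by positivity)]
      have : 0 ≤ (2 * d - ρ x) * ρ x ^ 2 := mul_nonneg (by linarith [hx.2]) (by positivity)
      nlinarith
    calc M.gr H ρ ρ x / ρ x ^ 2 = 1 / ρ x ^ 2 * M.gr H ρ ρ x := by ring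
      _ ≤ 16 * (d / (ρ x + d) ^ 3) * M.gr H ρ ρ x := mul_le_mul_of_nonneg_right a2 (g0 x)
      _ = _ := by ring
  have i2 := (I _ c).const_mul 16
  have i1 : IntegrableOn (fun x => M.gr H ρ ρ x / ρ x ^ 2) {x | d ≤ ρ x ∧ ρ x ≤ 2 * d} (M.mu H) := by
    refine Integrable.mono' i2.integrableOn
      (sg.measurable.div (hρ.continuous.measurable.pow_const 2)).aestronglyMeasurable ?_
    refine (ae_restrict_iff' ms).2 (Eventually.of_forall fun x hx => ?_)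
    rw [Real.norm_of_nonneg (div_nonneg (g0 x) (sq_nonneg _))]
    exact k x hx
  refine ⟨i1, (setIntegral_mono_on i1 i2.integrableOn ms k).trans
    ((setIntegral_le_integral i2 (Eventually.of_forall fun x => ?_)).trans ?_)⟩
  · have := h0 x
    have := g0 x
    show (0 : ℝ) ≤ _
    positivity
  · rw [integral_const_mul]
    linarith

end LG49

theorem st_LG : St_LG := by
  intro n M _ H σ _ _ b s hH hb _ hs hol nz
  obtain ⟨-, sm, h0, -⟩ := Nm43.pn_rep hb hs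
  obtain ⟨C, hC⟩ := Nm43.lap_ge hH.toMet hb hs hol
  have v0 : 0 ≤ (M.mu H).real univ := measureReal_nonneg
  have a0 := abs_nonneg C
  have hC' : ∀ d : ℝ, 0 < d → ∀ x, -|C| ≤ M.lap H (fun y => Real.log (b.pn s y + d)) x :=
    fun d hd x => (neg_le_neg (le_abs_self C)).trans (hC d hd x)
  have q : 0 ≤ 16 * (|C| * (M.mu H).real univ) := by positivity
  refine ⟨Nm43.null hH.toMet hb hs hol nz, |C| + 16 * (|C| * (M.mu H).real univ), by positivity,
    fun d hd => ⟨fun x => ?_, ?_⟩⟩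
  · linarith [hC' d hd x]
  · linarith [(LG49.shell hH sm h0 a0 hd (hC' d hd)).2]

end Pool.Agent.Lib.NU4
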