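import Pool.Agent.Lib.NU4.Blue
import Pool.Agent.Lib.HS32.MAll

/-! Project nu4: the derivative of Lie in coordinates. -/

open scoped Classical Topology ContDiff ComplexOrder Matrix
open Set Filter

noncomputable section

namespace Pool.Agent.Lib.NU4

open Pool.Agent.Lib.SV (E)
open Pool.Agent.Lib.HS32 Pool.Agent.Lib.HLK Pool.Agent.Lib.F4

namespace Lie87

variable {n : ℕ} {σ τ : Type} {z : E n} {f g : E n → ℂ} {v y : E n → E n}

theorem h_d (h : HolN f z) : DifferentiableAt ℝ f z := cd_diff ((mHOL n f z).2.2 h).1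

theorem h_dz (h : HolN f z) (j : Fin n) : HolN (dz j f) z := ((mHOL n f z).2.2 h).2.1 j

theorem h_c (c : ℂ) : HolN (fun _ : E n => c) z :=
  Eventually.of_forall fun _ => differentiableAt_const _

theorem h_mul (h : HolN f z) (h' : HolN g z) : HolN (fun w => f w * g w) z :=
  (h.and h').mono fun _ a => a.1.mul a.2

theorem h_add (h : HolN f z) (h' : HolN g z) : HolN (fun w => f w + g w) z :=
  (h.and h').mono fun _ a => a.1.add a.2

theorem h_sub (h : HolN f z) (h' : HolN g z) : HolN (fun w => f w - g w) z :=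
  (h.and h').mono fun _ a => a.1.sub a.2

theorem h_sum {ι : Type} [Fintype ι] {F : ι → E n → ℂ} (h : ∀ i, HolN (F i) z) :
    HolN (fun w => ∑ i, F i w) z := by
  filter_upwards [eventually_all.2 h] with w hw
  exact DifferentiableAt.fun_sum fun i _ => hw i

theorem h_dir (hv : HolV v z) (h : HolN f z) : HolN (dir v f) z :=
  h_sum fun k => h_mul (hv k) (h_dz h k)

theorem h_dv (hv : HolV v z) : HolN (dv v) z := h_sum fun j => h_dz (hv j) j

theorem v_c (c : σ → ℂ) : HolV (fun _ : E n => c) z := fun i => h_c (c i)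

theorem v_dzv {W : E n → σ → ℂ} (h : HolV W z) (k : Fin n) : HolV (dzv k W) z :=
  fun i => h_dz (h i) k

theorem v_dirv {W : E n → σ → ℂ} (hv : HolV v z) (h : HolV W z) : HolV (dirv v W) z :=
  fun i => h_dir hv (h i)

theorem v_sub {U W : E n → σ → ℂ} (h : HolV U z) (h' : HolV W z) :
    HolV (fun w => U w - W w) z := fun i => h_sub (h i) (h' i)

theorem v_add {U W : E n → σ → ℂ} (h : HolV U z) (h' : HolV W z) :
    HolV (fun w => U w + W w) z := fun i => h_add (h i) (h' i)

theorem v_smul {W : E n → σ → ℂ} (h : HolN f z) (h' : HolV W z) :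
    HolV (fun w => f w • W w) z := fun i => h_mul h (h' i)

theorem v_sum {ι : Type} [Fintype ι] {F : ι → E n → σ → ℂ} (h : ∀ i, HolV (F i) z) :
    HolV (fun w => ∑ i, F i w) z := fun a => by
  simp only [Finset.sum_apply]
  exact h_sum fun i => h i a

theorem v_mv [Fintype σ] {X : E n → Matrix τ σ ℂ} {W : E n → σ → ℂ}
    (hX : ∀ a b, HolN (fun w => X w a b) z) (h : HolV W z) : HolV (fun w => X w *ᵥ W w) z :=
  fun a => h_sum fun b => h_mul (hX a b) (h b)

theorem h_crv (hv : HolV v z) (A B : Fs n) : HolN (fun w => crv (v w) A B) z := by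
  simp only [crv, Matrix.sum_apply, Matrix.smul_apply, smul_eq_mul]
  exact h_sum fun k => h_mul (hv k) (h_c _)

theorem h_dL (hv : HolV v z) (A B : Fs n) : HolN (fun w => dL (dj v w) A B) z := by
  simp only [dL, Matrix.sum_apply, Matrix.smul_apply, smul_eq_mul]
  exact h_sum fun i => h_sum fun k => h_mul (h_dz (hv i) k) (h_c _)

theorem v_pf0 {W : E n → Fs n → ℂ} (h : HolV W z) : HolV (pf0 W) z :=
  v_sum fun k => v_mv (fun _ _ => h_c _) (v_dzv h k)

theorem dzv_smul {W : E n → σ → ℂ} (h : HolN f z) (h' : HolV W z) (k : Fin n) :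
    dzv k (fun w => f w • W w) z = dz k f z • W z + f z • dzv k W z :=
  funext fun i => dz_mul (h_d h) (h_d (h' i))

theorem dzv_c (c : σ → ℂ) (k : Fin n) : dzv k (fun _ : E n => c) z = 0 :=
  funext fun i => dz_const (c i)

theorem dzv_crv {W : E n → Fs n → ℂ} (hv : HolV v z) (h : HolV W z) (k : Fin n) :
    dzv k (fun w => crv (v w) *ᵥ W w) z = crv (dzv k v z) *ᵥ W z + crv (v z) *ᵥ dzv k W z := by
  funext A
  have e : ∀ B, dz k (fun w => crv (v w) A B) z = crv (dzv k v z) A B := fun B => by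
    simp only [crv, Matrix.sum_apply, Matrix.smul_apply, smul_eq_mul]
    rw [dz_sum fun j _ => (h_d (hv j)).mul_const _]
    refine Finset.sum_congr rfl fun j _ => ?_
    rw [dz_mul (h_d (hv j)) (differentiableAt_const _), dz_const, mul_zero, add_zero]
    rfl
  show dz k (fun w => ∑ B, crv (v w) A B * W w B) z = ∑ B, _ + ∑ B, _
  rw [dz_sum fun B _ => (h_d (h_crv hv A B)).fun_mul (h_d (h B)), ← Finset.sum_add_distrib]
  refine Finset.sum_congr rfl fun B _ => ?_
  rw [dz_mul (h_d (h_crv hv A B)) (h_d (h B)), e]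
  rfl

theorem dirv_eq (V : E n → E n) (W : E n → σ → ℂ) : dirv V W z = ∑ k, V z k • dzv k W z := by
  funext i
  rw [Finset.sum_apply]
  rfl

theorem crv_sum (c : E n) (u : Fin n → E n) : crv (∑ k, c k • u k) = ∑ k, c k • crv (u k) := by
  simp only [crv, Finset.sum_apply, Pi.smul_apply, smul_eq_mul, Finset.sum_smul, Finset.smul_sum,
    smul_smul]
  exact Finset.sum_comm

theorem dL_dj (V : E n → E n) : dL (dj V z) = ∑ k, crv (dzv k V z) * an k := by
  simp only [dL, crv, Finset.sum_mul, Matrix.smul_mul]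
  exact Finset.sum_comm

theorem dj_mv (V Y : E n → E n) : dj V z *ᵥ Y z = dirv Y V z := funext fun i => by
  show ∑ k, dz k (fun w => V w i) z * Y z k = ∑ k, Y z k * dz k (fun w => V w i) z
  exact Finset.sum_congr rfl fun _ _ => mul_comm _ _

theorem anv_one (k : Fin n) : anv (Pi.single k 1) = an k := by
  simp only [anv, Pi.single_apply, ite_smul, one_smul, zero_smul, Finset.sum_ite_eq',
    Finset.mem_univ, if_true]

theorem an_crv (hFK : St_FK) (k : Fin n) (u : E n) (W : Fs n → ℂ) :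
    an k *ᵥ crv u *ᵥ W = u k • W - crv u *ᵥ an k *ᵥ W := by
  have := (hFK n u 0 (Pi.single k 1) 0 0 0).2.2.1
  rw [anv_one, single_one_dotProduct] at this
  rw [Matrix.mulVec_mulVec, Matrix.mulVec_mulVec, eq_sub_iff_add_eq, ← Matrix.add_mulVec, this,
    Matrix.smul_mulVec, Matrix.one_mulVec]

theorem dirv_smul {W : E n → σ → ℂ} (h : HolN f z) (h' : HolV W z) :
    dirv v (fun w => f w • W w) z = dir v f z • W z + f z • dirv v W z := by
  simp only [dirv_eq, dzv_smul h h', smul_add, Finset.sum_add_distrib, dir, Finset.sum_smul,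
    Finset.smul_sum, smul_smul, mul_comm]

theorem dirv_left (W : E n → σ → ℂ) : dirv (fun w => f w • v w) W z = f z • dirv v W z := by
  simp only [dirv_eq, Finset.smul_sum, smul_smul, Pi.smul_apply, smul_eq_mul]

theorem dirv_crv {W : E n → Fs n → ℂ} (hy : HolV y z) (h : HolV W z) :
    dirv v (fun w => crv (y w) *ᵥ W w) z = crv (dirv v y z) *ᵥ W z + crv (y z) *ᵥ dirv v W z := by
  simp only [dirv_eq, dzv_crv hy h, smul_add, Finset.sum_add_distrib, crv_sum, Matrix.sum_mulVec,
    Matrix.smul_mulVec, Matrix.mulVec_sum, Matrix.mulVec_smul]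

/-- The divergence of a product. -/
theorem pf0_crv (hFK : St_FK) {W : E n → Fs n → ℂ} (hv : HolV v z) (h : HolV W z) :
    pf0 (fun w => crv (v w) *ᵥ W w) z = lder v W z + dv v z • W z - lie v W z := by
  simp only [pf0, lie, lder, dzv_crv hv h, Matrix.mulVec_add, an_crv hFK, dL_dj, dirv_eq, dv,
    Finset.sum_add_distrib, Finset.sum_sub_distrib, Matrix.sum_mulVec, Matrix.mulVec_sum,
    ← Matrix.mulVec_mulVec, Finset.sum_smul, dzv]
  abel

theorem dz_sym (h : HolN f z) (j k : Fin n) : dz j (dz k f) z = dz k (dz j f) z :=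
  dz_dz ((mHOL n f z).2.2 h).1 j k

theorem dv_dirv (hv : HolV v z) (hy : HolV y z) : dv (dirv v y) z =
    dir v (dv y) z + ∑ j, ∑ k, dz j (fun w => v w k) z * dz k (fun w => y w j) z := by
  have e : ∀ j, dz j (fun w => dirv v y w j) z =
      ∑ k, (v z k * dz k (dz j fun w => y w j) z +
        dz j (fun w => v w k) z * dz k (fun w => y w j) z) := fun j => by
    show dz j (fun w => ∑ k, v w k * dz k (fun w => y w j) w) z = _
    rw [dz_sum fun k _ => (h_d (hv k)).fun_mul (h_d (h_dz (hy j) k))]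
    refine Finset.sum_congr rfl fun k _ => ?_
    rw [dz_mul (h_d (hv k)) (h_d (h_dz (hy j) k)), dz_sym (hy j) j k, add_comm]
  have e2 : ∀ k, dz k (dv y) z = ∑ j, dz k (dz j fun w => y w j) z := fun k =>
    dz_sum (f := fun j => dz j fun w => y w j) fun j _ => h_d (h_dz (hy j) j)
  simp only [dv, e, dir, Finset.sum_add_distrib]
  rw [Finset.sum_comm]
  refine congrArg₂ _ (Finset.sum_congr rfl fun k _ => ?_) rfl
  rw [← Finset.mul_sum]
  exact congrArg _ (e2 k).symm

end Lie87

open Lie87 in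
theorem st_LIE (hFK : St_FK) : St_LIE := by
  intro n v y W f z hv hy hW hf
  have vac0 : ∀ g : Mat n, dL g *ᵥ vac n = 0 :=
    fun g => (hFK n 0 0 0 g 0 0).2.2.2.2.2.2.2.2.2.2.2.2.2.2.2.2.2.2.2.1
  have l0 : lder v (fun _ => vac n) z = 0 := by
    simp only [lder, dirv_eq, dzv_c, vac0, smul_zero, Finset.sum_const_zero, sub_zero]
  refine ⟨h_dir hv hf, h_dv hv, v_sub (v_dirv hv hy) (v_dirv hy hv), v_pf0 hW,
    v_mv (h_crv hv) (v_pf0 hW), v_sub (v_dirv hv hW) (v_mv (h_dL hv) hW), v_mv (h_crv hv) hW,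
    fun h => ?_, ?_, l0, ?_, ?_, (neg_sub _ _).symm, ?_, ?_, ?_, ?_⟩
  · have e : ∀ k, dzv k (fun w => crv (v w) *ᵥ W w) z = 0 := fun k => funext fun A => by
      rw [dzv, dz_congr (g := fun _ => 0) (h.mono fun w hw => congrFun hw A), dz_const]
      rfl
    have := pf0_crv hFK hv hW
    simp only [pf0, e, Matrix.mulVec_zero, Finset.sum_const_zero] at this
    exact (sub_eq_zero.1 this.symm).symm
  · rw [lder, lder, br, dirv_crv hy hW, Matrix.mulVec_mulVec,
      (hFK n (y z) 0 0 (dj v z) 0 0).2.2.2.2.2.2.2.2.2.2.2.2.2.2.2.2.2.2.1, dj_mv,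
      (hFK n _ _ 0 0 0 0).2.2.2.2.2.2.1, Matrix.add_mulVec, Matrix.sub_mulVec, Matrix.mulVec_sub,
      Matrix.mulVec_mulVec]
    abel
  · rw [lder, lder, dirv_smul hf hW, Matrix.mulVec_smul, smul_sub, add_sub_assoc]
  · rw [pf0_crv hFK hv (v_c _), l0, zero_add]
    simp only [lie, pf0, dzv_c, Matrix.mulVec_zero, Finset.sum_const_zero, sub_zero]
  · have e : dv (br v y) z = dv (dirv v y) z - dv (dirv y v) z := by
      simp only [dv, ← Finset.sum_sub_distrib]
      exact Finset.sum_congr rfl fun j _ => dz_sub (h_d (v_dirv hv hy j)) (h_d (v_dirv hy hv j))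
    have e2 : ∑ j, ∑ k, dz j (fun w => y w k) z * dz k (fun w => v w j) z =
        ∑ j, ∑ k, dz j (fun w => v w k) z * dz k (fun w => y w j) z := by
      rw [Finset.sum_comm]
      exact Finset.sum_congr rfl fun _ _ => Finset.sum_congr rfl fun _ _ => mul_comm _ _
    rw [e, dv_dirv hv hy, dv_dirv hy hv, e2]
    ring
  · simp only [dv, dir, Finset.mul_sum, ← Finset.sum_add_distrib]
    refine Finset.sum_congr rfl fun j _ => ?_
    rw [mul_comm (v z j)]
    exact dz_mul (h_d hf) (h_d (hv j))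
  · rw [br, br, dirv_smul hf hy, dirv_left, smul_sub, add_sub_assoc]
  · rw [lder, lder, dirv_left, dL_dj, dL_dj]
    simp only [dzv_smul hf hv, fun a b : E n => (hFK n a b 0 0 0 0).2.2.2.2.2.1,
      fun (c : ℂ) (a : E n) => (hFK n a 0 0 0 c 0).2.2.2.2.2.2.2.1, add_mul, Matrix.smul_mul,
      Finset.sum_add_distrib, Matrix.add_mulVec, Matrix.sum_mulVec, Matrix.smul_mulVec, anv, gd,
      Matrix.mulVec_sum, Matrix.mulVec_smul, ← Matrix.mulVec_mulVec, smul_sub, Finset.smul_sum]
    abel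

end Pool.Agent.Lib.NU4
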