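import Pool.Agent.Lib.F4.BlueS
import Pool.Agent.Lib.IDX.Blue
import Pool.Agent.Lib.RAA.Tools
import Pool.Agent.Lib.HW86.Ae

/-! Project nu4: holomorphic multivectors with values in the powers of the canonical bundle, their
derivatives along a vector field, and the predicates that express that the curvature vanishes on
them. -/

open scoped Classical Topology ContDiff ComplexOrder Matrix Kronecker
open Set Filter MeasureTheory

set_option linter.unusedVariables false

noncomputable section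

namespace Pool.Agent.Lib.NU4

open Pool.Agent.Lib.SV (E)
open Pool.Agent.Lib.HS32 Pool.Agent.Lib.HLK Pool.Agent.Lib.F4
open Pool.Agent.Lib.K3E (kan wk lk)
open Pool.Agent.Lib.EXH (aw)

variable {n : ℕ}

/-! ### Pointwise algebra -/

/-- The exterior product with a vector. -/
def crv (v : E n) : Mx (Fs n) := ∑ k, v k • cr k

/-- The contraction with a covector. -/
def anv (a : E n) : Mx (Fs n) := ∑ k, a k • an k

/-- The unit of the exterior algebra. -/
def vac (n : ℕ) : Fs n → ℂ := Pi.single ∅ 1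

/-- Two proportional arrays. -/
def Pr {σ : Type} (A B : σ → ℂ) : Prop := ∀ I J, A I * B J = A J * B I

/-- Homogeneous of degree `q`. -/
def Dg (q : ℕ) (W : Fs n → ℂ) : Prop := ∀ A : Fs n, A.card ≠ q → W A = 0

/-- The squared norm of a multivector. -/
def ng (H : Mat n) (W : Fs n → ℂ) : ℝ := (star W ⬝ᵥ La H *ᵥ W).re

/-- The value of `T` on a multivector. -/
def cg (H T : Mat n) (W : Fs n → ℂ) : ℝ :=
  (∑ k, ∑ l, T l k * (star (an l *ᵥ W) ⬝ᵥ La H *ᵥ an k *ᵥ W)).re

/-- The tensor product of two arrays. -/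
def ot {σ : Type} (A B : σ → ℂ) : σ × σ → ℂ := fun p => A p.1 * B p.2

/-! ### Calculus in coordinates -/

/-- The derivative of a function along a field. -/
def dir (V : E n → E n) (f : E n → ℂ) (z : E n) : ℂ := ∑ k, V z k * dz k f z

/-- The derivative of an array along a field. -/
def dirv {σ : Type} (V : E n → E n) (s : E n → σ → ℂ) (z : E n) : σ → ℂ :=
  fun i => dir V (fun w => s w i) z

/-- The bracket of two fields. -/
def br (V W : E n → E n) (z : E n) : E n := dirv V W z - dirv W V z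

/-- The divergence of a multivector. -/
def pf0 (W : E n → Fs n → ℂ) (z : E n) : Fs n → ℂ := ∑ k, an k *ᵥ dzv k W z

/-- The product of the field and of the divergence. -/
def lie (V : E n → E n) (W : E n → Fs n → ℂ) (z : E n) : Fs n → ℂ := crv (V z) *ᵥ pf0 W z

/-- The matrix of the derivatives of a field. -/
def dj (V : E n → E n) (z : E n) : Mat n := Matrix.of fun i k => dz k (fun w => V w i) z

/-- The derivative of Lie. -/
def lder (V : E n → E n) (W : E n → Fs n → ℂ) (z : E n) : Fs n → ℂ :=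
  dirv V W z - dL (dj V z) *ᵥ W z

/-- The expression of Riccati. -/
def qq (V : E n → E n) (b : E n → ℂ) (z : E n) : ℂ := dir V b z - b z ^ 2 / 2

/-- Holomorphic components near `z`. -/
def HolV {σ : Type} (s : E n → σ → ℂ) (z : E n) : Prop := ∀ i, HolN (fun w => s w i) z

/-! ### The manifold -/

variable (M : Mf n)

/-- The product of a field and of a multivector. -/
def wd (V : M.Fam (E n)) (W : M.Fam (Fs n → ℂ)) : M.Fam (Fs n → ℂ) :=
  fun e z => crv (V e z) *ᵥ W e z

/-- A field as a multivector. -/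
def vec (V : M.Fam (E n)) : M.Fam (Fs n → ℂ) := fun e z => crv (V e z) *ᵥ vac n

/-- The part of degree `q`. -/
def prt (q : ℕ) (W : M.Fam (Fs n → ℂ)) : M.Fam (Fs n → ℂ) :=
  fun e z A => if A.card = q then W e z A else 0

/-- Homogeneous of degree `q` in the charts. -/
def DgM (q : ℕ) (W : M.Fam (Fs n → ℂ)) : Prop := M.All fun e z => Dg q (W e z)

/-- Of parity `s` in the charts. -/
def Pa (s : ℂ) (W : M.Fam (Fs n → ℂ)) : Prop := M.All fun e z => IDX.par W e z = s • W e z

/-- Holomorphic multivectors with values in `m K`. -/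
structure HM (m : ℕ) (W : M.Fam (Fs n → ℂ)) : Prop where
  hol : Hol W
  cmp : M.Ov fun e e' x => W e (e x) = (jd M e e' x ^ m)⁻¹ • La (M.J e e' x) *ᵥ W e' (e' x)

/-- Holomorphic tensors with two multivector slots. -/
structure HM2 (m : ℕ) (h : M.Fam (Fs n × Fs n → ℂ)) : Prop where
  hol : Hol h
  cmp : M.Ov fun e e' x => h e (e x) =
    (jd M e e' x ^ m)⁻¹ • (La (M.J e e' x) ⊗ₖ La (M.J e e' x)) *ᵥ h e' (e' x)

/-- No power of the canonical bundle has a section. -/
def NoS : Prop := ∀ m, 0 < m → ∀ t, M.HSec m t → Zr M t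

/-- The product with a real function. -/
def sm (f : M.X → ℝ) (W : M.Fam (Fs n → ℂ)) : M.Fam (Fs n → ℂ) :=
  fun e z => (f (e.symm z) : ℂ) • W e z

/-- The contraction with the derivative of a real function. -/
def iot (f : M.X → ℝ) (W : M.Fam (Fs n → ℂ)) : M.Fam (Fs n → ℂ) :=
  fun e z => anv (gd (M.lc f e) z) *ᵥ W e z

/-- The covariant derivative along a field of level `m`, on multivectors of level `l`. -/
def nab (m l : ℕ) (W : M.Fam (E n)) (ρ : M.Fam (Fs n → ℂ)) : M.Fam (Fs n → ℂ) := fun e z =>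
  lie (W e) (ρ e) z - (((l : ℂ) - 1) / ((m : ℂ) - 1) * dv (W e) z) • ρ e z

/-- The corrected bracket. -/
def yy (m : ℕ) (W V : M.Fam (E n)) : M.Fam (E n) := fun e z =>
  br (W e) (V e) z - (dv (W e) z / ((m : ℂ) - 1)) • V e z

variable (H : M.Fam (Mat n))

/-- The derivative of the weight along a field. -/
def a0 (V : M.Fam (E n)) : M.Fam ℂ := fun e => dir (V e) (ld (H e))

/-- A form in the class of `K + ε H`. -/
def om (ε : ℝ) (u : M.X → ℝ) : M.Fam (Mat n) := -M.ric H + ε • H + M.hs u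

/-- The weight at the level `m`. -/
def wt (m : ℕ) (u : M.X → ℝ) : M.Fam ℝ := aw M (wk H m) fun x => ((m : ℝ) - 1) * u x

/-- The weighted bundle. -/
abbrev lw (m : ℕ) (u : M.X → ℝ) : Bun M (Fs n) := lam H (kan M m) (wt M H m u)

/-- The divergence for the weight given by the metric. -/
abbrev P0 (m : ℕ) (W : M.Fam (Fs n → ℂ)) : M.Fam (Fs n → ℂ) := (oP H (wk H m)).ap W

/-- The self-intersection of the canonical class. -/
def k2 : ℝ := ∫ x, mx M H (-M.ric H) (-M.ric H) x ∂M.mu H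

/-- The bundle with two slots. -/
def b2 (m : ℕ) : Bun M (Fs n × Fs n) where
  T e e' x := (jd M e e' x ^ m)⁻¹ • (La (M.J e e' x) ⊗ₖ La (M.J e e' x))
  G e z := ((H e z).det ^ m)⁻¹ • (La (H e z) ⊗ₖ La (H e z))

/-- The standing hypotheses. -/
structure Cx (a : ℝ → M.X → ℝ) : Prop where
  n0 : 0 < n
  kae : M.Kae H
  nef : W86.Nef M H
  out : ZK47.Out M H 0 a

/-- The forms close to the canonical class are small on `W`. -/
def Sml (m : ℕ) (W : M.Fam (Fs n → ℂ)) : Prop := ∃ C : ℝ, 0 ≤ C ∧ ∀ (ε : ℝ) (u : M.X → ℝ),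
  0 ≤ ε → M.Sm u → M.Le 0 (om M H ε u) →
    ∫ x, cu (om M H ε u) (lk H m) W x ∂M.mu H ≤ C * ε

/-- Some of the given forms are small on `W`. -/
def N0 (a : ℝ → M.X → ℝ) (m : ℕ) (W : M.Fam (Fs n → ℂ)) : Prop := ∀ η : ℝ, 0 < η →
  ∃ ε ∈ Ioc (0 : ℝ) 1, ε ≤ η ∧ ∫ x, cu (om M H ε (a ε)) (lk H m) W x ∂M.mu H ≤ η

/-- `W` is parallel in the limit. -/
def Par (a : ℝ → M.X → ℝ) (m : ℕ) (W : M.Fam (Fs n → ℂ)) : Prop := ∀ c : ℝ,
  Tendsto (fun ε => ∫ x, Real.exp (-(c * a ε x)) *
    √((lk H m).pn ((oP H (wt M H m (a ε))).ap W) x) ∂M.mu H) (𝓝[>] 0) (𝓝 0)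

/-- Approximate invariant densities, in the mean. -/
def Ap1 (m : ℕ) (W : M.Fam (Fs n → ℂ)) : Prop := ∃ C : ℝ, ∀ η : ℝ, 0 < η → ∃ F, M.Sm F ∧
  (∀ x, 1 ≤ F x) ∧ ∫ x, F x ∂M.mu H ≤ C ∧
    ∫ x, √((lk H m).pn (P0 M H m (sm M F W)) x) ∂M.mu H ≤ η

/-- Approximate invariant densities, in the quadratic mean. -/
def Ap2 (m : ℕ) (W : M.Fam (Fs n → ℂ)) : Prop := ∃ C : ℝ, ∀ η : ℝ, 0 < η → ∃ F, M.Sm F ∧
  (∀ x, 1 ≤ F x) ∧ ∫ x, F x ^ (2 * n) ∂M.mu H ≤ C ∧
    ∫ x, (lk H m).pn (P0 M H m (sm M F W)) x / F x ∂M.mu H ≤ η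

/-- Almost harmonic sections of parity `s`. -/
def Ahp (m : ℕ) (s : ℂ) : Prop := ∀ η : ℝ, 0 < η → ∃ W, (lk H m).Sec W ∧ Pa M s W ∧
  (lk H m).nr H W = 1 ∧ (lk H m).nr H ((oD H (wk H m)).ap W) ≤ η

/-- The obstruction to a projective structure along `V`. -/
def xq (V : M.Fam (E n)) : M.Fam (Fs n → ℂ) :=
  (oQ H).ap fun e z => qq (V e) (a0 M H V e) z • vac n

/-- A projective structure along `V`. -/
structure Pq (V : M.Fam (E n)) (q : M.Fam ℂ) : Prop where
  hol : M.All fun e z => HolN (q e) z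
  cmp : M.Ov fun e e' x => qq (V e') (a0 M H V e') (e' x) - q e' (e' x) =
    jd M e e' x ^ 2 * (qq (V e) (a0 M H V e) (e x) - q e (e x))

/-- An affine structure along `V`, off the zero set of `s`. -/
structure Af {σ : Type} (V : M.Fam (E n)) (s : M.Fam (σ → ℂ)) (b : M.Fam ℂ) : Prop where
  hol : M.All fun e z => s e z ≠ 0 → HolN (b e) z
  cmp : M.Ov fun e e' x => s e (e x) ≠ 0 →
    b e' (e' x) - a0 M H V e' (e' x) = jd M e e' x * (b e (e x) - a0 M H V e (e x))

/-- The array `s` solves a linear equation along `V` with the factor `β`. -/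
def Ev {σ : Type} [Fintype σ] (V : M.Fam (E n)) (s : M.Fam (σ → ℂ)) (β : M.Fam ℂ) : Prop :=
  ∃ A : M.Fam (Mx σ), M.All fun e z => (∀ i j, ContinuousAt (fun w => A e w i j) z) ∧
    (s e z ≠ 0 → dirv (V e) (s e) z + A e z *ᵥ s e z = β e z • s e z)

/-- A field of level one without divergence. -/
structure V1 (V : M.Fam (E n)) : Prop where
  ht : HT M 1 V
  dv0 : Zr M fun e => dv (V e)

end Pool.Agent.Lib.NU4
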