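import Pool.Agent.Lib.NU4.Hu39
import Pool.Agent.Lib.NU4.Defs

/-! The derivative of a limit weight along a null vector field is holomorphic: one ball. -/

open scoped Classical Topology ENNReal ContDiff ComplexOrder Matrix
open Set MeasureTheory Complex Filter Metric

set_option linter.unusedVariables false

noncomputable section

namespace Pool.Agent.Lib.NU4.Hx39

open Pool.Agent.Lib.SV (E)
open Pool.Agent.Lib.HS32 Pool.Agent.Lib.F4
open Pool.Agent.Lib.F4G.Sz44 (nq0 le_tr)

variable {n : ℕ} {M : Mf n}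

theorem cd_dir {U : E n → E n} {ψ : E n → ℂ} {z : E n} (hU : HolV U z)
    (hψ : ContDiffAt ℝ ∞ ψ z) : ContDiffAt ℝ ∞ (dir U ψ) z :=
  ContDiffAt.sum fun i _ => ((mHOL n _ z).2.2 (hU i)).1.mul (cd_dz hψ i)

theorem dzb_dir {U : E n → E n} {ψ : E n → ℂ} {z : E n} (hU : HolV U z)
    (hψ : ContDiffAt ℝ ∞ ψ z) (k : Fin n) : dzb k (dir U ψ) z = (hess ψ z *ᵥ U z) k := by
  have h1 := fun i => cd_diff ((mHOL n _ z).2.2 (hU i)).1
  unfold dir
  rw [dzb_sum (f := fun i w => U w i * dz i ψ w) fun i _ => (h1 i).mul (cd_diff (cd_dz hψ i))]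
  refine Finset.sum_congr rfl fun i _ => ?_
  rw [dzb_mul (h1 i) (cd_diff (cd_dz hψ i)), ((mHOL n _ z).1 (h1 i)).1 (hU i).self_of_nhds k]
  simp [mul_comm]

theorem null {H T : Mat n} (hH : H.PosDef) (hT : T.PosSemidef) {U W : E n} (h : wg U W = 0)
    {ρ s B b q : ℝ} (hs : 0 < s) (hB : 0 < B) (hq : 0 ≤ q) (h1 : s < ρ) (h2 : ρ ≤ B * nq H W)
    (h3 : nq T W ≤ B * q) (h4 : nq H U ≤ b) : nq T U ≤ B * b / s * B * q := by
  have hW : W ≠ 0 := by
    rintro rfl
    simp [nq] at h2
    linarith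
  obtain ⟨i, hi⟩ := Function.ne_iff.1 hW
  have e := prop h hi
  generalize U i / W i = f at e
  subst e
  rw [nq_csmul] at h4 ⊢
  have f0 := normSq_nonneg f
  have h5 : normSq f ≤ B * b / s := by
    rw [le_div_iff₀ hs]
    nlinarith [mul_le_mul_of_nonneg_left h4 hB.le, mul_le_mul_of_nonneg_left (h1.le.trans h2) f0]
  calc _ ≤ normSq f * (B * q) := mul_le_mul_of_nonneg_left h3 f0
    _ ≤ B * b / s * (B * q) := mul_le_mul_of_nonneg_right h5 (by positivity)
    _ = _ := by ring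

theorem loc [M.Cpt] {H : M.Fam (Mat n)} (hH : M.Kae H) (l : Filter ℕ) [l.NeBot] (ε : ℕ → ℝ)
    (u : ℕ → M.X → ℝ) (C B : ℝ) (hε : ∀ j, 0 ≤ ε j ∧ ε j ≤ 1) (hε0 : Tendsto ε l (𝓝 0))
    (hu : ∀ j, M.Sm (u j)) (hu0 : ∀ j x, u j x ≤ 0) (hT : ∀ j, M.Le 0 (om M H (ε j) (u j)))
    (hC : ∀ j, ∫ x, Real.exp (-u j x) ∂M.mu H ≤ C) {e : M.Ch} (he : e ∈ M.C) {c : E n} {r : ℝ}
    (hr : 0 < r) (hs : closedBall c (4 * r) ⊆ e.target) {U W : E n → E n} {D : E n → ℂ}
    (hU : ∀ z ∈ closedBall c (4 * r), HolV U z)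
    (hW : ∀ i, ContinuousOn (fun z => W z i) (closedBall c (4 * r)))
    (hD : ContinuousOn D (closedBall c (4 * r)))
    (hUW : ∀ z ∈ closedBall c (4 * r), wg (U z) (W z) = 0)
    (hden : ∀ z ∈ ball c r, ∃ᶠ w in 𝓝 z, W w ≠ 0) {ρ : M.X → ℝ} {q p : ℕ → M.X → ℝ}
    (hρ : Continuous ρ) (hq : ∀ j, Continuous (q j) ∧ ∀ x, 0 ≤ q j x)
    (hp : ∀ j, Continuous (p j) ∧ ∀ x, 0 ≤ p j x)
    (q0 : Tendsto (fun j => ∫ x, q j x ∂M.mu H) l (𝓝 0))
    (p0 : Tendsto (fun j => ∫ x, p j x ∂M.mu H) l (𝓝 0)) (hB0 : 0 < B)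
    (hB : ∀ z ∈ closedBall c (4 * r), ρ (e.symm z) ≤ B * nq (H e z) (W z) ∧ ∀ j,
      nq (om M H (ε j) (u j) e z) (W z) ≤ B * q j (e.symm z) ∧
      ‖dir W (fun w => ld (H e) w + M.lc (u j) e w) z - D z‖ ≤ B * p j (e.symm z))
    (hNM : ∀ η : ℝ, 0 < η → ∃ s : ℝ, 0 < s ∧ ∀ᶠ j in l,
      ∫ x in {x | ρ x ≤ s}, M.tr H (om M H (ε j) (u j)) x ∂M.mu H ≤ η) :
    ∃ F : E n → ℂ, DifferentiableOn ℂ F (ball c r) ∧ ∀ z ∈ ball c r, F z • W z = D z • U z := by
  set K := closedBall c (4 * r) with hK'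
  have hK : IsCompact K := isCompact_closedBall _ _
  have hM := hH.toMet
  have := (mMU n M H hM).2.1
  have I := (mMU n M H hM).2.2.2.2.1 ℝ
  have hR := ((mHES n M).2.2.2.2.2.2.2.2.1 H hM).neg
  obtain ⟨C₀, hC₀, hch⟩ := chart_le hM he hK hs
  obtain ⟨C₁, hC₁, hmean⟩ := mean hH hR.toTen
  have hTen : ∀ j, M.Ten (om M H (ε j) (u j)) := fun j =>
    (hR.toTen.add (hM.toTen.smul _)).add ((mHES n M).1 _ (hu j)).toTen
  have hld : ∀ z ∈ K, ContDiffAt ℝ ∞ (ld (H e)) z := fun z hz =>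
    cd_ofReal ((mINV n M H hM).2.2.2.2.2.2.1.sm e he z (hs hz))
  have hψ : ∀ j, ∀ z ∈ K, ContDiffAt ℝ ∞ (fun w => ld (H e) w + M.lc (u j) e w) z :=
    fun j z hz => (hld z hz).add ((hu j).lc e he z (hs hz))
  have cU : ∀ i, ContinuousOn (fun z => U z i) K := fun i z hz =>
    (hU z hz i).self_of_nhds.continuousAt.continuousWithinAt
  have cH : ∀ i j, ContinuousOn (fun z => H e z i j) K := fun i j z hz =>
    (hM.sm e he z (hs hz) i j).continuousAt.continuousWithinAt
  obtain ⟨b₁, hb₁, h1⟩ := bd hK cU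
  obtain ⟨b₂, hb₂, h2⟩ := bd hK (f := fun i => dz i (ld (H e))) fun i z hz =>
    (cd_dz (hld z hz) i).continuousAt.continuousWithinAt
  obtain ⟨b₃, hb₃, h3⟩ := bd hK (f := fun i z => nq (H e z) (Pi.single i 1)) fun i =>
    cnq cH fun _ => continuousOn_const
  obtain ⟨b₄, hb₄, h4⟩ := bd hK (f := fun (i : Unit) z => nq (H e z) (U z)) fun i => cnq cH cU
  obtain ⟨b₅, hb₅, h5⟩ := bd hK (f := fun i z => (H e z *ᵥ U z) i) fun i =>
    continuousOn_finsetSum (f := fun j z => H e z i j * U z j) Finset.univ fun j _ =>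
      (cH i j).mul (cU j)
  have ctr := fun j => ((mINV n M H hM).1 _ (hTen j)).2.1.continuous
  have tr0 := fun j x => hM.tr_nonneg (hT j) x
  have hle : ∀ j, ∀ z ∈ K, ∀ v, nq (om M H (ε j) (u j) e z) v ≤
      M.tr H (om M H (ε j) (u j)) (e.symm z) * nq (H e z) v := fun j z hz v => by
    rw [((mINV n M H hM).1 _ (hTen j)).1 e he z (hs hz)]
    exact le_tr (hM.pos e he z (hs hz)) (by simpa using hT j e he z (hs hz)) v
  have g1 : ∀ j, ∫ z in K, ‖dir U (fun w => ld (H e) w + M.lc (u j) e w) z‖ ≤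
      C₀ * (n * b₁ * (b₂ * (M.mu H).real univ + b₃ * C₁ + C)) := fun j => by
    have L := (mLAP n M _ _ (hu j) (hu j)).2.2 H hM
    have c1 : Continuous fun x => Real.exp (u j x) * M.gr H (u j) (u j) x :=
      (hu j).exp.continuous.mul L.2.1.continuous
    have c2 : Continuous fun x => Real.exp (-u j x) := (hu j).neg.exp.continuous
    have c3 : Continuous fun x => b₂ + b₃ * (Real.exp (u j x) * M.gr H (u j) (u j) x) := by
      fun_prop
    refine (hch K (fun x => n * b₁ * (b₂ + b₃ * (Real.exp (u j x) * M.gr H (u j) (u j) x) +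
      Real.exp (-u j x))) _ hK Subset.rfl (I _ (by fun_prop)) (fun x => ?_) (fun z hz =>
        (cd_dir (hU z hz) (hψ j z hz)).continuousAt.norm.continuousWithinAt)
      fun z hz => ⟨norm_nonneg _, ?_⟩).trans ?_
    · have := (L.2.2.1 x 0).2.2.2.2.2.2.1
      positivity
    · refine (norm_sum_le _ _).trans ((Finset.sum_le_card_nsmul _ _ (b₁ * (b₂ + b₃ *
        (Real.exp (u j (e.symm z)) * M.gr H (u j) (u j) (e.symm z)) +
          Real.exp (-u j (e.symm z)))) fun i _ => ?_).trans_eq (by simp [mul_assoc]))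
      rw [norm_mul, dz_add (cd_diff (hld z hz)) (cd_diff ((hu j).lc e he z (hs hz)))]
      refine mul_le_mul (h1 i z hz) ((norm_add_le _ _).trans ?_) (norm_nonneg _) hb₁.le
      linarith [h2 i z hz, dz_le hM (hu j) he (hs hz) i ((le_abs_self _).trans (h3 i z hz))]
    · rw [integral_const_mul, integral_add (I _ c3) (I _ c2), integral_add (integrable_const _)
        ((I _ c1).const_mul _), integral_const_mul, integral_const, smul_eq_mul]
      have := mul_le_mul_of_nonneg_left (hmean _ _ (hε j).2 (hu j) (hu0 j) (hT j)).2 hb₃.le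
      have := hC j
      refine mul_le_mul_of_nonneg_left (mul_le_mul_of_nonneg_left ?_ (by positivity)) hC₀.le
      linarith
  have g2 : ∀ k, Tendsto (fun j => ∫ z in K,
      ‖dzb k (dir U fun w => ld (H e) w + M.lc (u j) e w) z‖) l (𝓝 0) := fun k => by
    refine tendsto_order.2 ⟨fun a ha => Eventually.of_forall fun j =>
      ha.trans_le (integral_nonneg fun _ => norm_nonneg _), fun κ hκ => ?_⟩
    obtain ⟨δ, hδ, hδ'⟩ : ∃ δ : ℝ, 0 < δ ∧ C₀ * (δ * b₃ * C₁) = κ / 4 :=
      ⟨κ / (4 * C₀ * b₃ * C₁), by positivity, by field_simp⟩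
    obtain ⟨η, hη, hη'⟩ : ∃ η : ℝ, 0 < η ∧ C₀ * (δ⁻¹ * b₄ * η) = κ / 4 :=
      ⟨κ * δ / (4 * C₀ * b₄), by positivity, by field_simp⟩
    obtain ⟨s, hs0, hN⟩ := hNM η hη
    have t0 := ((q0.const_mul (δ⁻¹ * (B * b₄ / s * B))).add
      (hε0.mul_const (b₅ * (M.mu H).real univ))).const_mul C₀
    rw [mul_zero, zero_mul, add_zero, mul_zero] at t0
    filter_upwards [hN, t0.eventually (gt_mem_nhds (half_pos hκ))] with j j1 j2
    have hS : MeasurableSet {x | ρ x ≤ s} := (isClosed_le hρ continuous_const).measurableSet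
    have i1 := (I _ (ctr j)).const_mul (δ * b₃)
    have i2 := ((I _ (ctr j)).indicator hS).const_mul (δ⁻¹ * b₄)
    have i3 := (I _ (hq j).1).const_mul (δ⁻¹ * (B * b₄ / s * B))
    have n2 : ∀ x, 0 ≤ {x | ρ x ≤ s}.indicator (M.tr H (om M H (ε j) (u j))) x :=
      indicator_nonneg fun x _ => tr0 j x
    refine (hch K (fun x => δ * b₃ * M.tr H (om M H (ε j) (u j)) x + δ⁻¹ * b₄ *
      {x | ρ x ≤ s}.indicator (M.tr H (om M H (ε j) (u j))) x + δ⁻¹ * (B * b₄ / s * B) * q j x +
        ε j * b₅) _ hK Subset.rfl (((i1.add i2).add i3).add (integrable_const _)) (fun x => ?_)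
      (fun z hz => (cd_dzb (cd_dir (hU z hz) (hψ j z hz)) k).continuousAt.norm.continuousWithinAt)
      fun z hz => ⟨norm_nonneg _, ?_⟩).trans_lt ?_
    · have := tr0 j x
      have := n2 x
      have := (hq j).2 x
      have := (hε j).1
      positivity
    · have hP : (om M H (ε j) (u j) e z).PosSemidef := by simpa using hT j e he z (hs hz)
      have e1 : hess (fun w => ld (H e) w + M.lc (u j) e w) z =
          om M H (ε j) (u j) e z - ε j • H e z := by
        rw [hess_add (hld z hz) ((hu j).lc e he z (hs hz))]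
        simp only [om, Mf.ric, Mf.hs, Pi.add_apply, Pi.neg_apply, Pi.smul_apply]
        abel
      rw [dzb_dir (hU z hz) (hψ j z hz), e1, Matrix.sub_mulVec, Matrix.smul_mulVec, Pi.sub_apply,
        Pi.smul_apply]
      refine (norm_sub_le _ _).trans (add_le_add ((cs2 hP _ k hδ).trans ?_) ?_)
      · have a1 := (hle j z hz (Pi.single k 1)).trans (mul_le_mul_of_nonneg_left
          ((le_abs_self _).trans (h3 k z hz)) (tr0 j _))
        have a4 := (le_abs_self _).trans (h4 () z hz)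
        have a2 : nq (om M H (ε j) (u j) e z) (U z) ≤ b₄ * {x | ρ x ≤ s}.indicator
            (M.tr H (om M H (ε j) (u j))) (e.symm z) + B * b₄ / s * B * q j (e.symm z) := by
          have := (hq j).2 (e.symm z)
          by_cases h : ρ (e.symm z) ≤ s
          · rw [indicator_of_mem (show e.symm z ∈ {x | ρ x ≤ s} from h)]
            have := (hle j z hz (U z)).trans (mul_le_mul_of_nonneg_left a4 (tr0 j _))
            have : 0 ≤ B * b₄ / s * B * q j (e.symm z) := by positivity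
            linarith
          · rw [indicator_of_notMem (show e.symm z ∉ {x | ρ x ≤ s} from h), mul_zero, zero_add]
            exact null (hM.pos e he z (hs hz)) hP (hUW z hz) hs0 hB0 this (not_le.1 h)
              (hB z hz).1 ((hB z hz).2 j).1 a4
        nlinarith [mul_le_mul_of_nonneg_left a1 hδ.le,
          mul_le_mul_of_nonneg_left a2 (inv_pos.2 hδ).le]
      · rw [norm_smul, Real.norm_of_nonneg (hε j).1]
        exact mul_le_mul_of_nonneg_left (h5 k z hz) (hε j).1
    · rw [integral_add ((i1.fun_add i2).fun_add i3) (integrable_const _),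
        integral_add (i1.fun_add i2) i3, integral_add i1 i2, integral_const_mul, integral_const_mul, integral_const_mul,
        integral_indicator hS, integral_const, smul_eq_mul]
      have a1 := mul_le_mul_of_nonneg_left (hmean _ _ (hε j).2 (hu j) (hu0 j) (hT j)).1
        (show 0 ≤ C₀ * (δ * b₃) by positivity)
      have a2 := mul_le_mul_of_nonneg_left j1 (show 0 ≤ C₀ * (δ⁻¹ * b₄) by positivity)
      unfold om at *
      nlinarith
  obtain ⟨F, hF, hm⟩ := hx39 l _ _ c hr
    (fun j z hz => cd_le (cd_dir (hU z hz) (hψ j z hz)) 1) g1 g2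
  have hsub : ∀ z ∈ ball c r, closedBall z r ⊆ K := fun z hz =>
    closedBall_subset_closedBall' (by linarith [mem_ball.1 hz])
  have hnb : ∀ z ∈ ball c r, K ∈ 𝓝 z := fun z hz =>
    mem_of_superset (closedBall_mem_nhds z hr) (hsub z hz)
  have key : ∀ z ∈ ball c r, W z ≠ 0 → F z • W z = D z • U z := fun z hz h0 => by
    obtain ⟨i, hi⟩ := Function.ne_iff.1 h0
    obtain ⟨d, hd, hd'⟩ := nhds_basis_closedBall.eventually_iff.1
      ((((hW i).continuousAt (hnb z hz)).eventually_ne hi).and (closedBall_mem_nhds z hr))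
    have hs' : closedBall z (min d r) ⊆ K :=
      (closedBall_subset_closedBall (min_le_right _ _)).trans (hsub z hz)
    have hne : ∀ w ∈ closedBall z (min d r), W w i ≠ 0 := fun w hw =>
      (hd' (closedBall_subset_closedBall (min_le_left _ _) hw)).1
    have cf : ContinuousOn (fun w => U w i / W w i) (closedBall z (min d r)) :=
      ((cU i).mono hs').div ((hW i).mono hs') hne
    have cm := cf.mul (hD.mono hs')
    obtain ⟨b, hb, h6⟩ := bd (isCompact_closedBall z (min d r)) (ι := Unit) fun _ => cf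
    rw [hm z hz (fun w => U w i / W w i * D w) _ (lt_min hd hr) (min_le_right _ _) cm ?_,
      mul_comm, mul_smul, ← prop (hUW z (hsub z hz (mem_closedBall_self hr.le))) hi]
    have t0 := (p0.const_mul (b * B)).const_mul C₀
    rw [mul_zero, mul_zero] at t0
    refine squeeze_zero (fun j => integral_nonneg fun _ => norm_nonneg _) (fun j => ?_) t0
    rw [← integral_const_mul]
    refine hch _ (fun x => b * B * p j x) _ (isCompact_closedBall _ _) hs'
      ((I _ (hp j).1).const_mul _) (fun x => mul_nonneg (by positivity) ((hp j).2 x))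
      (ContinuousOn.norm (ContinuousOn.sub (fun w hw =>
        (cd_dir (hU w (hs' hw)) (hψ j w (hs' hw))).continuousAt.continuousWithinAt) cm))
      fun w hw => ⟨norm_nonneg _, ?_⟩
    have e1 : dir U (fun w => ld (H e) w + M.lc (u j) e w) w =
        U w i / W w i * dir W (fun w => ld (H e) w + M.lc (u j) e w) w := by
      rw [dir, dir, Finset.mul_sum]
      refine Finset.sum_congr rfl fun k _ => ?_
      rw [congrFun (prop (hUW w (hs' hw)) (hne w hw)) k, Pi.smul_apply, smul_eq_mul, mul_assoc]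
    rw [e1, ← mul_sub, norm_mul, mul_assoc]
    exact mul_le_mul (h6 () w hw) ((hB w (hs' hw)).2 j).2 (norm_nonneg _) hb.le
  refine ⟨F, hF, fun z hz => funext fun i => ?_⟩
  refine tendsto_nhds_unique_of_frequently_eq (f := fun w => F w * W w i)
    (g := fun w => D w * U w i) ((hF.continuousOn.continuousAt (isOpen_ball.mem_nhds hz)).mul
      ((hW i).continuousAt (hnb z hz))) ((hD.continuousAt (hnb z hz)).mul
        ((cU i).continuousAt (hnb z hz))) ?_
  exact ((hden z hz).and_eventually (isOpen_ball.mem_nhds hz)).mono fun w hw =>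
    congrFun (key w hw.2 hw.1) i

end Pool.Agent.Lib.NU4.Hx39
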