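import Pool.Agent.Lib.NU4.Blue
import Pool.Agent.Lib.NU4.Hv39
import Pool.Agent.Lib.HLK.All0
import Pool.Agent.Lib.K3E.B_KAN

/-! Project nu4, row N4H: a field that is tangent to the parallel direction. -/

open scoped Classical Topology ContDiff ComplexOrder Matrix
open Set Filter MeasureTheory Metric

set_option linter.unusedVariables false

noncomputable section

namespace Pool.Agent.Lib.NU4

open Pool.Agent.Lib.SV (E)
open Pool.Agent.Lib.HS32 Pool.Agent.Lib.HLK Pool.Agent.Lib.F4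
open Pool.Agent.Lib.K3E (kan wk lk)

namespace Hx39

theorem glue {n : ℕ} {U : Set (E n)} (hU : IsOpen U) {W Z : E n → E n}
    (hd : ∀ z ∈ U, ∃ᶠ w in 𝓝 z, W w ≠ 0) (h : ∀ z ∈ U, ∃ r : ℝ, 0 < r ∧ ∃ F : E n → ℂ,
      DifferentiableOn ℂ F (ball z r) ∧ ∀ w ∈ ball z r, F w • W w = Z w) :
    ∃ F : E n → ℂ, DifferentiableOn ℂ F U ∧ ∀ z ∈ U, F z • W z = Z z := by
  choose! r hr F hF e using h
  refine ⟨fun z => F z z, fun z hz => ?_, fun z hz => e z hz z (mem_ball_self (hr z hz))⟩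
  refine (((hF z hz).differentiableAt (ball_mem_nhds z (hr z hz))).congr_of_eventuallyEq
    ?_).differentiableWithinAt
  filter_upwards [hU.mem_nhds hz, ball_mem_nhds z (hr z hz)] with w h1 h2
  have n1 := ball_mem_nhds w (hr w h1)
  have n2 := isOpen_ball.mem_nhds h2
  refine tendsto_nhds_unique_of_frequently_eq ((hF w h1).continuousOn.continuousAt n1)
    ((hF z hz).continuousOn.continuousAt n2) ?_
  exact ((hd w h1).and_eventually (Eventually.and n1 n2)).mono fun y hy =>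
    smul_left_injective ℂ hy.1 ((e w h1 y hy.2.1).trans (e z hz y hy.2.2).symm)

end Hx39

open Hx39 in
theorem st_N4H (hFK : St_FK) (hPW : St_PW) (hLIE : St_LIE) (hKIT : St_KIT) (hIBP : St_IBP)
    (hNM : St_NM) : St_N4H := by
  intro n M _ H a W hc hW hnz hS hP e he U Y hU hUe hY hWY
  have hH := hc.kae.toMet
  have hW' : HT M (2 : ℕ) W := hW
  obtain ⟨v1, -, v3⟩ := (hKIT n M H 2 0 hH).2.1 W hW'
  obtain ⟨K1, -, -, -, K5, K6, K7, -⟩ := hKIT n M H 2 (vec M W) hH
  obtain ⟨sv, hv⟩ := K1.1 v1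
  have nz := v3.1 hnz
  have den : ∀ z ∈ e.target, ∃ᶠ w in 𝓝 z, W e w ≠ 0 := fun z hz =>
    ((K5 v1).2.2.2.2 inferInstance nz e he z hz).mono fun w hw h => hw (by simp [vec, h, crv])
  obtain ⟨ε₀, C, hε₀, hC⟩ := hc.out.itg 1 one_pos
  obtain ⟨ε, e1, e2, e3⟩ : ∃ ε : ℕ → ℝ, (∀ j, ε j ∈ Ioc (0 : ℝ) 1) ∧ (∀ j, ε j ≤ ε₀) ∧
      Tendsto ε atTop (𝓝 0) := by
    have m0 : 0 < min 1 ε₀ := lt_min one_pos hε₀
    have m1 : ∀ j : ℕ, min 1 ε₀ / (j + 1) ≤ min 1 ε₀ := fun j =>
      div_le_self m0.le (le_add_of_nonneg_left (Nat.cast_nonneg j))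
    refine ⟨fun j => min 1 ε₀ / (j + 1), fun j => ⟨by positivity, (m1 j).trans (min_le_left _ _)⟩,
      fun j => (m1 j).trans (min_le_right _ _), ?_⟩
    have := (tendsto_one_div_add_atTop_nhds_zero_nat (𝕜 := ℝ)).const_mul (min 1 ε₀)
    simpa [div_eq_mul_inv] using this
  have e4 : Tendsto ε atTop (𝓝[>] 0) :=
    tendsto_nhdsWithin_iff.2 ⟨e3, Eventually.of_forall fun j => (e1 j).1⟩
  have su := fun j => hc.out.sm _ (e1 j)
  have hT : ∀ j, M.Le 0 (om M H (ε j) (a (ε j))) := fun j => by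
    have := (hc.out.kae _ (e1 j)).toMet.nonneg
    rwa [zero_sub] at this
  have hTen : ∀ j, M.Ten (om M H (ε j) (a (ε j))) := fun j => by
    have := (hc.out.kae _ (e1 j)).toTen
    rwa [zero_sub] at this
  have wc := (K3E.bKAN n M H 2 hH).1
  have cu1 := fun j => aCU n M H _ _ _ _ hH (hTen j) wc sv
  have q0 : ∀ j x, 0 ≤ cu (om M H (ε j) (a (ε j))) (lk H 2) (vec M W) x := fun j x => by
    simpa using (cu1 j).2.2 0 le_rfl (by simpa using hT j) x
  have s1 : ∀ j, (lk H 2).Sec ((oP H (wt M H 2 (a (ε j)))).ap (vec M W)) := fun j =>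
    have s0 := aSP n M H _ _ _ hH (((aLAM n M H _ _ hH wc).2.2 _).1
      ((su j).const_mul (((2 : ℕ) : ℝ) - 1))).1 ⟨sv.sm, sv.cmp⟩
    ⟨s0.sm, s0.cmp⟩
  have R := fun j => (hKIT n M H 2 _ hH).2.2.2.2.2.2.1 (s1 j)
  refine glue hU (fun z hz => den z (hUe hz)) fun c hcU => ?_
  obtain ⟨r₀, hr₀, hb⟩ := nhds_basis_closedBall.mem_iff.1 (hU.mem_nhds hcU)
  have hb' : closedBall c (4 * (r₀ / 4)) ⊆ U := by rwa [mul_div_cancel₀ _ four_ne_zero]
  have hs := hb'.trans hUe
  obtain ⟨B, B1, hB⟩ := (mBD n M H hH).2.2.1 e he _ (isCompact_closedBall _ _) hs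
  have B0 : 0 < B := by linarith
  have hol : ∀ z ∈ e.target, HolV (W e) z := fun z hz => hW.hol e he z hz
  have one : ∀ z : E n, HolN (fun _ : E n => (1 : ℂ)) z := fun z =>
    Eventually.of_forall fun _ => differentiableAt_const _
  have lie := fun z hz => hLIE n _ _ _ _ z (hol z hz) (hol z hz) (hv e he z hz) (one z)
  refine ⟨r₀ / 4, by positivity, loc hc.kae atTop ε (fun j => a (ε j)) C (B ^ 2)
    (fun j => ⟨(e1 j).1.le, (e1 j).2⟩) e3 su (fun j => hc.out.le _ (e1 j)) hT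
    (fun j => by simpa using hC _ (e1 j) (e2 j)) he (by positivity) hs (fun z hz i => ?_)
    (fun i z hz => (hol z (hs hz) i).self_of_nhds.continuousAt.continuousWithinAt)
    (fun z hz => (lie z (hs hz)).2.1.self_of_nhds.continuousAt.continuousWithinAt)
    (fun z hz => ?_) (fun z hz => den z (hs (ball_subset_closedBall.trans
      (closedBall_subset_closedBall (by linarith)) hz))) (K7 sv).2.continuous
    (fun j => ⟨(cu1 j).2.1, q0 j⟩) (fun j => ⟨(R j).2.continuous.sqrt, fun _ => Real.sqrt_nonneg _⟩)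
    ?_ ?_ (by positivity) (fun z hz => ?_) fun η hη => ?_⟩
  · filter_upwards [hU.mem_nhds (hb' hz)] with w hw
    exact differentiableAt_pi.1 (hY.differentiableAt (hU.mem_nhds hw)) i
  · ext i j
    have := congrFun (congrFun (hWY z (hb' hz)) i) j
    simp only [wg, Matrix.of_apply, Matrix.zero_apply] at this ⊢
    linear_combination -this
  · obtain ⟨A, A0, hA⟩ := hS
    have := e3.const_mul A
    rw [mul_zero] at this
    exact squeeze_zero (fun j => integral_nonneg (q0 j))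
      (fun j => hA _ _ (e1 j).1.le (su j) (hT j)) this
  · simpa [Function.comp_def] using (hP 0).comp e4
  · have hz' := hs hz
    have P := hH.pos e he z hz'
    have D := Mf.pd_det_re P
    obtain ⟨-, -, b1, b2⟩ := hB z hz
    have b3 : (H e z).det.re ^ 2 ≤ B ^ 2 := by gcongr
    have b4 : 1 ≤ B ^ 2 * (H e z).det.re ^ 2 := by
      have := mul_le_mul_of_nonneg_left b1 B0.le
      rw [mul_inv_cancel₀ B0.ne'] at this
      nlinarith
    have pw := fun T => hPW n (H e z) T (W e z) 0 0 P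
    refine ⟨?_, fun j => ⟨?_, ?_⟩⟩
    · rw [(K7 sv).1 e he z hz']
      beta_reduce
      rw [vec, (pw 0).2.2.2.2.1, div_le_iff₀ (by positivity)]
      nlinarith [F4G.Sz44.nq0 P.posSemidef (W e z)]
    · have r1 : cu (om M H (ε j) (a (ε j))) (lk H 2) (vec M W) (e.symm z) =
          nq (om M H (ε j) (a (ε j)) e z) (W e z) / (H e z).det.re ^ 2 := by
        rw [(cu1 j).1 e he z hz', ← (pw _).2.2.2.2.2.1, cg]
        have r2 : Real.exp (-wk H 2 e z) = ((H e z).det.re ^ 2)⁻¹ := by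
          rw [wk, ← Real.log_pow, Real.exp_neg, Real.exp_log (by positivity)]
        simp only [lam, Matrix.smul_mulVec, dotProduct_smul, smul_eq_mul, r2, vec,
          mul_left_comm _ (((((H e z).det.re ^ 2)⁻¹ : ℝ)) : ℂ), ← Finset.mul_sum,
          Complex.re_ofReal_mul, div_eq_inv_mul]
      have := q0 j (e.symm z)
      rw [eq_div_iff (by positivity)] at r1
      rw [← r1, mul_comm]
      exact mul_le_mul_of_nonneg_right b3 this
    · have ib := (hIBP n M H 2 (vec M W) _ _ hc.kae (su j) (su j) sv).2.2.2.1 e he z hz'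
      have fk := fun t => hFK n (W e z) 0 t (H e z) 0 0
      have w2 : ∀ t, anv t *ᵥ vec M W e z = (t ⬝ᵥ W e z) • vac n := fun t => by
        have := congrArg (· *ᵥ vac n) (fk t).2.2.1
        simpa only [vec, Matrix.add_mulVec, ← Matrix.mulVec_mulVec, (fk t).2.2.2.2.2.2.2.2.2.2.2.1,
          Matrix.mulVec_zero, add_zero, Matrix.smul_mulVec, Matrix.one_mulVec] using this
      have sl : ContDiffAt ℝ ∞ (ld (H e)) z :=
        cd_ofReal ((mINV n M H hH).2.2.2.2.2.2.1.sm e he z hz')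
      have p : (oP H (wt M H 2 (a (ε j)))).ap (vec M W) e z = (dv (W e) z -
          dir (W e) (fun w => ld (H e) w + M.lc (a (ε j)) e w) z) • vac n := by
        rw [ib.2.1, ib.2.2, iot, w2, w2,
          show pf0 (vec M W e) z = _ from (lie z hz').2.2.2.2.2.2.2.2.2.2.2.1, smul_smul,
          smul_smul, ← sub_smul, ← sub_smul]
        congr 1
        simp only [dir, dotProduct, gd, dz_add (cd_diff sl) (cd_diff ((su j).lc e he z hz')),
          mul_comm (W e z _), add_mul, Finset.sum_add_distrib]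
        push_cast
        ring
      have v1 : star (vac n) ⬝ᵥ vac n = 1 := by simp [vac]
      rw [(R j).1 e he z hz']
      beta_reduce
      rw [p, ng, Matrix.mulVec_smul, (fk 0).2.2.2.2.2.2.2.2.2.2.2.2.1, star_smul,
        smul_dotProduct, dotProduct_smul, norm_sub_rev, v1, smul_eq_mul, smul_eq_mul, mul_one,
        Complex.star_def, Complex.conj_mul', ← Complex.ofReal_pow, Complex.ofReal_re, ← div_pow,
        Real.sqrt_sq (by positivity), ← mul_div_assoc, le_div_iff₀ D, mul_comm]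
      exact mul_le_mul_of_nonneg_right (by nlinarith) (norm_nonneg _)
  · obtain ⟨d, ε₁, d0, h1, h⟩ := hNM n M H a 2 _ η hc v1 nz hη
    exact ⟨d, d0, (e3.eventually (ge_mem_nhds h1)).mono fun j hj => h _ (e1 j) hj⟩

end Pool.Agent.Lib.NU4
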