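import Pool.Agent.Lib.NU4.Blue
import Pool.Agent.Lib.HLK.All0
import Pool.Agent.Lib.K3E.B_KAN
import Pool.Agent.Lib.HS32.EKit

/-! Project nu4: the covariant derivative along a field. -/

open scoped Classical Topology ContDiff ComplexOrder Matrix Kronecker
open Set Filter MeasureTheory

set_option linter.unusedVariables false

noncomputable section

namespace Pool.Agent.Lib.NU4

open Pool.Agent.Lib.SV (E)
open Pool.Agent.Lib.HS32 Pool.Agent.Lib.HLK Pool.Agent.Lib.F4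
open Pool.Agent.Lib.K3E (kan wk lk)

namespace Nab5

variable {n : ℕ} {M : Mf n} {H : M.Fam (Mat n)}

theorem p0_eq (hH : M.Met H) (m : ℕ) (W : M.Fam (Fs n → ℂ)) : M.All fun e z =>
    P0 M H m W e z = pf0 (W e) z - ((m : ℂ) - 1) • anv (gd (ld (H e)) z) *ᵥ W e z := by
  intro e he z hz
  have w : ContDiffAt ℝ ∞ (fun y => Real.log (H e y).det.re) z :=
    (mINV n M H hH).2.2.2.2.2.2.1.sm e he z hz
  have d : DifferentiableAt ℝ (ld (H e)) z :=
    cd_diff ((Complex.ofRealCLM.contDiff.contDiffAt).comp z w)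
  have e1 : (fun y => ((KP.T60.phC M H (wk H m) e y : ℝ) : ℂ)) =
      fun y => ((m : ℂ) - 1) * ld (H e) y := by
    funext y
    simp only [KP.T60.phC, wk, ld]
    push_cast
    ring
  simp only [Op.ap, oP, Matrix.zero_mulVec, add_zero, Matrix.sum_mulVec, Matrix.neg_mulVec,
    Matrix.smul_mulVec, sub_eq_add_neg, pf0, anv, gd, Finset.smul_sum, smul_smul]
  rw [show (fun y => ((KP.T60.phC M H (wk H m) e y : ℝ) : ℂ)) =
      fun y => ((m : ℂ) - 1) * ld (H e) y from e1]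
  simp only [dz_const_mul _ d, sub_eq_add_neg]

theorem p0_cmp (hH : M.Met H) {m : ℕ} {W : M.Fam (Fs n → ℂ)} (hW : (lk H m).Sec W) :
    M.Ov fun e e' x => P0 M H m W e (e x) =
      (jd M e e' x ^ m)⁻¹ • La (M.J e e' x) *ᵥ P0 M H m W e' (e' x) := by
  intro e he e' he' x hx hx'
  have h := (aSP n M H _ _ W hH (K3E.bKAN n M H m hH).1 hW).cmp e he e' he' x hx hx'
  have h2 : P0 M H m W e (e x) =
      ((jd M e e' x ^ m * 1)⁻¹ • La (M.J e e' x)) *ᵥ P0 M H m W e' (e' x) := h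
  rw [h2, mul_one, Matrix.smul_mulVec]

theorem ev_of {F : Type} [Zero F] {u : M.Fam F} (h : Zr M u) {e : M.Ch} (he : e ∈ M.C) {z : E n}
    (hz : z ∈ e.target) : ∀ᶠ w in 𝓝 z, u e w = 0 :=
  (e.open_target.eventually_mem hz).mono fun w hw => h e he w hw

theorem anv_single (k : Fin n) : anv (Pi.single k (1 : ℂ) : E n) = an k := by
  simp only [anv]
  rw [Finset.sum_eq_single k]
  · simp
  · intro j _ hj
    simp [Pi.single_eq_of_ne hj]
  · simp

theorem hol0 (z : E n) : HolN (fun _ : E n => (0 : ℂ)) z :=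
  Eventually.of_forall fun _ => differentiableAt_const _

end Nab5

open Nab5

theorem st_NAB (hFK : St_FK) (hLIE : St_LIE) (hKIT : St_KIT) : St_NAB := by
  intro n M H m l W ρ hH hm hW hρ hz
  have m1 : (m : ℂ) - 1 ≠ 0 := by
    have : (m : ℂ) ≠ 1 := by exact_mod_cast (by omega : m ≠ 1)
    exact sub_ne_zero.2 this
  have hv : HM M m (vec M W) := ((hKIT n M H m ρ hH).2.1 W hW).1
  have sv : (lk H m).Sec (vec M W) := ((hKIT n M H m (vec M W) hH).1.1 hv).1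
  have sρ : (lk H l).Sec ρ := ((hKIT n M H l ρ hH).1.1 hρ).1
  have L := fun e he z hz' => hLIE n (W e) (W e) (ρ e) (fun _ => 0) z (hW.hol e he z hz')
    (hW.hol e he z hz') (hρ.hol e he z hz') (hol0 z)
  have car : ∀ (v a : E n) (Y : Fs n → ℂ), crv v *ᵥ anv a *ᵥ Y =
      (a ⬝ᵥ v) • Y - anv a *ᵥ crv v *ᵥ Y := fun v a Y => by
    rw [eq_sub_iff_add_eq, Matrix.mulVec_mulVec, Matrix.mulVec_mulVec, ← Matrix.add_mulVec,
      add_comm, (hFK n v v a 1 0 Y).2.2.1, Matrix.smul_mulVec, Matrix.one_mulVec]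
  have dl : M.All fun e z => P0 M H m (vec M W) e z =
      (dv (W e) z - ((m : ℂ) - 1) * (gd (ld (H e)) z ⬝ᵥ W e z)) • vac n := by
    intro e he z hz'
    have h1 : pf0 (vec M W e) z = dv (W e) z • vac n := (L e he z hz').2.2.2.2.2.2.2.2.2.2.2.1
    have h2 := car (W e z) (gd (ld (H e)) z) (vac n)
    rw [(hFK n (W e z) (W e z) (gd (ld (H e)) z) 1 0 0).2.2.2.2.2.2.2.2.2.2.2.1,
      Matrix.mulVec_zero, eq_comm, sub_eq_zero] at h2
    rw [p0_eq hH m _ e he z hz', h1, sub_smul (dv (W e) z), mul_smul, h2]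
    rfl
  have nb : M.All fun e z => nab M m l W ρ e z = crv (W e z) *ᵥ P0 M H l ρ e z -
      (((l : ℂ) - 1) / ((m : ℂ) - 1) *
        (dv (W e) z - ((m : ℂ) - 1) * (gd (ld (H e)) z ⬝ᵥ W e z))) • ρ e z := by
    intro e he z hz'
    have h0 : crv (W e z) *ᵥ ρ e z = 0 := hz e he z hz'
    rw [p0_eq hH l _ e he z hz', Matrix.mulVec_sub, Matrix.mulVec_smul, car, h0,
      Matrix.mulVec_zero, sub_zero, smul_smul, sub_sub, ← add_smul]
    have : ((l : ℂ) - 1) * (gd (ld (H e)) z ⬝ᵥ W e z) + ((l : ℂ) - 1) / ((m : ℂ) - 1) *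
        (dv (W e) z - ((m : ℂ) - 1) * (gd (ld (H e)) z ⬝ᵥ W e z)) =
        ((l : ℂ) - 1) / ((m : ℂ) - 1) * dv (W e) z := by
      field_simp
      ring
    rw [this]
    rfl
  have v1 : vac n ∅ = 1 := Pi.single_eq_same _ _
  refine ⟨⟨fun e he z hz' A => ?_, fun e he e' he' x hx hx' => ?_⟩, fun e he z hz' => ?_,
    fun q hq e he z hz' => ?_, fun h0 e he z hz' => ?_, fun V hV h0 e he z hz' => ?_⟩
  · filter_upwards [(L e he z hz').2.2.2.2.1 A, (L e he z hz').2.1, hρ.hol e he z hz' A] with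
      w h1 h2 h3
    exact h1.sub (((differentiableAt_const _).mul h2).mul h3)
  · have d : jd M e e' x ≠ 0 := ((mTR n M).2.1 e he e' he' x hx hx').2.1
    have h1 := p0_cmp hH sv e he e' he' x hx hx'
    have h2 := p0_cmp hH sρ e he e' he' x hx hx'
    have h3 := hρ.cmp e he e' he' x hx hx'
    have h4 := hW.cmp e he e' he' x hx hx'
    have F := hFK n (W e' (e' x)) (W e' (e' x)) 0 (M.J e e' x) 0 0
    simp only [zpow_natCast] at h1 h2 h3 h4
    rw [dl e he _ (e.map_source hx), dl e' he' _ (e'.map_source hx'), Matrix.mulVec_smul,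
      F.2.2.2.2.2.2.2.2.2.2.2.2.1, smul_smul] at h1
    have h5 := congrFun h1 ∅
    simp only [Pi.smul_apply, v1, smul_eq_mul, mul_one] at h5
    have h6 : W e (e x) = (jd M e e' x ^ m)⁻¹ • M.J e e' x *ᵥ W e' (e' x) := by
      rw [h4, smul_smul, inv_mul_cancel₀ (pow_ne_zero m d), one_smul]
    show nab M m l W ρ e (e x) = _
    rw [nb e he _ (e.map_source hx), nb e' he' _ (e'.map_source hx'), h5, h2]
    generalize dv (W e') (e' x) - ((m : ℂ) - 1) * (gd (ld (H e')) (e' x) ⬝ᵥ W e' (e' x)) = δ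
    rw [h3, h6, (hFK n (M.J e e' x *ᵥ W e' (e' x)) 0 0 1 _ 0).2.2.2.2.2.2.2.1,
      Matrix.smul_mulVec, Matrix.mulVec_smul, Matrix.mulVec_mulVec, ← F.2.2.2.1,
      ← Matrix.mulVec_mulVec, Matrix.mulVec_sub, Matrix.mulVec_smul, smul_sub, smul_smul,
      smul_smul, smul_smul, pow_add, mul_inv]
    congr 2
    ring
  · have h0 : crv (W e z) *ᵥ ρ e z = 0 := hz e he z hz'
    show crv (W e z) *ᵥ (crv (W e z) *ᵥ pf0 (ρ e) z - _ • ρ e z) = 0
    rw [Matrix.mulVec_sub, Matrix.mulVec_smul, h0, Matrix.mulVec_mulVec,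
      (hFK n (W e z) 0 0 1 0 0).2.1, Matrix.zero_mulVec, smul_zero, sub_zero]
  · have g1 : ∀ k, Dg q (dzv k (ρ e) z) := fun k A hA => by
      have : (fun w => ρ e w A) =ᶠ[𝓝 z] fun _ => 0 :=
        (e.open_target.eventually_mem hz').mono fun w hw => hq e he w hw A hA
      show dz k (fun w => ρ e w A) z = 0
      rw [dz_congr this, dz_const]
    have g2 : ∀ k, Dg q (crv (W e z) *ᵥ an k *ᵥ dzv k (ρ e) z) := fun k => by
      have F := hFK n (W e z) 0 (Pi.single k 1) 1 0 (dzv k (ρ e) z)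
      rcases Nat.eq_zero_or_pos q with rfl | hq0
      · rw [F.2.2.2.2.2.2.2.2.2.2.2.2.2.2.2.2.1 (g1 k), Matrix.mulVec_smul, ← anv_single,
          F.2.2.2.2.2.2.2.2.2.2.2.1, smul_zero, Matrix.mulVec_zero]
        exact fun _ _ => rfl
      · have t := (F.2.2.2.2.2.2.2.2.2.2.2.2.2.2.2.2.2.2.2.2 q (g1 k)).2.2.1
        have t2 := ((hFK n (W e z) 0 0 1 0 _).2.2.2.2.2.2.2.2.2.2.2.2.2.2.2.2.2.2.2.2 _ t).1
        rwa [Nat.sub_add_cancel hq0, anv_single] at t2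
    intro A hA
    show (crv (W e z) *ᵥ (∑ k, an k *ᵥ dzv k (ρ e) z)) A - _ * ρ e z A = 0
    rw [hq e he z hz' A hA, mul_zero, sub_zero, Matrix.mulVec_sum, Finset.sum_apply]
    exact Finset.sum_eq_zero fun k _ => g2 k A hA
  · have g1 : ∀ k, dzv k (ρ e) z = 0 := fun k => funext fun A => by
      have : (fun w => ρ e w A) =ᶠ[𝓝 z] fun _ => 0 :=
        (ev_of h0 he hz').mono fun w hw => congrFun hw A
      show dz k (fun w => ρ e w A) z = 0
      rw [dz_congr this, dz_const]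
    have g2 : ρ e z = 0 := h0 e he z hz'
    show crv (W e z) *ᵥ (∑ k, an k *ᵥ dzv k (ρ e) z) - _ • ρ e z = 0
    simp only [g1, g2, Matrix.mulVec_zero, Finset.sum_const_zero, smul_zero, sub_zero]
  · have L1 := hLIE n (W e) (V e) (ρ e) (fun _ => 0) z (hW.hol e he z hz') (hV.hol e he z hz')
      (hρ.hol e he z hz') (hol0 z)
    have L2 := hLIE n (V e) (V e) (ρ e) (fun _ => 0) z (hV.hol e he z hz') (hV.hol e he z hz')
      (hρ.hol e he z hz') (hol0 z)
    have L3 := hLIE n (W e) (V e) (fun w => crv (V e w) *ᵥ ρ e w) (fun _ => 0) z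
      (hW.hol e he z hz') (hV.hol e he z hz') L2.2.2.2.2.2.2.1 (hol0 z)
    have z1 : ∀ᶠ w in 𝓝 z, crv (W e w) *ᵥ ρ e w = 0 := ev_of hz he hz'
    have z2 : ∀ᶠ w in 𝓝 z, crv (W e w) *ᵥ crv (V e w) *ᵥ ρ e w = 0 := z1.mono fun w hw => by
      rw [Matrix.mulVec_mulVec, (hFK n (W e w) (V e w) 0 1 0 0).1, Matrix.neg_mulVec,
        ← Matrix.mulVec_mulVec, hw, Matrix.mulVec_zero, neg_zero]
    have a1 := L1.2.2.2.2.2.2.2.1 z1
    have a2 := L3.2.2.2.2.2.2.2.1 z2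
    have a3 := L1.2.2.2.2.2.2.2.2.1
    have a4 : lie (W e) (ρ e) z - (((l : ℂ) - 1) / ((m : ℂ) - 1) * dv (W e) z) • ρ e z = 0 :=
      h0 e he z hz'
    rw [a1, sub_eq_zero, ← eq_sub_iff_add_eq, ← sub_smul] at a4
    have F := hFK n (br (W e) (V e) z) ((dv (W e) z / ((m : ℂ) - 1)) • V e z) 0 1 0 0
    show lie (W e) (fun w => crv (V e w) *ᵥ ρ e w) z -
      ((((1 + l : ℕ) : ℂ) - 1) / ((m : ℂ) - 1) * dv (W e) z) • crv (V e z) *ᵥ ρ e z =
      crv (br (W e) (V e) z - (dv (W e) z / ((m : ℂ) - 1)) • V e z) *ᵥ ρ e z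
    rw [a2, a3, a4, F.2.2.2.2.2.2.1, (hFK n (V e z) 0 0 1 _ 0).2.2.2.2.2.2.2.1,
      Matrix.sub_mulVec, Matrix.smul_mulVec, Matrix.mulVec_smul, add_assoc, ← add_smul,
      add_sub_assoc, ← sub_smul, sub_eq_add_neg (crv _ *ᵥ _), ← neg_smul]
    congr 2
    push_cast
    field_simp
    ring

end Pool.Agent.Lib.NU4
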