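import Pool.Agent.Lib.NU4.Blue

/-! Project nu4: the corrected bracket is tangent to the plane. -/

open scoped Classical Topology ContDiff ComplexOrder Matrix
open Set Filter MeasureTheory

set_option linter.unusedVariables false

noncomputable section

namespace Pool.Agent.Lib.NU4

open Pool.Agent.Lib.SV (E)
open Pool.Agent.Lib.HS32 Pool.Agent.Lib.HLK Pool.Agent.Lib.F4

namespace NIL

variable {n : ℕ}

/-- The levels. -/
def lv : ℕ → ℕ
  | 0 => 1 + 2
  | j + 1 => 2 + lv j

theorem lv_mono : StrictMono lv := strictMono_nat_of_lt_succ fun j => by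
  show lv j < 2 + lv j
  omega

theorem lv_pos (j : ℕ) : 0 < lv j := lt_of_lt_of_le (by decide) (lv_mono.monotone j.zero_le)

/-- The iterated covariant derivatives. -/
def rho (M : Mf n) (W : M.Fam (E n)) (ρ : M.Fam (Fs n → ℂ)) : ℕ → M.Fam (Fs n → ℂ)
  | 0 => ρ
  | j + 1 => nab M 2 (lv j) W (rho M W ρ j)

/-- The iterated brackets. -/
def ys (w v : E n → E n) : ℕ → E n → E n
  | 0 => v
  | j + 1 => fun z => br w (ys w v j) z - (((lv j : ℂ) - 2) * dv w z) • ys w v j z

theorem lie_congr {v : E n → E n} {A B : E n → Fs n → ℂ} {z : E n} (h : A =ᶠ[𝓝 z] B) :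
    lie v A z = lie v B z := by
  have k : ∀ j, dzv j A z = dzv j B z := fun j => funext fun i =>
    dz_congr (h.mono fun w hw => congrFun hw i)
  simp only [lie, pf0, k]

theorem ys_hol (hL : St_LIE) {w v : E n → E n} {z : E n} (hw : HolV w z) (hv : HolV v z) :
    ∀ j, HolV (ys w v j) z
  | 0 => hv
  | j + 1 => fun i => by
    have h := ys_hol hL hw hv j
    obtain ⟨-, a, b, -⟩ := hL n w (ys w v j) (fun _ _ => 0) (fun _ => 0) z hw h
      (fun _ => Eventually.of_forall fun _ => differentiableAt_const _)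
      (Eventually.of_forall fun _ => differentiableAt_const _)
    filter_upwards [a, b i, h i] with x a b c
    exact b.sub ((a.const_mul _).mul c)

theorem swap (hF : St_FK) {w y : E n} {π : Fs n → ℂ} (h : crv w *ᵥ π = 0) :
    crv w *ᵥ crv y *ᵥ π = 0 := by
  rw [Matrix.mulVec_mulVec, (hF n w y 0 0 0 π).1, Matrix.neg_mulVec, ← Matrix.mulVec_mulVec, h,
    Matrix.mulVec_zero, neg_zero]

/-- One step in a chart. -/
theorem step (hF : St_FK) (hL : St_LIE) {w y : E n → E n} {π : E n → Fs n → ℂ} {z : E n}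
    (hw : HolV w z) (hy : HolV y z) (hπ : HolV π z) (h0 : ∀ᶠ x in 𝓝 z, crv (w x) *ᵥ π x = 0)
    (h1 : lie w π z = dv w z • π z) (c : ℂ) :
    lie w (fun x => crv (y x) *ᵥ π x) z - ((c - 1) / (((2 : ℕ) : ℂ) - 1) * dv w z) •
      crv (y z) *ᵥ π z = crv (br w y z - ((c - 2) * dv w z) • y z) *ᵥ π z := by
  have z0 : HolN (fun _ : E n => (0 : ℂ)) z := Eventually.of_forall fun _ => differentiableAt_const _
  obtain ⟨-, -, -, -, -, -, -, a, b, -⟩ := hL n w y π _ z hw hy hπ z0
  have k := (hL n y y π _ z hy hy hπ z0).2.2.2.2.2.2.1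
  have d := (hL n w y _ _ z hw hy k z0).2.2.2.2.2.2.2.1 (h0.mono fun x hx => swap hF hx)
  have e : lder w π z = 0 := by
    rw [a h0] at h1
    exact add_eq_right.1 h1
  have f := hF n (br w y z) (((c - 2) * dv w z) • y z) 0 0 0 (π z)
  rw [d, b, e, Matrix.mulVec_zero, add_zero, f.2.2.2.2.2.2.1,
    (hF n (y z) 0 0 0 ((c - 2) * dv w z) (π z)).2.2.2.2.2.2.2.1, Matrix.sub_mulVec,
    Matrix.smul_mulVec]
  have g : (c - 1) / (((2 : ℕ) : ℂ) - 1) = c - 1 := by norm_num
  rw [g]
  module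

theorem loc (hF : St_FK) (hL : St_LIE) {M : Mf n} {W V : M.Fam (E n)} {π : M.Fam (Fs n → ℂ)}
    (hW : Hol W) (hV : Hol V) (hπ : Hol π) (h0 : Zr M (wd M W π)) (h1 : Zr M (nab M 2 2 W π)) :
    ∀ j, M.All fun e z => rho M W (wd M V π) j e z = crv (ys (W e) (V e) j z) *ᵥ π e z
  | 0 => fun _ _ _ _ => rfl
  | j + 1 => fun e he z hz => by
    have ih := loc hF hL hW hV hπ h0 h1 j e he
    have nb := e.open_target.mem_nhds hz
    have l : lie (W e) (π e) z = dv (W e) z • π e z := by
      have := h1 e he z hz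
      simp only [nab] at this
      rwa [div_self (by norm_num), one_mul, sub_eq_zero] at this
    have s := step hF hL (hW e he z hz) (ys_hol hL (hW e he z hz) (hV e he z hz) j)
      (hπ e he z hz) (by filter_upwards [nb] with x hx using h0 e he x hx) l (lv j)
    show nab M 2 (lv j) W (rho M W (wd M V π) j) e z = _
    simp only [nab]
    rw [lie_congr (B := fun x => crv (ys (W e) (V e) j x) *ᵥ π e x)
      (by filter_upwards [nb] with x hx using ih x hx), ih z hz]
    exact s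

theorem cont {σ : Type} {M : Mf n} {U : M.Fam (σ → ℂ)} (h : Hol U) :
    M.All fun e z => ∀ i, ContinuousAt (fun w => U e w i) z :=
  fun e he z hz i => (h e he z hz i).self_of_nhds.continuousAt

/-- Two dense open sets. -/
theorem den2 {σ F : Type} [Zero F] {M : Mf n} {U : M.Fam (σ → ℂ)} {u : M.Fam F} (h : Hol U)
    (hU : Den M U) (hu : Den M u) :
    M.All fun e z => ∃ᶠ w in 𝓝 z, w ∈ e.target ∧ U e w ≠ 0 ∧ u e w ≠ 0 := fun e he z hz => by
  refine frequently_frequently_nhds.1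
    (((hU e he z hz).and_eventually (e.open_target.mem_nhds hz)).mono fun x hx => ?_)
  have c : ContinuousAt (U e) x := continuousAt_pi.2 (cont h e he x hx.2)
  exact ((hu e he x hx.2).and_eventually
    ((c.eventually_ne hx.1).and (e.open_target.mem_nhds hx.2))).mono
    fun y hy => ⟨hy.2.2, hy.2.1, hy.1⟩

end NIL

open NIL in
theorem st_NIL (hF : St_FK) (hA : St_ALG) (hL : St_LIE) (hK : St_KIT) (hI : St_INF)
    (hN : St_NAB) (hR : St_REC) : St_NIL := by
  intro M _ H a W V π cx no hW nW pW hV hπ dπ h0 h1 nV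
  have hH := cx.kae.toMet
  have r0 : HM M (lv 0) (wd M V π) := ((hK 4 M H 2 π hH).2.2.1 1 V hV).1 hπ
  have lc := loc hF hL hW.hol hV.hol hπ.hol h0 h1
  have wz : ∀ j, Zr M (wd M W (rho M W (wd M V π) j)) := fun j e he z hz => by
    show crv (W e z) *ᵥ rho M W (wd M V π) j e z = 0
    rw [lc j e he z hz]
    exact swap hF (h0 e he z hz)
  have hm : ∀ j, HM M (lv j) (rho M W (wd M V π) j) := fun j => by
    induction j with
    | zero => exact r0
    | succ j ih => exact (hN 4 M H 2 (lv j) W _ hH le_rfl hW ih (wz j)).1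
  have vz : ∀ j, Zr M (wd M V (rho M W (wd M V π) j)) := fun j e he z hz => by
    have u : HM M (1 + lv j) (wd M V (rho M W (wd M V π) j)) :=
      ((hK 4 M H (lv j) _ hH).2.2.1 1 V hV).1 (hm j)
    have t := no _ (by have := lv_pos j; omega) _
      (((hK 4 M H (1 + lv j) _ hH).2.2.2.2.1 u).2.2.2.1 (by omega)) e he z hz
    have d : Dg 4 (wd M V (rho M W (wd M V π) j) e z) := by
      show Dg 4 (crv (V e z) *ᵥ rho M W (wd M V π) j e z)
      rw [lc j e he z hz]
      exact ((hF 4 (V e z) 0 0 0 0 _).2.2.2.2.2.2.2.2.2.2.2.2.2.2.2.2.2.2.2.2 3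
        ((hF 4 _ 0 0 0 0 _).2.2.2.2.2.2.2.2.2.2.2.2.2.2.2.2.2.2.2.2 2 (dπ e he z hz)).1).1
    funext A
    by_cases c : A.card = 4
    · rw [Finset.eq_univ_of_card A (by simpa using c)]
      exact t
    · exact d A c
  obtain ⟨k1, -, k2⟩ := (hK 4 M H 2 π hH).2.1 W hW
  have dn := den2 r0.hol (((hK 4 M H (lv 0) _ hH).2.2.2.2.1 r0).2.2.2.2 ‹_› nV)
    (((hK 4 M H 2 _ hH).2.2.2.2.1 k1).2.2.2.2 ‹_› (k2.1 nW))
  have mu : ∀ j, M.All fun e z => wd M V π e z ≠ 0 → vec M W e z ≠ 0 →
      ∃ c : ℂ, rho M W (wd M V π) j e z = c • wd M V π e z := fun j e he z hz p q => by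
    have t : crv (V e z) *ᵥ rho M W (wd M V π) j e z = 0 := vz j e he z hz
    rw [lc j e he z hz] at t ⊢
    exact hA.2 (W e z) _ (V e z) (π e z) (dπ e he z hz) (fun w0 => q (by simp [vec, crv, w0]))
      (h0 e he z hz) p t
  have pr : ∀ j, M.All fun e z =>
      Pr (rho M W (wd M V π) j e z) (rho M W (wd M V π) (j + 1) e z) := fun j e he z hz I J => by
    have c := fun i => cont (hm i).hol e he z hz
    refine tendsto_nhds_unique_of_frequently_eq ((c j I).mul (c (j + 1) J))
      ((c j J).mul (c (j + 1) I)) ((dn e he z hz).mono fun x hx => ?_)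
    obtain ⟨s, hs⟩ := mu j e he x hx.1 hx.2.1 hx.2.2
    obtain ⟨t, ht⟩ := mu (j + 1) e he x hx.1 hx.2.1 hx.2.2
    simp only [Pi.mul_apply]
    rw [hs, ht]
    simp only [Pi.smul_apply, smul_eq_mul]
    ring
  have dw : ∀ j, Zr M (rho M W (wd M V π) (j + 1)) → Zr M (rho M W (wd M V π) 1) := fun j => by
    induction j with
    | zero => exact id
    | succ j ih =>
      exact fun h => ih (hR 4 M H a (lv j) W _ _ cx hW pW (hm j) (hm (j + 1)) (wz j) (wz (j + 1))
        (fun e he z hz => ⟨rfl, pr j e he z hz⟩) h)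
  have ex : ∃ j, Zr M (rho M W (wd M V π) (j + 1)) := by
    by_contra! c
    refine (infinite_of_injective_forall_mem (f := fun j => lv (j + 1))
      (s := {m | ∃ U, HM M m U ∧ Nz U})
      (fun i j h => by simpa using lv_mono.injective h) fun j => ⟨_, hm (j + 1), ?_⟩)
      (hI 4 M H a cx no).1
    by_contra k
    exact c j fun e he z hz => by_contra fun p => k ⟨e, he, z, hz, p⟩
  obtain ⟨j, hj⟩ := ex
  intro e he z hz
  have t : rho M W (wd M V π) 1 e z = 0 := dw j hj e he z hz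
  rw [lc 1 e he z hz] at t
  have u : ys (W e) (V e) 1 z = yy M 2 W V e z := by
    simp only [ys, yy, lv]
    congr 2
    norm_num
  show crv (yy M 2 W V e z) *ᵥ π e z = 0
  rwa [← u]

end Pool.Agent.Lib.NU4
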