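import Pool.Agent.Lib.NU4.Blue
import Pool.Agent.Lib.NU4.Nm43b
import Pool.Agent.Lib.HLK.All0
import Pool.Agent.Lib.K3E.B_KAN

/-! Project nu4, rows NM and NMU: no mass near the zero set, and its consequences. -/

open scoped Classical Topology ContDiff ComplexOrder Matrix
open Set Filter MeasureTheory

noncomputable section

namespace Pool.Agent.Lib.NU4

open Pool.Agent.Lib.SV (E)
open Pool.Agent.Lib.HS32 Pool.Agent.Lib.HLK Pool.Agent.Lib.F4
open Pool.Agent.Lib.K3E (kan wk lk)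

namespace NM

variable {n : ℕ} {M : Mf n} {H : M.Fam (Mat n)}

theorem ok (hH : M.Met H) (m : ℕ) : (lk H m).Ok :=
  (aLAM n M H _ _ hH (K3E.bKAN n M H m hH).1).1

theorem ric_ten (hH : M.Met H) : M.Ten (-M.ric H) :=
  ((mHES n M).2.2.2.2.2.2.2.2.1 H hH).toTen.neg

theorem om_ten (hH : M.Met H) (ε : ℝ) {u : M.X → ℝ} (hu : M.Sm u) : M.Ten (om M H ε u) :=
  ((ric_ten hH).add (hH.toTen.smul _)).add ((mHES n M).1 _ hu).toTen

theorem cu_cont (hH : M.Met H) {m : ℕ} {W : M.Fam (Fs n → ℂ)} (hW : (lk H m).Sec W) (ε : ℝ)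
    {u : M.X → ℝ} (hu : M.Sm u) : Continuous (cu (om M H ε u) (lk H m) W) :=
  (aCU n M H _ _ _ W hH (om_ten hH ε hu) (K3E.bKAN n M H m hH).1 hW).2.1

theorem psd {T : M.Fam (Mat n)} (h : M.Le 0 T) (x : M.X) : (M.ev T x).PosSemidef := by
  have := Mf.AllOn.ch h x
  rwa [Pi.zero_apply, Pi.zero_apply, sub_zero] at this

theorem bnd [M.Cpt] (hH : M.Met H) {m : ℕ} {W : M.Fam (Fs n → ℂ)} (hW : (lk H m).Sec W) :
    ∃ B : ℝ, 0 < B ∧ ∀ x, (lk H m).pn W x ≤ B := by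
  obtain ⟨B, B0, hB⟩ := (Nm43.pn_rep (ok hH m) hW).2.1.exists_bound
  exact ⟨B, B0, fun x => (le_abs_self _).trans (hB x)⟩

theorem n0_of (hK : St_KIT) (hP : St_PW) [M.Cpt] {a : ℝ → M.X → ℝ} {m l : ℕ}
    {W U : M.Fam (Fs n → ℂ)} (hc : Cx M H a) (hW : HM M m W) (hS : Sml M H m W) (nz : Nz W)
    (hU : (lk H l).Sec U) (h : ∀ x (T : Mat n), T.PosSemidef → ng (M.ev H x) (M.ev W x) *
      cg (M.ev H x) T (M.ev U x) ≤ ng (M.ev H x) (M.ev U x) * cg (M.ev H x) T (M.ev W x)) :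
    N0 M H a l U := by
  have hH := hc.kae.toMet
  obtain ⟨sW, hol⟩ := (hK n M H m W hH).1.1 hW
  obtain ⟨B, B0, hB⟩ := bnd hH hU
  obtain ⟨C, C0, hC⟩ := hS
  obtain ⟨o1, o2⟩ := Nm43.out_hyp hc.out (ε := fun t : ℝ => t) (l := 𝓝[>] 0) tendsto_id
  have e0 : ∀ᶠ t in 𝓝[>] (0 : ℝ), t ∈ Ioc (0 : ℝ) 1 := Ioc_mem_nhdsGT one_pos
  have kW := (hK n M H m W hH).2.2.2.2.2.1
  have kU := (hK n M H l U hH).2.2.2.2.2.1
  have pw := fun x T W => hP n (M.ev H x) T 0 0 W (hH.ev_pos x)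
  have dp := fun x => Mf.pd_det_re (hH.ev_pos x)
  have t := Nm43.sm_nm hc.kae (ric_ten hH) (ok hH m) sW hol nz (C := B)
    (g := fun t => cu (om M H t (a t)) (lk H l) U)
    (h := fun t x => B * cu (om M H t (a t)) (lk H m) W x) o1 o2 ?_ ?_
  · intro η hη
    obtain ⟨ε, h1, h2, h3⟩ := (e0.and ((show ∀ᶠ t in 𝓝[>] (0 : ℝ), t ∈ Ioc (0 : ℝ) η from
      Ioc_mem_nhdsGT hη).and (t.eventually (gt_mem_nhds hη)))).exists
    exact ⟨ε, h1, h2.2, h3.le⟩
  · filter_upwards [o1] with t ⟨_, u2, _, u4⟩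
    refine ⟨cu_cont hH hU t u2, continuous_const.mul (cu_cont hH sW t u2), fun x => ?_⟩
    have p := psd (T := om M H t (a t)) u4 x
    obtain ⟨a1, a2, -⟩ := (pw x _ (M.ev U x)).2.2.2.2.2.2.2.2 p
    have a3 := ((pw x _ (M.ev W x)).2.2.2.2.2.2.2.2 p).1
    have b := hB x
    have dl := pow_pos (dp x) l
    have dm := pow_pos (dp x) m
    have t0 : 0 ≤ M.tr H (om M H t (a t)) x := hH.tr_nonneg u4 x
    rw [(kU x).1] at b
    rw [(kU x).2, (kW x).1, (kW x).2]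
    refine ⟨div_nonneg a1 dl.le, ?_, ?_⟩
    · refine (div_le_div_of_nonneg_right a2 dl.le).trans ?_
      rw [mul_div_assoc, mul_comm B]
      exact mul_le_mul_of_nonneg_left b t0
    · refine le_trans ?_ (mul_le_mul_of_nonneg_right b (div_nonneg a3 dm.le))
      rw [div_mul_div_comm, div_mul_div_comm, mul_comm (_ ^ m)]
      exact div_le_div_of_nonneg_right (h x _ p) (mul_pos dl dm).le
  · have t1 : Tendsto (fun t : ℝ => B * (C * t)) (𝓝[>] 0) (𝓝 0) := by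
      have : Tendsto (fun t : ℝ => B * (C * t)) (𝓝 0) (𝓝 (B * (C * 0))) :=
        (continuous_const.mul (continuous_const.mul continuous_id)).tendsto 0
      rw [mul_zero, mul_zero] at this
      exact this.mono_left nhdsWithin_le_nhds
    refine squeeze_zero' ?_ ?_ t1
    · filter_upwards [o1] with t ⟨_, _, _, u4⟩
      refine integral_nonneg fun x => mul_nonneg B0.le ?_
      rw [(kW x).2]
      exact div_nonneg ((pw x _ (M.ev W x)).2.2.2.2.2.2.2.2 (psd u4 x)).1 (pow_pos (dp x) m).le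
    · filter_upwards [o1, e0] with t ⟨_, u2, _, u4⟩ ht
      rw [integral_const_mul]
      exact mul_le_mul_of_nonneg_left (hC t _ ht.1.le u2 u4) B0.le

end NM

open NM in
theorem st_NM (hK : St_KIT) : St_NM := by
  intro n M _ H a m W η hc hW nz hη
  have hH := hc.kae.toMet
  obtain ⟨sW, hol⟩ := (hK n M H m W hH).1.1 hW
  obtain ⟨p, hp, k⟩ := Nm43.nm_sec hc.kae (ric_ten hH) (ok hH m) sW hol nz η hη
  obtain ⟨ε₀, C, e0, h⟩ := hc.out.itg p (by exact_mod_cast hp)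
  obtain ⟨s, s0, k⟩ := k C
  refine ⟨s, ε₀, s0, e0, fun ε hε h0 => k ε _ hε.2 (hc.out.sm ε hε) (hc.out.le ε hε) ?_
    (h ε hε h0)⟩
  have := (hc.out.kae ε hε).toMet.nonneg
  rwa [zero_sub] at this

open NM in
theorem st_NMU (hK : St_KIT) (hP : St_PW) : St_NMU := by
  intro n M _ H a m l W hc hW hS
  have hH := hc.kae.toMet
  have I := (mMU n M H hH).2.2.2.2.1 ℝ
  have K := hK n M H m W hH
  obtain ⟨sW, -⟩ := K.1.1 hW
  have pw := fun x T v W => hP n (M.ev H x) T v 0 W (hH.ev_pos x)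
  have dp := fun x => Mf.pd_det_re (hH.ev_pos x)
  have sv : ∀ V, HT M l V → (lk H l).Sec (vec M V) := fun V hV =>
    ((hK n M H l _ hH).1.1 ((hK n M H l W hH).2.1 V hV).1).1
  refine ⟨fun q => ?_, fun V hV hV' => ?_, fun nz => ⟨fun V hV h0 => ?_, fun U hU h => ?_⟩⟩
  · obtain ⟨C, C0, hC⟩ := hS
    refine ⟨C, C0, fun ε u e0 hu h => le_trans (integral_mono
      (I _ (cu_cont hH ((K.2.2.2.1 q).2.2 sW) ε hu)) (I _ (cu_cont hH sW ε hu)) fun x => ?_)
      (hC ε u e0 hu h)⟩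
    rw [((hK n M H m _ hH).2.2.2.2.2.1 x).2, (K.2.2.2.2.2.1 x).2]
    exact div_le_div_of_nonneg_right
      (((pw x _ 0 (M.ev W x)).2.2.2.2.2.2.2.2 (psd h x)).2.2.2.2 q) (pow_pos (dp x) m).le
  · obtain ⟨C, C0, hC⟩ := hS
    obtain ⟨D, D0, hD⟩ := hV'
    obtain ⟨B, B0, hB⟩ := bnd hH sW
    obtain ⟨A, A0, hA⟩ := bnd hH (sv V hV)
    refine ⟨2 * (B * D + A * C), by positivity, fun ε u e0 hu h => ?_⟩
    have c1 := cu_cont hH (sv V hV) ε hu
    have c2 := cu_cont hH sW ε hu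
    have i1 : Integrable (fun x => B * cu (om M H ε u) (lk H l) (vec M V) x) (M.mu H) :=
      (I _ c1).const_mul _
    have i2 : Integrable (fun x => A * cu (om M H ε u) (lk H m) W x) (M.mu H) :=
      (I _ c2).const_mul _
    have k : ∫ x, cu (om M H ε u) (lk H (l + m)) (wd M V W) x ∂M.mu H ≤ ∫ x, 2 *
        (B * cu (om M H ε u) (lk H l) (vec M V) x + A * cu (om M H ε u) (lk H m) W x) ∂M.mu H := by
      refine integral_mono (I _ (cu_cont hH ((K.2.2.1 l V hV).2 sW) ε hu))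
        ((i1.add i2).const_mul _) fun x => ?_
      have p := psd h x
      have P := pw x (M.ev (om M H ε u) x) (M.ev V x) (M.ev W x)
      obtain ⟨a1, -, a3, -⟩ := P.2.2.2.2.2.2.2.2 p
      have b1 := hB x
      have b2 := hA x
      have kv := (hK n M H l (vec M V) hH).2.2.2.2.2.1 x
      have e1 : ng (M.ev H x) (M.ev (vec M V) x) = nq (M.ev H x) (M.ev V x) := P.2.2.2.2.1
      have e2 : cg (M.ev H x) (M.ev (om M H ε u) x) (M.ev (vec M V) x) =
        nq (M.ev (om M H ε u) x) (M.ev V x) := P.2.2.2.2.2.1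
      have n0 : 0 ≤ nq (M.ev (om M H ε u) x) (M.ev V x) := p.re_dotProduct_nonneg _
      have dl := pow_pos (dp x) l
      have dm := pow_pos (dp x) m
      rw [(K.2.2.2.2.2.1 x).1] at b1
      rw [kv.1, e1] at b2
      beta_reduce
      rw [((hK n M H (l + m) _ hH).2.2.2.2.2.1 x).2, kv.2, e2, (K.2.2.2.2.2.1 x).2, pow_add]
      refine (div_le_div_of_nonneg_right a3 (mul_pos dl dm).le).trans ?_
      have f1 := mul_le_mul_of_nonneg_right b1 (div_nonneg n0 dl.le)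
      have f2 := mul_le_mul_of_nonneg_right b2 (div_nonneg a1 dm.le)
      refine le_trans (le_of_eq ?_) (mul_le_mul_of_nonneg_left (add_le_add f1 f2) zero_le_two)
      field_simp
    rw [integral_const_mul, integral_add i1 i2, integral_const_mul, integral_const_mul] at k
    have := mul_le_mul_of_nonneg_left (hC ε u e0 hu h) A0.le
    have := mul_le_mul_of_nonneg_left (hD ε u e0 hu h) B0.le
    linarith
  · refine n0_of hK hP hc hW hS nz (sv V hV) fun x T p => ?_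
    have P := pw x T (M.ev V x) (M.ev W x)
    have e1 : ng (M.ev H x) (M.ev (vec M V) x) = nq (M.ev H x) (M.ev V x) := P.2.2.2.2.1
    have e2 : cg (M.ev H x) T (M.ev (vec M V) x) = nq T (M.ev V x) := P.2.2.2.2.2.1
    rw [e1, e2]
    exact (P.2.2.2.2.2.2.2.2 p).2.2.2.1 (Mf.AllOn.ch h0 x)
  · exact n0_of hK hP hc hW hS nz ((hK n M H l U hH).1.1 hU).1 fun x T _ =>
      ((pw x T 0 (M.ev U x)).2.2.2.2.2.2.1 _ (Mf.AllOn.ch h x)).le

end Pool.Agent.Lib.NU4
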