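import Pool.Agent.Lib.NU4.Pb56b
import Pool.Agent.Lib.HLK.B_FK1
import Pool.Agent.Lib.HLK.B_FK2
import Pool.Agent.Lib.HLK.B_FK3
import Pool.Agent.Lib.HLK.B_LAM
import Pool.Agent.Lib.K3E.B_KAN

/-! Project nu4: the pointwise bound. -/

open scoped Classical Topology ContDiff ComplexOrder Matrix
open Set Filter

set_option linter.unusedVariables false

noncomputable section

namespace Pool.Agent.Lib.NU4

open Pool.Agent.Lib.SV (E)
open Pool.Agent.Lib.HS32 Pool.Agent.Lib.HLK Pool.Agent.Lib.F4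
open Pool.Agent.Lib.K3E (kan wk lk)

namespace P56

variable {n : ℕ}

theorem num {K f f₂ x y s : ℂ} {K₀ C₁ C₂ C₃ a b R S : ℝ} (hK : ‖K‖ ≤ K₀) (c₁ : 0 ≤ C₁)
    (c₂ : 0 ≤ C₂) (c₃ : 0 ≤ C₃) (a₀ : 0 ≤ a) (b₀ : 0 ≤ b) (R₀ : 0 ≤ R) (S₀ : 0 ≤ S)
    (h₁ : ‖f * x‖ ≤ C₁ * R) (h₂ : ‖f₂ * x‖ ≤ C₂ * R) (h₃ : ‖y - f * R‖ ≤ C₃ * R)
    (hx : ‖x‖ ≤ a * S) (hy : ‖y‖ ≤ b * S) (hs : s = K - f₂ / 2 + 5 / 8 * (f * f)) :
    ‖s‖ * ‖x‖ ≤ (K₀ * a + C₂ + C₁ * (b + C₃)) * (R + S) := by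
  have K0 : 0 ≤ K₀ := (norm_nonneg _).trans hK
  have e : s * x = K * x - 1 / 2 * (f₂ * x) + 5 / 8 * (f * (f * x)) := by rw [hs]; ring
  have n1 : ‖K * x‖ ≤ K₀ * (a * S) := by
    rw [norm_mul]; exact mul_le_mul hK hx (norm_nonneg _) K0
  have n2 : ‖1 / 2 * (f₂ * x)‖ ≤ C₂ * R := by
    rw [norm_mul, show ‖(1 / 2 : ℂ)‖ = 1 / 2 by simp]
    linarith [norm_nonneg (f₂ * x)]
  have n3 : ‖f‖ * R ≤ b * S + C₃ * R := by
    have := norm_sub_le y (y - f * R)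
    rw [sub_sub_cancel, norm_mul, Complex.norm_real, Real.norm_of_nonneg R₀] at this
    linarith
  have n4 : ‖5 / 8 * (f * (f * x))‖ ≤ C₁ * (b * S + C₃ * R) := by
    rw [norm_mul, norm_mul f, show ‖(5 / 8 : ℂ)‖ = 5 / 8 by simp]
    have := mul_le_mul_of_nonneg_left h₁ (norm_nonneg f)
    have := mul_le_mul_of_nonneg_left n3 c₁
    have := mul_nonneg (norm_nonneg f) (norm_nonneg (f * x))
    nlinarith
  rw [← norm_mul, e]
  refine (norm_add_le _ _).trans ((add_le_add ((norm_sub_le _ _).trans (add_le_add n1 n2))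
    n4).trans ?_)
  have := mul_nonneg (mul_nonneg K0 a₀) R₀
  have := mul_nonneg c₂ S₀
  have := mul_nonneg (mul_nonneg c₁ b₀) R₀
  have := mul_nonneg (mul_nonneg c₁ c₃) S₀
  nlinarith

theorem dir_smul {U w : E n → E n} {c : ℂ} {z : E n} (h : U z = c • w z) (u : E n → ℂ) :
    dir U u z = c * dir w u z := by
  simp only [dir, h, Pi.smul_apply, smul_eq_mul, Finset.mul_sum, mul_assoc]

/-- The bound in one chart. -/
theorem bound (hF : St_FK) (hL : St_LIE) {w v : E n → E n} {O : Set (E n)} {b K : E n → ℂ}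
    {G : E n → Mx (Fs n)} {H : E n → Mat n} {ρ : E n → ℝ} {p : E n} (hO : IsOpen O) (hp : p ∈ O)
    (hN : Nh O w) (hw : ∀ z ∈ O, HolV w z) (hv : ∀ z ∈ O, HolV v z)
    (h0 : ∀ z ∈ O, wg (w z) (yc w v z) = 0) (den : ∀ z ∈ O, ∃ᶠ y in 𝓝 z, bv w v y ≠ 0)
    (hb : ∀ z ∈ O, bv w v z ≠ 0 → HolN b z ∧ lder v (bv w v) z = (2 * b z) • bv w v z)
    (hK : ContinuousAt K p) (hG : SmX G p) (pG : (G p).PosDef) (hH : SmM H p) (pH : (H p).PosDef)
    (hρ : ∀ᶠ y in 𝓝 p, (ρ y : ℂ) = star (bv w v y) ⬝ᵥ G y *ᵥ bv w v y) (ρ0 : ∀ y, 0 ≤ ρ y)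
    (sρ : ContDiffAt ℝ ∞ (fun y => (ρ y : ℂ)) p) : ∃ C : ℝ, ∀ᶠ z in 𝓝 p, bv w v z ≠ 0 →
      ‖K z - qq v b z‖ * ‖dir w (fun y => (ρ y : ℂ)) z‖ ≤ C * (H z).det.re ^ 2 *
        (ρ z + √((H z)⁻¹ * dd (fun y => (ρ y : ℂ)) (fun y => (ρ y : ℂ)) z).trace.re) := by
  obtain ⟨U₁, U₂, A₁, A₂, c, s⟩ := two hF hL hO hN hw hv h0 den (f := fun y => 2 * b y)
    fun z hz hg => ⟨hmul (hc 2) (hb z hz hg).1, (hb z hz hg).2⟩
  have eO := hO.eventually_mem hp
  have hg : ∀ᶠ z in 𝓝 p, HolV (bv w v) z := eO.mono fun z hz => hbv hL (hw z hz) (hv z hz)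
  have ct : ∀ U : E n → E n, HolV U p → ∀ i, ContinuousAt (fun y => U y i) p := fun U h i =>
    (hsm (h i)).continuousAt
  obtain ⟨C₁, c₁, h₁⟩ := loc1 hG pG hg (ct _ (c p hp).1) (c p hp).2.2.1 hρ
  obtain ⟨C₂, c₂, h₂⟩ := loc1 hG pG hg (ct _ (c p hp).2.1) (c p hp).2.2.2 hρ
  obtain ⟨C₃, c₃, h₃⟩ := loc1 hG pG hg (ct _ (hv p hp)) (cdL (hv p hp)) hρ
  obtain ⟨a, a₀, ha⟩ := loc2 hH pH (ct _ (hw p hp))
  obtain ⟨d, d₀, hd⟩ := loc2 hH pH (ct _ (hv p hp))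
  have D0 := Mf.pd_det_re pH
  refine ⟨((‖K p‖ + 1) * a + C₂ + C₁ * (d + C₃)) * (2 / (H p).det.re) ^ 2, ?_⟩
  filter_upwards [eO, h₁, h₂, h₃, ha, hd, cd_ev_diff sρ,
    hK.norm.eventually_lt continuousAt_const (lt_add_one _),
    continuousAt_const.eventually_lt (cd_re hH.det).continuousAt (half_lt_self D0)]
    with z hz k₁ k₂ k₃ ka kd df kK kD hg
  obtain ⟨e₁, e₂, s₁, s₂⟩ := s z hz hg
  have m₁ := k₁ 0 s₁
  have m₂ := k₂ 0 s₂
  rw [zero_mul, sub_zero, dir_smul e₁] at m₁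
  rw [zero_mul, sub_zero, dir_smul e₂] at m₂
  have m₃ := k₃ (2 * b z) (by rw [← (hb z hz hg).2, lder, sub_add_cancel])
  have e : dir v (fun y => 2 * b y) z = 2 * dir v b z := by
    simp only [dir, dz_const_mul 2 (cd_diff (hsm (hb z hz hg).1)), Finset.mul_sum]
    exact Finset.sum_congr rfl fun k _ => by ring
  refine (num kK.le c₁ c₂ c₃ a₀ d₀ (ρ0 z) (Real.sqrt_nonneg _) m₁ m₂ m₃ (ka ρ df) (kd ρ df)
    (by rw [qq, e]; ring)).trans (mul_le_mul_of_nonneg_right ?_ (add_nonneg (ρ0 z)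
      (Real.sqrt_nonneg _)))
  rw [mul_assoc _ (_ ^ 2), ← mul_pow]
  refine le_mul_of_one_le_right (by positivity) (one_le_pow₀ ?_)
  rw [div_mul_eq_mul_div, le_div_iff₀ D0]
  linarith

variable {M : Mf n}

theorem det_cmp {H : M.Fam (Mat n)} (hH : M.Met H) : M.Ov fun e e' x =>
    (H e' (e' x)).det.re = ‖jd M e e' x‖ ^ 2 * (H e (e x)).det.re :=
  fun e he e' he' x hx hx' => by
    beta_reduce
    rw [hH.cmp e he e' he' x hx hx', Matrix.det_mul, Matrix.det_mul, Matrix.det_conjTranspose,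
      mul_right_comm, ← Complex.re_ofReal_mul, ← Complex.normSq_eq_norm_sq,
      Complex.normSq_eq_conj_mul_self]
    rfl

theorem dir_cmp {a : ℤ} {W : M.Fam (E n)} (hW : HT M a W) {u : M.X → ℝ} (hu : M.Sm u) :
    M.Ov fun e e' x => dir (W e') (M.lc u e') (e' x) =
      jd M e e' x ^ a * dir (W e) (M.lc u e) (e x) := fun e he e' he' x hx hx' => by
  obtain ⟨t1, -, -, t4, -⟩ := (mTR n M).2.1 e he e' he' x hx hx'
  have x0 : (e ∘ e'.symm) (e' x) = e x := by simp [e'.left_inv hx']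
  have s1 : DifferentiableAt ℝ (M.lc u e) ((e ∘ e'.symm) (e' x)) := by
    rw [x0]
    exact cd_diff (hu.lc.at he hx)
  have a2 : M.lc u e' =ᶠ[𝓝 (e' x)] M.lc u e ∘ (e ∘ e'.symm) := t4.mono fun w hw => by
    simp only [Mf.lc, Function.comp_apply, hw.2.2.2.2.1]
  have c := fun j => ((mCHN n _ _ t1).2.2.2.2.2.2.2.2.2.1 _ s1 j).1
  have w := fun i => congrFun (hW.cmp e he e' he' x hx hx') i
  simp only [Matrix.mulVec, dotProduct, Pi.smul_apply, smul_eq_mul, Mf.J] at w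
  rw [dir_congr a2]
  simp only [dir, c, x0, Finset.mul_sum]
  rw [Finset.sum_comm]
  refine Finset.sum_congr rfl fun i _ => ?_
  rw [← mul_assoc, ← w i, Finset.sum_mul]
  exact Finset.sum_congr rfl fun k _ => by ring

end P56

open P56 in
theorem st_PB (hF : St_FK) (hL : St_LIE) (hK : St_KIT) (hE : St_EIG) (hQ : St_QQL) : St_PB := by
  intro n M hM H W V hH hW hV nz hY hN
  have ok : (lk H 3).Ok := (st_LAM (st_FK2 st_FK1) (st_FK3 st_FK1 (st_FK2 st_FK1)) n M H _ _ hH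
    (K3E.bKAN n M H 3 hH).1).1
  have g1 : HM M 1 (vec M V) := ((hK n M H 1 0 hH).2.1 V hV.ht).1
  have g3 : HM M 3 (wd M W (vec M V)) := ((hK n M H 1 _ hH).2.2.1 2 W hW).1 g1
  have sec := ((hK n M H 3 _ hH).1.1 g3).1
  have den := ((hK n M H 3 _ hH).2.2.2.2.1 g3).2.2.2.2 hM nz
  have h0 : M.All fun e z => wg (W e z) (yc (W e) (V e) z) = 0 := fun e he z hz => by
    have := (cw hF _ _).1 (hY e he z hz)
    rw [yy] at this
    norm_num at this
    exact this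
  have el : M.All fun e z => lie (V e) (wd M W (vec M V) e) z =
      lder (V e) (bv (W e) (V e)) z := fun e he z hz => by
    have := (hL n (V e) (V e) _ _ z (hV.ht.hol e he z hz) (hV.ht.hol e he z hz)
      (hbv hL (hW.hol e he z hz) (hV.ht.hol e he z hz)) (hc 0)).2.2.2.2.2.2.2.1
      (Eventually.of_forall fun y => vg hF)
    rw [show dv (V e) z = 0 from hV.dv0 e he z hz, zero_smul, add_zero] at this
    exact this
  obtain ⟨b, af, eb, -⟩ := hE n M H V 3 _ hH hV.ht (by norm_num) g3 (fun e he z hz => vg hF)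
    fun e he z hz => by
      beta_reduce
      rw [el e he z hz]
      exact pr hF hL (hW.hol e he z hz) (hV.ht.hol e he z hz) (h0 e he z hz)
  have ql := hQ n M H V _ (lk H 3) _ b hH hV.ht ok sec af
  obtain ⟨rp, sp⟩ := ok.pp_rep sec sec
  set g := wd M W (vec M V) with hg
  set ρ := (lk H 3).pn g with hρ
  have sρ : M.Sm ρ := sp.re
  have ρ0 : ∀ x, 0 ≤ ρ x := Pre.pn_nonneg (g := ⟨H, lk H 3, hH, ok⟩) g
  have rρ : M.All fun e z => (ρ (e.symm z) : ℂ) =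
      star (g e z) ⬝ᵥ (lk H 3).G e z *ᵥ g e z := fun e he z hz =>
    (Complex.conj_eq_iff_re.1 (Pre.pp_star (g := ⟨H, lk H 3, hH, ok⟩) g g _)).trans
      (rp e he z hz)
  have rg := ((mINV n M H hH).1 _ ((mHES n M).2.1 ρ ρ sρ sρ).1).1
  obtain ⟨C, hC⟩ := glob (fun C x => ∀ e ∈ M.C, x ∈ e.source → g e (e x) ≠ 0 →
    ‖qq (V e) (a0 M H V e) (e x) - qq (V e) (b e) (e x)‖ * ‖dir (W e) (M.lc ρ e) (e x)‖ ≤
      C * (H e (e x)).det.re ^ 2 * (ρ x + √(M.gr H ρ ρ x)))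
    (fun C C' x h h' e he hx hz => (h' e he hx hz).trans (mul_le_mul_of_nonneg_right
      (mul_le_mul_of_nonneg_right h (sq_nonneg _)) (add_nonneg (ρ0 x) (Real.sqrt_nonneg _))))
    fun x => by
      obtain ⟨e, he, hx⟩ := M.cov x
      have hz := e.map_source hx
      have sV := fun i => hsm (hV.ht.hol e he _ hz i)
      have sa : ContDiffAt ℝ ∞ (a0 M H V e) (e x) := ContDiffAt.sum (s := Finset.univ)
        (f := fun k y => V e y k * dz k (ld (H e)) y) fun k _ => (sV k).mul (cd_dz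
        ((mCOF n _ _ (hH.sm e he _ hz)).2.2.2.2.2 (hH.pos.ev he hz)).1 k)
      obtain ⟨C, hC⟩ := bound hF hL (b := b e) (K := qq (V e) (a0 M H V e))
        (ρ := fun y => ρ (e.symm y)) e.open_target hz
        (fun Y => hN e he _ Y e.open_target Subset.rfl) (hW.hol e he) (hV.ht.hol e he) (h0 e he)
        (den e he) (fun z hz h => ⟨af.hol e he z hz h, by
          rw [← el e he z hz, eb e he z hz h]
          norm_num
          rfl⟩)
        ((dir_cont (fun i => (sV i).continuousAt) sa).sub ((sa.continuousAt.pow 2).div_const 2))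
        (ok.gsm e he _ hz) (ok.pos e he _ hz) (hH.sm e he _ hz) (hH.pos e he _ hz) (rρ.ev he hz)
        (fun y => ρ0 _) (sρ.lc e he _ hz)
      refine ⟨C, ?_⟩
      filter_upwards [(e.continuousAt hx).eventually hC, e.open_source.mem_nhds hx]
        with y hy hy' e' he' hy'' hg'
      have ge : g e (e y) ≠ 0 := fun h => hg' (by
        rw [sec.cmp e' he' e he y hy'' hy', h, Matrix.mulVec_zero])
      have k := hy ge
      rw [e.left_inv hy'] at k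
      erw [← rg.at he hy'] at k
      have q := ql e he e' he' y hy' hy'' ge
      have d := dir_cmp hW sρ e he e' he' y hy' hy''
      have t := det_cmp hH e he e' he' y hy' hy''
      beta_reduce at d t
      rw [norm_sub_rev, q, d, t, norm_mul, norm_mul, norm_sub_rev, norm_pow, norm_zpow,
        zpow_ofNat]
      have := mul_le_mul_of_nonneg_left k (sq_nonneg (‖jd M e e' y‖ ^ 2))
      refine le_trans (le_of_eq ?_) (this.trans (le_of_eq ?_))
      · unfold Mf.lc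
        ring
      · unfold Mf.gr
        ring
  refine ⟨b, C, af, fun e he z hz h => ?_⟩
  have := hC (e.symm z) e he (e.map_target hz)
  rw [e.right_inv hz] at this
  exact this h

end Pool.Agent.Lib.NU4
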