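import Pool.Agent.Lib.NU4.Blue
import Pool.Agent.Lib.HLK.All0
import Pool.Agent.Lib.K3E.B_KAN

/-! Project nu4: two parallel objects. -/

open scoped Classical Topology ContDiff ComplexOrder Matrix
open Set Filter MeasureTheory

set_option linter.unusedVariables false

noncomputable section

namespace Pool.Agent.Lib.NU4

open Pool.Agent.Lib.SV (E)
open Pool.Agent.Lib.HS32 Pool.Agent.Lib.HLK Pool.Agent.Lib.F4
open Pool.Agent.Lib.K3E (kan wk lk)

namespace P79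

variable {n : ℕ} {M : Mf n} {H : M.Fam (Mat n)} {ι : Type} {l : Filter ι}

theorem lim0 [M.Cpt] [l.NeBot] (hH : M.Met H) {g : ι → M.X → ℝ}
    (hg : Tendsto (fun j => ∫ x, g j x ∂M.mu H) l (𝓝 0)) {e : M.Ch} {z : E n} (hz : z ∈ e.target)
    {δ : ℝ} (hδ : 0 < δ) {U : Set (E n)} (hU : U ∈ 𝓝 z)
    (h : ∀ᶠ j in l, Integrable (g j) (M.mu H) ∧ (∀ x, 0 ≤ g j x) ∧ ∀ w ∈ U, δ ≤ g j (e.symm w)) :
    False := by
  obtain ⟨-, i1, i2, -⟩ := mMU n M H hH
  have hO : e.symm '' U ∈ 𝓝 (e.symm z) := e.symm.image_mem_nhds hz hU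
  have p : 0 < (M.mu H).real (e.symm '' U) :=
    ENNReal.toReal_pos (Measure.measure_pos_of_mem_nhds _ hO).ne' (measure_ne_top _ _)
  have : δ * (M.mu H).real (e.symm '' U) ≤ 0 := ge_of_tendsto hg (h.mono fun j hj =>
    le_trans (mul_le_mul_of_nonneg_left (measureReal_mono (fun x ⟨w, hw, hx⟩ => hx ▸ hj.2.2 w hw)
      (measure_ne_top _ _)) hδ.le)
      (mul_meas_ge_le_integral_of_nonneg (Eventually.of_forall hj.2.1) hj.1 δ))
  exact absurd this (not_le.2 (mul_pos hδ p))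

/-- A continuous function that is dominated by sections that tend to zero in the mean. -/
theorem two [M.Cpt] [l.NeBot] (hH : M.Met H) {σ τ : Type} [Fintype σ] [DecidableEq σ] [Fintype τ]
    [DecidableEq τ] {b : Bun M σ} {b' : Bun M τ} (hb : b.Ok) (hl : b.Hl) (hb' : b'.Ok)
    (hl' : b'.Hl) {R : ι → M.Fam (σ → ℂ)} {R' : ι → M.Fam (τ → ℂ)}
    (t : Tendsto (fun j => ∫ x, √(b.pn (R j) x) ∂M.mu H) l (𝓝 0))
    (t' : Tendsto (fun j => ∫ x, √(b'.pn (R' j) x) ∂M.mu H) l (𝓝 0))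
    {e : M.Ch} (he : e ∈ M.C) {z : E n} (hz : z ∈ e.target) {f : E n → ℂ} {K : E n → ℝ}
    (hf : ContinuousAt f z) (hK : ContinuousAt K z)
    (h : ∀ᶠ j in l, b.Sec (R j) ∧ b'.Sec (R' j) ∧
      ∀ w ∈ e.target, ‖f w‖ ≤ K w * (‖R j e w‖ + ‖R' j e w‖)) : f z = 0 := by
  by_contra c
  have p : 0 < ‖f z‖ / 2 := half_pos (norm_pos_iff.2 c)
  obtain ⟨c1, h1⟩ := (aGB n M σ H b hH hb hl).2 e he
  obtain ⟨c2, h2⟩ := (aGB n M τ H b' hH hb' hl').2 e he
  have ig := (mMU n M H hH).2.2.2.2.1 ℝ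
  set C := c1 z + c2 z + 1 with hC
  have C0 : 0 < C := by linarith [(h1 z hz).2.1, (h2 z hz).2.1]
  have u1 : ∀ᶠ w in 𝓝 z, ‖f z‖ / 2 < ‖f w‖ :=
    hf.norm.eventually (lt_mem_nhds (half_lt_self (norm_pos_iff.2 c)))
  have u2 : ∀ᶠ w in 𝓝 z, K w < |K z| + 1 :=
    hK.eventually (gt_mem_nhds (by linarith [le_abs_self (K z)]))
  have u3 : ∀ᶠ w in 𝓝 z, c1 w < C :=
    (h1 z hz).1.eventually (gt_mem_nhds (by linarith [(h2 z hz).2.1]))
  have u4 : ∀ᶠ w in 𝓝 z, c2 w < C :=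
    (h2 z hz).1.eventually (gt_mem_nhds (by linarith [(h1 z hz).2.1]))
  have i1 := fun {W} (s : b.Sec W) => ig _ (hb.pp_rep s s).2.re.continuous.sqrt
  have i2 := fun {W} (s : b'.Sec W) => ig _ (hb'.pp_rep s s).2.re.continuous.sqrt
  have ti : Tendsto (fun j => ∫ x, (√(b.pn (R j) x) + √(b'.pn (R' j) x)) ∂M.mu H) l (𝓝 0) := by
    have t2 := t.add t'
    rw [add_zero] at t2
    exact t2.congr' (h.mono fun j hj => (integral_add (i1 hj.1) (i2 hj.2.1)).symm)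
  have K0 : 0 < (|K z| + 1) * √C := by positivity
  refine lim0 hH ti hz (div_pos p K0)
    (u1.and (u2.and (u3.and (u4.and (e.open_target.eventually_mem hz))))) (h.mono fun j hj => ?_)
  have n1 := Pre.pn_nonneg (g := ⟨H, b, hH, hb⟩) (R j)
  have n2 := Pre.pn_nonneg (g := ⟨H, b', hH, hb'⟩) (R' j)
  refine ⟨(i1 hj.1).add (i2 hj.2.1), fun x => by positivity, fun w ⟨w1, w2, w3, w4, w5⟩ => ?_⟩
  have a1 : ‖R j e w‖ ≤ √C * √(b.pn (R j) (e.symm w)) := by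
    rw [← Real.sqrt_mul C0.le]
    exact (pi_norm_le_iff_of_nonneg (Real.sqrt_nonneg _)).2 fun i => Real.le_sqrt_of_sq_le
      ((((h1 w w5).2.2 _ hj.1).1 i).trans (mul_le_mul_of_nonneg_right w3.le (n1 _)))
  have a2 : ‖R' j e w‖ ≤ √C * √(b'.pn (R' j) (e.symm w)) := by
    rw [← Real.sqrt_mul C0.le]
    exact (pi_norm_le_iff_of_nonneg (Real.sqrt_nonneg _)).2 fun i => Real.le_sqrt_of_sq_le
      ((((h2 w w5).2.2 _ hj.2.1).1 i).trans (mul_le_mul_of_nonneg_right w4.le (n2 _)))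
  rw [div_le_iff₀' K0, mul_assoc, mul_add]
  exact w1.le.trans ((hj.2.2 w w5).trans ((mul_le_mul_of_nonneg_right w2.le (by positivity)).trans
    (mul_le_mul_of_nonneg_left (add_le_add a1 a2) (by positivity))))

theorem mv_le {σ : Type} [Fintype σ] (A : Mx σ) (Y : σ → ℂ) (i : σ) :
    ‖(A *ᵥ Y) i‖ ≤ (∑ j, ‖A i j‖) * ‖Y‖ := by
  rw [Finset.sum_mul]
  refine (norm_sum_le _ _).trans (Finset.sum_le_sum fun j _ => ?_)
  rw [norm_mul]
  exact mul_le_mul_of_nonneg_left (norm_le_pi_norm Y j) (norm_nonneg _)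

theorem cd_mv {σ : Type} [Fintype σ] {A : E n → Mx σ} {Y : E n → σ → ℂ} {z : E n}
    (hA : ∀ i j, ContDiffAt ℝ ∞ (fun w => A w i j) z)
    (h : ∀ j, ContDiffAt ℝ ∞ (fun w => Y w j) z) (i : σ) :
    ContDiffAt ℝ ∞ (fun w => (A w *ᵥ Y w) i) z := by
  simp only [Matrix.mulVec, dotProduct]
  exact ContDiffAt.sum fun j _ => (hA i j).mul (h j)

theorem cd_crv {V : E n → E n} {z : E n} (h : ∀ k, ContDiffAt ℝ ∞ (fun w => V w k) z)
    (A B : Fs n) : ContDiffAt ℝ ∞ (fun w => crv (V w) A B) z := by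
  simp only [crv, Matrix.sum_apply, Matrix.smul_apply, smul_eq_mul]
  exact ContDiffAt.sum fun k _ => (h k).mul contDiffAt_const

theorem cd_pf0 {W : E n → Fs n → ℂ} {z : E n} (h : ∀ A, ContDiffAt ℝ ∞ (fun w => W w A) z)
    (A : Fs n) : ContDiffAt ℝ ∞ (fun w => pf0 W w A) z := by
  simp only [pf0, Finset.sum_apply]
  exact ContDiffAt.sum fun k _ => cd_mv (A := fun _ => an k) (fun _ _ => contDiffAt_const)
    (fun B => cd_dz (h B) k) A

theorem pf0_vec (hFK : St_FK) {V : E n → E n} {z : E n}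
    (h : ∀ k, ContDiffAt ℝ ∞ (fun w => V w k) z) :
    pf0 (fun w => crv (V w) *ᵥ vac n) z = dv V z • vac n := by
  have e : ∀ k, dzv k (fun w => crv (V w) *ᵥ vac n) z =
      crv (fun i => dz k (fun w => V w i) z) *ᵥ vac n := fun k => funext fun A => by
    simp only [dzv, crv, Matrix.sum_mulVec, Matrix.smul_mulVec, Finset.sum_apply, Pi.smul_apply,
      smul_eq_mul]
    rw [dz_sum fun i _ => (cd_diff (h i)).mul_const _]
    exact Finset.sum_congr rfl fun i _ => by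
      rw [dz_mul (cd_diff (h i)) (differentiableAt_const _), dz_const]
      ring
  have a : ∀ k : Fin n, an k = anv (Pi.single k 1) := fun k => by
    simp [anv, Pi.single_apply]
  rw [pf0, dv, Finset.sum_smul]
  refine Finset.sum_congr rfl fun k _ => ?_
  obtain ⟨-, -, c, -, -, -, -, -, -, -, -, d, -⟩ :=
    hFK n (fun i => dz k (fun w => V w i) z) 0 (Pi.single k 1) 0 0 0
  rw [e, a, Matrix.mulVec_mulVec, eq_sub_of_add_eq c, Matrix.sub_mulVec, ← Matrix.mulVec_mulVec, d,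
    Matrix.mulVec_zero, sub_zero, Matrix.smul_mulVec, Matrix.one_mulVec, single_dotProduct, one_mul]

theorem one [M.Cpt] (hFK : St_FK) (hKIT : St_KIT) (hIBP : St_IBP) {a : ℝ → M.X → ℝ} {m l : ℕ}
    {W : M.Fam (E n)} (hc : Cx M H a) (hm : 2 ≤ m) (hW : HT M m W) (pW : Par M H a m (vec M W))
    {π : M.Fam (Fs n → ℂ)} (hπ : HM M l π) (pπ : Par M H a l π) (h0 : Zr M (wd M W π)) :
    Zr M (nab M m l W π) := by
  intro e he z hz
  funext A
  have hH := hc.kae.toMet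
  have m0 : (m : ℂ) - 1 ≠ 0 := sub_ne_zero.2 (by exact_mod_cast (by omega : m ≠ 1))
  have s1 : (lk H m).Sec (vec M W) :=
    ((hKIT n M H m _ hH).1.1 ((hKIT n M H m 0 hH).2.1 W hW).1).1
  have s2 : (lk H l).Sec π := ((hKIT n M H l _ hH).1.1 hπ).1
  have sW : M.All fun e z => ∀ k, ContDiffAt ℝ ∞ (fun w => W e w k) z := fun e he z hz k =>
    ((mHOL n _ z).2.2 (hW.hol e he z hz k)).1
  have sπ := contDiffAt_pi.1 (s2.sm e he z hz)
  have o := fun k => aLAM n M H _ _ hH (K3E.bKAN n M H k hH).1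
  have sp : ∀ k Y u, (lk H k).Sec Y → M.Sm u → (lk H k).Sec ((oP H (wt M H k u)).ap Y) :=
    fun k Y u s su =>
      have t := aSP n M H _ _ Y hH (((o k).2.2 _).1 (su.const_mul ((k : ℝ) - 1))).1 ⟨s.sm, s.cmp⟩
      ⟨t.sm, t.cmp⟩
  have t1 := pW 0
  have t2 := pπ 0
  simp only [zero_mul, neg_zero, Real.exp_zero, one_mul] at t1 t2
  refine two hH (o m).1 (o m).2.1 (o l).1 (o l).2.1 t1 t2 he hz (f := fun y => nab M m l W π e y A)
    (K := fun y => ∑ B, ‖crv (W e y) A B‖ + ‖((l : ℂ) - 1) / ((m : ℂ) - 1) * π e y A‖) ?_ ?_ ?_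
  · exact ((cd_mv (cd_crv (sW e he z hz)) (cd_pf0 sπ) A).sub ((contDiffAt_const.mul
      (ContDiffAt.sum fun k _ => cd_dz (sW e he z hz k) k)).mul (sπ A))).continuousAt
  · exact (tendsto_finsetSum _ fun B _ => (cd_crv (sW e he z hz) A B).continuousAt.norm).add
      (continuousAt_const.mul (sπ A).continuousAt).norm
  filter_upwards [Ioc_mem_nhdsGT (zero_lt_one' ℝ)] with ε hε
  have su := hc.out.sm ε hε
  refine ⟨sp m _ _ s1 su, sp l _ _ s2 su, fun y hy => ?_⟩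
  obtain ⟨-, e1, e2⟩ := (hIBP n M H m _ _ _ hc.kae su su s1).2.2.2.1 e he y hy
  obtain ⟨-, e3, e4⟩ := (hIBP n M H l _ _ _ hc.kae su su s2).2.2.2.1 e he y hy
  set p := gd (ld (H e)) y + gd (M.lc (a ε) e) y with hp
  obtain ⟨-, -, f1, -, -, -, -, -, -, -, -, f2, -⟩ := hFK n (W e y) 0 p 0 0 0
  have f3 : anv p = _ := (hFK n _ _ 0 0 0 0).2.2.2.2.2.2.2.2.1
  have g1 : (oP H (wt M H m (a ε))).ap (vec M W) e y ∅ =
      dv (W e) y - ((m : ℂ) - 1) * (p ⬝ᵥ W e y) := by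
    have : (oP H (wt M H m (a ε))).ap (vec M W) e y =
        dv (W e) y • vac n - ((m : ℂ) - 1) • anv p *ᵥ crv (W e y) *ᵥ vac n := by
      rw [e1, e2, f3, Matrix.add_mulVec, smul_add, ← pf0_vec hFK (sW e he y hy), sub_sub]
      rfl
    rw [this, Matrix.mulVec_mulVec, eq_sub_of_add_eq f1, Matrix.sub_mulVec, ← Matrix.mulVec_mulVec,
      f2, Matrix.mulVec_zero, sub_zero, Matrix.smul_mulVec, Matrix.one_mulVec]
    simp [vac]
  have g2 : pf0 (π e) y = (oP H (wt M H l (a ε))).ap π e y + ((l : ℂ) - 1) • anv p *ᵥ π e y := by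
    rw [e3, e4, f3, Matrix.add_mulVec, smul_add, sub_sub]
    exact (sub_add_cancel _ _).symm
  have g3 : crv (W e y) *ᵥ anv p *ᵥ π e y = (p ⬝ᵥ W e y) • π e y := by
    have z0 : crv (W e y) *ᵥ π e y = 0 := h0 e he y hy
    rw [Matrix.mulVec_mulVec, eq_sub_of_add_eq' f1, Matrix.sub_mulVec, ← Matrix.mulVec_mulVec, z0,
      Matrix.mulVec_zero, sub_zero, Matrix.smul_mulVec, Matrix.one_mulVec]
  have g4 : nab M m l W π e y A = (crv (W e y) *ᵥ (oP H (wt M H l (a ε))).ap π e y) A -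
      ((l : ℂ) - 1) / ((m : ℂ) - 1) * π e y A * (oP H (wt M H m (a ε))).ap (vec M W) e y ∅ := by
    rw [g1, nab, lie, g2, Matrix.mulVec_add, Matrix.mulVec_smul, g3]
    simp only [Pi.sub_apply, Pi.add_apply, Pi.smul_apply, smul_eq_mul]
    field_simp
    ring
  rw [g4]
  refine (norm_sub_le _ _).trans ?_
  rw [norm_mul]
  have b1 := norm_le_pi_norm ((oP H (wt M H m (a ε))).ap (vec M W) e y) ∅
  have b2 := mv_le (crv (W e y)) ((oP H (wt M H l (a ε))).ap π e y) A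
  have b3 := norm_nonneg (((l : ℂ) - 1) / ((m : ℂ) - 1) * π e y A)
  have b4 : 0 ≤ ∑ B, ‖crv (W e y) A B‖ := Finset.sum_nonneg fun _ _ => norm_nonneg _
  nlinarith [mul_le_mul_of_nonneg_left b1 b3,
    mul_nonneg b4 (norm_nonneg ((oP H (wt M H m (a ε))).ap (vec M W) e y)),
    mul_nonneg b3 (norm_nonneg ((oP H (wt M H l (a ε))).ap π e y))]

end P79

theorem st_PPI (hFK : St_FK) (hKIT : St_KIT) (hIBP : St_IBP) : St_PPI := by
  intro n M _ H a m l W hc hm hl hW pW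
  refine ⟨fun π hπ pπ h0 => P79.one hFK hKIT hIBP hc hm hW pW hπ pπ h0,
    fun U hU pU h0 e he z hz => funext fun k => ?_⟩
  have h := congrFun (P79.one hFK hKIT hIBP hc hm hW pW
    ((hKIT n M H l 0 hc.kae.toMet).2.1 U hU).1 pU h0 e he z hz) {k}
  have l0 : (l : ℂ) - 1 ≠ 0 := sub_ne_zero.2 (by exact_mod_cast (by omega : l ≠ 1))
  have v : ∀ u : E n, (crv u *ᵥ vac n) {k} = u k := fun u =>
    (hFK n u 0 0 0 0 0).2.2.2.2.2.2.2.2.2.2.2.2.2.2.1 k
  have p : pf0 (vec M U e) z = dv (U e) z • vac n :=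
    P79.pf0_vec hFK fun i => ((mHOL n _ z).2.2 (hU.hol e he z hz i)).1
  simp only [nab, lie, p, vec, Matrix.mulVec_smul, Pi.sub_apply, Pi.smul_apply, v, smul_eq_mul,
    Pi.zero_apply] at h
  simp only [Pi.smul_apply, smul_eq_mul]
  rw [div_mul_eq_mul_div, div_eq_iff l0, sub_eq_zero.1 h]
  ring

end Pool.Agent.Lib.NU4
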