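import Pool.Agent.Lib.NU4.Blue

/-! Project nu4: a projective structure exists, or the curvature vanishes on the field. -/

open scoped Classical Topology ContDiff ComplexOrder Matrix
open Set Filter MeasureTheory

set_option linter.unusedVariables false

noncomputable section

namespace Pool.Agent.Lib.NU4

open Pool.Agent.Lib.SV (E)
open Pool.Agent.Lib.HS32 Pool.Agent.Lib.HLK Pool.Agent.Lib.F4
open Pool.Agent.Lib.K3E (kan wk lk)

theorem st_PQ (hFK : St_FK) (hKIT : St_KIT) (hXS : St_XS) (hHLX : St_HLX) (hQEX : St_QEX)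
    (hNMU : St_NMU) (hSG : St_SG) (hR1 : St_R1) (hN4H : St_N4H) (hPB : St_PB) (hPA : St_PA) :
    St_PQ := by
  intro M _ H a V hB hV
  have hK := hB.cx.kae
  have hH : M.Met H := hK.toMet
  obtain ⟨-, -, x1, x2, x3⟩ := hXS 4 M H V hK hV.ht
  rcases hHLX 4 M H a 2 _ hB.cx le_rfl x1 x3 with h | ⟨U, u1, u2, u3⟩
  · exact Or.inr (hQEX 4 M H V hB.cx.n0 hK hB.no hV.ht h)
  obtain ⟨-, k2, -, -, k5, -, -, k8⟩ := hKIT 4 M H 2 U hH
  set W : M.Fam (E 4) := fun e z k => U e z {k} with hW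
  have w1 : HT M 2 W := (k5 u1).2.1
  have e1 : vec M W = prt M 1 U := by
    funext e z
    have d : Dg 1 (prt M 1 U e z) := fun A hA => if_neg hA
    have f := (hFK 4 0 0 0 0 0 (prt M 1 U e z)).2.2.2.2.2.2.2.2.2.2.2.2.2.2.2.2.2.1 d
    rw [f]
    simp only [vec, prt, Finset.card_singleton, if_true, hW]
  have e2 : ∀ ε, (lw M H 2 (a ε)).ip H U (xq M H V) =
      (lw M H 2 (a ε)).ip H (vec M W) (xq M H V) := fun ε => by
    simp only [Bun.ip, lw, e1, k8 _ _ 1 _ x2]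
  simp only [e2] at u3
  have s1 : Sml M H 2 (vec M W) := e1 ▸ (hNMU 4 M H a 2 0 U hB.cx u1 u2).1 1
  obtain ⟨v1, -, v3⟩ := k2 W w1
  have n1 : ¬Zr M W := fun hz => u3 (by
    have z : ∀ x, M.ev (vec M W) x = 0 := fun x => by
      by_contra c
      exact (v3.2 ⟨_, Mf.ch_mem x, _, Mf.ch_tgt x, c⟩) hz
    simp only [Bun.ip, Bun.pp, z, star_zero, zero_dotProduct, integral_zero]
    exact tendsto_const_nhds)
  rcases hR1 M H a W V hB ⟨w1, n1, s1⟩ hV with h | ⟨r1, r2⟩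
  · exact Or.inl h
  have p1 := ((hSG 4 M H a 2 _ hB.cx le_rfl v1).2 s1).2
  obtain ⟨b, C, b1, b2⟩ := hPB 4 M H W V hH w1 hV r1 r2 (hN4H 4 M H a W hB.cx w1 n1 s1 p1)
  obtain ⟨-, l2, l3, -⟩ := hKIT 4 M H 1 (vec M V) hH
  exact (u3 (hPA 4 M H a W V _ b C hB.cx w1 hV.ht p1 ((l3 2 W w1).1 (l2 V hV.ht).1) r1 b1 b2)).elim

end Pool.Agent.Lib.NU4
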