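import Pool.Agent.Lib.NU4.B_FK

/-! Project nu4: pointwise inequalities. -/

open scoped Classical Matrix ComplexOrder

noncomputable section

namespace Pool.Agent.Lib.NU4

open Pool.Agent.Lib.SV (E)
open Pool.Agent.Lib.HS32 Pool.Agent.Lib.HLK Pool.Agent.Lib.F4

namespace PW98

variable {n : ℕ}

theorem cg_eq (H T : Mat n) (W : Fs n → ℂ) : cg H T W = W98.qn T H W := by
  rw [cg, CU.qm_eq, W98.qn]

theorem p1_re {H : Mat n} (hH : H.PosDef) (a : E n) : p1 H a a = ((p1 H a a).re : ℝ) := by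
  have h := hH.inv.posSemidef.dotProduct_mulVec_nonneg (star a)
  rw [star_star] at h
  exact Complex.ext rfl (Complex.le_def.1 h).2.symm

theorem nn_av {H : Mat n} (hH : H.PosDef) (a : E n) (W : Fs n → ℂ) :
    W98.nn H (W98.av a *ᵥ W) ≤ (p1 H a a).re * W98.nn H W := by
  have hu := (Matrix.isUnit_iff_isUnit_det H).1 hH.isUnit
  have e1 : H *ᵥ H⁻¹ *ᵥ star a = star a := by
    rw [Matrix.mulVec_mulVec, Matrix.mul_nonsing_inv H hu, Matrix.one_mulVec]
  have e2 : star (H⁻¹ *ᵥ star a) ᵥ* H = a := by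
    have e := congrArg star e1
    rwa [Matrix.star_mulVec H, hH.1.eq, star_star] at e
  have h := congrArg (fun A => (star W ⬝ᵥ A *ᵥ W).re) (W98.pyth hH.1 (H⁻¹ *ᵥ star a))
  have p := W98.nn_nonneg hH (W98.cv (H⁻¹ *ᵥ star a) *ᵥ W)
  have r : star (H⁻¹ *ᵥ star a) ⬝ᵥ H *ᵥ H⁻¹ *ᵥ star a = ((p1 H a a).re : ℝ) := by
    rw [Matrix.dotProduct_mulVec, e2, ← p1_re hH, p1]
  simp only [Matrix.add_mulVec, dotProduct_add, Complex.add_re, ← W98.nn_mv, r, e2,
    Matrix.smul_mulVec, dotProduct_smul, smul_eq_mul, Complex.re_ofReal_mul] at h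
  rw [W98.nn] at h ⊢
  rw [W98.nn] at h ⊢
  rw [W98.nn] at p
  linarith

theorem nn_prt {H : Mat n} (hH : H.PosDef) (q : ℕ) (W : Fs n → ℂ) :
    W98.nn H (fun A => if A.card = q then W A else 0) ≤ W98.nn H W := by
  set P : Fs n → ℂ := fun A => if A.card = q then W A else 0 with hP
  set R : Fs n → ℂ := fun A => if A.card = q then 0 else W A with hR
  have e : W = P + R := funext fun A => by
    by_cases c : A.card = q <;> simp [hP, hR, c]
  have d : Dg q (La H *ᵥ P) := FK98.dg_la H fun A hA => if_neg hA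
  have o1 : star R ⬝ᵥ La H *ᵥ P = 0 := Finset.sum_eq_zero fun A _ => by
    by_cases c : A.card = q
    · simp [hR, c]
    · rw [d A c, mul_zero]
  have o2 : star P ⬝ᵥ La H *ᵥ R = 0 := by
    have h := (((aFK2 n).2 H).2.2.2.2.2 hH).1
    rw [← h.eq, Matrix.dotProduct_mulVec, ← Matrix.star_mulVec, Matrix.star_dotProduct, o1,
      star_zero]
  have p := W98.nn_nonneg hH R
  rw [e]
  simp only [W98.nn, star_add, Matrix.mulVec_add, add_dotProduct, dotProduct_add, o1, o2,
    add_zero, zero_add, Complex.add_re] at p ⊢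
  linarith

theorem av_prt (a : E n) (q : ℕ) (W : Fs n → ℂ) :
    W98.av a *ᵥ (fun A => if A.card = q + 1 then W A else 0) =
      fun A => if A.card = q then (W98.av a *ᵥ W) A else 0 := by
  funext A
  simp only [W98.av, Matrix.sum_mulVec, Matrix.smul_mulVec, Finset.sum_apply, Pi.smul_apply,
    FK98.an_ap]
  by_cases c : A.card = q
  · rw [if_pos c]
    refine Finset.sum_congr rfl fun k _ => ?_
    by_cases d : k ∉ A
    · rw [if_pos d, if_pos d, if_pos (by rw [Finset.card_insert_of_notMem d, c])]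
    · rw [if_neg d, if_neg d]
  · rw [if_neg c]
    refine Finset.sum_eq_zero fun k _ => ?_
    by_cases d : k ∉ A
    · rw [if_pos d, if_neg (by rw [Finset.card_insert_of_notMem d]; omega), mul_zero, smul_zero]
    · rw [if_neg d, smul_zero]

end PW98

open PW98

theorem st_PW : St_PW := by
  intro n H T v a W hH
  have u : crv v *ᵥ vac n = Clo.U1 n *ᵥ v := (W98.u1_cv v).symm
  have g : ∀ Y, ng H Y = W98.nn H Y := fun _ => rfl
  simp only [cg_eq, g, u]
  refine ⟨W98.nn_nonneg hH W, fun h => by_contra fun k => (W98.nn_pos hH k).ne' h,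
    W98.nn_cv hH v W, nn_av hH a W, W98.nn_u1 H v, W98.qn_u1 T H v, fun B h => ?_,
    fun q => nn_prt hH q W, fun hT => ⟨W98.qn_nonneg hT hH W, ?_, ?_, fun h => ?_, fun q => ?_⟩⟩
  · by_cases c : B = 0
    · simp [c, W98.nn, W98.qn]
    · obtain ⟨J, hJ⟩ := Function.ne_iff.1 c
      have e : W = (W J / B J) • B := funext fun I => by
        rw [Pi.smul_apply, smul_eq_mul, div_mul_eq_mul_div, eq_div_iff hJ, h I J]
      rw [e, W98.nn_smul, W98.qn_smul]
      ring
  · obtain ⟨B, rfl⟩ := Mf.psd_factor hT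
    have e : (H⁻¹ * (Bᴴ * B)).trace = ∑ m, p1 H (B m) (B m) := by
      rw [← Matrix.mul_assoc, Matrix.trace_mul_comm]
      simp only [Matrix.trace, Matrix.diag, Matrix.mul_apply, p1, dotProduct, Matrix.mulVec,
        Matrix.conjTranspose_apply, Pi.star_apply]
    rw [W98.qn_fac, e, Complex.re_sum, Finset.sum_mul]
    exact Finset.sum_le_sum fun m _ => nn_av hH _ W
  · rw [mul_comm (W98.nn H W)]
    exact W98.qn_cv hT hH v W
  · rw [mul_comm (W98.nn H W)]
    exact W98.qn_zero hT hH h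
  · rcases q with _ | q
    · have e := FK98.dg0 (W := fun A => if A.card = 0 then W A else 0) fun A hA => if_neg hA
      obtain ⟨B, rfl⟩ := Mf.psd_factor hT
      rw [e, W98.qn_smul, W98.qn_fac, Finset.sum_eq_zero, mul_zero]
      · exact W98.qn_nonneg hT hH W
      · intro m _
        rw [show W98.av (B m) *ᵥ vac n = 0 from W98.av_vac _]
        simp [W98.nn]
    · obtain ⟨B, rfl⟩ := Mf.psd_factor hT
      rw [W98.qn_fac, W98.qn_fac]
      refine Finset.sum_le_sum fun m _ => ?_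
      rw [av_prt]
      exact nn_prt hH q _

end Pool.Agent.Lib.NU4
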