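import Pool.Agent.Lib.NU4.B_XS

/-! Project nu4, row QEX: an exact obstruction gives a projective structure. -/

open scoped Classical Topology ContDiff ComplexOrder Matrix
open Set Filter MeasureTheory

noncomputable section

namespace Pool.Agent.Lib.NU4

open Pool.Agent.Lib.HS32 Pool.Agent.Lib.HLK Pool.Agent.Lib.F4
open Pool.Agent.Lib.K3E (kan wk lk triv)

open X91 in
theorem st_QEX : St_QEX := by
  intro n M _ H V hn hH hN hV ha
  obtain ⟨q, q1, q2⟩ := ext hn hH.toMet (K3E.bKAN n M H 2 hH.toMet).1 (qq_aff hH.toMet hV)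
    (fun t ht => hN 2 two_pos t ⟨⟨ht.sm, fun e he e' he' x hx hx' => by
      simpa [kan, triv, Mf.Co.tw] using ht.cmp e he e' he' x hx hx'⟩, ht.hol⟩) ha
  refine ⟨q, q1, fun e he e' he' x hx hx' => ?_⟩
  simpa [kan, triv, Mf.Co.tw, mul_comm] using q2.cmp e he e' he' x hx hx'

end Pool.Agent.Lib.NU4
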