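import Pool.Agent.Lib.NU4.Blue

/-! The law of the expression of Riccati under a change of chart. -/

open scoped Classical Topology ContDiff ComplexOrder Matrix
open Set Filter Complex

noncomputable section

namespace Pool.Agent.Lib.NU4

open Pool.Agent.Lib.SV (E)
open Pool.Agent.Lib.HS32 Pool.Agent.Lib.HLK Pool.Agent.Lib.F4 Pool.Agent.Lib.KP

namespace Q76

variable {n : ℕ} {V V' ψ : E n → E n} {f g c c' u : E n → ℂ} {z : E n}

theorem dir_congr (h : f =ᶠ[𝓝 z] g) : dir V f z = dir V g z := by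
  simp only [dir, dz_congr h]

theorem dir_add (hf : DifferentiableAt ℝ f z) (hg : DifferentiableAt ℝ g z) :
    dir V (fun w => f w + g w) z = dir V f z + dir V g z := by
  simp only [dir, dz_add hf hg, mul_add, Finset.sum_add_distrib]

theorem dir_mul (hf : DifferentiableAt ℝ f z) (hg : DifferentiableAt ℝ g z) :
    dir V (fun w => f w * g w) z = dir V f z * g z + f z * dir V g z := by
  simp only [dir, dz_mul hf hg, Finset.sum_mul, Finset.mul_sum, ← Finset.sum_add_distrib]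
  exact Finset.sum_congr rfl fun k _ => by ring

theorem dir_comp {j : ℂ} (hψ : HolN ψ z) (hV : jm ψ z *ᵥ V' z = j • V (ψ z))
    (hf : DifferentiableAt ℝ f (ψ z)) : dir V' (f ∘ ψ) z = j * dir V f (ψ z) := by
  have h := (mCHN n ψ z hψ).2.2.2.2.2.2.2.2.2.1 f hf
  have k : ∀ a, ∑ k, jm ψ z a k * V' z k = j * V (ψ z) a := fun a => congrFun hV a
  simp only [dir, fun k => (h k).1, Finset.mul_sum]
  rw [Finset.sum_comm]
  refine Finset.sum_congr rfl fun a _ => ?_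
  rw [← mul_assoc, ← k a, Finset.sum_mul]
  exact Finset.sum_congr rfl fun k _ => by ring

theorem cd_dir (hV : ∀ k, ContDiffAt ℝ ∞ (fun w => V w k) z) (hf : ContDiffAt ℝ ∞ f z) :
    ContDiffAt ℝ ∞ (dir V f) z :=
  ContDiffAt.sum fun k _ => (hV k).mul (cd_dz hf k)

theorem qq_law {j : E n → ℂ} (hψ : HolN ψ z) (hV : jm ψ z *ᵥ V' z = j z • V (ψ z))
    (hj : DifferentiableAt ℝ j z) (hu : DifferentiableAt ℝ u z) (ju : dir V' j z = j z * u z)
    (hc : DifferentiableAt ℝ c (ψ z)) (e : c' =ᶠ[𝓝 z] fun w => j w * (c ∘ ψ) w + u w) :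
    qq V' c' z = j z ^ 2 * qq V c (ψ z) + (dir V' u z - u z ^ 2 / 2) := by
  have d : DifferentiableAt ℝ (c ∘ ψ) z := hc.comp z (cd_diff (mCHN n ψ z hψ).1)
  rw [qq, qq, dir_congr e, e.self_of_nhds, dir_add (hj.fun_mul d) hu, dir_mul hj d,
    dir_comp hψ hV hc, ju]
  simp only [Function.comp]
  ring

variable {M : Mf n} {H : M.Fam (Mat n)} {W : M.Fam (E n)} {e e' : M.Ch} {x : M.X}

theorem cd_ld (hH : M.Met H) (he : e ∈ M.C) (hz : z ∈ e.target) : ContDiffAt ℝ ∞ (ld (H e)) z :=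
  cd_ofReal ((mINV n M H hH).2.2.2.2.2.2.1.sm e he z hz)

theorem cd_v {a : ℤ} (hW : HT M a W) (he : e ∈ M.C) (hz : z ∈ e.target) (k : Fin n) :
    ContDiffAt ℝ ∞ (fun w => W e w k) z := ((mHOL n _ _).2.2 (hW.hol e he z hz k)).1

theorem cd_a0 {a : ℤ} (hH : M.Met H) (hW : HT M a W) (he : e ∈ M.C) (hz : z ∈ e.target) :
    ContDiffAt ℝ ∞ (a0 M H W e) z := cd_dir (cd_v hW he hz) (cd_ld hH he hz)

/-- The law of the derivative of the weight. -/
theorem a0_law (hH : M.Met H) (hW : HT M 1 W) (he : e ∈ M.C) (he' : e' ∈ M.C) (hx : x ∈ e.source)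
    (hx' : x ∈ e'.source) : a0 M H W e' (e' x) = jd M e e' x * a0 M H W e (e x) +
      dir (W e') (fun w => (jm (e ∘ e'.symm) w).det) (e' x) / jd M e e' x := by
  obtain ⟨t1, t2, -, t4, -⟩ := (mTR n M).2.1 e he e' he' x hx hx'
  have c5 := (mCHN n _ _ t1).2.2.2.2.1
  have ex : (e ∘ e'.symm) (e' x) = e x := congrArg e (e'.left_inv hx')
  obtain ⟨s4, -, s5⟩ := ((mHOL n _ _).2.2 c5).2.2.2 t2
  have p : DifferentiableAt ℝ (ld (H e)) ((e ∘ e'.symm) (e' x)) :=
    ex ▸ cd_diff (cd_ld hH he (e.map_source hx))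
  have ev : ld (H e') =ᶠ[𝓝 (e' x)] fun w => (ld (H e) ∘ e ∘ e'.symm) w +
      (Real.log (normSq (jm (e ∘ e'.symm) w).det) : ℝ) := by
    filter_upwards [t4] with w k
    have k2 := (mINV n M H hH).2.2.2.2.2.2.1.cmp e he e' he' _ k.2.1 k.2.2.1
    simp only [k.2.2.2.2.2.1, k.2.2.2.2.2.2] at k2
    simp only [ld, k2, Function.comp]
    push_cast; ring
  have hv : jm (e ∘ e'.symm) (e' x) *ᵥ W e' (e' x) = jd M e e' x • W e ((e ∘ e'.symm) (e' x)) := by
    rw [ex]; simpa only [zpow_one, Mf.J] using hW.cmp e he e' he' x hx hx'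
  rw [a0, dir_congr ev, dir_add (p.comp _ (cd_diff (mCHN n _ _ t1).1)) (cd_diff (cd_ofReal s4)),
    dir_comp t1 hv p, ex]
  simp only [dir, s5, a0, Finset.sum_div, mul_div_assoc]
  rfl

end Q76

open Q76 in
theorem st_QQL : St_QQL := by
  intro n M H V σ _ _ B s b hH hV _ hs hb e he e' he' x hx hx' h0
  obtain ⟨t1, t2, -, t4, -⟩ := (mTR n M).2.1 e he e' he' x hx hx'
  have c1 := (mCHN n _ _ t1).1
  have c5 := ((mHOL n _ _).2.2 (mCHN n _ _ t1).2.2.2.2.1).1
  have ex : (e ∘ e'.symm) (e' x) = e x := congrArg e (e'.left_inv hx')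
  have hz := e.map_source hx
  have hz' := e'.map_source hx'
  have hv : jm (e ∘ e'.symm) (e' x) *ᵥ V e' (e' x) =
      (jm (e ∘ e'.symm) (e' x)).det • V e ((e ∘ e'.symm) (e' x)) := by
    rw [ex]; simpa only [zpow_one, jd, Mf.J] using hV.cmp e he e' he' x hx hx'
  have hu := cd_diff ((cd_dir (cd_v hV he' hz') c5).mul (c5.inv t2))
  have ju : dir (V e') (fun w => (jm (e ∘ e'.symm) w).det) (e' x) =
      (jm (e ∘ e'.symm) (e' x)).det * (dir (V e') (fun w => (jm (e ∘ e'.symm) w).det) (e' x) *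
        ((jm (e ∘ e'.symm) (e' x)).det)⁻¹) := by
    have : (jm (e ∘ e'.symm) (e' x)).det ≠ 0 := t2
    field_simp
  have ea : ∀ᶠ w in 𝓝 (e' x), a0 M H V e' w = (jm (e ∘ e'.symm) w).det *
      (a0 M H V e ∘ e ∘ e'.symm) w + dir (V e') (fun w => (jm (e ∘ e'.symm) w).det) w *
        ((jm (e ∘ e'.symm) w).det)⁻¹ := by
    filter_upwards [t4] with w k
    have := a0_law hH hV he he' k.2.1 k.2.2.1
    simpa only [jd, k.2.2.2.2.2.1, k.2.2.2.2.2.2, div_eq_mul_inv, Function.comp] using this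
  have cs : ContinuousAt (s e ∘ e ∘ e'.symm) (e' x) :=
    ContinuousAt.comp (ex ▸ (hs.sm e he _ hz).continuousAt) c1.continuousAt
  have eb : ∀ᶠ w in 𝓝 (e' x), b e' w = (jm (e ∘ e'.symm) w).det *
      (b e ∘ e ∘ e'.symm) w + dir (V e') (fun w => (jm (e ∘ e'.symm) w).det) w *
        ((jm (e ∘ e'.symm) w).det)⁻¹ := by
    filter_upwards [t4, ea, cs.eventually_ne (y := 0) (by rwa [Function.comp, ex])] with w k k1 k2
    have := hb.cmp e he e' he' _ k.2.1 k.2.2.1 k2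
    simp only [jd, k.2.2.2.2.2.1, k.2.2.2.2.2.2, Function.comp] at this k1 ⊢
    linear_combination this + k1
  rw [qq_law t1 hv (cd_diff c5) hu ju (ex ▸ cd_diff ((mHOL n _ _).2.2 (hb.hol e he _ hz h0)).1) eb,
    qq_law t1 hv (cd_diff c5) hu ju (ex ▸ cd_diff (cd_a0 hH hV he hz)) ea, ex]
  show _ = (jm (e ∘ e'.symm) (e' x)).det ^ 2 * _
  ring

end Pool.Agent.Lib.NU4
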