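import Pool.Agent.Lib.NU4.Blue

/-! Project nu4: one parallel direction. -/

open scoped Classical Topology Matrix
open Set Filter

noncomputable section

namespace Pool.Agent.Lib.NU4

open Pool.Agent.Lib.SV (E)
open Pool.Agent.Lib.HS32 Pool.Agent.Lib.HLK Pool.Agent.Lib.F4

namespace R1

variable {n : ℕ} {M : Mf n}

theorem nz {σ : Type} {W : M.Fam (σ → ℂ)} (h : ¬Zr M W) : Nz W :=
  by_contra fun c => h fun e he z hz => by_contra fun d => c ⟨e, he, z, hz, d⟩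

theorem zn {σ : Type} {W : M.Fam (σ → ℂ)} (h : Nz W) : ¬Zr M W :=
  fun c => h.elim fun e ⟨he, z, hz, d⟩ => d (c e he z hz)

theorem swp (hFK : St_FK) {V W : M.Fam (E n)} (h : Zr M (wd M V (vec M W))) :
    Zr M (wd M W (vec M V)) := fun e he z hz => by
  have k := h e he z hz
  simp only [wd, vec, Matrix.mulVec_mulVec] at k ⊢
  rw [(hFK n (W e z) (V e z) 0 0 0 0).1, Matrix.neg_mulVec, k, neg_zero]

end R1

open R1 in
theorem st_R1 (hFK : St_FK) (hKIT : St_KIT) (hINF : St_INF) (hSG : St_SG) (hAPS : St_APS)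
    (hNMU : St_NMU) (hSMV : St_SMV) (hPPI : St_PPI) (hNIL : St_NIL) (hCMP : St_CMP)
    (hEXC : St_EXC) (hR2 : St_R2) : St_R1 := by
  intro M _ H a W V bad ⟨w1, w2, w3⟩ hV
  have cx := bad.cx
  have met := cx.kae.toMet
  have kv : ∀ (m : ℕ) U, HT M m U → HM M m (vec M U) ∧ DgM M 1 (vec M U) ∧
      (¬Zr M U ↔ Nz (vec M U)) := fun m => (hKIT 4 M H m 0 met).2.1
  refine or_iff_not_imp_left.2 fun ns => ?_
  have nv : ∀ (m : ℕ) π, HM M m π → Sml M H m π → Nz π → Nz (wd M V π) := fun m π p1 p2 p3 =>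
    nz fun c => ns (hSMV 4 M H a V cx hV
      (Or.inl (((hNMU 4 M H a m 1 π cx p1 p2).2.2 p3).1 V hV.ht c)))
  obtain ⟨u1, -, u3⟩ := kv 2 W w1
  refine ⟨nz fun c => zn (nv 2 _ u1 w3 (u3.1 w2)) (swp hFK c), by_contra fun c => ?_⟩
  obtain ⟨π, p1, p2, p3, p4⟩ := (hEXC M H a 2 bad le_rfl).2.2 ⟨W, w1, w2, w3⟩
  have z1 : Zr M (wd M W π) := (hEXC M H a (2 + 2) bad (by norm_num)).1 _
    (((hKIT 4 M H 2 π met).2.2.1 2 W w1).1 p1)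
    (fun e he z hz => ((hFK 4 (W e z) 0 0 0 0 (π e z)).2.2.2.2.2.2.2.2.2.2.2.2.2.2.2.2.2.2.2.2 2
      (p2 e he z hz)).1) ((hNMU 4 M H a 2 2 π cx p1 p4).2.1 W w1 w3)
  have pw : Par M H a 2 (vec M W) := ((hSG 4 M H a 2 _ cx le_rfl u1).2 w3).2
  have z2 := (hPPI 4 M H a 2 2 W cx le_rfl le_rfl w1 pw).1 π p1
    ((hSG 4 M H a 2 π cx le_rfl p1).2 p4).2 z1
  have z3 := hNIL M H a W V π cx bad.no w1 w2 pw hV.ht p1 p2 z1 z2 (nv 2 π p1 p4 p3)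
  have ch : ∀ j : ℕ, ∃ m, j < m ∧ 2 ≤ m ∧ ∃ U, Wf M H m U := fun j => by
    induction j with
    | zero => exact ⟨2, two_pos, le_rfl, W, w1, w2, w3⟩
    | succ j ih =>
      obtain ⟨m, m1, m2, U, v1, v2, v3⟩ := ih
      have z4 := hR2 M H a 2 m W U bad two_pos (by omega) ⟨w1, w2, w3⟩ ⟨v1, v2, v3⟩
      obtain ⟨ϖ, q1, q2, q3, q4⟩ := hCMP 4 M H m W U V π met m2 w1 w2 v1 v2 hV.ht p1 p2 z4
        ((hPPI 4 M H a 2 m W cx le_rfl m2 w1 pw).2 U v1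
          ((hSG 4 M H a m _ cx m2 (kv m U v1).1).2 v3).2 z4) z1 z3 (nz c)
      have m3 : 2 ≤ 2 * m + 1 := by omega
      exact ⟨2 * m + 1, by omega, m3, (hEXC M H a _ bad m3).2.1 ⟨ϖ, q1, q2, q3,
        hAPS 4 M H _ ϖ cx.kae m3 q1 ((hSG 4 M H a _ ϖ cx m3 q1).1
          (((hNMU 4 M H a 2 _ π cx p1 p4).2.2 p3).2 ϖ q1 q4)).1⟩⟩
  refine infinite_of_forall_exists_gt (fun j => ?_) (hINF 4 M H a cx bad.no).1
  obtain ⟨m, m1, -, U, v1, v2, -⟩ := ch j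
  exact ⟨m, ⟨_, (kv m U v1).1, (kv m U v1).2.2.1 v2⟩, m1⟩

end Pool.Agent.Lib.NU4
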