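import Pool.Agent.Lib.NU4.Rc74c
import Pool.Agent.Lib.NU4.B_QQL
import Pool.Agent.Lib.HLK.B_FK3

/-! Project nu4, row RC: the last bracket of Rankin and Cohen. -/

open scoped Classical Topology ContDiff Matrix Kronecker
open Set

noncomputable section

namespace Pool.Agent.Lib.NU4

open Pool.Agent.Lib.SV (E)
open Pool.Agent.Lib.HS32 Pool.Agent.Lib.HLK Pool.Agent.Lib.F4

namespace R74

variable {n : ℕ}

theorem dir_eq {v : E n → E n} {f : E n → ℂ} {z : E n} (h : DifferentiableAt ℂ f z) :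
    dir v f z = fderiv ℂ f z (v z) := by
  have e : v z = ∑ k, v z k • (Pi.single k 1 : E n) := by
    funext i
    simp [Finset.sum_apply, Pi.single_apply]
  rw [dir, congrArg (fderiv ℂ f z) e, map_sum]
  exact Finset.sum_congr rfl fun k _ => by rw [BHOL.dz_eq h, map_smul, smul_eq_mul]

variable {M : Mf n} {H : M.Fam (Mat n)} {V : M.Fam (E n)} {e e' : M.Ch} {x : M.X}
  (hH : M.Met H) (hV : HT M 1 V) (he : e ∈ M.C) (he' : e' ∈ M.C) (hx : x ∈ e.source)
  (hx' : x ∈ e'.source)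

include hV he he' hx hx'

theorem dir_j : dir (V e') (fun w => (jm (e ∘ e'.symm) w).det) (e' x) =
    jd M e e' x * vj V e e' (e x) := by
  have c := (mCHN n _ _ ((mTR n M).2.1 e he e' he' x hx hx').1).2.2.2.2.1.self_of_nhds
  rw [dir_eq c, chain he he' hx hx' hV c]
  rfl

include hH

theorem a0_law : a0 M H V e' (e' x) = jd M e e' x * a0 M H V e (e x) + vj V e e' (e x) := by
  rw [Q76.a0_law hH hV he he' hx hx', dir_j hV he he' hx hx',
    mul_div_cancel_left₀ _ ((mTR n M).2.1 e he e' he' x hx hx').2.1]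

theorem qq_a0 : qq (V e') (a0 M H V e') (e' x) = jd M e e' x ^ 2 * qq (V e) (a0 M H V e) (e x) +
    (jd M e e' x * fderiv ℂ (vj V e e') (e x) (V e (e x)) - vj V e e' (e x) ^ 2 / 2) := by
  obtain ⟨t1, -, -, t4, -⟩ := (mTR n M).2.1 e he e' he' x hx hx'
  have ex : (e ∘ e'.symm) (e' x) = e x := congrArg e (e'.left_inv hx')
  have hz := e.map_source hx
  have hv : jm (e ∘ e'.symm) (e' x) *ᵥ V e' (e' x) =
      (jm (e ∘ e'.symm) (e' x)).det • V e ((e ∘ e'.symm) (e' x)) := by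
    rw [ex]; simpa only [zpow_one, jd, Mf.J] using hV.cmp e he e' he' x hx hx'
  have v1 : HolN (vj V e e') (e x) := hD (jf_hol he he' hx hx') (hV.hol e he _ hz)
  have v2 : DifferentiableAt ℝ (vj V e e') ((e ∘ e'.symm) (e' x)) :=
    ex ▸ cd_diff (BHOL.smooth v1)
  have ea : ∀ᶠ w in 𝓝 (e' x), a0 M H V e' w = (jm (e ∘ e'.symm) w).det *
      (a0 M H V e ∘ e ∘ e'.symm) w + (vj V e e' ∘ e ∘ e'.symm) w := by
    filter_upwards [t4] with w k
    have := a0_law hH hV he he' k.2.1 k.2.2.1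
    simpa only [jd, k.2.2.2.2.2.1, k.2.2.2.2.2.2, Function.comp] using this
  rw [Q76.qq_law t1 hv (cd_diff (BHOL.smooth (mCHN n _ _ t1).2.2.2.2.1))
    (v2.comp _ (cd_diff (mCHN n _ _ t1).1))
    ((dir_j hV he he' hx hx').trans (by rw [Function.comp, ex]; rfl))
    (ex ▸ cd_diff (Q76.cd_a0 hH hV he hz)) ea, Q76.dir_comp t1 hv v2,
    Function.comp_apply (f := vj V e e'), ex, dir_eq v1.self_of_nhds]
  rfl

end R74

open R74 in
theorem st_RC (hE : St_EIG) (hL : St_LIE) : St_RC := by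
  intro n M _ H V m g q hH hV m2 hg nz z0 pr hq fin
  obtain ⟨b, hb, he1, -⟩ := hE n M H V m g hH hV.ht m2 hg z0 pr
  obtain ⟨w, rfl⟩ : ∃ w, m = w + 1 := ⟨m - 1, by omega⟩
  have D : Dat V (fun e e' x => La (M.J e e' x)) (w + 1) w g (fun e z => -dL (dj (V e) z)) b q := by
    refine ⟨hV.ht, by omega, hg.hol, nz, hg.cmp, fun e he e' he' x hx hx' i j => ?_,
      fun e he z hz i j => ?_, hb.hol, fun e he z hz h i => ?_, fun e he e' he' x hx hx' h => ?_,
      hq.hol, fun e he e' he' x hx hx' => ?_⟩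
    · exact (FK3.sm (mCHN n _ _ ((mTR n M).2.1 e he e' he' x hx hx').1).2.1 i j).continuousAt.comp
        (e'.continuousAt hx')
    · simp only [dL, Matrix.neg_apply, Matrix.sum_apply, Matrix.smul_apply, smul_eq_mul]
      exact (hsum _ fun a => hsum _ fun c =>
        hmul (BHOL.hol_dz (hV.ht.hol e he z hz a) c) (hC _)).mono fun _ k => k.fun_neg
    · have v := hV.ht.hol e he z hz
      have l1 := (hL n (V e) (V e) (g e) (fun _ => 0) z v v (hg.hol e he z hz)
        (hC 0)).2.2.2.2.2.2.2.1 (z0.ev he hz)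
      have d0 : dv (V e) z = 0 := hV.dv0 e he z hz
      rw [he1 e he z hz h, d0, zero_smul, add_zero] at l1
      have l2 := congrFun l1 i
      simp only [lder, dirv, Pi.sub_apply, Pi.smul_apply, smul_eq_mul,
        dir_eq (hg.hol e he z hz i).self_of_nhds] at l2
      rw [Lt, Matrix.neg_mulVec, Pi.neg_apply]
      push_cast at l2
      linear_combination -l2
    · linear_combination hb.cmp e he e' he' x hx hx' h + a0_law hH hV.ht he he' hx hx'
    · linear_combination qq_a0 hH hV.ht he he' hx hx' - hq.cmp e he e' he' x hx hx'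
  obtain ⟨N, n1, n2⟩ := D.last (fin.subset fun N ⟨h, h1, h2⟩ => ⟨h, ⟨h1.1, h1.2⟩, h2⟩)
  have k0 : ((N : ℂ) + (2 * w : ℕ)) ≠ 0 := by
    have := D.w0
    exact_mod_cast (by omega : N + 2 * w ≠ 0)
  refine ⟨_, _, be (N + (2 * w : ℕ)) _ _, N + (2 * w : ℕ), ⟨D.bf_hol N, D.bf_cmp N⟩, n1, ⟨fun e he z hz h => D.be_hol k0 he hz h,
    fun e he e' he' x hx hx' h => ?_⟩, ⟨fun e y => a2 (Equiv.refl _) (-dL (dj (V e) y)),
    fun e he z hz => ⟨fun i j => (a2_hol _ (D.hA e he z hz) i j).self_of_nhds.continuousAt,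
      fun h => funext fun t => ?_⟩⟩, fun e he z hz h => ?_⟩
  · linear_combination D.be_law k0 rfl e he e' he' x hx hx' h - a0_law hH hV.ht he he' hx hx'
  · rw [Pi.add_apply, dirv, dir_eq (D.bf_hol N e he z hz t).self_of_nhds]
    exact D.be_eq k0 he hz h t
  · rw [qq, dir_eq (D.be_hol k0 he hz h).self_of_nhds]
    exact D.be_ric k0 rfl n2 he hz h

end Pool.Agent.Lib.NU4
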