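import Pool.Agent.Lib.F4.BlueS

/-! Project nu4: the recurrence argument. A vector field with values in `2 K` whose divergence is
the limit of the derivatives of weights has no meromorphic time function. -/

open scoped Classical Topology ContDiff ComplexOrder Matrix
open Set Filter MeasureTheory

set_option linter.unusedVariables false

noncomputable section

namespace Pool.Agent.Lib.NU4.R93

open Pool.Agent.Lib.SV (E)
open Pool.Agent.Lib.HS32 Pool.Agent.Lib.HLK Pool.Agent.Lib.F4

variable {n : ℕ}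

/-- The derivative of `g` along `W`. -/
def vd (W : E n → E n) (g : E n → ℂ) (z : E n) : ℂ := ∑ j, W z j * dz j g z

theorem vd_mul {W : E n → E n} {f g : E n → ℂ} {z : E n} (hf : DifferentiableAt ℝ f z)
    (hg : DifferentiableAt ℝ g z) :
    vd W (fun w => f w * g w) z = vd W f z * g z + f z * vd W g z := by
  simp only [vd, dz_mul hf hg, Finset.sum_mul, Finset.mul_sum, ← Finset.sum_add_distrib]
  exact Finset.sum_congr rfl fun j _ => by ring

theorem vd_congr {W : E n → E n} {f g : E n → ℂ} {z : E n} (e : f =ᶠ[𝓝 z] g) :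
    vd W f z = vd W g z := by simp only [vd, dz_congr e]

theorem vd_comp {W : E n → E n} {f : E n → ℂ} {z : E n} {φ : ℂ → ℂ} {c : ℂ}
    (hφ : HasDerivAt φ c (f z)) (hf : DifferentiableAt ℝ f z) :
    vd W (fun w => φ (f w)) z = c * vd W f z := by
  simp only [vd, dz_comp hφ hf, Finset.mul_sum]
  exact Finset.sum_congr rfl fun j _ => by ring

theorem vd_comp_real {W : E n → E n} {u : E n → ℝ} {z : E n} {φ : ℝ → ℝ} {c : ℝ}
    (hφ : HasDerivAt φ c (u z)) (hu : DifferentiableAt ℝ u z) :
    vd W (fun w => (φ (u w) : ℂ)) z = c * vd W (fun w => (u w : ℂ)) z := by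
  simp only [vd, dz_comp_real hφ hu, Finset.mul_sum]
  exact Finset.sum_congr rfl fun j _ => by ring

theorem vd_star {W : E n → E n} {f : E n → ℂ} {z : E n} (hf : HolN f z) :
    vd W (fun w => star (f w)) z = 0 := by
  have d := cd_diff ((mHOL n f z).2.2 hf).1
  simp only [vd, dz_star d, ((mHOL n f z).1 d).1 hf.self_of_nhds, star_zero, mul_zero,
    Finset.sum_const_zero]

theorem dv_smul {W : E n → E n} {g : E n → ℂ} {z : E n} (hg : DifferentiableAt ℝ g z)
    (hW : ∀ i, DifferentiableAt ℝ (fun w => W w i) z) :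
    dv (fun w => g w • W w) z = vd W g z + g z * dv W z := by
  simp only [dv, vd, Pi.smul_apply, smul_eq_mul, Finset.mul_sum, ← Finset.sum_add_distrib]
  exact Finset.sum_congr rfl fun j _ => by rw [dz_mul hg (hW j)]; ring

theorem one_add_ne (s : ℂ) : 1 + s * star s ≠ 0 := by
  rw [show star s = (starRingEnd ℂ) s from rfl, Complex.mul_conj]
  have : (0 : ℝ) < 1 + Complex.normSq s := by linarith [Complex.normSq_nonneg s]
  exact_mod_cast this.ne'

/-- The test function. -/
def tf (f : E n → ℂ) (φ : E n → ℝ) (w : E n) : ℂ :=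
  f w * (Real.exp (φ w) : ℝ) * (1 + f w * (Real.exp (φ w) : ℝ) * star (f w * (Real.exp (φ w) : ℝ)))⁻¹

theorem cd_tf {f : E n → ℂ} {φ : E n → ℝ} {z : E n} (hf : ContDiffAt ℝ ∞ f z)
    (hφ : ContDiffAt ℝ ∞ φ z) : ContDiffAt ℝ ∞ (tf f φ) z := by
  have s := hf.mul (cd_ofReal hφ.exp)
  exact s.mul ((contDiffAt_const.add (s.mul (cd_star s))).inv (one_add_ne _))

theorem bd1 (s : ℂ) : ‖s * (1 + s * star s)⁻¹‖ ≤ 1 := by
  rw [show star s = (starRingEnd ℂ) s from rfl, Complex.mul_conj, norm_mul, norm_inv,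
    ← Complex.ofReal_one, ← Complex.ofReal_add, Complex.norm_real, Complex.normSq_eq_norm_sq,
    Real.norm_of_nonneg (by positivity), ← div_eq_mul_inv, div_le_one (by positivity)]
  nlinarith [sq_nonneg (‖s‖ - 1)]

theorem bd2 (s : ℂ) : ‖(1 - s * star s) * (1 + s * star s)⁻¹‖ ≤ 1 := by
  rw [show star s = (starRingEnd ℂ) s from rfl, Complex.mul_conj, norm_mul, norm_inv,
    ← Complex.ofReal_one, ← Complex.ofReal_add, ← Complex.ofReal_sub, Complex.norm_real,
    Complex.norm_real, Complex.normSq_eq_norm_sq,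
    Real.norm_of_nonneg (r := 1 + ‖s‖ ^ 2) (by positivity), ← div_eq_mul_inv,
    div_le_one (by positivity), Real.norm_eq_abs, abs_le]
  constructor <;> nlinarith [sq_nonneg ‖s‖]

/-- The pointwise inequality. -/
theorem pt {W : E n → E n} {f : E n → ℂ} {φ c : E n → ℝ} {z : E n}
    (hW : ∀ i, DifferentiableAt ℝ (fun w => W w i) z) (hf : HolN f z)
    (hφ : ContDiffAt ℝ ∞ φ z) (hc : ContDiffAt ℝ ∞ c z) (c0 : 0 ≤ c z) (c1 : c z ≤ 1)
    (eq : vd W f z + 2 * dv W z * f z = 1) :
    c z * Real.exp (φ z) / (1 + Complex.normSq (f z) * Real.exp (φ z) ^ 2) ^ 2 -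
      ‖vd W (fun w => (φ w : ℂ)) z - dv W z‖ - ‖vd W (fun w => (c w : ℂ)) z‖ ≤
      (dv (fun w => ((c w : ℂ) * tf f φ w) • W w) z).re := by
  have sf := ((mHOL n f z).2.2 hf).1
  have sA := cd_ofReal hφ.exp
  have ss := sf.mul sA
  have st := ss.mul (cd_star ss)
  have dA : vd W (fun w => (Real.exp (φ w) : ℂ)) z =
      (Real.exp (φ z) : ℝ) * vd W (fun w => (φ w : ℂ)) z :=
    vd_comp_real (Real.hasDerivAt_exp _) (cd_diff hφ)
  have ds := vd_mul (W := W) (cd_diff sf) (cd_diff sA)
  have dss : vd W (fun w => star (f w * (Real.exp (φ w) : ℝ))) z =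
      star (f z) * ((Real.exp (φ z) : ℝ) * vd W (fun w => (φ w : ℂ)) z) := by
    have : (fun w => star (f w * (Real.exp (φ w) : ℝ))) =
        fun w => star (f w) * (Real.exp (φ w) : ℝ) := funext fun w => by
      rw [star_mul', Complex.star_def, Complex.conj_ofReal]
    rw [this, vd_mul (cd_diff (cd_star sf)) (cd_diff sA), vd_star hf, dA, zero_mul, zero_add]
  have dt := vd_mul (W := W) (cd_diff ss) (cd_diff (cd_star ss))
  have n0 := one_add_ne (f z * (Real.exp (φ z) : ℝ))
  have di := vd_comp (W := W) (φ := fun t => (1 + t)⁻¹) (z := z)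
    (f := fun w => f w * (Real.exp (φ w) : ℝ) * star (f w * (Real.exp (φ w) : ℝ)))
    (((hasDerivAt_id' _).const_add 1).inv n0) (cd_diff st)
  have dtf : vd W (tf f φ) z = _ :=
    vd_mul (W := W) (cd_diff ss) (cd_diff ((contDiffAt_const.add st).inv n0))
  have es : star (f z * (Real.exp (φ z) : ℝ)) = star (f z) * (Real.exp (φ z) : ℝ) := by
    rw [star_mul', Complex.star_def, Complex.conj_ofReal]
  have key : dv (fun w => ((c w : ℂ) * tf f φ w) • W w) z =
      (c z : ℂ) * (Real.exp (φ z) : ℝ) *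
        ((1 + f z * (Real.exp (φ z) : ℝ) * star (f z * (Real.exp (φ z) : ℝ)))⁻¹) ^ 2 +
      (c z : ℂ) * (vd W (fun w => (φ w : ℂ)) z - dv W z) * tf f φ z *
        ((1 - f z * (Real.exp (φ z) : ℝ) * star (f z * (Real.exp (φ z) : ℝ))) *
          (1 + f z * (Real.exp (φ z) : ℝ) * star (f z * (Real.exp (φ z) : ℝ)))⁻¹) +
      vd W (fun w => (c w : ℂ)) z * tf f φ z := by
    rw [dv_smul (cd_diff ((cd_ofReal hc).mul (cd_tf sf hφ))) hW,
      vd_mul (cd_diff (cd_ofReal hc)) (cd_diff (cd_tf sf hφ)), dtf]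
    erw [di]
    rw [dt, ds, dss, dA, eq_sub_of_add_eq eq, tf]
    rw [es] at n0 ⊢
    field_simp
    ring
  have r1 : ((c z : ℂ) * (Real.exp (φ z) : ℝ) *
        ((1 + f z * (Real.exp (φ z) : ℝ) * star (f z * (Real.exp (φ z) : ℝ)))⁻¹) ^ 2) =
      ((c z * Real.exp (φ z) / (1 + Complex.normSq (f z) * Real.exp (φ z) ^ 2) ^ 2 : ℝ) : ℂ) := by
    rw [Complex.star_def, Complex.mul_conj, Complex.normSq_mul, Complex.normSq_ofReal]
    push_cast
    rw [div_eq_mul_inv, inv_pow]
    ring
  have b1 : ‖tf f φ z‖ ≤ 1 := bd1 _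
  have b2 := bd2 (f z * (Real.exp (φ z) : ℝ))
  rw [key, r1, Complex.add_re, Complex.add_re, Complex.ofReal_re]
  have h2 := (abs_le.1 (Complex.abs_re_le_norm ((c z : ℂ) *
    (vd W (fun w => (φ w : ℂ)) z - dv W z) * tf f φ z *
        ((1 - f z * (Real.exp (φ z) : ℝ) * star (f z * (Real.exp (φ z) : ℝ))) *
          (1 + f z * (Real.exp (φ z) : ℝ) * star (f z * (Real.exp (φ z) : ℝ)))⁻¹)))).1
  have h3 := (abs_le.1 (Complex.abs_re_le_norm (vd W (fun w => (c w : ℂ)) z * tf f φ z))).1
  rw [norm_mul, norm_mul, norm_mul, Complex.norm_real, Real.norm_of_nonneg c0] at h2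
  rw [norm_mul] at h3
  have k2 : c z * ‖vd W (fun w => (φ w : ℂ)) z - dv W z‖ * ‖tf f φ z‖ *
      ‖(1 - f z * (Real.exp (φ z) : ℝ) * star (f z * (Real.exp (φ z) : ℝ))) *
          (1 + f z * (Real.exp (φ z) : ℝ) * star (f z * (Real.exp (φ z) : ℝ)))⁻¹‖ ≤
      ‖vd W (fun w => (φ w : ℂ)) z - dv W z‖ :=
    (mul_le_of_le_one_right (by positivity) b2).trans
      ((mul_le_of_le_one_right (by positivity) b1).trans
        (mul_le_of_le_one_left (norm_nonneg _) c1))
  have k3 := mul_le_of_le_one_right (norm_nonneg (vd W (fun w => (c w : ℂ)) z)) b1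
  linarith

/-- The cut-off function. -/
def ch (t : ℝ) : ℝ := Real.smoothTransition (t - 1)

theorem ch_sm : ContDiff ℝ ∞ ch :=
  Real.smoothTransition.contDiff.comp (contDiff_id.sub contDiff_const)

theorem ch_zero {t : ℝ} (h : t ≤ 1) : ch t = 0 :=
  Real.smoothTransition.zero_of_nonpos (by linarith)

theorem ch_one {t : ℝ} (h : 2 ≤ t) : ch t = 1 :=
  Real.smoothTransition.one_of_one_le (by linarith)

theorem ch_mono : Monotone ch := fun a b h =>
  Real.smoothTransition.monotone (by linarith)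

theorem ch_nn (t : ℝ) : 0 ≤ ch t := Real.smoothTransition.nonneg _

theorem ch_le (t : ℝ) : ch t ≤ 1 := Real.smoothTransition.le_one _

/-- The size of the derivative of the cut-off function. -/
def ka (t : ℝ) : ℝ := |deriv ch t| * t

theorem ka_cont : Continuous ka :=
  ((ch_sm.continuous_deriv (by simp)).abs).mul continuous_id

theorem ka_zero {t : ℝ} (h : 2 < t) : ka t = 0 := by
  have : ch =ᶠ[𝓝 t] fun _ => 1 := (eventually_gt_nhds h).mono fun s hs => ch_one hs.le
  rw [ka, this.deriv_eq, deriv_const, abs_zero, zero_mul]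

theorem ka_bd : ∃ K : ℝ, ∀ t, 0 ≤ t → ‖ka t‖ ≤ K := by
  obtain ⟨K, hK⟩ := (isCompact_Icc (a := (0 : ℝ)) (b := 2)).exists_bound_of_continuousOn
    ka_cont.continuousOn
  refine ⟨K, fun t ht => ?_⟩
  by_cases h : t ≤ 2
  · exact hK t ⟨ht, h⟩
  · rw [ka_zero (not_le.1 h), norm_zero]
    exact (norm_nonneg _).trans (hK 0 ⟨le_rfl, by norm_num⟩)

theorem ka_lim {X : Type} [MeasurableSpace X] [TopologicalSpace X] [BorelSpace X] (μ : Measure X)
    [IsFiniteMeasure μ] {ν : X → ℝ} (hν : Continuous ν) (ν0 : ∀ x, 0 ≤ ν x) {b : ℝ} (hb : 0 < b) :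
    Tendsto (fun k : ℕ => ∫ x, ka (((k : ℝ) + 1) * b * ν x) ∂μ) atTop (𝓝 0) := by
  obtain ⟨K, hK⟩ := ka_bd
  have := tendsto_integral_of_dominated_convergence (μ := μ)
    (F := fun (k : ℕ) x => ka (((k : ℝ) + 1) * b * ν x)) (f := fun _ => (0 : ℝ)) (fun _ => K)
    (fun k => (ka_cont.comp (continuous_const.mul hν)).aestronglyMeasurable) (integrable_const _)
    (fun k => Eventually.of_forall fun x => hK _ (by have := ν0 x; positivity))
    (Eventually.of_forall fun x => by
      rcases (ν0 x).eq_or_lt with h | h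
      · simp only [← h, mul_zero, ka, tendsto_const_nhds]
      · have t : Tendsto (fun k : ℕ => ((k : ℝ) + 1) * b * ν x) atTop atTop :=
          ((tendsto_atTop_add_const_right _ 1 tendsto_natCast_atTop_atTop).atTop_mul_const
            hb).atTop_mul_const h
        exact tendsto_const_nhds.congr' ((t.eventually_gt_atTop 2).mono fun k hk =>
          (ka_zero hk).symm))
  simpa using this

variable {M : Mf n}

/-- A function that is smooth where `ν` is not zero, times the cut-off function. -/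
theorem cd_cut {ν : M.X → ℝ} (hν : M.Sm ν) (a : ℝ) {g : M.Fam ℂ}
    (hg : M.All fun e z => ν (e.symm z) ≠ 0 → ContDiffAt ℝ ∞ (g e) z) :
    M.All fun e z => ContDiffAt ℝ ∞ (fun w => (ch (a * ν (e.symm w)) : ℂ) * g e w) z :=
  fun e he z hz => by
    have s : ContDiffAt ℝ ∞ (fun w => a * ν (e.symm w)) z := contDiffAt_const.mul (hν e he z hz)
    by_cases h : ν (e.symm z) = 0
    · refine (contDiffAt_const (c := (0 : ℂ))).congr_of_eventuallyEq ?_
      have : a * ν (e.symm z) < 1 := by rw [h, mul_zero]; exact one_pos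
      filter_upwards [s.continuousAt.eventually_lt continuousAt_const this] with w hw
      rw [ch_zero hw.le, Complex.ofReal_zero, zero_mul]
    · exact (cd_ofReal (ch_sm.contDiffAt.comp z s)).mul (hg e he z hz h)

theorem det_cmp {H : M.Fam (Mat n)} (hH : M.Met H) : M.Ov fun e e' x =>
    (H e' (e' x)).det.re = Complex.normSq (jd M e e' x) * (H e (e x)).det.re :=
  fun e he e' he' x hx hx' => by
    beta_reduce
    rw [hH.cmp e he e' he' x hx hx', Matrix.det_mul, Matrix.det_mul, Matrix.det_conjTranspose,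
      mul_right_comm, ← Complex.re_ofReal_mul, Complex.normSq_eq_conj_mul_self]
    rfl

/-- One step. -/
theorem step [M.Cpt] {H : M.Fam (Mat n)} (hH : M.Met H) {W : M.Fam (E n)} (hW : HT M 2 W)
    {ν : M.X → ℝ} (hν : M.Sm ν) (ν0 : ∀ x, 0 ≤ ν x) {C : ℝ}
    (hC : M.All fun e z => ‖vd (W e) (M.lc ν e) z‖ ≤ C * ν (e.symm z) * (H e z).det.re)
    {f : M.Fam ℂ} (fh : M.All fun e z => ν (e.symm z) ≠ 0 →
      HolN (f e) z ∧ vd (W e) (f e) z + 2 * dv (W e) z * f e z = 1)
    (fc : M.Ov fun e e' x => ν x ≠ 0 → jd M e e' x ^ 2 * f e' (e' x) = f e (e x))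
    {u B ψ : M.X → ℝ} (su : M.Sm u) (u0 : ∀ x, u x ≤ 0) (cB : Continuous B) (cψ : Continuous ψ)
    (hB : M.All fun e z => ‖vd (W e) (fun w => ((ph M H e w + u (e.symm w) : ℝ) : ℂ)) z -
      dv (W e) z‖ ≤ B (e.symm z) * (H e z).det.re) {a : ℝ} (ha : 0 < a)
    (hψ : M.All fun e z => ψ (e.symm z) ≤
      ch (a * ν (e.symm z)) / (1 + Complex.normSq (f e z) * (H e z).det.re ^ 2) ^ 2) :
    ∫ x, ψ x * Real.exp (u x) ∂M.mu H ≤ ∫ x, B x ∂M.mu H + C * ∫ x, ka (a * ν x) ∂M.mu H := by
  have sW : M.All fun e z => ∀ i, ContDiffAt ℝ ∞ (fun w => W e w i) z := fun e he z hz i =>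
    ((mHOL n _ z).2.2 (hW.hol e he z hz i)).1
  have wt := (mINV n M H hH).2.2.2.2.2.2.1
  have sφ : M.All fun e z => ContDiffAt ℝ ∞ (fun w => ph M H e w + u (e.symm w)) z :=
    fun e he z hz => (wt.sm e he z hz).add (su e he z hz)
  have ex : M.All fun e z => Real.exp (ph M H e z + u (e.symm z)) =
      (H e z).det.re * Real.exp (u (e.symm z)) := fun e he z hz => by
    beta_reduce
    rw [Real.exp_add, ph, Real.exp_log (Mf.pd_det_re (hH.pos e he z hz))]
  have sG := cd_cut hν a (g := fun e => tf (f e) fun w => ph M H e w + u (e.symm w))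
    fun e he z hz h => cd_tf ((mHOL n _ z).2.2 (fh e he z hz h).1).1 (sφ e he z hz)
  obtain ⟨-, h2, h3⟩ := (mDIV n M H hH).2.1 (fun e z => ((ch (a * ν (e.symm z)) : ℂ) *
      tf (f e) (fun w => ph M H e w + u (e.symm w)) z) • W e z)
    ⟨fun e he z hz => contDiffAt_pi.2 fun i => (sG e he z hz).mul (sW e he z hz i),
    fun e he e' he' x hx hx' => by
      have a1 := hW.cmp e he e' he' x hx hx'
      have e1 := ex.at he hx
      have e2 := ex.at he' hx'
      have d := det_cmp hH e he e' he' x hx hx'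
      have j0 := ((mTR n M).2.1 e he e' he' x hx hx').2.1
      beta_reduce at a1 e1 e2 d ⊢
      rw [Matrix.mulVec_smul, a1, smul_smul, smul_smul, tf, tf, e1, e2, d, e.left_inv hx,
        e'.left_inv hx']
      congr 1
      by_cases h : ν x = 0
      · rw [h, mul_zero, ch_zero zero_le_one]
        simp
      · have c := fc e he e' he' x hx hx' h
        have k : f e' (e' x) * ((Complex.normSq (jd M e e' x) * (H e (e x)).det.re *
              Real.exp (u x) : ℝ) : ℂ) * star (f e' (e' x) * ((Complex.normSq (jd M e e' x) *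
              (H e (e x)).det.re * Real.exp (u x) : ℝ) : ℂ)) =
            f e (e x) * (((H e (e x)).det.re * Real.exp (u x) : ℝ) : ℂ) *
              star (f e (e x) * (((H e (e x)).det.re * Real.exp (u x) : ℝ) : ℂ)) := by
          rw [Complex.star_def, Complex.mul_conj, Complex.mul_conj, ← c]
          simp only [map_mul, map_pow, Complex.normSq_ofReal]
          congr 1
          ring
        rw [k, ← c, zpow_ofNat]
        simp only [Complex.ofReal_mul]
        ring⟩
  have I := (mMU n M H hH).2.2.2.2.1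
  have i := I _ _ h2.continuous
  have r := congrArg Complex.re (h3 inferInstance)
  rw [Complex.zero_re, show ∀ z : ℂ, z.re = RCLike.re z from fun _ => rfl, ← integral_re i] at r
  have i1 := I _ _ (cψ.mul su.exp.continuous)
  have i2 := I _ _ cB
  have i3 := (I _ _ (ka_cont.comp (continuous_const.mul hν.continuous :
    Continuous fun x => a * ν x))).const_mul C
  have key : M.All fun e z => ψ (e.symm z) * Real.exp (u (e.symm z)) - B (e.symm z) -
      C * ka (a * ν (e.symm z)) ≤ (dv (fun w => ((ch (a * ν (e.symm w)) : ℂ) *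
      tf (f e) (fun w => ph M H e w + u (e.symm w)) w) • W e w) z / (H e z).det).re :=
    fun e he z hz => by
      have D := Mf.pd_det_re (hH.pos e he z hz)
      have sa : ContDiffAt ℝ ∞ (fun w => a * ν (e.symm w)) z :=
        contDiffAt_const.mul (hν e he z hz)
      have b := hB e he z hz
      have p := hψ e he z hz
      have eu : Real.exp (u (e.symm z)) ≤ 1 := Real.exp_le_one_iff.2 (u0 _)
      have ep := Real.exp_pos (u (e.symm z))
      beta_reduce at b p ⊢
      rw [← Mf.herm_det (hH.pos e he z hz).1, Complex.div_ofReal_re, le_div_iff₀ D]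
      by_cases h : ν (e.symm z) = 0
      · have lt : a * ν (e.symm z) < 1 := by rw [h, mul_zero]; exact one_pos
        have z0 : dv (fun w => ((ch (a * ν (e.symm w)) : ℂ) *
            tf (f e) (fun w => ph M H e w + u (e.symm w)) w) • W e w) z = 0 := by
          refine Finset.sum_eq_zero fun j _ => (dz_congr ?_).trans (dz_const (0 : ℂ))
          filter_upwards [sa.continuousAt.eventually_lt continuousAt_const lt] with w hw
          rw [ch_zero hw.le, Complex.ofReal_zero, zero_mul, zero_smul, Pi.zero_apply]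
        rw [ch_zero lt.le, zero_div] at p
        rw [z0, h, mul_zero, ka, mul_zero, mul_zero, sub_zero, Complex.zero_re, sub_mul]
        have := mul_nonpos_of_nonpos_of_nonneg (mul_nonpos_of_nonpos_of_nonneg p ep.le) D.le
        linarith [norm_nonneg (vd (W e) (fun w => ((ph M H e w + u (e.symm w) : ℝ) : ℂ)) z -
          dv (W e) z)]
      · have q := pt (c := fun w => ch (a * ν (e.symm w))) (fun i => cd_diff (sW e he z hz i))
          (fh e he z hz h).1 (sφ e he z hz) (ch_sm.contDiffAt.comp z sa) (ch_nn _) (ch_le _)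
          (fh e he z hz h).2
        refine le_trans ?_ q
        have dc : vd (W e) (fun w => (ch (a * ν (e.symm w)) : ℂ)) z =
            ((deriv ch (a * ν (e.symm z)) * a : ℝ) : ℂ) * vd (W e) (M.lc ν e) z :=
          vd_comp_real (u := fun w => ν (e.symm w)) (φ := fun t => ch (a * t))
            (((ch_sm.differentiable (by simp) _).hasDerivAt.comp _
              ((hasDerivAt_id' _).const_mul a)).congr_deriv (by rw [mul_one]))
            (cd_diff (hν e he z hz))
        have c3 : ‖vd (W e) (fun w => (ch (a * ν (e.symm w)) : ℂ)) z‖ ≤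
            C * ka (a * ν (e.symm z)) * (H e z).det.re := by
          rw [dc, norm_mul, Complex.norm_real, Real.norm_eq_abs, abs_mul, abs_of_pos ha, ka]
          exact (mul_le_mul_of_nonneg_left (hC e he z hz) (by positivity)).trans_eq (by ring)
        have c1 : ψ (e.symm z) * Real.exp (u (e.symm z)) * (H e z).det.re ≤
            ch (a * ν (e.symm z)) * Real.exp (ph M H e z + u (e.symm z)) /
              (1 + Complex.normSq (f e z) * Real.exp (ph M H e z + u (e.symm z)) ^ 2) ^ 2 := by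
          have nf := Complex.normSq_nonneg (f e z)
          have cn := ch_nn (a * ν (e.symm z))
          rw [ex e he z hz, mul_div_right_comm, mul_assoc, mul_comm (Real.exp _)]
          refine mul_le_mul_of_nonneg_right (p.trans ?_) (by positivity)
          have := mul_le_of_le_one_right D.le eu
          gcongr
        rw [sub_mul, sub_mul]
        linarith
  have m := integral_mono ((i1.sub i2).sub i3) i.re fun x => by
    have := key.ch x
    rw [Mf.ch_symm] at this
    exact this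
  rw [r, integral_sub' (i1.sub i2) i3, integral_sub' i1 i2, integral_const_mul] at m
  simp only [Function.comp_def, Pi.mul_apply] at m
  linarith

/-- The recurrence argument. -/
theorem core [M.Cpt] {H : M.Fam (Mat n)} (hH : M.Met H) {W : M.Fam (E n)} (hW : HT M 2 W)
    {ν : M.X → ℝ} (hν : M.Sm ν) (ν0 : ∀ x, 0 ≤ ν x) (x0 : ∃ x, ν x ≠ 0) {C : ℝ}
    (hC : M.All fun e z => ‖vd (W e) (M.lc ν e) z‖ ≤ C * ν (e.symm z) * (H e z).det.re)
    {f : M.Fam ℂ} (fh : M.All fun e z => ν (e.symm z) ≠ 0 →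
      HolN (f e) z ∧ vd (W e) (f e) z + 2 * dv (W e) z * f e z = 1)
    (fc : M.Ov fun e e' x => ν x ≠ 0 → jd M e e' x ^ 2 * f e' (e' x) = f e (e x)) {A : ℝ}
    (hP : ∀ η : ℝ, 0 < η → ∃ u B : M.X → ℝ, M.Sm u ∧ (∀ x, u x ≤ 0) ∧
      ∫ x, Real.exp (-u x) ∂M.mu H ≤ A ∧ Continuous B ∧ ∫ x, B x ∂M.mu H ≤ η ∧
      M.All fun e z => ‖vd (W e) (fun w => ((ph M H e w + u (e.symm w) : ℝ) : ℂ)) z -
        dv (W e) z‖ ≤ B (e.symm z) * (H e z).det.re) : False := by
  obtain ⟨x0, h0⟩ := x0
  have p0 : 0 < ν x0 := (ν0 x0).lt_of_ne' h0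
  obtain ⟨-, fin, op, -, I, -⟩ := mMU n M H hH
  have pos : ∀ (s : ℂ) (d : ℝ), 0 < (1 + Complex.normSq s * d ^ 2) ^ 2 := fun s d => by
    have := Complex.normSq_nonneg s
    positivity
  have hb : 0 < 2 / ν x0 := by positivity
  have wt := (mINV n M H hH).2.2.2.2.2.2.1
  have sm := cd_cut hν (2 / ν x0)
    (g := fun e z => ((((1 + Complex.normSq (f e z) * (H e z).det.re ^ 2) ^ 2)⁻¹ : ℝ) : ℂ))
    fun e he z hz h => by
      have s := ((mHOL n _ z).2.2 (fh e he z hz h).1).1
      have s1 : ContDiffAt ℝ ∞ (fun w => Complex.normSq (f e w)) z :=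
        (cd_re (s.mul (cd_star s))).congr_of_eventuallyEq (Eventually.of_forall fun w => by
          simp only [Complex.star_def, Complex.mul_conj, Complex.ofReal_re])
      exact cd_ofReal (((contDiffAt_const.add
        (s1.mul ((cd_re (hH.sm e he z hz).det).pow 2))).pow 2).inv (pos _ _).ne')
  have inv : M.Inv fun e z => ch (2 / ν x0 * ν (e.symm z)) /
      (1 + Complex.normSq (f e z) * (H e z).det.re ^ 2) ^ 2 := fun e he e' he' x hx hx' => by
    beta_reduce
    rw [e.left_inv hx, e'.left_inv hx']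
    by_cases h : ν x = 0
    · rw [h, mul_zero, ch_zero zero_le_one, zero_div, zero_div]
    · rw [det_cmp hH e he e' he' x hx hx', ← fc e he e' he' x hx hx' h, map_mul, map_pow]
      congr 3
      ring
  have cψ := (inv.sm fun e he z hz => (cd_re (sm e he z hz)).congr_of_eventuallyEq
    (Eventually.of_forall fun w => by
      simp only [← Complex.ofReal_mul, Complex.ofReal_re, div_eq_mul_inv])).continuous
  have rep := inv.rep
  set ψ := M.ev fun e z => ch (2 / ν x0 * ν (e.symm z)) /
      (1 + Complex.normSq (f e z) * (H e z).det.re ^ 2) ^ 2 with hψ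
  have ψ0 : ∀ x, 0 ≤ ψ x := fun x => div_nonneg (ch_nn _) (pos _ _).le
  have ψ1 : ∀ x, ψ x ≤ 1 := fun x => by
    refine (div_le_one (pos _ _)).2 ((ch_le _).trans (one_le_pow₀ ?_))
    exact le_add_of_nonneg_right (mul_nonneg (Complex.normSq_nonneg _) (sq_nonneg _))
  have ψp : ψ x0 ≠ 0 := by
    refine (div_pos ?_ (pos _ _)).ne'
    rw [Mf.ch_symm, div_mul_cancel₀ _ h0, ch_one le_rfl]
    exact one_pos
  have ip : 0 < ∫ x, ψ x ∂M.mu H :=
    cψ.integral_pos_of_hasCompactSupport_nonneg_nonzero (HasCompactSupport.of_compactSpace _) ψ0 ψp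
  set P := ∫ x, ψ x ∂M.mu H with hPd
  clear_value P ψ
  obtain ⟨u, B, su, u0, hA, cB, hη, hB⟩ := hP (P ^ 2 / (2 * (|A| + 1))) (by positivity)
  have s1 : ∫ x, ψ x * Real.exp (u x) ∂M.mu H ≤ P ^ 2 / (2 * (|A| + 1)) := by
    have t := ((ka_lim (M.mu H) hν.continuous ν0 hb).const_mul C).const_add (∫ x, B x ∂M.mu H)
    rw [mul_zero, add_zero] at t
    refine (ge_of_tendsto' t fun k => ?_).trans hη
    have ak : 0 < ((k : ℝ) + 1) * (2 / ν x0) := mul_pos (Nat.cast_add_one_pos k) hb
    refine step hH hW hν ν0 hC fh fc su u0 cB cψ hB ak fun e he z hz => ?_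
    beta_reduce
    rw [rep e he z hz]
    refine div_le_div_of_nonneg_right (ch_mono (mul_le_mul_of_nonneg_right ?_ (ν0 _)))
      (pos _ _).le
    exact le_mul_of_one_le_left hb.le (by simp)
  have l0 : 0 < (|A| + 1) / P := by positivity
  have i1 := (I _ _ (cψ.mul su.exp.continuous)).const_mul ((|A| + 1) / P)
  have i2 := (I _ _ su.neg.exp.continuous).const_mul ((|A| + 1) / P)⁻¹
  have m := integral_mono ((I _ _ cψ).const_mul 2) (i1.add i2) fun x => by
    have a := ψ0 x
    have b := ψ1 x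
    have c : Real.exp (u x) * Real.exp (-u x) = 1 := by rw [← Real.exp_add]; simp
    have d := Real.exp_pos (u x)
    have d' := Real.exp_pos (-u x)
    show 2 * ψ x ≤ (|A| + 1) / P * (ψ x * Real.exp (u x)) + ((|A| + 1) / P)⁻¹ * Real.exp (-u x)
    generalize (|A| + 1) / P = l at l0
    have g : l * Real.exp (u x) * (l⁻¹ * Real.exp (-u x)) = 1 := by
      rw [mul_mul_mul_comm, mul_inv_cancel₀ l0.ne', c, one_mul]
    have g1 : 0 < l * Real.exp (u x) := by positivity
    have g2 : 0 < l⁻¹ * Real.exp (-u x) := by positivity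
    rw [mul_left_comm]
    generalize l * Real.exp (u x) = y at g g1
    generalize l⁻¹ * Real.exp (-u x) = y' at g g2
    have g3 : 2 ≤ y + y' := by nlinarith [sq_nonneg (y - y'), sq_nonneg (y + y' - 2)]
    nlinarith
  rw [integral_add' i1 i2, integral_const_mul, integral_const_mul, integral_const_mul] at m
  have k1 : (|A| + 1) / P * ∫ x, ψ x * Real.exp (u x) ∂M.mu H ≤ P / 2 :=
    (mul_le_mul_of_nonneg_left s1 l0.le).trans_eq (by field_simp)
  have k2 : ((|A| + 1) / P)⁻¹ * ∫ x, Real.exp (-u x) ∂M.mu H ≤ P :=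
    (mul_le_mul_of_nonneg_left (hA.trans ((le_abs_self A).trans (le_add_of_nonneg_right
      zero_le_one))) (inv_pos.2 l0).le).trans_eq (by field_simp)
  simp only [Pi.mul_apply] at m
  linarith

end Pool.Agent.Lib.NU4.R93
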