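import Pool.Agent.Lib.NU4.Blue
import Pool.Agent.Lib.NU4.Rec93
import Pool.Agent.Lib.HLK.All0
import Pool.Agent.Lib.K3E.B_KAN

/-! Project nu4: the recurrence argument for multivectors. -/

open scoped Classical Topology ContDiff ComplexOrder Matrix
open Set Filter MeasureTheory

set_option linter.unusedVariables false
set_option linter.unusedSectionVars false

noncomputable section

namespace Pool.Agent.Lib.NU4

open Pool.Agent.Lib.SV (E)
open Pool.Agent.Lib.HS32 Pool.Agent.Lib.HLK Pool.Agent.Lib.F4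
open Pool.Agent.Lib.K3E (kan wk lk)

namespace R93

variable {n : ℕ} {M : Mf n} {σ : Type} [Fintype σ] [DecidableEq σ]

theorem nb (P : Mx σ) (v : σ → ℂ) : ‖star v ⬝ᵥ P *ᵥ v‖ ≤ GB.sz P * ∑ i, ‖v i‖ ^ 2 := by
  have h1 : ∀ i, ‖v i‖ ^ 2 ≤ ∑ i, ‖v i‖ ^ 2 := fun i =>
    Finset.single_le_sum (f := fun i => ‖v i‖ ^ 2) (fun _ _ => sq_nonneg _) (Finset.mem_univ i)
  have h0 : 0 ≤ ∑ i, ‖v i‖ ^ 2 := Finset.sum_nonneg fun _ _ => sq_nonneg _
  have h2 : ‖star v ⬝ᵥ P *ᵥ v‖ ≤ (∑ i, ∑ j, ‖P i j‖) * ∑ i, ‖v i‖ ^ 2 := by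
    rw [Finset.sum_mul]
    simp only [dotProduct, Matrix.mulVec]
    refine (norm_sum_le _ _).trans (Finset.sum_le_sum fun i _ => ?_)
    rw [Finset.sum_mul, Finset.mul_sum]
    refine (norm_sum_le _ _).trans (Finset.sum_le_sum fun j _ => ?_)
    rw [norm_mul, norm_mul, Pi.star_apply, norm_star, mul_left_comm]
    refine mul_le_mul_of_nonneg_left ?_ (norm_nonneg _)
    nlinarith [h1 i, h1 j, sq_nonneg (‖v i‖ - ‖v j‖)]
  unfold GB.sz
  nlinarith

theorem vd_sum {ι : Type} [Fintype ι] {W : E n → E n} {f : ι → E n → ℂ} {z : E n}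
    (h : ∀ a, DifferentiableAt ℝ (f a) z) :
    vd W (fun w => ∑ a, f a w) z = ∑ a, vd W (f a) z := by
  simp only [vd, dz_sum fun a (_ : a ∈ Finset.univ) => h a, Finset.mul_sum]
  exact Finset.sum_comm

theorem vd_form {W : E n → E n} {G : E n → Mx σ} {s : E n → σ → ℂ} {z : E n} (hG : SmX G z)
    (hs : HolV s z) : vd W (fun w => star (s w) ⬝ᵥ G w *ᵥ s w) z =
      star (s z) ⬝ᵥ (Matrix.of fun i j => vd W (fun w => G w i j) z) *ᵥ s z +
        star (s z) ⬝ᵥ G z *ᵥ dirv W s z := by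
  have c := fun i => ((mHOL n _ z).2.2 (hs i)).1
  simp only [dotProduct, Matrix.mulVec, Pi.star_apply, Matrix.of_apply, ← Finset.sum_add_distrib]
  rw [vd_sum fun i => cd_diff ((cd_star (c i)).mul (ContDiffAt.sum fun j _ => (hG i j).mul (c j)))]
  refine Finset.sum_congr rfl fun i _ => ?_
  rw [vd_mul (cd_diff (cd_star (c i))) (cd_diff (ContDiffAt.sum fun j _ => (hG i j).mul (c j))),
    vd_star (hs i), zero_mul, zero_add, vd_sum fun j => cd_diff ((hG i j).mul (c j)), ← mul_add,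
    ← Finset.sum_add_distrib]
  congr 1
  exact Finset.sum_congr rfl fun j _ => vd_mul (cd_diff (hG i j)) (cd_diff (c j))

theorem vd_law {g : M.X → ℝ} (hg : M.Sm g) {W : M.Fam (E n)} {m : ℤ} (hW : HT M m W) :
    M.Ov fun e e' x => vd (W e') (M.lc g e') (e' x) = jd M e e' x ^ m * vd (W e) (M.lc g e) (e x) :=
  fun e he e' he' x hx hx' => by
    obtain ⟨h1, -, -, h4, -⟩ := (mTR n M).2.1 e he e' he' x hx hx'
    have hψ : (e ∘ e'.symm) (e' x) = e x := by simp [e'.left_inv hx']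
    have ev : M.lc g e' =ᶠ[𝓝 (e' x)] M.lc g e ∘ (e ∘ e'.symm) := h4.mono fun w hw => by
      simp only [Mf.lc, Function.comp, hw.2.2.2.2.1]
    have d : DifferentiableAt ℝ (M.lc g e) ((e ∘ e'.symm) (e' x)) := by
      rw [hψ]; exact cd_diff (hg.lc.at he hx)
    have c := fun j => ((mCHN n _ _ h1).2.2.2.2.2.2.2.2.2.1 _ d j).1
    have a := hW.cmp e he e' he' x hx hx'
    beta_reduce at a ⊢
    rw [vd_congr ev]
    simp only [vd, c, hψ, Finset.mul_sum]
    rw [Finset.sum_comm]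
    refine Finset.sum_congr rfl fun k _ => ?_
    have b := congrFun a k
    rw [Pi.smul_apply, smul_eq_mul] at b
    rw [← mul_assoc, ← b, Matrix.mulVec, dotProduct, Finset.sum_mul]
    exact Finset.sum_congr rfl fun j _ => by rw [Mf.J]; ring

theorem glob {X : Type} [TopologicalSpace X] [CompactSpace X] {g ν : X → ℝ} (ν0 : ∀ x, 0 ≤ ν x)
    (h : ∀ x, ∃ C : ℝ, ∀ᶠ y in 𝓝 x, g y ≤ C * ν y) : ∃ C : ℝ, ∀ y, g y ≤ C * ν y := by
  choose C hC using h
  obtain ⟨t, -, ht⟩ := isCompact_univ.elim_nhds_subcover (fun x => {y | g y ≤ C x * ν y})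
    fun x _ => hC x
  refine ⟨∑ x ∈ t, |C x|, fun y => ?_⟩
  obtain ⟨x, hx, hy⟩ := mem_iUnion₂.1 (ht (mem_univ y))
  exact le_trans hy (mul_le_mul_of_nonneg_right ((le_abs_self _).trans
    (Finset.single_le_sum (f := fun x => |C x|) (fun _ _ => abs_nonneg _) hx)) (ν0 y))

theorem pn_rep {b : Bun M σ} (hb : b.Ok) {s : M.Fam (σ → ℂ)} (hs : b.Sec s) : M.All fun e z =>
    b.pn s (e.symm z) = (star (s e z) ⬝ᵥ b.G e z *ᵥ s e z).re ∧
    M.lc (b.pn s) e z = star (s e z) ⬝ᵥ b.G e z *ᵥ s e z ∧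
    ∑ i, ‖s e z i‖ ^ 2 ≤ GB.sz (b.G e z)⁻¹ * b.pn s (e.symm z) ∧
    (b.pn s (e.symm z) ≠ 0 ↔ s e z ≠ 0) := fun e he z hz => by
  have r : b.pn s (e.symm z) = (star (s e z) ⬝ᵥ b.G e z *ᵥ s e z).re :=
    congrArg Complex.re ((hb.pp_rep hs hs).1 e he z hz)
  have p := hb.pos e he z hz
  refine ⟨r, ?_, ?_, ?_⟩
  · have := (Complex.nonneg_iff.1 (p.posSemidef.dotProduct_mulVec_nonneg (s e z))).2
    exact Complex.ext (by rw [Mf.lc, Complex.ofReal_re, r]) (by rw [Mf.lc, Complex.ofReal_im, this])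
  · rw [r]; exact GB.lo p _
  · rw [r]
    refine ⟨fun h h0 => h (by rw [h0]; simp), fun h => ?_⟩
    exact (Complex.pos_iff.1 (p.dotProduct_mulVec_pos h)).1.ne'

theorem pn_nn {b : Bun M σ} (hb : b.Ok) (s : M.Fam (σ → ℂ)) (x : M.X) : 0 ≤ b.pn s x :=
  (Complex.nonneg_iff.1 ((hb.pos.ch x).posSemidef.dotProduct_mulVec_nonneg _)).1

/-- The derivative of the norm of a solution of a linear equation along the field. -/
theorem logd [M.Cpt] {H : M.Fam (Mat n)} (hH : M.Met H) {W : M.Fam (E n)} (hW : HT M 2 W)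
    {b : Bun M σ} (hb : b.Ok) {s : M.Fam (σ → ℂ)} (hs : b.Sec s) (hh : Hol s) (A : M.Fam (Mx σ))
    (hA : M.All fun e z => ContinuousAt (A e) z ∧ dirv (W e) (s e) z = A e z *ᵥ s e z) :
    ∃ C : ℝ, M.All fun e z =>
      ‖vd (W e) (M.lc (b.pn s) e) z‖ ≤ C * b.pn s (e.symm z) * (H e z).det.re := by
  have sν : M.Sm (b.pn s) := (hb.pp_rep hs hs).2.re
  have inv : M.Inv fun e z => ‖vd (W e) (M.lc (b.pn s) e) z‖ / (H e z).det.re :=
    fun e he e' he' x hx hx' => by
      have j0 := ((mTR n M).2.1 e he e' he' x hx hx').2.1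
      beta_reduce
      rw [vd_law sν hW e he e' he' x hx hx', det_cmp hH e he e' he' x hx hx', norm_mul, zpow_ofNat,
        norm_pow, Complex.normSq_eq_norm_sq,
        mul_div_mul_left _ _ (pow_ne_zero 2 (norm_ne_zero_iff.2 j0))]
  obtain ⟨C, hC⟩ := glob (g := M.ev fun e z => ‖vd (W e) (M.lc (b.pn s) e) z‖ / (H e z).det.re)
    (pn_nn hb s) fun x => by
      have he := Mf.ch_mem x
      have hx := Mf.mem_ch x
      have hz := Mf.ch_tgt x
      generalize M.ch x = e at he hx hz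
      have cG : ContinuousAt (b.G e) (e x) := continuousAt_pi.2 fun i => continuousAt_pi.2 fun j =>
        (hb.gsm e he _ hz i j).continuousAt
      have cI : ContinuousAt (fun z => (b.G e z)⁻¹) (e x) := (continuousAt_matrix_inv _
        (NormedRing.inverse_continuousAt (hb.pos e he _ hz).det_pos.ne'.isUnit.unit)).comp cG
      have cV : ContinuousAt (fun z => (Matrix.of fun i j => vd (W e) (fun w => b.G e w i j) z) +
          b.G e z * A e z) (e x) := by
        refine ContinuousAt.add (continuousAt_pi.2 fun i => continuousAt_pi.2 fun j => ?_)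
          (cG.mul (hA e he _ hz).1)
        exact (ContDiffAt.sum (s := Finset.univ) fun k _ =>
          ((mHOL n _ _).2.2 (hW.hol e he _ hz k)).1.mul
            (cd_dz (hb.gsm e he _ hz i j) k)).continuousAt
      have c := ((GB.sz_cont cV).mul (GB.sz_cont cI)).div
        (cd_re (hH.sm e he _ hz).det).continuousAt (Mf.pd_det_re (hH.pos e he _ hz)).ne'
      obtain ⟨K, hK⟩ : ∃ K : ℝ, ∀ᶠ z in 𝓝 (e x), GB.sz ((Matrix.of fun i j =>
          vd (W e) (fun w => b.G e w i j) z) + b.G e z * A e z) * GB.sz (b.G e z)⁻¹ /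
          (H e z).det.re < K := ⟨_, c.eventually_lt continuousAt_const (lt_add_one _)⟩
      refine ⟨K, ((e.continuousAt hx).eventually hK).mp
        ((e.open_source.eventually_mem hx).mono fun y hy lt => ?_)⟩
      have hw := e.map_source hy
      have D := Mf.pd_det_re (hH.pos e he _ hw)
      have r := pn_rep hb hs
      have r3 := (r e he _ hw).2.2.1
      rw [e.left_inv hy] at r3
      rw [inv.rep.at he hy, vd_congr ((r.ev he hw).mono fun w h => h.2.1),
        vd_form (hb.gsm e he _ hw) (hh e he _ hw), (hA e he _ hw).2, Matrix.mulVec_mulVec,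
        ← dotProduct_add, ← Matrix.add_mulVec]
      refine le_trans ?_ (mul_le_mul_of_nonneg_right lt.le (pn_nn hb s y))
      rw [div_mul_eq_mul_div, mul_assoc]
      exact div_le_div_of_nonneg_right ((nb _ _).trans
        (mul_le_mul_of_nonneg_left r3 (GB.sz_pos _).le)) D.le
  exact ⟨C, fun e he z hz => by
    have := hC (e.symm z)
    rwa [inv.rep e he z hz, div_le_iff₀ (Mf.pd_det_re (hH.pos e he z hz))] at this⟩

/-- The quotient of two proportional arrays. -/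
def qt (A B : σ → ℂ) : ℂ := (star B ⬝ᵥ A) / (star B ⬝ᵥ B)

theorem qt_smul (c : ℂ) {B : σ → ℂ} (h : B ≠ 0) : qt (c • B) B = c := by
  rw [qt, dotProduct_smul, smul_eq_mul, mul_div_cancel_right₀]
  exact fun h0 => h (dotProduct_star_self_eq_zero.1 h0)

theorem pr_div {A B : σ → ℂ} (p : Pr A B) {I : σ} (h : B I ≠ 0) : A = (A I / B I) • B :=
  funext fun J => by
    rw [Pi.smul_apply, smul_eq_mul, div_mul_eq_mul_div, p I J, mul_div_cancel_right₀ _ h]

theorem qt_div {A B : σ → ℂ} (p : Pr A B) {I : σ} (h : B I ≠ 0) : qt A B = A I / B I := by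
  conv_lhs => rw [pr_div p h]
  exact qt_smul _ fun h0 => h (congrFun h0 I)

theorem qt_eq {A B : σ → ℂ} (p : Pr A B) (h : B ≠ 0) : A = qt A B • B := by
  obtain ⟨I, hI⟩ := Function.ne_iff.1 h
  rw [qt_div p hI]
  exact pr_div p hI

theorem ap_oP (H : M.Fam (Mat n)) (φ : M.Fam ℝ) (Y : M.Fam (Fs n → ℂ)) (e : M.Ch) (z : E n) :
    (oP H φ).ap Y e z = pf0 (Y e) z -
      anv (gd (fun w => ((φ e w - Real.log (H e w).det.re : ℝ) : ℂ)) z) *ᵥ Y e z := by
  simp only [Op.ap, oP, Matrix.zero_mulVec, add_zero, Matrix.neg_mulVec, ← sub_eq_add_neg]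
  rfl

end R93

open R93 in
theorem st_REC (hFK : St_FK) (hLIE : St_LIE) (hKIT : St_KIT) : St_REC := by
  intro n M hM H a l W ρ τ hC hW hP hρ hτ zρ zτ h1 h2
  have hH := hC.kae.toMet
  by_contra nz
  have ok : ∀ m, (lk H m).Ok := fun m => (aLAM n M H _ _ hH (K3E.bKAN n M H m hH).1).1
  have sτ := ((hKIT n M H _ τ hH).1.1 hτ).1
  have r := pn_rep (ok _) sτ
  have lie := fun (Y : M.Fam (Fs n → ℂ)) (hY : Hol Y) (e : M.Ch) (he : e ∈ M.C) (z : E n)
    (hz : z ∈ e.target) (f : E n → ℂ) (hf : HolN f z) =>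
    hLIE n (W e) (W e) (Y e) f z (hW.hol e he z hz) (hW.hol e he z hz) (hY e he z hz) hf
  have one : ∀ z : E n, HolN (fun _ : E n => (1 : ℂ)) z := fun z =>
    Eventually.of_forall fun _ => differentiableAt_const _
  have lτ : M.All fun e z => lder (W e) (τ e) z = ((l : ℂ) * dv (W e) z) • τ e z :=
    fun e he z hz => by
      have a1 := (lie τ hτ.hol e he z hz _ (one z)).2.2.2.2.2.2.2.1 (zτ.ev he hz)
      have a2 : NU4.lie (W e) (τ e) z - _ = 0 := h2 e he z hz
      rw [a1, sub_eq_zero, ← eq_sub_iff_add_eq, ← sub_smul] at a2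
      beta_reduce
      rw [a2]
      congr 1
      push_cast
      ring
  obtain ⟨C, hCν⟩ := logd hH hW (ok _) sτ hτ.hol
    (fun e z => dL (dj (W e) z) + ((l : ℂ) * dv (W e) z) • (1 : Mx (Fs n))) fun e he z hz => by
      have c := fun i => ((mHOL n _ z).2.2 (hW.hol e he z hz i)).1
      have c1 : ContinuousAt (fun w => dL (dj (W e) w)) z :=
        tendsto_finsetSum _ fun i _ => tendsto_finsetSum _ fun j _ =>
          Tendsto.smul_const (cd_dz (c i) j).continuousAt _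
      have c2 : ContinuousAt (fun w => (l : ℂ) * dv (W e) w) z := continuousAt_const.mul
          (ContDiffAt.sum (s := Finset.univ) fun k _ => cd_dz (c k) k).continuousAt
      refine ⟨Tendsto.add c1 (Tendsto.smul_const c2 _), ?_⟩
      · rw [Matrix.add_mulVec, Matrix.smul_mulVec, Matrix.one_mulVec, ← lτ e he z hz, lder]
        abel
  obtain ⟨ε₀, A, hε₀, hA⟩ := hC.out.itg 1 one_pos
  refine core hH hW ((ok _).pp_rep sτ sτ).2.re (pn_nn (ok _) τ) ?_ hCν
    (f := fun e z => qt (ρ e z) (τ e z)) (fun e he z hz h => ?_)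
    (fun e he e' he' x hx hx' h => ?_) (A := A) fun η hη => ?_
  · by_contra hn
    exact nz fun e he z hz => by_contra fun h => hn ⟨_, (r e he z hz).2.2.2.2 h⟩
  · have t0 := (r e he z hz).2.2.2.1 h
    obtain ⟨I, hI⟩ := Function.ne_iff.1 t0
    have ev : ∀ᶠ w in 𝓝 z, τ e w I ≠ 0 :=
      (hτ.hol e he z hz I).self_of_nhds.continuousAt.eventually_ne hI
    have eq : (fun w => qt (ρ e w) (τ e w)) =ᶠ[𝓝 z] fun w => ρ e w I / τ e w I :=
      (ev.and (h1.ev he hz)).mono fun w hw => qt_div hw.2.2 hw.1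
    have hf : HolN (fun w => qt (ρ e w) (τ e w)) z := by
      filter_upwards [eq.eventuallyEq_nhds, ev, hρ.hol e he z hz I, hτ.hol e he z hz I]
        with w e1 e2 e3 e4
      simp only [div_eq_mul_inv] at e1
      exact (e3.mul (e4.inv e2)).congr_of_eventuallyEq e1
    refine ⟨hf, ?_⟩
    have eρ : ρ e =ᶠ[𝓝 z] fun w => qt (ρ e w) (τ e w) • τ e w :=
      (ev.and (h1.ev he hz)).mono fun w hw => qt_eq hw.2.2 fun h0 => hw.1 (congrFun h0 I)
    have a1 := (lie ρ hρ.hol e he z hz _ (one z)).2.2.2.2.2.2.2.1 (zρ.ev he hz)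
    have a2 := (lie τ hτ.hol e he z hz _ hf).2.2.2.2.2.2.2.2.2.2.1
    have a3 : lder (W e) (ρ e) z = lder (W e) (fun w => qt (ρ e w) (τ e w) • τ e w) z := by
      rw [lder, lder, ← eρ.eq_of_nhds]
      congr 1
      exact funext fun i => vd_congr (eρ.mono fun w hw => congrFun hw i)
    have a4 : NU4.lie (W e) (ρ e) z - _ = _ := (h1 e he z hz).1
    rw [a1, a3, a2, lτ e he z hz] at a4
    have a5 := congrFun a4 I
    have a6 := congrFun eρ.eq_of_nhds I
    simp only [Pi.add_apply, Pi.sub_apply, Pi.smul_apply, smul_eq_mul] at a5 a6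
    rw [a6] at a5
    refine mul_right_cancel₀ hI ?_
    push_cast at a5
    change (dir (W e) (fun w => qt (ρ e w) (τ e w)) z + _) * _ = _
    linear_combination a5
  · have j0 := ((mTR n M).2.1 e he e' he' x hx hx').2.1
    have t := (r.at he hx).2.2.2.1
    have t' := (r.at he' hx').2.2.2.1
    rw [e.left_inv hx] at t
    rw [e'.left_inv hx'] at t'
    have c1 := hρ.cmp e he e' he' x hx hx'
    have c2 := hτ.cmp e he e' he' x hx hx'
    beta_reduce at c1 c2 ⊢
    have c3 : ρ e (e x) = (jd M e e' x ^ 2 * qt (ρ e' (e' x)) (τ e' (e' x))) • τ e (e x) := by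
      rw [c1, c2, smul_smul]
      conv_lhs => rw [qt_eq (h1.at he' hx').2 (t' h), Matrix.mulVec_smul, smul_smul]
      congr 1
      field_simp
      ring
    rw [c3, qt_smul _ (t h)]
  · have v := ((hKIT n M H 2 0 hH).2.1 W hW).1
    have sv := ((hKIT n M H 2 _ hH).1.1 v).1
    have m1 : ∀ᶠ ε in 𝓝[>] (0 : ℝ), ε ∈ Ioc (0 : ℝ) 1 := Ioc_mem_nhdsGT one_pos
    have m2 : ∀ᶠ ε in 𝓝[>] (0 : ℝ), ε ∈ Ioc (0 : ℝ) ε₀ := Ioc_mem_nhdsGT hε₀
    obtain ⟨ε, ⟨e1, e2⟩, e3⟩ := ((m1.and m2).and ((hP 0).eventually_le_const hη)).exists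
    have su := hC.out.sm ε e1
    have wc : M.WtC (kan M 2) (wt M H 2 (a ε)) :=
      (((aLAM n M H _ _ hH (K3E.bKAN n M H 2 hH).1).2.2 _).1 (su.const_mul _)).1
    have s0 := aSP n M H _ _ _ hH wc ⟨sv.sm, sv.cmp⟩
    have s1 : (lk H 2).Sec ((oP H (wt M H 2 (a ε))).ap (vec M W)) := ⟨s0.sm, s0.cmp⟩
    obtain ⟨rp, sp⟩ := (hKIT n M H 2 _ hH).2.2.2.2.2.2.1 s1
    refine ⟨a ε, fun x => √((lk H 2).pn ((oP H (wt M H 2 (a ε))).ap (vec M W)) x), su,
      hC.out.le ε e1, by simpa only [one_mul] using hA ε e1 e2.2, sp.continuous.sqrt,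
      by simpa only [zero_mul, neg_zero, Real.exp_zero, one_mul] using e3, fun e he z hz => ?_⟩
    have D := Mf.pd_det_re (hH.pos e he z hz)
    have fk := hFK n (W e z) 0 (gd (fun w => ((ph M H e w + a ε (e.symm w) : ℝ) : ℂ)) z) (H e z) 0 0
    have p : (oP H (wt M H 2 (a ε))).ap (vec M W) e z = (dv (W e) z -
        vd (W e) (fun w => ((ph M H e w + a ε (e.symm w) : ℝ) : ℂ)) z) • vac n := by
      have w1 : (fun w => ((wt M H 2 (a ε) e w - Real.log (H e w).det.re : ℝ) : ℂ)) =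
          fun w => ((ph M H e w + a ε (e.symm w) : ℝ) : ℂ) := funext fun w => by
        congr 1
        simp only [wt, EXH.aw, wk, ph, Pi.add_apply]
        push_cast
        ring
      have w2 := congrArg (· *ᵥ vac n) fk.2.2.1
      simp only [Matrix.add_mulVec, ← Matrix.mulVec_mulVec, fk.2.2.2.2.2.2.2.2.2.2.2.1,
        Matrix.mulVec_zero, add_zero, Matrix.smul_mulVec, Matrix.one_mulVec] at w2
      rw [ap_oP, w1, sub_smul]
      refine congrArg₂ _ (lie ρ hρ.hol e he z hz _ (one z)).2.2.2.2.2.2.2.2.2.2.2.1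
        (w2.trans ?_)
      rw [dotProduct_comm]
      rfl
    beta_reduce
    rw [rp e he z hz]
    beta_reduce
    rw [p, ng, Matrix.mulVec_smul, fk.2.2.2.2.2.2.2.2.2.2.2.2.1, star_smul,
      smul_dotProduct, dotProduct_smul, norm_sub_rev]
    have v1 : star (vac n) ⬝ᵥ vac n = 1 := by simp [vac]
    rw [v1, smul_eq_mul, smul_eq_mul, mul_one, Complex.star_def, Complex.conj_mul',
      ← Complex.ofReal_pow, Complex.ofReal_re, ← div_pow, Real.sqrt_sq (by positivity),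
      div_mul_cancel₀ _ D.ne']

end Pool.Agent.Lib.NU4
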