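import Pool.Agent.Lib.NU4.Sg10a

/-! Project nu4: a holomorphic multivector with small curvature term is almost parallel. -/

open scoped Classical Topology ContDiff ComplexOrder Matrix
open Set Filter MeasureTheory Complex

noncomputable section

namespace Pool.Agent.Lib.NU4

open Pool.Agent.Lib.SV (E)
open Pool.Agent.Lib.HS32 Pool.Agent.Lib.HLK Pool.Agent.Lib.KP
open Pool.Agent.Lib.EXH (aw)
open Pool.Agent.Lib.KP.T60 (phC)

open SG

/-- The weighted divergence is controlled by the curvature term. -/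
theorem sg10 {n : ℕ} {M : Mf n} [M.Cpt] {H : M.Fam (Mat n)} {L : M.Co} {φ : M.Fam ℝ}
    {W : M.Fam (Fs n → ℂ)} (hH : M.Kae H) (hφ : M.WtC L φ) (hW : (lam H L φ).Sec W)
    (hol : Hol W) : ∃ K : ℝ, 0 ≤ K ∧ ∀ (ε δ : ℝ) (w : M.X → ℝ), 0 ≤ ε → 0 < δ → δ ≤ 1 → M.Sm w →
      (∀ x, w x ≤ 0) → M.Le 0 (M.hw φ + M.ric H + M.hs w + ε • H) →
      ∫ x, Real.exp (w x) * (lam H L φ).pn ((oP H (aw M φ w)).ap W) x ∂M.mu H ≤
        K * δ * ∫ x, Real.exp (-w x) ^ 2 ∂M.mu H +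
          8 / δ * ∫ x, cu (M.hw φ + M.ric H + M.hs w + ε • H) (lam H L φ) W x ∂M.mu H ∧
      ∫ x, Real.exp (-w x) *
          (lam H L φ).pn ((oP H (aw M φ fun y => -Real.log (wf δ (w y)))).ap W) x ∂M.mu H ≤
        K * δ * ∫ x, Real.exp (-w x) ^ 2 ∂M.mu H +
          8 / δ * ∫ x, cu (M.hw φ + M.ric H + M.hs w + ε • H) (lam H L φ) W x ∂M.mu H := by
  have hm := hH.toMet
  obtain ⟨o0, -, a0⟩ := aLAM n M H L φ hm hφ
  have ig := (mMU n M H hm).2.2.2.2.1 ℝ
  have hθ : M.Ten (M.hw φ + M.ric H) :=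
    hφ.clo.toTen.add ((mHES n M).2.2.2.2.2.2.2.2.1 H hm).toTen
  have p0 := aSP n M H L φ W hm hφ hW
  have pc : ∀ U, (lam H L φ).Sec U → Continuous ((lam H L φ).pn U) := fun U h =>
    (o0.pp_rep h h).2.re.continuous
  obtain ⟨C1, b1⟩ := isCompact_univ.exists_bound_of_continuousOn (pc _ p0).continuousOn
  obtain ⟨C2, b2⟩ := isCompact_univ.exists_bound_of_continuousOn
    (aCU n M H _ L φ W hm hθ hφ hW).2.1.continuousOn
  refine ⟨10 * |C1| + 8 * |C2|, by positivity, fun ε δ w hε hδ h1 hw w0 hω => ?_⟩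
  have t1 : ∀ x, 1 ≤ Real.exp (-w x) := fun x => Real.one_le_exp (neg_nonneg.2 (w0 x))
  obtain ⟨sv, hv⟩ := (mLAP n M w w hw hw).2.1 _ fun x => sc hδ (w x)
  obtain ⟨hψ, hh⟩ := (a0 _).1 sv
  have hW' : (lam H L (aw M φ fun x => -Real.log (wd δ (w x)))).Sec W := ⟨hW.sm, hW.cmp⟩
  have boc := aBOC n M H L _ W hH hψ hW'
  have ex : ∀ x, Real.exp (- -Real.log (wd δ (w x))) = wd δ (w x) := fun x => by
    rw [neg_neg, Real.exp_log (wd_pos hδ _)]
  have q0 : (lam H L (aw M φ fun x => -Real.log (wd δ (w x)))).nr H ((oQ H).ap W) = 0 := by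
    have : ∀ x, M.ev ((oQ H).ap W) x = 0 := fun x => by
      simp [Mf.ev, Op.ap, oQ, (gb_hol (H := H) (lam H L φ) hol x).2]
    simp [Bun.nr, Bun.pn, Bun.pp, this]
  simp only [q0, (gb_hol _ hol _).1, integral_zero, zero_add] at boc
  have tw := ((mHES n M).1 w hw).toTen
  have hT : M.Ten (M.hw φ + M.ric H + M.hs w + ε • H) := (hθ.add tw).add (hm.toTen.smul ε)
  obtain ⟨-, cω, lω⟩ := aCU n M H _ L φ W hm hT hφ hW
  obtain ⟨-, -, lH⟩ := aCU n M H _ L φ W hm hm.toTen hφ hW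
  have lω' := lω 0 le_rfl (by simpa using hω)
  have lH' := lH 0 le_rfl (by simpa using hm.nonneg)
  obtain ⟨-, cψ, -⟩ := aCU n M H _ L _ W hm
    (hψ.clo.toTen.add ((mHES n M).2.2.2.2.2.2.2.2.1 H hm).toTen) hψ hW'
  have pψ := aSP n M H L _ W hm hψ hW'
  have pw := aSP n M H L _ W hm ((a0 w).1 hw).1 ⟨hW.sm, hW.cmp⟩
  have cP : Continuous ((lam H L (aw M φ fun x => -Real.log (wd δ (w x)))).pn
      ((oP H (aw M φ fun x => -Real.log (wd δ (w x)))).ap W)) :=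
    ((aLAM n M H L _ hm hψ).1.pp_rep pψ pψ).2.re.continuous
  have j3 := ig _ (hw.neg.exp.pow 2).continuous
  have su := ((mLAP n M w w hw hw).2.1 _ fun x =>
    ((sf hδ (w x)).log (wf_pos hδ _).ne').neg).1
  have pu := aSP n M H L _ W hm ((a0 _).1 su).1 ⟨hW.sm, hW.cmp⟩
  have key : ∀ x, ∀ T ∈ ({Real.exp (w x) * (lam H L φ).pn ((oP H (aw M φ w)).ap W) x,
      Real.exp (-w x) * (lam H L φ).pn
        ((oP H (aw M φ fun y => -Real.log (wf δ (w y)))).ap W) x} : Set ℝ), T ≤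
      8 * ((lam H L (aw M φ fun x => -Real.log (wd δ (w x)))).pn
        ((oP H (aw M φ fun x => -Real.log (wd δ (w x)))).ap W) x -
        cu (M.hw (aw M φ fun x => -Real.log (wd δ (w x))) + M.ric H)
          (lam H L (aw M φ fun x => -Real.log (wd δ (w x)))) W x) +
      ((10 * |C1| + 8 * |C2|) * δ * Real.exp (-w x) ^ 2 +
        8 / δ * cu (M.hw φ + M.ric H + M.hs w + ε • H) (lam H L φ) W x) := fun x T hT => by
    have hG := o0.pos.ch x
    have qs := q_sub hG.1 (M.ev ((oP H φ).ap W) x) (M.ev (ct M w W) x)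
    have e1 := Eq.trans (a := (lam H L φ).pn ((oP H (aw M φ w)).ap W) x) (by
      simp only [Bun.pn, Bun.pp, Mf.ev_congr (oP_aw hm hφ hw W), ofReal_one, one_smul]
      rfl) (qs 1)
    have e2 := Eq.trans
      (a := (lam H L φ).pn ((oP H (aw M φ fun x => -Real.log (wd δ (w x)))).ap W) x) (by
      rw [← ct_comp hw (dc hδ (w x)) W]
      simp only [Bun.pn, Bun.pp, Mf.ev_congr (oP_aw hm hφ sv W)]
      rfl) (qs (wf δ (w x) / wd δ (w x)))
    have e4 := Eq.trans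
      (a := (lam H L φ).pn ((oP H (aw M φ fun x => -Real.log (wf δ (w x)))).ap W) x) (by
      rw [← ct_comp hw (de hδ (w x)) W]
      simp only [Bun.pn, Bun.pp, Mf.ev_congr (oP_aw hm hφ su W)]
      rfl) (qs (1 / (1 + δ * Real.exp (-w x))))
    have e3 : cu (M.hw (aw M φ fun x => -Real.log (wd δ (w x))) + M.ric H) (lam H L φ) W x =
        cu (M.hw φ + M.ric H + (wf δ (w x) / wd δ (w x)) • M.hs w +
          deriv (deriv fun y => -Real.log (wd δ y)) (w x) • M.ds w w) (lam H L φ) W x := by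
      refine cu_congr _ _ ?_
      have u1 := hh.ch x
      have u2 := (hv.ch x).1
      simp only [Mf.ch_symm, (dc hδ (w x)).deriv] at u1 u2
      simp only [Mf.ev, Pi.add_apply, Pi.smul_apply, u1, u2]
      abel
    obtain ⟨n1, n2, n3, n4, n5⟩ := wn hδ (t1 x)
    have n0 := num (W := wd δ (w x)) (C := |C1|) (fun c => (qs c) ▸
      (Complex.le_def.1 (hG.posSemidef.dotProduct_mulVec_nonneg _)).1) hδ h1 (t1 x)
      (le_trans (sub_le_sub_left n3 _) n5) (((le_abs_self _).trans (b1 x trivial)).trans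
        (le_abs_self _))
    rw [← Real.exp_neg, neg_neg] at n0
    rw [mul_one, one_pow, one_mul] at e1
    rw [e1, e4] at hT
    have nn := Or.elim hT (fun h => h.le.trans n0.1) fun h => (le_of_eq h).trans n0.2
    clear n0 hT e1 e4
    rw [((a0 _).2 _ W x).2.1, cu_aw, ex, e2, e3, dc2 hδ]
    have z1 := lω' x
    have z2 := lH' x
    have z3 : cu (M.hw φ + M.ric H) (lam H L φ) W x ≤ |C2| :=
      ((le_abs_self _).trans (b2 x trivial)).trans (le_abs_self _)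
    have z4 := cu_ds (lam H L φ) hw W x
    rw [cu_add, cu_add, cu_smul] at z1 ⊢
    rw [cu_add _ (_ + _), cu_add _ (_ + _), cu_smul, cu_smul, z4]
    simp only [zero_mul, neg_zero] at z1 z2
    have wp := wd_pos hδ (w x)
    change _ ≤ wd δ (w x) at n3
    change wd δ (w x) ≤ _ at n4
    change 0 < wf δ (w x) at n1
    change wf δ (w x) ≤ _ at n2 n3
    change _ - wf δ (w x) ≤ _ at n5
    change _ ≤ 8 * (_ - 2 * wf δ (w x) * _ + _) + _ at nn
    simp only [Bun.pn, Bun.pp, Mf.ev] at nn ⊢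
    generalize wd δ (w x) = Wd at *
    generalize wf δ (w x) = f at *
    generalize cu (M.hw φ + M.ric H) (lam H L φ) W x = cθ at *
    generalize cu (M.hs w) (lam H L φ) W x = cw at *
    generalize cu H (lam H L φ) W x = cH at *
    generalize Real.exp (-w x) = t at *
    generalize (1 / (1 + δ * t)) ^ 2 = s2 at *
    have y1 := mul_le_mul_of_nonneg_right n2 z1
    have y2 : (Wd - f) * cθ ≤ δ * t ^ 2 * |C2| :=
      (mul_le_mul_of_nonneg_left z3 (sub_nonneg.2 n3)).trans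
        (mul_le_mul_of_nonneg_right ((sub_le_sub_right n4 _).trans n5) (abs_nonneg _))
    have y3 := mul_nonneg n1.le (mul_nonneg hε z2)
    have y4 : ∀ A B X : ℝ, (B - 2 * (f / Wd) * X + (f / Wd) ^ 2 * A) * Wd -
        (cθ + f / Wd * cw + ((f / Wd) ^ 2 - t * s2 / Wd) * A) * Wd =
        Wd * B - 2 * f * X + t * s2 * A - (Wd * cθ + f * cw) := fun A B X => by
      field_simp
      ring
    rw [y4, show 8 / δ = 8 * (1 / δ) by ring]
    nlinarith
  have i1 := ig _ cP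
  have i2 := ig _ cψ
  have i3 := ig _ cω
  have fin : ∀ g : M.X → ℝ, Continuous g → (∀ x, g x ≤ _) → ∫ x, g x ∂M.mu H ≤ _ :=
    fun g hg h => (integral_mono (ig _ hg)
      (((i1.sub i2).const_mul 8).add ((j3.const_mul ((10 * |C1| + 8 * |C2|) * δ)).add
        (i3.const_mul (8 / δ)))) h)
  rw [integral_add' ((i1.sub i2).const_mul 8) ((j3.const_mul _).add (i3.const_mul _)),
    integral_add' (j3.const_mul _) (i3.const_mul _), integral_const_mul, integral_const_mul,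
    integral_const_mul, integral_sub' i1 i2, ← boc, Bun.nr, sub_self, mul_zero, zero_add] at fin
  exact ⟨fin _ (hw.exp.continuous.mul (pc _ ⟨pw.sm, pw.cmp⟩)) fun x => key x _ (Or.inl rfl),
    fin _ (hw.neg.exp.continuous.mul (pc _ ⟨pu.sm, pu.cmp⟩)) fun x => key x _ (Or.inr rfl)⟩

section Lim

variable {n : ℕ} {M : Mf n} [M.Cpt] {H : M.Fam (Mat n)} {L : M.Co} {φ : M.Fam ℝ}
  {W : M.Fam (Fs n → ℂ)} {ι : Type} {l : Filter ι} {w : ι → M.X → ℝ} {ε : ι → ℝ}

/-- The divergence tends to zero in the weighted quadratic mean. -/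
theorem sgP2 (hH : M.Kae H) (hφ : M.WtC L φ) (hW : (lam H L φ).Sec W) (hol : Hol W) {C : ℝ}
    (h : ∀ᶠ j in l, 0 ≤ ε j ∧ M.Sm (w j) ∧ (∀ x, w j x ≤ 0) ∧
      M.Le 0 (M.hw φ + M.ric H + M.hs (w j) + ε j • H))
    (hC : ∀ᶠ j in l, ∫ x, Real.exp (-(2 * w j x)) ∂M.mu H ≤ C)
    (hS : ∀ η : ℝ, 0 < η → ∀ᶠ j in l,
      ∫ x, cu (M.hw φ + M.ric H + M.hs (w j) + ε j • H) (lam H L φ) W x ∂M.mu H ≤ η) :
    Tendsto (fun j => ∫ x, Real.exp (w j x) *
      (lam H L φ).pn ((oP H (aw M φ (w j))).ap W) x ∂M.mu H) l (𝓝 0) := by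
  obtain ⟨K, K0, hK⟩ := sg10 hH hφ hW hol
  have p0 := Pre.pn_nonneg (g := ⟨H, _, hH.toMet, (aLAM n M H L φ hH.toMet hφ).1⟩)
  refine tendsto_order.2 ⟨fun a ha => Eventually.of_forall fun j => ha.trans_le
    (integral_nonneg fun x => mul_nonneg (Real.exp_pos _).le (p0 _ x)), fun a ha => ?_⟩
  have q : 0 < K * |C| + 1 := by positivity
  obtain ⟨δ, d0, d1, d2⟩ : ∃ δ : ℝ, 0 < δ ∧ δ ≤ 1 ∧ δ * (K * |C| + 1) ≤ a / 2 :=
    ⟨min 1 (a / 2 / (K * |C| + 1)), by positivity, min_le_left _ _,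
      (le_div_iff₀ q).1 (min_le_right _ _)⟩
  filter_upwards [h, hC, hS (δ * a / 16) (by positivity)] with j ⟨h1, h2, h3, h4⟩ h5 h7
  have h6 := (mul_le_mul_of_nonneg_left h7 (show 0 ≤ 8 / δ by positivity)).trans_eq
    (show _ = a / 2 by field_simp; ring)
  have k := (hK _ δ _ h1 d0 d1 h2 h3 h4).1
  have e : ∀ x, Real.exp (-w j x) ^ 2 = Real.exp (-(2 * w j x)) := fun x => by
    rw [sq, ← Real.exp_add]
    exact congrArg Real.exp (by ring)
  simp only [e] at k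
  have := mul_le_mul_of_nonneg_left (h5.trans (le_abs_self C)) (mul_nonneg K0 d0.le)
  nlinarith

/-- From the quadratic mean to the mean with any exponential weight. -/
theorem P1_of_P2 (hm : M.Met H) (hφ : M.WtC L φ) (hW : (lam H L φ).Sec W) {c C : ℝ}
    (h : ∀ᶠ j in l, M.Sm (w j))
    (hC : ∀ᶠ j in l, ∫ x, Real.exp (-((2 * c + 1) * w j x)) ∂M.mu H ≤ C)
    (hP : Tendsto (fun j => ∫ x, Real.exp (w j x) *
      (lam H L φ).pn ((oP H (aw M φ (w j))).ap W) x ∂M.mu H) l (𝓝 0)) :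
    Tendsto (fun j => ∫ x, Real.exp (-(c * w j x)) *
      √((lam H L φ).pn ((oP H (aw M φ (w j))).ap W) x) ∂M.mu H) l (𝓝 0) := by
  obtain ⟨o0, -, a0⟩ := aLAM n M H L φ hm hφ
  have ig := (mMU n M H hm).2.2.2.2.1 ℝ
  have p0 := Pre.pn_nonneg (g := ⟨H, _, hm, o0⟩)
  refine tendsto_order.2 ⟨fun a ha => Eventually.of_forall fun j => ha.trans_le
    (integral_nonneg fun x => mul_nonneg (Real.exp_pos _).le (Real.sqrt_nonneg _)), fun a ha => ?_⟩
  have q : 0 < |C| + 1 := by positivity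
  obtain ⟨δ, d0, d2⟩ : ∃ δ : ℝ, 0 < δ ∧ δ * (|C| + 1) ≤ a / 2 :=
    ⟨a / 2 / (|C| + 1), by positivity, (div_mul_cancel₀ _ q.ne').le⟩
  have t := (hP.const_mul (1 / δ)).eventually
    (gt_mem_nhds (show 1 / δ * 0 < a / 2 by rw [mul_zero]; positivity))
  filter_upwards [h, hC, t] with j h2 h5 h6
  have pw := aSP n M H L _ W hm ((a0 _).1 h2).1 ⟨hW.sm, hW.cmp⟩
  have pc : Continuous ((lam H L φ).pn ((oP H (aw M φ (w j))).ap W)) :=
    (o0.pp_rep ⟨pw.sm, pw.cmp⟩ ⟨pw.sm, pw.cmp⟩).2.re.continuous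
  have cw := h2.continuous
  have i1 := (ig (fun x => Real.exp (-((2 * c + 1) * w j x))) (by fun_prop)).const_mul δ
  have i2 := (ig _ (h2.exp.continuous.mul pc)).const_mul (1 / δ)
  have k := integral_mono (ig (fun x => Real.exp (-(c * w j x)) *
    √((lam H L φ).pn ((oP H (aw M φ (w j))).ap W) x)) (by fun_prop)) (i1.add i2) fun x => by
      have s := Real.sq_sqrt (p0 ((oP H (aw M φ (w j))).ap W) x)
      have e1 : Real.exp (-(c * w j x)) =
          Real.exp (-((2 * c + 1) * w j x) / 2) * Real.exp (w j x / 2) := by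
        rw [← Real.exp_add]
        exact congrArg Real.exp (by ring)
      have e2 : ∀ y : ℝ, Real.exp y = Real.exp (y / 2) ^ 2 := fun y => by
        rw [sq, ← Real.exp_add, add_halves]
      simp only [Pi.add_apply, Pi.mul_apply]
      rw [e1, e2 (-((2 * c + 1) * w j x)), e2 (w j x)]
      change _ = (lam H L φ).pn ((oP H (aw M φ (w j))).ap W) x at s
      generalize √((lam H L φ).pn ((oP H (aw M φ (w j))).ap W) x) = r at s ⊢
      rw [← s]
      generalize Real.exp (-((2 * c + 1) * w j x) / 2) = u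
      generalize Real.exp (w j x / 2) = v
      have : 0 ≤ 1 / δ * (δ * u - v * r) ^ 2 := by positivity
      have e3 : 1 / δ * (δ * u - v * r) ^ 2 =
          δ * u ^ 2 + 1 / δ * (v ^ 2 * r ^ 2) - 2 * (u * v * r) := by
        field_simp
        ring
      have : 0 ≤ δ * u ^ 2 + 1 / δ * (v ^ 2 * r ^ 2) := by positivity
      linarith
  rw [integral_add' i1 i2, integral_const_mul, integral_const_mul] at k
  have := mul_le_mul_of_nonneg_left (h5.trans (le_abs_self C)) d0.le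
  simp only [Pi.mul_apply] at k
  nlinarith

/-- The divergence tends to zero in the mean with any exponential weight. -/
theorem sgP1 (hH : M.Kae H) (hφ : M.WtC L φ) (hW : (lam H L φ).Sec W) (hol : Hol W)
    (h : ∀ᶠ j in l, 0 ≤ ε j ∧ M.Sm (w j) ∧ (∀ x, w j x ≤ 0) ∧
      M.Le 0 (M.hw φ + M.ric H + M.hs (w j) + ε j • H))
    (hC : ∀ p : ℝ, 0 < p → ∃ C, ∀ᶠ j in l, ∫ x, Real.exp (-(p * w j x)) ∂M.mu H ≤ C)
    (hS : ∀ η : ℝ, 0 < η → ∀ᶠ j in l,
      ∫ x, cu (M.hw φ + M.ric H + M.hs (w j) + ε j • H) (lam H L φ) W x ∂M.mu H ≤ η)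
    {c : ℝ} (hc : 0 ≤ c) :
    Tendsto (fun j => ∫ x, Real.exp (-(c * w j x)) *
      √((lam H L φ).pn ((oP H (aw M φ (w j))).ap W) x) ∂M.mu H) l (𝓝 0) := by
  obtain ⟨C, h1⟩ := hC 2 two_pos
  obtain ⟨C', h2⟩ := hC (2 * c + 1) (by positivity)
  exact P1_of_P2 hH.toMet hφ hW (h.mono fun _ h => h.2.1) h2 (sgP2 hH hφ hW hol h h1 hS)

end Lim

end Pool.Agent.Lib.NU4
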