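import Pool.Agent.Lib.NU4.Blue
import Pool.Agent.Lib.NU4.Sg10
import Pool.Agent.Lib.K3E.B_KAN

/-! Project nu4: small curvature gives parallel multivectors. -/

open scoped Classical Topology ContDiff ComplexOrder Matrix
open Set Filter MeasureTheory

noncomputable section

namespace Pool.Agent.Lib.NU4

open Pool.Agent.Lib.SV (E)
open Pool.Agent.Lib.HS32 Pool.Agent.Lib.HLK
open Pool.Agent.Lib.K3E (kan wk lk bKAN)
open Pool.Agent.Lib.EXH (aw)

namespace SG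

variable {n : ℕ} {M : Mf n} {H : M.Fam (Mat n)} {a : ℝ → M.X → ℝ} {m : ℕ}
  {W : M.Fam (Fs n → ℂ)}

theorem lev (hm : M.Met H) (m : ℕ) (ε : ℝ) {u : M.X → ℝ} (hu : M.Sm u) : M.All fun e z =>
    (M.hw (wk H m) + M.ric H + M.hs (fun x => ((m : ℝ) - 1) * u x) + (((m : ℝ) - 1) * ε) • H) e z =
      (((m : ℝ) - 1) • om M H ε u) e z := fun e he z hz => by
  simp only [om, Pi.add_apply, Pi.smul_apply, Pi.neg_apply, (bKAN n M H m hm).2 e he z hz,
    ((mLAP n M u u hu hu).1 ((m : ℝ) - 1) e he z hz).2.2.2.1]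
  module

theorem lev_cu (hm : M.Met H) (ε : ℝ) {u : M.X → ℝ} (hu : M.Sm u) :
    ∫ x, cu (M.hw (wk H m) + M.ric H + M.hs (fun x => ((m : ℝ) - 1) * u x) +
      (((m : ℝ) - 1) * ε) • H) (lk H m) W x ∂M.mu H =
      ((m : ℝ) - 1) * ∫ x, cu (om M H ε u) (lk H m) W x ∂M.mu H := by
  rw [← integral_const_mul]
  refine congrArg _ (funext fun x => ?_)
  rw [← cu_smul]
  exact cu_congr _ _ (congrFun (Mf.ev_congr (lev hm m ε hu)) x)

theorem om_le (hc : Cx M H a) {ε : ℝ} (hε : ε ∈ Ioc (0 : ℝ) 1) : M.Le 0 (om M H ε (a ε)) := by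
  have := (hc.out.kae _ hε).toMet.nonneg
  rwa [zero_sub] at this

theorem hyp (hc : Cx M H a) (h2 : 2 ≤ m) {ε : ℝ} (hε : ε ∈ Ioc (0 : ℝ) 1) :
    0 ≤ ((m : ℝ) - 1) * ε ∧ M.Sm (fun x => ((m : ℝ) - 1) * a ε x) ∧
    (∀ x, ((m : ℝ) - 1) * a ε x ≤ 0) ∧ M.Le 0 (M.hw (wk H m) + M.ric H +
      M.hs (fun x => ((m : ℝ) - 1) * a ε x) + (((m : ℝ) - 1) * ε) • H) := by
  have m1 : (0 : ℝ) ≤ m - 1 := by
    have : (2 : ℝ) ≤ m := by exact_mod_cast h2
    linarith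
  refine ⟨mul_nonneg m1 hε.1.le, (hc.out.sm _ hε).const_mul _,
    fun x => mul_nonpos_of_nonneg_of_nonpos m1 (hc.out.le _ hε x), fun e he z hz => ?_⟩
  have := om_le hc hε e he z hz
  beta_reduce
  rw [lev hc.kae.toMet m ε (hc.out.sm _ hε) e he z hz]
  simp only [Pi.zero_apply, sub_zero, Pi.smul_apply] at this ⊢
  exact this.smul m1

theorem itg [M.Cpt] (hc : Cx M H a) (p : ℝ) : ∃ ε₀ C : ℝ, 0 < ε₀ ∧ ∀ ε ∈ Ioc (0 : ℝ) 1, ε ≤ ε₀ →
    ∫ x, Real.exp (-(p * a ε x)) ∂M.mu H ≤ C := by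
  obtain ⟨ε₀, C, e0, h⟩ := hc.out.itg (|p| + 1) (by positivity)
  have ig := (mMU n M H hc.kae.toMet).2.2.2.2.1 ℝ
  refine ⟨ε₀, C, e0, fun ε hε h1 => le_trans ?_ (h ε hε h1)⟩
  have := (hc.out.sm _ hε).continuous
  refine integral_mono (ig _ (by fun_prop)) (ig _ (by fun_prop)) fun x => Real.exp_le_exp.2 ?_
  nlinarith [hc.out.le _ hε x, le_abs_self p]

theorem ap1 [M.Cpt] (hI : St_IBP) (hH : M.Kae H) (hn : 0 < n) (hW : (lk H m).Sec W)
    (h : Ap2 M H m W) : Ap1 M H m W := by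
  obtain ⟨C, h⟩ := h
  have hm := hH.toMet
  have o0 := (aLAM n M H _ _ hm (bKAN n M H m hm).1).1
  have ig := (mMU n M H hm).2.2.2.2.1 ℝ
  refine ⟨C, fun η hη => ?_⟩
  have q : 0 < |C| + 1 := by positivity
  obtain ⟨κ, k0, k1⟩ : ∃ κ : ℝ, 0 < κ ∧ κ * (|C| + 1) ≤ η / 2 :=
    ⟨η / 2 / (|C| + 1), by positivity, (div_mul_cancel₀ _ q.ne').le⟩
  obtain ⟨F, sF, F1, b1, b2⟩ := h (κ * η / 2) (by positivity)
  have cF := sF.continuous
  have b3 : ∫ x, F x ∂M.mu H ≤ C := le_trans (integral_mono (ig _ cF) (ig _ (cF.pow _))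
    fun x => le_self_pow₀ (F1 x) (by omega)) b1
  refine ⟨F, sF, F1, b3, ?_⟩
  have s := (hI n M H m _ F F hH sF sF (hI n M H m W F F hH sF sF hW).2.1).2.2.1
  have pc : Continuous ((lk H m).pn (P0 M H m (sm M F W))) := (o0.pp_rep s s).2.re.continuous
  have i1 := (ig _ cF).const_mul κ
  have i2 := (ig _ (pc.div cF fun x => (lt_of_lt_of_le one_pos (F1 x)).ne')).const_mul (1 / κ)
  have k := integral_mono (ig _ pc.sqrt) (i1.add i2) fun x => by
    have s := Real.sq_sqrt (Pre.pn_nonneg (g := ⟨H, _, hm, o0⟩) (P0 M H m (sm M F W)) x)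
    have f0 := lt_of_lt_of_le one_pos (F1 x)
    simp only [Pi.add_apply, Pi.div_apply]
    change _ = (lk H m).pn (P0 M H m (sm M F W)) x at s
    have r0 := Real.sqrt_nonneg ((lk H m).pn (P0 M H m (sm M F W)) x)
    generalize √((lk H m).pn (P0 M H m (sm M F W)) x) = r at s r0 ⊢
    rw [← s]
    have : 0 ≤ 1 / κ * ((κ * F x - r) ^ 2 / F x) := by positivity
    have e3 : 1 / κ * ((κ * F x - r) ^ 2 / F x) = κ * F x + 1 / κ * (r ^ 2 / F x) - 2 * r := by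
      field_simp
      ring
    linarith
  rw [integral_add' i1 i2, integral_const_mul, integral_const_mul] at k
  simp only [Pi.div_apply] at k
  have y1 := mul_le_mul_of_nonneg_left (b3.trans (le_abs_self C)) k0.le
  have y2 := (mul_le_mul_of_nonneg_left b2 (show 0 ≤ 1 / κ by positivity)).trans_eq
    (show _ = η / 2 by field_simp)
  nlinarith

theorem den (hI : St_IBP) [M.Cpt] (hH : M.Kae H) (hW : (lk H m).Sec W) {w : M.X → ℝ}
    (hw : M.Sm w) {δ : ℝ} (hδ : 0 < δ) (c : ℝ) (x : M.X) :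
    (lk H m).pn (P0 M H m (sm M (fun y => c * wf δ (w y)) W)) x = (c * wf δ (w x)) ^ 2 *
      (lk H m).pn ((oP H (aw M (wk H m) fun y => -Real.log (wf δ (w y)))).ap W) x := by
  have hm := hH.toMet
  have sF : M.Sm fun y => c * wf δ (w y) := (hw.comp fun y => sf hδ _).const_mul c
  have su : M.Sm fun y => -Real.log (wf δ (w y)) :=
    hw.comp (φ := fun y => -Real.log (wf δ y)) fun y => ((sf hδ _).log (wf_pos hδ _).ne').neg
  have e1 := ((hI n M H m W _ _ hH sF sF hW).2.2.2.1.ch x).1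
  have e2 := (oP_aw hm (bKAN n M H m hm).1 su W).ch x
  have e3 := ct_comp hw (de hδ (w x)) W
  have e4 := ct_comp hw (g := fun y => c * wf δ y) ((df hδ (w x)).const_mul c) W
  have e5 : M.ev (P0 M H m (sm M (fun y => c * wf δ (w y)) W)) x = ((c * wf δ (w x) : ℝ) : ℂ) •
      M.ev ((oP H (aw M (wk H m) fun y => -Real.log (wf δ (w y)))).ap W) x := by
    have e6 : iot M (fun y => c * wf δ (w y)) W (M.ch x) (M.ch x x) =
        ct M (fun y => c * wf δ (w y)) W (M.ch x) (M.ch x x) := by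
      simp only [iot, anv, ct, Matrix.sum_mulVec, Matrix.smul_mulVec]
      rfl
    simp only [Mf.ev] at e3 e4 ⊢
    rw [e1, e2, e6, e3, e4, smul_sub, smul_smul, sub_eq_add_neg, ← neg_smul]
    refine congrArg₂ _ (by simp only [sm, Mf.ch_symm]) (congrArg (· • _) ?_)
    rw [← Complex.ofReal_mul, ← Complex.ofReal_neg, wf]
    exact congrArg _ (by ring)
  simp only [Bun.pn, Bun.pp, e5, star_smul, Matrix.mulVec_smul, smul_dotProduct, dotProduct_smul,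
    smul_eq_mul, RCLike.star_def, Complex.conj_ofReal, Complex.re_ofReal_mul]
  ring

theorem ap2 [M.Cpt] (hI : St_IBP) (hc : Cx M H a) (h2 : 2 ≤ m) (hW : (lk H m).Sec W) (hol : Hol W)
    (h : N0 M H a m W) : Ap2 M H m W := by
  have hm := hc.kae.toMet
  obtain ⟨o0, -, a0⟩ := aLAM n M H _ _ hm (bKAN n M H m hm).1
  have ig := (mMU n M H hm).2.2.2.2.1 ℝ
  have m1 : (0 : ℝ) < m - 1 := by
    have : (2 : ℝ) ≤ m := by exact_mod_cast h2
    linarith
  obtain ⟨K, K0, hK⟩ := sg10 hc.kae (bKAN n M H m hm).1 hW hol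
  obtain ⟨ε₀, C, e0, hC⟩ := itg hc (((2 * n : ℕ) : ℝ) * (m - 1))
  refine ⟨2 ^ (2 * n) * C, fun η hη => ?_⟩
  have q : 0 < K * |C| + 1 := by positivity
  obtain ⟨δ, d0, d1, d2⟩ : ∃ δ : ℝ, 0 < δ ∧ δ ≤ 1 ∧ δ * (K * |C| + 1) ≤ η / 4 :=
    ⟨min 1 (η / 4 / (K * |C| + 1)), by positivity, min_le_left _ _,
      (le_div_iff₀ q).1 (min_le_right _ _)⟩
  obtain ⟨ε, hε, l1, l2⟩ := h (min ε₀ (δ * η / 32 / (m - 1))) (by positivity)
  obtain ⟨y1, y2, y3, y4⟩ := hyp hc h2 hε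
  have k := (hK _ δ _ y1 d0 d1 y2 y3 y4).2
  rw [lev_cu hm ε (hc.out.sm _ hε)] at k
  have b := hC ε hε (l1.trans (min_le_left _ _))
  have e : ∀ x, Real.exp (-(((2 * n : ℕ) : ℝ) * (m - 1) * a ε x)) =
      Real.exp (-((m - 1) * a ε x)) ^ (2 * n) := fun x => by
    rw [← Real.exp_nat_mul]
    exact congrArg Real.exp (by ring)
  simp only [e] at b
  obtain ⟨w, hw⟩ : ∃ w : M.X → ℝ, w = fun x => ((m : ℝ) - 1) * a ε x := ⟨_, rfl⟩
  have hw' : ∀ x, ((m : ℝ) - 1) * a ε x = w x := fun x => by rw [hw]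
  simp only [hw'] at k b y2 y3
  have t1 : ∀ x, 1 ≤ Real.exp (-w x) := fun x => Real.one_le_exp (neg_nonneg.2 (y3 x))
  have cw : Continuous w := y2.continuous
  have sF : M.Sm fun y => (1 + δ) * wf δ (w y) := (y2.comp fun y => sf d0 _).const_mul _
  have F1 : ∀ x, 1 ≤ (1 + δ) * wf δ (w x) ∧ (1 + δ) * wf δ (w x) ≤ 2 * Real.exp (-w x) :=
    fun x => by
      have := t1 x
      have q : 0 < 1 + δ * Real.exp (-w x) := by positivity
      rw [wf, ← mul_div_assoc, le_div_iff₀ q, div_le_iff₀ q]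
      constructor <;> nlinarith [mul_pos (mul_pos d0 (Real.exp_pos (-w x))) (Real.exp_pos (-w x))]
  have it := ig (fun x => Real.exp (-w x) ^ (2 * n)) (by fun_prop)
  refine ⟨_, sF, fun x => (F1 x).1, ?_, ?_⟩
  · refine le_trans (integral_mono (ig _ (sF.pow _).continuous) (it.const_mul (2 ^ (2 * n)))
      fun x => ?_) ?_
    · beta_reduce
      rw [← mul_pow]
      exact pow_le_pow_left₀ (zero_le_one.trans (F1 x).1) (F1 x).2 _
    · rw [integral_const_mul]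
      exact mul_le_mul_of_nonneg_left b (by positivity)
  have su : M.Sm fun y => -Real.log (wf δ (w y)) :=
    y2.comp (φ := fun y => -Real.log (wf δ y)) fun y => ((sf d0 _).log (wf_pos d0 _).ne').neg
  have pu := aSP n M H _ _ W hm ((a0 _).1 su).1 ⟨hW.sm, hW.cmp⟩
  have pc : Continuous ((lk H m).pn
      ((oP H (aw M (wk H m) fun y => -Real.log (wf δ (w y)))).ap W)) :=
    (o0.pp_rep ⟨pu.sm, pu.cmp⟩ ⟨pu.sm, pu.cmp⟩).2.re.continuous
  have e7 : ∀ x, (lk H m).pn (P0 M H m (sm M (fun y => (1 + δ) * wf δ (w y)) W)) x /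
      ((1 + δ) * wf δ (w x)) = (1 + δ) * wf δ (w x) * (lk H m).pn
        ((oP H (aw M (wk H m) fun y => -Real.log (wf δ (w y)))).ap W) x := fun x => by
    rw [den hI hc.kae hW y2 d0, div_eq_iff (lt_of_lt_of_le one_pos (F1 x).1).ne']
    ring
  simp only [e7]
  have k1 := integral_mono (ig _ (sF.continuous.mul pc))
    ((ig _ (y2.neg.exp.continuous.mul pc)).const_mul 2) fun x => by
      simp only [Pi.mul_apply, ← mul_assoc]
      exact mul_le_mul_of_nonneg_right (F1 x).2 (Pre.pn_nonneg (g := ⟨H, _, hm, o0⟩) _ x)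
  rw [integral_const_mul] at k1
  simp only [Pi.mul_apply] at k1
  have k2 : ∫ x, Real.exp (-w x) ^ 2 ∂M.mu H ≤ |C| :=
    ((integral_mono (ig _ (y2.neg.exp.pow 2).continuous) it fun x =>
      pow_le_pow_right₀ (t1 x) (by have := hc.n0; omega)).trans b).trans (le_abs_self C)
  have k3 := (mul_le_mul_of_nonneg_left (mul_le_mul_of_nonneg_left (l2.trans (min_le_right _ _))
    m1.le) (show 0 ≤ 8 / δ by positivity)).trans_eq (show _ = η / 4 by field_simp; ring)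
  have := mul_le_mul_of_nonneg_left k2 (mul_nonneg K0 d0.le)
  nlinarith

theorem par [M.Cpt] (hc : Cx M H a) (h2 : 2 ≤ m) (hW : (lk H m).Sec W) (hol : Hol W)
    (h : Sml M H m W) : Par M H a m W := fun c => by
  obtain ⟨C, C0, h⟩ := h
  have hm := hc.kae.toMet
  have m1 : (0 : ℝ) < m - 1 := by
    have : (2 : ℝ) ≤ m := by exact_mod_cast h2
    linarith
  have e : ∀ᶠ ε in 𝓝[>] (0 : ℝ), ε ∈ Ioc (0 : ℝ) 1 := Ioc_mem_nhdsGT one_pos
  have b : ∀ p : ℝ, ∃ C : ℝ, ∀ᶠ ε in 𝓝[>] (0 : ℝ),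
      ∫ x, Real.exp (-(p * (((m : ℝ) - 1) * a ε x))) ∂M.mu H ≤ C := fun p => by
    obtain ⟨ε₀, C, e0, hC⟩ := itg hc (p * (m - 1))
    refine ⟨C, ?_⟩
    filter_upwards [e, Ioc_mem_nhdsGT e0] with ε h1 h3
    simpa only [mul_assoc] using hC ε h1 h3.2
  obtain ⟨C1, b1⟩ := b 2
  obtain ⟨C2, b2⟩ := b (2 * (c / (m - 1)) + 1)
  have k := P1_of_P2 hm (bKAN n M H m hm).1 hW (e.mono fun ε h1 => (hyp hc h2 h1).2.1) b2
    (sgP2 hc.kae (bKAN n M H m hm).1 hW hol (e.mono fun ε h1 => hyp hc h2 h1) b1 fun η hη => by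
      filter_upwards [e, Ioc_mem_nhdsGT (show 0 < η / ((m - 1) * (C + 1)) by positivity)]
        with ε h1 h3
      rw [lev_cu hm ε (hc.out.sm _ h1)]
      have y1 := mul_le_mul_of_nonneg_left (h ε _ h1.1.le (hc.out.sm _ h1) (om_le hc h1)) m1.le
      have y2 := (le_div_iff₀ (by positivity)).1 h3.2
      nlinarith [mul_pos m1 h1.1])
  have e2 : ∀ y : ℝ, c / (m - 1) * ((m - 1) * y) = c * y := fun y => by field_simp
  simp only [e2] at k
  exact k

end SG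

theorem st_SG (hK : St_KIT) (hI : St_IBP) : St_SG := fun n M _ H a m W hc h2 hW => by
  obtain ⟨s, hol⟩ := (hK n M H m W hc.kae.toMet).1.1 hW
  refine ⟨fun h => ⟨SG.ap1 hI hc.kae hc.n0 s (SG.ap2 hI hc h2 s hol h), SG.ap2 hI hc h2 s hol h⟩,
    fun h => ⟨fun η hη => ?_, SG.par hc h2 s hol h⟩⟩
  obtain ⟨C, C0, h⟩ := h
  have hε : min 1 (η / (C + 1)) ∈ Ioc (0 : ℝ) 1 := ⟨by positivity, min_le_left _ _⟩
  have y := (le_div_iff₀ (show 0 < C + 1 by positivity)).1 (min_le_right 1 (η / (C + 1)))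
  refine ⟨_, hε, by nlinarith [hε.1], (h _ _ hε.1.le (hc.out.sm _ hε) (SG.om_le hc hε)).trans ?_⟩
  nlinarith [hε.1]

end Pool.Agent.Lib.NU4
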