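import Pool.Agent.Lib.NU4.Blue
import Pool.Agent.Lib.F4.B_PW1
import Pool.Agent.Lib.F4.B_S2K
import Pool.Agent.Lib.HS32.MAll

/-! Project nu4, row SMV: a field without divergence on which the canonical class is not positive
is small. -/

open scoped Classical Topology ContDiff ComplexOrder Matrix
open Set Filter MeasureTheory

set_option linter.unusedVariables false

noncomputable section

namespace Pool.Agent.Lib.NU4

open Pool.Agent.Lib.SV (E)
open Pool.Agent.Lib.HS32 Pool.Agent.Lib.HLK Pool.Agent.Lib.F4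
open Pool.Agent.Lib.K3E (kan wk lk)

namespace Smv80

variable {n : ℕ}

theorem nq_three (A B C : Mat n) (c : ℝ) (v : E n) :
    nq (A + c • B + C) v = nq A v + c * nq B v + nq C v := by
  simp only [nq, Matrix.add_mulVec, Matrix.smul_mulVec, dotProduct_add, dotProduct_smul,
    Complex.add_re, Complex.real_smul, Complex.mul_re, Complex.ofReal_re, Complex.ofReal_im,
    zero_mul, sub_zero]

end Smv80

open Smv80 in
theorem st_SMV (hI : St_IBP) (hK : St_KIT) (hP : St_PW) (hL : St_LIE) : St_SMV := by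
  intro n M _ H a V hc hV h
  have hH : M.Met H := hc.kae.toMet
  obtain ⟨-, k2, -, -, -, -, k7, -⟩ := st_S2K st_PW1 n M H hH
  obtain ⟨e1, -, -, -, -, -, -, -, e9, -⟩ := mHES n M
  have hint := (mMU n M H hH).2.2.2.2.1
  obtain ⟨t1, t2, -, -, -, t6, -⟩ := hK n M H 1 (vec M V) hH
  have hV1 : HT M (1 : ℕ) V := by simpa only [Nat.cast_one] using hV.ht
  obtain ⟨s1, s2⟩ := t1.1 (t2 V hV1).1
  have hS : SK M V := k2 V hV.ht
  have cq : ∀ T x, cu T (lk H 1) (vec M V) x = qV M H T V x := fun T x => by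
    rw [(t6 x).2 T, pow_one]
    have h6 := (hP n (M.ev H x) (M.ev T x) (M.ev V x) 0 0 (hH.ev_pos x)).2.2.2.2.2.1
    exact congrArg (· / (M.ev H x).det.re) h6
  have z : ∀ u, M.Sm u → ∫ x, qV M H (M.hs u) V x ∂M.mu H = 0 := fun u hu => by
    obtain ⟨-, -, -, i4, -, i6⟩ := hI n M H 1 (vec M V) (fun _ => 1) u hc.kae (Mf.sm_const 1) hu s1
    have e0 : sm M (fun _ => 1) (vec M V) = vec M V := by
      funext e z
      simp only [sm, Complex.ofReal_one, one_smul]
    have p0 : ∀ x, M.ev (P0 M H 1 (vec M V)) x = 0 := fun x => by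
      have h1 := (Mf.AllOn.ch i4 x).2.2
      have hv : HolV (V (M.ch x)) (M.ch x x) := Mf.AllOn.ch hV.ht.hol x
      have hw : HolV (vec M V (M.ch x)) (M.ch x x) := Mf.AllOn.ch s2 x
      have hf : HolN (fun _ : E n => (0 : ℂ)) (M.ch x x) :=
        Eventually.of_forall fun _ => differentiableAt_const _
      have h2 := (hL n _ _ _ _ _ hv hv hw hf).2.2.2.2.2.2.2.2.2.2.2.1
      have h3 : dv (V (M.ch x)) (M.ch x x) = 0 := Mf.AllOn.ch hV.dv0 x
      rw [h3, zero_smul] at h2
      change P0 M H 1 (vec M V) (M.ch x) (M.ch x x) = 0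
      rw [h1, Nat.cast_one, sub_self, zero_smul, sub_zero]
      exact h2
    have h1 := (i6 s2).1
    rw [e0] at h1
    simp only [one_mul, cq, Bun.ip, Bun.pp, p0, Matrix.mulVec_zero, dotProduct_zero,
      integral_zero, Complex.zero_re, neg_zero] at h1
    exact h1
  have hc0 : 0 ≤ ∫ x, qV M H H V x ∂M.mu H := integral_nonneg fun x =>
    div_nonneg (Complex.nonneg_iff.1
      ((hH.ev_pos x).posSemidef.dotProduct_mulVec_nonneg _)).1 (Mf.pd_det_re (hH.ev_pos x)).le
  have key : ∀ (ε : ℝ) (u : M.X → ℝ), M.Sm u → ∫ x, cu (om M H ε u) (lk H 1) (vec M V) x ∂M.mu H =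
      ∫ x, qV M H (-M.ric H) V x ∂M.mu H + ε * ∫ x, qV M H H V x ∂M.mu H := fun ε u hu => by
    have q3 : ∀ x, qV M H (om M H ε u) V x = qV M H (-M.ric H) V x + ε * qV M H H V x +
        qV M H (M.hs u) V x := fun x => by
      change nq (M.ev (-M.ric H) x + ε • M.ev H x + M.ev (M.hs u) x) (M.ev V x) /
        (M.ev H x).det.re = nq (M.ev (-M.ric H) x) (M.ev V x) / (M.ev H x).det.re +
          ε * (nq (M.ev H x) (M.ev V x) / (M.ev H x).det.re) +
          nq (M.ev (M.hs u) x) (M.ev V x) / (M.ev H x).det.re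
      rw [nq_three]
      ring
    have i1 := hint _ _ (k7 _ V (e9 H hH).toForm.neg.toTen hS).continuous
    have i2 := (hint _ _ (k7 _ V hH.toTen hS).continuous).const_mul ε
    have i3 := hint _ _ (k7 _ V (e1 u hu).toTen hS).continuous
    have i4 : Integrable (fun x => qV M H (-M.ric H) V x + ε * qV M H H V x) (M.mu H) := i1.add i2
    simp only [cq, q3]
    rw [integral_add i4 i3, integral_add i1 i2, integral_const_mul, z u hu, add_zero]
  have hl : ∫ x, qV M H (-M.ric H) V x ∂M.mu H ≤ 0 := by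
    rcases h with h | h
    · refine le_of_forall_pos_le_add fun η hη => ?_
      obtain ⟨ε, hε, -, h1⟩ := h η hη
      rw [key ε _ (hc.out.sm ε hε)] at h1
      have := mul_nonneg hε.1.le hc0
      linarith
    · exact h
  refine ⟨_, hc0, fun ε u hε hu _ => ?_⟩
  rw [key ε u hu, mul_comm]
  linarith

end Pool.Agent.Lib.NU4
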