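import Pool.Agent.Lib.NU4.Dv37
import Pool.Agent.Lib.F4.B_S2K
import Pool.Agent.Lib.F4.B_PW1

/-! Project nu4: a solution of the Riccati equation along a vector field without divergence forces
the curvature to be non-positive in the mean. -/

open scoped Classical Topology ContDiff ComplexOrder Matrix
open Set Filter MeasureTheory

set_option linter.unusedVariables false

noncomputable section

namespace Pool.Agent.Lib.NU4.D37

open Pool.Agent.Lib.SV (E)
open Pool.Agent.Lib.HS32 Pool.Agent.Lib.HLK Pool.Agent.Lib.F4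

variable {n : ℕ}

/-- The derivative along a vector field. -/
def vd (V : E n → E n) (f : E n → ℂ) (z : E n) : ℂ := ∑ j, V z j * dz j f z

section

variable {V : E n → E n} {f g : E n → ℂ} {z : E n}

theorem vd_mul (hf : DifferentiableAt ℝ f z) (hg : DifferentiableAt ℝ g z) :
    vd V (fun w => f w * g w) z = vd V f z * g z + f z * vd V g z := by
  simp only [vd, dz_mul hf hg, Finset.sum_mul, Finset.mul_sum, ← Finset.sum_add_distrib]
  exact Finset.sum_congr rfl fun j _ => by ring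

theorem vd_sub (hf : DifferentiableAt ℝ f z) (hg : DifferentiableAt ℝ g z) :
    vd V (fun w => f w - g w) z = vd V f z - vd V g z := by
  simp only [vd, dz_sub hf hg, mul_sub, Finset.sum_sub_distrib]

theorem vd_comp {φ : ℂ → ℂ} {c : ℂ} (hφ : HasDerivAt φ c (f z)) (hf : DifferentiableAt ℝ f z) :
    vd V (fun w => φ (f w)) z = c * vd V f z := by
  simp only [vd, dz_comp hφ hf, Finset.mul_sum]
  exact Finset.sum_congr rfl fun j _ => by ring

theorem cd_vd (hV : ∀ i, ContDiffAt ℝ ∞ (fun w => V w i) z) (hf : ContDiffAt ℝ ∞ f z) :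
    ContDiffAt ℝ ∞ (vd V f) z := ContDiffAt.sum fun j _ => (hV j).mul (cd_dz hf j)

theorem dv_smul (hV : ∀ i, DifferentiableAt ℝ (fun w => V w i) z) (hf : DifferentiableAt ℝ f z) :
    dv (fun w => f w • V w) z = vd V f z + f z * dv V z := by
  simp only [dv, vd, Pi.smul_apply, smul_eq_mul, dz_mul hf (hV _), Finset.mul_sum,
    ← Finset.sum_add_distrib]
  exact Finset.sum_congr rfl fun j _ => by ring

theorem hol_dzb (hf : HolN f z) (j : Fin n) : dzb j f z = 0 :=
  ((mHOL n f z).1 (cd_diff ((mHOL n f z).2.2 hf).1)).1 hf.self_of_nhds j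

theorem dzb_vd (hV : ∀ i, HolN (fun w => V w i) z) (hf : ContDiffAt ℝ ∞ f z) (j : Fin n) :
    dzb j (vd V f) z = (hess f z *ᵥ V z) j := by
  have sV := fun i => ((mHOL n _ z).2.2 (hV i)).1
  have := dzb_sum (j := j) (s := Finset.univ) (f := fun k w => V w k * dz k f w) fun k _ =>
    cd_diff ((sV k).mul (cd_dz hf k))
  refine this.trans (Finset.sum_congr rfl fun k _ => ?_)
  rw [dzb_mul (cd_diff (sV k)) (cd_diff (cd_dz hf k)), hol_dzb (hV k), zero_mul, zero_add,
    mul_comm]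
  rfl

theorem nq_coe {T : Mat n} (h : T.IsHermitian) (v : E n) : (nq T v : ℂ) = star v ⬝ᵥ T *ᵥ v := by
  refine Complex.conj_eq_iff_re.1 ?_
  rw [show ∀ a : ℂ, (starRingEnd ℂ) a = star a from fun _ => rfl, ← Matrix.star_dotProduct_star,
    star_star, Matrix.star_mulVec, h.eq, Matrix.dotProduct_mulVec]

/-- The test function. -/
def tg (F : E n → ℂ) (φ : E n → ℝ) (N : ℝ) (w : E n) : ℂ :=
  N * (star (F w) * ((Complex.normSq (F w) * Real.exp (-φ w) : ℝ) + N : ℂ)⁻¹)

theorem loc {φ : E n → ℝ} {β : E n → ℂ} {r : ℂ} {N : ℝ} (hN : 0 < N)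
    (hV : ∀ i, HolN (fun w => V w i) z) (hφ : ContDiffAt ℝ ∞ φ z) (hβ : HolN β z)
    (hd : dv V z = 0) (hh : (hess (fun w => (φ w : ℂ)) z).IsHermitian)
    (ric : vd V β z - β z ^ 2 / 2 = vd V (vd V fun w => (φ w : ℂ)) z -
      vd V (fun w => (φ w : ℂ)) z ^ 2 / 2 - r) (F : E n → ℂ)
    (hF : F = fun w => β w - vd V (fun w => (φ w : ℂ)) w) (s : ℝ)
    (hs : s = Complex.normSq (F z) * Real.exp (-φ z)) :
    ContDiffAt ℝ ∞ (fun w => tg F φ N w • V w) z ∧
    dv (fun w => tg F φ N w • V w) z / (Real.exp (φ z) : ℝ) =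
      -((nq (hess (fun w => (φ w : ℂ)) z) (V z) / Real.exp (φ z) * (N / (s + N)) ^ 2 +
        N * s ^ 2 / (2 * (s + N) ^ 2) : ℝ) : ℂ) +
      N * (r * star (F z) ^ 2) / ((Real.exp (φ z) * (s + N)) ^ 2 : ℝ) := by
  have sV := fun i => ((mHOL n _ z).2.2 (hV i)).1
  have sφ := cd_ofReal hφ
  have sa := cd_vd sV sφ
  have sβ := ((mHOL n _ z).2.2 hβ).1
  have sF : ContDiffAt ℝ ∞ F z := hF ▸ sβ.sub sa
  have sE : ContDiffAt ℝ ∞ (fun w => Complex.exp (-(φ w : ℂ))) z :=
    (Complex.contDiff_exp (𝕜 := ℝ)).contDiffAt.comp z sφ.neg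
  set sc : E n → ℂ := fun w => F w * star (F w) * Complex.exp (-(φ w : ℂ)) with hsc
  have e1 : ∀ w, ((Complex.normSq (F w) * Real.exp (-φ w) : ℝ) : ℂ) = sc w := fun w => by
    simp only [hsc, Complex.ofReal_mul, Complex.ofReal_exp, Complex.ofReal_neg,
      ← Complex.mul_conj, RCLike.star_def]
  have ssc : ContDiffAt ℝ ∞ sc z := (sF.mul (cd_star sF)).mul sE
  have s0 : 0 ≤ s := hs ▸ mul_nonneg (Complex.normSq_nonneg _) (Real.exp_pos _).le
  have es : sc z = s := by rw [hs, e1]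
  have ne : sc z + N ≠ 0 := by
    rw [es]; exact_mod_cast (by positivity : s + N ≠ 0)
  have eG : tg F φ N = fun w => N * (star (F w) * (sc w + N)⁻¹) := funext fun w => by rw [tg, e1]
  have sI : ContDiffAt ℝ ∞ (fun w => (sc w + N)⁻¹) z := (ssc.add contDiffAt_const).inv ne
  have sG : ContDiffAt ℝ ∞ (tg F φ N) z := eG ▸ contDiffAt_const.mul ((cd_star sF).mul sI)
  refine ⟨sG.smul (contDiffAt_pi.2 sV), ?_⟩
  set θ := nq (hess (fun w => (φ w : ℂ)) z) (V z) with hθ
  set a := vd V (fun w => (φ w : ℂ)) z with ha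
  have v1 : vd V (fun w => star (F w)) z = -θ := by
    have : ∀ j, dz j (fun w => star (F w)) z = -star ((hess (fun w => (φ w : ℂ)) z *ᵥ V z) j) :=
      fun j => by
        rw [dz_star (cd_diff sF), hF, dzb_sub (cd_diff sβ) (cd_diff sa), hol_dzb hβ,
          dzb_vd hV sφ, zero_sub, star_neg]
    have e := congrArg star (nq_coe hh (V z))
    rw [← hθ, RCLike.star_def, Complex.conj_ofReal] at e
    rw [e]
    simp only [vd, this]
    simp only [dotProduct, map_sum, map_mul, Pi.star_apply, RCLike.star_def,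
      Complex.conj_conj, mul_neg, Finset.sum_neg_distrib]
  have Fz : β z = F z + a := by rw [hF]; ring
  have v2 : vd V F z = -r + F z ^ 2 / 2 + a * F z := by
    have : vd V F z = vd V β z - vd V (vd V fun w => (φ w : ℂ)) z := by
      rw [hF]; exact vd_sub (cd_diff sβ) (cd_diff sa)
    rw [this]
    rw [Fz] at ric
    linear_combination ric
  have v3 : vd V (fun w => Complex.exp (-(φ w : ℂ))) z = -Complex.exp (-(φ z : ℂ)) * a :=
    (vd_comp (φ := fun t => Complex.exp (-t)) (hasDerivAt_neg (φ z : ℂ)).cexp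
      (cd_diff sφ)).trans (by ring)
  have v4 : vd V sc z = ((-r + F z ^ 2 / 2 + a * F z) * star (F z) + F z * -θ) *
      Complex.exp (-(φ z : ℂ)) + F z * star (F z) * (-Complex.exp (-(φ z : ℂ)) * a) := by
    rw [hsc, vd_mul (cd_diff (sF.mul (cd_star sF))) (cd_diff sE),
      vd_mul (cd_diff sF) (cd_diff (cd_star sF)), v1, v2, v3]
  have v5 : vd V (fun w => (sc w + N)⁻¹) z = -((sc z + N) ^ 2)⁻¹ * vd V sc z :=
    (vd_comp (φ := fun t => (t + N)⁻¹) (((hasDerivAt_id (sc z)).add_const (N : ℂ)).inv ne)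
      (cd_diff ssc)).trans (by simp only [id]; ring)
  have v6 : vd V (tg F φ N) z = N * (-θ * (sc z + N)⁻¹ +
      star (F z) * (-((sc z + N) ^ 2)⁻¹ * vd V sc z)) := by
    rw [eG, vd_mul (differentiableAt_const _) (cd_diff ((cd_star sF).mul sI)),
      vd_mul (cd_diff (cd_star sF)) (cd_diff sI), v1, v5]
    simp only [vd, dz_const, mul_zero, Finset.sum_const_zero, zero_mul, zero_add]
  rw [dv_smul (fun i => cd_diff (sV i)) (cd_diff sG), hd, mul_zero, add_zero, v6, v4]
  have e2 : F z * star (F z) = s * Complex.exp (φ z) := by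
    rw [← es, hsc, mul_assoc, ← Complex.exp_add, neg_add_cancel, Complex.exp_zero, mul_one]
  have nE := Complex.exp_ne_zero (φ z)
  rw [es] at ne ⊢
  push_cast
  rw [Complex.exp_neg]
  field_simp
  linear_combination (2 * θ - (F z * star (F z) + s * Complex.exp (φ z))) * e2

end

theorem num {N s q R C : ℝ} {d t : ℂ} (hN : 1 ≤ N) (hs : 0 ≤ s) (hq : |q| ≤ C) (hR : 0 ≤ R)
    (ht : ‖t‖ ≤ R * (N * s / (s + N) ^ 2))
    (hd : d = -((q * (N / (s + N)) ^ 2 + N * s ^ 2 / (2 * (s + N) ^ 2) : ℝ) : ℂ) + t) :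
    ‖d‖ ≤ C + N + R ∧ -(C + R) ≤ -d.re ∧
      q - (C * (1 - (N / (s + N)) ^ 2) + R * (N * s / (s + N) ^ 2)) ≤ -d.re := by
  have p : 0 < s + N := by linarith
  have a1 : 0 ≤ (N / (s + N)) ^ 2 := sq_nonneg _
  have a2 : (N / (s + N)) ^ 2 ≤ 1 := by
    rw [div_pow, div_le_one (by positivity)]; nlinarith
  have a3 : 0 ≤ N * s ^ 2 / (2 * (s + N) ^ 2) := by positivity
  have a4 : N * s ^ 2 / (2 * (s + N) ^ 2) ≤ N := by
    rw [div_le_iff₀ (by positivity)]
    exact mul_le_mul_of_nonneg_left (by nlinarith) (by linarith)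
  have a5 : N * s / (s + N) ^ 2 ≤ 1 := by
    rw [div_le_one (by positivity)]; nlinarith
  have a6 := mul_le_mul_of_nonneg_left a5 hR
  have a7 := abs_le.1 hq
  have a8 := abs_le.1 ((Complex.abs_re_le_norm t).trans ht)
  have C0 : 0 ≤ C := (abs_nonneg _).trans hq
  have b1 : -C ≤ q * (N / (s + N)) ^ 2 := by nlinarith
  have b2 : q * (N / (s + N)) ^ 2 ≤ C := by nlinarith
  have e : -d.re = q * (N / (s + N)) ^ 2 + N * s ^ 2 / (2 * (s + N) ^ 2) - t.re := by
    rw [hd, Complex.add_re, Complex.neg_re, Complex.ofReal_re]; ring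
  refine ⟨?_, by rw [e]; linarith, by rw [e]; nlinarith⟩
  rw [hd]
  refine (norm_add_le _ _).trans ?_
  rw [norm_neg, Complex.norm_real, Real.norm_eq_abs]
  have : |q * (N / (s + N)) ^ 2 + N * s ^ 2 / (2 * (s + N) ^ 2)| ≤ C + N :=
    abs_le.2 ⟨by linarith, by linarith⟩
  linarith

theorem lim0 (s C R : ℝ) : Tendsto (fun k : ℕ => C * (1 - (((k : ℝ) + 1) / (s + (k + 1))) ^ 2) +
    R * ((k + 1) * s / (s + (k + 1)) ^ 2)) atTop (𝓝 0) := by
  have t0 : Tendsto (fun k : ℕ => s + ((k : ℝ) + 1)) atTop atTop :=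
    tendsto_atTop_add_const_left _ _ (tendsto_atTop_add_const_right _ _ tendsto_natCast_atTop_atTop)
  have t1 : Tendsto (fun k : ℕ => s / (s + ((k : ℝ) + 1))) atTop (𝓝 0) :=
    tendsto_const_nhds.div_atTop t0
  have t2 := ((((tendsto_const_nhds (x := (1 : ℝ))).sub t1).pow 2).const_sub 1).const_mul C
  have t3 := (((tendsto_const_nhds (x := (1 : ℝ))).sub t1).mul t1).const_mul R
  have t4 := t2.add t3
  simp only [sub_zero, one_pow, sub_self, mul_zero, add_zero] at t4
  refine t4.congr' ((t0.eventually_gt_atTop 0).mono fun k hk => ?_)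
  have := hk.ne'
  beta_reduce
  field_simp
  ring

/-- The derivative of the weight along `V`. -/
def a0 (M : Mf n) (H : M.Fam (Mat n)) (V : M.Fam (E n)) : M.Fam ℂ := fun e =>
  vd (V e) fun w => (ph M H e w : ℂ)

/-- The test function argument. -/
theorem t3 (M : Mf n) [hM : M.Cpt] (H : M.Fam (Mat n)) (hH : M.Met H) (V : M.Fam (E n))
    (hV : HT M 1 V) (hd : Zr M fun e => dv (V e)) (ρ : M.X → ℝ) (sρ : M.Sm ρ) (h0 : ∀ x, 0 ≤ ρ x)
    (nul : M.mu H {x | ρ x = 0} = 0) (β r : M.Fam ℂ) (C : ℝ) (hr : M.Sec 2 r)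
    (hβ : M.All fun e z => ρ (e.symm z) ≠ 0 → HolN (β e) z)
    (law : M.Ov fun e e' x => ρ x ≠ 0 → β e' (e' x) - a0 M H V e' (e' x) =
      jd M e e' x * (β e (e x) - a0 M H V e (e x)))
    (ric : M.All fun e z => ρ (e.symm z) ≠ 0 → vd (V e) (β e) z - β e z ^ 2 / 2 =
      vd (V e) (a0 M H V e) z - a0 M H V e z ^ 2 / 2 - r e z)
    (bd : M.All fun e z => ρ (e.symm z) ≠ 0 → ‖vd (V e) (M.lc ρ e) z‖ ^ 2 ≤
      C * ρ (e.symm z) ^ 2 * ((H e z).det.re + ‖β e z - a0 M H V e z‖ ^ 2)) :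
    ∫ x, qV M H (M.hw (ph M H)) V x ∂M.mu H ≤ 0 := by
  have wt : M.Wt 1 (ph M H) := (mINV n M H hH).2.2.2.2.2.2.1
  have cl : M.Clo (M.hw (ph M H)) := (mHES n M).2.2.2.1 _ _ wt
  have S2 := st_S2K st_PW1 n M H hH
  have sq : M.Sm (qV M H (M.hw (ph M H)) V) := S2.2.2.2.2.2.2.1 _ _ cl.toTen (S2.2.1 V hV)
  obtain ⟨Q, -, hQ⟩ := sq.exists_bound
  obtain ⟨R, R0, hR⟩ := ((mHES n M).2.2.2.2.2.2.2.1 2 _ r r
    (by simpa using ((mHES n M).2.2.2.2.1 1 1 _ _ 2 wt wt).2.1) hr hr).2.exists_bound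
  have eD : M.All fun e z => Real.exp (ph M H e z) = (H e z).det.re := fun e he z hz =>
    Real.exp_log (Mf.pd_det_re (hH.pos e he z hz))
  have fin := (mMU n M H hH).2.1
  set F : M.Fam ℂ := fun e w => β e w - a0 M H V e w with hF
  set s : M.X → ℝ := M.ev fun e z => Complex.normSq (F e z) * Real.exp (-ph M H e z) with hs
  have s0 : ∀ x, 0 ≤ s x := fun x => mul_nonneg (Complex.normSq_nonneg _) (Real.exp_pos _).le
  set W : ℕ → M.Fam (E n) := fun k e w => tg (F e) (ph M H e) (k + 1) w • V e w with hW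
  have N1 : ∀ k : ℕ, (1 : ℝ) ≤ k + 1 := fun k => by linarith [Nat.cast_nonneg (α := ℝ) k]
  have lc := fun (k : ℕ) e he z hz (h : ρ (e.symm z) ≠ 0) =>
    loc (N := k + 1) (by positivity) (hV.hol e he z hz) (wt.sm e he z hz) (hβ e he z hz h)
      (hd e he z hz) (cl.herm e he z hz) (ric e he z hz h) (F e) rfl _ rfl
  set d : ℕ → M.X → ℂ := fun k => M.ev fun e z => dv (W k e) z / (H e z).det with hdd
  have nm : ∀ (k : ℕ) x, ρ x ≠ 0 → ‖d k x‖ ≤ Q + (k + 1) + (R + 1) ∧ -(Q + (R + 1)) ≤ -(d k x).re ∧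
      qV M H (M.hw (ph M H)) V x - (Q * (1 - ((k + 1) / (s x + (k + 1))) ^ 2) +
        (R + 1) * ((k + 1) * s x / (s x + (k + 1)) ^ 2)) ≤ -(d k x).re := fun k x h => by
    have a := (lc k _ (Mf.ch_mem x) _ (Mf.ch_tgt x) (by rwa [Mf.ch_symm])).2
    have b := eD.ch x
    have c := hR x
    have pE := Real.exp_pos (ph M H (M.ch x) (M.ch x x))
    have sx : s x = Complex.normSq (F (M.ch x) (M.ch x x)) *
      Real.exp (-ph M H (M.ch x) (M.ch x x)) := rfl
    have q1 : nq (hess (fun w => (ph M H (M.ch x) w : ℂ)) (M.ch x x)) (V (M.ch x) (M.ch x x)) /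
        Real.exp (ph M H (M.ch x) (M.ch x x)) = qV M H (M.hw (ph M H)) V x := by rw [b]; rfl
    rw [← sx, q1] at a
    refine num (N1 k) (s0 x) (hQ x) (by positivity) ?_ (Eq.trans ?_ a)
    · have p : 0 < s x + (k + 1) := by linarith [s0 x, N1 k]
      simp only [Mf.ev, norm_mul, norm_star, Complex.norm_real, Real.norm_eq_abs, Pi.smul_apply,
        smul_eq_mul, Real.abs_exp] at c
      rw [norm_div, norm_mul, norm_mul, norm_pow, norm_star, Complex.norm_real, Complex.norm_real,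
        Real.norm_eq_abs, Real.norm_eq_abs, abs_of_nonneg (by positivity),
        abs_of_nonneg (by positivity), ← Complex.normSq_eq_norm_sq]
      generalize ph M H (M.ch x) (M.ch x x) = φ at *
      generalize ‖r (M.ch x) (M.ch x x)‖ = u at *
      have e1 : Real.exp (-(2 * φ)) = Real.exp (-φ) ^ 2 := by
        rw [← Real.exp_nat_mul]; congr 1; push_cast; ring
      have e2 : u * Real.exp (-φ) ≤ R + 1 := by
        rw [e1] at c
        nlinarith [sq_nonneg (u * Real.exp (-φ) - 1)]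
      have e3 : ((k : ℝ) + 1) * (u * Complex.normSq (F (M.ch x) (M.ch x x))) /
          (Real.exp φ * (s x + (k + 1))) ^ 2 =
          u * Real.exp (-φ) * ((k + 1) * s x / (s x + (k + 1)) ^ 2) := by
        generalize s x + (k + 1) = t at *
        rw [sx, Real.exp_neg]
        field_simp
      rw [e3]
      exact mul_le_mul_of_nonneg_right e2 (by have := s0 x; positivity)
    · rw [b, Mf.herm_det (hH.herm.ch x)]; rfl
  have dv0 := fun k : ℕ => divO M H hH ρ sρ h0 (W k)
    (fun _ => Q + (k + 1) + (R + 1) + (k + 1) * (|C| + 1)) (integrable_const _)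
    (fun e he z hz h => (lc k e he z hz h).1)
    (fun e he e' he' x hx hx' h => by
      have a := hV.cmp e he e' he' x hx hx'
      have b : F e' (e' x) = jd M e e' x * F e (e x) := law e he e' he' x hx hx' h
      have c := wt.cmp e he e' he' x hx hx'
      have j0 : 0 < Complex.normSq (jd M e e' x) :=
        Complex.normSq_pos.2 ((mTR n M).2.1 e he e' he' x hx hx').2.1
      have e1 : Complex.normSq (F e' (e' x)) * Real.exp (-ph M H e' (e' x)) =
          Complex.normSq (F e (e x)) * Real.exp (-ph M H e (e x)) := by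
        rw [b, c, map_mul, one_mul, neg_add, Real.exp_add, Real.exp_neg (Real.log _),
          Real.exp_log j0]
        field_simp
      beta_reduce at a
      simp only [hW, tg]
      rw [e1, Matrix.mulVec_smul, a, b, smul_smul, smul_smul, Complex.normSq_eq_conj_mul_self]
      congr 1
      simp only [zpow_one, star_mul', RCLike.star_def]
      ring)
    (fun x h => ⟨(nm k x h).1.trans (le_add_of_nonneg_right (by positivity)), by
      have b := eD.ch x
      have c := bd.ch x (by rwa [Mf.ch_symm])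
      have sx : s x = Complex.normSq (F (M.ch x) (M.ch x x)) *
        Real.exp (-ph M H (M.ch x) (M.ch x x)) := rfl
      have p : 0 < s x + (k + 1) := by linarith [s0 x, N1 k]
      have e0 : M.ev (fun e z => (∑ j, W k e z j * dz j (M.lc ρ e) z) / (H e z).det) x =
          ((k + 1 : ℝ) : ℂ) * (star (F (M.ch x) (M.ch x x)) * ((s x + (k + 1) : ℝ) : ℂ)⁻¹) *
            vd (V (M.ch x)) (M.lc ρ (M.ch x)) (M.ch x x) /
            ((H (M.ch x) (M.ch x x)).det.re : ℝ) := by
        rw [Mf.herm_det (hH.herm.ch x), Complex.ofReal_add (s x), vd, Finset.mul_sum]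
        simp only [Mf.ev, hW, tg, Pi.smul_apply, smul_eq_mul, mul_assoc, sx]
      rw [Mf.ch_symm, ← b] at c
      change _ ≤ _ * (_ + ‖F (M.ch x) (M.ch x x)‖ ^ 2) at c
      rw [e0, ← b, norm_div, norm_mul, norm_mul, norm_mul, norm_inv, norm_star, Complex.norm_real,
        Complex.norm_real, Complex.norm_real, Real.norm_eq_abs, Real.norm_eq_abs, Real.norm_eq_abs,
        abs_of_nonneg (by positivity), abs_of_pos p, Real.abs_exp]
      rw [Complex.normSq_eq_norm_sq, Real.exp_neg] at sx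
      have u0 := norm_nonneg (F (M.ch x) (M.ch x x))
      have y0 := norm_nonneg (vd (V (M.ch x)) (M.lc ρ (M.ch x)) (M.ch x x))
      have pE := Real.exp_pos (ph M H (M.ch x) (M.ch x x))
      generalize Real.exp (ph M H (M.ch x) (M.ch x x)) = D at *
      generalize ‖F (M.ch x) (M.ch x x)‖ = u at *
      generalize ‖vd (V (M.ch x)) (M.lc ρ (M.ch x)) (M.ch x x)‖ = y at *
      have e1 : u ^ 2 = s x * D := by rw [sx]; field_simp
      have r0 := h0 x
      have sx0 := s0 x
      have k1 := N1 k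
      have e2 : u * y ≤ (|C| + 1) * ρ x * ((s x + (k + 1)) * D) := by
        refine (pow_le_pow_iff_left₀ (by positivity) (by positivity) two_ne_zero).1 ?_
        have a1 : y ^ 2 ≤ (|C| + 1) ^ 2 * ρ x ^ 2 * (D + s x * D) := by
          rw [e1] at c
          refine c.trans (mul_le_mul_of_nonneg_right (mul_le_mul_of_nonneg_right ?_
            (by positivity)) (by positivity))
          nlinarith [le_abs_self C, abs_nonneg C]
        have a2 : s x * (1 + s x) ≤ (s x + (k + 1)) ^ 2 := by nlinarith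
        calc (u * y) ^ 2 = s x * D * y ^ 2 := by rw [mul_pow, e1]
          _ ≤ s x * D * ((|C| + 1) ^ 2 * ρ x ^ 2 * (D + s x * D)) :=
            mul_le_mul_of_nonneg_left a1 (by positivity)
          _ = ((|C| + 1) * ρ x * D) ^ 2 * (s x * (1 + s x)) := by ring
          _ ≤ ((|C| + 1) * ρ x * D) ^ 2 * (s x + (k + 1)) ^ 2 :=
            mul_le_mul_of_nonneg_left a2 (by positivity)
          _ = _ := by ring
      have e3 : ((k : ℝ) + 1) * (u * (s x + (k + 1))⁻¹) * y / D ≤ (k + 1) * (|C| + 1) * ρ x := by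
        rw [show ((k : ℝ) + 1) * (u * (s x + (k + 1))⁻¹) * y / D =
          (k + 1) * (u * y / ((s x + (k + 1)) * D)) by field_simp, mul_assoc]
        exact mul_le_mul_of_nonneg_left ((div_le_iff₀ (by positivity)).2 e2) (by positivity)
      have Q0 : 0 ≤ Q := (norm_nonneg _).trans (hQ x)
      have : 0 ≤ (Q + (k + 1) + (R + 1)) * ρ x := by positivity
      nlinarith⟩)
  refine fatou (M.mu H) (fun k x => -({x | ρ x ≠ 0}.indicator (d k) x).re) _
    (fun _ => Q + (R + 1)) (fun k => (dv0 k).1.re.neg)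
    ((mMU n M H hH).2.2.2.2.1 _ _ sq.continuous) (integrable_const _) (fun k x => ?_)
    (fun η hη => Eventually.of_forall fun k => ?_) ?_
  · by_cases h : ρ x = 0
    · have Q0 : 0 ≤ Q := (norm_nonneg _).trans (hQ x)
      rw [indicator_of_notMem (show x ∉ {x | ρ x ≠ 0} from fun h' => h' h), Complex.zero_re]
      linarith
    · rw [indicator_of_mem (show x ∈ {x | ρ x ≠ 0} from h)]
      exact (nm k x h).2.1
  · have := integral_re (dv0 k).1
    rw [(dv0 k).2] at this
    rw [integral_neg]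
    refine (congrArg Neg.neg this).le.trans ?_
    rw [map_zero, neg_zero]
    exact hη.le
  · refine (measure_eq_zero_iff_ae_notMem.1 nul).mono fun x h η hη =>
      ((lim0 (s x) Q (R + 1)).eventually (gt_mem_nhds hη)).mono fun k hk => ?_
    rw [indicator_of_mem (show x ∈ {x | ρ x ≠ 0} from h)]
    linarith [(nm k x h).2.2]

end Pool.Agent.Lib.NU4.D37
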