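import Pool.Agent.Lib.NU4.Blue
import Pool.Agent.Lib.NU4.T37
import Pool.Agent.Lib.NU4.Nm43b

/-! Project nu4: the test function. -/

open scoped Classical Topology ContDiff ComplexOrder Matrix
open Set Filter MeasureTheory

set_option linter.unusedVariables false

noncomputable section

namespace Pool.Agent.Lib.NU4

open Pool.Agent.Lib.SV (E)
open Pool.Agent.Lib.HS32 Pool.Agent.Lib.HLK Pool.Agent.Lib.F4

theorem st_T3 (hX : St_XS) (hB : St_VB) : St_T3 := by
  intro n M hM H V σ _ _ B s β q κ hH hV ok hl hs hh nz hq hA hE hQ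
  obtain ⟨C, hC⟩ := hB n M H V σ B s β κ hH.toMet hV.ht ok hs hh hA hE
  obtain ⟨rep, sm, p0, z0⟩ := Nm43.pn_rep ok hs
  have ne : M.All fun e z => B.pn s (e.symm z) ≠ 0 → s e z ≠ 0 := fun e he z hz h h' =>
    h ((z0 e he z hz).2 h')
  have e0 : -M.ric H = M.hw (ph M H) := funext fun e => funext fun z => neg_neg _
  rw [e0]
  refine D37.t3 M H hH.toMet V hV.ht hV.dv0 (B.pn s) sm p0 (Nm43.null hH.toMet ok hs hh nz) β
    (fun e z => qq (V e) (a0 M H V e) z - q e z) (2 * (|C| + ‖κ‖ ^ 2))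
    ⟨fun e he z hz => ((hX n M H V hH hV.ht).1 e he z hz).2.sub
      ((mHOL n _ z).2.2 (hq.hol e he z hz)).1,
      fun e he e' he' x hx hx' => (hq.cmp e he e' he' x hx hx').trans (mul_comm _ _)⟩
    (fun e he z hz h => hA.hol e he z hz (ne e he z hz h))
    (fun e he e' he' x hx hx' h => hA.cmp e he e' he' x hx hx'
      (ne.at he hx (by rwa [e.left_inv hx])))
    (fun e he z hz h => ?_) fun e he z hz h => ?_
  · have := hQ e he z hz (ne e he z hz h)
    change qq (V e) (β e) z = qq (V e) (a0 M H V e) z - _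
    rw [this, sub_sub_cancel]
  · have a := hC e he z hz (ne e he z hz h)
    have d0 := Mf.pd_det_re (hH.pos e he z hz)
    change ‖dir (V e) (M.lc (B.pn s) e) z‖ ^ 2 ≤ _ * (_ + ‖β e z - a0 M H V e z‖ ^ 2)
    generalize dir (V e) (M.lc (B.pn s) e) z = y at *
    generalize β e z - a0 M H V e z = F at *
    generalize B.pn s (e.symm z) = t at *
    generalize (H e z).det.re = D at *
    have b := norm_add_le (y - κ * F * (t : ℝ)) (κ * F * (t : ℝ))
    have c : ‖κ * F * (t : ℝ)‖ ^ 2 = ‖κ‖ ^ 2 * ‖F‖ ^ 2 * t ^ 2 := by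
      rw [norm_mul, norm_mul, Complex.norm_real, Real.norm_eq_abs, mul_pow, mul_pow, sq_abs]
    rw [sub_add_cancel] at b
    have e1 : ‖y‖ ^ 2 ≤ 2 * ‖y - κ * F * (t : ℝ)‖ ^ 2 + 2 * ‖κ * F * (t : ℝ)‖ ^ 2 := by
      nlinarith [pow_le_pow_left₀ (norm_nonneg _) b 2,
        sq_nonneg (‖y - κ * F * (t : ℝ)‖ - ‖κ * F * (t : ℝ)‖)]
    have e2 : C * D * t ^ 2 ≤ |C| * D * t ^ 2 :=
      mul_le_mul_of_nonneg_right (mul_le_mul_of_nonneg_right (le_abs_self C) d0.le) (sq_nonneg _)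
    have e3 : 0 ≤ |C| * ‖F‖ ^ 2 * t ^ 2 := by positivity
    have e4 : 0 ≤ ‖κ‖ ^ 2 * D * t ^ 2 := by positivity
    nlinarith

end Pool.Agent.Lib.NU4
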