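import Pool.Agent.Lib.NU4.Blue

/-! Project nu4: the derivative of the norm of a section along the field. -/

open scoped Classical Topology ContDiff ComplexOrder Matrix Kronecker
open Set Filter MeasureTheory Metric

set_option linter.unusedVariables false
set_option linter.unusedSectionVars false

noncomputable section

namespace Pool.Agent.Lib.NU4

open Pool.Agent.Lib.SV (E)
open Pool.Agent.Lib.HS32 Pool.Agent.Lib.HLK Pool.Agent.Lib.F4

namespace Vb85

variable {n : ℕ} {σ : Type} [Fintype σ] [DecidableEq σ]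

theorem q_rs (A : Mx σ) (r : ℝ) (s : σ → ℂ) :
    star (r • s) ⬝ᵥ A *ᵥ (r • s) = ((r ^ 2 : ℝ) : ℂ) * (star s ⬝ᵥ A *ᵥ s) := by
  simp only [star_smul, star_trivial, Matrix.mulVec_smul, smul_dotProduct, dotProduct_smul,
    Complex.real_smul, Complex.ofReal_pow]
  ring

theorem q_cont {K : Set (E n)} {A : E n → Mx σ}
    (hA : ∀ z ∈ K, ∀ i j, ContinuousAt (fun w => A w i j) z) (p : E n × (σ → ℂ)) (hp : p.1 ∈ K) :
    ContinuousAt (fun q : E n × (σ → ℂ) => star q.2 ⬝ᵥ A q.1 *ᵥ q.2) p := by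
  have c := continuousAt_pi.1 (continuousAt_snd (p := p))
  simp only [dotProduct, Matrix.mulVec, Pi.star_apply]
  exact tendsto_finsetSum _ fun i _ => (c i).star.mul (tendsto_finsetSum _ fun j _ =>
    (ContinuousAt.comp (f := Prod.fst) (hA _ hp i j) continuousAt_fst).mul (c j))

/-- A quadratic form is bounded by a positive one on a compact set. -/
theorem q_bd {K : Set (E n)} (hK : IsCompact K) {N G : E n → Mx σ}
    (hN : ∀ z ∈ K, ∀ i j, ContinuousAt (fun w => N w i j) z)
    (hG : ∀ z ∈ K, ∀ i j, ContinuousAt (fun w => G w i j) z) (pos : ∀ z ∈ K, (G z).PosDef) :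
    ∃ c : ℝ, ∀ z ∈ K, ∀ s, s ≠ 0 → ‖star s ⬝ᵥ N z *ᵥ s‖ ≤ c * (star s ⬝ᵥ G z *ᵥ s).re := by
  have nz : ∀ {v : σ → ℂ}, v ∈ sphere (0 : σ → ℂ) 1 → v ≠ 0 := fun h e => by simp [e] at h
  obtain ⟨c, hc⟩ := (hK.prod (isCompact_sphere (0 : σ → ℂ) 1)).exists_bound_of_continuousOn
    (f := fun q : E n × (σ → ℂ) => ‖star q.2 ⬝ᵥ N q.1 *ᵥ q.2‖ / (star q.2 ⬝ᵥ G q.1 *ᵥ q.2).re)
    fun p hp => ((q_cont hN p hp.1).norm.div (Complex.continuous_re.continuousAt.comp
      (q_cont hG p hp.1)) ((pos _ hp.1).re_dotProduct_pos (nz hp.2)).ne').continuousWithinAt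
  refine ⟨c, fun z hz s h => ?_⟩
  have s1 : ‖s‖⁻¹ • s ∈ sphere (0 : σ → ℂ) 1 := by simp [norm_smul, h]
  have s2 : s = ‖s‖ • ‖s‖⁻¹ • s := by simp [smul_smul, h]
  have p : 0 < (star (‖s‖⁻¹ • s) ⬝ᵥ G z *ᵥ (‖s‖⁻¹ • s)).re := (pos z hz).re_dotProduct_pos (nz s1)
  have k := (le_abs_self _).trans (hc (z, _) ⟨hz, s1⟩)
  rw [div_le_iff₀ p] at k
  rw [s2, q_rs (N z), q_rs (G z), norm_mul, Complex.norm_real, Complex.re_ofReal_mul, Real.norm_eq_abs,
    abs_of_nonneg (sq_nonneg _), mul_left_comm]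
  exact mul_le_mul_of_nonneg_left k (sq_nonneg _)

/-- The derivative of the norm. -/
theorem dir_q {V : E n → E n} {G : E n → Mx σ} {s : E n → σ → ℂ} {z : E n} (hG : SmX G z)
    (hs : ∀ i, HolN (fun w => s w i) z) :
    dir V (fun w => star (s w) ⬝ᵥ G w *ᵥ s w) z =
      star (s z) ⬝ᵥ (Matrix.of fun i j => dir V (fun w => G w i j) z) *ᵥ s z +
        star (s z) ⬝ᵥ G z *ᵥ dirv V s z := by
  have c := fun i => ((mHOL n _ z).2.2 (hs i)).1
  have d := fun i => cd_diff (c i)
  have e : ∀ k, dz k (fun w => star (s w) ⬝ᵥ G w *ᵥ s w) z = ∑ i, star (s z i) *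
      ∑ j, (dz k (fun w => G w i j) z * s z j + G z i j * dz k (fun w => s w j) z) := fun k => by
    have m := fun i => ContDiffAt.sum (s := Finset.univ) fun j _ => (hG i j).mul (c j)
    simp only [dotProduct, Matrix.mulVec, Pi.star_apply]
    rw [dz_sum fun i _ => (diff_star (d i)).fun_mul (cd_diff (m i))]
    refine Finset.sum_congr rfl fun i _ => ?_
    rw [dz_mul (diff_star (d i)) (cd_diff (m i)), dz_star (d i),
      ((mHOL n _ z).1 (d i)).1 (hs i).self_of_nhds, star_zero, zero_mul, zero_add,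
      dz_sum fun j _ => (cd_diff (hG i j)).fun_mul (d j)]
    exact congrArg _ (Finset.sum_congr rfl fun j _ => dz_mul (cd_diff (hG i j)) (d j))
  simp only [dir, e]
  simp only [dotProduct, Matrix.mulVec, Pi.star_apply, Matrix.of_apply, dirv, dir, Finset.mul_sum,
    Finset.sum_mul, ← Finset.sum_add_distrib]
  rw [Finset.sum_comm]
  refine Finset.sum_congr rfl fun i _ => ?_
  rw [Finset.sum_comm]
  exact Finset.sum_congr rfl fun j _ => Finset.sum_congr rfl fun k _ => by ring

theorem dir_cont {V : E n → E n} {f : E n → ℂ} {z : E n} (hV : ∀ i, HolN (fun w => V w i) z)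
    (hf : ContDiffAt ℝ ∞ f z) : ContinuousAt (dir V f) z :=
  tendsto_finsetSum _ fun k _ =>
    ((mHOL n _ z).2.2 (hV k)).1.continuousAt.mul (cd_dz hf k).continuousAt

variable {M : Mf n}

/-- The law of the derivative of a function along a field of level one. -/
theorem dir_cmp {V : M.Fam (E n)} (hV : HT M 1 V) {f : M.X → ℝ} (hf : M.Sm f) :
    M.Ov fun e e' x => dir (V e') (M.lc f e') (e' x) = jd M e e' x * dir (V e) (M.lc f e) (e x) :=
  fun e he e' he' x hx hx' => by
    obtain ⟨h1, -, -, h4, -⟩ := (mTR n M).2.1 e he e' he' x hx hx'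
    have p : (e ∘ e'.symm) (e' x) = e x := congrArg e (e'.left_inv hx')
    have c := (mCHN n _ _ h1).2.2.2.2.2.2.2.2.2.1 (M.lc f e)
      (by rw [p]; exact cd_diff (cd_ofReal (hf.at he hx)))
    have a := hV.cmp e he e' he' x hx hx'
    have q : M.lc f e' =ᶠ[𝓝 (e' x)] M.lc f e ∘ (e ∘ e'.symm) := h4.mono fun w hw => by
      simp only [Mf.lc, Function.comp_apply, hw.2.2.2.2.1]
    beta_reduce at a ⊢
    rw [zpow_one] at a
    simp only [dir, dz_congr q, fun j => (c j).1, p, Finset.mul_sum]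
    rw [Finset.sum_comm]
    refine Finset.sum_congr rfl fun i _ => ?_
    have b := congrFun a i
    simp only [Matrix.mulVec, dotProduct, Mf.J, Pi.smul_apply, smul_eq_mul] at b
    rw [← mul_assoc, ← b, Finset.sum_mul]
    exact Finset.sum_congr rfl fun j _ => by ring

theorem det_cmp {H : M.Fam (Mat n)} (hH : M.Met H) : M.Ov fun e e' x =>
    (H e' (e' x)).det.re = ‖jd M e e' x‖ ^ 2 * (H e (e x)).det.re :=
  fun e he e' he' x hx hx' => by
    beta_reduce
    rw [hH.cmp e he e' he' x hx hx', Matrix.det_mul, Matrix.det_mul, Matrix.det_conjTranspose,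
      mul_right_comm, ← Complex.normSq_eq_norm_sq, ← Complex.re_ofReal_mul,
      Complex.normSq_eq_conj_mul_self]
    rfl

end Vb85

open Vb85 in
/-- The row `VB`. -/
theorem st_VB : St_VB := by
  intro n M _ H V σ _ _ B s β κ hH hV hB hs hol af ⟨A, hA⟩
  have r : M.All fun e z => B.pn s (e.symm z) = (star (s e z) ⬝ᵥ B.G e z *ᵥ s e z).re :=
    fun e he z hz => congrArg Complex.re ((hB.pp_rep hs hs).1 e he z hz)
  have sm : M.Sm (B.pn s) := (hB.pp_rep hs hs).2.re
  have rc : M.All fun e z => M.lc (B.pn s) e z = star (s e z) ⬝ᵥ B.G e z *ᵥ s e z :=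
    fun e he z hz => by
      have := (hB.pos e he z hz).posSemidef.dotProduct_mulVec_nonneg (s e z)
      simp only [Mf.lc, r e he z hz]
      exact Complex.ext rfl ((Complex.nonneg_iff.1 this).2)
  set N : M.Fam (Mx σ) := fun e z => (Matrix.of fun i j => dir (V e) (fun w => B.G e w i j) z) -
    B.G e z * A e z + a0 M H V e z • κ • B.G e z with hN
  have id : M.All fun e z => s e z ≠ 0 → dir (V e) (M.lc (B.pn s) e) z -
      κ * (β e z - a0 M H V e z) * (B.pn s (e.symm z) : ℝ) = star (s e z) ⬝ᵥ N e z *ᵥ s e z :=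
    fun e he z hz h => by
      have e1 : dir (V e) (M.lc (B.pn s) e) z =
          dir (V e) (fun w => star (s e w) ⬝ᵥ B.G e w *ᵥ s e w) z := by
        simp only [dir, dz_congr (rc.ev he hz)]
      have e2 : ((B.pn s (e.symm z) : ℝ) : ℂ) = _ := rc e he z hz
      rw [e1, e2, dir_q (hB.gsm e he z hz) (hol e he z hz),
        eq_sub_of_add_eq ((hA e he z hz).2 h)]
      simp only [hN, Matrix.add_mulVec, Matrix.sub_mulVec, Matrix.mulVec_sub, Matrix.smul_mulVec,
        Matrix.mulVec_smul, dotProduct_add, dotProduct_sub, dotProduct_smul, smul_eq_mul,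
        ← Matrix.mulVec_mulVec]
      ring
  have cN : M.All fun e z => ∀ i j, ContinuousAt (fun w => N e w i j) z := fun e he z hz i j => by
    have g := hB.gsm e he z hz
    have l := ((mCOF n (H e) z (hH.sm e he z hz)).2.2.2.2.2 (hH.pos.ev he hz)).1
    simp only [hN, Matrix.add_apply, Matrix.sub_apply, Matrix.of_apply, Matrix.mul_apply,
      Matrix.smul_apply, smul_eq_mul]
    exact ((dir_cont (hV.hol e he z hz) (g i j)).sub (tendsto_finsetSum _ fun k _ =>
      (g i k).continuousAt.mul ((hA e he z hz).1 k j))).add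
      ((dir_cont (hV.hol e he z hz) l).mul (continuousAt_const.mul (g i j).continuousAt))
  obtain ⟨U, -⟩ := (mCOV n M).2.2.1
  have sb : ∀ a, ∀ z ∈ closedBall (U.c a) (U.ρ a), z ∈ (U.e a).target := fun a z hz =>
    U.sub a (closedBall_subset_closedBall (by linarith [U.pos a]) hz)
  choose c hc using fun a => q_bd (N := N (U.e a)) (G := B.G (U.e a))
    (isCompact_closedBall (U.c a) (U.ρ a)) (fun z hz => cN _ (U.mem a) z (sb a z hz))
    (fun z hz i j => (hB.gsm _ (U.mem a) z (sb a z hz) i j).continuousAt)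
    fun z hz => hB.pos _ (U.mem a) z (sb a z hz)
  choose d hd using fun a => (isCompact_closedBall (U.c a) (U.ρ a)).exists_bound_of_continuousOn
    (f := fun z => ((H (U.e a) z).det.re)⁻¹) fun z hz =>
      ((cd_re (hH.sm _ (U.mem a) z (sb a z hz)).det).continuousAt.inv₀
        (Mf.pd_det_re (hH.pos _ (U.mem a) z (sb a z hz))).ne').continuousWithinAt
  refine ⟨∑ a, c a ^ 2 * |d a|, Mf.allOn_of_source fun e' he' x hx' h' => ?_⟩
  obtain ⟨a, hx, za, -⟩ := U.cov x
  have he := U.mem a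
  have zb := ball_subset_closedBall za
  have r1 := r.at he hx
  have r2 := r.at he' hx'
  have h : s (U.e a) (U.e a x) ≠ 0 := fun h => by
    have p : 0 < (star (s e' (e' x)) ⬝ᵥ B.G e' (e' x) *ᵥ s e' (e' x)).re :=
      (hB.pos.at he' hx').re_dotProduct_pos h'
    rw [(U.e a).left_inv hx, h, Matrix.mulVec_zero, dotProduct_zero] at r1
    rw [← r2, e'.left_inv hx', r1] at p
    exact lt_irrefl _ p
  have i1 := id.at he hx h
  have k1 := hc a _ zb _ h
  have D := Mf.pd_det_re (hH.pos.at he hx)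
  have k2 : 1 ≤ |d a| * (H (U.e a) (U.e a x)).det.re := by
    have := ((le_abs_self _).trans (hd a _ zb)).trans (le_abs_self _)
    rwa [inv_le_iff_one_le_mul₀ D] at this
  have c1 := dir_cmp hV sm _ he e' he' x hx hx'
  have c2 := af.cmp _ he e' he' x hx hx' h
  have c3 := det_cmp hH _ he e' he' x hx hx'
  beta_reduce at r1 i1 c1 c3
  rw [(U.e a).left_inv hx] at r1 i1
  rw [← i1, ← r1] at k1
  rw [c1, c2, c3, e'.left_inv hx', mul_left_comm κ, mul_assoc (jd _ _ _ _), ← mul_sub, norm_mul,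
    mul_pow]
  have k3 := pow_le_pow_left₀ (norm_nonneg _) k1 2
  have k4 : c a ^ 2 * |d a| ≤ ∑ a, c a ^ 2 * |d a| :=
    Finset.single_le_sum (f := fun a => c a ^ 2 * |d a|) (fun a _ => by positivity)
      (Finset.mem_univ a)
  have k5 := mul_le_mul_of_nonneg_left k2 (sq_nonneg (c a * B.pn s x))
  have k6 := mul_le_mul_of_nonneg_right k4 (mul_nonneg D.le (sq_nonneg (B.pn s x)))
  have k7 := mul_le_mul_of_nonneg_left
    (show _ ≤ (∑ a, c a ^ 2 * |d a|) * ((H (U.e a) (U.e a x)).det.re * B.pn s x ^ 2) from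
      k3.trans (by nlinarith)) (sq_nonneg ‖jd M (U.e a) e' x‖)
  exact k7.trans_eq (by ring)

end Pool.Agent.Lib.NU4
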