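import Pool.Agent.Lib.NU4.Blue
import Pool.Agent.Lib.HLK.All0
import Pool.Agent.Lib.K3E.B_KAN

/-! Project nu4: two fields without divergence give an invariant multivector. -/

open scoped Classical Topology ContDiff ComplexOrder Matrix Kronecker
open Set Filter MeasureTheory

set_option linter.unusedVariables false

noncomputable section

namespace Pool.Agent.Lib.NU4

open Pool.Agent.Lib.SV (E)
open Pool.Agent.Lib.HS32 Pool.Agent.Lib.HLK Pool.Agent.Lib.F4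
open Pool.Agent.Lib.K3E (kan wk lk)

namespace W23

variable {n : ℕ}

theorem ac (hFK : St_FK) (a b : E n) (U : Fs n → ℂ) :
    crv a *ᵥ crv b *ᵥ U = -(crv b *ᵥ crv a *ᵥ U) := by
  rw [Matrix.mulVec_mulVec, (hFK n a b 0 0 0 0).1, Matrix.neg_mulVec, Matrix.mulVec_mulVec]

theorem aa (hFK : St_FK) (a : E n) (U : Fs n → ℂ) : crv a *ᵥ crv a *ᵥ U = 0 := by
  rw [Matrix.mulVec_mulVec, (hFK n a a 0 0 0 0).2.1, Matrix.zero_mulVec]

theorem aba (hFK : St_FK) (a b : E n) (U : Fs n → ℂ) : crv a *ᵥ crv b *ᵥ crv a *ᵥ U = 0 := by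
  rw [ac hFK a b, aa hFK, Matrix.mulVec_zero, neg_zero]

theorem ca (hFK : St_FK) (c v : E n) {U : Fs n → ℂ} (h : crv v *ᵥ U = 0) :
    crv v *ᵥ anv c *ᵥ U = (c ⬝ᵥ v) • U := by
  have h1 := congrArg (· *ᵥ U) (hFK n v v c 0 0 0).2.2.1
  simp only [Matrix.add_mulVec, ← Matrix.mulVec_mulVec, h, Matrix.mulVec_zero, zero_add,
    Matrix.smul_mulVec, Matrix.one_mulVec] at h1
  exact h1

theorem cr0 : crv (0 : E n) = 0 := by simp [crv]

theorem dgc (hFK : St_FK) {q : ℕ} (v : E n) {U : Fs n → ℂ} (h : Dg q U) :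
    Dg (q + 1) (crv v *ᵥ U) :=
  ((hFK n v v v 0 0 U).2.2.2.2.2.2.2.2.2.2.2.2.2.2.2.2.2.2.2.2 q h).1

theorem dga (hFK : St_FK) {q : ℕ} (v : E n) {U : Fs n → ℂ} (h : Dg q U) :
    Dg (q - 1) (anv v *ᵥ U) :=
  ((hFK n v v v 0 0 U).2.2.2.2.2.2.2.2.2.2.2.2.2.2.2.2.2.2.2.2 q h).2.2.1

theorem dg0 (hFK : St_FK) : Dg 0 (vac n) := (hFK n 0 0 0 0 0 0).2.2.2.2.2.2.2.2.2.2.2.2.2.1

theorem dg1 (hFK : St_FK) {U : Fs n → ℂ} (h : Dg 1 U) : U = crv (fun k => U {k}) *ᵥ vac n :=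
  (hFK n 0 0 0 0 0 U).2.2.2.2.2.2.2.2.2.2.2.2.2.2.2.2.2.1 h

theorem lac (hFK : St_FK) (g : Mat n) (v : E n) (U : Fs n → ℂ) :
    La g *ᵥ crv v *ᵥ U = crv (g *ᵥ v) *ᵥ La g *ᵥ U := by
  rw [Matrix.mulVec_mulVec, (hFK n v v v g 0 0).2.2.2.1, Matrix.mulVec_mulVec]

theorem dz_cg {f g : E n → ℂ} {z : E n} (h : f =ᶠ[𝓝 z] g) (k : Fin n) : dz k f z = dz k g z := by
  simp only [dz, h.fderiv_eq]

theorem pf_cg {U U' : E n → Fs n → ℂ} {z : E n} (h : U =ᶠ[𝓝 z] U') : pf0 U z = pf0 U' z :=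
  Finset.sum_congr rfl fun k _ => congrArg _ (funext fun A =>
    dz_cg (h.mono fun w hw => congrFun hw A) k)

theorem hol_cg {U U' : E n → Fs n → ℂ} {z : E n} (h : U =ᶠ[𝓝 z] U') (h' : HolV U' z) :
    HolV U z := fun A => by
  filter_upwards [h' A, h.eventuallyEq_nhds] with w h1 h2
  exact h1.congr_of_eventuallyEq (h2.mono fun y hy => congrFun hy A)

theorem dgp (hFK : St_FK) {q : ℕ} {U : E n → Fs n → ℂ} (h : ∀ w, Dg q (U w)) (z : E n) :
    Dg (q - 1) (pf0 U z) := fun A hA => by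
  rw [pf0, Finset.sum_apply]
  refine Finset.sum_eq_zero fun k _ => ?_
  have a : an k = anv (Pi.single k 1 : E n) := by simp [anv, Pi.single_apply]
  rw [a]
  refine dga hFK _ (fun B hB => ?_) A hA
  simp [dzv, dz, fun w => h w B hB]

theorem hol0 (z : E n) : HolN (fun _ : E n => (0 : ℂ)) z :=
  Eventually.of_forall fun _ => differentiableAt_const _

theorem holv (z : E n) : HolV (fun _ : E n => vac n) z := fun _ =>
  Eventually.of_forall fun _ => differentiableAt_const _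

section loc

variable (hFK : St_FK) (hLIE : St_LIE) {v w y : E n → E n} {U : E n → Fs n → ℂ} {z : E n}
include hLIE

theorem holc (hv : HolV v z) (hU : HolV U z) : HolV (fun x => crv (v x) *ᵥ U x) z :=
  (hLIE n v v U _ z hv hv hU (hol0 z)).2.2.2.2.2.2.1

theorem holb (hv : HolV v z) (hw : HolV w z) : HolV (br v w) z :=
  (hLIE n v w _ _ z hv hw (holv z) (hol0 z)).2.2.1

theorem ldc (hv : HolV v z) (hy : HolV y z) (hU : HolV U z) :
    lder v (fun x => crv (y x) *ᵥ U x) z = crv (br v y z) *ᵥ U z + crv (y z) *ᵥ lder v U z :=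
  (hLIE n v y U _ z hv hy hU (hol0 z)).2.2.2.2.2.2.2.2.1

theorem ld1 (hv : HolV v z) (hw : HolV w z) :
    lder v (fun x => crv (v x) *ᵥ crv (w x) *ᵥ vac n) z = crv (v z) *ᵥ crv (br v w z) *ᵥ vac n := by
  rw [ldc hLIE hv hv (holc hLIE hw (holv z)), ldc hLIE hv hw (holv z),
    (hLIE n v v _ _ z hv hv (holv z) (hol0 z)).2.2.2.2.2.2.2.2.2.1, br, sub_self, cr0,
    Matrix.zero_mulVec, zero_add, Matrix.mulVec_zero, add_zero]

theorem lil (hv : HolV v z) (hU : HolV U z) (h0 : dv v z = 0) (h : ∀ x, crv (v x) *ᵥ U x = 0) :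
    lie v U z = lder v U z := by
  rw [(hLIE n v v U _ z hv hv hU (hol0 z)).2.2.2.2.2.2.2.1 (Eventually.of_forall h), h0,
    zero_smul, add_zero]

include hFK

theorem li1 (hv : HolV v z) (hw : HolV w z) (h0 : dv v z = 0) :
    lie v (fun x => crv (v x) *ᵥ crv (w x) *ᵥ vac n) z = crv (v z) *ᵥ crv (br v w z) *ᵥ vac n := by
  rw [lil hLIE hv (holc hLIE hv (holc hLIE hw (holv z))) h0 fun x => aa hFK _ _, ld1 hLIE hv hw]

theorem li2 (hv : HolV v z) (hw : HolV w z) (h0 : dv v z = 0) :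
    lie v (fun x => crv (w x) *ᵥ crv (v x) *ᵥ crv (br v w x) *ᵥ vac n) z =
      crv (w z) *ᵥ crv (v z) *ᵥ crv (br v (br v w) z) *ᵥ vac n := by
  have hY := holb hLIE hv hw
  have h1 := holc hLIE hv (holc hLIE hY (holv z))
  rw [lil hLIE hv (holc hLIE hw h1) h0 fun x => aba hFK _ _ _, ldc hLIE hv hw h1, ld1 hLIE hv hY,
    aba hFK, zero_add]

end loc

variable {M : Mf n} {H : M.Fam (Mat n)}

/-- The law of transformation at the level `m`. -/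
def Cm (m : ℕ) (W : M.Fam (Fs n → ℂ)) : Prop :=
  M.Ov fun e e' x => W e (e x) = (jd M e e' x ^ m)⁻¹ • La (M.J e e' x) *ᵥ W e' (e' x)

theorem p0 (m : ℕ) (W : M.Fam (Fs n → ℂ)) (e : M.Ch) (z : E n) :
    ∃ c, P0 M H m W e z = pf0 (W e) z - anv c *ᵥ W e z :=
  ⟨fun k => dz k (fun w => (KP.T60.phC M H (wk H m) e w : ℂ)) z, by
    simp only [P0, Op.ap, oP, pf0, anv, Matrix.zero_mulVec, add_zero, Matrix.neg_mulVec,
      sub_eq_add_neg]⟩

theorem cmP (hKIT : St_KIT) (hH : M.Met H) {m : ℕ} {W : M.Fam (Fs n → ℂ)} (hW : HM M m W) :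
    Cm m (P0 M H m W) := fun e he e' he' x hx hx' => by
  have h := (aSP n M H _ _ W hH (K3E.bKAN n M H m hH).1
    (((hKIT n M H m W hH).1.1 hW).1)).cmp e he e' he' x hx hx'
  refine h.trans ?_
  show ((jd M e e' x ^ m * 1)⁻¹ • La (M.J e e' x)) *ᵥ _ = _
  rw [mul_one, Matrix.smul_mulVec]

theorem cmW (hFK : St_FK) {a m : ℕ} {U W : M.Fam (Fs n → ℂ)} (hU : Cm a U) (hd : DgM M 1 U)
    (hW : Cm m W) : Cm (a + m) (wd M (fun e z k => U e z {k}) W) :=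
    fun e he e' he' x hx hx' => by
  have h1 : (fun k => U e (e x) {k}) =
      (jd M e e' x ^ a)⁻¹ • M.J e e' x *ᵥ fun k => U e' (e' x) {k} := by
    funext k
    rw [hU e he e' he' x hx hx', dg1 hFK (hd e' he' _ (e'.map_source hx')), lac hFK,
      (hFK n 0 0 0 _ 0 0).2.2.2.2.2.2.2.2.2.2.2.2.1, Pi.smul_apply,
      (hFK n _ 0 0 0 0 0).2.2.2.2.2.2.2.2.2.2.2.2.2.2.1 k,
      ← dg1 hFK (hd e' he' _ (e'.map_source hx'))]
    rfl
  simp only [wd]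
  rw [h1, hW e he e' he' x hx hx', lac hFK, (hFK n _ 0 0 0 _ 0).2.2.2.2.2.2.2.1,
    Matrix.smul_mulVec, Matrix.mulVec_smul, smul_smul, pow_add, mul_inv]

theorem cmV (hFK : St_FK) (hKIT : St_KIT) (hH : M.Met H) {m : ℕ} {V : M.Fam (E n)}
    {W : M.Fam (Fs n → ℂ)} (hV : HT M 1 V) (hW : Cm m W) : Cm (1 + m) (wd M V W) := by
  obtain ⟨h1, h2, -⟩ := (hKIT n M H 1 W hH).2.1 V (by exact_mod_cast hV)
  have h := cmW hFK h1.cmp h2 hW
  have e : (fun e z k => vec M V e z {k}) = V := by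
    funext e z k
    exact (hFK n _ 0 0 0 0 0).2.2.2.2.2.2.2.2.2.2.2.2.2.2.1 k
  rwa [e] at h

theorem cm_cg {m : ℕ} {U W : M.Fam (Fs n → ℂ)} (h : M.All fun e z => U e z = W e z)
    (hW : Cm m W) : Cm m U := fun e he e' he' x hx hx' => by
  show U e (e x) = _ • _ *ᵥ U e' (e' x)
  rw [h e he _ (e.map_source hx), h e' he' _ (e'.map_source hx'), hW e he e' he' x hx hx']

theorem top (hFK : St_FK) (a w v y x : E n) (α : ℂ) (h : crv v *ᵥ crv a *ᵥ vac n =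
    crv v *ᵥ crv y *ᵥ vac n - α • crv v *ᵥ crv w *ᵥ vac n) :
    crv a *ᵥ crv w *ᵥ crv v *ᵥ crv x *ᵥ vac n = crv y *ᵥ crv x *ᵥ crv w *ᵥ crv v *ᵥ vac n := by
  have k : ∀ b, crv b *ᵥ crv w *ᵥ crv v *ᵥ crv x *ᵥ vac n =
      crv w *ᵥ crv x *ᵥ crv v *ᵥ crv b *ᵥ vac n := fun b => by
    rw [ac hFK b w, ac hFK b v, ac hFK b x, Matrix.mulVec_neg (A := crv v), ac hFK v x]
    simp only [Matrix.mulVec_neg, neg_neg]
  rw [k, h, Matrix.mulVec_sub, Matrix.mulVec_sub, ← k, Matrix.mulVec_smul, Matrix.mulVec_smul,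
    ac hFK v w, Matrix.mulVec_neg, Matrix.mulVec_neg, aba hFK, neg_zero, smul_zero, sub_zero,
    ac hFK v x, Matrix.mulVec_neg, ac hFK w x, neg_neg]

end W23

open W23 in
theorem st_WR (hFK : St_FK) (hALG : St_ALG) (hLIE : St_LIE) (hKIT : St_KIT) : St_WR := by
  intro M _ H V W hH hN hV hW hz
  have v := hV.ht.hol
  have w := hW.ht.hol
  have g1 : HM M (1 + 1) (wd M V (vec M W)) := ((hKIT 4 M H 1 _ hH).2.2.1 1 V
    (by exact_mod_cast hV.ht)).1 ((hKIT 4 M H 1 0 hH).2.1 W (by exact_mod_cast hW.ht)).1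
  have l1 : M.All fun e z => lie (V e) (wd M V (vec M W) e) z =
      crv (V e z) *ᵥ crv (br (V e) (W e) z) *ᵥ vac 4 := fun e he z hz =>
    li1 hFK hLIE (v e he z hz) (w e he z hz) (hV.dv0 e he z hz)
  have p1 : M.All fun e z => ∃ α : ℂ, crv (V e z) *ᵥ P0 M H 2 (wd M V (vec M W)) e z =
      crv (V e z) *ᵥ crv (br (V e) (W e) z) *ᵥ vac 4 -
        α • crv (V e z) *ᵥ crv (W e z) *ᵥ vac 4 := fun e he z hz => by
    obtain ⟨c, hc⟩ := p0 (H := H) 2 (wd M V (vec M W)) e z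
    have h : crv (V e z) *ᵥ wd M V (vec M W) e z = 0 := aa hFK _ _
    exact ⟨c ⬝ᵥ V e z, by rw [hc, Matrix.mulVec_sub, ca hFK c _ h, ← l1 e he z hz]; rfl⟩
  set g : M.Fam (Fs 4 → ℂ) := fun e z =>
    crv (W e z) *ᵥ crv (V e z) *ᵥ crv (br (V e) (W e) z) *ᵥ vac 4 with hg
  by_cases h2 : Nz g
  swap
  · refine ⟨2, _, le_rfl, g1, hz, fun e he z hz => aa hFK _ _, fun e he z hz I J => ?_⟩
    rw [l1 e he z hz, mul_comm, mul_comm (_ : ℂ) (wd M V (vec M W) e z I)]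
    refine ((hALG.1 4 _ _ 0 _).1 (dgc hFK _ (dgc hFK _ (dg0 hFK))) (aa hFK _ _) ?_ J I)
    by_contra h
    exact h2 ⟨e, he, z, hz, h⟩
  have y : ∀ e ∈ M.C, ∀ z ∈ e.target, HolV (br (V e) (W e)) z := fun e he z hz =>
    holb hLIE (v e he z hz) (w e he z hz)
  have g2 : HM M (1 + (1 + 2)) g := by
    refine ⟨fun e he z hz => holc hLIE (w e he z hz) (holc hLIE (v e he z hz)
      (holc hLIE (y e he z hz) (holv z))), cm_cg (fun e he z hz => ?_)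
      (cmV hFK hKIT hH hW.ht (cmV hFK hKIT hH hV.ht (cmP hKIT hH g1)))⟩
    obtain ⟨α, h⟩ := p1 e he z hz
    simp only [wd] at h ⊢
    rw [h, Matrix.mulVec_sub, Matrix.mulVec_smul, aba hFK, smul_zero, sub_zero]
  have l2 : M.All fun e z => lie (V e) (g e) z = crv (W e z) *ᵥ crv (V e z) *ᵥ
      crv (br (V e) (br (V e) (W e)) z) *ᵥ vac 4 := fun e he z hz =>
    li2 hFK hLIE (v e he z hz) (w e he z hz) (hV.dv0 e he z hz)
  have d1 : DgM M 1 (P0 M H 2 (wd M V (vec M W))) := fun e he z hz A hA => by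
    obtain ⟨c, hc⟩ := p0 (H := H) 2 (wd M V (vec M W)) e z
    have d : ∀ x, Dg 2 (wd M V (vec M W) e x) := fun x => dgc hFK _ (dgc hFK _ (dg0 hFK))
    rw [hc, Pi.sub_apply, dgp hFK d z A hA, dga hFK c (d z) A hA, sub_zero]
  set t : M.Fam (Fs 4 → ℂ) := fun e z => crv (br (V e) (W e) z) *ᵥ
    crv (br (V e) (br (V e) (W e)) z) *ᵥ crv (W e z) *ᵥ crv (V e z) *ᵥ vac 4 with ht
  have t7 : HM M (2 + (1 + 4)) t := by
    refine ⟨fun e he z hz => holc hLIE (y e he z hz) (holc hLIE (holb hLIE (v e he z hz)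
      (y e he z hz)) (holc hLIE (w e he z hz) (holc hLIE (v e he z hz) (holv z)))),
      cm_cg (fun e he z hz => ?_) (cmW hFK (cmP hKIT hH g1) d1
        (cmV hFK hKIT hH hV.ht (cmP hKIT hH g2)))⟩
    obtain ⟨α, h⟩ := p1 e he z hz
    obtain ⟨c, hc⟩ := p0 (H := H) 4 g e z
    rw [dg1 hFK (d1 e he z hz)] at h
    have b : crv (V e z) *ᵥ P0 M H 4 g e z = lie (V e) (g e) z - (c ⬝ᵥ V e z) • g e z := by
      rw [hc, Matrix.mulVec_sub, ca hFK c _ (aba hFK _ _ _)]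
      rfl
    show _ = crv _ *ᵥ crv (V e z) *ᵥ P0 M H 4 g e z
    rw [b, l2 e he z hz, Matrix.mulVec_sub, Matrix.mulVec_smul, top hFK _ _ _ _ _ α h,
      top hFK _ _ _ _ _ α h, aa hFK, smul_zero, sub_zero]
  have t0 := hN _ (by norm_num) _ (((hKIT 4 M H _ t hH).2.2.2.2.1 t7).2.2.2.1 (by norm_num))
  refine ⟨4, g, by norm_num, g2, h2, fun e he z hz => aba hFK _ _ _, fun e he z hz I J => ?_⟩
  have s : ∀ b : E 4, crv (W e z) *ᵥ crv (V e z) *ᵥ crv b *ᵥ vac 4 =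
      crv b *ᵥ crv (W e z) *ᵥ crv (V e z) *ᵥ vac 4 := fun b => by
    rw [ac hFK (V e z) b, Matrix.mulVec_neg, ac hFK (W e z) b, neg_neg]
  by_cases h0 : g e z = 0
  · simp [h0]
  have hw : W e z ≠ 0 := fun h => h0 (by simp only [hg, h, cr0, Matrix.zero_mulVec])
  have tz : t e z = 0 := funext fun A => by
    by_cases hA : A.card = 4
    · rw [Finset.eq_univ_of_card A (by simpa using hA)]
      exact t0 e he z hz
    · exact dgc hFK _ (dgc hFK _ (dgc hFK _ (dgc hFK _ (dg0 hFK)))) A hA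
  obtain ⟨c, hc⟩ := hALG.2 (W e z) _ _ _ (dgc hFK _ (dgc hFK _ (dg0 hFK))) hw (aa hFK _ _)
    (by rw [← s]; exact h0) tz
  rw [l2 e he z hz, s, hc, ← s]
  show c * g e z I * g e z J = c * g e z J * g e z I
  ring

end Pool.Agent.Lib.NU4
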