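import Pool.Agent.Lib.NU4.Ext91

/-! Project nu4: the affine cocycle in the language of multivectors. -/

open scoped Classical Topology ContDiff ComplexOrder Matrix
open Set Filter MeasureTheory

set_option linter.unusedVariables false

noncomputable section

namespace Pool.Agent.Lib.NU4.X91

open Pool.Agent.Lib.SV (E)
open Pool.Agent.Lib.HS32 Pool.Agent.Lib.HLK Pool.Agent.Lib.F4
open Pool.Agent.Lib.F4.Clo (vac U1)

variable {n : ℕ} {M : Mf n} {L : M.Co} {φ : M.Fam ℝ} {s : M.Fam ℂ} {H : M.Fam (Mat n)}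

theorem u1h (w : Fs n → ℂ) (i : Fin n) : ((U1 n)ᴴ *ᵥ w) i = (an i *ᵥ w) ∅ := rfl

theorem u1h_u1 (v : E n) : (U1 n)ᴴ *ᵥ U1 n *ᵥ v = v := funext fun i => by
  rw [u1h, Clo.an_u1]
  simp

theorem u1h_cr (k : Fin n) (Y : Fs n → ℂ) : (U1 n)ᴴ *ᵥ cr k *ᵥ Y = Pi.single k (Y ∅) :=
  funext fun i => by
    have : ∀ Z : Fs n → ℂ, (cr k *ᵥ Z) ∅ = 0 := fun Z => by
      simp [cr, Matrix.mulVec, dotProduct, (Finset.insert_ne_empty k _).symm]
    rw [u1h, Clo.an_cr, Pi.sub_apply, this, Pi.single_apply]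
    split_ifs <;> simp

theorem u1h_q (W : M.Fam (Fs n → ℂ)) (e : M.Ch) (z : E n) : (U1 n)ᴴ *ᵥ (oQ H).ap W e z =
    (H e z)⁻¹ *ᵥ fun l => dzb l (fun w => W e w ∅) z := by
  rw [SQ.ap_eq]
  simp only [Matrix.mulVec_sum, Matrix.mulVec_smul, u1h_cr]
  funext i
  simp [Matrix.mulVec, dotProduct, Pi.single_apply, dzbv]

theorem prj {G : Mat n} (hG : G.PosDef) (w : Fs n → ℂ) :
    (star ((U1 n)ᴴ *ᵥ w) ⬝ᵥ G *ᵥ (U1 n)ᴴ *ᵥ w).re ≤ (star w ⬝ᵥ La G *ᵥ w).re := by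
  have pd := ((aFK2 n).2 G).2.2.2.2.2 hG
  obtain ⟨a, ha⟩ : ∃ a, a = (U1 n)ᴴ *ᵥ w := ⟨_, rfl⟩
  obtain ⟨r, hr⟩ : ∃ r, r = w - U1 n *ᵥ a := ⟨_, rfl⟩
  have r0 : (U1 n)ᴴ *ᵥ r = 0 := by rw [hr, Matrix.mulVec_sub, u1h_u1, ha, sub_self]
  have ad : ∀ (x : Fs n → ℂ) (v : E n), star x ⬝ᵥ U1 n *ᵥ v = star ((U1 n)ᴴ *ᵥ x) ⬝ᵥ v :=
    fun x v => by rw [Matrix.dotProduct_mulVec, Matrix.star_mulVec, Matrix.conjTranspose_conjTranspose]
  have c1 : star r ⬝ᵥ La G *ᵥ U1 n *ᵥ a = 0 := by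
    rw [Clo.la_u1, ad, r0, star_zero, zero_dotProduct]
  have c2 : star (U1 n *ᵥ a) ⬝ᵥ La G *ᵥ r = 0 := by
    rw [Matrix.dotProduct_mulVec, ← pd.1.eq, ← Matrix.star_mulVec, Matrix.star_dotProduct, c1,
      star_zero]
  have hw : w = U1 n *ᵥ a + r := by rw [hr, add_sub_cancel]
  rw [← ha, hw, star_add, Matrix.mulVec_add, add_dotProduct, dotProduct_add, dotProduct_add, c1,
    c2, Clo.la_u1, ad, u1h_u1, add_zero, zero_add, Complex.add_re]
  exact le_add_of_nonneg_right (Complex.nonneg_iff.1 (pd.posSemidef.dotProduct_mulVec_nonneg r)).1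

theorem q_vac (u : M.Fam ℂ) (e : M.Ch) (z : E n) : (oQ H).ap (fun e z => u e z • vac n) e z =
    U1 n *ᵥ (H e z)⁻¹ *ᵥ fun l => dzb l (u e) z := by
  have : ∀ l, dzbv l (fun w => u e w • vac n) z = dzb l (u e) z • vac n := fun l => funext fun A => by
    by_cases h : A = ∅ <;> simp [dzbv, h]
  rw [SQ.ap_eq, Clo.u1_eq, Finset.sum_comm]
  refine Finset.sum_congr rfl fun k _ => ?_
  simp only [this, Matrix.mulVec_smul, smul_smul, ← Finset.sum_smul]
  rfl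

/-- The obstruction is a section. -/
theorem aff_sec (hH : M.Met H) (hs : Aff L s) :
    (lam H L φ).Sec ((oQ H).ap fun e z => s e z • vac n) := by
  refine ⟨fun e he z hz => ?_, fun e he e' he' x hx hx' => ?_⟩
  · beta_reduce
    rw [show (oQ H).ap (fun e z => s e z • vac n) e = _ from funext (SQ.ap_eq e)]
    exact ContDiffAt.sum fun l _ => ContDiffAt.sum fun k _ =>
      ((hH.sm e he z hz).inv (hH.det_ne e he z hz) k l).smul
        (SQ.cd_cmv (SQ.cd_dzbv ((hs.sm e he z hz).smul contDiffAt_const) l) _)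
  · obtain ⟨hN, hJ, -⟩ := (mTR n M).2.1 e he e' he' x hx hx'
    have hJ' : (M.J e e' x)ᴴ.det ≠ 0 := by rw [Matrix.det_conjTranspose]; exact star_ne_zero.2 hJ
    have hψ : (e ∘ e'.symm) (e' x) = e x := by simp [e'.left_inv hx']
    obtain ⟨c1, -, -, -, -, -, -, -, -, c10, -⟩ := mCHN n _ _ hN
    have d1 : DifferentiableAt ℝ (s e) ((e ∘ e'.symm) (e' x)) := by
      rw [hψ]
      exact cd_diff (hs.sm.at he hx)
    have d2 := (L.hol e he e' he' x hx hx').self_of_nhds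
    have d3 := (hs.hol e he e' he' x hx hx').self_of_nhds
    have d4 := d1.comp _ (cd_diff c1)
    have d : (fun l => dzb l (s e') (e' x)) =
        L.c e e' x • (M.J e e' x)ᴴ *ᵥ fun l => dzb l (s e) (e x) := funext fun l => by
      have k := sub_eq_zero.1 ((dzb_sub (cd_diff (hs.sm.at he' hx'))
        (d4.mul (d2.restrictScalars ℝ))).symm.trans (HS.SIUK.dzb_hol d3 l))
      refine k.trans ((dzb_mul d4 (d2.restrictScalars ℝ)).trans ?_)
      rw [HS.SIUK.dzb_hol d2, (c10 _ d1 l).2, hψ, e'.left_inv hx']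
      simp [Matrix.mulVec, dotProduct, mul_comm, Mf.J]
    rw [q_vac, q_vac, d, hH.cmp e he e' he' x hx hx', Matrix.mul_inv_rev, Matrix.mul_inv_rev]
    simp only [lam, Matrix.smul_mulVec, Clo.la_u1, Matrix.mulVec_smul, smul_smul,
      mul_inv_cancel₀ (L.ne e he e' he' x hx hx'), one_smul]
    rw [Matrix.mulVec_mulVec, Matrix.mulVec_mulVec _ (M.J e e' x), Matrix.mulVec_mulVec _ (_ * _),
      ← Matrix.mul_assoc, Matrix.mul_nonsing_inv _ hJ.isUnit, Matrix.one_mul, Matrix.mul_assoc,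
      Matrix.nonsing_inv_mul _ hJ'.isUnit, Matrix.mul_one, Matrix.mulVec_mulVec]

theorem deg0 {y : M.Fam (Fs n → ℂ)} (hy : (lam H L φ).Sec y) : M.SecC L fun e z => y e z ∅ := by
  refine ⟨fun e he z hz => contDiffAt_pi.1 (hy.sm e he z hz) ∅, fun e he e' he' x hx hx' => ?_⟩
  have r : ∀ B, La (M.J e e' x) ∅ B = if B = ∅ then 1 else 0 := fun B => by
    have := ((aFK2 n).2 (M.J e e' x)ᴴ).2.1 B
    rw [((aFK2 n).2 _).1, Matrix.conjTranspose_apply] at this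
    rw [← star_star (La _ _ _), this]
    split_ifs <;> simp
  beta_reduce
  rw [hy.cmp e he e' he' x hx hx']
  simp [lam, Matrix.mulVec, dotProduct, r, mul_comm, L.ne e he e' he' x hx hx']

theorem g0_le (hH : M.Met H) (hs : Aff L s) {y : M.Fam (Fs n → ℂ)} (hy : (lam H L φ).Sec y)
    (x : M.X) : g0 H φ (s - fun e z => y e z ∅) x ≤
      (lam H L φ).pn ((oQ H).ap (fun e z => s e z • vac n) - (oQ H).ap y) x := by
  have pd := hH.ev_pos x
  have k := prj pd (M.ev ((oQ H).ap (fun e z => s e z • vac n) - (oQ H).ap y) x)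
  have a : (U1 n)ᴴ *ᵥ M.ev ((oQ H).ap (fun e z => s e z • vac n) - (oQ H).ap y) x =
      (M.ev H x)⁻¹ *ᵥ fun l => dzb l ((s - fun e z => y e z ∅) (M.ch x)) (M.ch x x) := by
    refine (Matrix.mulVec_sub _ _ _).trans ?_
    rw [u1h_q, u1h_q, ← Matrix.mulVec_sub]
    refine congrArg _ (funext fun l => ?_)
    simp only [Pi.smul_apply, Pi.single_eq_same, smul_eq_mul, mul_one]
    exact (dzb_sub (j := l) (cd_diff (Mf.AllOn.ch hs.sm x))
      (cd_diff (Mf.AllOn.ch (deg0 hy).sm x))).symm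
  rw [a, Matrix.mulVec_mulVec, Matrix.mul_nonsing_inv _ (hH.ev_det x).isUnit, Matrix.one_mulVec,
    Matrix.star_mulVec, pd.1.inv.eq, ← Matrix.dotProduct_mulVec] at k
  refine le_trans (le_of_eq ?_) ((mul_le_mul_of_nonneg_left k (Real.exp_pos (-M.ev φ x)).le).trans
    (le_of_eq ?_))
  · refine congrArg _ (congrArg _ ?_)
    simp only [Matrix.mulVec, dotProduct, Finset.mul_sum, Pi.star_apply]
    exact Finset.sum_congr rfl fun k _ => Finset.sum_congr rfl fun l _ => mul_left_comm _ _ _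
  · rw [← Complex.re_ofReal_mul, ← smul_eq_mul, ← dotProduct_smul, ← Matrix.smul_mulVec]
    rfl

/-- The obstruction is a limit of exact classes: the cocycle is a coboundary. -/
theorem ext [M.Cpt] (hn : 0 < n) (hH : M.Met H) (hφ : M.WtC L φ) (hs : Aff L s)
    (h0 : ∀ t, M.HSecC L t → Zr M t)
    (ha : ∀ η : ℝ, 0 < η → ∃ y, (lam H L φ).Sec y ∧
      (lam H L φ).nr H ((oQ H).ap (fun e z => s e z • vac n) - (oQ H).ap y) ≤ η) :
    ∃ q : M.Fam ℂ, (M.All fun e z => HolN (q e) z) ∧ M.SecC L (s - q) := by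
  refine core hn hH hφ hs h0 fun η hη => ?_
  obtain ⟨y, y1, y2⟩ := ha η hη
  have c : (lam H L φ).Sec _ :=
    (lam H L φ).secs.sub_mem (aff_sec hH hs) (aSQ n M H L φ y hH y1).1
  refine ⟨_, deg0 y1, le_trans (integral_mono_of_nonneg (Eventually.of_forall fun x => ?_)
    ((mMU n M H hH).2.2.2.2.1 ℝ _ ((aLAM n M H L φ hH hφ).1.pp_rep c c).2.re.continuous)
    (Eventually.of_forall (g0_le hH hs y1))) y2⟩
  have := ((aGB n M _ H _ hH (eb_ok hφ hs) (eb_hl hs)).1 _ (sy_sec hs (deg0 y1) 1)).2.2.1 x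
  rwa [sy_gb hs (deg0 y1), one_pow, one_mul] at this

end Pool.Agent.Lib.NU4.X91
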