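import Pool.Agent.Lib.NU4.Blue
import Pool.Agent.Lib.NU4.Ext91b

/-! Project nu4, row XS: the obstruction to a projective structure along a field. -/

open scoped Classical Topology ContDiff ComplexOrder Matrix
open Set Filter MeasureTheory

set_option linter.unusedVariables false

noncomputable section

namespace Pool.Agent.Lib.NU4

open Pool.Agent.Lib.SV (E)
open Pool.Agent.Lib.HS32 Pool.Agent.Lib.HLK Pool.Agent.Lib.F4
open Pool.Agent.Lib.K3E (kan wk lk triv)

namespace X91

variable {n : ℕ} {M : Mf n} {H : M.Fam (Mat n)}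

/-- The square of `Q` is zero, for a family that is smooth near the point. -/
theorem sq (hH : M.Kae H) {W : M.Fam (Fs n → ℂ)} {e : M.Ch} (he : e ∈ M.C) {z : E n}
    (hz : z ∈ e.target) (sw : ContDiffAt ℝ ∞ (W e) z) : (oQ H).ap ((oQ H).ap W) e z = 0 := by
  have s := hH.sm e he z hz
  have si := s.inv (hH.toMet.det_ne e he z hz)
  have y : ∀ l a b, (gam (H e) l z)ᴴ a b = (gam (H e) a z)ᴴ l b := fun l a b => by
    simp only [Matrix.conjTranspose_apply, gam, Matrix.mul_apply, fun c => hH.cl e he z hz c a l]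
  have q : ∀ l, dzbv l ((oQ H).ap W e) z = ∑ m, cr m *ᵥ ∑ p, (dMb l (fun w => (H e w)⁻¹) z m p •
      dzbv p (W e) z + (H e z)⁻¹ m p • dzbv l (dzbv p (W e)) z) := fun l => by
    have u : (oQ H).ap W e = fun w => ∑ m, cr m *ᵥ ∑ p, (H e w)⁻¹ m p • dzbv p (W e) w :=
      funext fun w => by
        rw [SQ.ap_eq, Finset.sum_comm]
        simp only [Matrix.mulVec_sum, Matrix.mulVec_smul]
    have c : ∀ m, ContDiffAt ℝ ∞ (fun w => ∑ p, (H e w)⁻¹ m p • dzbv p (W e) w) z :=
      fun m => ContDiffAt.sum fun p _ => (si m p).smul (SQ.cd_dzbv sw p)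
    rw [u]
    funext A
    simp only [dzbv, Finset.sum_apply]
    rw [dzb_sum fun m _ => cd_diff (contDiffAt_pi.1 (SQ.cd_cmv (c m) (cr m)) A)]
    refine Finset.sum_congr rfl fun m _ => ?_
    refine (congrFun (SQ.dzbv_mv (T := fun _ => cr m) (fun _ _ => contDiffAt_const) (c m) l
      fun _ _ => dzb_const _) A).trans (congrFun (congrArg _ (funext fun B => ?_)) A)
    simp only [dzbv, Finset.sum_apply, Pi.add_apply, Pi.smul_apply, smul_eq_mul]
    rw [dzb_sum fun p _ => (cd_diff (si m p)).fun_mul (cd_diff (cd_dzb (contDiffAt_pi.1 sw B) p))]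
    exact Finset.sum_congr rfl fun p _ =>
      dzb_mul (cd_diff (si m p)) (cd_diff (cd_dzb (contDiffAt_pi.1 sw B) p))
  rw [SQ.ap_eq, Finset.sum_comm, ← SQ.anti aFK1 (fun k m => ∑ l, (H e z)⁻¹ k l •
    ∑ p, (dMb l (fun w => (H e w)⁻¹) z m p • dzbv p (W e) z +
      (H e z)⁻¹ m p • dzbv l (dzbv p (W e)) z)) fun k m => ?_]
  · refine Finset.sum_congr rfl fun k _ => ?_
    simp only [q, Matrix.mulVec_sum, Matrix.mulVec_smul, Finset.smul_sum]
    exact Finset.sum_comm
  · simp only [Finset.smul_sum, smul_add, Finset.sum_add_distrib, smul_smul]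
    refine congrArg₂ _ ?_ ?_
    · rw [Finset.sum_comm, Finset.sum_comm (f := fun l p => (_ * dMb l _ z k p) • _)]
      refine Finset.sum_congr rfl fun p _ => ?_
      rw [← Finset.sum_smul, ← Finset.sum_smul]
      refine congrArg (· • _) ?_
      simp only [(HS68.met_loc hH.toMet he hz).dMb_inv, Matrix.neg_apply, Matrix.mul_apply,
        Finset.mul_sum, mul_neg, Finset.sum_neg_distrib, neg_inj]
      rw [Finset.sum_comm]
      refine Finset.sum_congr rfl fun a _ => Finset.sum_congr rfl fun l _ => ?_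
      rw [y l a p]
      ring
    · rw [Finset.sum_comm]
      refine Finset.sum_congr rfl fun p _ => Finset.sum_congr rfl fun l _ => ?_
      rw [mul_comm]
      exact congrArg _ (funext fun B => dzb_dzb (contDiffAt_pi.1 sw B) _ _)

theorem cd_dir {v : E n → E n} {f : E n → ℂ} {z : E n} (hv : HolV v z)
    (hf : ContDiffAt ℝ ∞ f z) : ContDiffAt ℝ ∞ (dir v f) z :=
  ContDiffAt.sum fun k _ => ((mHOL n _ _).2.2 (hv k)).1.mul (cd_dz hf k)

theorem hol_dir {v : E n → E n} {f : E n → ℂ} {z : E n} (hv : HolV v z) (hf : HolN f z) :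
    HolN (dir v f) z := by
  filter_upwards [eventually_all.2 hv, eventually_all.2 ((mHOL n _ _).2.2 hf).2.1] with w a b
  exact DifferentiableAt.fun_sum fun k _ => (a k).mul (b k)

theorem cd_ld (hH : M.Met H) : M.All fun e z => ContDiffAt ℝ ∞ (ld (H e)) z := fun e he z hz =>
  ((mCOF n _ _ (hH.sm e he z hz)).2.2.2.2.2 (hH.pos.ev he hz)).1

variable {V : M.Fam (E n)}

/-- The derivative along the field in two charts. -/
theorem dir_cmp (hV : HT M 1 V) : M.Ov fun e e' x => ∀ f, DifferentiableAt ℝ f (e x) →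
    dir (V e') (f ∘ e ∘ e'.symm) (e' x) = jd M e e' x * dir (V e) f (e x) := by
  intro e he e' he' x hx hx' f hf
  have hψ : (e ∘ e'.symm) (e' x) = e x := by simp [e'.left_inv hx']
  have c := (mCHN n _ _ ((mTR n M).2.1 e he e' he' x hx hx').1).2.2.2.2.2.2.2.2.2.1 f (hψ ▸ hf)
  have t := hV.cmp e he e' he' x hx hx'
  simp only [zpow_one] at t
  simp only [dir, fun j => (c j).1, hψ, Finset.mul_sum]
  rw [Finset.sum_comm]
  refine Finset.sum_congr rfl fun a _ => ?_
  rw [← mul_assoc, ← smul_eq_mul (jd M e e' x), ← Pi.smul_apply, ← t]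
  simp only [Matrix.mulVec, dotProduct, Finset.sum_mul]
  exact Finset.sum_congr rfl fun k _ => by rw [Mf.J]; ring

/-- The law of the derivative of the weight. -/
theorem a0_cmp (hH : M.Met H) (hV : HT M 1 V) : M.Ov fun e e' x => a0 M H V e' (e' x) =
    jd M e e' x * a0 M H V e (e x) +
      dir (V e') (fun w => (jm (e ∘ e'.symm) w).det) (e' x) / jd M e e' x := by
  intro e he e' he' x hx hx'
  obtain ⟨hN, hJ, -, t, -⟩ := (mTR n M).2.1 e he e' he' x hx hx'
  have hψ : (e ∘ e'.symm) (e' x) = e x := by simp [e'.left_inv hx']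
  obtain ⟨c1, -, -, -, c5, -⟩ := mCHN n _ _ hN
  obtain ⟨l1, -, l3⟩ := ((mHOL n _ _).2.2 c5).2.2.2 hJ
  have d1 := cd_diff ((cd_ld hH).at he hx)
  have k : ld (H e') =ᶠ[𝓝 (e' x)] fun w => (ld (H e) ∘ e ∘ e'.symm) w +
      (Real.log (Complex.normSq (jm (e ∘ e'.symm) w).det) : ℝ) := t.mono fun w hw => by
    have := (mINV n M H hH).2.2.2.2.2.2.1.cmp e he e' he' _ hw.2.1 hw.2.2.1
    beta_reduce at this
    rw [hw.2.2.2.2.2.1, hw.2.2.2.2.2.2, one_mul] at this
    simp only [ld, this, Complex.ofReal_add, Function.comp]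
  have d2 : DifferentiableAt ℝ (ld (H e) ∘ e ∘ e'.symm) (e' x) :=
    DifferentiableAt.comp _ (hψ ▸ d1) (cd_diff c1)
  rw [a0, a0, ← dir_cmp hV e he e' he' x hx hx' _ d1]
  simp only [dir, dz_congr k, dz_add d2 (cd_diff (cd_ofReal l1)), l3, mul_add,
    Finset.sum_add_distrib, Finset.sum_div, mul_div_assoc]
  rfl

theorem qq_sm (hH : M.Met H) (hV : HT M 1 V) : M.All fun e z =>
    ContDiffAt ℝ ∞ (a0 M H V e) z ∧ ContDiffAt ℝ ∞ (qq (V e) (a0 M H V e)) z := fun e he z hz =>
  have a := cd_dir (hV.hol e he z hz) (cd_ld hH e he z hz)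
  ⟨a, (cd_dir (hV.hol e he z hz) a).sub ((a.pow 2).div_const 2)⟩

/-- The law of the expression of Riccati. -/
theorem qq_hol (hH : M.Met H) (hV : HT M 1 V) : M.Ov fun e e' x =>
    HolN (fun w => qq (V e') (a0 M H V e') w -
      (jm (e ∘ e'.symm) w).det ^ 2 * qq (V e) (a0 M H V e) (e (e'.symm w))) (e' x) := by
  obtain ⟨j, hj⟩ : ∃ j : M.Ch → M.Ch → E n → ℂ, ∀ e e', j e e' = fun w => (jm (e ∘ e'.symm) w).det :=
    ⟨_, fun _ _ => rfl⟩
  obtain ⟨c, hc⟩ : ∃ c : M.Ch → M.Ch → E n → ℂ, ∀ e e', c e e' =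
    fun w => dir (V e') (j e e') w / j e e' w := ⟨_, fun _ _ => rfl⟩
  have hol : M.Ov fun e e' x => HolN (j e e') (e' x) ∧ HolN (c e e') (e' x) := by
    intro e he e' he' x hx hx'
    obtain ⟨hN, hJ, -⟩ := (mTR n M).2.1 e he e' he' x hx hx'
    have c5 : HolN (j e e') (e' x) := hj e e' ▸ (mCHN n _ _ hN).2.2.2.2.1
    refine ⟨c5, ?_⟩
    have nz : ∀ᶠ w in 𝓝 (e' x), j e e' w ≠ 0 :=
      c5.self_of_nhds.continuousAt.eventually_ne (by rw [hj]; exact hJ)
    filter_upwards [c5, hol_dir (hV.hol.at he' hx') c5, nz] with w h1 h2 h3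
    simp only [hc, div_eq_mul_inv]
    exact h2.mul (h1.inv h3)
  have law : M.Ov fun e e' x => qq (V e') (a0 M H V e') (e' x) -
      jd M e e' x ^ 2 * qq (V e) (a0 M H V e) (e x) = qq (V e') (c e e') (e' x) := by
    intro e he e' he' x hx hx'
    obtain ⟨hN, hJ, -, t, -⟩ := (mTR n M).2.1 e he e' he' x hx hx'
    obtain ⟨h1, h2⟩ := hol e he e' he' x hx hx'
    have hψ : (e ∘ e'.symm) (e' x) = e x := by simp [e'.left_inv hx']
    have d1 := cd_diff ((qq_sm hH hV).at he hx).1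
    have d2 : DifferentiableAt ℝ (a0 M H V e ∘ e ∘ e'.symm) (e' x) :=
      DifferentiableAt.comp _ (hψ ▸ d1) (cd_diff (mCHN n _ _ hN).1)
    have k : a0 M H V e' =ᶠ[𝓝 (e' x)] fun w => j e e' w * (a0 M H V e ∘ e ∘ e'.symm) w + c e e' w :=
      t.mono fun w hw => by
        have := a0_cmp hH hV e he e' he' _ hw.2.1 hw.2.2.1
        beta_reduce at this
        rw [hw.2.2.2.2.2.1, jd, hw.2.2.2.2.2.2] at this
        simp only [hc, hj, this, Function.comp]
    have dj := h1.self_of_nhds.restrictScalars ℝ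
    have k2 : dir (V e') (a0 M H V e') (e' x) = dir (V e') (j e e') (e' x) * a0 M H V e (e x) +
        jd M e e' x * (jd M e e' x * dir (V e) (a0 M H V e) (e x)) + dir (V e') (c e e') (e' x) := by
      rw [← dir_cmp hV e he e' he' x hx hx' _ d1]
      simp only [dir, dz_congr k, dz_add (dj.fun_mul d2) (h2.self_of_nhds.restrictScalars ℝ),
        dz_mul dj d2, mul_add, Finset.sum_add_distrib, Finset.sum_mul, Finset.mul_sum]
      refine congrArg (· + _) (congrArg₂ _ (Finset.sum_congr rfl fun a _ => ?_)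
        (Finset.sum_congr rfl fun a _ => ?_))
      · rw [Function.comp_apply, hψ, mul_assoc]
      · rw [hj, mul_left_comm]
        rfl
    have k3 : j e e' (e' x) = jd M e e' x := by rw [hj]; rfl
    have k4 := k.self_of_nhds
    simp only [Function.comp_apply, e'.left_inv hx', k3] at k4
    rw [qq, qq, qq, k2, k4]
    simp only [hc, k3]
    field_simp
    ring
  intro e he e' he' x hx hx'
  obtain ⟨-, h2⟩ := hol e he e' he' x hx hx'
  filter_upwards [hol_dir (hV.hol.at he' hx') h2, h2,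
    ((mTR n M).2.1 e he e' he' x hx hx').2.2.2.1.eventually_nhds] with w a b t
  refine (a.sub ((b.fun_pow 2).mul_const 2⁻¹)).congr_of_eventuallyEq (t.mono fun y hy => ?_)
  have := law e he e' he' _ hy.2.1 hy.2.2.1
  beta_reduce at this
  rw [hy.2.2.2.2.2.1, jd, hy.2.2.2.2.2.2] at this
  exact this.trans (congrArg (_ - ·) (div_eq_mul_inv _ _))

theorem qq_aff (hH : M.Met H) (hV : HT M 1 V) :
    Aff (kan M 2) fun e => qq (V e) (a0 M H V e) := by
  refine ⟨fun e he z hz => (qq_sm hH hV e he z hz).2, fun e he e' he' x hx hx' => ?_⟩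
  filter_upwards [qq_hol hH hV e he e' he' x hx hx',
    ((mTR n M).2.1 e he e' he' x hx hx').2.2.2.1.eventually_nhds] with w a t
  refine a.congr_of_eventuallyEq (t.mono fun y hy => ?_)
  simp only [kan, triv, Mf.Co.tw, hy.2.2.2.2.2.2, mul_one]
  rw [mul_comm]

end X91

open X91 in
theorem st_XS : St_XS := by
  intro n M H V hH hV
  refine ⟨qq_sm hH.toMet hV, qq_hol hH.toMet hV, aff_sec hH.toMet (qq_aff hH.toMet hV),
    fun e he z hz A hA => ?_, fun e he z hz =>
      sq hH he hz ((qq_sm hH.toMet hV e he z hz).2.smul contDiffAt_const)⟩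
  refine (congrFun (q_vac _ e z) A).trans ?_
  rw [Matrix.mulVec, dotProduct]
  refine Finset.sum_eq_zero fun k _ => ?_
  have : A ≠ {k} := fun h => hA (by simp [h])
  simp [Clo.U1, cr, this]

end Pool.Agent.Lib.NU4
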