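import Pool.Agent.Lib.HS32.MAll

/-! Project nu4: the divergence theorem outside the zero set of a smooth function. -/

open scoped Classical Topology ContDiff ComplexOrder Matrix
open Set Filter MeasureTheory

set_option linter.unusedVariables false

noncomputable section

namespace Pool.Agent.Lib.NU4.D37

open Pool.Agent.Lib.SV (E)
open Pool.Agent.Lib.HS32

/-- The cut-off function. -/
theorem cut : ∃ (χ : ℝ → ℝ) (K : ℝ), ContDiff ℝ ∞ χ ∧ 0 ≤ K ∧ (∀ s, |χ s| ≤ 1) ∧
    (∀ s, s ≤ 1 → χ s = 0) ∧ (∀ s, 2 < s → χ s = 1 ∧ deriv χ s = 0) ∧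
    ∀ s, 0 ≤ s → |deriv χ s * s| ≤ K := by
  set χ : ℝ → ℝ := fun s => Real.smoothTransition (s - 1) with hχ
  have c : ContDiff ℝ ∞ χ := Real.smoothTransition.contDiff.comp (contDiff_id.sub contDiff_const)
  have one : ∀ s, 2 < s → χ s = 1 := fun s hs =>
    Real.smoothTransition.one_of_one_le (by linarith)
  have d0 : ∀ s, 2 < s → deriv χ s = 0 := fun s hs => by
    have : χ =ᶠ[𝓝 s] fun _ => 1 := (lt_mem_nhds hs).mono fun t ht => one t ht
    rw [this.deriv_eq, deriv_const]
  have cd : Continuous fun s => deriv χ s * s :=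
    (c.continuous_deriv (by simp)).mul continuous_id
  obtain ⟨K, hK⟩ := (isCompact_Icc (a := (0 : ℝ)) (b := 2)).exists_bound_of_continuousOn
    cd.continuousOn
  have K0 : 0 ≤ K := (norm_nonneg _).trans (hK 0 ⟨le_rfl, by norm_num⟩)
  refine ⟨χ, K, c, K0, fun s => ?_, fun s hs => Real.smoothTransition.zero_of_nonpos (by linarith),
    fun s hs => ⟨one s hs, d0 s hs⟩, fun s hs => ?_⟩
  · rw [abs_of_nonneg (Real.smoothTransition.nonneg _)]
    exact Real.smoothTransition.le_one _
  · rcases le_or_gt s 2 with h | h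
    · exact hK s ⟨hs, h⟩
    · rw [d0 s h, zero_mul, abs_zero]; exact K0

/-- The divergence theorem for a field that is smooth outside the zero set of `ρ`. -/
theorem divO {n : ℕ} (M : Mf n) [hM : M.Cpt] (H : M.Fam (Mat n)) (hH : M.Met H) (ρ : M.X → ℝ)
    (sρ : M.Sm ρ) (h0 : ∀ x, 0 ≤ ρ x) (W : M.Fam (E n)) (B : M.X → ℝ)
    (iB : Integrable B (M.mu H))
    (sm : M.All fun e z => ρ (e.symm z) ≠ 0 → ContDiffAt ℝ ∞ (W e) z)
    (cmp : M.Ov fun e e' x => ρ x ≠ 0 →
      M.J e e' x *ᵥ W e' (e' x) = (Complex.normSq (M.J e e' x).det : ℂ) • W e (e x))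
    (bd : ∀ x, ρ x ≠ 0 → ‖M.ev (fun e z => dv (W e) z / (H e z).det) x‖ ≤ B x ∧
      ‖M.ev (fun e z => (∑ j, W e z j * dz j (M.lc ρ e) z) / (H e z).det) x‖ ≤ B x * ρ x) :
    Integrable ({x | ρ x ≠ 0}.indicator (M.ev fun e z => dv (W e) z / (H e z).det)) (M.mu H) ∧
    ∫ x, {x | ρ x ≠ 0}.indicator (M.ev fun e z => dv (W e) z / (H e z).det) x ∂M.mu H = 0 := by
  obtain ⟨χ, K, c, K0, b1, z1, o2, bK⟩ := cut
  set d : M.X → ℂ := M.ev fun e z => dv (W e) z / (H e z).det with hd
  set g : M.X → ℂ := M.ev fun e z => (∑ j, W e z j * dz j (M.lc ρ e) z) / (H e z).det with hg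
  set Wk : ℕ → M.Fam (E n) := fun k e z => (χ ((k + 1) * ρ (e.symm z)) : ℂ) • W e z with hWk
  have sk : ∀ k : ℕ, M.Sm fun x => χ ((k + 1) * ρ x) := fun k =>
    (sρ.const_mul ((k : ℝ) + 1)).comp fun _ => c.contDiffAt
  have zk : ∀ k : ℕ, M.All fun e z => ρ (e.symm z) = 0 → Wk k e =ᶠ[𝓝 z] fun _ => 0 :=
    fun k e he z hz h => by
      have ca : ContinuousAt (fun w => ((k : ℝ) + 1) * ρ (e.symm w)) z :=
        continuousAt_const.mul (sρ e he z hz).continuousAt
      have : ∀ᶠ w in 𝓝 z, ((k : ℝ) + 1) * ρ (e.symm w) < 1 :=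
        ca.eventually_lt continuousAt_const (by simp only [h, mul_zero]; exact one_pos)
      refine this.mono fun w hw => ?_
      simp only [hWk, z1 _ hw.le, Complex.ofReal_zero, zero_smul]
  have vd : ∀ k, M.VDen (Wk k) := fun k =>
    ⟨fun e he z hz => by
      by_cases h : ρ (e.symm z) = 0
      · exact contDiffAt_const.congr_of_eventuallyEq (zk k e he z hz h)
      · exact (cd_ofReal (sk k e he z hz)).smul (sm e he z hz h),
    fun e he e' he' x hx hx' => by
      simp only [hWk, e.left_inv hx, e'.left_inv hx']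
      by_cases h : ρ x = 0
      · simp only [h, mul_zero, z1 0 zero_le_one, Complex.ofReal_zero, zero_smul,
          Matrix.mulVec_zero, smul_zero]
      · rw [Matrix.mulVec_smul, cmp e he e' he' x hx hx' h, smul_comm]⟩
  set D : ℕ → M.X → ℂ := fun k => M.ev fun e z => dv (Wk k e) z / (H e z).det with hD
  have sD : ∀ k, M.Sm (D k) := fun k => ((mDIV n M H hH).2.1 _ (vd k)).2.1
  have iD : ∀ k, ∫ x, D k x ∂M.mu H = 0 := fun k => ((mDIV n M H hH).2.1 _ (vd k)).2.2 hM
  have D0 : ∀ k x, ρ x = 0 → D k x = 0 := fun k x h => by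
    have := (zk k).ch x (by rwa [Mf.ch_symm])
    have e : dv (Wk k (M.ch x)) (M.ch x x) = 0 := Finset.sum_eq_zero fun j _ => by
      rw [dz_congr (g := fun _ => 0) (this.mono fun w hw => by simp only [hw, Pi.zero_apply]),
        dz_const]
    simp only [hD, Mf.ev, e, zero_div]
  have D1 : ∀ (k : ℕ) x, ρ x ≠ 0 → D k x = (χ ((k + 1) * ρ x) : ℂ) * d x +
      (deriv χ ((k + 1) * ρ x) * (k + 1) : ℝ) * g x := fun k x h => by
    have sW := sm.ch x (by rwa [Mf.ch_symm])
    have s1 : DifferentiableAt ℝ (fun w => ρ ((M.ch x).symm w)) (M.ch x x) := cd_diff (sρ.ch x)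
    have e : ∀ j, dz j (fun w => Wk k (M.ch x) w j) (M.ch x x) =
        (deriv χ ((k + 1) * ρ x) * (k + 1) : ℝ) * dz j (M.lc ρ (M.ch x)) (M.ch x x) *
          W (M.ch x) (M.ch x x) j +
        (χ ((k + 1) * ρ x) : ℂ) * dz j (fun w => W (M.ch x) w j) (M.ch x x) := fun j => by
      have h1 : HasDerivAt (fun s => χ ((k + 1) * s)) (deriv χ ((k + 1) * ρ x) * (k + 1))
          (ρ ((M.ch x).symm (M.ch x x))) := by
        rw [Mf.ch_symm]
        have := ((c.differentiable (by simp)) _).hasDerivAt.comp (ρ x)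
          ((hasDerivAt_id (ρ x)).const_mul ((k : ℝ) + 1))
        rwa [mul_one] at this
      have h2 := dz_comp_real (j := j) h1 s1
      have h3 := dz_mul (j := j) (cd_diff (cd_ofReal ((sk k).ch x)))
        (cd_diff (contDiffAt_pi.1 sW j))
      simp only [Function.comp_def] at h3
      rw [h2, Mf.ch_symm] at h3
      exact h3
    simp only [hD, hd, hg, Mf.ev, dv, e, Finset.sum_add_distrib, ← Finset.mul_sum, mul_assoc]
    rw [Finset.sum_congr rfl fun j _ => mul_comm (W (M.ch x) (M.ch x x) j) _]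
    ring
  have bD : ∀ k x, ‖D k x‖ ≤ (1 + K) * |B x| := fun k x => by
    by_cases h : ρ x = 0
    · rw [D0 k x h, norm_zero]; positivity
    · obtain ⟨a1, a2⟩ := bd x h
      have p : 0 ≤ ((k : ℝ) + 1) * ρ x := mul_nonneg (by positivity) (h0 x)
      have a3 := bK _ p
      have a4 := b1 ((k + 1) * ρ x)
      have B0 : 0 ≤ B x := (norm_nonneg _).trans a1
      rw [D1 k x h, abs_of_nonneg B0]
      refine (norm_add_le _ _).trans ?_
      rw [norm_mul, norm_mul, Complex.norm_real, Complex.norm_real, Real.norm_eq_abs,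
        Real.norm_eq_abs]
      have a5 : |deriv χ ((k + 1) * ρ x) * (k + 1)| * ‖g x‖ ≤ K * B x := by
        refine (mul_le_mul_of_nonneg_left a2 (abs_nonneg _)).trans ?_
        rw [← mul_assoc, abs_mul, abs_of_nonneg (h0 x)] at a3
        nlinarith [mul_le_mul_of_nonneg_right a3 B0]
      nlinarith [mul_le_mul a4 a1 (norm_nonneg _) zero_le_one]
  have lim : ∀ x, Tendsto (fun k => D k x) atTop (𝓝 ({x | ρ x ≠ 0}.indicator d x)) := fun x => by
    by_cases h : ρ x = 0
    · simp only [D0 _ x h, indicator, mem_ofPred_eq, h, ne_eq, not_true_eq_false, if_false]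
      exact tendsto_const_nhds
    · have p : 0 < ρ x := lt_of_le_of_ne (h0 x) (Ne.symm h)
      have t : Tendsto (fun k : ℕ => ((k : ℝ) + 1) * ρ x) atTop atTop :=
        (tendsto_atTop_add_const_right _ _ tendsto_natCast_atTop_atTop).atTop_mul_const p
      refine tendsto_const_nhds.congr' ((t.eventually_gt_atTop 2).mono fun k hk => ?_)
      beta_reduce
      rw [D1 k x h, (o2 _ hk).1, (o2 _ hk).2, indicator_of_mem (show x ∈ {x | ρ x ≠ 0} from h)]
      simp
  have mD : ∀ k, AEStronglyMeasurable (D k) (M.mu H) := fun k =>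
    (sD k).continuous.aestronglyMeasurable
  have iK : Integrable (fun x => (1 + K) * |B x|) (M.mu H) := iB.abs.const_mul _
  refine ⟨iK.mono' (aestronglyMeasurable_of_tendsto_ae atTop mD (Eventually.of_forall lim))
    (Eventually.of_forall fun x => le_of_tendsto' (lim x).norm fun k => bD k x), ?_⟩
  have := tendsto_integral_of_dominated_convergence _ mD iK
    (fun k => Eventually.of_forall (bD k)) (Eventually.of_forall lim)
  simp only [iD] at this
  exact (tendsto_nhds_unique tendsto_const_nhds this).symm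

/-- A form of the lemma of Fatou. -/
theorem fatou {Y : Type} [MeasurableSpace Y] (μ : Measure Y) (f : ℕ → Y → ℝ) (θ B : Y → ℝ)
    (hf : ∀ k, Integrable (f k) μ) (hθ : Integrable θ μ) (hB : Integrable B μ)
    (lo : ∀ k x, -B x ≤ f k x) (i0 : ∀ η > (0 : ℝ), ∀ᶠ k in atTop, ∫ x, f k x ∂μ ≤ η)
    (lim : ∀ᵐ x ∂μ, ∀ η > (0 : ℝ), ∀ᶠ k in atTop, θ x - η ≤ f k x) : ∫ x, θ x ∂μ ≤ 0 := by
  have m : ∀ k, Integrable (fun x => min (f k x) (θ x)) μ := fun k => (hf k).inf hθ
  have t : Tendsto (fun k => ∫ x, min (f k x) (θ x) ∂μ) atTop (𝓝 (∫ x, θ x ∂μ)) := by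
    refine tendsto_integral_of_dominated_convergence (fun x => |B x| + |θ x|)
      (fun k => (m k).1) (hB.abs.add hθ.abs) (fun k => Eventually.of_forall fun x => ?_)
      (lim.mono fun x hx => Metric.tendsto_nhds.2 fun η hη => (hx (η / 2) (by positivity)).mono
        fun k hk => ?_)
    · rw [Real.norm_eq_abs, abs_le]
      have := lo k x
      have := le_abs_self (B x)
      have := le_abs_self (θ x)
      have := neg_abs_le (θ x)
      have := abs_nonneg (B x)
      have := abs_nonneg (θ x)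
      exact ⟨le_min (by linarith) (by linarith), (min_le_right _ _).trans (by linarith)⟩
    · rw [Real.dist_eq, abs_lt]
      have := min_le_right (f k x) (θ x)
      have : θ x - η / 2 ≤ min (f k x) (θ x) := le_min hk (by linarith)
      constructor <;> linarith
  refine le_of_forall_pos_le_add fun η hη => ?_
  rw [zero_add]
  exact le_of_tendsto t ((i0 η hη).mono fun k hk =>
    (integral_mono (m k) (hf k) fun x => min_le_left _ _).trans hk)

end Pool.Agent.Lib.NU4.D37
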