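import Pool.Agent.Lib.NU4.Flip71d
import Pool.Agent.Lib.NU4.Idx31
import Pool.Agent.Lib.NU4.Blue
import Pool.Agent.Lib.K3E.B_KAN

/-! The powers of the canonical bundle: curvature of the weights, the sequence of weights. -/

open scoped Classical Topology ContDiff ComplexOrder Matrix
open Set MeasureTheory Complex Metric Filter

noncomputable section

namespace Pool.Agent.Lib.NU4.Fl

open Pool.Agent.Lib.SV (E)
open Pool.Agent.Lib.HS32 Pool.Agent.Lib.KP Pool.Agent.Lib.HLK Pool.Agent.Lib.F4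
open Pool.Agent.Lib.K3E (kan wk lk)

variable {n : ℕ} {M : Mf n} {H : M.Fam (Mat n)}

theorem hm_iff {m : ℕ} {W : M.Fam (Fs n → ℂ)} : HM M m W ↔ (lk H m).Sec W ∧ Hol W := by
  have e : ∀ e e' x v, (lk H m).T e e' x *ᵥ v = (jd M e e' x ^ m)⁻¹ • La (M.J e e' x) *ᵥ v :=
    fun e e' x v => by
      change ((jd M e e' x ^ m * 1)⁻¹ • La (M.J e e' x)) *ᵥ v = _
      rw [mul_one, Matrix.smul_mulVec]
  refine ⟨fun h => ⟨⟨fun c hc z hz => contDiffAt_pi.2 fun A => ((mHOL n _ z).2.2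
    (h.hol c hc z hz A)).1, fun c hc c' hc' x hx hx' => ?_⟩, h.hol⟩,
    fun h => ⟨h.2, fun c hc c' hc' x hx hx' => ?_⟩⟩
  · exact (h.cmp c hc c' hc' x hx hx').trans (e _ _ _ _).symm
  · exact (h.1.cmp c hc c' hc' x hx hx').trans (e _ _ _ _)

theorem ap_congr {σ : Type} [Fintype σ] [DecidableEq σ] (D : Op M σ) {U W : M.Fam (σ → ℂ)}
    (h : M.All fun e z => U e z = W e z) : M.All fun e z => D.ap U e z = D.ap W e z :=
  fun e he z hz => by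
    have ev : ∀ i, (fun w => U e w i) =ᶠ[𝓝 z] fun w => W e w i := fun i => by
      filter_upwards [e.open_target.mem_nhds hz] with w hw using congrFun (h e he w hw) i
    have e1 : ∀ k, dzv k (U e) z = dzv k (W e) z := fun k => funext fun i => dz_congr (ev i)
    have e2 : ∀ k, dzbv k (U e) z = dzbv k (W e) z := fun k => funext fun i => dzb_congr (ev i)
    simp only [Op.ap, e1, e2, h e he z hz]

theorem pcs {σ : Type} [Fintype σ] [DecidableEq σ] (g : Geo M σ) (U W : M.Fam (σ → ℂ)) (x : M.X) :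
    |(g.b.pp U W x).re| ≤ √(g.b.pn U x) * √(g.b.pn W x) := by
  rw [← Real.sqrt_mul (Pre.pn_nonneg U x)]
  refine Real.abs_le_sqrt ?_
  have := discrim_le_zero (a := g.b.pn W x) (b := -(2 * (g.b.pp U W x).re)) (c := g.b.pn U x)
    fun c => by nlinarith [I31.ptw g U W x c]
  rw [discrim] at this
  nlinarith

theorem curv (hm : M.Met H) (m : ℕ) (ε : ℝ) {u : M.X → ℝ} (hu : M.Sm u) : M.All fun e z =>
    (M.hw (wk H m) + M.ric H + M.hs (fun x => ((m : ℝ) - 1) * u x) + (((m : ℝ) - 1) * ε) • H) e z =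
      (0 + ((m : ℝ) - 1) • om M H ε u) e z := fun c hc z hz => by
  have q1 := (K3E.bKAN n M H m hm).2 c hc z hz
  have q2 := ((mLAP n M _ _ hu hu).1 ((m : ℝ) - 1) c hc z hz).2.2.2.1
  simp only [om, Pi.add_apply, Pi.zero_apply, Pi.smul_apply, Pi.neg_apply, q1, q2]
  module

theorem curv_le (hm : M.Met H) {m : ℕ} (h2 : 2 ≤ m) {ε : ℝ} {u : M.X → ℝ} (hu : M.Sm u)
    (h : M.Le 0 (om M H ε u)) : M.Le 0
      (M.hw (wk H m) + M.ric H + M.hs (fun x => ((m : ℝ) - 1) * u x) + (((m : ℝ) - 1) * ε) • H) :=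
  fun c hc z hz => by
    have k : (2 : ℝ) ≤ m := by exact_mod_cast h2
    have p := Mf.psd_rsmul (h c hc z hz) (by linarith : 0 ≤ (m : ℝ) - 1)
    beta_reduce
    rw [curv hm m ε hu c hc z hz]
    simpa only [Pi.add_apply, Pi.zero_apply, Pi.smul_apply, sub_zero, zero_add] using p

theorem cu_curv (hm : M.Met H) (m : ℕ) (ε : ℝ) {u : M.X → ℝ} (hu : M.Sm u) (b : Bun M (Fs n))
    (W : M.Fam (Fs n → ℂ)) (x : M.X) : cu (M.hw (wk H m) + M.ric H +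
      M.hs (fun x => ((m : ℝ) - 1) * u x) + (((m : ℝ) - 1) * ε) • H) b W x =
      ((m : ℝ) - 1) * cu (om M H ε u) b W x := by
  rw [cu_congr (curv hm m ε hu), cu_add]
  simp [cu, Mf.ev]

theorem seq [M.Cpt] {a : ℝ → M.X → ℝ} (hn : 0 < n) (hH : M.Kae H) (hO : ZK47.Out M H 0 a) {m : ℕ}
    (h2 : 2 ≤ m) : ∃ (C : ℝ) (w : ℕ → M.X → ℝ) (ε : ℕ → ℝ), (∀ j, ε j ∈ Ioc (0 : ℝ) 1 ∧
      M.Sm (w j) ∧ (∀ x, w j x ≤ 0) ∧ M.Le 0 (M.hw (wk H m) + M.ric H + M.hs (w j) + ε j • H) ∧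
      ∫ x, Real.exp (-(2 * n * w j x)) ∂M.mu H ≤ C) ∧ Tendsto ε atTop (𝓝 0) ∧
      ∀ j, M.Sm (fun x => Real.exp (-w j x)) ∧ (∀ x, 1 / 2 ≤ Real.exp (-w j x)) ∧
        ∫ x, Real.exp (-w j x) ^ 2 ∂M.mu H ≤ C := by
  have k : (2 : ℝ) ≤ m := by exact_mod_cast h2
  have k0 : (0 : ℝ) < (m : ℝ) - 1 := by linarith
  have n0 : (1 : ℝ) ≤ n := Nat.one_le_cast.2 hn
  have it := (mMU n M H hH.toMet).2.2.2.2.1 ℝ
  obtain ⟨e₀, C, he₀, hC⟩ := hO.itg (2 * n * ((m : ℝ) - 1)) (by positivity)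
  obtain ⟨d, d0, d1, d2⟩ : ∃ d : ℝ, 0 < d ∧ d ≤ e₀ ∧ ((m : ℝ) - 1) * d ≤ 1 :=
    ⟨min e₀ (1 / ((m : ℝ) - 1)), by positivity, min_le_left _ _,
      (le_div_iff₀' k0).1 (min_le_right _ _)⟩
  have t : ∀ j : ℕ, 0 < d / (j + 1) ∧ d / (j + 1) ≤ d := fun j =>
    ⟨by positivity, div_le_self d0.le (by linarith [j.cast_nonneg (α := ℝ)])⟩
  have i : ∀ j : ℕ, d / (j + 1) ∈ Ioc (0 : ℝ) 1 := fun j => ⟨(t j).1, by nlinarith [t j]⟩
  have w0 : ∀ (j : ℕ) x, ((m : ℝ) - 1) * a (d / (j + 1)) x ≤ 0 := fun j x =>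
    mul_nonpos_of_nonneg_of_nonpos k0.le (hO.le _ (i j) x)
  have b : ∀ j : ℕ, ∫ x, Real.exp (-(2 * n * (((m : ℝ) - 1) * a (d / (j + 1)) x))) ∂M.mu H ≤ C :=
    fun j => by simpa only [mul_assoc] using hC _ (i j) ((t j).2.trans d1)
  refine ⟨C, fun j x => ((m : ℝ) - 1) * a (d / (j + 1)) x, fun j => ((m : ℝ) - 1) * (d / (j + 1)),
    fun j => ⟨⟨mul_pos k0 (t j).1, by nlinarith [t j]⟩, (hO.sm _ (i j)).const_mul _, w0 j,
      curv_le hH.toMet h2 (hO.sm _ (i j)) ?_, b j⟩, ?_, fun j => ?_⟩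
  · simpa only [om, zero_sub] using (hO.kae _ (i j)).toMet.nonneg
  · simpa only [mul_zero] using
      (tendsto_const_div_atTop_nhds_zero_nat d |>.comp (tendsto_add_atTop_nat 1)).const_mul
        ((m : ℝ) - 1) |>.congr fun j => by simp
  · have s := (hO.sm _ (i j)).const_mul ((m : ℝ) - 1)
    refine ⟨s.neg.exp, fun x => le_trans (by norm_num) (Real.one_le_exp (neg_nonneg.2 (w0 j x))),
      le_trans (integral_mono (it _ (s.neg.exp.pow 2).continuous)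
        (it _ (s.const_mul _).neg.exp.continuous) fun x => ?_) (b j)⟩
    beta_reduce
    rw [← Real.exp_nat_mul]
    exact Real.exp_le_exp.2 (by push_cast; nlinarith [w0 j x])

theorem WP.sml [M.Cpt] {m : ℕ} {F : ℕ → M.X → ℝ} {V : M.Fam (Fs n → ℂ)} {C : ℝ}
    (h : WP H (kan M m) (wk H m) F V) (hH : M.Kae H) (h2 : 2 ≤ m) (hV : HM M m V)
    (hF : ∀ j, M.Sm (F j) ∧ (∀ x, 1 / 2 ≤ F j x) ∧ ∫ x, F j x ^ 2 ∂M.mu H ≤ C) : Sml M H m V := by
  have hm := hH.toMet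
  have k : (2 : ℝ) ≤ m := by exact_mod_cast h2
  obtain ⟨B, B0, hB⟩ := h.sm hH (K3E.bKAN n M H m hm).1 (hm_iff.1 hV).1 hV.hol hF
  refine ⟨B, B0, fun ε u hε hu hle => ?_⟩
  have := hB (((m : ℝ) - 1) * ε) _ (mul_nonneg (by linarith) hε) (hu.const_mul _)
    (curv_le hm h2 hu hle)
  simp only [cu_curv hm m ε hu] at this
  rw [integral_const_mul, mul_left_comm] at this
  exact le_of_mul_le_mul_left this (by linarith)

end Pool.Agent.Lib.NU4.Fl
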