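import Pool.Agent.Lib.NU4.Pa37
import Pool.Agent.Lib.NU4.Flip71e
import Pool.Agent.Lib.NU4.Dv37
import Pool.Agent.Lib.NU4.B_KIT

/-! Project nu4: the pairing tends to zero. -/

open scoped Classical Topology ContDiff ComplexOrder Matrix
open Set MeasureTheory Complex Filter

noncomputable section

namespace Pool.Agent.Lib.NU4.Pa84

open Pool.Agent.Lib.SV (E)
open Pool.Agent.Lib.HS32 Pool.Agent.Lib.KP Pool.Agent.Lib.HLK Pool.Agent.Lib.F4
open Pool.Agent.Lib.EXH (aw)
open Pool.Agent.Lib.K3E (kan wk lk)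

theorem amg {f e t : ℝ} (ht : 0 < t) : f * e ≤ t * f ^ 2 + t * e ^ 4 + 1 / t ^ 3 := by
  have h1 : f * e ≤ t * f ^ 2 + e ^ 2 / t := by
    rw [← sub_nonneg, show t * f ^ 2 + e ^ 2 / t - f * e = ((t * f - e / 2) ^ 2 + 3 / 4 * e ^ 2) / t by
      field_simp; ring]
    positivity
  have h2 : e ^ 2 / t ≤ t * e ^ 4 + 1 / t ^ 3 := by
    rw [← sub_nonneg, show t * e ^ 4 + 1 / t ^ 3 - e ^ 2 / t =
      ((t ^ 2 * e ^ 2 - 1 / 2) ^ 2 + 3 / 4) / t ^ 3 by field_simp; ring]
    positivity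
  linarith

/-- A function with small support. -/
theorem small {X : Type} [MeasurableSpace X] {μ : Measure X} [IsFiniteMeasure μ] {f : X → ℂ}
    {e : X → ℝ} {S : Set X} {t : ℝ} (ht : 0 < t) (hS : MeasurableSet S) (h0 : ∀ x ∉ S, f x = 0)
    (e0 : ∀ x, 0 ≤ e x) (i2 : Integrable (fun x => ‖f x‖ ^ 2) μ)
    (i3 : Integrable (fun x => e x ^ 4) μ) :
    ‖∫ x, f x * e x ∂μ‖ ≤ t * ∫ x, ‖f x‖ ^ 2 ∂μ + t * ∫ x, e x ^ 4 ∂μ + 1 / t ^ 3 * μ.real S := by
  have i4 : Integrable (S.indicator fun _ => 1 / t ^ 3) μ := (integrable_const _).indicator hS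
  refine (norm_integral_le_of_norm_le (((i2.const_mul t).add (i3.const_mul t)).add i4)
    (Eventually.of_forall fun x => ?_)).trans_eq ?_
  · simp only [Pi.add_apply]
    by_cases h : x ∈ S
    · rw [indicator_of_mem h, norm_mul, norm_real, Real.norm_of_nonneg (e0 x)]
      exact amg ht
    · rw [indicator_of_notMem h, h0 x h, zero_mul, norm_zero]
      positivity
  · rw [integral_add' ((i2.const_mul t).add (i3.const_mul t)) i4,
      integral_add' (i2.const_mul t) (i3.const_mul t), integral_const_mul, integral_const_mul,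
      integral_indicator hS, setIntegral_const, smul_eq_mul, mul_comm (μ.real S)]

variable {n : ℕ} {M : Mf n} {H : M.Fam (Mat n)}

theorem sec_vac {m : ℕ} {f : M.Fam ℂ} (hf : M.All fun e z => ContDiffAt ℝ ∞ (f e) z)
    (hc : M.Ov fun e e' x => f e' (e' x) = jd M e e' x ^ m * f e (e x)) :
    (lk H m).Sec fun e z => f e z • vac n :=
  ⟨fun e he z hz => (hf e he z hz).smul contDiffAt_const, fun e he e' he' x hx hx' => by
    have hd : jd M e e' x ≠ 0 := ((mTR n M).2.1 e he e' he' x hx hx').2.1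
    have l : La (M.J e e' x) *ᵥ vac n = vac n := (st_FK n 0 0 0 _ 0 0).2.2.2.2.2.2.2.2.2.2.2.2.1
    change f e (e x) • vac n = ((jd M e e' x ^ m * 1)⁻¹ • La (M.J e e' x)) *ᵥ f e' (e' x) • vac n
    rw [mul_one, Matrix.smul_mulVec, Matrix.mulVec_smul, l, hc e he e' he' x hx hx', smul_smul,
      inv_mul_cancel_left₀ (pow_ne_zero _ hd)]⟩

theorem pa (hX : St_XS) (hQ : St_QQL) (hL : St_LG) : St_PA := by
  intro n M _ H a W V g b C cx hW hV hP hg nz hA hB
  have hH := cx.kae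
  have hm := hH.toMet
  have hφ := fun m => (K3E.bKAN n M H m hm).1
  obtain ⟨o3, l3, -⟩ := aLAM n M H _ _ hm (hφ 3)
  obtain ⟨o2, -, a2⟩ := aLAM n M H _ _ hm (hφ 2)
  have sg : (lk H 3).Sec g := (Fl.hm_iff.1 hg).1
  obtain ⟨nul, C1, C10, hC1⟩ := hL n M H _ _ g hH o3 l3 sg hg.hol nz
  have sν : M.Sm ((lk H 3).pn g) := (o3.pp_rep sg sg).2.re
  have ν0 : ∀ x, 0 ≤ (lk H 3).pn g x := Pre.pn_nonneg (g := ⟨H, lk H 3, hm, o3⟩) g
  have z0 : M.All fun e z => g e z = 0 → (lk H 3).pn g (e.symm z) = 0 := fun e he z hz h => by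
    have := congrArg re ((o3.pp_rep sg sg).1 e he z hz)
    simp only [h, Matrix.mulVec_zero, dotProduct_zero, zero_re] at this
    exact this
  generalize hν : (lk H 3).pn g = ν at *
  obtain ⟨x1, -, sx, -, -⟩ := hX n M H V hH hV
  have sW : (lk H 2).Sec (vec M W) := (Fl.hm_iff.1 ((st_KIT n M H 2 0 hm).2.1 W hW).1).1
  obtain ⟨χ, K, cχ, K0, b1, z1, o1, bK⟩ := D37.cut
  obtain ⟨K1, K10, hK1⟩ := (o2.pp_rep sW sx).2.exists_bound
  obtain ⟨-, fin, -, -, it, -⟩ := mMU n M H hm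
  obtain ⟨e₀, C4, he₀, hC4⟩ := cx.out.itg 4 (by norm_num)
  set s : M.Fam ℂ := fun e z => qq (V e) (a0 M H V e) z - qq (V e) (b e) z with hs
  have qb : M.All fun e z => ν (e.symm z) ≠ 0 → HolN (qq (V e) (b e)) z := fun e he z hz h => by
    have hb := hA.hol e he z hz fun c => h (z0 e he z hz c)
    have d : ∀ k, HolN (dz k (b e)) z := ((mHOL n _ z).2.2 hb).2.1
    filter_upwards [hb, eventually_all.2 d, eventually_all.2 (hV.hol e he z hz)] with w h1 h2 h3
    exact (DifferentiableAt.fun_sum fun k _ => (h3 k).mul (h2 k)).sub ((h1.pow 2).mul_const (2⁻¹ : ℂ))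
  have key : ∀ d : ℝ, 0 < d → ∃ σ, (lk H 2).Sec σ ∧ ∀ x,
      (2 * d < ν x → (lk H 2).pp (vec M W) (xq M H V) x - (lk H 2).pp (vec M W) ((oQ H).ap σ) x = 0) ∧
      ‖(lk H 2).pp (vec M W) (xq M H V) x - (lk H 2).pp (vec M W) ((oQ H).ap σ) x‖ ^ 2 ≤
        (8 * K1 ^ 2 + 4 * (K * C) ^ 2) + {x | d ≤ ν x ∧ ν x ≤ 2 * d}.indicator
          (fun x => 4 * (K * C) ^ 2 * (M.gr H ν ν x / ν x ^ 2)) x := fun d hd => by
    have sk : M.Sm fun x => χ (ν x / d) := sν.comp (φ := fun r => χ (r / d)) fun _ =>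
      cχ.contDiffAt.comp _ (contDiffAt_id.div_const d)
    have zk : M.All fun e z => ν (e.symm z) < d →
        (fun w => (χ (ν (e.symm w) / d) : ℂ) * s e w) =ᶠ[𝓝 z] fun _ => 0 := fun e he z hz h => by
      filter_upwards [(sν e he z hz).continuousAt.eventually_lt continuousAt_const h] with w hw
      rw [z1 _ ((div_le_one hd).2 (le_of_lt (show ν (e.symm w) < d from hw))), ofReal_zero, zero_mul]
    have sf : M.All fun e z => ContDiffAt ℝ ∞ (fun w => (χ (ν (e.symm w) / d) : ℂ) * s e w) z :=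
      fun e he z hz => by
        rcases lt_or_ge (ν (e.symm z)) d with h | h
        · exact contDiffAt_const.congr_of_eventuallyEq (zk e he z hz h)
        · exact (cd_ofReal (sk e he z hz)).mul ((x1 e he z hz).2.sub
            ((mHOL n _ z).2.2 (qb e he z hz (hd.trans_le h).ne')).1)
    refine ⟨_, sec_vac sf fun e he e' he' x hx hx' => ?_, fun x => ?_⟩
    · simp only [e.left_inv hx, e'.left_inv hx']
      by_cases h : ν x = 0
      · rw [h, zero_div, z1 0 zero_le_one, ofReal_zero, zero_mul, zero_mul, mul_zero]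
      · have := hQ n M H V _ _ g b hm hV o3 sg hA e he e' he' x hx hx' fun c =>
          h (by simpa only [e.left_inv hx] using z0 e he _ (e.map_source hx) c)
        simp only [hs]
        linear_combination (-χ (ν x / d) : ℂ) * this
    have z0' : M.Sm fun _ => (0 : ℝ) := Mf.sm_const 0
    have un : ∀ U, (lk H 2).pp (vec M W) U x = (lw M H 2 fun _ => 0).pp (vec M W) U x := fun U => by
      rw [show (lw M H 2 fun _ => 0).pp (vec M W) U x = _ from ((a2 _).2 (vec M W) U x).1]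
      simp
    have k1 := hK1 x
    have e1 := P37.ipq hX hH hV W (fun _ => 0) x
    have e2 := P37.ppq hm 2 (fun _ => 0) W _ sf x
    rw [← un] at e1 e2
    simp only [mul_zero, neg_zero, Real.exp_zero, ofReal_one, mul_one, Mf.ev] at e1 e2
    rcases lt_or_ge (ν x) d with h | h
    · have := zk.ch x (by rwa [Mf.ch_symm])
      have e3 : (lk H 2).pp (vec M W) ((oQ H).ap fun e z =>
          ((χ (ν (e.symm z) / d) : ℂ) * s e z) • vac n) x = 0 := by
        rw [e2, dir, Finset.sum_eq_zero fun k _ => by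
          rw [dz_congr (g := fun _ => 0) (this.mono fun w hw => by simp only [hw, star_zero]),
            dz_const, mul_zero], zero_div, star_zero]
      refine ⟨fun c => by linarith, ?_⟩
      rw [e3, sub_zero, indicator_of_notMem fun c => absurd c.1 (not_le.2 h), add_zero]
      nlinarith [pow_le_pow_left₀ (norm_nonneg _) k1 2, sq_nonneg K1, sq_nonneg (K * C)]
    have p : 0 < ν x := hd.trans_le h
    have hb := qb.ch x (by rw [Mf.ch_symm]; exact p.ne')
    have d1 := cd_diff (x1.ch x).2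
    have d2 : DifferentiableAt ℝ _ _ := hb.self_of_nhds.restrictScalars ℝ
    have d3 : DifferentiableAt ℝ (fun w => ν ((M.ch x).symm w)) (M.ch x x) := cd_diff (sν.ch x)
    have h1 : HasDerivAt (fun r => χ (r / d)) (deriv χ (ν x / d) * (1 / d))
        (ν ((M.ch x).symm (M.ch x x))) := by
      rw [Mf.ch_symm]
      exact ((cχ.differentiable (by simp)) _).hasDerivAt.comp (ν x) ((hasDerivAt_id (ν x)).div_const d)
    have e4 : ∀ k, dz k (fun w => star ((χ (ν ((M.ch x).symm w) / d) : ℂ) * s (M.ch x) w))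
        (M.ch x x) = (deriv χ (ν x / d) * (1 / d) : ℝ) * dz k (M.lc ν (M.ch x)) (M.ch x x) *
          star (s (M.ch x) (M.ch x x)) + χ (ν x / d) *
          dz k (fun w => star (qq (V (M.ch x)) (a0 M H V (M.ch x)) w)) (M.ch x x) := fun k => by
      have h2 := dz_comp_real (j := k) h1 d3
      have h3 := dz_mul (j := k) (cd_diff (cd_ofReal (sk.ch x))) (d1.fun_sub d2).star
      simp only [Function.comp_def] at h3
      rw [h2, Mf.ch_symm, dz_star (d1.fun_sub d2), dzb_sub d1 d2,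
        ((mHOL n _ _).1 d2).1 hb.self_of_nhds k, sub_zero, ← dz_star d1] at h3
      simp only [star_mul', RCLike.star_def, conj_ofReal] at h3 ⊢
      exact h3
    have e5 : (lk H 2).pp (vec M W) (xq M H V) x - (lk H 2).pp (vec M W) ((oQ H).ap fun e z =>
        ((χ (ν (e.symm z) / d) : ℂ) * s e z) • vac n) x =
        ((1 - χ (ν x / d) : ℝ) : ℂ) * (lk H 2).pp (vec M W) (xq M H V) x -
          (deriv χ (ν x / d) * (1 / d) : ℝ) * star (star (s (M.ch x) (M.ch x x)) *
            dir (W (M.ch x)) (M.lc ν (M.ch x)) (M.ch x x) / (H (M.ch x) (M.ch x x)).det ^ 2) := by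
      rw [e2, e1]
      simp only [dir, e4]
      simp only [mul_add, Finset.sum_add_distrib, ← mul_assoc]
      have u1 : ∀ (c : ℂ) (p q : Fin n → ℂ), ∑ k, p k * c * q k = c * ∑ k, p k * q k := fun c p q => by
        rw [Finset.mul_sum]; exact Finset.sum_congr rfl fun k _ => by ring
      rw [← Finset.sum_mul, u1, u1]
      simp only [add_div, star_add, star_div₀, star_mul', RCLike.star_def, conj_ofReal, ofReal_sub,
        ofReal_one]
      ring
    rw [e5]
    have far : 2 * d < ν x → ((1 - χ (ν x / d) : ℝ) : ℂ) = 0 ∧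
        ((deriv χ (ν x / d) * (1 / d) : ℝ) : ℂ) = 0 := fun c => by
      obtain ⟨c1, c2⟩ := o1 _ ((lt_div_iff₀ hd).2 c)
      simp only [c1, c2, sub_self, zero_mul, ofReal_zero, and_self]
    refine ⟨fun c => by rw [(far c).1, (far c).2, zero_mul, zero_mul, sub_zero], ?_⟩
    rcases lt_or_ge (2 * d) (ν x) with c | c
    · rw [(far c).1, (far c).2, zero_mul, zero_mul, sub_zero, norm_zero,
        indicator_of_notMem fun c' => absurd c'.2 (not_le.2 c)]
      nlinarith [sq_nonneg K1, sq_nonneg (K * C)]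
    rw [indicator_of_mem (show x ∈ {x | d ≤ ν x ∧ ν x ≤ 2 * d} from ⟨h, c⟩)]
    have q1 := hB.ch x fun c => p.ne' (by simpa only [Mf.ch_symm] using z0.ch x c)
    have D := Mf.pd_det_re (hm.pos.ch x)
    have g0 : 0 ≤ M.gr H ν ν x := (((mLAP n M ν ν sν sν).2.2 H hm).2.2.1 x 0).2.2.2.2.2.2.1
    simp only [Mf.ch_symm] at q1
    have q2 : ‖star (star (s (M.ch x) (M.ch x x)) * dir (W (M.ch x)) (M.lc ν (M.ch x)) (M.ch x x) /
        (H (M.ch x) (M.ch x x)).det ^ 2)‖ ≤ C * (ν x + √(M.gr H ν ν x)) := by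
      rw [norm_star, norm_div, norm_mul, norm_star, norm_pow, ← Mf.herm_det (hm.herm.ch x),
        norm_real, Real.norm_of_nonneg D.le, div_le_iff₀ (by positivity)]
      exact q1.trans_eq (by ring)
    have q3 : ‖((deriv χ (ν x / d) * (1 / d) : ℝ) : ℂ)‖ ≤ K / ν x := by
      have := bK _ (div_pos p hd).le
      rw [norm_real, Real.norm_eq_abs, le_div_iff₀ p, ← abs_of_pos p, ← abs_mul, abs_of_pos p]
      exact le_of_eq_of_le (congrArg _ (by ring)) this
    have q4 : ‖((1 - χ (ν x / d) : ℝ) : ℂ)‖ ≤ 2 := by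
      rw [norm_real, Real.norm_eq_abs]
      exact (abs_sub _ _).trans (by linarith [b1 (ν x / d), abs_one (α := ℝ)])
    have q5 := (norm_mul_le _ _).trans (mul_le_mul q4 k1 (norm_nonneg _) two_pos.le)
    have q6 := (norm_mul_le _ _).trans (mul_le_mul q3 q2 (norm_nonneg _) (by positivity))
    have q7 := pow_le_pow_left₀ (norm_nonneg _) ((norm_sub_le _ _).trans (add_le_add q5 q6)) 2
    refine q7.trans ?_
    have r : M.gr H ν ν x / ν x ^ 2 = (√(M.gr H ν ν x) / ν x) ^ 2 := by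
      rw [div_pow, Real.sq_sqrt g0]
    rw [r, show K / ν x * (C * (ν x + √(M.gr H ν ν x))) =
      K * C + K * C * (√(M.gr H ν ν x) / ν x) by field_simp]
    generalize √(M.gr H ν ν x) / ν x = y
    generalize K * C = c
    nlinarith [sq_nonneg (2 * K1 - (c + c * y)), sq_nonneg (c - c * y)]
  set A := (8 * K1 ^ 2 + 4 * (K * C) ^ 2) * (M.mu H).real univ + 4 * (K * C) ^ 2 * C1 with hA'
  have mS : ∀ d : ℝ, MeasurableSet {x | ν x ≤ d} := fun d =>
    measurableSet_le sν.continuous.measurable measurable_const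
  have lim : Tendsto (fun j : ℕ => (M.mu H).real {x | ν x ≤ 2 * (1 / ((j : ℝ) + 1))}) atTop (𝓝 0) := by
    have t := tendsto_measure_iInter_atTop (μ := M.mu H)
      (s := fun j : ℕ => {x | ν x ≤ 2 * (1 / ((j : ℝ) + 1))}) (fun j => (mS _).nullMeasurableSet)
      (fun i j hij x (hx : ν x ≤ _) => show ν x ≤ _ from le_trans hx (mul_le_mul_of_nonneg_left
        (Nat.one_div_le_one_div hij) two_pos.le)) ⟨0, measure_ne_top _ _⟩
    have e : M.mu H (⋂ j : ℕ, {x | ν x ≤ 2 * (1 / ((j : ℝ) + 1))}) = 0 :=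
      measure_mono_null (fun x hx => by
        have l := (tendsto_one_div_add_atTop_nhds_zero_nat (𝕜 := ℝ)).const_mul 2
        rw [mul_zero] at l
        exact le_antisymm (ge_of_tendsto' l fun j => mem_iInter.1 hx j) (ν0 x)) nul
    rw [e] at t
    exact (ENNReal.tendsto_toReal ENNReal.zero_ne_top).comp t
  refine tendsto_zero_iff_norm_tendsto_zero.2 (tendsto_order.2 ⟨fun r hr =>
    Eventually.of_forall fun ε => hr.trans_le (norm_nonneg _), fun η hη => ?_⟩)
  obtain ⟨t, t0, t1⟩ : ∃ t : ℝ, 0 < t ∧ t * (|A| + |C4|) < η / 3 := by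
    refine ⟨η / 3 / (|A| + |C4| + 1), by positivity, ?_⟩
    rw [div_mul_eq_mul_div, div_lt_iff₀ (by positivity)]
    nlinarith
  obtain ⟨j, hj⟩ := ((tendsto_order.1 (lim.const_mul (1 / t ^ 3))).2 (η / 3)
    (by rw [mul_zero]; positivity)).exists
  have hd : (0 : ℝ) < 1 / ((j : ℝ) + 1) := by positivity
  generalize 1 / ((j : ℝ) + 1) = d at hj hd
  obtain ⟨σ, sσ, hσ⟩ := key d hd
  have sQ := (aSQ n M H _ _ σ hm sσ).1
  have cf := (o2.pp_rep sW sx).2.continuous.sub (o2.pp_rep sW sQ).2.continuous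
  have cS : IsClosed {x | d ≤ ν x ∧ ν x ≤ 2 * d} :=
    (isClosed_le continuous_const sν.continuous).inter (isClosed_le sν.continuous continuous_const)
  have iS : IntegrableOn (fun x => M.gr H ν ν x / ν x ^ 2) {x | d ≤ ν x ∧ ν x ≤ 2 * d} (M.mu H) :=
    ((((mLAP n M ν ν sν sν).2.2 H hm).2.1.continuous.continuousOn).div
      (sν.continuous.pow 2).continuousOn fun x hx => pow_ne_zero _ (hd.trans_le hx.1).ne'
      ).integrableOn_compact cS.isCompact
  have iI := (integrable_indicator_iff cS.measurableSet).2 (iS.const_mul (4 * (K * C) ^ 2))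
  have bA : ∫ x, ‖(lk H 2).pp (vec M W) (xq M H V) x -
      (lk H 2).pp (vec M W) ((oQ H).ap σ) x‖ ^ 2 ∂M.mu H ≤ A := by
    refine (integral_mono (it ℝ _ (cf.norm.pow 2)) ((integrable_const _).add iI)
      fun x => (hσ x).2).trans ?_
    simp only [Pi.add_apply]
    rw [integral_add (integrable_const _) iI, integral_const, smul_eq_mul, mul_comm,
      integral_indicator cS.measurableSet, integral_const_mul]
    exact add_le_add le_rfl (mul_le_mul_of_nonneg_left (hC1 d hd).2 (by positivity))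
  obtain ⟨B, B0, hBd⟩ := (o2.pp_rep sσ sσ).2.re.exists_bound
  have tP := (hP 1).const_mul (2 * √B)
  rw [mul_zero] at tP
  filter_upwards [(tendsto_order.1 tP).2 (η / 3) (by positivity),
    Ioc_mem_nhdsGT (lt_min he₀ one_pos)] with ε h1 h2
  have hε : ε ∈ Ioc (0 : ℝ) 1 := ⟨h2.1, h2.2.trans (min_le_right _ _)⟩
  have su := cx.out.sm ε hε
  have sv := su.const_mul (((2 : ℕ) : ℝ) - 1)
  obtain ⟨hψ, -⟩ := (a2 _).1 sv
  have ee : ∀ x, -((((2 : ℕ) : ℝ) - 1) * a ε x) = -a ε x := fun x => by push_cast; ring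
  have ipw : ∀ U U', (lw M H 2 (a ε)).ip H U U' =
      ∫ x, (lk H 2).pp U U' x * (Real.exp (-a ε x) : ℝ) ∂M.mu H := fun U U' =>
    integral_congr_ae (Eventually.of_forall fun x => by
      have := ((a2 fun x => (((2 : ℕ) : ℝ) - 1) * a ε x).2 U U' x).1
      simp only [ee] at this
      exact this)
  have ce := su.neg.exp.continuous
  have s1 := small (μ := M.mu H) (e := fun x => Real.exp (-a ε x)) t0 (mS (2 * d))
    (fun x hx => (hσ x).1 (not_le.1 hx)) (fun x => (Real.exp_pos _).le) (it ℝ _ (cf.norm.pow 2))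
    (it ℝ _ (ce.pow 4))
  have s2 : ∫ x, Real.exp (-a ε x) ^ 4 ∂M.mu H ≤ C4 := by
    simpa only [← Real.exp_nat_mul, Nat.cast_ofNat, mul_neg] using
      hC4 ε hε (h2.2.trans (min_le_left _ _))
  have sP := aSP n M H _ _ (vec M W) hm hψ ⟨sW.sm, sW.cmp⟩
  have sP' : (lk H 2).Sec ((oP H (wt M H 2 (a ε))).ap (vec M W)) := ⟨sP.sm, sP.cmp⟩
  have ic := fun {U U'} (h : (lk H 2).Sec U) (h' : (lk H 2).Sec U') =>
    it ℂ _ ((o2.pp_rep h h').2.continuous.mul (continuous_ofReal.comp ce))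
  let G : Geo M (Fs n) := ⟨H, lk H 2, hm, o2⟩
  have s3 : ‖(lw M H 2 (a ε)).ip H (vec M W) ((oQ H).ap σ)‖ ≤ 2 * √B * ∫ x,
      Real.exp (-(1 * a ε x)) * √((lk H 2).pn ((oP H (wt M H 2 (a ε))).ap (vec M W)) x) ∂M.mu H := by
    have ad := aADJ n M H _ _ σ (vec M W) hH hψ ⟨sσ.sm, sσ.cmp⟩ ⟨sW.sm, sW.cmp⟩
    obtain ⟨o1', -, -⟩ := aLAM n M H _ _ hm hψ
    let G1 : Geo M (Fs n) := ⟨H, lw M H 2 (a ε), hm, o1'⟩
    have cj := norm_inner_symm (𝕜 := ℂ) (Pre.mk (g := G1) (vec M W) ⟨sW.sm, sW.cmp⟩)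
      (Pre.mk (g := G1) ((oQ H).ap σ) ⟨sQ.sm, sQ.cmp⟩)
    refine (cj.trans ((congrArg norm ad).trans (norm_neg _))).trans_le ?_
    change ‖(lw M H 2 (a ε)).ip H σ ((oP H (wt M H 2 (a ε))).ap (vec M W))‖ ≤ _
    rw [ipw, ← integral_const_mul]
    refine norm_integral_le_of_norm_le ((it ℝ _ ((su.const_mul 1).neg.exp.continuous.mul
      (o2.pp_rep sP' sP').2.re.continuous.sqrt)).const_mul _) (Eventually.of_forall fun x => ?_)
    have c1 := Fl.pcs G σ ((oP H (wt M H 2 (a ε))).ap (vec M W)) x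
    have c2 := Fl.pcs G (I • σ) ((oP H (wt M H 2 (a ε))).ap (vec M W)) x
    have c3 : G.b.pp (I • σ) ((oP H (wt M H 2 (a ε))).ap (vec M W)) x =
        -I * G.b.pp σ ((oP H (wt M H 2 (a ε))).ap (vec M W)) x := by
      simp only [Bun.pp, Mf.ev, Pi.smul_apply, star_smul, smul_dotProduct, smul_eq_mul,
        RCLike.star_def, conj_I]
    have c4 : G.b.pn (I • σ) x = G.b.pn σ x := by
      simp only [Bun.pn, Bun.pp, Mf.ev, Pi.smul_apply, star_smul, smul_dotProduct, smul_eq_mul,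
        RCLike.star_def, conj_I, Matrix.mulVec_smul, dotProduct_smul, ← mul_assoc, neg_mul,
        mul_neg, I_mul_I, neg_neg, one_mul]
    have c5 : √(G.b.pn σ x) ≤ √B := Real.sqrt_le_sqrt ((le_abs_self _).trans (hBd x))
    rw [c3, c4] at c2
    simp only [neg_mul, neg_re, mul_re, I_re, I_im, zero_mul, one_mul, zero_sub, neg_neg] at c2
    have c6 := mul_le_mul_of_nonneg_right c5 (Real.sqrt_nonneg
      (G.b.pn ((oP H (wt M H 2 (a ε))).ap (vec M W)) x))
    have c7 := norm_le_abs_re_add_abs_im (G.b.pp σ ((oP H (wt M H 2 (a ε))).ap (vec M W)) x)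
    rw [norm_mul, norm_real, Real.norm_of_nonneg (Real.exp_pos _).le, one_mul, mul_left_comm,
      mul_comm]
    exact mul_le_mul_of_nonneg_left (c7.trans (by
      change _ ≤ 2 * √B * √(G.b.pn _ x)
      linarith)) (Real.exp_pos _).le
  have s4 : (lw M H 2 (a ε)).ip H (vec M W) (xq M H V) =
      (∫ x, ((lk H 2).pp (vec M W) (xq M H V) x - (lk H 2).pp (vec M W) ((oQ H).ap σ) x) *
        (Real.exp (-a ε x) : ℝ) ∂M.mu H) + (lw M H 2 (a ε)).ip H (vec M W) ((oQ H).ap σ) := by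
    simp only [ipw, sub_mul]
    exact (eq_add_of_sub_eq (integral_sub (ic sW sx) (ic sW sQ)).symm)
  rw [s4]
  have := mul_le_mul_of_nonneg_left (bA.trans (le_abs_self A)) t0.le
  have := mul_le_mul_of_nonneg_left (s2.trans (le_abs_self C4)) t0.le
  refine (norm_add_le _ _).trans_lt ?_
  linarith

end Pool.Agent.Lib.NU4.Pa84
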