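import Pool.Agent.Lib.NU4.Blue
import Pool.Agent.Lib.HLK.All0
import Pool.Agent.Lib.K3E.B_KAN
import Pool.Agent.Lib.F4.D_SB1

/-! Project nu4: the product with a function, the contraction with a gradient and the weighted
divergence, in the charts. -/

open scoped Classical Topology ContDiff ComplexOrder Matrix
open Set Filter MeasureTheory

set_option linter.unusedVariables false

noncomputable section

namespace Pool.Agent.Lib.NU4

open Pool.Agent.Lib.SV (E)
open Pool.Agent.Lib.HS32 Pool.Agent.Lib.HLK Pool.Agent.Lib.F4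
open Pool.Agent.Lib.K3E (kan wk lk)
open Pool.Agent.Lib.KP.T60 (phC)

namespace I20

variable {n : ℕ} {M : Mf n}

theorem anv_mv (a : E n) (W : Fs n → ℂ) : anv a *ᵥ W = ∑ k, a k • (an k *ᵥ W) := by
  simp only [anv, Matrix.sum_mulVec, Matrix.smul_mulVec]

theorem op_ap (H : M.Fam (Mat n)) (φ : M.Fam ℝ) (W : M.Fam (Fs n → ℂ)) (e : M.Ch) (z : E n) :
    (oP H φ).ap W e z =
      pf0 (W e) z - anv (gd (fun w => (phC M H φ e w : ℂ)) z) *ᵥ W e z := by
  simp only [Op.ap, oP, pf0, anv, gd, Matrix.zero_mulVec, add_zero, Matrix.neg_mulVec,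
    sub_eq_add_neg]

theorem pf0_smul {f : E n → ℂ} {W : E n → Fs n → ℂ} {z : E n} (hf : DifferentiableAt ℝ f z)
    (hW : ContDiffAt ℝ ∞ W z) :
    pf0 (fun w => f w • W w) z = f z • pf0 W z + anv (gd f z) *ᵥ W z := by
  have e1 : ∀ k, dzv k (fun w => f w • W w) z = f z • dzv k W z + dz k f z • W z := fun k =>
    funext fun i => by
      have := dz_mul (j := k) hf (cd_diff (contDiffAt_pi.1 hW i))
      simp only [dzv, Pi.smul_apply, Pi.add_apply, smul_eq_mul]
      rw [this]; ring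
  simp only [pf0, e1, anv_mv, gd, Matrix.mulVec_add, Matrix.mulVec_smul, Finset.sum_add_distrib,
    Finset.smul_sum]

theorem sec_sm (b : Bun M (Fs n)) {W : M.Fam (Fs n → ℂ)} {F : M.X → ℝ} (hF : M.Sm F)
    (hW : b.Sec W) : b.Sec (sm M F W) where
  sm e he z hz := (hF.lc e he z hz).smul (hW.sm e he z hz)
  cmp e he e' he' x hx hx' := by
    simp only [sm, e.left_inv hx, e'.left_inv hx', Matrix.mulVec_smul]
    rw [← hW.cmp e he e' he' x hx hx']

theorem gd_cmp {v : M.X → ℝ} (hv : M.Sm v) : M.Ov fun e e' x =>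
    gd (M.lc v e) (e x) ᵥ* M.J e e' x = gd (M.lc v e') (e' x) := fun e he e' he' x hx hx' => by
  have h := (LD.SB2.sec (H := 0) hv).cmp e' he' e he x hx' hx
  simp only [LD.SB2.cot, Matrix.mulVec_transpose] at h
  exact h.symm

theorem sec_iot (hFK : St_FK) (H : M.Fam (Mat n)) (L : M.Co) (φ : M.Fam ℝ)
    {W : M.Fam (Fs n → ℂ)} {v : M.X → ℝ} (hv : M.Sm v) (hW : (lam H L φ).Sec W) :
    (lam H L φ).Sec (iot M v W) where
  sm e he z hz := by
    have e1 : iot M v W e = fun w => ∑ k, dz k (M.lc v e) w • (an k *ᵥ W e w) :=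
      funext fun w => anv_mv _ _
    beta_reduce
    rw [e1]
    refine ContDiffAt.sum fun k _ => (cd_dz (hv.lc e he z hz) k).smul (contDiffAt_pi.2 fun A => ?_)
    simp only [Matrix.mulVec, dotProduct]
    exact ContDiffAt.sum fun B _ => contDiffAt_const.mul (contDiffAt_pi.1 (hW.sm e he z hz) B)
  cmp e he e' he' x hx hx' := by
    have h1 := hW.cmp e he e' he' x hx hx'
    have h2 := (hFK n 0 0 (gd (M.lc v e) (e x)) (M.J e e' x) 0 0).2.2.2.2.1
    rw [gd_cmp hv e he e' he' x hx hx'] at h2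
    simp only [iot, lam] at h1 ⊢
    rw [h1, Matrix.smul_mulVec, Matrix.smul_mulVec, Matrix.mulVec_smul, Matrix.mulVec_mulVec,
      Matrix.mulVec_mulVec, h2]

theorem gr_eq (H : M.Fam (Mat n)) {v : M.X → ℝ} (hv : M.Sm v) (x : M.X) : M.gr H v v x =
    (p1 (M.ev H x) (gd (M.lc v (M.ch x)) (M.ch x x)) (gd (M.lc v (M.ch x)) (M.ch x x))).re := by
  rw [← LD.SB2.pn_eq (H := H) hv]
  simp only [Bun.pn, Bun.pp, Mf.ev, LD.SB2.cot, p1]
  rw [Matrix.mulVec_transpose, dotProduct_comm, ← Matrix.dotProduct_mulVec]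
  rfl

end I20

open I20 in
theorem ibp20 (hKIT : St_KIT) (hFK : St_FK) (hPW : St_PW) (n : ℕ) (M : Mf n) [M.Cpt]
    (H : M.Fam (Mat n)) (m : ℕ) (W : M.Fam (Fs n → ℂ)) (F v : M.X → ℝ) (hK : M.Kae H)
    (hF : M.Sm F) (hv : M.Sm v) (hW : (lk H m).Sec W) :
    (lk H m).Sec (iot M v W) ∧ (lk H m).Sec (sm M F W) ∧ (lk H m).Sec (P0 M H m W) ∧
    (M.All fun e z => P0 M H m (sm M F W) e z = sm M F (P0 M H m W) e z + iot M F W e z ∧
      (oP H (wt M H m v)).ap W e z = P0 M H m W e z - ((m : ℂ) - 1) • iot M v W e z ∧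
      P0 M H m W e z = pf0 (W e) z - ((m : ℂ) - 1) • anv (gd (ld (H e)) z) *ᵥ W e z) ∧
    (∀ x, (lk H m).pn (iot M v W) x ≤ M.gr H v v x * (lk H m).pn W x) := by
  have hH : M.Met H := hK.toMet
  refine ⟨sec_iot hFK _ _ _ hv hW, sec_sm _ hF hW,
    aSP n M H _ _ W hH (K3E.bKAN n M H m hH).1 hW, fun e he z hz => ?_, fun x => ?_⟩
  · have hl : DifferentiableAt ℝ (ld (H e)) z :=
      cd_diff (cd_ofReal ((mINV n M H hH).2.2.2.2.2.2.1.sm e he z hz))
    have hc := cd_diff (hv.lc e he z hz)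
    have a1 : (fun w => (phC M H (wk H m) e w : ℂ)) = fun w => ((m : ℂ) - 1) * ld (H e) w :=
      funext fun w => by simp only [phC, wk, ld]; push_cast; ring
    have a2 : (fun w => (phC M H (wt M H m v) e w : ℂ)) =
        fun w => ((m : ℂ) - 1) * (ld (H e) w + M.lc v e w) :=
      funext fun w => by
        simp only [phC, wt, EXH.aw, wk, ld, Mf.lc, Pi.add_apply]; push_cast; ring
    have g1 : gd (fun w => (phC M H (wk H m) e w : ℂ)) z = ((m : ℂ) - 1) • gd (ld (H e)) z :=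
      funext fun k => by rw [a1]; exact dz_const_mul _ hl
    have g2 : gd (fun w => (phC M H (wt M H m v) e w : ℂ)) z =
        ((m : ℂ) - 1) • (gd (ld (H e)) z + gd (M.lc v e) z) :=
      funext fun k => by
        rw [a2]
        exact (dz_const_mul _ (hl.add hc)).trans (congrArg _ (dz_add hl hc))
    have s1 := fun (a : E n) (c : ℂ) => (hFK n a 0 0 0 c 0).2.2.2.2.2.2.2.2.2.2.1
    have s2 := fun a b : E n => (hFK n a b 0 0 0 0).2.2.2.2.2.2.2.2.1
    refine ⟨?_, ?_, ?_⟩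
    · have p := pf0_smul (cd_diff (hF.lc e he z hz)) (hW.sm e he z hz)
      have e1 : sm M F W e = fun w => M.lc F e w • W e w := rfl
      have e2 : ∀ U, sm M F U e z = M.lc F e z • U e z := fun _ => rfl
      rw [P0, P0, e2, op_ap, op_ap, e1, p, iot, Matrix.mulVec_smul, smul_sub]
      abel
    · rw [P0, op_ap, op_ap, g1, g2, s1, s1, s2, iot, smul_add, Matrix.add_mulVec,
        Matrix.smul_mulVec, Matrix.smul_mulVec]
      abel
    · rw [P0, op_ap, g1, s1, Matrix.smul_mulVec]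
  · have hp := hH.pos.ch x
    have hd : 0 < (M.ev H x).det.re ^ m := pow_pos (Complex.pos_iff.1 hp.det_pos).1 m
    rw [((hKIT n M H m _ hH).2.2.2.2.2.1 x).1, ((hKIT n M H m W hH).2.2.2.2.2.1 x).1,
      gr_eq H hv x, ← mul_div_assoc]
    exact div_le_div_of_nonneg_right (hPW n _ 0 0 _ _ hp).2.2.2.1 hd.le

end Pool.Agent.Lib.NU4
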