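import Pool.Agent.Lib.NU4.Blue
import Pool.Agent.Lib.KT.B_LAM
import Pool.Agent.Lib.F4.R_HV

/-! Project nu4: multivectors with two slots give tensors. -/

open scoped Classical Topology Matrix Kronecker
open Set Filter

noncomputable section

namespace Pool.Agent.Lib.NU4.I69

open Pool.Agent.Lib.SV (E)
open Pool.Agent.Lib.HS32 Pool.Agent.Lib.HLK Pool.Agent.Lib.F4
open Pool.Agent.Lib.RAA (kp kq)
open Pool.Agent.Lib.K3E (Tw kan wk)
open Pool.Agent.Lib.KT.LAM (P row)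

variable {n : ℕ} (A B : Fs n)

/-- The components of the tensor. -/
def cp (w : Fs n × Fs n → ℂ) (K : Fin (A.card + B.card) → Fin n) : ℂ :=
  ∑ p : Fs n × Fs n, La (P A fun a => K (Fin.castAdd _ a)) A p.1 *
    La (P B fun b => K (Fin.natAdd _ b)) B p.2 * w p

theorem law (g : Mat n) (w : Fs n × Fs n → ℂ) :
    cp A B ((La g ⊗ₖ La g) *ᵥ w) = kp (A.card + B.card) g *ᵥ cp A B w := by
  funext K
  have e : cp A B ((La g ⊗ₖ La g) *ᵥ w) K = ∑ p : Fs n × Fs n,
      La (P A (fun a => K (Fin.castAdd _ a)) * g) A p.1 *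
        La (P B (fun b => K (Fin.natAdd _ b)) * g) B p.2 * w p := by
    have := congrFun (Matrix.mulVec_mulVec w (La (P A fun a => K (Fin.castAdd _ a)) ⊗ₖ
      La (P B fun b => K (Fin.natAdd _ b))) (La g ⊗ₖ La g)) (A, B)
    rw [← Matrix.mul_kronecker_mul, ← ((st_FK2 st_FK1 n).2 _).2.2.1,
      ← ((st_FK2 st_FK1 n).2 _).2.2.1] at this
    exact this
  rw [e]
  simp only [Matrix.mulVec, dotProduct, kp, kq, Matrix.of_apply, cp, row A _ g, row B _ g,
    Finset.mul_sum]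
  rw [Finset.sum_comm]
  refine Finset.sum_congr rfl fun p _ => ?_
  rw [← (Fin.appendEquiv A.card B.card).sum_comp, Fintype.sum_prod_type_right, Finset.sum_mul]
  refine Finset.sum_congr rfl fun J _ => ?_
  rw [Finset.sum_mul, Finset.sum_mul]
  refine Finset.sum_congr rfl fun J' _ => ?_
  simp only [Fin.prod_univ_add, Fin.appendEquiv_apply, Fin.append_left, Fin.append_right]
  ring

theorem self (w : Fs n × Fs n → ℂ) :
    cp A B w (Fin.append (A.orderEmbOfFin rfl) (B.orderEmbOfFin rfl)) = w (A, B) := by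
  have h : ∀ A C : Fs n, La (P A (A.orderEmbOfFin rfl)) A C = (1 : Mx (Fs n)) A C := fun A C => by
    rw [← mul_one (P A _), KT.LAM.la, ← (st_FK2 st_FK1 n).1]
    rfl
  simp only [cp, Fin.append_left, Fin.append_right, h, Fintype.sum_prod_type]
  simp [Matrix.one_apply]

theorem two {M : Mf n} {m : ℕ} {h : M.Fam (Fs n × Fs n → ℂ)} (hh : HM2 M m h) (nz : Nz h) :
    ∃ q ≤ n + n, ∃ s : M.Fam ((Fin q → Fin n) → ℂ), Tw M (fun e e' x => kp q (M.J e e' x)) m s := by
  obtain ⟨e₀, he₀, z₀, hz₀, k⟩ := nz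
  obtain ⟨⟨A, B⟩, hA⟩ := Function.ne_iff.1 k
  refine ⟨A.card + B.card, add_le_add (by simpa using A.card_le_univ)
    (by simpa using B.card_le_univ), fun e z => cp A B (h e z), fun e he z hz I => ?_,
    ⟨e₀, he₀, z₀, hz₀, fun c => hA ?_⟩, fun e he e' he' x hx hx' => ?_⟩
  · have : ∀ᶠ w in 𝓝 z, ∀ j, DifferentiableAt ℂ (fun y => h e y j) w :=
      eventually_all.2 fun j => hh.hol e he z hz j
    filter_upwards [this] with w hw
    exact DifferentiableAt.fun_sum fun p _ => (hw p).const_mul _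
  · exact (self A B (h e₀ z₀)).symm.trans (congrFun c _)
  · beta_reduce
    rw [← law, hh.cmp e he e' he' x hx hx']
    funext I
    simp only [cp, Pi.smul_apply, smul_eq_mul, Finset.mul_sum, jd]
    exact Finset.sum_congr rfl fun p _ => by ring

theorem core (hK : St_KIT) {M : Mf n} [M.Cpt] {H : M.Fam (Mat n)} {a : ℝ → M.X → ℝ}
    (hc : Cx M H a) (hk : ∀ q, {a | ∃ s : M.Fam ((Fin q → Fin n) → ℂ),
      Tw M (fun e e' x => kp q (M.J e e' x)) a s}.Finite)
    (hL : {a | ∃ W, Tw M (fun e e' x => La (M.J e e' x)) a W}.Finite) :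
    {m | ∃ W, HM M m W ∧ Nz W}.Finite ∧ {m | ∃ h, HM2 M m h ∧ Nz h}.Finite ∧
      {m | Ah H (kan M m) (wk H m)}.Finite := by
  have f1 : {m | ∃ W, HM M m W ∧ Nz W}.Finite :=
    hL.subset fun m ⟨W, w, nz⟩ => ⟨W, w.hol, nz, w.cmp⟩
  refine ⟨f1, ((finite_Iic (n + n)).biUnion fun q _ => hk q).subset fun m ⟨h, hh, nz⟩ => ?_,
    ((finite_Iio 2).union f1).subset fun m hm => ?_⟩
  · obtain ⟨q, hq, s⟩ := two hh nz
    exact mem_biUnion hq s
  · by_contra c
    simp only [mem_union, mem_Iio, not_or, not_lt] at c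
    obtain ⟨k, rfl⟩ := Nat.exists_eq_add_of_le' c.1
    exact (R.st_HV n M H a k hc.n0 hc.kae hc.out).2 (fun Y y1 y2 y3 =>
      c.2 ⟨Y, (hK n M H _ Y hc.kae.toMet).1.2 ⟨y1, y2⟩, y3⟩) hm

end Pool.Agent.Lib.NU4.I69
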