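import Pool.Agent.Lib.NU4.Defs

/-! Project nu4: local bounds for the derivative of a norm along a field. -/

open scoped Classical Topology ContDiff ComplexOrder Matrix
open Set Filter

set_option linter.unusedVariables false
set_option linter.unusedSectionVars false

noncomputable section

namespace Pool.Agent.Lib.NU4.P56

open Pool.Agent.Lib.SV (E)
open Pool.Agent.Lib.HS32 Pool.Agent.Lib.HLK Pool.Agent.Lib.F4

variable {n : ℕ} {σ : Type} [Fintype σ] [DecidableEq σ]

theorem up (T : Mx σ) (x : σ → ℂ) : ‖star x ⬝ᵥ T *ᵥ x‖ ≤ (∑ i, ∑ j, ‖T i j‖) * ‖x‖ ^ 2 := by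
  simp only [dotProduct, Matrix.mulVec, Finset.mul_sum, Finset.sum_mul]
  refine (norm_sum_le _ _).trans (Finset.sum_le_sum fun i _ =>
    (norm_sum_le _ _).trans (Finset.sum_le_sum fun j _ => ?_))
  rw [norm_mul, norm_mul, Pi.star_apply, norm_star]
  have a := norm_le_pi_norm x i
  have b := norm_le_pi_norm x j
  have c : ‖x i‖ * ‖x j‖ ≤ ‖x‖ ^ 2 := by
    rw [sq]; exact mul_le_mul a b (norm_nonneg _) (norm_nonneg _)
  nlinarith [norm_nonneg (T i j)]

theorem low {G : Mx σ} (h : G.PosDef) :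
    ∃ m : ℝ, 0 < m ∧ ∀ x : σ → ℂ, m * ‖x‖ ^ 2 ≤ (star x ⬝ᵥ G *ᵥ x).re := by
  have c : Continuous fun x : σ → ℂ => (star x ⬝ᵥ G *ᵥ x).re :=
    Complex.continuous_re.comp (continuous_star.dotProduct (continuous_const.matrix_mulVec
      continuous_id))
  obtain ⟨m, m0, hm⟩ := (isCompact_sphere (0 : σ → ℂ) 1).exists_forall_le' (a := 0) c.continuousOn
    fun x hx => h.re_dotProduct_pos (by
      rintro rfl
      simp at hx)
  refine ⟨m, m0, fun x => ?_⟩
  rcases eq_or_ne x 0 with rfl | h0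
  · simp
  have n0 : 0 < ‖x‖ := norm_pos_iff.2 h0
  have := hm (‖x‖⁻¹ • x) (by simp [norm_smul, n0.ne'])
  simp only [star_smul, star_trivial, Matrix.mulVec_smul, smul_dotProduct, dotProduct_smul,
    Complex.real_smul, Complex.re_ofReal_mul] at this
  have e := mul_le_mul_of_nonneg_right this (sq_nonneg ‖x‖)
  refine e.trans (le_of_eq ?_)
  field_simp

theorem quad {Y : Type} [TopologicalSpace Y] {T G : Y → Mx σ} {p : Y}
    (hT : ∀ i j, ContinuousAt (fun z => T z i j) p) (hG : ∀ i j, ContinuousAt (fun z => G z i j) p)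
    (h : (G p).PosDef) : ∃ C : ℝ, 0 ≤ C ∧ ∀ᶠ z in 𝓝 p, ∀ x : σ → ℂ,
      ‖star x ⬝ᵥ T z *ᵥ x‖ ≤ C * (star x ⬝ᵥ G z *ᵥ x).re := by
  obtain ⟨m, m0, hm⟩ := low h
  have c1 : ContinuousAt (fun z => ∑ i, ∑ j, ‖T z i j‖) p :=
    tendsto_finsetSum _ fun i _ => tendsto_finsetSum _ fun j _ => (hT i j).norm
  have c2 : ContinuousAt (fun z => ∑ i, ∑ j, ‖(G p - G z) i j‖) p :=
    tendsto_finsetSum _ fun i _ => tendsto_finsetSum _ fun j _ =>
      (continuousAt_const.sub (hG i j)).norm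
  set K := ∑ i, ∑ j, ‖T p i j‖ + 1 with hK
  have K0 : 0 ≤ K := by positivity
  refine ⟨K * (2 / m), by positivity, ?_⟩
  filter_upwards [c1.eventually_lt continuousAt_const (lt_add_one _),
    c2.eventually_lt (continuousAt_const (y := m / 2)) (by simpa using m0)] with z h1 h2 x
  have a := up (T z) x
  have b := (Complex.re_le_norm _).trans (up (G p - G z) x)
  rw [Matrix.sub_mulVec, dotProduct_sub, Complex.sub_re] at b
  have s := sq_nonneg ‖x‖
  have d : m / 2 * ‖x‖ ^ 2 ≤ (star x ⬝ᵥ G z *ᵥ x).re := by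
    nlinarith [hm x, mul_le_mul_of_nonneg_right h2.le s]
  have e : ‖x‖ ^ 2 ≤ 2 / m * (star x ⬝ᵥ G z *ᵥ x).re := by
    have := mul_le_mul_of_nonneg_left d (show 0 ≤ 2 / m by positivity)
    refine le_trans (le_of_eq ?_) this
    field_simp
  rw [mul_assoc]
  exact a.trans ((mul_le_mul_of_nonneg_right h1.le s).trans (mul_le_mul_of_nonneg_left e K0))

theorem hsm {f : E n → ℂ} {z : E n} (h : HolN f z) : ContDiffAt ℝ ∞ f z :=
  ((mHOL n f z).2.2 h).1

theorem dir_form {G : E n → Mx σ} {g : E n → σ → ℂ} (U : E n → E n) {z : E n}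
    (hG : ∀ i j, DifferentiableAt ℝ (fun w => G w i j) z) (hg : HolV g z) :
    dir U (fun w => star (g w) ⬝ᵥ G w *ᵥ g w) z =
      star (g z) ⬝ᵥ (Matrix.of fun i j => dir U (fun w => G w i j) z) *ᵥ g z +
        star (g z) ⬝ᵥ G z *ᵥ dirv U g z := by
  have d := fun i => cd_diff (hsm (hg i))
  have e : ∀ k, dz k (fun w => star (g w) ⬝ᵥ G w *ᵥ g w) z = ∑ i, ∑ j, star (g z i) *
      (dz k (fun w => G w i j) z * g z j + G z i j * dz k (fun w => g w j) z) := fun k => by
    simp only [dotProduct, Matrix.mulVec, Pi.star_apply, Finset.mul_sum]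
    rw [dz_sum fun i _ => DifferentiableAt.fun_sum fun j _ =>
      (diff_star (d i)).fun_mul ((hG i j).fun_mul (d j))]
    refine Finset.sum_congr rfl fun i _ => ?_
    rw [dz_sum fun j _ => (diff_star (d i)).fun_mul ((hG i j).fun_mul (d j))]
    refine Finset.sum_congr rfl fun j _ => ?_
    rw [dz_mul (diff_star (d i)) ((hG i j).fun_mul (d j)), dz_star (d i), dz_mul (hG i j) (d j),
      ((mHOL n _ z).1 (d i)).1 (hg i).self_of_nhds, star_zero, zero_mul, zero_add]
  simp only [dir, e]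
  simp only [dirv, dir, dotProduct, Matrix.mulVec, Matrix.of_apply, Pi.star_apply, Finset.mul_sum,
    Finset.sum_mul, ← Finset.sum_add_distrib]
  rw [Finset.sum_comm]
  refine Finset.sum_congr rfl fun i _ => ?_
  rw [Finset.sum_comm]
  exact Finset.sum_congr rfl fun j _ => Finset.sum_congr rfl fun k _ => by ring

theorem dir_congr {U : E n → E n} {f g : E n → ℂ} {z : E n} (e : f =ᶠ[𝓝 z] g) :
    dir U f z = dir U g z := by simp only [dir, dz_congr e]

theorem dir_cont {U : E n → E n} {f : E n → ℂ} {p : E n}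
    (hU : ∀ i, ContinuousAt (fun w => U w i) p) (hf : ContDiffAt ℝ ∞ f p) :
    ContinuousAt (dir U f) p :=
  tendsto_finsetSum _ fun k _ => (hU k).mul (cd_dz hf k).continuousAt

/-- The derivative of the norm. -/
theorem loc1 {G A : E n → Mx σ} {g : E n → σ → ℂ} {U : E n → E n} {ρ : E n → ℝ} {p : E n}
    (hG : SmX G p) (pos : (G p).PosDef) (hg : ∀ᶠ z in 𝓝 p, HolV g z)
    (hU : ∀ i, ContinuousAt (fun w => U w i) p) (hA : ∀ i j, ContinuousAt (fun w => A w i j) p)
    (hρ : ∀ᶠ w in 𝓝 p, (ρ w : ℂ) = star (g w) ⬝ᵥ G w *ᵥ g w) :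
    ∃ C : ℝ, 0 ≤ C ∧ ∀ᶠ z in 𝓝 p, ∀ c : ℂ, dirv U g z = c • g z + A z *ᵥ g z →
      ‖dir U (fun w => (ρ w : ℂ)) z - c * ρ z‖ ≤ C * ρ z := by
  obtain ⟨C, C0, hC⟩ := quad (p := p) (G := G)
    (T := fun z => (Matrix.of fun i j => dir U (fun w => G w i j) z) + G z * A z)
    (fun i j => (dir_cont hU (hG i j)).add (by
      simp only [Matrix.mul_apply]
      exact tendsto_finsetSum _ fun k _ => (hG i k).continuousAt.mul (hA k j)))
    (fun i j => (hG i j).continuousAt) pos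
  refine ⟨C, C0, ?_⟩
  filter_upwards [hC, hg, hρ.eventually_nhds,
    eventually_all.2 fun i => eventually_all.2 fun j => cd_ev_diff (hG i j)] with z h1 h2 h3 h4 c hc
  have h5 := h1 (g z)
  rw [← h3.self_of_nhds, Complex.ofReal_re] at h5
  refine le_trans (le_of_eq (congrArg _ ?_)) h5
  rw [dir_congr h3, dir_form U h4 h2, hc, h3.self_of_nhds]
  simp only [Matrix.add_mulVec, Matrix.mulVec_add, Matrix.mulVec_smul, dotProduct_add,
    dotProduct_smul, smul_eq_mul, Matrix.mulVec_mulVec]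
  ring

/-- The derivative along a field is bounded by the gradient. -/
theorem loc2 {H : E n → Mat n} {U : E n → E n} {p : E n} (hH : SmM H p) (pos : (H p).PosDef)
    (hU : ∀ i, ContinuousAt (fun w => U w i) p) : ∃ C : ℝ, 0 ≤ C ∧ ∀ᶠ z in 𝓝 p, ∀ u : E n → ℝ,
      DifferentiableAt ℝ (fun w => (u w : ℂ)) z → ‖dir U (fun w => (u w : ℂ)) z‖ ≤
        C * √((H z)⁻¹ * dd (fun w => (u w : ℂ)) (fun w => (u w : ℂ)) z).trace.re := by
  obtain ⟨C, C0, hC⟩ := quad (p := p) (G := fun z => (H z)⁻¹)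
    (T := fun z => Matrix.of fun i j => U z i * star (U z j))
    (fun i j => (hU i).mul (hU j).star)
    (fun i j => (hH.inv (Mf.pd_det_ne pos) i j).continuousAt) pos.inv
  refine ⟨√C, Real.sqrt_nonneg _, hC.mono fun z h u hu => ?_⟩
  have h1 := h (star fun j => dz j (fun w => (u w : ℂ)) z)
  have e1 : star (star fun j => dz j (fun w => (u w : ℂ)) z) ⬝ᵥ
      (Matrix.of fun i j => U z i * star (U z j)) *ᵥ (star fun j => dz j (fun w => (u w : ℂ)) z) =
      dir U (fun w => (u w : ℂ)) z * star (dir U (fun w => (u w : ℂ)) z) := by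
    simp only [dir, dotProduct, Matrix.mulVec, Matrix.of_apply, Pi.star_apply, star_star, star_sum,
      star_mul', Finset.mul_sum, Finset.sum_mul]
    rw [Finset.sum_comm]
    exact Finset.sum_congr rfl fun i _ => Finset.sum_congr rfl fun j _ => by ring
  have e2 : star (star fun j => dz j (fun w => (u w : ℂ)) z) ⬝ᵥ
      (H z)⁻¹ *ᵥ (star fun j => dz j (fun w => (u w : ℂ)) z) =
      ((H z)⁻¹ * dd (fun w => (u w : ℂ)) (fun w => (u w : ℂ)) z).trace := by
    simp only [dd, dotProduct, Matrix.mulVec, Matrix.of_apply, Pi.star_apply, star_dzb_ofReal hu,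
      Matrix.trace, Matrix.diag, Matrix.mul_apply, Finset.mul_sum, star_dz_ofReal hu]
    exact Finset.sum_congr rfl fun i _ => Finset.sum_congr rfl fun j _ => by ring
  rw [e1, e2, norm_mul, norm_star, ← sq] at h1
  rw [← Real.sqrt_mul C0]
  exact Real.le_sqrt_of_sq_le h1

/-- From local constants to a global constant. -/
theorem glob {Y : Type} [TopologicalSpace Y] [CompactSpace Y] (P : ℝ → Y → Prop)
    (mono : ∀ C C' x, C ≤ C' → P C x → P C' x) (loc : ∀ x, ∃ C, ∀ᶠ y in 𝓝 x, P C y) :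
    ∃ C, ∀ x, P C x := by
  have := isCompact_univ.induction_on (p := fun s : Set Y => ∃ C, ∀ x ∈ s, P C x)
    ⟨0, fun x h => h.elim⟩ (fun s t h ⟨C, hC⟩ => ⟨C, fun x hx => hC x (h hx)⟩)
    (fun s t ⟨C, hC⟩ ⟨D, hD⟩ => ⟨max C D, fun x hx => hx.elim
      (fun h => mono _ _ x (le_max_left _ _) (hC x h)) fun h => mono _ _ x (le_max_right _ _) (hD x h)⟩)
    fun x _ => by
      obtain ⟨C, hC⟩ := loc x
      exact ⟨_, mem_nhdsWithin_of_mem_nhds hC, C, fun y hy => hy⟩
  obtain ⟨C, hC⟩ := this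
  exact ⟨C, fun x => hC x (mem_univ x)⟩

end Pool.Agent.Lib.NU4.P56
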