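import Pool.Agent.Lib.NU4.Blue

/-! Project nu4, row ALG: proportional multivectors. -/

open scoped Classical Matrix

noncomputable section

namespace Pool.Agent.Lib.NU4

open Pool.Agent.Lib.SV (E)
open Pool.Agent.Lib.HS32 Pool.Agent.Lib.HLK Pool.Agent.Lib.F4

namespace ALG

variable {n : ℕ}

/-- A component of the product with a fixed multivector is a covector. -/
theorem cov (ρ : Fs n → ℂ) (A : Fs n) (c : ℂ) :
    ∃ a : E n, ∀ x : E n, a ⬝ᵥ x = c * (crv x *ᵥ ρ) A := by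
  refine ⟨fun k => c * (cr k *ᵥ ρ) A, fun x => ?_⟩
  simp only [crv, Matrix.sum_mulVec, Matrix.smul_mulVec, Finset.sum_apply, Pi.smul_apply,
    smul_eq_mul, dotProduct, Finset.mul_sum]
  exact Finset.sum_congr rfl fun k _ => by ring

theorem swap (hF : St_FK) (v w : E n) (W : Fs n → ℂ) :
    crv v *ᵥ crv w *ᵥ W = -(crv w *ᵥ crv v *ᵥ W) := by
  have h := (hF n v w 0 0 0 0).1
  rw [Matrix.mulVec_mulVec, Matrix.mulVec_mulVec, h, Matrix.neg_mulVec]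

theorem sq0 (hF : St_FK) (v : E n) (W : Fs n → ℂ) : crv v *ᵥ crv v *ᵥ W = 0 := by
  have h := (hF n v v 0 0 0 0).2.1
  rw [Matrix.mulVec_mulVec, h, Matrix.zero_mulVec]

theorem car (hF : St_FK) (a v : E n) (W : Fs n → ℂ) :
    anv a *ᵥ crv v *ᵥ W = (a ⬝ᵥ v) • W - crv v *ᵥ anv a *ᵥ W := by
  have h := congrArg (· *ᵥ W) (hF n v v a 0 0 0).2.2.1
  simp only [Matrix.add_mulVec, Matrix.smul_mulVec, Matrix.one_mulVec,
    ← Matrix.mulVec_mulVec] at h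
  rw [← h]; abel

theorem avac (hF : St_FK) (a : E n) : anv a *ᵥ vac n = 0 :=
  (hF n 0 0 a 0 0 0).2.2.2.2.2.2.2.2.2.2.2.1

theorem dga (hF : St_FK) (a : E n) {q : ℕ} {W : Fs n → ℂ} (h : Dg (q + 1) W) :
    Dg q (anv a *ᵥ W) :=
  ((hF n 0 0 a 0 0 W).2.2.2.2.2.2.2.2.2.2.2.2.2.2.2.2.2.2.2.2 (q + 1) h).2.2.1

theorem dg0 (hF : St_FK) {W : Fs n → ℂ} (h : Dg 0 W) : W = W ∅ • vac n :=
  (hF n 0 0 0 0 0 W).2.2.2.2.2.2.2.2.2.2.2.2.2.2.2.2.1 h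

theorem dg1 (hF : St_FK) {W : Fs n → ℂ} (h : Dg 1 W) : W = crv (fun k => W {k}) *ᵥ vac n :=
  (hF n 0 0 0 0 0 W).2.2.2.2.2.2.2.2.2.2.2.2.2.2.2.2.2.1 h

/-- Division by a vector. -/
theorem div (hF : St_FK) {a w : E n} {W : Fs n → ℂ} (ha : a ⬝ᵥ w = 1) (h : crv w *ᵥ W = 0) :
    W = crv w *ᵥ anv a *ᵥ W := by
  have h1 := car hF a w W
  rw [h, Matrix.mulVec_zero, ha, one_smul] at h1
  exact sub_eq_zero.mp h1.symm

theorem two (hF : St_FK) (w y : E n) (π : Fs n → ℂ) (hπ : Dg 2 π) (hw : crv w *ᵥ π = 0)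
    (hy : crv y *ᵥ π = 0) : Pr (crv w *ᵥ crv y *ᵥ vac n) π := by
  by_cases h0 : crv w *ᵥ crv y *ᵥ vac n = 0
  · intro I J; simp [h0]
  obtain ⟨A, hA⟩ := Function.ne_iff.mp h0
  rw [Pi.zero_apply] at hA
  obtain ⟨a, ha⟩ := cov (crv y *ᵥ vac n) A ((crv w *ᵥ crv y *ᵥ vac n) A)⁻¹
  obtain ⟨b, hb⟩ := cov (crv w *ᵥ vac n) A (-((crv w *ᵥ crv y *ᵥ vac n) A)⁻¹)
  have haw : a ⬝ᵥ w = 1 := by rw [ha, inv_mul_cancel₀ hA]
  have hay : a ⬝ᵥ y = 0 := by rw [ha, sq0 hF, Pi.zero_apply, mul_zero]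
  have hby : b ⬝ᵥ y = 1 := by
    rw [hb, swap hF y w, Pi.neg_apply, neg_mul_neg, inv_mul_cancel₀ hA]
  have h1 := div hF haw hw
  have h2 := div hF hby hy
  have h3 : anv a *ᵥ π = -(crv y *ᵥ anv a *ᵥ anv b *ᵥ π) := by
    conv_lhs => rw [h2]
    rw [car hF, hay, zero_smul, zero_sub]
  have h4 := dg0 hF (dga hF a (dga hF b hπ))
  rw [h3, h4, Matrix.mulVec_neg, Matrix.mulVec_smul, Matrix.mulVec_smul] at h1
  generalize (anv a *ᵥ anv b *ᵥ π) ∅ = c at h1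
  intro I J
  rw [h1]
  simp only [Pi.neg_apply, Pi.smul_apply, smul_eq_mul]
  ring

theorem par (w y v : E n) (hw : w ≠ 0) (hy : wg w y = 0) (hv : wg w v = 0) : wg y v = 0 := by
  obtain ⟨k, hk⟩ := Function.ne_iff.mp hw
  rw [Pi.zero_apply] at hk
  ext i j
  have a1 := congrFun (congrFun hy k) i
  have a2 := congrFun (congrFun hy k) j
  have a3 := congrFun (congrFun hv k) i
  have a4 := congrFun (congrFun hv k) j
  simp only [wg, Matrix.of_apply, Matrix.zero_apply] at a1 a2 a3 a4 ⊢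
  apply mul_left_cancel₀ (mul_ne_zero hk hk)
  linear_combination (w k * v j) * a1 + (y k * w i) * a4 - (w k * y j) * a3 - (v k * w i) * a2

theorem three (hF : St_FK) (w y v : E n) (π : Fs n → ℂ) (hπ : Dg 2 π) (hw : w ≠ 0)
    (h1 : crv w *ᵥ π = 0) (h2 : crv v *ᵥ π ≠ 0) (h3 : crv v *ᵥ crv y *ᵥ π = 0) :
    ∃ c : ℂ, crv y *ᵥ π = c • crv v *ᵥ π := by
  obtain ⟨k, hk⟩ := Function.ne_iff.mp hw
  rw [Pi.zero_apply] at hk
  have hb : (Pi.single k (w k)⁻¹ : E n) ⬝ᵥ w = 1 := by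
    rw [single_dotProduct, inv_mul_cancel₀ hk]
  have h4 := div hF hb h1
  rw [dg1 hF (dga hF _ hπ)] at h4
  generalize (fun j => (anv (Pi.single k (w k)⁻¹ : E n) *ᵥ π) {j}) = u at h4
  obtain ⟨A, hA⟩ := Function.ne_iff.mp h2
  rw [Pi.zero_apply] at hA
  obtain ⟨a, ha⟩ := cov π A ((crv v *ᵥ π) A)⁻¹
  have hav : a ⬝ᵥ v = 1 := by rw [ha, inv_mul_cancel₀ hA]
  have haw : a ⬝ᵥ w = 0 := by rw [ha, h1, Pi.zero_apply, mul_zero]
  have hau : a ⬝ᵥ u = 0 := by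
    have : crv u *ᵥ π = 0 := by
      rw [h4, swap hF u w, sq0 hF, Matrix.mulVec_zero, neg_zero]
    rw [ha, this, Pi.zero_apply, mul_zero]
  have h5 : anv a *ᵥ π = 0 := by
    rw [h4, car hF, car hF, haw, hau, avac hF]
    simp
  have h6 : crv y *ᵥ crv v *ᵥ π = 0 := by rw [swap hF, h3, neg_zero]
  have h7 := car hF a y (crv v *ᵥ π)
  rw [h6, car hF a v, hav, h5, Matrix.mulVec_zero, Matrix.mulVec_zero, one_smul, sub_zero] at h7
  exact ⟨a ⬝ᵥ y, (sub_eq_zero.mp h7.symm).symm⟩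

end ALG

theorem st_ALG (hF : St_FK) : St_ALG :=
  ⟨fun _ w y v π => ⟨ALG.two hF w y π, ALG.par w y v⟩,
    fun w y v π => ALG.three hF w y v π⟩

end Pool.Agent.Lib.NU4
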