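import Pool.Agent.Lib.NU4.B_FK

/-! Project nu4: the pairing with the obstruction and the weighted divergence of a field, in
coordinates. -/

open scoped Classical Topology ContDiff ComplexOrder Matrix
open Set Filter MeasureTheory

set_option linter.unusedVariables false

noncomputable section

namespace Pool.Agent.Lib.NU4.P37

open Pool.Agent.Lib.SV (E)
open Pool.Agent.Lib.HS32 Pool.Agent.Lib.HLK Pool.Agent.Lib.F4
open Pool.Agent.Lib.K3E (kan wk lk)

variable {n : ℕ}

theorem an_cr (a v : E n) : anv a *ᵥ crv v *ᵥ vac n = (a ⬝ᵥ v) • vac n := by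
  obtain ⟨-, -, h, -, -, -, -, -, -, -, -, h0, -⟩ := st_FK n v v a 0 0 0
  rw [Matrix.mulVec_mulVec, eq_sub_of_add_eq h, Matrix.sub_mulVec, ← Matrix.mulVec_mulVec, h0,
    Matrix.mulVec_zero, sub_zero, Matrix.smul_mulVec, Matrix.one_mulVec]

theorem vac_vac : star (vac n) ⬝ᵥ vac n = 1 := by
  simp [vac, dotProduct, Pi.single_apply]

theorem pair (G : Mat n) (w y : E n) :
    star (crv w *ᵥ vac n) ⬝ᵥ La G *ᵥ crv y *ᵥ vac n = star w ⬝ᵥ G *ᵥ y := by
  obtain ⟨-, -, -, h, -, -, -, -, -, -, -, -, h0, -⟩ := st_FK n y y 0 G 0 0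
  have c : (crv w)ᴴ = anv (star w) := W98.cv_ct w
  rw [Matrix.mulVec_mulVec, h, ← Matrix.mulVec_mulVec, h0, Matrix.star_mulVec,
    ← Matrix.dotProduct_mulVec, c, an_cr, dotProduct_smul, vac_vac, smul_eq_mul, mul_one]

theorem oq_vac {M : Mf n} (H : M.Fam (Mat n)) (f : M.Fam ℂ) (e : M.Ch) (z : E n)
    (hf : DifferentiableAt ℝ (f e) z) : (oQ H).ap (fun e z => f e z • vac n) e z =
      crv ((H e z)⁻¹ *ᵥ fun l => dzb l (f e) z) *ᵥ vac n := by
  have a : ∀ l, dzbv l (fun z => f e z • vac n) z = dzb l (f e) z • vac n := fun l =>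
    funext fun i => by
      have := dzb_mul (j := l) hf (differentiableAt_const (vac n i))
      rw [dzb_const, mul_zero, add_zero] at this
      exact this
  have b : (oQ H).ap (fun e z => f e z • vac n) e z =
      ∑ l, ∑ k, (dzb l (f e) z * (H e z)⁻¹ k l) • cr k *ᵥ vac n := by
    simp only [Op.ap, oQ, Matrix.zero_mulVec, zero_add, add_zero, a, Matrix.sum_mulVec,
      Matrix.smul_mulVec, Matrix.mulVec_smul, Finset.smul_sum, smul_smul, smul_zero]
  rw [b, Finset.sum_comm, crv, Matrix.sum_mulVec]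
  refine Finset.sum_congr rfl fun k _ => ?_
  rw [← Finset.sum_smul, Matrix.smul_mulVec]
  congr 1
  exact Finset.sum_congr rfl fun l _ => mul_comm _ _

theorem exp_wt {M : Mf n} {H : M.Fam (Mat n)} (hH : M.Met H) (m : ℕ) (u : M.X → ℝ) :
    M.All fun e z => ((Real.exp (-wt M H m u e z) : ℝ) : ℂ) =
      (Real.exp (-((m - 1) * u (e.symm z))) : ℝ) / (H e z).det ^ m := fun e he z hz => by
  have p := Mf.pd_det_re (hH.pos e he z hz)
  have : wt M H m u e z = m * Real.log (H e z).det.re + (m - 1) * u (e.symm z) := rfl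
  beta_reduce
  rw [this, neg_add, Real.exp_add, Real.exp_neg, Real.exp_nat_mul, Real.exp_log p,
    Complex.ofReal_mul, Complex.ofReal_inv, Complex.ofReal_pow, Mf.herm_det (hH.herm e he z hz),
    mul_comm, div_eq_mul_inv]

/-- The pairing of a field and of the image of a section. -/
theorem ppq {M : Mf n} {H : M.Fam (Mat n)} (hH : M.Met H) (m : ℕ) (u : M.X → ℝ)
    (W : M.Fam (E n)) (f : M.Fam ℂ) (hf : M.All fun e z => ContDiffAt ℝ ∞ (f e) z) (x : M.X) :
    (lw M H m u).pp (vec M W) ((oQ H).ap fun e z => f e z • vac n) x =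
      star (M.ev (fun e z => dir (W e) (fun w => star (f e w)) z / (H e z).det ^ m) x) *
        (Real.exp (-((m - 1) * u x)) : ℝ) := by
  have a := oq_vac H f _ _ (cd_diff (hf.ch x))
  have b := (exp_wt hH m u).ch x
  have d := hH.det_ne.ch x
  have c : star (H (M.ch x) (M.ch x x)).det = (H (M.ch x) (M.ch x x)).det := by
    rw [← Matrix.det_conjTranspose, (hH.herm.ch x).eq]
  rw [Mf.ch_symm] at b
  simp only [Bun.pp, Mf.ev, lam, vec, a, Matrix.smul_mulVec, dotProduct_smul, pair, b]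
  simp only [Matrix.mulVec_mulVec, Matrix.mul_nonsing_inv _ (isUnit_iff_ne_zero.2 d), Matrix.one_mulVec,
    star_div₀, star_pow, c, dir, dz_star (cd_diff (hf.ch x)), star_sum, star_mul', star_star,
    smul_eq_mul]
  simp only [dotProduct, Pi.star_apply]
  ring

/-- The pairing with the obstruction. -/
theorem ipq (hX : St_XS) {M : Mf n} {H : M.Fam (Mat n)} (hH : M.Kae H) {V : M.Fam (E n)}
    (hV : HT M 1 V) (W : M.Fam (E n)) (u : M.X → ℝ) (x : M.X) :
    (lw M H 2 u).pp (vec M W) (xq M H V) x =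
      star (M.ev (fun e z => dir (W e) (fun w => star (qq (V e) (a0 M H V e) w)) z /
        (H e z).det ^ 2) x) * (Real.exp (-u x) : ℝ) := by
  have := ppq hH.toMet 2 u W (fun e => qq (V e) (a0 M H V e))
    (fun e he z hz => ((hX n M H V hH hV).1 e he z hz).2) x
  rwa [show -((((2 : ℕ) : ℝ) - 1) * u x) = -u x by push_cast; ring] at this

/-- The weighted divergence of a field. -/
theorem op_vec {M : Mf n} {H : M.Fam (Mat n)} (hH : M.Met H) (m : ℕ) {u : M.X → ℝ} (su : M.Sm u)
    {W : M.Fam (E n)} (sW : M.All fun e z => ∀ i, ContDiffAt ℝ ∞ (fun w => W e w i) z) :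
    M.All fun e z => (oP H (wt M H m u)).ap (vec M W) e z = (dv (W e) z - ((m : ℂ) - 1) *
      dir (W e) (fun w => ((ph M H e w + u (e.symm w) : ℝ) : ℂ)) z) • vac n := fun e he z hz => by
  have wt1 : M.Wt 1 (ph M H) := (mINV n M H hH).2.2.2.2.2.2.1
  have s1 : DifferentiableAt ℝ (fun w => ((ph M H e w + u (e.symm w) : ℝ) : ℂ)) z :=
    cd_diff (cd_ofReal ((wt1.sm e he z hz).add (su e he z hz)))
  have a : ∀ k, dzv k (vec M W e) z = crv (fun j => dz k (fun w => W e w j) z) *ᵥ vac n :=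
    fun k => funext fun i => by
      have := dz_sum (j := k) (s := Finset.univ)
        (f := fun j w => W e w j * (cr j *ᵥ vac n) i) (z := z) fun j _ =>
          (cd_diff (sW e he z hz j)).mul (differentiableAt_const _)
      simp only [dz_mul (cd_diff (sW e he z hz _)) (differentiableAt_const _), dz_const, mul_zero,
        add_zero] at this
      simp only [dzv, vec, crv, Matrix.sum_mulVec, Matrix.smul_mulVec, Finset.sum_apply,
        Pi.smul_apply, smul_eq_mul, this]
  have b : ∀ k, dz k (fun w => (KP.T60.phC M H (wt M H m u) e w : ℂ)) z =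
      ((m : ℂ) - 1) * dz k (fun w => ((ph M H e w + u (e.symm w) : ℝ) : ℂ)) z := fun k => by
    rw [← dz_const_mul _ s1]
    congr 1
    funext w
    simp only [KP.T60.phC, wt, EXH.aw, wk, ph, Pi.add_apply]
    push_cast
    ring
  have c : ∀ (k : Fin n) (y : E n), an k *ᵥ crv y *ᵥ vac n = y k • vac n := fun k y => by
    have := an_cr (Pi.single k 1) y
    rwa [show anv (Pi.single k 1) = an k by simp [anv, Pi.single_apply], single_dotProduct,
      one_mul] at this
  simp only [Op.ap, oP, Matrix.zero_mulVec, add_zero, a, b, c, Matrix.neg_mulVec,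
    Matrix.sum_mulVec, Matrix.smul_mulVec, vec, smul_smul, ← Finset.sum_smul, dv, dir,
    Finset.mul_sum]
  rw [← sub_eq_add_neg, ← sub_smul]
  congr 2
  exact Finset.sum_congr rfl fun k _ => by ring

/-- The norm of the weighted divergence at the level two. -/
theorem sq_pn {M : Mf n} {H : M.Fam (Mat n)} (hH : M.Met H) {u : M.X → ℝ} (su : M.Sm u)
    {W : M.Fam (E n)} (hW : HT M 2 W) (x : M.X) :
    √((lk H 2).pn ((oP H (wt M H 2 u)).ap (vec M W)) x) = M.ev (fun e z => ‖dv (W e) z -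
      dir (W e) (fun w => ((ph M H e w + u (e.symm w) : ℝ) : ℂ)) z‖ / (H e z).det.re) x := by
  have a := (op_vec hH 2 su (W := W) fun e he z hz i =>
    ((mHOL n _ z).2.2 (hW.hol e he z hz i)).1).ch x
  have p := Mf.pd_det_re (hH.pos.ch x)
  have l : La (H (M.ch x) (M.ch x x)) *ᵥ vac n = vac n :=
    (st_FK n 0 0 0 _ 0 0).2.2.2.2.2.2.2.2.2.2.2.2.1
  rw [show (((2 : ℕ) : ℂ) - 1) = 1 by norm_num, one_mul] at a
  simp only [Bun.pn, Bun.pp, Mf.ev, lam, a, Matrix.smul_mulVec, Matrix.mulVec_smul, l, star_smul,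
    smul_dotProduct, dotProduct_smul, vac_vac, smul_eq_mul, mul_one, wk]
  generalize dv (W (M.ch x)) (M.ch x x) - _ = y
  rw [Real.sqrt_eq_iff_mul_self_eq _ (by positivity), Real.exp_neg, Real.exp_nat_mul,
    Real.exp_log p, mul_left_comm, Complex.star_def, Complex.mul_conj,
    ← Complex.ofReal_mul, Complex.ofReal_re, Complex.normSq_eq_norm_sq]
  · field_simp
  · rw [mul_left_comm, Complex.star_def, Complex.mul_conj,
      ← Complex.ofReal_mul, Complex.ofReal_re]
    exact mul_nonneg (Real.exp_pos _).le (Complex.normSq_nonneg _)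

/-- The scalar form of the parallelism. -/
theorem parS {M : Mf n} {H : M.Fam (Mat n)} {a : ℝ → M.X → ℝ} (hC : Cx M H a) {W : M.Fam (E n)}
    (hW : HT M 2 W) (hP : Par M H a 2 (vec M W)) (c : ℝ) :
    Tendsto (fun ε => ∫ x, Real.exp (-(c * a ε x)) * M.ev (fun e z => ‖dv (W e) z -
      dir (W e) (fun w => ((ph M H e w + a ε (e.symm w) : ℝ) : ℂ)) z‖ / (H e z).det.re) x
      ∂M.mu H) (𝓝[>] 0) (𝓝 0) :=
  (hP c).congr' (Filter.mem_of_superset (Ioc_mem_nhdsGT one_pos) fun ε hε => by
    simp only [mem_ofPred_eq, sq_pn hC.kae.toMet (hC.out.sm ε hε) hW])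

end Pool.Agent.Lib.NU4.P37
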