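import Pool.Agent.Lib.NU4.Blue
import Pool.Agent.Lib.NU4.Pb56a

/-! Project nu4: two holomorphic multiples of a field and the derivative of a bivector. -/

open scoped Classical Topology ContDiff ComplexOrder Matrix
open Set Filter

set_option linter.unusedVariables false

noncomputable section

namespace Pool.Agent.Lib.NU4.P56

open Pool.Agent.Lib.SV (E)
open Pool.Agent.Lib.HS32 Pool.Agent.Lib.HLK Pool.Agent.Lib.F4

variable {n : ℕ} {w v U : E n → E n} {f : E n → ℂ} {z : E n} {O : Set (E n)}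

/-- The product of two fields. -/
def bv (w v : E n → E n) (z : E n) : Fs n → ℂ := crv (w z) *ᵥ crv (v z) *ᵥ vac n

/-- The corrected bracket. -/
def yc (w v : E n → E n) (z : E n) : E n := br w v z - dv w z • v z

theorem hc (c : ℂ) : HolN (fun _ : E n => c) z := Eventually.of_forall fun _ =>
  differentiableAt_const _

theorem hvac : HolV (fun _ : E n => vac n) z := fun _ => hc _

theorem hmul {f g : E n → ℂ} (hf : HolN f z) (hg : HolN g z) : HolN (fun y => f y * g y) z :=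
  (hf.and hg).mono fun _ h => h.1.mul h.2

theorem hadd {f g : E n → ℂ} (hf : HolN f z) (hg : HolN g z) : HolN (fun y => f y + g y) z :=
  (hf.and hg).mono fun _ h => h.1.add h.2

theorem hsub {f g : E n → ℂ} (hf : HolN f z) (hg : HolN g z) : HolN (fun y => f y - g y) z :=
  (hf.and hg).mono fun _ h => h.1.sub h.2

theorem br_congr {U' : E n → E n} (e : U =ᶠ[𝓝 z] U') : br v U z = br v U' z := by
  funext i
  have : (fun y => U y i) =ᶠ[𝓝 z] fun y => U' y i := e.mono fun y h => congrFun h i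
  simp only [br, dirv, dir, Pi.sub_apply, dz_congr this, e.self_of_nhds]

theorem dv_congr {U' : E n → E n} (e : U =ᶠ[𝓝 z] U') : dv U z = dv U' z :=
  Finset.sum_congr rfl fun i _ => dz_congr (e.mono fun y h => congrFun h i)

theorem br_neg : br v w z = -br w v z := (neg_sub _ _).symm

theorem br_self : br v v z = 0 := sub_self _

theorem crv0 : crv (0 : E n) = 0 := by simp [crv]

theorem crv_neg (a : E n) : crv (-a) = -crv a := by simp [crv]

theorem crv_add (a b : E n) : crv (a + b) = crv a + crv b := by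
  simp [crv, add_smul, Finset.sum_add_distrib]

theorem crv_smul (c : ℂ) (a : E n) : crv (c • a) = c • crv a := by
  simp [crv, Finset.smul_sum, smul_smul]

theorem cc (hF : St_FK) (a : E n) (x : Fs n → ℂ) : crv a *ᵥ crv a *ᵥ x = 0 := by
  rw [Matrix.mulVec_mulVec, (hF n a a a 0 0 0).2.1, Matrix.zero_mulVec]

theorem cw (hF : St_FK) (a b : E n) : crv a *ᵥ crv b *ᵥ vac n = 0 ↔ wg a b = 0 :=
  (hF n a b a 0 0 0).2.2.2.2.2.2.2.2.2.2.2.2.2.2.2.1

theorem vg (hF : St_FK) : crv (v z) *ᵥ bv w v z = 0 := by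
  rw [bv, Matrix.mulVec_mulVec, (hF n (v z) (w z) 0 0 0 0).1, Matrix.neg_mulVec,
    ← Matrix.mulVec_mulVec, cc hF, Matrix.mulVec_zero, neg_zero]

theorem hbv (hL : St_LIE) (hw : HolV w z) (hv : HolV v z) : HolV (bv w v) z :=
  (hL n w w _ _ z hw hw (hL n v v _ _ z hv hv hvac (hc 0)).2.2.2.2.2.2.1 (hc 0)).2.2.2.2.2.2.1

theorem lg (hL : St_LIE) (hU : HolV U z) (hw : HolV w z) (hv : HolV v z) :
    lder U (bv w v) z =
      crv (br U w z) *ᵥ crv (v z) *ᵥ vac n + crv (w z) *ᵥ crv (br U v z) *ᵥ vac n := by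
  have a := hL n U v _ _ z hU hv hvac (hc 0)
  have b := (hL n U w _ _ z hU hw (hL n v v _ _ z hv hv hvac (hc 0)).2.2.2.2.2.2.1
    (hc 0)).2.2.2.2.2.2.2.2.1
  rw [a.2.2.2.2.2.2.2.2.1, a.2.2.2.2.2.2.2.2.2.1, Matrix.mulVec_zero, add_zero] at b
  exact b

theorem lv (hF : St_FK) (hL : St_LIE) (hw : HolV w z) (hv : HolV v z) :
    lder v (bv w v) z = -crv (yc w v z) *ᵥ crv (v z) *ᵥ vac n := by
  have e : br w v z = yc w v z + dv w z • v z := (sub_add_cancel _ _).symm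
  rw [lg hL hv hw hv, br_self, crv0, Matrix.zero_mulVec, Matrix.mulVec_zero, add_zero, br_neg, e,
    crv_neg, crv_add, crv_smul, Matrix.neg_mulVec, Matrix.add_mulVec, Matrix.smul_mulVec, cc hF,
    smul_zero, add_zero, Matrix.neg_mulVec]

theorem lu (hF : St_FK) (hL : St_LIE) (hU : HolV U z) (hw : HolV w z) (hv : HolV v z)
    (hf : HolN f z) (e : U =ᶠ[𝓝 z] fun y => f y • w y) (h0 : wg (w z) (yc w v z) = 0) :
    lder U (bv w v) z = (2 * (dv w z * f z) - dv U z) • bv w v z := by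
  have a := hL n w w _ _ z hw hw hvac hf
  have b := hL n v w _ _ z hv hw hvac hf
  have e0 : br w v z = yc w v z + dv w z • v z := (sub_add_cancel _ _).symm
  rw [lg hL hU hw hv, br_neg (v := U), br_neg (v := U), br_congr e, br_congr e, dv_congr e,
    a.2.2.2.2.2.2.2.2.2.2.2.2.2.2.1, a.2.2.2.2.2.2.2.2.2.2.2.2.2.2.2.1,
    b.2.2.2.2.2.2.2.2.2.2.2.2.2.2.2.1, br_self, br_neg (v := v), e0]
  simp only [crv_neg, crv_add, crv_smul, smul_zero, add_zero, Matrix.neg_mulVec, Matrix.add_mulVec,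
    Matrix.smul_mulVec, Matrix.mulVec_neg, Matrix.mulVec_add, Matrix.mulVec_smul, cc hF,
    (cw hF _ _).2 h0, bv]
  module

theorem prop {a y : E n} (ha : a ≠ 0) (h : wg a y = 0) : ∃ t : ℂ, y = t • a := by
  obtain ⟨k, hk⟩ := Function.ne_iff.1 ha
  have hk' : a k ≠ 0 := hk
  refine ⟨y k / a k, funext fun i => ?_⟩
  have : a i * y k - y i * a k = 0 := congrFun (congrFun h i) k
  simp only [Pi.smul_apply, smul_eq_mul]
  field_simp
  linear_combination -this

theorem ne0 (h : bv w v z ≠ 0) : w z ≠ 0 := fun h0 => h (by rw [bv, h0, crv0, Matrix.zero_mulVec])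

theorem wg_smul (a : E n) (c : ℂ) : wg a (c • a) = 0 := by
  ext i j
  simp only [wg, Matrix.of_apply, Pi.smul_apply, smul_eq_mul, Matrix.zero_apply]
  ring

theorem pr (hF : St_FK) (hL : St_LIE) (hw : HolV w z) (hv : HolV v z)
    (h0 : wg (w z) (yc w v z) = 0) : Pr (lder v (bv w v) z) (bv w v z) := by
  by_cases h : bv w v z = 0
  · intro I J
    simp only [h, Pi.zero_apply, mul_zero]
  obtain ⟨t, ht⟩ := prop (ne0 h) h0
  intro I J
  rw [lv hF hL hw hv, ht, crv_smul, Matrix.neg_mulVec, Matrix.smul_mulVec]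
  simp only [bv, Pi.neg_apply, Pi.smul_apply, smul_eq_mul]
  ring

theorem yeq (hF : St_FK) (hL : St_LIE) (hw : HolV w z) (hv : HolV v z)
    (h0 : wg (w z) (yc w v z) = 0) (h : bv w v z ≠ 0) {c : ℂ}
    (e : lder v (bv w v) z = c • bv w v z) : -yc w v z = c • w z := by
  obtain ⟨t, ht⟩ := prop (ne0 h) h0
  rw [lv hF hL hw hv, ht, crv_smul, Matrix.neg_mulVec, Matrix.smul_mulVec, ← neg_smul] at e
  rw [ht, ← neg_smul, smul_left_injective ℂ h e]

theorem cdL (hU : HolV U z) (A B : Fs n) : ContinuousAt (fun y => dL (dj U y) A B) z := by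
  simp only [dL, Matrix.sum_apply, Matrix.smul_apply, smul_eq_mul]
  exact tendsto_finsetSum _ fun i _ => tendsto_finsetSum _ fun j _ =>
    ContinuousAt.mul (cd_dz (hsm (hU i)) j).continuousAt continuousAt_const

/-- The divergence times a holomorphic multiple is a holomorphic multiple. -/
def Nh (O : Set (E n)) (w : E n → E n) : Prop := ∀ Y : E n → E n, DifferentiableOn ℂ Y O →
  (∀ z ∈ O, wg (w z) (Y z) = 0) →
  ∃ h : E n → ℂ, DifferentiableOn ℂ h O ∧ ∀ z ∈ O, h z • w z = dv w z • Y z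

theorem step (hF : St_FK) (hL : St_LIE) (hO : IsOpen O) (hN : Nh O w) (hw : ∀ z ∈ O, HolV w z)
    (hv : ∀ z ∈ O, HolV v z) (h0 : ∀ z ∈ O, wg (w z) (yc w v z) = 0) (hU : ∀ z ∈ O, HolV U z)
    (h1 : ∀ z ∈ O, wg (w z) (U z) = 0) : ∃ (h : E n → ℂ) (A : E n → Mx (Fs n)),
      (∀ z ∈ O, HolN h z ∧ ∀ i j, ContinuousAt (fun y => A y i j) z) ∧ ∀ z ∈ O, bv w v z ≠ 0 →
        ∀ f, HolN f z → (U =ᶠ[𝓝 z] fun y => f y • w y) → h z = dv w z * f z ∧
          dirv U (bv w v) z = (0 : ℂ) • bv w v z + A z *ᵥ bv w v z := by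
  obtain ⟨h, hd, he⟩ := hN U (fun z hz =>
    (differentiableAt_pi.2 fun i => (hU z hz i).self_of_nhds).differentiableWithinAt) h1
  have hh : ∀ z ∈ O, HolN h z := fun z hz =>
    (hO.eventually_mem hz).mono fun y hy => hd.differentiableAt (hO.mem_nhds hy)
  refine ⟨h, fun y => (2 * h y - dv U y) • 1 + dL (dj U y), fun z hz => ⟨hh z hz, fun i j => ?_⟩,
    fun z hz hg f hf e => ?_⟩
  · exact ContinuousAt.add (ContinuousAt.mul (hsm (hsub (hmul (hc 2) (hh z hz))
      (hL n U U _ _ z (hU z hz) (hU z hz) hvac (hc 0)).2.1)).continuousAt continuousAt_const)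
      (cdL (hU z hz) i j)
  · have a := he z hz
    rw [e.self_of_nhds, smul_smul] at a
    have b := smul_left_injective ℂ (ne0 hg) a
    refine ⟨b, ?_⟩
    have c := lu hF hL (hU z hz) (hw z hz) (hv z hz) hf e (h0 z hz)
    rw [zero_smul, zero_add, Matrix.add_mulVec, Matrix.smul_mulVec, Matrix.one_mulVec, b, ← c, lder,
      sub_add_cancel]

/-- The two holomorphic multiples of the field. -/
theorem two (hF : St_FK) (hL : St_LIE) (hO : IsOpen O) (hN : Nh O w) (hw : ∀ z ∈ O, HolV w z)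
    (hv : ∀ z ∈ O, HolV v z) (h0 : ∀ z ∈ O, wg (w z) (yc w v z) = 0)
    (den : ∀ z ∈ O, ∃ᶠ y in 𝓝 z, bv w v y ≠ 0)
    (hf : ∀ z ∈ O, bv w v z ≠ 0 → HolN f z ∧ lder v (bv w v) z = f z • bv w v z) :
    ∃ (U₁ U₂ : E n → E n) (A₁ A₂ : E n → Mx (Fs n)), (∀ z ∈ O, HolV U₁ z ∧ HolV U₂ z ∧
      (∀ i j, ContinuousAt (fun y => A₁ y i j) z) ∧ ∀ i j, ContinuousAt (fun y => A₂ y i j) z) ∧
      ∀ z ∈ O, bv w v z ≠ 0 → U₁ z = f z • w z ∧ U₂ z = (dir v f z + f z * f z) • w z ∧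
        dirv U₁ (bv w v) z = (0 : ℂ) • bv w v z + A₁ z *ᵥ bv w v z ∧
        dirv U₂ (bv w v) z = (0 : ℂ) • bv w v z + A₂ z *ᵥ bv w v z := by
  have ev : ∀ z ∈ O, bv w v z ≠ 0 → ∀ᶠ y in 𝓝 z, y ∈ O ∧ bv w v y ≠ 0 := fun z hz hg =>
    (hO.eventually_mem hz).and (ContinuousAt.eventually_ne (continuousAt_pi.2 fun i =>
      (hsm (hbv hL (hw z hz) (hv z hz) i)).continuousAt) hg)
  have y1 : ∀ z ∈ O, HolV (fun y => -yc w v y) z := fun z hz i => by
    have a := hL n w v _ _ z (hw z hz) (hv z hz) hvac (hc 0)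
    exact (hsub (a.2.2.1 i) (hmul a.2.1 (hv z hz i))).mono fun y hy => hy.neg
  have e1 : ∀ z ∈ O, bv w v z ≠ 0 → -yc w v z = f z • w z := fun z hz hg =>
    yeq hF hL (hw z hz) (hv z hz) (h0 z hz) hg (hf z hz hg).2
  have e1' : ∀ z ∈ O, bv w v z ≠ 0 → (fun y => -yc w v y) =ᶠ[𝓝 z] fun y => f y • w y :=
    fun z hz hg => (ev z hz hg).mono fun y hy => e1 y hy.1 hy.2
  obtain ⟨h, A₁, c1, s1⟩ := step hF hL hO hN hw hv h0 y1 fun z hz => by
    ext i j
    have : w z i * yc w v z j - yc w v z i * w z j = 0 := congrFun (congrFun (h0 z hz) i) j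
    simp only [wg, Matrix.of_apply, Pi.neg_apply, Matrix.zero_apply]
    linear_combination -this
  have y2 : ∀ z ∈ O, HolV (fun y => br v (fun y => -yc w v y) y + h y • v y) z := fun z hz i =>
    hadd ((hL n v _ _ _ z (hv z hz) (y1 z hz) hvac (hc 0)).2.2.1 i) (hmul (c1 z hz).1 (hv z hz i))
  have e2 : ∀ z ∈ O, bv w v z ≠ 0 → br v (fun y => -yc w v y) z + h z • v z =
      (dir v f z + f z * f z) • w z := fun z hz hg => by
    have e0 : br w v z = -(-yc w v z) + dv w z • v z := by rw [neg_neg, yc, sub_add_cancel]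
    rw [br_congr (e1' z hz hg), (hL n v w _ _ z (hv z hz) (hw z hz) hvac
      (hf z hz hg).1).2.2.2.2.2.2.2.2.2.2.2.2.2.2.2.1, br_neg, e0, e1 z hz hg,
      (s1 z hz hg f (hf z hz hg).1 (e1' z hz hg)).1]
    module
  obtain ⟨h', A₂, c2, s2⟩ := step hF hL hO hN hw hv h0 y2 fun z hz => by
    ext i j
    have c : ContinuousAt (fun y => wg (w y) (br v (fun y => -yc w v y) y + h y • v y) i j) z :=
      ((hsm (hw z hz i)).continuousAt.mul (hsm (y2 z hz j)).continuousAt).sub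
        ((hsm (y2 z hz i)).continuousAt.mul (hsm (hw z hz j)).continuousAt)
    refine tendsto_nhds_unique_of_frequently_eq c tendsto_const_nhds
      (((den z hz).and_eventually (hO.eventually_mem hz)).mono fun y hy => ?_)
    rw [e2 y hy.2 hy.1, wg_smul]
  refine ⟨_, _, A₁, A₂, fun z hz => ⟨y1 z hz, y2 z hz, (c1 z hz).2, (c2 z hz).2⟩,
    fun z hz hg => ⟨e1 z hz hg, e2 z hz hg, (s1 z hz hg f (hf z hz hg).1 (e1' z hz hg)).2, ?_⟩⟩
  have f1 := (hf z hz hg).1
  exact (s2 z hz hg _ (hadd (hL n v v _ _ z (hv z hz) (hv z hz) hvac f1).1 (hmul f1 f1))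
    ((ev z hz hg).mono fun y hy => e2 y hy.1 hy.2)).2

end Pool.Agent.Lib.NU4.P56
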