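import Pool.Agent.Lib.NU4.Blue

/-! Project nu4: two directions give an infinite chain of levels. -/

open scoped Classical Topology Matrix
open Set Filter

noncomputable section

namespace Pool.Agent.Lib.NU4

open Pool.Agent.Lib.SV (E)
open Pool.Agent.Lib.HS32 Pool.Agent.Lib.HLK Pool.Agent.Lib.F4

namespace R2

variable {n : ℕ} {M : Mf n}

theorem nz {σ : Type} {W : M.Fam (σ → ℂ)} (h : ¬Zr M W) : Nz W :=
  by_contra fun c => h fun e he z hz => by_contra fun d => c ⟨e, he, z, hz, d⟩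

/-- A holomorphic family that is not zero at a point is not zero near the point. -/
theorem near {σ : Type} {W : M.Fam (σ → ℂ)} (h : Hol W) {e : M.Ch} (he : e ∈ M.C) {z : E n}
    (hz : z ∈ e.target) (h0 : W e z ≠ 0) : ∀ᶠ w in 𝓝 z, W e w ≠ 0 := by
  obtain ⟨i, hi⟩ := Function.ne_iff.1 h0
  filter_upwards [(h e he z hz i).self_of_nhds.continuousAt.eventually_ne hi] with w hw c
  exact hw (congrFun c i)

/-- A field that is tangent to two independent fields is zero. -/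
theorem one (hFK : St_FK) (hALG : St_ALG) {W U Y : M.Fam (E n)}
    (h : Hol (wd M W (vec M U))) (h0 : Nz (wd M W (vec M U))) (d : Den M (vec M Y))
    (a : Zr M (wd M Y (vec M W))) (b : Zr M (wd M Y (vec M U))) : False := by
  obtain ⟨e, he, z, hz, h0⟩ := h0
  obtain ⟨w, w1, w2, w3⟩ := ((d e he z hz).and_eventually
    ((near h he hz h0).and (e.open_target.mem_nhds hz))).exists
  have k : ∀ v y : E n, crv v *ᵥ crv y *ᵥ vac n = 0 ↔ wg v y = 0 := fun v y =>
    (hFK n v y 0 0 0 0).2.2.2.2.2.2.2.2.2.2.2.2.2.2.2.1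
  have y0 : Y e w ≠ 0 := fun c => w1 (by simp [vec, crv, c])
  exact w2 ((k _ _).2 ((hALG.1 n (Y e w) (W e w) (U e w) 0).2 y0 ((k _ _).1 (a e he w w3))
    ((k _ _).1 (b e he w w3))))

end R2

open R2 in
theorem st_R2 (hFK : St_FK) (hALG : St_ALG) (hKIT : St_KIT) (hINF : St_INF) (hNMU : St_NMU)
    (hEXC : St_EXC) : St_R2 := by
  intro M i H a m l W U bad hm hl hW hU
  have cx := bad.cx
  have met := cx.kae.toMet
  have kv : ∀ (m : ℕ) U, HT M m U → HM M m (vec M U) ∧ DgM M 1 (vec M U) ∧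
      (¬Zr M U ↔ Nz (vec M U)) := fun m => (hKIT 4 M H m 0 met).2.1
  have up : ∀ (k j : ℕ) Y V, 0 < k → 0 < j → Wf M H k Y → Wf M H j V →
      ¬Zr M (wd M Y (vec M V)) → ∃ Z, Wf M H (k + j) Z := fun k j Y V hk hj y v c =>
    (hEXC M H a (k + j) bad (by omega)).2.1 ⟨_,
      ((hKIT 4 M H j _ met).2.2.1 k Y y.1).1 (kv j V v.1).1,
      fun e he z hz => ((hFK 4 (Y e z) 0 0 0 0 (vec M V e z)).2.2.2.2.2.2.2.2.2.2.2.2.2.2.2.2.2.2.2.2
        1 ((kv j V v.1).2.1 e he z hz)).1, nz c,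
      (hNMU 4 M H a j k _ cx (kv j V v.1).1 v.2.2).2.1 Y y.1 y.2.2⟩
  by_contra c
  have ch : ∀ j : ℕ, ∃ k, j < k ∧ ∃ Y, Wf M H k Y := fun j => by
    induction j with
    | zero => exact ⟨m, hm, W, hW⟩
    | succ j ih =>
      obtain ⟨k, k1, Y, y⟩ := ih
      by_cases p : Zr M (wd M Y (vec M W))
      · by_cases q : Zr M (wd M Y (vec M U))
        · exact (one hFK hALG (((hKIT 4 M H l _ met).2.2.1 m W hW.1).1 (kv l U hU.1).1).hol (nz c)
            (((hKIT 4 M H k _ met).2.2.2.2.1 (kv k Y y.1).1).2.2.2.2 i ((kv k Y y.1).2.2.1 y.2.1))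
            p q).elim
        · exact ⟨k + l, by omega, up k l Y U (by omega) hl y hU q⟩
      · exact ⟨k + m, by omega, up k m Y W (by omega) hm y hW p⟩
  refine infinite_of_forall_exists_gt (fun j => ?_) (hINF 4 M H a cx bad.no).1
  obtain ⟨k, k1, Y, y⟩ := ch j
  exact ⟨k, ⟨_, (kv k Y y.1).1, (kv k Y y.1).2.2.1 y.2.1⟩, k1⟩

end Pool.Agent.Lib.NU4
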