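import Pool.Agent.Lib.F4.Clo
import Pool.Agent.Lib.F4.A_IDT

/-! Project nu4: an affine holomorphic cocycle whose class is a limit of exact classes is a
coboundary, if the line bundle has no section. -/

open scoped Classical Topology ContDiff ComplexOrder Matrix
open Set Filter MeasureTheory

set_option linter.unusedVariables false

noncomputable section

namespace Pool.Agent.Lib.NU4.X91

open Pool.Agent.Lib.SV (E)
open Pool.Agent.Lib.HS32 Pool.Agent.Lib.HLK Pool.Agent.Lib.F4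
open Pool.Agent.Lib.F4.Clo (vac U1)

variable {n : ℕ} {M : Mf n}

/-- A smooth family that transforms as a section of `L` up to a holomorphic term. -/
structure Aff (L : M.Co) (s : M.Fam ℂ) : Prop where
  sm : M.All fun e z => ContDiffAt ℝ ∞ (s e) z
  hol : M.Ov fun e e' x =>
    HolN (fun w => s e' w - s e (e (e'.symm w)) * L.c e e' (e'.symm w)) (e' x)

/-- The squared norm of the `(0,1)` derivative. -/
def g0 (H : M.Fam (Mat n)) (φ : M.Fam ℝ) (u : M.Fam ℂ) (x : M.X) : ℝ := M.ev (fun e z =>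
  Real.exp (-φ e z) * (∑ k, ∑ l, (H e z)⁻¹ k l * (star (dzb k (u e) z) * dzb l (u e) z)).re) x

/-- The metric of the extension. -/
def gm (ρ : ℝ) (s : ℂ) : Mx (Fin 2) := !![ρ, -(ρ * s); -(ρ * star s), ρ * star s * s + 1]

theorem gm_q (ρ : ℝ) (s : ℂ) (v w : Fin 2 → ℂ) : star v ⬝ᵥ gm ρ s *ᵥ w =
    ρ * star (v 0 - s * v 1) * (w 0 - s * w 1) + star (v 1) * w 1 := by
  simp [gm, dotProduct, Matrix.mulVec, Fin.sum_univ_two]
  ring

theorem gm_re (ρ : ℝ) (s : ℂ) (v : Fin 2 → ℂ) : star v ⬝ᵥ gm ρ s *ᵥ v =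
    ((ρ * Complex.normSq (v 0 - s * v 1) + Complex.normSq (v 1) : ℝ) : ℂ) := by
  rw [gm_q, Complex.ofReal_add, Complex.ofReal_mul, Complex.normSq_eq_conj_mul_self,
    Complex.normSq_eq_conj_mul_self, mul_assoc]
  rfl

theorem gm_pos {ρ : ℝ} (h : 0 < ρ) (s : ℂ) : (gm ρ s).PosDef := by
  refine .of_dotProduct_mulVec_pos ?_ fun v hv => ?_
  · ext i j
    fin_cases i <;> fin_cases j <;> simp [gm, mul_comm, mul_assoc]
  · rw [gm_re, Complex.zero_lt_real]
    by_cases h1 : v 1 = 0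
    · have h0 : v 0 ≠ 0 := fun h0 => hv (funext fun i => by fin_cases i <;> simp [h0, h1])
      simpa [h1] using mul_pos h (Complex.normSq_pos.2 h0)
    · exact add_pos_of_nonneg_of_pos (mul_nonneg h.le (Complex.normSq_nonneg _))
        (Complex.normSq_pos.2 h1)

/-- The extension of the trivial bundle by `L`. -/
def eb (L : M.Co) (φ : M.Fam ℝ) (s : M.Fam ℂ) : Bun M (Fin 2) where
  T e e' x := !![(L.c e e' x)⁻¹, s e (e x) - (L.c e e' x)⁻¹ * s e' (e' x); 0, 1]
  G e z := gm (Real.exp (-φ e z)) (s e z)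

variable {L : M.Co} {φ : M.Fam ℝ} {s : M.Fam ℂ} {H : M.Fam (Mat n)}

theorem eb_hl (hs : Aff L s) : (eb L φ s).Hl := fun e he e' he' x hx hx' i j => by
  have c := L.hol e he e' he' x hx hx'
  have t := ((mTR n M).2.1 e he e' he' x hx hx').2.2.2.1
  have nz : ∀ᶠ w in 𝓝 (e' x), L.c e e' (e'.symm w) ≠ 0 :=
    t.mono fun w hw => L.ne e he e' he' _ hw.2.1 hw.2.2.1
  have ci : HolN (fun w => (L.c e e' (e'.symm w))⁻¹) (e' x) :=
    (c.and nz).mono fun w hw => hw.1.inv hw.2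
  fin_cases i <;> fin_cases j
  · exact ci
  · filter_upwards [ci, hs.hol e he e' he' x hx hx', t.eventually_nhds, nz.eventually_nhds]
      with w h1 h2 h3 h4
    refine (h1.mul h2).neg.congr_of_eventuallyEq ((h3.and h4).mono fun y hy => ?_)
    have := hy.2
    simp only [eb, hy.1.2.2.2.2.2.1, Pi.neg_apply, Pi.mul_apply]
    simp
    field_simp
    ring
  · exact Eventually.of_forall fun w => differentiableAt_const (0 : ℂ)
  · exact Eventually.of_forall fun w => differentiableAt_const (1 : ℂ)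

theorem c_one (L : M.Co) {e : M.Ch} (he : e ∈ M.C) {x : M.X} (hx : x ∈ e.source) :
    L.c e e x = 1 :=
  (mul_eq_left₀ (L.ne e he e he x hx hx)).1 (L.mul e he e he x hx hx e he hx).symm

theorem ex_cmp (hφ : M.WtC L φ) : M.Ov fun e e' x => ((Real.exp (-φ e' (e' x)) : ℝ) : ℂ) =
    (star (L.c e e' x))⁻¹ * (L.c e e' x)⁻¹ * (Real.exp (-φ e (e x)) : ℝ) :=
  fun e he e' he' x hx hx' => by
    beta_reduce
    rw [hφ.cmp e he e' he' x hx hx', neg_add, Real.exp_add, Real.exp_neg (Real.log _),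
      Real.exp_log (Complex.normSq_pos.2 (L.ne e he e' he' x hx hx')), Complex.ofReal_mul,
      Complex.ofReal_inv, Complex.normSq_eq_conj_mul_self, mul_inv, mul_comm]
    rfl

theorem eb_ok (hφ : M.WtC L φ) (hs : Aff L s) : (eb L φ s).Ok where
  tsm e he e' he' x hx hx' i j := ((mHOL n _ _).2.2 (eb_hl hs e he e' he' x hx hx' i j)).1
  one e he x hx := by
    ext i j
    fin_cases i <;> fin_cases j <;> simp [eb, c_one L he hx]
  mul e he e' he' x hx hx' e'' he'' hx'' := by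
    ext i j
    fin_cases i <;> fin_cases j <;>
      simp [eb, L.mul e he e' he' x hx hx' e'' he'' hx'', Matrix.mul_apply, Fin.sum_univ_two] <;>
      ring
  gsm e he z hz i j := by
    have a := cd_ofReal (hφ.sm e he z hz).neg.exp
    have b := hs.sm e he z hz
    fin_cases i <;> fin_cases j
    · exact a
    · exact (a.mul b).neg
    · exact (a.mul (cd_star b)).neg
    · exact ((a.mul (cd_star b)).mul b).add contDiffAt_const
  pos e he z hz := gm_pos (Real.exp_pos _) _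
  cmp e he e' he' x hx hx' := by
    have := ex_cmp hφ e he e' he' x hx hx'
    ext i j
    fin_cases i <;> fin_cases j <;>
      simp [eb, gm, Matrix.mul_apply, Fin.sum_univ_two, -Complex.ofReal_exp, this] <;> ring

theorem eb_sec {W : M.Fam (Fin 2 → ℂ)} : (M.Ov fun e e' x =>
    W e (e x) = (eb L φ s).T e e' x *ᵥ W e' (e' x)) ↔ M.Ov fun e e' x =>
      W e' (e' x) 1 = W e (e x) 1 ∧ W e' (e' x) 0 - s e' (e' x) * W e' (e' x) 1 =
        (W e (e x) 0 - s e (e x) * W e (e x) 1) * L.c e e' x := by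
  refine ⟨fun h e he e' he' x hx hx' => ?_, fun h e he e' he' x hx hx' => ?_⟩
  · have c := L.ne e he e' he' x hx hx'
    have h0 := congrFun (h e he e' he' x hx hx') 0
    have h1 := congrFun (h e he e' he' x hx hx') 1
    simp [eb, Matrix.mulVec, dotProduct, Fin.sum_univ_two] at h0 h1
    refine ⟨h1.symm, ?_⟩
    rw [h0, h1]
    field_simp
    ring
  · have c := L.ne e he e' he' x hx hx'
    obtain ⟨h1, h0⟩ := h e he e' he' x hx hx'
    funext i
    fin_cases i
    · simp [eb, Matrix.mulVec, dotProduct, Fin.sum_univ_two]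
      rw [sub_eq_iff_eq_add.1 h0, h1]
      field_simp
      ring
    · simp [eb, Matrix.mulVec, dotProduct, Fin.sum_univ_two, h1]

/-- The section attached to `y`. -/
def sy (s y : M.Fam ℂ) (κ : ℝ) : M.Fam (Fin 2 → ℂ) := fun e z => ![κ * (s e z - y e z), κ]

theorem sy_sec (hs : Aff L s) {y : M.Fam ℂ} (hy : M.SecC L y) (κ : ℝ) :
    (eb L φ s).Sec (sy s y κ) := by
  refine ⟨fun e he z hz => contDiffAt_pi.2 fun i => ?_,
    eb_sec.2 fun e he e' he' x hx hx' => ⟨rfl, ?_⟩⟩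
  · fin_cases i
    · exact contDiffAt_const.mul ((hs.sm e he z hz).sub (hy.sm e he z hz))
    · exact contDiffAt_const
  · simp [sy, hy.cmp e he e' he' x hx hx']
    ring

theorem sy_pn (y : M.Fam ℂ) (κ : ℝ) (x : M.X) : (eb L φ s).pn (sy s y κ) x =
    κ ^ 2 * (Real.exp (-M.ev φ x) * Complex.normSq (M.ev y x) + 1) := by
  have : (κ : ℂ) * (M.ev s x - M.ev y x) - M.ev s x * κ = -(κ * M.ev y x) := by ring
  refine (congrArg Complex.re (gm_re _ _ _)).trans ?_
  rw [Complex.ofReal_re]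
  show _ * Complex.normSq ((κ : ℂ) * (M.ev s x - M.ev y x) - M.ev s x * κ) +
    Complex.normSq (κ : ℂ) = _
  rw [this, Complex.normSq_neg, map_mul, Complex.normSq_ofReal]
  show Real.exp (-M.ev φ x) * _ + _ = _
  ring

theorem sy_gb (hs : Aff L s) {y : M.Fam ℂ} (hy : M.SecC L y) (κ : ℝ) (x : M.X) :
    gb H (eb L φ s) (sy s y κ) x = κ ^ 2 * g0 H φ (s - y) x := by
  have d : DifferentiableAt ℝ ((s - y) (M.ch x)) (M.ch x x) :=
    cd_diff ((Mf.AllOn.ch hs.sm x).sub (Mf.AllOn.ch hy.sm x))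
  have h0 : ∀ k, dzbv k (sy s y κ (M.ch x)) (M.ch x x) 0 =
      κ * dzb k ((s - y) (M.ch x)) (M.ch x x) := fun k => dzb_const_mul _ d
  have h1 : ∀ k, dzbv k (sy s y κ (M.ch x)) (M.ch x x) 1 = 0 := fun k => dzb_const _
  simp only [gb, g0, Mf.ev, eb, gm_q, h0, h1, mul_zero, sub_zero, add_zero]
  rw [← Complex.re_ofReal_mul, ← Complex.re_ofReal_mul]
  refine congrArg _ ?_
  simp only [Finset.mul_sum, star_mul', Complex.star_def, Complex.conj_ofReal, Complex.ofReal_pow]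
  exact Finset.sum_congr rfl fun k _ => Finset.sum_congr rfl fun l _ => by ring

/-- The scalar form. -/
theorem core [M.Cpt] (hn : 0 < n) (hH : M.Met H) (hφ : M.WtC L φ) (hs : Aff L s)
    (h0 : ∀ t, M.HSecC L t → Zr M t)
    (ha : ∀ η : ℝ, 0 < η → ∃ y, M.SecC L y ∧ ∫ x, g0 H φ (s - y) x ∂M.mu H ≤ η) :
    ∃ q : M.Fam ℂ, (M.All fun e z => HolN (q e) z) ∧ M.SecC L (s - q) := by
  have ok := eb_ok hφ hs
  have hl : (eb L φ s).Hl := eb_hl hs
  obtain ⟨-, fi, -, vol, it, -⟩ := mMU n M H hH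
  choose y y1 y2 using fun j : ℕ => ha (1 / ((j : ℝ) + 1)) Nat.one_div_pos_of_nat
  set v := (M.mu H).real univ
  have hN : ∀ j, v ≤ (eb L φ s).nr H (sy s (y j) 1) := fun j => by
    have c : Continuous ((eb L φ s).pn (sy s (y j) 1)) :=
      (ok.pp_rep (sy_sec hs (y1 j) 1) (sy_sec hs (y1 j) 1)).2.re.continuous
    refine le_trans (by simp [v]) (integral_mono (integrable_const (1 : ℝ)) (it ℝ _ c) fun x => ?_)
    rw [sy_pn, one_pow, one_mul]
    exact le_add_of_nonneg_left (mul_nonneg (Real.exp_pos _).le (Complex.normSq_nonneg _))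
  set N := fun j => (eb L φ s).nr H (sy s (y j) 1)
  have k2 : ∀ j, (√(N j)⁻¹) ^ 2 = (N j)⁻¹ := fun j =>
    Real.sq_sqrt (inv_nonneg.2 (vol.le.trans (hN j)))
  have n1 : ∀ j, (eb L φ s).nr H (sy s (y j) √(N j)⁻¹) = 1 := fun j => by
    have : N j = ∫ x, (Real.exp (-M.ev φ x) * Complex.normSq (M.ev (y j) x) + 1) ∂M.mu H := by
      simp only [N, Bun.nr, sy_pn, one_pow, one_mul]
    simp only [Bun.nr, sy_pn, integral_const_mul, k2, ← this]
    exact inv_mul_cancel₀ (vol.trans_le (hN j)).ne'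
  have g1 : ∀ j, ∫ x, gb H (eb L φ s) (sy s (y j) √(N j)⁻¹) x ∂M.mu H ≤
      v⁻¹ * (1 / ((j : ℝ) + 1)) := fun j => by
    simp only [sy_gb hs (y1 j), integral_const_mul, k2]
    exact (mul_le_mul_of_nonneg_left (y2 j) (inv_nonneg.2 (vol.le.trans (hN j)))).trans
      (mul_le_mul_of_nonneg_right (inv_anti₀ vol (hN j)) Nat.one_div_pos_of_nat.le)
  have g2 : ∀ j, 0 ≤ ∫ x, gb H (eb L φ s) (sy s (y j) √(N j)⁻¹) x ∂M.mu H := fun j =>
    integral_nonneg ((aGB n M _ H _ hH ok hl).1 _ (sy_sec hs (y1 j) _)).2.2.1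
  have lim : Tendsto (fun j : ℕ => v⁻¹ * (1 / ((j : ℝ) + 1))) atTop (𝓝 0) := by
    simpa using (tendsto_one_div_add_atTop_nhds_zero_nat (𝕜 := ℝ)).const_mul v⁻¹
  obtain ⟨V, V1, V2, V3⟩ := aVL n M _ H _ (hyperfilter ℕ) (fun j => sy s (y j) √(N j)⁻¹)
    (1 + v⁻¹) hn hH ok hl (fun j => ⟨sy_sec hs (y1 j) _,
      (n1 j).le.trans (le_add_of_nonneg_right (inv_nonneg.2 vol.le)), (g1 j).trans (by
        have : 1 / ((j : ℝ) + 1) ≤ 1 := div_le_one_of_le₀ (by simp) (by positivity)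
        nlinarith [inv_pos.2 vol])⟩)
    ((squeeze_zero g2 g1 lim).mono_left Nat.hyperfilter_le_atTop)
  have cm := eb_sec.1 V1.cmp
  obtain ⟨c, hc⟩ := (st_IDT n M 0).2.2 (fun e z => V e z 1) ⟨fun e he z hz => V2 e he z hz 1,
    fun e he e' he' x hx hx' => by simpa using (cm e he e' he' x hx hx').1⟩
  have c0 : c ≠ 0 := fun c0 => by
    subst c0
    have a0 := h0 (fun e z => V e z 0) ⟨⟨fun e he z hz => contDiffAt_pi.1 (V1.sm e he z hz) 0,
      fun e he e' he' x hx hx' => by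
        simpa [hc.at he hx, hc.at he' hx'] using (cm e he e' he' x hx hx').2⟩,
      fun e he z hz => (V2 e he z hz 0).self_of_nhds⟩
    have e0 : ∀ x, M.ev V x = 0 := fun x => funext fun i => by
      fin_cases i
      · exact Mf.AllOn.ch a0 x
      · exact Mf.AllOn.ch hc x
    have e1 : ∀ W, (eb L φ s).nr H (W - V) = (eb L φ s).nr H W := fun W => by
      have : ∀ x, M.ev (W - V) x = M.ev W x := fun x => (congrArg (M.ev W x - ·) (e0 x)).trans
        (sub_zero _)
      simp only [Bun.nr, Bun.pn, Bun.pp, this]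
    simp only [e1, n1] at V3
    exact one_ne_zero (tendsto_nhds_unique tendsto_const_nhds V3)
  refine ⟨fun e z => c⁻¹ * V e z 0, fun e he z hz => (V2 e he z hz 0).mono fun w hw =>
    hw.const_mul _, fun e he z hz => (hs.sm e he z hz).sub
      (contDiffAt_const.mul (contDiffAt_pi.1 (V1.sm e he z hz) 0)),
    fun e he e' he' x hx hx' => ?_⟩
  have := (cm e he e' he' x hx hx').2
  rw [hc.at he hx, hc.at he' hx'] at this
  simp only [Pi.sub_apply, sub_eq_iff_eq_add.1 this]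
  field_simp
  ring

end Pool.Agent.Lib.NU4.X91
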