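import Pool.Agent.Lib.NU4.Kv53
import Pool.Agent.Lib.F4.D_AAK
import Pool.Agent.Lib.HLK.All0

/-! Project nu4: the curvature term of a multivector of degree `n - 1` is a mixed form. -/

open scoped Classical Topology ContDiff ComplexOrder Matrix ENNReal
open Set MeasureTheory Complex Metric Filter

set_option linter.unusedVariables false

noncomputable section

namespace Pool.Agent.Lib.NU4.K53

open Pool.Agent.Lib.SV (E)
open Pool.Agent.Lib.HS32 Pool.Agent.Lib.KP Pool.Agent.Lib.HLK Pool.Agent.Lib.F4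
open Pool.Agent.Lib.F4.LD

variable {n : ℕ}

/-- The products of the basis vectors with `W`. -/
def cm (W : Fs n → ℂ) : Matrix (Fs n) (Fin n) ℂ := Matrix.of fun B m => (cr m *ᵥ W) B

/-- The form attached to `W`. -/
def am (G : Mx (Fs n)) (W : Fs n → ℂ) : Mat n := (cm W)ᴴ * G * cm W

theorem am_apply (G : Mx (Fs n)) (W : Fs n → ℂ) (j m : Fin n) :
    am G W j m = star (cr j *ᵥ W) ⬝ᵥ G *ᵥ cr m *ᵥ W := by
  rw [am, Matrix.mul_assoc]
  rfl

theorem am_op (G : Mx (Fs n)) (W : Fs n → ℂ) (j m : Fin n) :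
    am G W j m = star W ⬝ᵥ (an j * G * cr m) *ᵥ W := by
  rw [am_apply, Matrix.star_mulVec, ← Matrix.dotProduct_mulVec, Matrix.mulVec_mulVec,
    Matrix.mulVec_mulVec, an]

theorem la_an {H : Mat n} (hH : H.PosDef) (k : Fin n) :
    La H * an k = ∑ j, H⁻¹ k j • (an j * La H) := by
  obtain ⟨-, -, -, -, ha, -⟩ := (aFK2 n).2 H
  have hu := (Matrix.isUnit_iff_isUnit_det H).1 hH.isUnit
  simp only [ha, Finset.smul_sum, smul_smul]
  rw [Finset.sum_comm]
  simp only [← Finset.sum_smul, ← Matrix.mul_apply, Matrix.nonsing_inv_mul H hu, Matrix.one_apply,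
    ite_smul, one_smul, zero_smul, Finset.sum_ite_eq, Finset.mem_univ, if_true]

theorem cr_la {H : Mat n} (hH : H.PosDef) (l : Fin n) :
    cr l * La H = ∑ m, H⁻¹ m l • (La H * cr m) := by
  obtain ⟨-, -, -, hc, -⟩ := (aFK2 n).2 H
  have hu := (Matrix.isUnit_iff_isUnit_det H).1 hH.isUnit
  simp only [hc, Finset.smul_sum, smul_smul]
  rw [Finset.sum_comm]
  simp only [← Finset.sum_smul, mul_comm (H⁻¹ _ l), ← Matrix.mul_apply,
    Matrix.mul_nonsing_inv H hu, Matrix.one_apply, ite_smul, one_smul, zero_smul,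
    Finset.sum_ite_eq', Finset.mem_univ, if_true]

theorem cla {H : Mat n} (hH : H.PosDef) (k l : Fin n) : cr l * La H * an k =
    H⁻¹ k l • La H - ∑ m, ∑ j, (H⁻¹ m l * H⁻¹ k j) • (an j * La H * cr m) := by
  have e : ∀ m, La H * cr m * an k =
      (if k = m then La H else 0) - ∑ j, H⁻¹ k j • (an j * La H * cr m) := fun m => by
    rw [Matrix.mul_assoc, eq_sub_of_add_eq' ((aFK1 n).1 k m).2.2, Matrix.mul_sub,
      ← Matrix.mul_assoc, la_an hH, Finset.sum_mul]
    simp only [Matrix.smul_mul, mul_ite, Matrix.mul_one, Matrix.mul_zero]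
  rw [cr_la hH, Finset.sum_mul]
  simp only [Matrix.smul_mul, e, smul_sub, Finset.sum_sub_distrib, Finset.smul_sum, smul_smul,
    smul_ite, smul_zero, Finset.sum_ite_eq, Finset.mem_univ, if_true]

theorem cu_eq {H : Mat n} (hH : H.PosDef) (g : ℂ) (θ : Mat n) (W : Fs n → ℂ) :
    ∑ k, ∑ l, θ l k * (star (an l *ᵥ W) ⬝ᵥ (g • La H) *ᵥ an k *ᵥ W) =
      (H⁻¹ * θ).trace * (star W ⬝ᵥ (g • La H) *ᵥ W) -
        (H⁻¹ * θ * H⁻¹ * am (g • La H) W).trace := by
  have e : ∀ k l, star (an l *ᵥ W) ⬝ᵥ (g • La H) *ᵥ an k *ᵥ W =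
      H⁻¹ k l * (star W ⬝ᵥ (g • La H) *ᵥ W) -
        ∑ m, ∑ j, H⁻¹ m l * H⁻¹ k j * am (g • La H) W j m := fun k l => by
    rw [Matrix.star_mulVec, ← Matrix.dotProduct_mulVec, Matrix.mulVec_mulVec,
      Matrix.mulVec_mulVec, an, Matrix.conjTranspose_conjTranspose, Matrix.mul_smul,
      Matrix.smul_mul, cla hH]
    simp only [am_op, smul_sub, Matrix.sub_mulVec, dotProduct_sub, Finset.smul_sum,
      Matrix.sum_mulVec, dotProduct_sum, Matrix.smul_mulVec, dotProduct_smul, smul_eq_mul,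
      Matrix.mul_smul, Matrix.smul_mul, mul_left_comm g]
  simp only [e, mul_sub, Finset.sum_sub_distrib, Matrix.trace, Matrix.diag, Matrix.mul_apply,
    Finset.sum_mul, Finset.mul_sum]
  refine congrArg₂ _ (Finset.sum_congr rfl fun k _ => Finset.sum_congr rfl fun l _ => by ring) ?_
  calc _ = ∑ k, ∑ m, ∑ j, ∑ l, H⁻¹ m l * θ l k * H⁻¹ k j * am (g • La H) W j m :=
        Finset.sum_congr rfl fun k _ => by
          rw [Finset.sum_comm]
          refine Finset.sum_congr rfl fun m _ => ?_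
          rw [Finset.sum_comm]
          exact Finset.sum_congr rfl fun j _ => Finset.sum_congr rfl fun l _ => by ring
    _ = _ := by
        rw [Finset.sum_comm]
        exact Finset.sum_congr rfl fun m _ => Finset.sum_comm

theorem num {q : ℕ} (hq : q + 1 = n) {W : Fs n → ℂ} (hW : ∀ A, A.card ≠ q → W A = 0) :
    ∑ m, (an m * cr m) *ᵥ W = W := by
  have e : ∀ m : Fin n, an m * cr m = Matrix.diagonal fun B => if m ∈ B then 0 else 1 := fun m => by
    ext A B
    rw [FK1.mul_cr, FK1.an_apply, Matrix.diagonal_apply]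
    by_cases h : A = B
    · subst h
      by_cases k : m ∈ A <;> simp [k, FK1.sg_sq]
    · rw [if_neg h]
      by_cases k : m ∈ B
      · rw [if_pos k]
      · rw [if_neg k, if_neg fun c => h ((FK1.ins_iff k c.1).1 c.2).symm, zero_mul]
  funext B
  simp only [e, Finset.sum_apply, Matrix.mulVec_diagonal, ← Finset.sum_mul]
  by_cases h : B.card = q
  · have : ∑ m : Fin n, (if m ∈ B then (0 : ℂ) else 1) = (Bᶜ.card : ℂ) := by
      rw [Finset.card_eq_sum_ones, Nat.cast_sum, ← Finset.sum_add_sum_compl B,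
        Finset.sum_congr rfl fun m hm => if_pos hm,
        Finset.sum_congr rfl fun m hm => if_neg (Finset.mem_compl.1 hm)]
      simp
    rw [this, Finset.card_compl, Fintype.card_fin, h, show n - q = 1 by omega, Nat.cast_one,
      one_mul]
  · rw [hW B h, mul_zero]

theorem tr_am {H : Mat n} (hH : H.PosDef) (g : ℂ) {q : ℕ} (hq : q + 1 = n) {W : Fs n → ℂ}
    (hW : ∀ A, A.card ≠ q → W A = 0) :
    (H⁻¹ * am (g • La H) W).trace = star W ⬝ᵥ (g • La H) *ᵥ W := by
  have e : ∀ m, ∑ j, H⁻¹ m j * am (g • La H) W j m =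
      star W ⬝ᵥ (g • La H) *ᵥ (an m * cr m) *ᵥ W := fun m => by
    rw [Matrix.mulVec_mulVec, ← Matrix.mul_assoc, Matrix.smul_mul, la_an hH]
    simp only [am_op, Finset.smul_sum, Finset.sum_mul, Matrix.sum_mulVec, dotProduct_sum,
      Matrix.smul_mulVec, dotProduct_smul, smul_eq_mul, Matrix.mul_smul, Matrix.smul_mul,
      mul_left_comm g]
  simp only [Matrix.trace, Matrix.diag, Matrix.mul_apply, e]
  rw [← dotProduct_sum, ← Matrix.mulVec_sum, num hq hW]

theorem am_rk (G : Mx (Fs n)) {q : ℕ} (hq : q + 1 = n) {W : Fs n → ℂ}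
    (hW : ∀ A, A.card ≠ q → W A = 0) : ∃ a : E n,
    am G W = G Finset.univ Finset.univ • Matrix.vecMulVec (star a) a := by
  have e : ∀ (m : Fin n) (A : Fs n), A ≠ Finset.univ → (cr m *ᵥ W) A = 0 := fun m A hA =>
    Finset.sum_eq_zero (s := Finset.univ) (f := fun B => cr m A B * W B) fun B _ => by
      rw [FK1.cr_apply]
      split_ifs with h
      · rw [hW B fun c => hA (Finset.eq_univ_of_card A ?_), mul_zero]
        rw [h.2, Finset.card_insert_of_notMem h.1, c, hq, Fintype.card_fin]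
      · exact zero_mul _
  refine ⟨fun m => (cr m *ᵥ W) Finset.univ, ?_⟩
  ext j m
  rw [am_apply, dotProduct, Finset.sum_eq_single Finset.univ, Matrix.mulVec, dotProduct,
    Finset.sum_eq_single Finset.univ]
  · simp only [Matrix.smul_apply, Matrix.vecMulVec_apply, Pi.star_apply, smul_eq_mul]
    ring
  · exact fun B _ h => by rw [e m B h, mul_zero]
  · simp
  · exact fun B _ h => by rw [Pi.star_apply, e j B h, star_zero, zero_mul]
  · simp

theorem am_tr (G : Mx (Fs n)) (c : ℂ) (J : Mat n) (W : Fs n → ℂ) :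
    am ((c • La J)ᴴ * G * (c • La J)) W = Jᴴ * am G ((c • La J) *ᵥ W) * J := by
  have e : (c • La J) * cm W = cm ((c • La J) *ᵥ W) * J := by
    ext B m
    have h := congrFun (congrArg (fun Y => (c • Y) *ᵥ W) (((aFK2 n).2 J).2.2.2.1 m)) B
    refine (show _ = ((c • La J) *ᵥ cr m *ᵥ W) B from rfl).trans ?_
    rw [Matrix.mulVec_mulVec, Matrix.smul_mul, h, Matrix.mul_apply]
    simp only [cm, Matrix.of_apply, Finset.smul_sum, Matrix.sum_mulVec, Finset.sum_apply,
      Matrix.smul_mulVec, Matrix.mulVec_smul, Matrix.mulVec_mulVec, Pi.smul_apply, smul_eq_mul]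
    exact Finset.sum_congr rfl fun i _ => by ring
  calc _ = ((c • La J) * cm W)ᴴ * G * ((c • La J) * cm W) := by
        simp only [am, Matrix.conjTranspose_mul, Matrix.mul_assoc]
    _ = _ := by
        rw [e]
        simp only [am, Matrix.conjTranspose_mul, Matrix.mul_assoc]

/-- The form attached to a section of degree `n - 1`. -/
theorem kv1 {M : Mf n} {H : M.Fam (Mat n)} {L : M.Co} {φ : M.Fam ℝ} {W : M.Fam (Fs n → ℂ)}
    {q : ℕ} (hH : M.Met H) (hφ : M.WtC L φ) (hq : q + 1 = n) (hW : (lam H L φ).Sec W)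
    (hd : M.All fun e z => ∀ A : Fs n, A.card ≠ q → W e z A = 0) :
    ∃ A, M.Form A ∧ M.Le 0 A ∧ (∀ x, mx M H A A x = 0) ∧
      (∀ x, M.tr H A x = (lam H L φ).pn W x) ∧ ∀ T x, cu T (lam H L φ) W x = mx M H T A x := by
  have ok := (aLAM n M H L φ hH hφ).1
  have ps : M.All fun e z => (am ((lam H L φ).G e z) (W e z)).PosSemidef := fun e he z hz =>
    (ok.pos e he z hz).posSemidef.conjTranspose_mul_mul_same _
  have t : ∀ x, ((M.ev H x)⁻¹ * M.ev (fun e z => am ((lam H L φ).G e z) (W e z)) x).trace =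
      (lam H L φ).pp W W x := fun x => tr_am (hH.ev_pos x) _ hq (hd.ch x)
  have im : ∀ x, ((lam H L φ).pp W W x).im = 0 := fun x =>
    (Complex.nonneg_iff.1 ((ok.pos.ch x).posSemidef.dotProduct_mulVec_nonneg _)).2.symm
  refine ⟨fun e z => am ((lam H L φ).G e z) (W e z), ⟨⟨fun e he z hz j m => ?_,
    fun e he e' he' x hx hx' => ?_⟩, fun e he z hz => (ps e he z hz).1⟩, fun e he z hz => ?_,
    fun x => ?_, fun x => congrArg re (t x), fun T x => ?_⟩
  · have hw := contDiffAt_pi.1 (hW.sm e he z hz)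
    have mv : ∀ {G : E n → Mx (Fs n)} {V : E n → Fs n → ℂ}, SmX G z →
        (∀ B, ContDiffAt ℝ ∞ (fun w => V w B) z) →
        ∀ A, ContDiffAt ℝ ∞ (fun w => (G w *ᵥ V w) A) z :=
      fun hG hV A => ContDiffAt.sum (s := Finset.univ) fun B _ => (hG A B).mul (hV B)
    have ha := fun k => mv (G := fun _ => cr k) (fun _ _ => contDiffAt_const) hw
    simp only [am_apply]
    exact ContDiffAt.sum (s := Finset.univ) fun A _ =>
      (cd_star (ha j A)).mul (mv (ok.gsm e he z hz) (ha m) A)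
  · beta_reduce
    rw [ok.cmp e he e' he' x hx hx', hW.cmp e he e' he' x hx hx']
    exact am_tr _ _ _ _
  · beta_reduce
    rw [Pi.zero_apply, Pi.zero_apply, sub_zero]
    exact ps e he z hz
  · obtain ⟨a, ha⟩ := am_rk (M.ev (lam H L φ).G x) hq (hd.ch x)
    have e : M.ev (fun e z => am ((lam H L φ).G e z) (W e z)) x = _ := ha
    have e2 : ((M.ev H x)⁻¹ * M.ev (fun e z => am ((lam H L φ).G e z) (W e z)) x * (M.ev H x)⁻¹ *
        M.ev (fun e z => am ((lam H L φ).G e z) (W e z)) x).trace =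
        (lam H L φ).pp W W x * (lam H L φ).pp W W x := by
      rw [← t x, e]
      simp only [Matrix.mul_smul, Matrix.smul_mul, Matrix.trace_smul, smul_eq_mul]
      rw [K7.tr2, K7.tr1]
      ring
    rw [mx, Mf.tr, Mf.ip, e2, t x, mul_re, im x]
    ring
  · have e := congrArg re (cu_eq (hH.ev_pos x) ((Real.exp (-M.ev φ x) : ℝ) : ℂ) (M.ev T x)
      (M.ev W x))
    rw [sub_re, mul_re] at e
    rw [mx, Mf.tr, Mf.tr, Mf.ip, t x]
    refine (show cu T (lam H L φ) W x = _ from e).trans ?_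
    have i := im x
    rw [show (star (M.ev W x) ⬝ᵥ (((Real.exp (-M.ev φ x) : ℝ) : ℂ) • La (M.ev H x)) *ᵥ M.ev W x) =
      (lam H L φ).pp W W x from rfl, i, mul_zero, sub_zero]
    rfl

/-- A section of degree `n - 1` that is weakly orthogonal to the class. -/
theorem kv (hP : KP.St_POI) (hMXC : St_MXC) (hPSD : St_PSD) {M : Mf n} [M.Cpt]
    {H θ : M.Fam (Mat n)} {L : M.Co} {φ : M.Fam ℝ} {W : M.Fam (Fs n → ℂ)} {q : ℕ} {ι : Type}
    {l : Filter ι} [l.NeBot] {F : ι → M.X → ℝ} {c C : ℝ} (hk : M.Kae H) (hφ : M.WtC L φ)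
    (hq : q + 1 = n) (hW : (lam H L φ).Sec W)
    (hd : M.All fun e z => ∀ A : Fs n, A.card ≠ q → W e z A = 0) (nz : Nz W) (hθ : M.Clo θ)
    (T0 : 0 ≤ ∫ x, M.tr H θ x ∂M.mu H) (sF : ∀ j, M.Sm (F j)) (c0 : 0 < c)
    (cF : ∀ j x, c ≤ F j x) (bF : ∀ j, ∫ x, F j x ^ 2 ∂M.mu H ≤ C)
    (lim : ∀ v, M.Sm v → ∀ η : ℝ, 0 < η →
      ∀ᶠ j in l, ∫ x, F j x * cu (θ + M.hs v) (lam H L φ) W x ∂M.mu H ≤ η) :
    ∫ x, mx M H θ θ x ∂M.mu H ≤ 0 := by
  have hm := hk.toMet
  obtain ⟨A, hA, A0, hAA, ht, hc⟩ := kv1 hm hφ hq hW hd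
  refine kv0 hP hMXC hPSD (l := l) (by omega) hk hθ hA A0 ?_ hAA T0 sF c0 cF bF fun v hv η hη => by
    simpa only [hc] using lim v hv η hη
  have ok := (aLAM n M H L φ hm hφ).1
  obtain ⟨-, -, op, -, it, -⟩ := mMU n M H hm
  have cn : Continuous (M.tr H A) := ((mINV n M H hm).1 A hA.toTen).2.1.continuous
  refine (integral_nonneg (hm.tr_nonneg A0)).lt_of_ne fun h => ?_
  rw [eq_comm, integral_eq_zero_iff_of_nonneg (hm.tr_nonneg A0) (it ℝ _ cn)] at h
  obtain ⟨e, he, z, hz, k⟩ := nz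
  have h0 := congrFun ((cn.ae_eq_iff_eq (M.mu H) continuous_zero).1 h) (e.symm z)
  have p := ((ok.pos e he z hz).dotProduct_mulVec_pos k).trans_eq
    ((ok.pp_rep hW hW).1 e he z hz).symm
  rw [ht] at h0
  exact (Complex.pos_iff.1 p).1.ne' h0

end Pool.Agent.Lib.NU4.K53
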