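import Pool.Agent.Lib.F4.BlueS
import Pool.Agent.Lib.F4.D_MXC
import Pool.Agent.Lib.F4.D_PSD
import Pool.Agent.Lib.F4.Maz44
import Pool.Agent.Lib.KP.B_HARM
import Pool.Agent.Lib.KP.R_CPT
import Pool.Agent.Lib.KP.R_POI

/-! Project nu4: a weakly closed form of square zero that is orthogonal to a class bounds the
square of the class. -/

open scoped Classical Topology ContDiff ComplexOrder Matrix ENNReal
open Set MeasureTheory Complex Metric Filter

set_option linter.unusedVariables false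

noncomputable section

namespace Pool.Agent.Lib.NU4.K82

open Pool.Agent.Lib.SV (E)
open Pool.Agent.Lib.HS32 Pool.Agent.Lib.F4 Pool.Agent.Lib.F4.LD

/-- A convex combination is almost orthogonal to all the vectors that are weakly orthogonal. -/
theorem hull {V ι : Type} [NormedAddCommGroup V] [InnerProductSpace ℝ V] [CompleteSpace V]
    (l : Filter ι) [l.NeBot] (x : ι → V) (R : ℝ) (hx : ∀ j, ‖x j‖ ≤ R) (η : ℝ) (hη : 0 < η) :
    ∃ y ∈ convexHull ℝ (range x), ∀ g, Tendsto (fun j => inner ℝ (x j) g) l (𝓝 0) →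
      |inner ℝ y g| ≤ η * ‖g‖ := by
  let K : Submodule ℝ V :=
    { carrier := {g | Tendsto (fun j => inner ℝ (x j) g) l (𝓝 0)}
      add_mem' := fun h h' => by simpa [inner_add_right] using Tendsto.add h h'
      zero_mem' := by simp
      smul_mem' := fun c g h => by
        simpa [inner_smul_right] using Tendsto.const_mul c h }
  obtain ⟨j₀⟩ : Nonempty ι := l.nonempty_of_neBot
  have R0 : 0 < R + 1 := by linarith [norm_nonneg (x j₀), hx j₀]
  have cl : IsClosed (K : Set V) := isClosed_of_closure_subset fun g hg => by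
    change Tendsto (fun j => inner ℝ (x j) g) l (𝓝 0)
    rw [Metric.tendsto_nhds]
    intro ε hε
    obtain ⟨g', hg', hd⟩ := Metric.mem_closure_iff.1 hg (ε / 2 / (R + 1)) (by positivity)
    filter_upwards [Metric.tendsto_nhds.1 hg' (ε / 2) (by positivity)] with j hj
    rw [Real.dist_eq, sub_zero] at hj ⊢
    have e : inner ℝ (x j) g = inner ℝ (x j) g' + inner ℝ (x j) (g - g') := by
      rw [inner_sub_right]; ring
    have b : |inner ℝ (x j) (g - g')| ≤ (R + 1) * (ε / 2 / (R + 1)) :=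
      (abs_real_inner_le_norm _ _).trans (mul_le_mul (by linarith [hx j])
        (by rw [← dist_eq_norm]; exact hd.le) (norm_nonneg _) R0.le)
    rw [mul_div_cancel₀ _ R0.ne'] at b
    rw [e]
    linarith [abs_add_le (inner ℝ (x j) g') (inner ℝ (x j) (g - g'))]
  have : CompleteSpace K := cl.completeSpace_coe
  let C : Set V := closure (K.starProjection '' convexHull ℝ (range x))
  have mem : ∀ j, K.starProjection (x j) ∈ C := fun j =>
    subset_closure ⟨x j, subset_convexHull ℝ _ ⟨j, rfl⟩, rfl⟩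
  have cv : Convex ℝ C :=
    ((convex_convexHull ℝ _).linear_image (K.starProjection : V →ₗ[ℝ] V)).closure
  obtain ⟨p, hp, hm⟩ := exists_norm_eq_iInf_of_complete_convex ⟨_, mem j₀⟩
    isClosed_closure.isComplete cv 0
  have pK : p ∈ K := closure_minimal (by
    rintro _ ⟨y, -, rfl⟩
    exact K.starProjection_apply_mem y) cl hp
  have or : ∀ y g, g ∈ K → inner ℝ y g = inner ℝ (K.starProjection y) g := fun y g hg => by
    have := K.starProjection_inner_eq_zero y g hg
    rw [inner_sub_left] at this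
    linarith
  have p0 : p = 0 := by
    have le : ∀ j, ‖p‖ ^ 2 ≤ inner ℝ (x j) p := fun j => by
      have := (norm_eq_iInf_iff_real_inner_le_zero cv hp).1 hm _ (mem j)
      rw [zero_sub, inner_neg_left, inner_sub_right, real_inner_self_eq_norm_sq,
        real_inner_comm, ← or _ _ pK] at this
      linarith
    have := ge_of_tendsto (show Tendsto (fun j => inner ℝ (x j) p) l (𝓝 0) from pK)
      (Eventually.of_forall le)
    exact norm_eq_zero.1 (pow_eq_zero_iff two_ne_zero |>.1 (le_antisymm this (sq_nonneg _)))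
  obtain ⟨_, ⟨y, hy, rfl⟩, hd⟩ := Metric.mem_closure_iff.1 (p0 ▸ hp) η hη
  refine ⟨y, hy, fun g hg => ?_⟩
  rw [or y g hg]
  rw [dist_zero_left] at hd
  exact (abs_real_inner_le_norm _ _).trans (mul_le_mul_of_nonneg_right hd.le (norm_nonneg _))

theorem ipL {X : Type} [MeasurableSpace X] {μ : Measure X} {f a : X → ℝ} (hf : MemLp f 2 μ)
    (ha : MemLp a 2 μ) : inner ℝ (hf.toLp f) (ha.toLp a) = ∫ x, f x * a x ∂μ := by
  rw [L2.inner_def]
  refine integral_congr_ae ?_
  filter_upwards [hf.coeFn_toLp, ha.coeFn_toLp] with x h1 h2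
  rw [h1, h2, real_inner_comm]
  simp

variable {n : ℕ} {M : Mf n}

/-- A smooth density that is almost orthogonal to all the weakly orthogonal functions. -/
theorem dens [M.Cpt] {H : M.Fam (Mat n)} (hm : M.Met H) {ι : Type} (l : Filter ι) [l.NeBot]
    (F : ι → M.X → ℝ) (c C : ℝ) (sF : ∀ j, M.Sm (F j)) (cF : ∀ j x, c ≤ F j x)
    (hC : ∀ j, ∫ x, F j x ^ 2 ∂M.mu H ≤ C) (η : ℝ) (hη : 0 < η) :
    ∃ f, M.Sm f ∧ (∀ x, c ≤ f x) ∧ ∫ x, f x ^ 2 ∂M.mu H ≤ C ∧ ∀ g, M.Sm g →
      Tendsto (fun j => ∫ x, F j x * g x ∂M.mu H) l (𝓝 0) →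
      ∫ x, f x * g x ∂M.mu H ≤ η * Real.sqrt (∫ x, g x ^ 2 ∂M.mu H) := by
  obtain ⟨-, hfin, -, -, hint, -⟩ := mMU n M H hm
  have m2 : ∀ u : M.X → ℝ, M.Sm u → MemLp u 2 (M.mu H) := fun u hu =>
    (memLp_two_iff_integrable_sq hu.continuous.aestronglyMeasurable).2
      (hint ℝ _ (hu.pow 2).continuous)
  have nr : ∀ (u : M.X → ℝ) (hu : MemLp u 2 (M.mu H)),
      ‖hu.toLp u‖ = Real.sqrt (∫ x, u x ^ 2 ∂M.mu H) := fun u hu => by
    rw [← Maz.norm_sq_toLp hu, Real.sqrt_sq (norm_nonneg _)]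
  obtain ⟨y, hy, h⟩ := hull l (fun j => (m2 _ (sF j)).toLp (F j)) (Real.sqrt C)
    (fun j => by rw [nr]; exact Real.sqrt_le_sqrt (hC j)) η hη
  have cv : Convex ℝ {y : Lp ℝ 2 (M.mu H) | ∃ (f : M.X → ℝ) (hf : M.Sm f), (∀ x, c ≤ f x) ∧
      ∫ x, f x ^ 2 ∂M.mu H ≤ C ∧ y = (m2 f hf).toLp f} := by
    rintro _ ⟨f, hf, c1, i1, rfl⟩ _ ⟨g, hg, c2, i2, rfl⟩ a b ha hb hab
    refine ⟨fun x => a * f x + b * g x, (hf.const_mul a).add (hg.const_mul b), fun x => ?_, ?_, ?_⟩
    · have := add_le_add (mul_le_mul_of_nonneg_left (c1 x) ha) (mul_le_mul_of_nonneg_left (c2 x) hb)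
      rwa [← add_mul, hab, one_mul] at this
    · have j1 := (hint ℝ _ (hf.pow 2).continuous).const_mul a
      have j2 := (hint ℝ _ (hg.pow 2).continuous).const_mul b
      calc _ ≤ ∫ x, (a * f x ^ 2 + b * g x ^ 2) ∂M.mu H := by
            refine integral_mono (hint ℝ _ (((hf.const_mul a).add (hg.const_mul b)).pow 2).continuous)
              (j1.add j2) fun x => ?_
            obtain rfl : b = 1 - a := by linarith
            beta_reduce
            nlinarith [mul_nonneg (mul_nonneg ha hb) (sq_nonneg (f x - g x))]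
        _ = a * ∫ x, f x ^ 2 ∂M.mu H + b * ∫ x, g x ^ 2 ∂M.mu H := by
            rw [integral_add j1 j2, integral_const_mul, integral_const_mul]
        _ ≤ a * C + b * C :=
            add_le_add (mul_le_mul_of_nonneg_left i1 ha) (mul_le_mul_of_nonneg_left i2 hb)
        _ = C := by rw [← add_mul, hab, one_mul]
    · rw [← MemLp.toLp_const_smul, ← MemLp.toLp_const_smul, ← MemLp.toLp_add]
      rfl
  obtain ⟨f, hf, c1, i1, rfl⟩ := convexHull_min (by
    rintro _ ⟨j, rfl⟩
    exact ⟨F j, sF j, cF j, hC j, rfl⟩) cv hy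
  refine ⟨f, hf, c1, i1, fun g hg t => ?_⟩
  have := h ((m2 g hg).toLp g) (by simpa only [ipL] using t)
  rw [ipL, nr] at this
  exact (le_abs_self _).trans this

theorem ip_cs {H S T : M.Fam (Mat n)} (hm : M.Met H) (hS : M.Form S) (hT : M.Form T) (x : M.X) :
    M.ip H S T x ^ 2 ≤ M.ip H S S x * M.ip H T T x := by
  have := discrim_le_zero (a := M.ip H T T x) (b := 2 * M.ip H S T x) (c := M.ip H S S x)
    fun t => by
      have h := ((st_PSD n M H hm x).2.1 _ (hS.add (hT.smul t))).1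
      rw [Mf.ip_add, Mf.ip_smul, Mf.ip_comm (S := S + t • T), Mf.ip_comm (S := S + t • T),
        Mf.ip_add, Mf.ip_add, Mf.ip_smul, Mf.ip_smul, Mf.ip_comm (S := T) (T := S)] at h
      linarith
  rw [discrim] at this
  linarith

theorem sm_mx {H S T : M.Fam (Mat n)} (hm : M.Met H) (hS : M.Ten S) (hT : M.Ten T) :
    M.Sm (mx M H S T) :=
  (((mINV n M H hm).1 S hS).2.1.mul ((mINV n M H hm).1 T hT).2.1).sub
    ((mINV n M H hm).2.2.1 S T hS hT).2.1

/-- The inequality of the index for a smooth trace free combination. -/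
theorem idx [M.Cpt] {H θ A : M.Fam (Mat n)} {f v : M.X → ℝ} (hH : M.Kae H) (hθ : M.Clo θ)
    (hA : M.Form A) (hf : M.Sm f) (hv : M.Sm v) (hAA : ∀ x, mx M H A A x = 0)
    (he : ∀ x, M.lap H v x = f x * M.tr H A x - M.tr H θ x) :
    ∫ x, mx M H θ θ x ∂M.mu H ≤
      2 * ∫ x, f x * mx M H θ A x ∂M.mu H + 2 * ∫ x, f x * mx M H (M.hs v) A x ∂M.mu H := by
  have hm := hH.toMet
  obtain ⟨-, -, -, -, hi, -⟩ := mMU n M H hm
  have hs := (mHES n M).1 v hv
  have tθ : M.Ten θ := hθ.toForm.toTen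
  have tv : M.Ten (M.hs v) := hs.toForm.toTen
  have pt : ∀ x, mx M H θ θ x + 2 * mx M H θ (M.hs v) x + mx M H (M.hs v) (M.hs v) x ≤
      2 * (f x * mx M H θ A x) + 2 * (f x * mx M H (M.hs v) A x) := fun x => by
    have h := ((st_PSD n M H hm x).2.1 _ ((hθ.toForm.add hs.toForm).sub (hA.smul (f x)))).1
    have q : ∀ T, M.ip H T (θ + M.hs v - f x • A) x =
        M.ip H T θ x + M.ip H T (M.hs v) x - f x * M.ip H T A x := fun T => by
      rw [Mf.ip_sub, Mf.ip_add, Mf.ip_smul]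
    have q' : ∀ T, M.ip H (θ + M.hs v - f x • A) T x =
        M.ip H T θ x + M.ip H T (M.hs v) x - f x * M.ip H T A x := fun T => by
      rw [Mf.ip_comm, q]
    have e1 := he x
    have e2 := hAA x
    rw [q, q', q', q', Mf.ip_comm (S := M.hs v) (T := θ), Mf.ip_comm (S := A) (T := θ),
      Mf.ip_comm (S := A) (T := M.hs v)] at h
    simp only [mx, Mf.lap] at e1 e2 ⊢
    have z : (M.tr H θ x + M.tr H (M.hs v) x - f x * M.tr H A x) *
      (M.tr H θ x + M.tr H (M.hs v) x - f x * M.tr H A x) = 0 := by rw [e1]; ring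
    have y : f x ^ 2 * (M.tr H A x * M.tr H A x - M.ip H A A x) = 0 := by rw [e2, mul_zero]
    linarith
  have i1 := (hi ℝ _ (hf.mul (sm_mx hm tθ hA.toTen)).continuous).const_mul 2
  have i2 := (hi ℝ _ (hf.mul (sm_mx hm tv hA.toTen)).continuous).const_mul 2
  have i3 := hi ℝ _ (sm_mx hm tθ tθ).continuous
  have i4 := (hi ℝ _ (sm_mx hm tθ tv).continuous).const_mul 2
  have i5 := hi ℝ _ (sm_mx hm tv tv).continuous
  have j2 : Integrable (fun x => mx M H θ θ x + 2 * mx M H θ (M.hs v) x) (M.mu H) := i3.add i4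
  have z1 : ∫ x, mx M H θ (M.hs v) x ∂M.mu H = 0 := st_MXC n M H θ v hH hθ hv
  have z2 : ∫ x, mx M H (M.hs v) (M.hs v) x ∂M.mu H = 0 := st_MXC n M H _ v hH hs hv
  have := integral_mono (j2.add i5) (i1.add i2) pt
  simp only [Pi.add_apply] at this
  rw [integral_add j2 i5, integral_add i3 i4, integral_add i1 i2, integral_const_mul,
    integral_const_mul, integral_const_mul, z1, z2] at this
  linarith

/-- The statement for forms. -/
theorem kv0 [M.Cpt] {H θ A : M.Fam (Mat n)} (hn : 0 < n) (hH : M.Kae H) (hθ : M.Clo θ)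
    (T0 : 0 ≤ ∫ x, M.tr H θ x ∂M.mu H) (hA : M.Form A) (A0 : M.Le 0 A)
    (hAA : ∀ x, mx M H A A x = 0) (J0 : 0 < ∫ x, M.tr H A x ∂M.mu H) {ι : Type} (l : Filter ι)
    [l.NeBot] (F : ι → M.X → ℝ) {c C : ℝ} (c0 : 0 < c) (sF : ∀ j, M.Sm (F j))
    (cF : ∀ j x, c ≤ F j x) (hC : ∀ j, ∫ x, F j x ^ 2 ∂M.mu H ≤ C)
    (t1 : Tendsto (fun j => ∫ x, F j x * mx M H θ A x ∂M.mu H) l (𝓝 0))
    (t2 : ∀ v, M.Sm v → Tendsto (fun j => ∫ x, F j x * mx M H (M.hs v) A x ∂M.mu H) l (𝓝 0)) :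
    ∫ x, mx M H θ θ x ∂M.mu H ≤ 0 := by
  have hm := hH.toMet
  obtain ⟨-, hfin, -, hvol, hint, -⟩ := mMU n M H hm
  have inv := mINV n M H hm
  have tθ : M.Ten θ := hθ.toForm.toTen
  have sa : M.Sm (M.tr H A) := (inv.1 A hA.toTen).2.1
  have st : M.Sm (M.tr H θ) := (inv.1 θ tθ).2.1
  have a0 : ∀ x, 0 ≤ M.tr H A x := hm.tr_nonneg A0
  obtain ⟨B, -, hB⟩ := sa.exists_bound
  have hB2 : ∀ x, M.tr H A x ^ 2 ≤ B ^ 2 := fun x => by
    rw [← sq_abs]
    exact pow_le_pow_left₀ (abs_nonneg _) (hB x) 2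
  have it : ∀ u : M.X → ℝ, M.Sm u → Integrable u (M.mu H) := fun u hu => hint ℝ _ hu.continuous
  set T := ∫ x, M.tr H θ x ∂M.mu H with hT
  set J := ∫ x, M.tr H A x ∂M.mu H with hJ
  have cJ : 0 < c * J := mul_pos c0 J0
  let S : ℝ := T / (c * J)
  have S0 : 0 ≤ S := div_nonneg T0 cJ.le
  let D : ℝ := 2 * (S ^ 2 * B ^ 2) * C + 2 * ∫ x, M.tr H θ x ^ 2 ∂M.mu H
  let K : ℝ := 2 * S * (Real.sqrt (∫ x, mx M H θ A x ^ 2 ∂M.mu H) + Real.sqrt (4 * B ^ 2 * D))
  have K0 : 0 ≤ K := by positivity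
  have main : ∀ η : ℝ, 0 < η → ∫ x, mx M H θ θ x ∂M.mu H ≤ η * K := fun η hη => by
    obtain ⟨f, sf, cf, Cf, h⟩ := dens hm l F c C sF cF hC η hη
    let d : ℝ := ∫ x, f x * M.tr H A x ∂M.mu H
    have dl : c * J ≤ d := by
      rw [hJ, ← integral_const_mul]
      exact integral_mono ((it _ sa).const_mul c) (it _ (sf.mul sa))
        fun x => mul_le_mul_of_nonneg_right (cf x) (a0 x)
    have dp : 0 < d := cJ.trans_le dl
    let s : ℝ := T / d
    have s0 : 0 ≤ s := div_nonneg T0 dp.le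
    have sS : s ≤ S := div_le_div_of_nonneg_left T0 cJ dl
    have sb : M.Sm fun x => s * (f x * M.tr H A x) := Mf.Sm.const_mul s (sf.mul sa)
    obtain ⟨v, b, sv, hv⟩ := KP.st_POI KP.st_HARM KP.st_CPT n M H _ hn hH (st.sub sb)
    have z := ((mGRN n M).2 H v v hH sv sv).1
    have e1 : ∫ x, M.lap H v x ∂M.mu H = b * (M.mu H).real univ - (T - s * d) := by
      simp only [hv]
      rw [integral_sub (integrable_const b) (it _ (st.sub sb)), integral_sub (it _ st) (it _ sb),
        integral_const_mul, integral_const, smul_eq_mul, mul_comm]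
    have e2 : s * d = T := div_mul_cancel₀ T dp.ne'
    have b0 : b = 0 := by
      rw [e1, e2, sub_self, sub_zero] at z
      exact (mul_eq_zero.1 z).resolve_right hvol.ne'
    have ev : ∀ x, M.lap H v x = s * f x * M.tr H A x - M.tr H θ x := fun x => by
      rw [hv, b0]
      ring
    have hs := (mHES n M).1 v sv
    have tv : M.Ten (M.hs v) := hs.toForm.toTen
    have sl : M.Sm (M.lap H v) := (inv.1 _ tv).2.1
    have si : M.Sm (M.ip H (M.hs v) (M.hs v)) := (inv.2.2.1 _ _ tv tv).2.1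
    have b1 : ∫ x, M.lap H v x ^ 2 ∂M.mu H ≤ D := by
      have i1 := (it _ (sf.pow 2)).const_mul (2 * (S ^ 2 * B ^ 2))
      have i2 := (it _ (st.pow 2)).const_mul 2
      refine (integral_mono (it _ (sl.pow 2)) (i1.add i2) fun x => ?_).trans ?_
      · have p3 : s ^ 2 * M.tr H A x ^ 2 ≤ S ^ 2 * B ^ 2 :=
          mul_le_mul (pow_le_pow_left₀ s0 sS 2) (hB2 x) (sq_nonneg _) (sq_nonneg _)
        have p4 := mul_le_mul_of_nonneg_right p3 (sq_nonneg (f x))
        simp only [Pi.add_apply]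
        rw [ev]
        nlinarith [sq_nonneg (s * f x * M.tr H A x + M.tr H θ x)]
      · simp only [Pi.add_apply]
        rw [integral_add i1 i2, integral_const_mul, integral_const_mul]
        exact add_le_add_left (mul_le_mul_of_nonneg_left Cf (by positivity)) _
    have b2 : ∫ x, M.ip H (M.hs v) (M.hs v) x ∂M.mu H = ∫ x, M.lap H v x ^ 2 ∂M.mu H := by
      have : ∫ x, (M.lap H v x * M.lap H v x - M.ip H (M.hs v) (M.hs v) x) ∂M.mu H = 0 :=
        st_MXC n M H _ v hH hs sv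
      rw [integral_sub (it _ (Mf.Sm.mul sl sl)) (it _ si)] at this
      simp only [sq]
      linarith
    have b3 : ∫ x, mx M H (M.hs v) A x ^ 2 ∂M.mu H ≤ 4 * B ^ 2 * D := by
      have i1 := (it _ (sl.pow 2)).const_mul (2 * B ^ 2)
      have i2 := (it _ si).const_mul (2 * B ^ 2)
      refine (integral_mono (it _ ((sm_mx hm tv hA.toTen).pow 2)) (i1.add i2) fun x => ?_).trans ?_
      · have p1 := ip_cs hm hs.toForm hA x
        have p2 := hAA x
        have p3 := ((st_PSD n M H hm x).2.1 _ hs.toForm).1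
        have p4 := mul_le_mul_of_nonneg_left (hB2 x) p3
        have p5 := mul_le_mul_of_nonneg_left (hB2 x) (sq_nonneg (M.tr H (M.hs v) x))
        simp only [mx, Mf.lap, Pi.add_apply] at p2 ⊢
        rw [show M.ip H A A x = M.tr H A x ^ 2 by linarith] at p1
        nlinarith [sq_nonneg (M.tr H (M.hs v) x * M.tr H A x + M.ip H (M.hs v) A x)]
      · simp only [Pi.add_apply]
        rw [integral_add i1 i2, integral_const_mul, integral_const_mul, b2]
        nlinarith [mul_le_mul_of_nonneg_left b1 (sq_nonneg B)]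
    have k := idx hH hθ hA (sf.const_mul s) sv hAA ev
    simp only [mul_assoc s] at k
    rw [integral_const_mul, integral_const_mul] at k
    have h1 := h _ (sm_mx hm tθ hA.toTen) t1
    have h2 := (h _ (sm_mx hm tv hA.toTen) (t2 v sv)).trans
      (mul_le_mul_of_nonneg_left (Real.sqrt_le_sqrt b3) hη.le)
    have h3 := mul_le_mul_of_nonneg_left (add_le_add h1 h2) s0
    have h4 := mul_le_mul_of_nonneg_right sS (show 0 ≤ η * Real.sqrt (∫ x, mx M H θ A x ^ 2
      ∂M.mu H) + η * Real.sqrt (4 * B ^ 2 * D) by positivity)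
    simp only [K]
    linarith
  refine le_of_forall_pos_le_add fun ε hε => (main (ε / (K + 1)) (by positivity)).trans ?_
  rw [zero_add, div_mul_eq_mul_div, div_le_iff₀ (by positivity)]
  nlinarith

end Pool.Agent.Lib.NU4.K82
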