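import Pool.Agent.Lib.NU4.Blue
import Pool.Agent.Lib.NU4.Kv82
import Pool.Agent.Lib.NU4.Kv53b
import Pool.Agent.Lib.HLK.All0
import Pool.Agent.Lib.K3E.B_KAN

/-! Project nu4, row KV: the vanishing theorem in degree `n - 1`. -/

open scoped Classical Topology ContDiff ComplexOrder Matrix
open Set Filter MeasureTheory

set_option linter.unusedVariables false

noncomputable section

namespace Pool.Agent.Lib.NU4

open Pool.Agent.Lib.SV (E)
open Pool.Agent.Lib.HS32 Pool.Agent.Lib.HLK Pool.Agent.Lib.F4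
open Pool.Agent.Lib.K3E (kan wk lk)

namespace K82

variable {n : ℕ} {M : Mf n} {σ : Type} [Fintype σ] [DecidableEq σ]

omit [DecidableEq σ] in
theorem am {G : Mx σ} (hG : G.PosDef) (u y : σ → ℂ) {t : ℝ} (ht : 0 < t) :
    |(star u ⬝ᵥ G *ᵥ y).re| ≤ t * (star u ⬝ᵥ G *ᵥ u).re + (star y ⬝ᵥ G *ᵥ y).re / t := by
  have s : (star y ⬝ᵥ G *ᵥ u).re = (star u ⬝ᵥ G *ᵥ y).re := by
    have : star (star y ⬝ᵥ G *ᵥ u) = star u ⬝ᵥ G *ᵥ y := by
      rw [Matrix.dotProduct_mulVec, ← hG.1.eq, ← Matrix.star_mulVec, hG.1.eq,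
        Matrix.star_dotProduct, star_star, dotProduct_comm]
    rw [← this]
    rfl
  have p : ∀ c : ℝ, 0 ≤ c ^ 2 * (star u ⬝ᵥ G *ᵥ u).re + 2 * c * (star u ⬝ᵥ G *ᵥ y).re +
      (star y ⬝ᵥ G *ᵥ y).re := fun c => by
    have := (Complex.le_def.1 (hG.posSemidef.dotProduct_mulVec_nonneg ((c : ℂ) • u + y))).1
    simp only [star_add, star_smul, Matrix.mulVec_add, Matrix.mulVec_smul, add_dotProduct,
      dotProduct_add, smul_dotProduct, dotProduct_smul, smul_eq_mul, RCLike.star_def,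
      Complex.conj_ofReal, Complex.add_re, Complex.re_ofReal_mul, Complex.zero_re, s] at this
    linarith
  have u0 := (Complex.le_def.1 (hG.posSemidef.dotProduct_mulVec_nonneg u)).1
  have y0 := (Complex.le_def.1 (hG.posSemidef.dotProduct_mulVec_nonneg y)).1
  rw [Complex.zero_re] at u0 y0
  rw [← mul_le_mul_iff_right₀ ht, mul_add, mul_div_cancel₀ _ ht.ne', ← abs_of_pos ht, ← abs_mul,
    abs_of_pos ht, abs_le]
  constructor <;> nlinarith [p t, p (-t), mul_nonneg (sq_nonneg t) u0]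

/-- The pairing of a fixed section with the sections that are small for the weights. -/
theorem pair [M.Cpt] {H : M.Fam (Mat n)} (hm : M.Met H) {b : Bun M σ} (hb : b.Ok)
    {U : M.Fam (σ → ℂ)} (hU : b.Sec U) {Y : ℕ → M.Fam (σ → ℂ)} (hY : ∀ j, b.Sec (Y j))
    {F : ℕ → M.X → ℝ} {C : ℝ} (sF : ∀ j, M.Sm (F j)) (cF : ∀ j x, 1 ≤ F j x)
    (hC : ∀ j, ∫ x, F j x ∂M.mu H ≤ C)
    (hs : ∀ j : ℕ, ∫ x, b.pn (Y j) x / F j x ∂M.mu H ≤ (1 / ((j : ℝ) + 1)) ^ 2) :
    Tendsto (fun j => (b.ip H U (Y j)).re) atTop (𝓝 0) := by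
  obtain ⟨-, -, -, -, hint, -⟩ := mMU n M H hm
  have sU : M.Sm (b.pn U) := (hb.pp_rep hU hU).2.re
  obtain ⟨B, B0, hB⟩ := sU.exists_bound
  have t := (tendsto_one_div_add_atTop_nhds_zero_nat (𝕜 := ℝ)).mul_const (B * C + 1)
  rw [zero_mul] at t
  refine squeeze_zero_norm (fun j => ?_) t
  have d0 : (0 : ℝ) < 1 / ((j : ℝ) + 1) := by positivity
  have hj := hs j
  generalize 1 / ((j : ℝ) + 1) = d at d0 hj ⊢
  have F0 : ∀ x, 0 < F j x := fun x => one_pos.trans_le (cF j x)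
  have ip := hint ℂ _ (hb.pp_rep hU (hY j)).2.continuous
  have i1 := (hint ℝ _ (sF j).continuous).const_mul (d * B)
  have sY : M.Sm (b.pn (Y j)) := (hb.pp_rep (hY j) (hY j)).2.re
  have i2 := (hint ℝ _ (sY.div (sF j) fun x => (F0 x).ne').continuous).const_mul d⁻¹
  have e : (b.ip H U (Y j)).re = ∫ x, (b.pp U (Y j) x).re ∂M.mu H := (integral_re ip).symm
  rw [e]
  calc _ ≤ ∫ x, (d * B * F j x + d⁻¹ * (b.pn (Y j) x / F j x)) ∂M.mu H := by
        refine norm_integral_le_of_norm_le (i1.add i2) (Eventually.of_forall fun x => ?_)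
        refine (am (hb.pos.ch x) (M.ev U x) (M.ev (Y j) x) (mul_pos d0 (F0 x))).trans
          (add_le_add ?_ (le_of_eq ?_))
        · have := mul_le_mul_of_nonneg_left ((le_abs_self _).trans (hB x)) (mul_pos d0 (F0 x)).le
          exact this.trans (le_of_eq (by ring))
        · change b.pn (Y j) x / _ = _
          have := (F0 x).ne'
          field_simp
    _ = d * B * ∫ x, F j x ∂M.mu H + d⁻¹ * ∫ x, b.pn (Y j) x / F j x ∂M.mu H := by
        rw [integral_add i1 i2, integral_const_mul, integral_const_mul]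
    _ ≤ d * B * C + d⁻¹ * d ^ 2 := add_le_add (mul_le_mul_of_nonneg_left (hC j) (by positivity))
        (mul_le_mul_of_nonneg_left hj (by positivity))
    _ = d * (B * C + 1) := by field_simp

end K82

open K82 in
theorem st_KV (hKIT : St_KIT) (hIBP : St_IBP) : St_KV := by
  intro n M _ H m q W hH hq q0 hm2 T0 hW hd nz ⟨C, ap⟩
  have hm := hH.toMet
  have hn : 0 < n := by omega
  have wt := (K3E.bKAN n M H m hm).1
  have ok : (lk H m).Ok := (aLAM n M H _ _ hm wt).1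
  obtain ⟨sec, hol⟩ := (hKIT n M H m W hm).1.1 hW
  obtain ⟨A, hA, A0, hAA, tA, cA⟩ := K53.kv1 hm wt hq sec hd
  obtain ⟨-, fin, op, -, hint, -⟩ := mMU n M H hm
  choose F sF cF lF pF using fun j : ℕ => ap ((1 / ((j : ℝ) + 1)) ^ 2) (by positivity)
  have low : ∀ k, k ≤ 2 * n → ∀ j, ∫ x, F j x ^ k ∂M.mu H ≤ C := fun k hk j =>
    (integral_mono (hint ℝ _ ((sF j).pow k).continuous) (hint ℝ _ ((sF j).pow _).continuous)
      fun x => pow_le_pow_right₀ (cF j x) hk).trans (lF j)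
  have sY : ∀ j, (lk H m).Sec (P0 M H m (sm M (F j) W)) := fun j =>
    (hIBP n M H m _ _ _ hH (sF j) (sF j) (hIBP n M H m W _ _ hH (sF j) (sF j) sec).2.1).2.2.1
  have pr : ∀ U, (lk H m).Sec U → Tendsto
      (fun j => ((lk H m).ip H U (P0 M H m (sm M (F j) W))).re) atTop (𝓝 0) := fun U hU =>
    pair hm ok hU sY sF cF (fun j => by simpa using low 1 (by omega) j) pF
  have J0 : 0 < ∫ x, M.tr H A x ∂M.mu H := by
    obtain ⟨e, he, z, hz, ne⟩ := nz
    have g0 : ∀ x, 0 ≤ M.tr H A x := hm.tr_nonneg A0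
    have ct := ((mINV n M H hm).1 A hA.toTen).2.1.continuous
    refine ct.integral_pos_of_hasCompactSupport_nonneg_nonzero
      (HasCompactSupport.of_compactSpace _) g0 (x := e.symm z) ?_
    rw [tA, Bun.pn, (ok.pp_rep sec sec).1 e he z hz]
    exact (Complex.pos_iff.1 ((ok.pos e he z hz).dotProduct_mulVec_pos ne)).1.ne'
  refine kv0 hn hH ((mHES n M).2.2.2.2.2.2.2.2.1 H hm).neg T0 hA A0 hAA J0 atTop F one_pos sF cF
    (low 2 (by omega)) ?_ fun v hv => ?_
  · have m1 : (m : ℝ) - 1 ≠ 0 := by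
      have : (2 : ℝ) ≤ m := by exact_mod_cast hm2
      linarith
    have := (pr _ (hIBP n M H m W _ _ hH (sF 0) (sF 0) sec).2.2.1).const_mul ((m : ℝ) - 1)⁻¹
    rw [mul_zero] at this
    refine this.congr fun j => ?_
    rw [← ((hIBP n M H m W _ _ hH (sF j) (sF j) sec).2.2.2.2.2 hol).2, inv_mul_cancel_left₀ m1]
    simp only [← cA]
  · have := (pr _ (hIBP n M H m W _ v hH hv hv sec).1).neg
    rw [neg_zero] at this
    refine this.congr fun j => ?_
    rw [← ((hIBP n M H m W _ v hH (sF j) hv sec).2.2.2.2.2 hol).1]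
    simp only [← cA]

end Pool.Agent.Lib.NU4
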