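import Mathlib

/-! Covariance of the series of Cohen and Kuznetsov. -/

open PowerSeries Finset

noncomputable section

namespace Pool.Agent.Lib.NU4.K23

variable {A : Type} [CommRing A] [Algebra ℚ A]

/-- A derivation applied to the coefficients. -/
def cD (D : A →+ A) (F : A⟦X⟧) : A⟦X⟧ := PowerSeries.mk fun n => D (coeff n F)

/-- The equation of the series. -/
def Eqn (D : A →+ A) (k : ℕ) (a b q : A) (F : A⟦X⟧) : Prop :=
  X * d⁄dX A (d⁄dX A F) + (k : A⟦X⟧) * d⁄dX A F + C q * (X * F) =
    cD D F + C a * F - C b * (X * d⁄dX A F)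

omit [Algebra ℚ A] in
theorem cD_mul {D : A →+ A} (hD : ∀ x y, D (x * y) = D x * y + x * D y) (F G : A⟦X⟧) :
    cD D (F * G) = cD D F * G + F * cD D G := by
  ext n
  simp only [cD, coeff_mk, coeff_mul, map_sum, map_add, hD, sum_add_distrib]

omit [Algebra ℚ A] in
theorem D_pow {D : A →+ A} (hD : ∀ x y, D (x * y) = D x * y + x * D y) (g : A) (n : ℕ) :
    D (g ^ (n + 1)) = (n + 1) * g ^ n * D g := by
  induction n with
  | zero => simp
  | succ n ih => rw [pow_succ, hD, ih]; push_cast; ring

omit [Algebra ℚ A] in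
theorem D_one {D : A →+ A} (hD : ∀ x y, D (x * y) = D x * y + x * D y) : D 1 = 0 := by
  have := hD 1 1
  simpa using this

omit [Algebra ℚ A] in
theorem eqn_iff (D : A →+ A) (k : ℕ) (a b q : A) (F : A⟦X⟧) : Eqn D k a b q F ↔
    k * coeff 1 F = D (coeff 0 F) + a * coeff 0 F ∧ ∀ r : ℕ,
      (r + 2) * (r + 1 + k) * coeff (r + 2) F = D (coeff (r + 1) F) + a * coeff (r + 1) F -
        (r + 1) * b * coeff (r + 1) F - q * coeff r F := by
  have e : (k : A⟦X⟧) = C (k : A) := (map_natCast _ _).symm
  unfold Eqn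
  rw [PowerSeries.ext_iff, e]
  constructor
  · intro h
    refine ⟨?_, fun r => ?_⟩
    · have := h 0
      simp only [map_add, map_sub, coeff_C_mul, coeff_zero_X_mul, coeff_derivative, cD,
        coeff_mk] at this
      push_cast at this
      linear_combination this
    · have := h (r + 1)
      simp only [map_add, map_sub, coeff_C_mul, coeff_succ_X_mul, coeff_derivative, cD,
        coeff_mk] at this
      push_cast at this
      linear_combination this
  · rintro ⟨h0, h⟩ (_ | r)
    · simp only [map_add, map_sub, coeff_C_mul, coeff_zero_X_mul, coeff_derivative, cD, coeff_mk]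
      push_cast
      linear_combination h0
    · simp only [map_add, map_sub, coeff_C_mul, coeff_succ_X_mul, coeff_derivative, cD, coeff_mk]
      push_cast
      linear_combination h r

omit [Algebra ℚ A] in
theorem eqn_scale {D D' : A →+ A} (hD : ∀ x y, D (x * y) = D x * y + x * D y) {g : A}
    (hD' : ∀ x, D' x = g * D x) {k : ℕ} {a b q : A} {F : A⟦X⟧} (h : Eqn D k a b q F) :
    Eqn D' k (g * a) (g * b + D g) (g ^ 2 * q) (rescale g F) := by
  rw [eqn_iff] at h ⊢
  simp only [coeff_rescale, hD', hD, D_pow hD]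
  refine ⟨?_, fun r => ?_⟩
  · simp only [pow_zero, D_one hD]
    linear_combination g * h.1
  · linear_combination g ^ (r + 2) * h.2 r

theorem ex_d (u : A) : d⁄dX A (rescale u (exp A)) = C u * rescale u (exp A) := by
  ext n
  simp only [coeff_derivative, coeff_rescale, coeff_exp, coeff_C_mul]
  have : algebraMap ℚ A (1 / (n + 1).factorial) * (n + 1) = algebraMap ℚ A (1 / n.factorial) := by
    have e : ((n : A) + 1) = algebraMap ℚ A (n + 1) := by simp
    rw [e, ← map_mul, Nat.factorial_succ]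
    congr 1
    push_cast
    field_simp
  linear_combination u ^ (n + 1) * this

theorem D_rat {D : A →+ A} (hD : ∀ x y, D (x * y) = D x * y + x * D y) (t : ℚ) :
    D (algebraMap ℚ A t) = 0 := by
  rw [Algebra.algebraMap_eq_smul_one, map_rat_smul, D_one hD, smul_zero]

theorem ex_D {D : A →+ A} (hD : ∀ x y, D (x * y) = D x * y + x * D y) (u : A) :
    cD D (rescale u (exp A)) = C (D u) * (X * rescale u (exp A)) := by
  ext (_ | n)
  · simp [cD, D_one hD, coeff_zero_X_mul]
  · have := congrArg (coeff n) (ex_d (1 : A))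
    simp only [coeff_derivative, coeff_rescale, coeff_exp, coeff_C_mul, one_pow, one_mul] at this
    simp only [cD, coeff_mk, coeff_rescale, coeff_exp, coeff_C_mul, coeff_succ_X_mul, hD, D_rat hD,
      D_pow hD]
    linear_combination u ^ n * D u * this

theorem eqn_shift {D : A →+ A} (hD : ∀ x y, D (x * y) = D x * y + x * D y) (u : A) {k : ℕ}
    {a b q : A} {F : A⟦X⟧} (h : Eqn D k a b q F) :
    Eqn D k (a + k * u) (b - 2 * u) (q + D u - b * u + u ^ 2) (rescale u (exp A) * F) := by
  unfold Eqn at h ⊢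
  have e2 : (C (2 : A) : A⟦X⟧) = 2 := map_ofNat _ 2
  simp only [cD_mul hD, ex_D hD, Derivation.leibniz, map_add, ex_d, smul_eq_mul, map_sub, map_mul,
    map_pow, map_natCast, derivative_C, e2]
  linear_combination rescale u (exp A) * h

theorem eqn_uniq {D : A →+ A} {k : ℕ} (hk : 0 < k) {a b q : A} {F G : A⟦X⟧} (hF : Eqn D k a b q F)
    (hG : Eqn D k a b q G) (h0 : coeff 0 F = coeff 0 G) : F = G := by
  rw [eqn_iff] at hF hG
  have c : ∀ (n : ℕ) (x y : A), 0 < n → n * x = n * y → x = y := fun n x y hn e => by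
    have : algebraMap ℚ A (1 / n) * n = 1 := by
      rw [← map_natCast (algebraMap ℚ A), ← map_mul, one_div_mul_cancel (by positivity), map_one]
    linear_combination algebraMap ℚ A (1 / n) * e - (x - y) * this
  have : ∀ r, coeff r F = coeff r G ∧ coeff (r + 1) F = coeff (r + 1) G := fun r => by
    induction r with
    | zero => exact ⟨h0, c k _ _ hk (by rw [hF.1, hG.1, h0])⟩
    | succ r ih =>
      refine ⟨ih.2, c ((r + 2) * (r + 1 + k)) _ _ (by positivity) ?_⟩
      push_cast
      rw [hF.2, hG.2, ih.1, ih.2]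
  exact PowerSeries.ext fun r => (this r).1

omit [Algebra ℚ A] in
theorem coeff_pi (F : A⟦X⟧) (n : ℕ) : coeff n (F * rescale (-1) F) =
    ∑ x ∈ antidiagonal n, (-1) ^ x.2 * coeff x.1 F * coeff x.2 F := by
  rw [coeff_mul]
  exact sum_congr rfl fun x _ => by rw [coeff_rescale]; ring

theorem pi_shift (u : A) (F : A⟦X⟧) :
    rescale u (exp A) * F * rescale (-1) (rescale u (exp A) * F) = F * rescale (-1) F := by
  have : rescale u (exp A) * rescale (-1) (rescale u (exp A)) = 1 := by
    rw [rescale_rescale, exp_mul_exp_eq_exp_add, mul_neg_one, add_neg_cancel, rescale_zero_apply,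
      constantCoeff_exp, map_one]
  rw [map_mul]
  linear_combination F * rescale (-1) F * this

/-- Covariance: `a` stands for `k b / 2`, `q` for one half of the projective connection and `u` for
one half of `D g`. -/
theorem ck {D D' : A →+ A} (hD : ∀ x y, D (x * y) = D x * y + x * D y) {g u : A}
    (hD' : ∀ x, D' x = g * D x) (hu : 2 * u = D g) {k : ℕ} (hk : 0 < k) {a q : A} {c c' : ℕ → A}
    (h0 : c' 0 = c 0) (h1 : k * c 1 = D (c 0) + a * c 0)
    (h2 : ∀ r : ℕ, (r + 2) * (r + 1 + k) * c (r + 2) = D (c (r + 1)) + a * c (r + 1) - q * c r)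
    (h1' : k * c' 1 = D' (c' 0) + (g * a + k * u) * c' 0)
    (h2' : ∀ r : ℕ, (r + 2) * (r + 1 + k) * c' (r + 2) = D' (c' (r + 1)) +
      (g * a + k * u) * c' (r + 1) - (g ^ 2 * q + g * D u - u ^ 2) * c' r) :
    PowerSeries.mk c' = rescale u (exp A) * rescale g (PowerSeries.mk c) ∧ ∀ n,
      ∑ x ∈ antidiagonal n, (-1) ^ x.2 * c' x.1 * c' x.2 =
        g ^ n * ∑ x ∈ antidiagonal n, (-1) ^ x.2 * c x.1 * c x.2 := by
  have hL : ∀ x y, D' (x * y) = D' x * y + x * D' y := fun x y => by rw [hD', hD', hD', hD]; ring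
  have e : Eqn D k a 0 q (PowerSeries.mk c) :=
    (eqn_iff ..).2 ⟨by simpa using h1, fun r => by simpa using h2 r⟩
  have e' : Eqn D' k (g * a + k * u) 0 (g ^ 2 * q + g * D u - u ^ 2) (PowerSeries.mk c') :=
    (eqn_iff ..).2 ⟨by simpa using h1', fun r => by simpa using h2' r⟩
  have s := eqn_shift hL u (eqn_scale hD hD' e)
  rw [show g * 0 + D g - 2 * u = 0 by rw [hu]; ring, show g ^ 2 * q + D' u - (g * 0 + D g) * u +
    u ^ 2 = g ^ 2 * q + g * D u - u ^ 2 by rw [hD', ← hu]; ring] at s
  have m := eqn_uniq hk e' s (by simp [coeff_mul, h0])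
  refine ⟨m, fun n => ?_⟩
  have a1 := coeff_pi (PowerSeries.mk c') n
  have a2 := coeff_pi (PowerSeries.mk c) n
  simp only [coeff_mk] at a1 a2
  rw [← a1, ← a2, m, pi_shift, rescale_rescale, mul_comm g, ← rescale_rescale, ← map_mul,
    coeff_rescale]

end Pool.Agent.Lib.NU4.K23
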