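import Mathlib

/-! Project nu4: the top term of a terminating Rankin-Cohen series solves a Riccati equation. -/

open PowerSeries Topology

noncomputable section

namespace Pool.Agent.Lib.NU4

namespace W74

/-- The derivative of a power series. -/
abbrev dx (F : ℂ⟦X⟧) : ℂ⟦X⟧ := d⁄dX ℂ F

theorem dx_mul (F G : ℂ⟦X⟧) : dx (F * G) = dx F * G + F * dx G := by
  rw [dx, Derivation.leibniz, smul_eq_mul, smul_eq_mul]
  ring

theorem dx_C (a : ℂ) (F : ℂ⟦X⟧) : dx (C a * F) = C a * dx F := by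
  rw [dx_mul, dx, derivative_C]
  ring

theorem co_X (F : ℂ⟦X⟧) (n : ℕ) : coeff n (X * dx F) = n * coeff n F := by
  cases n with
  | zero => simp
  | succ n => rw [coeff_succ_X_mul, coeff_derivative]; push_cast; ring

theorem top {F G : ℂ⟦X⟧} {m : ℕ} (hF : ∀ n, m < n → coeff n F = 0)
    (hG : ∀ n, m < n → coeff n G = 0) : coeff (m + m) (F * G) = coeff m F * coeff m G := by
  rw [coeff_mul, Finset.sum_eq_single (m, m)]
  · rintro ⟨i, j⟩ h1 h2
    have h3 : i + j = m + m := Finset.HasAntidiagonal.mem_antidiagonal.1 h1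
    rcases lt_trichotomy i m with h | rfl | h
    · rw [hG j (by omega), mul_zero]
    · exact absurd (by rw [show j = i by omega]) h2
    · rw [hF i h, zero_mul]
  · intro h
    exact absurd (by simp) h

variable {F G F' G' : ℂ⟦X⟧} {k l u : ℂ}

theorem id1 (hF : F' + C l * F = X * dx (dx F) + C k * dx F + C u * (X * F))
    (hG : G' + C l * G = -(X * dx (dx G) + C k * dx G + C u * (X * G))) :
    F' * G + F * G' + C (2 * l) * (F * G) =
      X * dx (dx F * G - F * dx G) + C k * (dx F * G - F * dx G) := by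
  rw [dx, map_sub, map_mul C]
  change _ = X * (dx (dx F * G) - dx (F * dx G)) + _
  rw [dx_mul, dx_mul, map_ofNat]
  linear_combination G * hF + F * hG

theorem id2 (hF : F' + C l * F = X * dx (dx F) + C k * dx F + C u * (X * F))
    (hG : G' + C l * G = -(X * dx (dx G) + C k * dx G + C u * (X * G))) :
    dx F' * G + dx F * G' - (F' * dx G + F * dx G') + C (2 * l) * (dx F * G - F * dx G) =
      X * dx (dx (dx (F * G))) + C (k + 1) * dx (dx (F * G)) - C 4 * (X * dx (dx F * dx G)) -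
        C (4 * k + 2) * (dx F * dx G) + C (2 * u) * (F * G) := by
  have h1 := congrArg dx hF
  have h2 := congrArg dx hG
  simp only [map_add, map_neg, dx_mul, derivative_C, derivative_X, map_mul C, map_ofNat, map_one]
    at h1 h2 ⊢
  linear_combination G * h1 + dx F * hG - dx G * hF - F * h2

/-- The series `P y` has the derivative `P'` at `z` in the direction `ξ`. -/
def Hs {E : Type*} [NormedAddCommGroup E] [NormedSpace ℂ E] (z ξ : E) (P : E → ℂ⟦X⟧)
    (P' : ℂ⟦X⟧) : Prop := ∀ n, DifferentiableAt ℂ (fun y => coeff n (P y)) z ∧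
  fderiv ℂ (fun y => coeff n (P y)) z ξ = coeff n P'

variable {E : Type*} [NormedAddCommGroup E] [NormedSpace ℂ E] {z ξ : E} {P Q : E → ℂ⟦X⟧}
  {P' Q' : ℂ⟦X⟧}

theorem Hs.mul (hP : Hs z ξ P P') (hQ : Hs z ξ Q Q') :
    Hs z ξ (fun y => P y * Q y) (P' * Q z + P z * Q') := by
  intro n
  simp only [coeff_mul, map_add]
  refine ⟨DifferentiableAt.fun_sum fun x _ => (hP _).1.fun_mul (hQ _).1, ?_⟩
  rw [fderiv_fun_sum fun x _ => (hP _).1.fun_mul (hQ _).1, sum_apply,
    ← Finset.sum_add_distrib]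
  refine Finset.sum_congr rfl fun x _ => ?_
  rw [fderiv_fun_mul (hP _).1 (hQ _).1]
  simp only [add_apply, smul_apply, smul_eq_mul,
    (hP _).2, (hQ _).2]
  ring

theorem Hs.sub (hP : Hs z ξ P P') (hQ : Hs z ξ Q Q') :
    Hs z ξ (fun y => P y - Q y) (P' - Q') := by
  intro n
  simp only [map_sub]
  refine ⟨(hP _).1.fun_sub (hQ _).1, ?_⟩
  rw [fderiv_fun_sub (hP _).1 (hQ _).1, sub_apply, (hP _).2, (hQ _).2]

theorem Hs.dx (hP : Hs z ξ P P') : Hs z ξ (fun y => dx (P y)) (dx P') := by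
  intro n
  simp only [coeff_derivative]
  refine ⟨(hP _).1.mul_const _, ?_⟩
  rw [fderiv_mul_const (hP _).1, smul_apply, (hP _).2, smul_eq_mul, mul_comm]

theorem Hs.zero (hP : Hs z ξ P P') {n : ℕ} (h : ∀ᶠ y in 𝓝 z, coeff n (P y) = 0) :
    coeff n P' = 0 := by
  rw [← (hP n).2, Filter.EventuallyEq.fderiv_eq (f := fun _ => 0) h]
  simp

theorem ode {c d : ℕ → ℂ} (h0 : k * c 1 = d 0 + l * c 0)
    (h : ∀ r : ℕ, (r + 2) * (r + 1 + k) * c (r + 2) = d (r + 1) + l * c (r + 1) - u * c r) :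
    (mk d + C l * mk c = X * dx (dx (mk c)) + C k * dx (mk c) + C u * (X * mk c)) ∧
    (mk fun r => (-1) ^ r * d r) + C l * (mk fun r => (-1) ^ r * c r) =
      -(X * dx (dx (mk fun r => (-1) ^ r * c r)) + C k * dx (mk fun r => (-1) ^ r * c r) +
        C u * (X * mk fun r => (-1) ^ r * c r)) := by
  constructor
  · ext n
    simp only [map_add, coeff_C_mul, co_X, coeff_derivative, coeff_mk]
    cases n with
    | zero => simp only [coeff_zero_X_mul]; push_cast; linear_combination -h0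
    | succ n => rw [coeff_succ_X_mul, coeff_mk]; push_cast; linear_combination -h n
  · ext n
    simp only [map_add, map_neg, coeff_C_mul, co_X, coeff_derivative, coeff_mk]
    cases n with
    | zero => simp only [coeff_zero_X_mul]; push_cast; linear_combination -h0
    | succ n =>
      rw [coeff_succ_X_mul, coeff_mk]
      push_cast
      linear_combination (-1) ^ n * h n

end W74

open W74

/-- The coefficients `c r` of the Cohen-Kuznetsov series along `v`; if the brackets `p n` vanish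
for `n > m`, the bracket `p m` satisfies two differential identities. -/
theorem wr74 {E : Type*} [NormedAddCommGroup E] [NormedSpace ℂ E] {O : Set E} (hO : IsOpen O)
    (v : E → E) (c : ℕ → E → ℂ) (l u : E → ℂ) (k m : ℕ) (hk : 0 < k) (p : ℕ → E → ℂ)
    (hp : ∀ n y, p n y = ∑ x ∈ Finset.HasAntidiagonal.antidiagonal n, c x.1 y * ((-1) ^ x.2 * c x.2 y))
    (hc : ∀ r, ∀ y ∈ O, DifferentiableAt ℂ (c r) y)
    (h0 : ∀ y ∈ O, k * c 1 y = fderiv ℂ (c 0) y (v y) + l y * c 0 y)
    (h1 : ∀ r : ℕ, ∀ y ∈ O, (r + 2) * (r + 1 + k) * c (r + 2) y =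
      fderiv ℂ (c (r + 1)) y (v y) + l y * c (r + 1) y - u y * c r y)
    (hm : ∀ n, m < n → ∀ y ∈ O, p n y = 0) :
    ∃ W : E → ℂ, ∀ y ∈ O, DifferentiableAt ℂ (p m) y ∧ DifferentiableAt ℂ W y ∧
      fderiv ℂ (p m) y (v y) + 2 * l y * p m y = (m + k) * W y ∧
      p m y * (fderiv ℂ W y (v y) + 2 * l y * W y) =
        (m + k + 1 / 2) * W y ^ 2 + 2 * u y * p m y ^ 2 := by
  let F : E → ℂ⟦X⟧ := fun y => mk fun r => c r y
  let G : E → ℂ⟦X⟧ := fun y => mk fun r => (-1) ^ r * c r y
  let F' : E → ℂ⟦X⟧ := fun y => mk fun r => fderiv ℂ (c r) y (v y)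
  let G' : E → ℂ⟦X⟧ := fun y => mk fun r => (-1) ^ r * fderiv ℂ (c r) y (v y)
  have ep : ∀ n y, coeff n (F y * G y) = p n y := fun n y => by
    simp only [hp, coeff_mul, F, G, coeff_mk]
  have sF : ∀ y ∈ O, Hs y (v y) F (F' y) := fun y hy n => by
    simp only [F, F', coeff_mk]
    exact ⟨hc n y hy, trivial⟩
  have sG : ∀ y ∈ O, Hs y (v y) G (G' y) := fun y hy n => by
    simp only [G, G', coeff_mk]
    refine ⟨(hc n y hy).const_mul _, ?_⟩
    rw [fderiv_const_mul (hc n y hy)]
    rfl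
  have o := fun y hy => ode (c := fun r => c r y) (d := fun r => fderiv ℂ (c r) y (v y))
    (h0 y hy) fun r => h1 r y hy
  have sP := fun y hy => (sF y hy).mul (sG y hy)
  have sW := fun y hy => ((sF y hy).dx.mul (sG y hy)).sub ((sF y hy).mul (sG y hy).dx)
  have i1 : ∀ y ∈ O, ∀ n, coeff n (F' y * G y + F y * G' y) + 2 * l y * p n y =
      (n + k) * coeff n (dx (F y) * G y - F y * dx (G y)) := fun y hy n => by
    have := congrArg (coeff n) (id1 (o y hy).1 (o y hy).2)
    rw [map_add, map_add (coeff n) (X * _), co_X, coeff_C_mul, coeff_C_mul, ep] at this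
    linear_combination this
  have i2 : ∀ y ∈ O, ∀ n, m ≤ n → coeff n (dx (F' y) * G y + dx (F y) * G' y -
      (F' y * dx (G y) + F y * dx (G' y))) + 2 * l y * coeff n (dx (F y) * G y - F y * dx (G y)) =
      -(4 * n + 4 * k + 2) * coeff n (dx (F y) * dx (G y)) + 2 * u y * p n y := fun y hy n hn => by
    have := congrArg (coeff n) (id2 (o y hy).1 (o y hy).2)
    rw [map_add, map_add, map_sub (coeff n) (_ - _), map_sub (coeff n) (_ + C _ * _), map_add,
      co_X, coeff_C_mul, coeff_C_mul, coeff_C_mul, coeff_C_mul, coeff_C_mul, co_X,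
      coeff_derivative, coeff_derivative, ep, ep, hm (n + 1 + 1) (by omega) y hy] at this
    linear_combination this
  have nz : ∀ n : ℕ, 0 < n → (n : ℂ) ≠ 0 := fun n h => Nat.cast_ne_zero.2 h.ne'
  have zW : ∀ n, m < n → ∀ y ∈ O, coeff n (dx (F y) * G y - F y * dx (G y)) = 0 := by
    intro n hn y hy
    have h2 := i1 y hy n
    rw [(sP y hy).zero (by
      filter_upwards [hO.mem_nhds hy] with x hx using (ep n x).trans (hm n hn x hx)),
      hm n hn y hy] at h2
    refine mul_left_cancel₀ (nz (n + k) (by omega)) ?_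
    push_cast
    linear_combination -h2
  have zY : ∀ n, m < n → ∀ y ∈ O, coeff n (dx (F y) * dx (G y)) = 0 := by
    intro n hn y hy
    have h2 := i2 y hy n hn.le
    rw [(sW y hy).zero (by filter_upwards [hO.mem_nhds hy] with x hx using zW n hn x hx),
      hm n hn y hy, zW n hn y hy] at h2
    refine mul_left_cancel₀ (nz (4 * n + 4 * k + 2) (by omega)) ?_
    push_cast
    linear_combination h2
  refine ⟨fun y => coeff m (dx (F y) * G y - F y * dx (G y)), fun y hy => ?_⟩
  have e1 : p m = fun y => coeff m (F y * G y) := funext fun y => (ep m y).symm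
  have zP : ∀ n, m < n → coeff n (F y * G y) = 0 := fun n hn => (ep n y).trans (hm n hn y hy)
  have zD : ∀ n, m ≤ n → coeff n (dx (F y * G y)) = 0 := fun n hn => by
    rw [coeff_derivative, zP _ (by omega), zero_mul]
  have i3 : dx (F y * G y) * dx (F y * G y) = (dx (F y) * G y - F y * dx (G y)) *
      (dx (F y) * G y - F y * dx (G y)) + C 4 * (F y * G y * (dx (F y) * dx (G y))) := by
    rw [dx_mul, map_ofNat]
    ring
  have i4 := congrArg (coeff (m + m)) i3
  rw [map_add, coeff_C_mul, top (fun n h => zD n h.le) (fun n h => zD n h.le),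
    top (fun n h => zW n h y hy) (fun n h => zW n h y hy), top zP (fun n h => zY n h y hy),
    zD m le_rfl, ep] at i4
  refine ⟨e1 ▸ (sP y hy m).1, (sW y hy m).1, ?_, ?_⟩
  · rw [← i1 y hy m, ← (sP y hy m).2, ← e1]
  · rw [(sW y hy m).2, i2 y hy m le_rfl]
    linear_combination (m + k + 1 / 2 : ℂ) * i4

/-- The Riccati equation for the logarithmic derivative of the top bracket. -/
theorem ric74 {E : Type*} [NormedAddCommGroup E] [NormedSpace ℂ E] {h W : E → ℂ} {y ξ : E}
    {a l u : ℂ} (hh : DifferentiableAt ℂ h y) (hW : DifferentiableAt ℂ W y) (h0 : h y ≠ 0)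
    (h1 : fderiv ℂ h y ξ + 2 * l * h y = a * W y)
    (h2 : h y * (fderiv ℂ W y ξ + 2 * l * W y) = (a + 1 / 2) * W y ^ 2 + 2 * u * h y ^ 2) :
    DifferentiableAt ℂ (fun x => W x / h x) y ∧
      fderiv ℂ (fun x => W x / h x) y ξ - (W y / h y) ^ 2 / 2 = 2 * u := by
  have d1 : DifferentiableAt ℂ (fun x => W x / h x) y := by
    simp only [div_eq_mul_inv]
    exact hW.fun_mul (hh.fun_inv h0)
  refine ⟨d1, ?_⟩
  have e : W =ᶠ[𝓝 y] fun x => W x / h x * h x := by
    filter_upwards [hh.continuousAt.eventually_ne h0] with x hx using (div_mul_cancel₀ _ hx).symm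
  have e2 := congrArg (fun T : E →L[ℂ] ℂ => T ξ) e.fderiv_eq
  rw [fderiv_fun_mul d1 hh] at e2
  simp only [add_apply, smul_apply, smul_eq_mul] at e2
  obtain ⟨b, hb⟩ : ∃ b, b = W y / h y := ⟨_, rfl⟩
  have e3 : W y = b * h y := by rw [hb, div_mul_cancel₀ _ h0]
  rw [← hb] at e2 ⊢
  rw [e2, e3] at h2
  rw [e3] at h1
  refine mul_left_cancel₀ (pow_ne_zero 2 h0) ?_
  linear_combination h2 - b * h y * h1

end Pool.Agent.Lib.NU4
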