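import Pool.Agent.Lib.NU4.Ck23
import Pool.Agent.Lib.NU4.Wr74

/-! Covariance of the series of Cohen and Kuznetsov, for functions. -/

open PowerSeries Finset Topology

noncomputable section

namespace Pool.Agent.Lib.NU4.K23

open W74

variable {E : Type*} [NormedAddCommGroup E] [NormedSpace ℂ E]

theorem hs_pow {z ξ : E} {g : E → ℂ} (hg : DifferentiableAt ℂ g z) (n : ℕ) :
    fderiv ℂ (fun y => g y ^ (n + 1)) z ξ = (n + 1) * g z ^ n * fderiv ℂ g z ξ := by
  rw [fderiv_fun_pow _ hg]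
  simp [mul_assoc]

theorem hs_exp {z ξ : E} {u : E → ℂ} (hu : DifferentiableAt ℂ u z) :
    Hs z ξ (fun y => rescale (u y) (exp ℂ))
      (C (fderiv ℂ u z ξ) * (X * rescale (u z) (exp ℂ))) := by
  intro n
  simp only [coeff_rescale, coeff_C_mul]
  refine ⟨(hu.fun_pow _).mul_const _, ?_⟩
  rw [fderiv_mul_const (hu.fun_pow _)]
  cases n with
  | zero => simp
  | succ n =>
    have := congrArg (coeff n) (ex_d (1 : ℂ))
    simp only [coeff_derivative, coeff_rescale, coeff_C_mul, one_pow, one_mul] at this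
    rw [smul_apply, hs_pow hu, coeff_succ_X_mul, coeff_rescale, smul_eq_mul]
    linear_combination u z ^ n * fderiv ℂ u z ξ * this

theorem hs_C {z ξ : E} {t : E → ℂ} (ht : DifferentiableAt ℂ t z) :
    Hs z ξ (fun y => C (t y)) (C (fderiv ℂ t z ξ)) := by
  rintro (_ | n)
  · simpa using ht
  · simp

/-- The product of two transformed series. -/
theorem pi_two (u g : ℂ) (c d : ℕ → ℂ) (n : ℕ) :
    ∑ x ∈ antidiagonal n, coeff x.1 (rescale u (exp ℂ) * rescale g (mk c)) *
      ((-1) ^ x.2 * coeff x.2 (rescale u (exp ℂ) * rescale g (mk d))) =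
    g ^ n * ∑ x ∈ antidiagonal n, c x.1 * ((-1) ^ x.2 * d x.2) := by
  have e : rescale u (exp ℂ) * rescale (-1) (rescale u (exp ℂ)) = 1 := by
    rw [rescale_rescale, exp_mul_exp_eq_exp_add, mul_neg_one, add_neg_cancel, rescale_zero_apply,
      constantCoeff_exp, map_one]
  have a : ∀ F G : ℂ⟦X⟧, ∑ x ∈ antidiagonal n, coeff x.1 F * ((-1) ^ x.2 * coeff x.2 G) =
      coeff n (F * rescale (-1) G) := fun F G => by simp only [coeff_mul, coeff_rescale]
  have b := a (mk c) (mk d)
  simp only [coeff_mk] at b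
  rw [a, b, ← coeff_rescale, map_mul (rescale (-1 : ℂ)), map_mul (rescale g),
    rescale_rescale (mk d), rescale_rescale (mk d), mul_comm g]
  congr 1
  linear_combination rescale g (mk c) * rescale (-1 * g) (mk d) * e

/-- Covariance under `v ↦ g v`; `u` is one half of the derivative of `g`, and `t` is the ratio of
the first terms. -/
theorem ckF {O : Set E} (hO : IsOpen O) (v : E → E) (c c' : ℕ → E → ℂ) (l l' q q' g u t : E → ℂ)
    (k : ℕ) (hk : 0 < k) (hc : ∀ r, ∀ y ∈ O, DifferentiableAt ℂ (c r) y)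
    (hg : ∀ y ∈ O, DifferentiableAt ℂ g y ∧ DifferentiableAt ℂ u y ∧ DifferentiableAt ℂ t y ∧
      2 * u y = fderiv ℂ g y (v y) ∧
      l' y * t y + g y * fderiv ℂ t y (v y) = (g y * l y + k * u y) * t y ∧
      q' y = g y ^ 2 * q y + g y * fderiv ℂ u y (v y) - u y ^ 2 ∧ c' 0 y = t y * c 0 y)
    (h0 : ∀ y ∈ O, k * c 1 y = fderiv ℂ (c 0) y (v y) + l y * c 0 y)
    (h1 : ∀ r : ℕ, ∀ y ∈ O, (r + 2) * (r + 1 + k) * c (r + 2) y =
      fderiv ℂ (c (r + 1)) y (v y) + l y * c (r + 1) y - q y * c r y)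
    (h0' : ∀ y ∈ O, k * c' 1 y = g y * fderiv ℂ (c' 0) y (v y) + l' y * c' 0 y)
    (h1' : ∀ r : ℕ, ∀ y ∈ O, (r + 2) * (r + 1 + k) * c' (r + 2) y =
      g y * fderiv ℂ (c' (r + 1)) y (v y) + l' y * c' (r + 1) y - q' y * c' r y) :
    ∀ r, ∀ y ∈ O, c' r y =
      t y * coeff r (rescale (u y) (exp ℂ) * rescale (g y) (mk fun s => c s y)) := by
  let S : E → ℂ⟦X⟧ := fun y => rescale (g y) (mk fun s => c s y)
  let P : E → ℂ⟦X⟧ := fun y => C (t y) * (rescale (u y) (exp ℂ) * S y)
  have key : ∀ y ∈ O, ∃ P' : ℂ⟦X⟧, Hs y (v y) P P' ∧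
      C (g y) * P' + C (l' y) * P y = X * dx (dx (P y)) + C (k : ℂ) * dx (P y) +
        C (q' y) * (X * P y) := by
    intro y hy
    obtain ⟨g1, g2, g3, g4, g5, g6, -⟩ := hg y hy
    let S' : ℂ⟦X⟧ := mk fun s => fderiv ℂ (fun y => g y ^ s * c s y) y (v y)
    have s1 : Hs y (v y) S S' := fun n => by
      simp only [S, S', coeff_rescale, coeff_mk]
      exact ⟨(g1.fun_pow _).fun_mul (hc n y hy), trivial⟩
    have s2 : C (g y) * S' + C (g y * l y) * S y = X * dx (dx (S y)) + C (k : ℂ) * dx (S y) +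
        C (g y ^ 2 * q y) * (X * S y) + C (2 * u y) * (X * dx (S y)) := by
      ext n
      simp only [map_add, coeff_C_mul, co_X, coeff_derivative, S, S', coeff_mk, coeff_rescale]
      rw [fderiv_fun_mul (g1.fun_pow _) (hc n y hy)]
      simp only [add_apply, smul_apply, smul_eq_mul]
      cases n with
      | zero =>
        simp only [coeff_zero_X_mul, pow_zero, fderiv_fun_const, Pi.zero_apply,
          zero_apply]
        push_cast
        linear_combination -g y * h0 y hy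
      | succ n =>
        rw [coeff_succ_X_mul, coeff_rescale, coeff_mk, hs_pow g1, ← g4]
        push_cast
        linear_combination -g y ^ (n + 2) * h1 n y hy
    refine ⟨_, (hs_C g3).mul ((hs_exp g2).mul s1), ?_⟩
    have e5 := congrArg (C (R := ℂ)) g5
    have e2 : (C (2 : ℂ) : ℂ⟦X⟧) = 2 := map_ofNat _ 2
    simp only [P, g6, dx_mul, map_add, ex_d, map_sub, map_mul C, map_pow, derivative_C, e2,
      map_zero] at e5 s2 ⊢
    linear_combination C (t y) * rescale (u y) (exp ℂ) * s2 + rescale (u y) (exp ℂ) * S y * e5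
  have st : ∀ r, (∀ y ∈ O, c' r y = coeff r (P y)) → ∀ y ∈ O, ∀ P', Hs y (v y) P P' →
      fderiv ℂ (c' r) y (v y) = coeff r P' := fun r h y hy P' hP => by
    rw [← (hP r).2, Filter.EventuallyEq.fderiv_eq
      (Filter.mem_of_superset (hO.mem_nhds hy) h : c' r =ᶠ[𝓝 y] fun y => coeff r (P y))]
  have a0 : ∀ y ∈ O, c' 0 y = coeff 0 (P y) := fun y hy => by
    simp [P, S, coeff_mul, (hg y hy).2.2.2.2.2.2]
  have : ∀ r, (∀ y ∈ O, c' r y = coeff r (P y)) ∧ ∀ y ∈ O, c' (r + 1) y = coeff (r + 1) (P y) := by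
    intro r
    induction r with
    | zero =>
      refine ⟨a0, fun y hy => ?_⟩
      obtain ⟨P', p1, p2⟩ := key y hy
      have := congrArg (coeff 0) p2
      simp only [map_add, coeff_C_mul, coeff_zero_X_mul, coeff_derivative] at this
      refine mul_left_cancel₀ (Nat.cast_ne_zero.2 hk.ne' : (k : ℂ) ≠ 0) ?_
      rw [h0' y hy, st 0 a0 y hy P' p1, a0 y hy, this]
      push_cast
      ring
    | succ r ih =>
      refine ⟨ih.2, fun y hy => ?_⟩
      obtain ⟨P', p1, p2⟩ := key y hy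
      have := congrArg (coeff (r + 1)) p2
      simp only [map_add, coeff_C_mul, coeff_succ_X_mul, coeff_derivative] at this
      have n0 : ((r + 2) * (r + 1 + k) : ℂ) ≠ 0 := by exact_mod_cast (by positivity)
      refine mul_left_cancel₀ n0 ?_
      rw [h1' r y hy, st _ ih.2 y hy P' p1, ih.1 y hy, ih.2 y hy, this]
      push_cast
      ring
  intro r y hy
  rw [(this r).1 y hy, coeff_C_mul]

end Pool.Agent.Lib.NU4.K23
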