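import Pool.Agent.Lib.NU4.Flip71a

/-! One step of the hard Lefschetz theorem, with the divergence and the test section. -/

open scoped Classical Topology ContDiff ComplexOrder Matrix
open Set MeasureTheory Complex Metric Filter

noncomputable section

namespace Pool.Agent.Lib.NU4.Fl

open Pool.Agent.Lib.SV (E)
open Pool.Agent.Lib.HS32 Pool.Agent.Lib.KP Pool.Agent.Lib.HLK
open Pool.Agent.Lib.EXH (aw)
open Pool.Agent.Lib.HLK.ONE

theorem low2 {C D : Type} [SeminormedAddCommGroup C] [InnerProductSpace ℂ C]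
    [SeminormedAddCommGroup D] [InnerProductSpace ℂ D] (ι : D →ₗ[ℂ] C) (hι : ∀ a, ‖ι a‖ ≤ ‖a‖)
    {w f r q p : D} {y' p' : C} {t : ℝ} (ht : 0 ≤ t) (h : w + (t : ℂ) • (q + p) = f + r)
    (h1 : ‖ι f‖ = 1) (hq : inner ℂ (ι q) (ι f) = -inner ℂ y' p') :
    1 ≤ ‖inner ℂ (ι w) (ι f)‖ + ‖r‖ + t * (‖y'‖ * ‖p'‖) + t * ‖p‖ := by
  have e : ι f = ι w - ι r + (t : ℂ) • ι q + (t : ℂ) • ι p := by
    have := congrArg ι h
    rw [map_add, map_smul, map_add, map_add, smul_add] at this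
    rw [← sub_eq_iff_eq_add.2 this.symm.symm]
    abel
  have e2 : inner ℂ (ι f) (ι f) = inner ℂ (ι w) (ι f) - inner ℂ (ι r) (ι f) -
      t * inner ℂ y' p' + t * inner ℂ (ι p) (ι f) := by
    nth_rewrite 1 [e]
    rw [inner_add_left, inner_add_left, inner_sub_left, inner_smul_left, inner_smul_left, hq,
      conj_ofReal]
    ring
  have b : ∀ a : C, ‖inner ℂ a (ι f)‖ ≤ ‖a‖ := fun a => by
    simpa only [h1, mul_one] using norm_inner_le_norm (𝕜 := ℂ) a (ι f)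
  have e3 : ‖inner ℂ (ι f) (ι f)‖ = 1 := by
    rw [inner_self_eq_norm_sq_to_K, h1]
    simp
  rw [← e3, e2]
  refine (norm_add_le _ _).trans (add_le_add ((norm_sub_le _ _).trans (add_le_add
    ((norm_sub_le _ _).trans (add_le_add le_rfl ((b _).trans (hι r)))) ?_)) ?_)
  · rw [norm_mul, norm_real, Real.norm_of_nonneg ht]
    exact mul_le_mul_of_nonneg_left (norm_inner_le_norm _ _) ht
  · rw [norm_mul, norm_real, Real.norm_of_nonneg ht]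
    exact mul_le_mul_of_nonneg_left ((b _).trans (hι p)) ht

theorem one2 {n : ℕ} {M : Mf n} [M.Cpt] {H : M.Fam (Mat n)} {L : M.Co} {φ : M.Fam ℝ} {A ε : ℝ}
    {w : M.X → ℝ} {R : M.Fam (Fs n → ℂ) → Prop} (hH : M.Kae H) (hφ : M.WtC L φ) (hε : 0 < ε)
    (hw : M.Sm w) (w0 : ∀ x, w x ≤ 0) (hc : M.Le 0 (M.hw φ + M.ric H + M.hs w + ε • H))
    (hA : ∀ η : ℝ, 0 < η → ∃ W, (lam H L φ).Sec W ∧ R W ∧ (lam H L φ).nr H W = 1 ∧
      (lam H L φ).nr H ((oD H φ).ap W) ≤ η ∧ (lam H L (aw M φ w)).nr H W ≤ A) :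
    ∃ W f, (lam H L φ).Sec W ∧ (lam H L φ).Sec f ∧ R f ∧ (lam H L φ).nr H f = 1 ∧
      1 / 2 ≤ ‖(lam H L φ).ip H W f‖ ∧ (lam H L φ).nr H W ≤ 2 * A + 2 ∧
      (lam H L (aw M φ w)).nr H ((oP H (aw M φ w)).ap W) ≤ ε * (2 * A + 2) ∧
      ∫ x, gb H (lam H L φ) W x ∂M.mu H ≤ ε * (n + 1) * (2 * A + 2) := by
  have hm := hH.toMet
  obtain ⟨o0, l0, a0⟩ := aLAM n M H L φ hm hφ
  obtain ⟨⟨hψ, hh⟩, a1⟩ := And.intro ((a0 w).1 hw) (a0 w).2
  obtain ⟨o1, l1, -⟩ := aLAM n M H L _ hm hψ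
  let g0 : Geo M (Fs n) := ⟨H, lam H L φ, hm, o0⟩
  let g1 : Geo M (Fs n) := ⟨H, lam H L (aw M φ w), hm, o1⟩
  let ι : Pre g1 →ₗ[ℂ] Pre g0 :=
    ⟨⟨fun u => Pre.mk u.val ⟨u.sec.sm, u.sec.cmp⟩, fun _ _ => rfl⟩, fun _ _ => rfl⟩
  obtain ⟨K, K0, hK⟩ := hw.exists_bound
  have ex : ∀ x, 1 ≤ Real.exp (-w x) ∧ Real.exp (-w x) ≤ Real.exp K ^ 2 := fun x =>
    ⟨Real.one_le_exp (by linarith [w0 x]), by
      rw [← Real.exp_nat_mul]
      have := (abs_le.1 (hK x)).1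
      exact Real.exp_le_exp.2 (by push_cast; linarith)⟩
  have i1 : ∀ a, ‖ι a‖ ≤ ‖a‖ := fun a => by
    refine sq2 ?_ (norm_nonneg _)
    rw [Pre.norm_sq, Pre.norm_sq]
    refine integral_mono (itg (ι a)) (itg a) fun x => ?_
    have := (a1 a.val a.val x).2.1
    have p := Pre.pn_nonneg (g := g0) a.val x
    change (lam H L φ).pn a.val x ≤ (lam H L (aw M φ w)).pn a.val x
    change 0 ≤ (lam H L φ).pn a.val x at p
    rw [this]
    nlinarith [(ex x).1]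
  have i2 : ∀ a, ‖a‖ ≤ Real.exp K * ‖ι a‖ := fun a => by
    refine sq2 ?_ (by positivity)
    rw [mul_pow, Pre.norm_sq, Pre.norm_sq, Bun.nr, Bun.nr, ← integral_const_mul]
    refine integral_mono (itg a) ((itg (ι a)).const_mul _) fun x => ?_
    have := (a1 a.val a.val x).2.1
    have p := Pre.pn_nonneg (g := g0) a.val x
    change (lam H L (aw M φ w)).pn a.val x ≤ _ * (lam H L φ).pn a.val x
    change 0 ≤ (lam H L φ).pn a.val x at p
    rw [this]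
    nlinarith [(ex x).2]
  have q0 : ∀ W, g0.b.Sec W → g0.b.Sec ((oQ H).ap W) := fun W h => (aSQ n M H L _ W hm h).1
  have q1 : ∀ W, g1.b.Sec W → g1.b.Sec ((oQ H).ap W) := fun W h => (aSQ n M H L _ W hm h).1
  have p0 : ∀ W, g0.b.Sec W → g0.b.Sec ((oP H φ).ap W) := fun W h => aSP n M H L _ W hm hφ h
  have p1 : ∀ W, g1.b.Sec W → g1.b.Sec ((oP H (aw M φ w)).ap W) := fun W h =>
    aSP n M H L _ W hm hψ h
  obtain ⟨-, -, s0⟩ := aSKW n M H L φ hH hφ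
  obtain ⟨k1, -, s1⟩ := aSKW n M H L _ hH hψ
  have eD : ∀ s : Pre g1, Pre.op (g := g1) _ k1.sec s = Pre.op _ q1 s + Pre.op _ p1 s := fun s =>
    Pre.ext (funext fun e => funext fun z => by
      show (if e ∈ M.C ∧ z ∈ e.target then (oD H (aw M φ w)).ap s.val e z else 0) =
        (if e ∈ M.C ∧ z ∈ e.target then (oQ H).ap s.val e z else 0) +
        if e ∈ M.C ∧ z ∈ e.target then (oP H (aw M φ w)).ap s.val e z else 0
      by_cases c : e ∈ M.C ∧ z ∈ e.target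
      · simp only [if_pos c]
        exact (s1 _ s.sec).1 e z
      · simp only [if_neg c, add_zero])
  have ort : ∀ a b : Pre g1, inner ℂ (Pre.op _ q1 a) (Pre.op _ p1 b) = 0 := fun a b =>
    (ip_op q1 p1 a b).2.2.trans ((s1 _ a.sec).2.1 _ b.sec)
  have near := aNEAR (Pre g1) (Pre.op _ p1) (Pre.op _ q1) (fun a b => by
    rw [(ip_op q1 p1 a b).1, (ip_op q1 p1 a b).2.1]
    exact aADJ n M H L _ _ _ hH hψ a.sec b.sec) ort fun t d f hd => by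
      simpa only [eD] using (aDNS (Pre g1) (Pre.op (g := g1) _ k1.sec) (Pre.op_skew (g := g1) k1)
        (aWS n M _ g1 _ k1)).1 t d f hd
  have t0 : 0 < (√ε)⁻¹ := inv_pos.2 (Real.sqrt_pos.2 hε)
  have t2 : ε * (√ε)⁻¹ ^ 2 = 1 := by rw [inv_pow, Real.sq_sqrt hε.le, mul_inv_cancel₀ hε.ne']
  generalize (√ε)⁻¹ = t at t0 t2
  have K1 : 1 ≤ Real.exp K := Real.one_le_exp K0.le
  have s0' : 0 < 64 * t * (|A| + 2) * Real.exp K := by positivity
  obtain ⟨W, hW, nR, n1, n2, n3⟩ := hA ((64 * t * (|A| + 2) * Real.exp K)⁻¹ ^ 2) (by positivity)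
  let f : Pre g1 := Pre.mk W ⟨hW.sm, hW.cmp⟩
  have f1 : ‖ι f‖ = 1 := by
    have : ‖ι f‖ ^ 2 = 1 := (Pre.norm_sq _).trans n1
    nlinarith [norm_nonneg (ι f)]
  have f2 : ‖f‖ ^ 2 ≤ A := (Pre.norm_sq f).le.trans n3
  have f3 : ‖f‖ + 1 / 8 ≤ |A| + 2 := by nlinarith [le_abs_self A, sq_nonneg (‖f‖ - 1)]
  have f4 : (‖f‖ + 1 / 8) ^ 2 ≤ 2 * A + 2 := by nlinarith [sq_nonneg (‖f‖ - 1 / 8)]
  rw [(s0 W hW).2.2, show (lam H L φ).nr H ((oQ H).ap W) = _ from (nr_op q0 (ι f)).symm,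
    show (lam H L φ).nr H ((oP H φ).ap W) = _ from (nr_op p0 (ι f)).symm] at n2
  have sm : ∀ a b : ℝ, 0 ≤ a → a ^ 2 + b ^ 2 ≤ (64 * t * (|A| + 2) * Real.exp K)⁻¹ ^ 2 →
      64 * t * (|A| + 2) * (Real.exp K * a) ≤ 1 := fun a b ha h => by
    have : a ≤ (64 * t * (|A| + 2) * Real.exp K)⁻¹ :=
      sq2 (by nlinarith [sq_nonneg b]) (by positivity)
    have := mul_le_mul_of_nonneg_left this s0'.le
    rwa [mul_inv_cancel₀ s0'.ne', mul_assoc] at this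
  have b1 := sm _ _ (norm_nonneg _) n2
  have b2 := sm _ _ (norm_nonneg _) ((add_comm _ _).le.trans n2)
  obtain ⟨u, y, r, c1, c2, c3, c4, c5, c6⟩ := near t (1 / 8) f t0 (by norm_num)
  have lo := low2 ι i1 (y' := ι y) (p' := Pre.op _ p0 (ι f)) t0.le c1 f1 (by
    rw [show ι (Pre.op _ q1 y) = Pre.op _ q0 (ι y) from rfl, (ip_op q0 p0 _ _).1,
      (ip_op q0 p0 _ _).2.1]
    exact aADJ n M H L _ _ _ hH hφ (ι y).sec (ι f).sec)
  have b3 : ‖Pre.op _ q1 f‖ ≤ Real.exp K * ‖Pre.op _ q0 (ι f)‖ := i2 _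
  have b4 : t * ‖Pre.op _ p1 y‖ ≤ 1 / 4 := by
    refine sq2 (c6.trans ?_) (by norm_num)
    have := mul_le_mul b3 f3 (by positivity) (by positivity)
    nlinarith
  have b5 : t * (‖ι y‖ * ‖Pre.op _ p0 (ι f)‖) ≤ 1 / 8 := by
    have := mul_le_mul (((i1 y).trans c4).trans f3)
      (le_mul_of_one_le_left (norm_nonneg (Pre.op _ p0 (ι f))) K1) (norm_nonneg _) (by positivity)
    nlinarith
  have u2 : ‖u‖ ^ 2 ≤ 2 * A + 2 := (pow_le_pow_left₀ (norm_nonneg _) c3 2).trans f4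
  have m3 : ‖Pre.op _ q1 u + Pre.op _ p1 u‖ ^ 2 = ‖Pre.op _ q1 u‖ ^ 2 + ‖Pre.op _ p1 u‖ ^ 2 := by
    rw [@norm_add_sq ℂ, ort]
    simp
  have m4 : ‖Pre.op _ q1 u + Pre.op _ p1 u‖ ^ 2 ≤ ε * (2 * A + 2) := by
    have := mul_le_mul_of_nonneg_left ((pow_le_pow_left₀ (by positivity) c5 2).trans f4) hε.le
    rwa [mul_pow, ← mul_assoc, t2, one_mul] at this
  have e1 : (lam H L φ).nr H u.val = ‖ι u‖ ^ 2 := (Pre.norm_sq (ι u)).symm
  refine ⟨u.val, W, (ι u).sec, hW, nR, n1, ?_, by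
    rw [e1]; exact (pow_le_pow_left₀ (norm_nonneg _) (i1 u) 2).trans u2, ?_, ?_⟩
  · change 1 / 2 ≤ ‖inner ℂ (ι u) (ι f)‖
    linarith
  · rw [show (lam H L (aw M φ w)).nr H ((oP H _).ap u.val) = _ from (nr_op p1 u).symm]
    nlinarith [sq_nonneg ‖Pre.op _ q1 u‖]
  have it := (mMU n M H hm).2.2.2.2.1 ℝ
  obtain ⟨-, g0c, g0p, -⟩ := (aGB n M _ H _ hm o0 l0).1 _ (ι u).sec
  obtain ⟨-, g1c, -, -⟩ := (aGB n M _ H _ hm o1 l1).1 _ u.sec
  have boc := aBOC n M H L _ _ hH hψ u.sec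
  rw [show (lam H L (aw M φ w)).nr H ((oQ H).ap u.val) = _ from (nr_op q1 u).symm,
    show (lam H L (aw M φ w)).nr H ((oP H _).ap u.val) = _ from (nr_op p1 u).symm] at boc
  obtain ⟨-, cc, cl⟩ := aCU n M H _ L _ _ hm
    (hψ.clo.toTen.add ((mHES n M).2.2.2.2.2.2.2.2.1 H hm).toTen) hψ u.sec
  have cl' := cl ε hε.le fun e he z hz => by
    have := hc e he z hz
    simp only [Pi.add_apply, hh e he z hz] at this ⊢
    rwa [add_right_comm (M.hw φ e z)]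
  have m1 : -(ε * n * ‖u‖ ^ 2) ≤
      ∫ x, cu (M.hw (aw M φ w) + M.ric H) (lam H L (aw M φ w)) u.val x ∂M.mu H := by
    rw [Pre.norm_sq, Bun.nr, ← integral_const_mul, ← integral_neg]
    exact integral_mono ((itg u).const_mul _).neg (it _ cc) cl'
  have m2 : ∫ x, gb H (lam H L φ) u.val x ∂M.mu H ≤
      ∫ x, gb H (lam H L (aw M φ w)) u.val x ∂M.mu H :=
    integral_mono (it _ g0c) (it _ g1c) fun x => by
      have := g0p x
      change 0 ≤ gb H (lam H L φ) u.val x at this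
      simp only [(a1 u.val u.val x).2.2]
      nlinarith [(ex x).1]
  have m5 := mul_le_mul_of_nonneg_left u2 (mul_nonneg hε.le n.cast_nonneg)
  linarith

end Pool.Agent.Lib.NU4.Fl
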