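import Pool.Agent.Lib.NU4.Flip71b

/-! The hard Lefschetz theorem with the degree and the orthogonality; the curvature term of an
orthogonal holomorphic section is small. -/

open scoped Classical Topology ContDiff ComplexOrder Matrix
open Set MeasureTheory Complex Metric Filter

noncomputable section

namespace Pool.Agent.Lib.NU4.Fl

open Pool.Agent.Lib.SV (E)
open Pool.Agent.Lib.HS32 Pool.Agent.Lib.KP Pool.Agent.Lib.HLK
open Pool.Agent.Lib.EXH (aw)
open Pool.Agent.Lib.HLK.ONE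
open Pool.Agent.Lib.IDX.DIM (pj)

section gen

variable {n : ℕ} {σ : Type} [Fintype σ] [DecidableEq σ] {M : Mf n} {H : M.Fam (Mat n)}
  {b : Bun M σ}

/-- Multiplication by a function. -/
def mf (F : M.X → ℝ) (W : M.Fam (σ → ℂ)) : M.Fam (σ → ℂ) := fun e z => (F (e.symm z) : ℂ) • W e z

theorem pp_mf (F : M.X → ℝ) (U W : M.Fam (σ → ℂ)) (x : M.X) :
    b.pp (mf F U) W x = F x * b.pp U W x ∧ b.pp U (mf F W) x = F x * b.pp U W x := by
  simp only [Bun.pp, Mf.ev, mf, Mf.ch_symm, star_smul, smul_dotProduct, Matrix.mulVec_smul,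
    dotProduct_smul, smul_eq_mul, RCLike.star_def, conj_ofReal, and_self]

theorem pn_mf (F : M.X → ℝ) (W : M.Fam (σ → ℂ)) (x : M.X) :
    b.pn (mf F W) x = F x ^ 2 * b.pn W x := by
  rw [Bun.pn, (pp_mf _ _ _ _).1, (pp_mf _ _ _ _).2, re_ofReal_mul, re_ofReal_mul, Bun.pn]
  ring

theorem pp_sub (U W W' : M.Fam (σ → ℂ)) (x : M.X) :
    b.pp U (W - W') x = b.pp U W x - b.pp U W' x := by
  simp only [Bun.pp, Mf.ev, Pi.sub_apply, Matrix.mulVec_sub, dotProduct_sub]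

variable [M.Cpt]

theorem cs (hm : M.Met H) (ho : b.Ok) {U W : M.Fam (σ → ℂ)} (hU : b.Sec U) (hW : b.Sec W) :
    ‖b.ip H U W‖ ≤ √(b.nr H U) * √(b.nr H W) := by
  let g : Geo M σ := ⟨H, b, hm, ho⟩
  have sq : ∀ u : Pre g, √(b.nr H u.val) = ‖u‖ := fun u => by
    rw [show b.nr H u.val = _ from (Pre.norm_sq u).symm, Real.sqrt_sq (norm_nonneg _)]
  have := norm_inner_le_norm (𝕜 := ℂ) (Pre.mk (g := g) U hU) (Pre.mk W hW)
  rwa [← sq, ← sq] at this

theorem bnd (hm : M.Met H) (ho : b.Ok) {U : M.Fam (σ → ℂ)} (hU : b.Sec U) : ∃ K : ℝ, 0 ≤ K ∧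
    ∀ ρ : M.X → ℝ, Continuous ρ → (∀ x, 0 ≤ ρ x) →
      ∫ x, ρ x * b.pn U x ∂M.mu H ≤ K * ∫ x, ρ x ∂M.mu H := by
  have s := (ho.pp_rep hU hU).2.re
  obtain ⟨K, K0, hK⟩ := s.exists_bound
  have it := (mMU n M H hm).2.2.2.2.1 ℝ
  refine ⟨K, K0.le, fun ρ c p => ?_⟩
  rw [← integral_const_mul]
  refine integral_mono (it _ (c.mul s.continuous)) ((it _ c).const_mul K) fun x => ?_
  beta_reduce
  rw [mul_comm K]
  exact mul_le_mul_of_nonneg_left ((le_abs_self _).trans (hK x)) (p x)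

theorem wcs (hm : M.Met H) (ho : b.Ok) {U : M.Fam (σ → ℂ)} (hU : b.Sec U) : ∃ K : ℝ, 0 ≤ K ∧
    ∀ (F : M.X → ℝ) (C : ℝ) W, M.Sm F → b.Sec W → ∫ x, F x ^ 2 ∂M.mu H ≤ C →
      ‖∫ x, (F x : ℂ) * b.pp U W x ∂M.mu H‖ ≤ √(K * C) * √(b.nr H W) := by
  obtain ⟨K, K0, hK⟩ := bnd hm ho hU
  refine ⟨K, K0, fun F C W hF hW hC => ?_⟩
  have h := cs hm ho (U := mf F U) (CUT.sec_mul hF hU) hW
  simp only [Bun.ip, (pp_mf _ _ _ _).1] at h
  refine h.trans (mul_le_mul_of_nonneg_right (Real.sqrt_le_sqrt ?_) (Real.sqrt_nonneg _))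
  simp only [Bun.nr, pn_mf]
  exact (hK _ (hF.pow 2).continuous fun x => sq_nonneg _).trans (mul_le_mul_of_nonneg_left hC K0)

end gen

variable {n : ℕ} {M : Mf n} [M.Cpt] {H : M.Fam (Mat n)} {L : M.Co} {φ : M.Fam ℝ}

theorem hlp {C : ℝ} {w : ℕ → M.X → ℝ} {ε : ℕ → ℝ} {p : ℕ → Prop} (hn : 0 < n) (hH : M.Kae H)
    (hφ : M.WtC L φ) (hw : ∀ j, ε j ∈ Ioc (0 : ℝ) 1 ∧ M.Sm (w j) ∧ (∀ x, w j x ≤ 0) ∧
      M.Le 0 (M.hw φ + M.ric H + M.hs (w j) + ε j • H) ∧
      ∫ x, Real.exp (-(2 * n * w j x)) ∂M.mu H ≤ C) (hε : Tendsto ε atTop (𝓝 0))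
    (hA : ∀ η : ℝ, 0 < η → ∃ W, (lam H L φ).Sec W ∧ (∀ e z A, ¬p A.card → W e z A = 0) ∧
      (lam H L φ).nr H W = 1 ∧ (lam H L φ).nr H ((oD H φ).ap W) ≤ η) :
    ∃ q V, p q ∧ (lam H L φ).Sec V ∧ Hol V ∧ Nz V ∧ Deg q V ∧
      WP H L φ (fun j x => Real.exp (-w j x)) V := by
  have hm := hH.toMet
  obtain ⟨o0, l0, a0⟩ := aLAM n M H L φ hm hφ
  have it := (mMU n M H hm).2.2.2.2.1 ℝ
  let g : Geo M (Fs n) := ⟨H, lam H L φ, hm, o0⟩
  have fθ := hφ.clo.toForm.add ((mHES n M).2.2.2.2.2.2.2.2.1 H hm).toForm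
  obtain ⟨K, K0, -, hK⟩ := (mBD n M H hm).1 _ fθ
  obtain ⟨S, S0, hS⟩ := aSOB n M _ H _ hn hm o0 l0
  have gbd : ∀ W, (lam H L φ).Sec W → (lam H L φ).nr H W = 1 →
      (lam H L φ).nr H ((oD H φ).ap W) ≤ 1 → ∫ x, gb H (lam H L φ) W x ∂M.mu H ≤ 1 + K * n :=
    fun W hW h1 h2 => by
    obtain ⟨-, cc, cl⟩ := aCU n M H _ L φ W hm fθ.toTen hφ hW
    have cl' := cl K K0.le fun e he z hz => by
      have := hK e he z hz
      simp only [Pi.add_apply, Pi.neg_apply, Pi.zero_apply, sub_neg_eq_add, sub_zero] at this ⊢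
      exact this
    have m1 : -(K * n * (lam H L φ).nr H W) ≤
        ∫ x, cu (M.hw φ + M.ric H) (lam H L φ) W x ∂M.mu H := by
      rw [Bun.nr, ← integral_const_mul, ← integral_neg]
      exact integral_mono ((Pre.itg (g := g) (Pre.mk W hW) (Pre.mk W hW)).re.const_mul _).neg
        (it _ cc) cl'
    have := aBOC n M H L φ W hH hφ hW
    rw [← ((aSKW n M H L φ hH hφ).2.2 W hW).2.2] at this
    rw [h1] at m1
    linarith
  set A := S * C ^ (1 / (2 * n : ℝ)) * (2 + K * n) with hA'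
  have step := fun j : ℕ => one2 (A := A) (R := fun W => ∀ e z B, ¬p B.card → W e z B = 0) hH hφ
    (hw j).1.1 (hw j).2.1 (hw j).2.2.1 (hw j).2.2.2.1 fun η hη => by
      obtain ⟨-, w1, -, -, w4⟩ := hw j
      obtain ⟨B, -, hB⟩ := w1.neg.exp.exists_bound
      obtain ⟨W, d1, d0, d2, d3⟩ := hA (min η 1) (lt_min hη one_pos)
      refine ⟨W, d1, d0, d2, d3.trans (min_le_left _ _), ?_⟩
      have s := hS W (fun x => Real.exp (-w j x)) B d1 w1.neg.exp.continuous.measurable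
        fun x => ⟨(Real.exp_pos _).le, (le_abs_self _).trans (hB x)⟩
      have e1 : ∀ x, Real.exp (-w j x) ^ (2 * n) = Real.exp (-(2 * n * w j x)) := fun x => by
        rw [← Real.exp_nat_mul]
        exact congrArg _ (by push_cast; ring)
      simp only [e1] at s
      have p := (aGB n M _ H _ hm o0 l0).1 W d1
      have b := gbd W d1 d2 (d3.trans (min_le_right _ _))
      have p0 : 0 ≤ ∫ x, gb H (lam H L φ) W x ∂M.mu H := integral_nonneg p.2.2.1
      have i0 : 0 ≤ ∫ x, Real.exp (-(2 * n * w j x)) ∂M.mu H :=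
        integral_nonneg fun x => (Real.exp_pos _).le
      rw [Bun.nr]
      simp only [fun x => ((a0 (w j)).2 W W x).2.1, mul_comm ((lam H L φ).pn W _)]
      refine s.trans (mul_le_mul (mul_le_mul_of_nonneg_left
        (Real.rpow_le_rpow i0 w4 (by positivity)) S0) (by linarith) (by linarith) ?_)
      exact mul_nonneg S0 (Real.rpow_nonneg (i0.trans w4) _)
  choose W f s1 f1 f2 f3 s2 s3 s5 s4 using step
  have A0 : 0 ≤ 2 * A + 2 := (integral_nonneg fun x => Pre.pn_nonneg (g := g) _ x).trans (s3 0)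
  have n0 : (1 : ℝ) ≤ n := Nat.one_le_cast.2 hn
  have lε : Tendsto ε (hyperfilter ℕ) (𝓝 0) := hε.mono_left Nat.hyperfilter_le_atTop
  obtain ⟨V, v1, v2, v3⟩ := aVL n M _ H _ (hyperfilter ℕ) W ((n + 1) * (2 * A + 2)) hn hm o0 l0
    (fun j => ⟨s1 j, (s3 j).trans (by nlinarith), (s4 j).trans (by
      rw [mul_assoc]
      exact mul_le_of_le_one_left (by positivity) (hw j).1.2)⟩)
    (squeeze_zero (fun j => integral_nonneg ((aGB n M _ H _ hm o0 l0).1 _ (s1 j)).2.2.1) s4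
      (by simpa using (lε.mul_const ((n : ℝ) + 1)).mul_const (2 * A + 2)))
  have sd : ∀ j, (lam H L φ).Sec (W j - V) := fun j => (lam H L φ).secs.sub_mem (s1 j) v1
  have v4 : Tendsto (fun j => √((lam H L φ).nr H (W j - V))) (hyperfilter ℕ) (𝓝 0) := by
    simpa using v3.sqrt
  have wp : WP H L φ (fun j x => Real.exp (-w j x)) V := fun y hy => by
    have qy := (aSQ n M H L φ y hm hy).1
    obtain ⟨K1, k1, b1⟩ := wcs hm o0 qy
    obtain ⟨K2, k2, b2⟩ := bnd hm o0 hy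
    have ex : ∀ j (c : ℝ), c ≤ 2 * n → ∫ x, Real.exp (-(c * w j x)) ∂M.mu H ≤ C := fun j c hc =>
      (integral_mono (it _ ((hw j).2.1.const_mul _).neg.exp.continuous)
        (it _ ((hw j).2.1.const_mul _).neg.exp.continuous) fun x => Real.exp_le_exp.2 (by
          nlinarith [(hw j).2.2.1 x])).trans (hw j).2.2.2.2
    have l1 := (lε.mul_const (2 * A + 2)).sqrt.const_mul √(K2 * C)
    have l2 := l1.add (v4.const_mul √(K1 * C))
    simp only [zero_mul, Real.sqrt_zero, mul_zero, add_zero] at l2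
    refine squeeze_zero_norm (fun j => ?_) l2
    obtain ⟨-, w1, -⟩ := hw j
    obtain ⟨hψ, -⟩ := (a0 (w j)).1 w1
    obtain ⟨o1, -⟩ := aLAM n M H L _ hm hψ
    have y1 : (lam H L (aw M φ (w j))).Sec y := ⟨hy.sm, hy.cmp⟩
    have u1 : (lam H L (aw M φ (w j))).Sec (W j) := ⟨(s1 j).sm, (s1 j).cmp⟩
    have c1 := cs hm o1 y1 (aSP n M H L _ _ hm hψ u1)
    rw [← norm_neg, ← aADJ n M H L _ _ _ hH hψ y1 u1, Bun.ip] at c1
    simp only [fun x => ((a0 (w j)).2 ((oQ H).ap y) (W j) x).1, mul_comm ((lam H L φ).pp _ _ _)]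
      at c1
    have c2 := b1 _ C _ w1.neg.exp (sd j) (by
      simpa only [← Real.exp_nat_mul, Nat.cast_ofNat, mul_neg] using ex j 2 (by linarith))
    have c3 : (lam H L (aw M φ (w j))).nr H y ≤ K2 * C := by
      rw [Bun.nr]
      simp only [fun x => ((a0 (w j)).2 y y x).2.1, mul_comm ((lam H L φ).pn y _)]
      refine (b2 _ w1.neg.exp.continuous fun x => (Real.exp_pos _).le).trans
        (mul_le_mul_of_nonneg_left ?_ k2)
      simpa only [one_mul] using ex j 1 (by linarith)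
    have ic := fun {U} (h : (lam H L φ).Sec U) => (mMU n M H hm).2.2.2.2.1 ℂ _
      ((continuous_ofReal.comp w1.neg.exp.continuous).mul (o0.pp_rep qy h).2.continuous)
    have e : ∀ x, (Real.exp (-w j x) : ℂ) * (lam H L φ).pp ((oQ H).ap y) V x =
        Real.exp (-w j x) * (lam H L φ).pp ((oQ H).ap y) (W j) x -
          Real.exp (-w j x) * (lam H L φ).pp ((oQ H).ap y) (W j - V) x := fun x => by
      rw [pp_sub]
      ring
    simp only [e]
    refine (congrArg norm (integral_sub (ic (s1 j)) (ic (sd j)))).le.trans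
      ((norm_sub_le _ _).trans (add_le_add (c1.trans ?_) c2))
    exact mul_le_mul (Real.sqrt_le_sqrt c3) (Real.sqrt_le_sqrt (s5 j)) (Real.sqrt_nonneg _)
      (Real.sqrt_nonneg _)
  have nz : Nz (pj p V) := by_contra fun h => by
    have z : M.All fun e z => pj p V e z = (0 : M.Fam (Fs n → ℂ)) e z := fun e he z hz =>
      by_contra fun c => h ⟨e, he, z, hz, c⟩
    have e : ∀ j, 1 / 2 ≤ √((lam H L φ).nr H (W j - V)) := fun j => by
      have e1 : pj p (f j) = f j := funext fun e => funext fun z => funext fun B => by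
        by_cases c : p B.card
        · exact if_pos c
        · exact (if_neg c).trans (f2 j e z B c).symm
      have e2 : (lam H L φ).pp V (f j) = (lam H L φ).pp 0 (f j) := by
        rw [← e1, ← pj_pp, e1]
        exact Pre.pp_congr (g := g) z fun _ _ _ _ => rfl
      have e3 : inner ℂ (Pre.mk (g := g) V v1) (Pre.mk (f j) (f1 j)) =
          inner ℂ (0 : Pre g) (Pre.mk (f j) (f1 j)) := by
        change ∫ x, (lam H L φ).pp V (f j) x ∂M.mu H = ∫ x, (lam H L φ).pp 0 (f j) x ∂M.mu H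
        rw [e2]
      have e4 := inner_sub_left (𝕜 := ℂ) (Pre.mk (g := g) _ (s1 j)) (Pre.mk V v1)
        (Pre.mk (f j) (f1 j))
      rw [e3, inner_zero_left, sub_zero] at e4
      have e5 := cs hm o0 (sd j) (f1 j)
      rw [f3, Real.sqrt_one, mul_one] at e5
      exact (s2 j).trans ((congrArg norm e4).ge.trans e5)
    have := ge_of_tendsto' v4 e
    norm_num at this
  obtain ⟨e, he, z, hz, h⟩ := nz
  obtain ⟨B, hB⟩ := Function.ne_iff.1 h
  have pB : p B.card := by_contra fun c => hB (if_neg c)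
  refine ⟨B.card, pj (· = B.card) V, pB, pj_sec _ v1, pj_hol _ v2, ⟨e, he, z, hz, fun c => hB ?_⟩,
    fun e z D c => if_neg c, wp.pj _⟩
  exact (if_pos pB).trans ((if_pos rfl).symm.trans (congrFun c B))

end Pool.Agent.Lib.NU4.Fl
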