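import Pool.Agent.Lib.NU4.Hx39
import Pool.Agent.Lib.F4G.Sz44

/-! The derivative of a limit weight along a null vector field is holomorphic. -/

open scoped Classical Topology ENNReal ContDiff ComplexOrder Matrix
open Set MeasureTheory Complex Filter Metric

set_option linter.unusedVariables false

noncomputable section

namespace Pool.Agent.Lib.NU4.Hx39

open Pool.Agent.Lib.SV (E)
open Pool.Agent.Lib.HS32 Pool.Agent.Lib.F4
open Pool.Agent.Lib.F4G.Sz44 (nq0 nq_gram le_tr)

variable {n : ℕ} {M : Mf n}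

theorem cs2 {T : Mat n} (hT : T.PosSemidef) (U : E n) (k : Fin n) {δ : ℝ} (hδ : 0 < δ) :
    ‖(T *ᵥ U) k‖ ≤ δ * nq T (Pi.single k 1) + δ⁻¹ * nq T U := by
  obtain ⟨B, rfl⟩ := Mf.psd_factor hT
  have e : ((Bᴴ * B) *ᵥ U) k = ∑ r, star (B r k) * (B r ⬝ᵥ U) := by
    rw [← Matrix.mulVec_mulVec]
    rfl
  rw [e, nq_gram, nq_gram, Finset.mul_sum, Finset.mul_sum, ← Finset.sum_add_distrib]
  refine (norm_sum_le _ _).trans (Finset.sum_le_sum fun r _ => ?_)
  rw [norm_mul, norm_star, dotProduct_single, mul_one, normSq_eq_norm_sq, normSq_eq_norm_sq]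
  have h1 := sq_nonneg (δ * ‖B r k‖ - ‖B r ⬝ᵥ U‖)
  have h2 := mul_nonneg (norm_nonneg (B r k)) (norm_nonneg (B r ⬝ᵥ U))
  have h3 : δ * (‖B r k‖ * ‖B r ⬝ᵥ U‖) ≤ δ * (δ * ‖B r k‖ ^ 2 + δ⁻¹ * ‖B r ⬝ᵥ U‖ ^ 2) := by
    rw [mul_add, mul_inv_cancel_left₀ hδ.ne']
    nlinarith
  exact le_of_mul_le_mul_left h3 hδ

theorem nq_csmul (T : Mat n) (f : ℂ) (v : E n) : nq T (f • v) = normSq f * nq T v := by
  rw [nq, nq, Matrix.mulVec_smul, star_smul, smul_dotProduct, dotProduct_smul, smul_smul,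
    star_def, ← normSq_eq_conj_mul_self, smul_eq_mul, re_ofReal_mul]

theorem prop {U W : E n} (h : wg U W = 0) {i : Fin n} (hi : W i ≠ 0) : U = (U i / W i) • W := by
  funext j
  have := congrFun (congrFun h i) j
  simp only [wg, Matrix.of_apply, Matrix.zero_apply] at this
  rw [Pi.smul_apply, smul_eq_mul]
  field_simp
  linear_combination -this

theorem chart_le [M.Cpt] {H : M.Fam (Mat n)} (hH : M.Met H) {e : M.Ch} (he : e ∈ M.C)
    {K : Set (E n)} (hK : IsCompact K) (hs : K ⊆ e.target) : ∃ C : ℝ, 0 < C ∧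
      ∀ (K' : Set (E n)) (f : M.X → ℝ) (g : E n → ℝ), IsCompact K' → K' ⊆ K →
        Integrable f (M.mu H) → (∀ x, 0 ≤ f x) → ContinuousOn g K' →
        (∀ z ∈ K', 0 ≤ g z ∧ g z ≤ f (e.symm z)) → ∫ z in K', g z ≤ C * ∫ x, f x ∂M.mu H := by
  obtain ⟨C, h1, hC⟩ := (mBD n M H hH).2.2.1 e he K hK hs
  have h0 : 0 < C := by linarith
  refine ⟨C, h0, fun K' f g hK' hs' hf f0 hg hb => ?_⟩
  have hm := hK'.measurableSet
  have e1 := ((mMU n M H hH).2.2.2.2.2.1 e he K' hm (hs'.trans hs)).2.1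
    fun x => ENNReal.ofReal (f x)
  rw [← ENNReal.ofReal_le_ofReal_iff (mul_nonneg h0.le (integral_nonneg f0)),
    ofReal_integral_eq_lintegral_ofReal (hg.integrableOn_compact hK')
      ((ae_restrict_iff' hm).2 (Eventually.of_forall fun z hz => (hb z hz).1)),
    ENNReal.ofReal_mul h0.le, ofReal_integral_eq_lintegral_ofReal hf (Eventually.of_forall f0)]
  refine le_trans ?_ (mul_le_mul_right (setLIntegral_le_lintegral (e.symm '' K') _) _)
  rw [e1, ← lintegral_const_mul' _ _ ENNReal.ofReal_ne_top]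
  refine setLIntegral_mono' hm fun z hz => ?_
  have h2 := (hC z (hs' hz)).2.2.1
  have h3 : 0 ≤ (H e z).det.re := (inv_pos.2 h0).le.trans h2
  rw [← ENNReal.ofReal_mul h3, ← ENNReal.ofReal_mul h0.le]
  refine ENNReal.ofReal_le_ofReal ((hb z hz).2.trans ?_)
  have h4 : 1 ≤ C * (H e z).det.re := by
    have := mul_le_mul_of_nonneg_left h2 h0.le
    rwa [mul_inv_cancel₀ h0.ne'] at this
  have := f0 (e.symm z)
  nlinarith

/-- The trace and the gradient are bounded in the mean. -/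
theorem mean [M.Cpt] {H θ : M.Fam (Mat n)} (hH : M.Kae H) (hθ : M.Ten θ) : ∃ C : ℝ, 0 < C ∧
    ∀ (ε : ℝ) (u : M.X → ℝ), ε ≤ 1 → M.Sm u → (∀ x, u x ≤ 0) → M.Le 0 (θ + ε • H + M.hs u) →
      ∫ x, M.tr H (θ + ε • H + M.hs u) x ∂M.mu H ≤ C ∧
      ∫ x, Real.exp (u x) * M.gr H u u x ∂M.mu H ≤ C := by
  have := (mMU n M H hH.toMet).2.1
  have I := (mMU n M H hH.toMet).2.2.2.2.1 ℝ
  have st := ((mINV n M H hH.toMet).1 θ hθ).2.1
  obtain ⟨B, hB0, hB⟩ := st.exists_bound
  refine ⟨(B + n) * (M.mu H).real univ + 1, by positivity, fun ε u hε hu hu0 hT => ?_⟩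
  have e : ∀ x, M.tr H (θ + ε • H + M.hs u) x = (M.tr H θ x + ε * n) + M.lap H u x := fun x => by
    rw [Mf.tr_add, Mf.tr_add, Mf.tr_smul, hH.toMet.tr_self]; rfl
  have hb : ∀ x, M.tr H θ x + ε * n ≤ B + n := fun x => by
    have := (le_abs_self _).trans (hB x)
    have := mul_le_mul_of_nonneg_right hε (Nat.cast_nonneg (α := ℝ) n)
    linarith
  have L := (mLAP n M u u hu hu).2.2 H hH.toMet
  have hc : ∫ x, (B + n) ∂M.mu H = (B + n) * (M.mu H).real univ := by
    rw [integral_const, smul_eq_mul, mul_comm]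
  constructor
  · simp only [e]
    have c0 : Continuous fun x => M.tr H θ x + ε * n := st.continuous.add continuous_const
    rw [integral_add (I _ c0) (I _ L.1.continuous), ((mGRN n M).2 H u u hH hu hu).1]
    have := integral_mono (I _ c0) (integrable_const _) hb
    linarith
  · have h1 := ((mGRN n M).2 H _ u hH hu.exp hu).1
    have h2 : ∀ x, M.lap H (fun y => Real.exp (u y)) x =
        Real.exp (u x) * M.lap H u x + Real.exp (u x) * M.gr H u u x := fun x => by
      rw [(L.2.2.2.1 Real.exp (fun _ => Real.contDiff_exp.contDiffAt) x).1, Real.deriv_exp,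
        Real.deriv_exp]
    simp only [h2] at h1
    have c1 : Continuous fun x => Real.exp (u x) * M.lap H u x :=
      hu.exp.continuous.mul L.1.continuous
    have c2 : Continuous fun x => Real.exp (u x) * M.gr H u u x :=
      hu.exp.continuous.mul L.2.1.continuous
    rw [integral_add (I _ c1) (I _ c2)] at h1
    have h3 := integral_mono (f := fun x => -(Real.exp (u x) * M.lap H u x)) (I _ c1.neg)
      (integrable_const (B + n)) fun x => by
        have a1 := hH.toMet.tr_nonneg hT x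
        rw [e] at a1
        have a2 := Real.exp_le_one_iff.2 (hu0 x)
        have a3 := Real.exp_pos (u x)
        have a4 := hb x
        have a5 : 0 ≤ B + n := by positivity
        show -(Real.exp (u x) * M.lap H u x) ≤ B + n
        nlinarith
    rw [integral_neg] at h3
    linarith

theorem bd {F : Type} [SeminormedAddGroup F] {K : Set (E n)} (hK : IsCompact K) {ι : Type}
    [Finite ι] {f : ι → E n → F} (hf : ∀ i, ContinuousOn (f i) K) :
    ∃ B : ℝ, 0 < B ∧ ∀ i, ∀ z ∈ K, ‖f i z‖ ≤ B := by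
  choose B hB using fun i => hK.exists_bound_of_continuousOn (hf i)
  obtain ⟨C, hC⟩ := (Set.finite_range B).bddAbove
  exact ⟨max C 1, by positivity, fun i z hz =>
    (hB i z hz).trans ((hC ⟨i, rfl⟩).trans (le_max_left _ _))⟩

theorem cnq {K : Set (E n)} {T : E n → Mat n} {v : E n → E n}
    (hT : ∀ i j, ContinuousOn (fun z => T z i j) K) (hv : ∀ i, ContinuousOn (fun z => v z i) K) :
    ContinuousOn (fun z => nq (T z) (v z)) K := by
  simp only [nq, dotProduct, Matrix.mulVec, Pi.star_apply]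
  exact continuous_re.comp_continuousOn (continuousOn_finsetSum _ fun i _ =>
    (hv i).star.mul (continuousOn_finsetSum _ fun j _ => (hT i j).mul (hv j)))

theorem dz_le {H : M.Fam (Mat n)} (hH : M.Met H) {u : M.X → ℝ} (hu : M.Sm u) {e : M.Ch}
    (he : e ∈ M.C) {z : E n} (hz : z ∈ e.target) (i : Fin n) {B : ℝ}
    (hB : nq (H e z) (Pi.single i 1) ≤ B) : ‖dz i (M.lc u e) z‖ ≤
      B * (Real.exp (u (e.symm z)) * M.gr H u u (e.symm z)) + Real.exp (-u (e.symm z)) := by
  have h1 := (mHES n M).2.2.1 u hu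
  have h2 := le_tr (hH.pos e he z hz) (by simpa using h1.2 e he z hz) (Pi.single i 1)
    (T := M.ds u u e z)
  have h5 : M.gr H u u (e.symm z) = ((H e z)⁻¹ * M.ds u u e z).trace.re :=
    ((mINV n M H hH).1 _ h1.1.toTen).1 e he z hz
  have h3 : nq (M.ds u u e z) (Pi.single i 1) = ‖dz i (M.lc u e) z‖ ^ 2 := by
    have := star_dz_ofReal (j := i) (u := fun w => u (e.symm w)) (cd_diff (hu.lc e he z hz))
    rw [nq, Matrix.mulVec_single_one, ← Pi.single_star, star_one, single_dotProduct, one_mul]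
    show (dzb i (fun w => (u (e.symm w) : ℂ)) z * dz i (fun w => (u (e.symm w) : ℂ)) z).re =
      ‖dz i (fun w => (u (e.symm w) : ℂ)) z‖ ^ 2
    rw [← this, star_def, ← normSq_eq_conj_mul_self, ofReal_re, normSq_eq_norm_sq]
  have h4 : 0 ≤ M.gr H u u (e.symm z) := hH.tr_nonneg h1.2 _
  rw [h3, ← h5] at h2
  have h6 := mul_le_mul_of_nonneg_left hB h4
  have h7 : Real.exp (u (e.symm z)) * Real.exp (-u (e.symm z)) = 1 := by
    rw [← Real.exp_add, add_neg_cancel, Real.exp_zero]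
  have h8 := Real.exp_pos (u (e.symm z))
  have h9 := Real.exp_pos (-u (e.symm z))
  have h0 : 0 ≤ B := (nq0 (hH.pos e he z hz).posSemidef _).trans hB
  have hA : 0 ≤ B * (Real.exp (u (e.symm z)) * M.gr H u u (e.symm z)) := by positivity
  refine abs_le_of_sq_le_sq' ?_ (by positivity) |>.2
  have : B * (Real.exp (u (e.symm z)) * M.gr H u u (e.symm z)) * Real.exp (-u (e.symm z)) =
      M.gr H u u (e.symm z) * B := by linear_combination (B * M.gr H u u (e.symm z)) * h7
  nlinarith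

end Pool.Agent.Lib.NU4.Hx39
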