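import Pool.Agent.Lib.SV.B_WEYL
import Pool.Agent.Lib.SV.B_SUB
import Pool.Agent.Lib.HS32.MBlue

/-! The lemma of Weyl for functions that are almost holomorphic in the mean. -/

open scoped Classical Topology ENNReal ContDiff Convolution
open Set MeasureTheory Complex Filter Metric

set_option linter.unusedVariables false

noncomputable section

namespace Pool.Agent.Lib.NU4.Hx39

open Pool.Agent.Lib.SV (E)
open Pool.Agent.Lib.SV.WEYL (cv cv_eq cv_eq' cv_l1 cv_cont clin bump)
open Pool.Agent.Lib.HS32 (dzb)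

variable {n : ℕ}

theorem ulim {X Y : Type} [PseudoMetricSpace X] [NormedAddCommGroup Y] [ProperSpace Y]
    (l : Ultrafilter ℕ) (f : ℕ → X → Y) (B K : ℝ) (hB : ∀ j x, ‖f j x‖ ≤ B)
    (hK : ∀ j x y, ‖f j x - f j y‖ ≤ K * dist x y) :
    ∃ G : X → Y, (∀ x, Tendsto (fun j => f j x) l (𝓝 (G x))) ∧
      ∀ x, TendstoUniformlyOnFilter f G l (𝓝 x) := by
  have h1 : ∀ x, ∃ y, Tendsto (fun j => f j x) l (𝓝 y) := fun x => by
    obtain ⟨y, -, hy⟩ := (isCompact_closedBall (0 : Y) B).ultrafilter_le_nhds
      (l.map fun j => f j x) (le_principal_iff.2 (mem_map.2 (Eventually.of_forall fun j =>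
        mem_closedBall_zero_iff.2 (hB j x))))
    exact ⟨y, hy⟩
  choose G hG using h1
  refine ⟨G, hG, fun x => Metric.tendstoUniformlyOnFilter_iff.2 fun ε hε => ?_⟩
  have hL : ∀ y, ‖G y - G x‖ ≤ K * dist y x := fun y =>
    le_of_tendsto ((hG y).sub (hG x)).norm (Eventually.of_forall fun j => hK j y x)
  have h2 : ∀ᶠ j in (l : Filter ℕ), ‖G x - f j x‖ < ε / 3 := by
    have := ((tendsto_const_nhds (x := G x)).sub (hG x)).norm
    rw [sub_self, norm_zero] at this
    exact this.eventually (gt_mem_nhds (by positivity))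
  have h3 : ∀ᶠ y in 𝓝 x, K * dist y x < ε / 3 := by
    have : Tendsto (fun y => K * dist y x) (𝓝 x) (𝓝 (K * dist x x)) :=
      (continuous_const.mul (continuous_id.dist continuous_const)).tendsto x
    rw [dist_self, mul_zero] at this
    exact this.eventually (gt_mem_nhds (by positivity))
  filter_upwards [h2.prod_mk h3] with p hp
  have e : G p.2 - f p.1 p.2 = (G p.2 - G x) + (G x - f p.1 x) - (f p.1 p.2 - f p.1 x) := by abel
  rw [dist_eq_norm, e]
  linarith [norm_sub_le ((G p.2 - G x) + (G x - f p.1 x)) (f p.1 p.2 - f p.1 x),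
    norm_add_le (G p.2 - G x) (G x - f p.1 x), hL p.2, hK p.1 p.2 x, hp.1, hp.2]

theorem cbd {F Y : Type} [NormedAddCommGroup F] [NormedSpace ℝ F] [NormedAddCommGroup Y]
    [NormedSpace ℝ Y] (L : ℂ →L[ℝ] F →L[ℝ] Y) {h : E n → F} (hh : ContDiff ℝ 1 h)
    (hc : HasCompactSupport h) (C : ℝ) : ∃ B K : ℝ, ∀ A : E n → ℂ, Integrable A →
      ∫ t, ‖A t‖ ≤ C → (∀ x, ‖(A ⋆[L, volume] h) x‖ ≤ B) ∧
        ∀ x y, ‖(A ⋆[L, volume] h) x - (A ⋆[L, volume] h) y‖ ≤ K * dist x y := by
  obtain ⟨B, hB⟩ := hh.continuous.bounded_above_of_compact_support hc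
  obtain ⟨K, hK⟩ := hh.lipschitzWith_of_hasCompactSupport hc one_ne_zero
  have hB0 : 0 ≤ B := (norm_nonneg _).trans (hB 0)
  have key : ∀ (A : E n → ℂ) (u : E n → F) (b : ℝ), Integrable A → ∫ t, ‖A t‖ ≤ C → 0 ≤ b →
      (∀ t, ‖u t‖ ≤ b) → ‖∫ t, L (A t) (u t)‖ ≤ ‖L‖ * b * C := fun A u b hA hC hb hu => by
    refine (norm_integral_le_of_norm_le (hA.norm.const_mul (‖L‖ * b))
      (Eventually.of_forall fun t => ?_)).trans ?_
    · refine (L.le_opNorm₂ _ _).trans ?_
      have := mul_le_mul_of_nonneg_left (hu t) (mul_nonneg (norm_nonneg L) (norm_nonneg (A t)))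
      linarith
    · rw [integral_const_mul]
      exact mul_le_mul_of_nonneg_left hC (by positivity)
  refine ⟨‖L‖ * B * C, ‖L‖ * K * C, fun A hA hC => ⟨fun x => key A _ B hA hC hB0 fun t => hB _,
    fun x y => ?_⟩⟩
  have hi := hc.convolutionExists_right L hA.locallyIntegrable hh.continuous
  rw [convolution_def, convolution_def, ← integral_sub (hi x) (hi y)]
  simp only [← map_sub]
  refine (key A _ (K * dist x y) hA hC (by positivity) fun t => ?_).trans_eq (by ring)
  rw [← dist_eq_norm, ← dist_sub_right x y t]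
  exact hK.dist_le_mul _ _

theorem scale (l : Ultrafilter ℕ) (A : ℕ → E n → ℂ) (C : ℝ) (O : Set (E n))
    (hA : ∀ j, ContDiff ℝ 1 (A j)) (hs : ∀ j, HasCompactSupport (A j))
    (hC : ∀ j, ∫ t, ‖A j t‖ ≤ C) (hO : MeasurableSet O)
    (hd : ∀ k, Tendsto (fun j => ∫ t in O, ‖dzb k (A j) t‖) l (𝓝 0)) {g : E n → ℝ}
    (hg : ContDiff ℝ ∞ g) (hc : HasCompactSupport g) :
    ∃ G : E n → ℂ, (∀ x, Tendsto (fun j => cv (A j) g x) l (𝓝 (G x))) ∧
      (∀ x, TendstoUniformlyOnFilter (fun j => cv (A j) g) G l (𝓝 x)) ∧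
      ∀ x, (∀ t ∉ O, g (x - t) = 0) → DifferentiableAt ℂ G x := by
  have hg1 : ContDiff ℝ 1 g := hg.of_le (by simp)
  have hi : ∀ j, Integrable (A j) := fun j =>
    (hA j).continuous.integrable_of_hasCompactSupport (hs j)
  set L : ℂ →L[ℝ] ℝ →L[ℝ] ℂ := (ContinuousLinearMap.lsmul ℝ ℝ (E := ℂ)).flip with hL
  obtain ⟨B, K, h0⟩ := cbd L hg1 hc C
  obtain ⟨B', K', h1⟩ := cbd (ContinuousLinearMap.precompR (E n) L)
    (hg.fderiv_right (m := 1) (by norm_cast)) (hc.fderiv ℝ) C
  obtain ⟨G, hG, hU⟩ := ulim l (fun j => cv (A j) g) B K (fun j => (h0 _ (hi j) (hC j)).1)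
    fun j => (h0 _ (hi j) (hC j)).2
  have : ProperSpace (E n →L[ℝ] ℂ) := FiniteDimensional.proper_real _
  obtain ⟨D, hD, hV⟩ := ulim l _ B' K' (fun j => (h1 _ (hi j) (hC j)).1)
    fun j => (h1 _ (hi j) (hC j)).2
  have hr := fun j x => hc.hasFDerivAt_convolution_right L (hi j).locallyIntegrable hg1 x
  refine ⟨G, hG, hU, fun x hx => ?_⟩
  have hF : HasFDerivAt G (D x) x := hasFDerivAt_of_tendstoUniformlyOnFilter (hV x)
    (Eventually.of_forall fun p => hr p.1 p.2) (Eventually.of_forall hG)
  obtain ⟨b, hb⟩ := hg.continuous.bounded_above_of_compact_support hc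
  have hb0 : 0 ≤ b := (norm_nonneg _).trans (hb 0)
  obtain ⟨L', hL'⟩ := clin (D x) fun k => by
    have hv := fun v : E n => ((ContinuousLinearMap.apply ℝ ℂ v).continuous.tendsto _).comp (hD x)
    refine tendsto_nhds_unique ((hv (Pi.single k 1)).add ((hv (Pi.single k I)).const_mul I)) ?_
    have h2 := (hd k).const_mul (2 * b)
    rw [mul_zero] at h2
    refine squeeze_zero_norm (fun j => ?_) h2
    have hc1 := (hA j).continuous_fderiv one_ne_zero
    have hli : LocallyIntegrable g volume := hg.continuous.locallyIntegrable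
    have hl := (hs j).hasFDerivAt_convolution_left L (hA j) hli x
    have hex := ((hs j).fderiv ℝ).convolutionExists_left (ContinuousLinearMap.precompL (E n) L)
      hc1 hli x
    have hap : ∀ v, (A j ⋆[ContinuousLinearMap.precompR (E n) L, volume] fderiv ℝ g) x v =
        ∫ t, g (x - t) • fderiv ℝ (A j) t v := fun v => by
      rw [(hr j x).unique hl, convolution_def, ContinuousLinearMap.integral_apply hex]
      rfl
    have hin : ∀ v, Integrable fun t => g (x - t) • fderiv ℝ (A j) t v := fun v =>
      (ContinuousLinearMap.apply ℝ ℂ v).integrable_comp hex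
    have hcz : Continuous fun t => ‖dzb k (A j) t‖ := by
      unfold dzb
      fun_prop
    have hiz : Integrable fun t => ‖dzb k (A j) t‖ := by
      refine hcz.integrable_of_hasCompactSupport (((hs j).fderiv ℝ).mono fun t ht h => ht ?_)
      simp [dzb, h]
    simp only [Function.comp_apply, ContinuousLinearMap.apply_apply]
    rw [hap, hap, ← integral_const_mul, ← integral_add (hin _) ((hin _).const_mul _),
      ← integral_const_mul, ← integral_indicator hO]
    refine norm_integral_le_of_norm_le ((hiz.const_mul _).indicator hO)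
      (Eventually.of_forall fun t => ?_)
    by_cases ht : t ∈ O
    · have e : g (x - t) • fderiv ℝ (A j) t (Pi.single k 1) +
          I * g (x - t) • fderiv ℝ (A j) t (Pi.single k I) = 2 * g (x - t) * dzb k (A j) t := by
        simp only [dzb, real_smul]
        ring
      rw [indicator_of_mem ht, e, norm_mul, norm_mul, norm_real, RCLike.norm_ofNat]
      gcongr
      exact hb _
    · simp [indicator_of_notMem ht, hx t ht]
  exact (hasFDerivAt_of_restrictScalars ℝ hF hL').differentiableAt

/-- The global form. -/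
theorem glob (l : Ultrafilter ℕ) (A : ℕ → E n → ℂ) (C : ℝ) (c : E n) {r : ℝ} (hr : 0 < r)
    (hA : ∀ j, ContDiff ℝ 1 (A j)) (hs : ∀ j, HasCompactSupport (A j))
    (hC : ∀ j, ∫ t, ‖A j t‖ ≤ C)
    (hd : ∀ k, Tendsto (fun j => ∫ t in ball c (3 * r), ‖dzb k (A j) t‖) l (𝓝 0)) :
    ∃ F : E n → ℂ, DifferentiableOn ℂ F (ball c r) ∧ ∀ z ∈ ball c r, ∀ (m : E n → ℂ) (d : ℝ),
      0 < d → ContinuousOn m (closedBall z d) →
      Tendsto (fun j => ∫ w in closedBall z d, ‖A j w - m w‖) l (𝓝 0) → F z = m z := by
  set g : ℕ → E n → ℝ := fun k => (bump r hr k).normed volume with hg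
  have hi : ∀ j, Integrable (A j) := fun j =>
    (hA j).continuous.integrable_of_hasCompactSupport (hs j)
  have hro : ∀ k : ℕ, r / (k + 1) ≤ r := fun k =>
    div_le_self hr.le (le_add_of_nonneg_left (Nat.cast_nonneg k))
  have hsup : ∀ k x t, r / ((k : ℕ) + 1) ≤ dist t x → g k (x - t) = 0 := fun k x t h => by
    by_contra h0
    have h1 : x - t ∈ Function.support ((bump r hr k).normed volume) := h0
    rw [ContDiffBump.support_normed_eq, mem_ball_zero_iff, ← dist_eq_norm, dist_comm] at h1
    exact h1.not_ge h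
  choose G hG hU hD using fun k => scale l A C _ hA hs hC measurableSet_ball hd (g := g k)
    (bump r hr k).contDiff_normed (bump r hr k).hasCompactSupport_normed
  have hdf : ∀ k, DifferentiableOn ℂ (G k) (ball c (2 * r)) := fun k x hx =>
    (hD k x fun t ht => hsup k x t (by
      rw [mem_ball] at hx
      rw [mem_ball, not_lt] at ht
      linarith [dist_triangle t x c, hro k])).differentiableWithinAt
  have hb0 : volume (ball (0 : E n) r) ≠ 0 := (measure_ball_pos _ _ hr).ne'
  have hb1 : volume (ball (0 : E n) r) ≠ ⊤ := measure_ball_lt_top.ne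
  have hC0 : 0 ≤ C := (integral_nonneg fun _ => norm_nonneg _).trans (hC 0)
  have hb : ∀ k, ∀ z ∈ ball c r, ‖G k z‖ ≤ C / (volume (ball (0 : E n) r)).toReal + 1 :=
    fun k z hz => by
    have h1 := SV.stSUB (E n) volume (G k) z r 1 hr one_pos
      ((hdf k).mono fun w hw => by
        rw [mem_ball] at hz hw ⊢
        linarith [dist_triangle w z c])
    simp only [Real.rpow_one] at h1
    have hu : TendstoUniformlyOn (fun j => cv (A j) (g k)) (G k) l (closedBall z r) :=
      (tendstoLocallyUniformlyOn_iff_tendstoUniformlyOn_of_compact (isCompact_closedBall z r)).1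
        (tendstoLocallyUniformlyOn_iff_filter.2 fun x _ => (hU k x).mono_right nhdsWithin_le_nhds)
    obtain ⟨j, hj⟩ := (Metric.tendstoUniformlyOn_iff.1 hu 1 one_pos).exists
    have h2 : ∫⁻ w in ball z r, ENNReal.ofReal ‖G k w‖ ≤
        ENNReal.ofReal C + volume (ball z r) := by
      calc _ ≤ ∫⁻ w in ball z r, (ENNReal.ofReal ‖cv (A j) (g k) w‖ + 1) := by
            refine setLIntegral_mono' measurableSet_ball fun w hw => ?_
            rw [← ENNReal.ofReal_one, ← ENNReal.ofReal_add (norm_nonneg _) zero_le_one]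
            refine ENNReal.ofReal_le_ofReal ?_
            have := hj w (ball_subset_closedBall hw)
            rw [dist_eq_norm] at this
            linarith [norm_sub_norm_le (G k w) (cv (A j) (g k) w)]
        _ ≤ _ := by
            rw [lintegral_add_right _ measurable_const, setLIntegral_one]
            gcongr
            exact (setLIntegral_le_lintegral _ _).trans ((cv_l1 (hi j)
              (bump r hr k).integrable_normed (bump r hr k).nonneg_normed
              (bump r hr k).integral_normed).trans (ENNReal.ofReal_le_ofReal (hC j)))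
    have h3 := h1.trans h2
    rw [Measure.addHaar_ball_center] at h3
    have h4 := ENNReal.toReal_mono (ENNReal.add_ne_top.2 ⟨ENNReal.ofReal_ne_top, hb1⟩) h3
    rw [ENNReal.toReal_mul, ENNReal.toReal_ofReal (norm_nonneg _),
      ENNReal.toReal_add ENNReal.ofReal_ne_top hb1, ENNReal.toReal_ofReal hC0] at h4
    have hp := ENNReal.toReal_pos hb0 hb1
    rw [div_add_one hp.ne', le_div_iff₀ hp]
    exact h4
  obtain ⟨s, hs', H, hH, hl⟩ := SV.H85.montel (f := G) (O := ball c r) isOpen_ball
    (fun k => (hdf k).mono (ball_subset_ball (by linarith)))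
    (fun x hx => ⟨_, ball c r, isOpen_ball.mem_nhds hx, hb⟩)
  refine ⟨H, hH, fun z hz m d hd0 hm ht => ?_⟩
  set m' := (closedBall z d).indicator m with hm'
  have him : Integrable m' := (integrable_indicator_iff measurableSet_closedBall).2
    (hm.integrableOn_compact (isCompact_closedBall z d))
  have h0 : Tendsto (fun k : ℕ => r / (k + 1)) atTop (𝓝 0) := by
    have := (tendsto_one_div_add_atTop_nhds_zero_nat (𝕜 := ℝ)).const_mul r
    simpa [div_eq_mul_inv] using this
  have h1 : Tendsto (fun k => cv m' (g k) z) atTop (𝓝 (m z)) := by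
    have hz' : closedBall z d ∈ 𝓝 z := closedBall_mem_nhds z hd0
    have hc : Tendsto m' (𝓝 z) (𝓝 (m z)) := (hm.continuousAt hz').tendsto.congr' (by
      filter_upwards [hz'] with w hw using (indicator_of_mem hw m).symm)
    refine (ContDiffBump.convolution_tendsto_right (μ := volume) (φ := bump (n := n) r hr)
      (g := fun _ => m') (k := fun _ => z) h0 (Eventually.of_forall fun _ => him.1)
      (hc.comp tendsto_snd) tendsto_const_nhds).congr fun k => ?_
    rw [cv_eq']
    rfl
  have h2 : ∀ᶠ k in atTop, cv m' (g k) z = G k z := by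
    filter_upwards [h0.eventually (gt_mem_nhds hd0)] with k hk
    refine tendsto_nhds_unique ?_ (hG k z)
    have hgc : Continuous (g k) := (bump r hr k).continuous_normed
    have hgs : HasCompactSupport (g k) := (bump r hr k).hasCompactSupport_normed
    obtain ⟨b, hb⟩ := hgc.bounded_above_of_compact_support hgs
    have h3 := ht.const_mul b
    rw [mul_zero] at h3
    refine tendsto_iff_norm_sub_tendsto_zero.2 (squeeze_zero (fun _ => norm_nonneg _)
      (fun j => ?_) h3)
    have hx := fun (u : E n → ℂ) (hu : Integrable u) =>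
      hgs.convolutionExists_right
        (ContinuousLinearMap.lsmul ℝ ℝ (E := ℂ)).flip hu.locallyIntegrable hgc z
    have hia : IntegrableOn (fun w => ‖A j w - m w‖) (closedBall z d) :=
      (((hA j).continuous.continuousOn.sub hm).norm).integrableOn_compact
        (isCompact_closedBall z d)
    show ‖cv (A j) (g k) z - cv m' (g k) z‖ ≤ _
    rw [cv, cv, convolution_def, convolution_def, ← integral_sub (hx _ (hi j)) (hx _ him),
      ← integral_const_mul, ← integral_indicator measurableSet_closedBall]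
    refine norm_integral_le_of_norm_le ((integrable_indicator_iff measurableSet_closedBall).2
      (hia.const_mul b)) (Eventually.of_forall fun t => ?_)
    show ‖g k (z - t) • A j t - g k (z - t) • m' t‖ ≤ _
    by_cases h : t ∈ closedBall z d
    · rw [indicator_of_mem h, hm', indicator_of_mem h, ← smul_sub, norm_smul]
      gcongr
      exact hb _
    · rw [indicator_of_notMem h, hsup k z t (by
        rw [mem_closedBall, not_le] at h
        linarith)]
      simp
  exact tendsto_nhds_unique (hl.tendsto_at hz) ((h1.congr' h2).comp hs'.tendsto_atTop)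

/-- Functions that are bounded and almost holomorphic in the mean have a holomorphic limit. -/
theorem hx39 (l : Filter ℕ) [l.NeBot] (a : ℕ → E n → ℂ) (C : ℝ) (c : E n) {r : ℝ} (hr : 0 < r)
    (ha : ∀ j, ∀ z ∈ closedBall c (4 * r), ContDiffAt ℝ 1 (a j) z)
    (hC : ∀ j, ∫ t in closedBall c (4 * r), ‖a j t‖ ≤ C)
    (hd : ∀ k, Tendsto (fun j => ∫ t in closedBall c (4 * r), ‖dzb k (a j) t‖) l (𝓝 0)) :
    ∃ F : E n → ℂ, DifferentiableOn ℂ F (ball c r) ∧ ∀ z ∈ ball c r, ∀ (m : E n → ℂ) (d : ℝ),
      0 < d → d ≤ r → ContinuousOn m (closedBall z d) →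
      Tendsto (fun j => ∫ w in closedBall z d, ‖a j w - m w‖) l (𝓝 0) → F z = m z := by
  let χ : ContDiffBump c := ⟨3 * r, 4 * r, by positivity, by linarith⟩
  have hu : (Ultrafilter.of l : Filter ℕ) ≤ l := Ultrafilter.of_le l
  have hK := isCompact_closedBall c (4 * r)
  have hts : ∀ j, tsupport (fun z => χ z • a j z) ⊆ closedBall c (4 * r) := fun j =>
    (tsupport_smul_subset_left _ _).trans χ.tsupport_eq.subset
  have hca : ∀ j, ContinuousOn (a j) (closedBall c (4 * r)) := fun j z hz =>
    (ha j z hz).continuousAt.continuousWithinAt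
  have he : ∀ j, ∀ z ∈ ball c (3 * r), (fun z => χ z • a j z) =ᶠ[𝓝 z] a j := fun j z hz => by
    filter_upwards [χ.eventuallyEq_one_of_mem_ball hz] with w hw
    simp [hw]
  have h1 : ∀ j, ∫ t, ‖χ t • a j t‖ ≤ C := fun j => by
    refine le_trans ?_ (hC j)
    rw [← integral_indicator measurableSet_closedBall]
    refine integral_mono_of_nonneg (Eventually.of_forall fun _ => norm_nonneg _)
      ((integrable_indicator_iff measurableSet_closedBall).2 ((hca j).norm.integrableOn_compact hK))
      (Eventually.of_forall fun t => ?_)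
    by_cases ht : t ∈ closedBall c (4 * r)
    · simp only [indicator_of_mem ht, norm_smul, Real.norm_of_nonneg χ.nonneg]
      exact mul_le_of_le_one_left (norm_nonneg _) χ.le_one
    · simp only [indicator_of_notMem ht, image_eq_zero_of_notMem_tsupport fun h => ht (hts j h),
        norm_zero, le_refl]
  have h2 : ∀ k, Tendsto (fun j => ∫ t in ball c (3 * r), ‖dzb k (fun z => χ z • a j z) t‖)
      (Ultrafilter.of l) (𝓝 0) := fun k => by
    refine squeeze_zero (fun j => integral_nonneg fun _ => norm_nonneg _) (fun j => ?_)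
      ((hd k).mono_left hu)
    rw [setIntegral_congr_fun (g := fun t => ‖dzb k (a j) t‖) measurableSet_ball fun t ht => by
      simp only [dzb, (he j t ht).fderiv_eq]]
    refine setIntegral_mono_set (ContinuousOn.integrableOn_compact hK fun z hz => ?_)
      (Eventually.of_forall fun _ => norm_nonneg _)
      (ball_subset_closedBall.trans (closedBall_subset_closedBall (by linarith))).eventuallyLE
    have hc := (ha j z hz).continuousAt_fderiv one_ne_zero
    refine ContinuousAt.continuousWithinAt ?_
    unfold dzb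
    fun_prop
  obtain ⟨F, hF, h⟩ := glob (Ultrafilter.of l) (fun j z => χ z • a j z) C c hr
    (fun j => contDiff_iff_contDiffAt.2 fun z => by
      by_cases hz : z ∈ tsupport (fun z => χ z • a j z)
      · exact χ.contDiff.contDiffAt.smul (ha j z (hts j hz))
      · exact contDiffAt_const.congr_of_eventuallyEq (notMem_tsupport_iff_eventuallyEq.1 hz))
    (fun j => hK.of_isClosed_subset (isClosed_tsupport _) (hts j)) h1 h2
  refine ⟨F, hF, fun z hz m d h0 h1 hm ht => h z hz m d h0 hm ((ht.mono_left hu).congr fun j =>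
    setIntegral_congr_fun measurableSet_closedBall fun w hw => ?_)⟩
  rw [mem_ball] at hz
  rw [mem_closedBall] at hw
  have := (he j w (mem_ball.2 (by linarith [dist_triangle w z c]))).self_of_nhds
  simp only [this]

end Pool.Agent.Lib.NU4.Hx39
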