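import Pool.Agent.Lib.F4.BlueD
import Pool.Agent.Lib.HS32.MAll

/-! Project nu4: a form of rank one that is weakly orthogonal to a closed class bounds the square
of the class. -/

open scoped Classical Topology ContDiff ComplexOrder Matrix ENNReal
open Set MeasureTheory Complex Metric Filter

set_option linter.unusedVariables false

noncomputable section

namespace Pool.Agent.Lib.NU4.K53

open Pool.Agent.Lib.SV (E)
open Pool.Agent.Lib.HS32 Pool.Agent.Lib.F4 Pool.Agent.Lib.F4.LD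

/-- Two close points in a nested family of midpoint convex sets. -/
theorem two {V ι : Type} (N : V → ℝ) (D : V → V → ℝ) (m : V → V → V) (l : Filter ι)
    (K : Set ι → Set V) (C : ℝ) (mono : ∀ s t, s ⊆ t → K s ⊆ K t)
    (mid : ∀ s, ∀ f ∈ K s, ∀ g ∈ K s, m f g ∈ K s ∧ D f g = 2 * N f + 2 * N g - 4 * N (m f g))
    (n0 : ∀ f, 0 ≤ N f) (ne : ∀ s ∈ l, ∃ f ∈ K s, N f ≤ C) {η : ℝ} (hη : 0 < η) :
    ∃ f ∈ K univ, ∀ s ∈ l, ∃ g ∈ K s, D f g ≤ η := by
  let d : Set ι → ℝ := fun s => sInf (N '' K s)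
  have bb : ∀ s, BddBelow (N '' K s) := fun s => ⟨0, by rintro _ ⟨f, -, rfl⟩; exact n0 f⟩
  have le : ∀ s, ∀ f ∈ K s, d s ≤ N f := fun s f hf => csInf_le (bb s) ⟨f, hf, rfl⟩
  have ba : BddAbove (d '' {s | s ∈ l}) := ⟨C, by
    rintro _ ⟨s, hs, rfl⟩
    obtain ⟨f, hf, h⟩ := ne s hs
    exact (le s f hf).trans h⟩
  set T := sSup (d '' {s | s ∈ l}) with hT
  have near : ∀ s ∈ l, ∃ f ∈ K s, N f ≤ T + η / 8 := fun s hs => by
    obtain ⟨f, hf, -⟩ := ne s hs
    obtain ⟨_, ⟨g, hg, rfl⟩, h⟩ := exists_lt_of_csInf_lt (s := N '' K s) ⟨_, f, hf, rfl⟩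
      (show sInf (N '' K s) < d s + η / 8 by simp only [d]; linarith)
    have := le_csSup ba ⟨s, hs, rfl⟩
    exact ⟨g, hg, by linarith⟩
  obtain ⟨_, ⟨s0, h0, rfl⟩, h1⟩ := exists_lt_of_lt_csSup (s := d '' {s | s ∈ l})
    ⟨_, univ, univ_mem, rfl⟩ (show T - η / 8 < T by linarith)
  obtain ⟨f, hf, h2⟩ := near s0 h0
  refine ⟨f, mono _ _ (subset_univ _) hf, fun s hs => ?_⟩
  obtain ⟨g, hg, h3⟩ := near (s ∩ s0) (inter_mem hs h0)
  obtain ⟨h4, h5⟩ := mid s0 f hf g (mono _ _ inter_subset_right hg)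
  have := le s0 _ h4
  exact ⟨g, mono _ _ inter_subset_left hg, by linarith⟩

/-- The square of the class is not positive. -/
theorem kv0 (hP : KP.St_POI) (hMXC : St_MXC) (hPSD : St_PSD) {n : ℕ} {M : Mf n} [M.Cpt]
    {H θ A : M.Fam (Mat n)} {ι : Type} {l : Filter ι} [l.NeBot] {F : ι → M.X → ℝ} {c C : ℝ}
    (hn : 0 < n) (hk : M.Kae H) (hθ : M.Clo θ) (hA : M.Form A) (A0 : M.Le 0 A)
    (I0 : 0 < ∫ x, M.tr H A x ∂M.mu H) (hAA : ∀ x, mx M H A A x = 0)
    (T0 : 0 ≤ ∫ x, M.tr H θ x ∂M.mu H) (sF : ∀ j, M.Sm (F j)) (c0 : 0 < c)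
    (cF : ∀ j x, c ≤ F j x) (bF : ∀ j, ∫ x, F j x ^ 2 ∂M.mu H ≤ C)
    (lim : ∀ v, M.Sm v → ∀ η : ℝ, 0 < η →
      ∀ᶠ j in l, ∫ x, F j x * mx M H (θ + M.hs v) A x ∂M.mu H ≤ η) :
    ∫ x, mx M H θ θ x ∂M.mu H ≤ 0 := by
  have hm : M.Met H := hk.toMet
  obtain ⟨-, hfin, -, hvol, hint, -⟩ := mMU n M H hm
  have inv := mINV n M H hm
  have sa : M.Sm (M.tr H A) := (inv.1 A hA.toTen).2.1
  have st : M.Sm (M.tr H θ) := (inv.1 θ hθ.toTen).2.1
  have a0 : ∀ x, 0 ≤ M.tr H A x := hm.tr_nonneg A0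
  have sm : ∀ S T, M.Ten S → M.Ten T → M.Sm (mx M H S T) := fun S T hS hT =>
    ((inv.1 S hS).2.1.mul (inv.1 T hT).2.1).sub (inv.2.2.1 S T hS hT).2.1
  obtain ⟨B, B0, hB⟩ := sa.exists_bound
  have hB2 : ∀ x, M.tr H A x ^ 2 ≤ B ^ 2 := fun x => by
    rw [← sq_abs]
    exact pow_le_pow_left₀ (abs_nonneg _) (hB x) 2
  have it : ∀ u : M.X → ℝ, M.Sm u → Integrable u (M.mu H) := fun u hu => hint ℝ _ hu.continuous
  set T := ∫ x, M.tr H θ x ∂M.mu H with hT
  set J := ∫ x, M.tr H A x ∂M.mu H with hJ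
  have cJ : 0 < c * J := mul_pos c0 I0
  let S : ℝ := T / (c * J)
  have S0 : 0 ≤ S := div_nonneg T0 cJ.le
  let K : Set ι → Set (M.X → ℝ) := fun s => {f | M.Sm f ∧ (∀ x, c ≤ f x) ∧ ∀ g, M.Sm g → ∀ b : ℝ,
    (∀ j ∈ s, ∫ x, F j x * g x ∂M.mu H ≤ b) → ∫ x, f x * g x ∂M.mu H ≤ b}
  have key : ∀ η : ℝ, 0 < η → ∫ x, mx M H θ θ x ∂M.mu H ≤ (2 * S + S ^ 2 * B ^ 2) * η :=
    fun η hη => by
    obtain ⟨f, ⟨sf, cf, -⟩, hf⟩ := two (fun f => ∫ x, f x ^ 2 ∂M.mu H)
      (fun f g => ∫ x, (f x - g x) ^ 2 ∂M.mu H) (fun f g x => 2⁻¹ * (f x + g x)) l K C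
      (fun s t h f hf => ⟨hf.1, hf.2.1, fun g hg b hb => hf.2.2 g hg b fun j hj => hb j (h hj)⟩)
      (fun s f hf g hg => ⟨⟨(hf.1.add hg.1).const_mul _, fun x => by
          linarith [hf.2.1 x, hg.2.1 x], fun u hu b hb => by
          have e : ∀ x, 2⁻¹ * (f x + g x) * u x = 2⁻¹ * (f x * u x + g x * u x) := fun x => by ring
          simp only [e]
          rw [integral_const_mul, integral_add (it _ (hf.1.mul hu)) (it _ (hg.1.mul hu))]
          linarith [hf.2.2 u hu b hb, hg.2.2 u hu b hb]⟩, by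
        have i1 := (it _ (hf.1.pow 2)).const_mul 2
        have i2 := (it _ (hg.1.pow 2)).const_mul 2
        have i3 := (it _ (((hf.1.add hg.1).const_mul 2⁻¹).pow 2)).const_mul 4
        have i4 : Integrable (fun x => 2 * f x ^ 2 + 2 * g x ^ 2) (M.mu H) := i1.add i2
        rw [← integral_const_mul, ← integral_const_mul, ← integral_const_mul,
          ← integral_add i1 i2, ← integral_sub i4 i3]
        exact integral_congr_ae (Eventually.of_forall fun x => by ring)⟩)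
      (fun f => integral_nonneg fun x => sq_nonneg _)
      (fun s hs => by
        obtain ⟨j, hj⟩ := l.nonempty_of_mem hs
        exact ⟨F j, ⟨sF j, cF j, fun g _ b hb => hb j hj⟩, bF j⟩) hη
    let d : ℝ := ∫ x, f x * M.tr H A x ∂M.mu H
    have dl : c * J ≤ d := by
      rw [hJ, ← integral_const_mul]
      exact integral_mono ((it _ sa).const_mul c) (it _ (sf.mul sa))
        fun x => mul_le_mul_of_nonneg_right (cf x) (a0 x)
    have dp : 0 < d := cJ.trans_le dl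
    let s : ℝ := T / d
    have s0 : 0 ≤ s := div_nonneg T0 dp.le
    have sS : s ≤ S := div_le_div_of_nonneg_left T0 cJ dl
    have sb : M.Sm fun x => s * (f x * M.tr H A x) := Mf.Sm.const_mul s (sf.mul sa)
    obtain ⟨v, b, hv, hw⟩ := hP n M H _ hn hk (st.sub sb)
    have z := ((mGRN n M).2 H v v hk hv hv).1
    have e1 : ∫ x, M.lap H v x ∂M.mu H = b * (M.mu H).real univ - (T - s * d) := by
      simp only [hw]
      rw [integral_sub (integrable_const b) (it _ (st.sub sb)), integral_sub (it _ st) (it _ sb),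
        integral_const_mul, integral_const, smul_eq_mul, mul_comm]
    have e2 : s * d = T := div_mul_cancel₀ T dp.ne'
    have b0 : b = 0 := by
      rw [e1, e2, sub_self, sub_zero] at z
      exact (mul_eq_zero.1 z).resolve_right hvol.ne'
    have hs := (mHES n M).1 v hv
    have tθ : M.Ten θ := hθ.toForm.toTen
    have tv : M.Ten (M.hs v) := hs.toForm.toTen
    have sg := sm _ _ (tθ.add tv) hA.toTen
    obtain ⟨g, ⟨sg', -, hg⟩, dg⟩ := hf _ (lim v hv η hη)
    have gb := hg _ sg η fun j hj => hj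
    have pt : ∀ x, mx M H θ θ x + 2 * mx M H θ (M.hs v) x + mx M H (M.hs v) (M.hs v) x ≤
        2 * s * (g x * mx M H (θ + M.hs v) A x) + S ^ 2 * B ^ 2 * (f x - g x) ^ 2 := fun x => by
      have p := fun U => ((hPSD n M H hm x).2.2 (fun y => s * g y) A U).2.1
      have r := ((hPSD n M H hm x).2.1 _ ((hθ.toForm.add hs.toForm).sub
        (((hPSD n M H hm x).2.2 (fun y => s * g y) A A).2.2 (sg'.const_mul s) hA))).1
      have q : ∀ U, M.ip H U (θ + M.hs v - fs M (fun y => s * g y) A) x =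
          M.ip H U θ x + M.ip H U (M.hs v) x - s * g x * M.ip H U A x := fun U => by
        rw [Mf.ip_sub, Mf.ip_add, p]
      have q' : ∀ U, M.ip H (θ + M.hs v - fs M (fun y => s * g y) A) U x =
          M.ip H U θ x + M.ip H U (M.hs v) x - s * g x * M.ip H U A x := fun U => by
        rw [Mf.ip_comm, q]
      rw [q, q', q', q', Mf.ip_comm (S := M.hs v) (T := θ), Mf.ip_comm (S := A) (T := θ),
        Mf.ip_comm (S := A) (T := M.hs v)] at r
      have e3 := hw x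
      have e4 := hAA x
      have e5 : s ^ 2 * M.tr H A x ^ 2 * (f x - g x) ^ 2 ≤ S ^ 2 * B ^ 2 * (f x - g x) ^ 2 :=
        mul_le_mul_of_nonneg_right (mul_le_mul (pow_le_pow_left₀ s0 sS 2) (hB2 x) (sq_nonneg _)
          (sq_nonneg _)) (sq_nonneg _)
      rw [b0] at e3
      simp only [mx, Mf.lap] at e3 e4 ⊢
      rw [Mf.tr_add, Mf.ip_comm (S := θ + M.hs v), Mf.ip_add, Mf.ip_comm (S := A) (T := θ),
        Mf.ip_comm (S := A) (T := M.hs v)]
      have e6 : M.ip H A A x = M.tr H A x ^ 2 := by linarith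
      have e7 : M.tr H (M.hs v) x = s * (f x * M.tr H A x) - M.tr H θ x := by linarith
      rw [e6] at r
      rw [e7]
      linarith
    have i1 := (it _ (sg'.mul sg)).const_mul (2 * s)
    have i2 := (it _ ((sf.sub sg').pow 2)).const_mul (S ^ 2 * B ^ 2)
    have i3 := it _ (sm _ _ tθ tθ)
    have i4 := (it _ (sm _ _ tθ tv)).const_mul 2
    have i5 := it _ (sm _ _ tv tv)
    have j2 : Integrable (fun x => mx M H θ θ x + 2 * mx M H θ (M.hs v) x) (M.mu H) := i3.add i4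
    have z1 : ∫ x, mx M H θ (M.hs v) x ∂M.mu H = 0 := hMXC n M H θ v hk hθ hv
    have z2 : ∫ x, mx M H (M.hs v) (M.hs v) x ∂M.mu H = 0 := hMXC n M H _ v hk hs hv
    have w := integral_mono (j2.add i5) (i1.add i2) pt
    simp only [Pi.add_apply] at w
    rw [integral_add i1 i2, integral_add j2 i5, integral_add i3 i4, integral_const_mul,
      integral_const_mul, integral_const_mul, z1, z2] at w
    have w1 : 2 * s * ∫ x, g x * mx M H (θ + M.hs v) A x ∂M.mu H ≤ 2 * S * η :=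
      (mul_le_mul_of_nonneg_left gb (by linarith)).trans
        (mul_le_mul_of_nonneg_right (by linarith) hη.le)
    have w2 := mul_le_mul_of_nonneg_left dg (mul_nonneg (sq_nonneg S) (sq_nonneg B))
    linarith
  refine le_of_forall_pos_le_add fun ε hε => ?_
  have p : 0 < 2 * S + S ^ 2 * B ^ 2 + 1 := by positivity
  have h := key _ (div_pos hε p)
  have h2 : (2 * S + S ^ 2 * B ^ 2) * (ε / (2 * S + S ^ 2 * B ^ 2 + 1)) ≤ ε := by
    rw [← mul_div_assoc, div_le_iff₀ p]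
    nlinarith
  linarith

end Pool.Agent.Lib.NU4.K53
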