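import Pool.Agent.Lib.F4.B_DVC
import Pool.Agent.Lib.F4.A_D1
import Pool.Agent.Lib.F4.A_PT1
import Pool.Agent.Lib.F4.A_PT2
import Pool.Agent.Lib.F4.A_OP
import Pool.Agent.Lib.F4.A_OS

/-! Project nu4: the connection along a twisted vector field. -/

open scoped Classical Topology ContDiff ComplexOrder Matrix
open Set Filter

noncomputable section

namespace Pool.Agent.Lib.NU4.N87

open Pool.Agent.Lib.SV (E)
open Pool.Agent.Lib.HS32 Pool.Agent.Lib.HLK Pool.Agent.Lib.F4
open Pool.Agent.Lib.F4.DVC (hol_sum hol_dz hol_d dv_one)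

variable {n : ℕ}

/-- The bracket of two vector fields. -/
def br (W V : E n → E n) (z : E n) : E n := fun i =>
  ∑ k, (W z k * dz k (fun y => V y i) z - V z k * dz k (fun y => W y i) z)

/-- The corrected bracket. -/
def yv (c : ℂ) (W V : E n → E n) (z : E n) : E n := br W V z - (c * dv W z) • V z

/-- The connection on the forms that vanish on `W`. -/
def nb (c : ℂ) (W α : E n → E n) (z : E n) : E n := W z ᵥ* d1 α z - (c * dv W z) • α z

/-- The contraction of the exterior derivative of `S` with `W`. -/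
def iw (W : E n → E n) (S : E n → Mat n) (z : E n) : Mat n := Matrix.of fun i j =>
  ∑ k, W z k * (dz k (fun y => S y i j) z + dz i (fun y => S y j k) z + dz j (fun y => S y k i) z)

/-- The logarithmic derivative of the Jacobian determinant. -/
def lj (ψ : E n → E n) (z : E n) : E n :=
  fun k => dz k (fun w => (jm ψ w).det) z / (jm ψ z).det

theorem hol_mul {f g : E n → ℂ} {z : E n} (h : HolN f z) (h' : HolN g z) :
    HolN (fun w => f w * g w) z := (h.and h').mono fun _ a => a.1.mul a.2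

theorem hol_sub {f g : E n → ℂ} {z : E n} (h : HolN f z) (h' : HolN g z) :
    HolN (fun w => f w - g w) z := (h.and h').mono fun _ a => a.1.sub a.2

theorem hol_c (c : ℂ) (z : E n) : HolN (fun _ : E n => c) z :=
  Eventually.of_forall fun _ => differentiableAt_const _

theorem hol_dv {W : E n → E n} {z : E n} (h : ∀ i, HolN (fun w => W w i) z) : HolN (dv W) z :=
  hol_sum fun j => hol_dz (h j) j

theorem hol_nb (c : ℂ) {W α : E n → E n} {z : E n} (h : ∀ i, HolN (fun w => W w i) z)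
    (h' : ∀ i, HolN (fun w => α w i) z) (i : Fin n) : HolN (fun w => nb c W α w i) z :=
  hol_sub (hol_sum fun k => hol_mul (h k) (hol_sub (hol_dz (h' i) k) (hol_dz (h' k) i)))
    (hol_mul (hol_mul (hol_c c z) (hol_dv h)) (h' i))

theorem hol_br {W V : E n → E n} {z : E n} (h : ∀ i, HolN (fun w => W w i) z)
    (h' : ∀ i, HolN (fun w => V w i) z) (i : Fin n) : HolN (fun w => br W V w i) z :=
  hol_sum fun k => hol_sub (hol_mul (h k) (hol_dz (h' i) k)) (hol_mul (h' k) (hol_dz (h i) k))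

theorem hol_yv (c : ℂ) {W V : E n → E n} {z : E n} (h : ∀ i, HolN (fun w => W w i) z)
    (h' : ∀ i, HolN (fun w => V w i) z) (i : Fin n) : HolN (fun w => yv c W V w i) z :=
  hol_sub (hol_br h h' i) (hol_mul (hol_mul (hol_c c z) (hol_dv h)) (h' i))

theorem dz_zp {ψ : E n → E n} {z : E n} (hψ : HolN ψ z) (h0 : (jm ψ z).det ≠ 0) (a : ℤ) :
    DifferentiableAt ℝ (fun w => (jm ψ w).det ^ a) z ∧
      ∀ k, dz k (fun w => (jm ψ w).det ^ a) z = a * (jm ψ z).det ^ a * lj ψ z k := by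
  have dg : DifferentiableAt ℝ (fun w => (jm ψ w).det) z := hol_d (mCHN n ψ z hψ).2.2.2.2.1
  have hz := hasDerivAt_zpow a (jm ψ z).det (Or.inl h0)
  refine ⟨DifferentiableAt.comp (g := fun t : ℂ => t ^ a) z
    (hz.differentiableAt.restrictScalars ℝ) dg, fun k => ?_⟩
  rw [dz_comp (φ := fun t => t ^ a) hz dg, zpow_sub_one₀ h0, lj]
  field_simp

/-- The divergence at any level. -/
theorem dv_lev {ψ W W' : E n → E n} {z : E n} {m : ℤ} (hψ : HolN ψ z) (h0 : (jm ψ z).det ≠ 0)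
    (hW : ∀ a, DifferentiableAt ℝ (fun w => W w a) (ψ z))
    (hW' : ∀ a, DifferentiableAt ℝ (fun w => W' w a) z)
    (h : ∀ᶠ w in 𝓝 z, jm ψ w *ᵥ W' w = (jm ψ w).det ^ m • W (ψ w)) :
    dv W' z = (jm ψ z).det ^ m * dv W (ψ z) + (m - 1) * (W' z ⬝ᵥ lj ψ z) := by
  have hne : ∀ᶠ w in 𝓝 z, (jm ψ w).det ≠ 0 :=
    (hol_d (mCHN n ψ z hψ).2.2.2.2.1).continuousAt.eventually_ne h0
  obtain ⟨p1, p2⟩ := dz_zp hψ h0 (1 - m)
  have key := dv_one (W := W) (W' := fun w k => (jm ψ w).det ^ (1 - m) * W' w k) hψ h0 hW (by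
    filter_upwards [h, hne] with w hw hw0
    have e : (fun k => (jm ψ w).det ^ (1 - m) * W' w k) = (jm ψ w).det ^ (1 - m) • W' w := rfl
    rw [e, Matrix.mulVec_smul, hw, smul_smul, ← zpow_add₀ hw0, sub_add_cancel, zpow_one])
  have e1 : dv (fun w k => (jm ψ w).det ^ (1 - m) * W' w k) z =
      (jm ψ z).det ^ (1 - m) * ((1 - m) * (W' z ⬝ᵥ lj ψ z) + dv W' z) := by
    simp only [dv, dotProduct, Finset.mul_sum, ← Finset.sum_add_distrib]
    refine Finset.sum_congr rfl fun k _ => ?_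
    rw [dz_mul p1 (hW' k), p2 k]
    push_cast
    ring
  rw [e1, zpow_sub₀ h0, zpow_one] at key
  have hm : (jm ψ z).det ^ m ≠ 0 := zpow_ne_zero m h0
  field_simp at key
  linear_combination key

/-- The bracket under a change of variables. -/
theorem br_lev {ψ W W' V V' : E n → E n} {z : E n} {m l : ℤ} (hψ : HolN ψ z)
    (h0 : (jm ψ z).det ≠ 0) (hW : ∀ a, DifferentiableAt ℝ (fun w => W w a) (ψ z))
    (hW' : ∀ a, DifferentiableAt ℝ (fun w => W' w a) z)
    (hV : ∀ a, DifferentiableAt ℝ (fun w => V w a) (ψ z))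
    (hV' : ∀ a, DifferentiableAt ℝ (fun w => V' w a) z)
    (h : ∀ᶠ w in 𝓝 z, jm ψ w *ᵥ W' w = (jm ψ w).det ^ m • W (ψ w))
    (h' : ∀ᶠ w in 𝓝 z, jm ψ w *ᵥ V' w = (jm ψ w).det ^ l • V (ψ w)) :
    jm ψ z *ᵥ br W' V' z = ((jm ψ z).det ^ m * (jm ψ z).det ^ l) • br W V (ψ z) +
      (l * (jm ψ z).det ^ l * (W' z ⬝ᵥ lj ψ z)) • V (ψ z) -
      (m * (jm ψ z).det ^ m * (V' z ⬝ᵥ lj ψ z)) • W (ψ z) := by
  obtain ⟨s1, s2, cl, -, -, -, -, -, -, s10, -⟩ := mCHN n ψ z hψ
  have one : ∀ {A A' B B' : E n → E n} {p q : ℤ},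
      (∀ a, DifferentiableAt ℝ (fun w => B w a) (ψ z)) →
      (∀ a, DifferentiableAt ℝ (fun w => B' w a) z) →
      jm ψ z *ᵥ A' z = (jm ψ z).det ^ p • A (ψ z) →
      (∀ᶠ w in 𝓝 z, jm ψ w *ᵥ B' w = (jm ψ w).det ^ q • B (ψ w)) → ∀ i,
      ∑ b, jm ψ z i b * ∑ k, A' z k * dz k (fun y => B' y b) z =
        (jm ψ z).det ^ p * (jm ψ z).det ^ q * ∑ a, A (ψ z) a * dz a (fun y => B y i) (ψ z) +
        q * (jm ψ z).det ^ q * (A' z ⬝ᵥ lj ψ z) * B (ψ z) i -
        ∑ k, ∑ b, A' z k * B' z b * dM k (jm ψ) z i b := by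
    intro A A' B B' p q hB hB' hA hq i
    obtain ⟨p1, p2⟩ := dz_zp hψ h0 q
    have e1 : (fun w => ∑ b, jm ψ w i b * B' w b) =ᶠ[𝓝 z]
        fun w => (jm ψ w).det ^ q * ((fun y => B y i) ∘ ψ) w := by
      filter_upwards [hq] with w hw using congrFun hw i
    have e2 : ∀ k, ∑ b, (dM k (jm ψ) z i b * B' z b + jm ψ z i b * dz k (fun y => B' y b) z) =
        q * (jm ψ z).det ^ q * lj ψ z k * B (ψ z) i +
          (jm ψ z).det ^ q * ∑ a, dz a (fun y => B y i) (ψ z) * jm ψ z a k := fun k => by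
      have := dz_congr (j := k) e1
      rw [dz_sum fun b _ => (s2.diff i b).fun_mul (hB' b), dz_mul p1 ((hB i).comp z (cd_diff s1)),
        p2 k, (s10 _ (hB i) k).1] at this
      exact (Finset.sum_congr rfl fun b _ => (dz_mul (s2.diff i b) (hB' b)).symm).trans this
    have e3 : ∀ a, ∑ k, jm ψ z a k * A' z k = (jm ψ z).det ^ p * A (ψ z) a := fun a => congrFun hA a
    have e4 : ∑ k, A' z k * ∑ b, (dM k (jm ψ) z i b * B' z b +
        jm ψ z i b * dz k (fun y => B' y b) z) =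
        ∑ k, ∑ b, A' z k * B' z b * dM k (jm ψ) z i b +
          ∑ b, jm ψ z i b * ∑ k, A' z k * dz k (fun y => B' y b) z := by
      simp only [Finset.mul_sum]
      rw [Finset.sum_comm (f := fun b k => jm ψ z i b * (A' z k * dz k (fun y => B' y b) z)),
        ← Finset.sum_add_distrib]
      refine Finset.sum_congr rfl fun k _ => ?_
      rw [← Finset.sum_add_distrib]
      exact Finset.sum_congr rfl fun b _ => by ring
    have e5 : ∑ k, A' z k * (q * (jm ψ z).det ^ q * lj ψ z k * B (ψ z) i +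
          (jm ψ z).det ^ q * ∑ a, dz a (fun y => B y i) (ψ z) * jm ψ z a k) =
        q * (jm ψ z).det ^ q * (A' z ⬝ᵥ lj ψ z) * B (ψ z) i + (jm ψ z).det ^ q *
          ∑ a, dz a (fun y => B y i) (ψ z) * ∑ k, jm ψ z a k * A' z k := by
      simp only [mul_add, Finset.sum_add_distrib, dotProduct, Finset.mul_sum, Finset.sum_mul]
      rw [Finset.sum_comm (f := fun a k =>
        (jm ψ z).det ^ q * (dz a (fun y => B y i) (ψ z) * (jm ψ z a k * A' z k)))]
      exact congrArg₂ _ (Finset.sum_congr rfl fun k _ => by ring)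
        (Finset.sum_congr rfl fun k _ => Finset.sum_congr rfl fun a _ => by ring)
    simp only [e2] at e4
    rw [e5] at e4
    simp only [e3] at e4
    have e6 : ∑ a, dz a (fun y => B y i) (ψ z) * ((jm ψ z).det ^ p * A (ψ z) a) =
        (jm ψ z).det ^ p * ∑ a, A (ψ z) a * dz a (fun y => B y i) (ψ z) := by
      rw [Finset.mul_sum]
      exact Finset.sum_congr rfl fun a _ => by ring
    rw [e6] at e4
    linear_combination -e4
  funext i
  have a1 := one hV hV' h.self_of_nhds h' i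
  have a2 := one hW hW' h'.self_of_nhds h i
  have a3 : ∑ k, ∑ b, V' z k * W' z b * dM k (jm ψ) z i b =
      ∑ k, ∑ b, W' z k * V' z b * dM k (jm ψ) z i b := by
    rw [Finset.sum_comm]
    exact Finset.sum_congr rfl fun k _ => Finset.sum_congr rfl fun b _ => by rw [cl i k b]; ring
  rw [a3] at a2
  simp only [Matrix.mulVec, dotProduct, br, Finset.sum_sub_distrib, mul_sub, Pi.add_apply,
    Pi.sub_apply, Pi.smul_apply, smul_eq_mul] at a1 a2 ⊢
  linear_combination a1 - a2

theorem vm_wg (W u v : E n) : W ᵥ* wg u v = (W ⬝ᵥ u) • v - (W ⬝ᵥ v) • u := by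
  funext j
  simp only [Matrix.vecMul, dotProduct, wg, Matrix.of_apply, Pi.sub_apply, Pi.smul_apply,
    smul_eq_mul, Finset.sum_mul, ← Finset.sum_sub_distrib]
  exact Finset.sum_congr rfl fun i _ => by ring

theorem nb_dot (c : ℂ) {W α : E n → E n} {z : E n} (h : α z ⬝ᵥ W z = 0) :
    nb c W α z ⬝ᵥ W z = 0 := by
  have s : (d1 α z)ᵀ = -d1 α z := by
    ext i j
    simp only [d1, Matrix.transpose_apply, Matrix.of_apply, Matrix.neg_apply, neg_sub]
  rw [nb, sub_dotProduct, smul_dotProduct, h, smul_zero, sub_zero]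
  exact ((st_PT2.2 n _ 0 (W z) (W z)).2.2.2.2.2.2 s).2.1

/-- The derivative of a vanishing product. -/
theorem dz_dot {u v : E n → E n} {z : E n} (hu : ∀ i, HolN (fun w => u w i) z)
    (hv : ∀ i, HolN (fun w => v w i) z) (h : ∀ᶠ w in 𝓝 z, u w ⬝ᵥ v w = 0) (j : Fin n) :
    ∑ k, dz j (fun w => u w k) z * v z k = -∑ k, u z k * dz j (fun w => v w k) z := by
  have e : (fun w => ∑ k, u w k * v w k) =ᶠ[𝓝 z] fun _ => 0 := h
  have := dz_congr (j := j) e
  rw [dz_sum fun k _ => (hol_d (hu k)).fun_mul (hol_d (hv k)), dz_const,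
    Finset.sum_congr rfl fun k _ => dz_mul (hol_d (hu k)) (hol_d (hv k)),
    Finset.sum_add_distrib] at this
  linear_combination this

/-- The connection on a contraction. -/
theorem nb_vm (c : ℂ) {W V : E n → E n} {S : E n → Mat n} {z : E n}
    (hW : ∀ i, HolN (fun w => W w i) z) (hV : ∀ i, HolN (fun w => V w i) z)
    (hS : ∀ i j, HolN (fun w => S w i j) z) (ha : ∀ᶠ w in 𝓝 z, (S w)ᵀ = -S w)
    (h0 : ∀ᶠ w in 𝓝 z, W w ᵥ* S w = 0) :
    nb c W (fun w => V w ᵥ* S w) z = yv c W V z ᵥ* S z + V z ᵥ* iw W S z := by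
  have sk : ∀ i j, (fun w => S w j i) =ᶠ[𝓝 z] fun w => -S w i j := fun i j =>
    ha.mono fun w hw => congrFun (congrFun hw i) j
  have s0 : ∀ i j, S z j i = -S z i j := fun i j => (sk i j).self_of_nhds
  have s1 : ∀ k i j, dz k (fun w => S w j i) z = -dz k (fun w => S w i j) z := fun k i j => by
    rw [dz_congr (sk i j), dz_neg]
  have e1 : ∀ k j, dz k (fun w => (V w ᵥ* S w) j) z =
      ∑ i, (dz k (fun w => V w i) z * S z i j + V z i * dz k (fun w => S w i j) z) := fun k j => by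
    show dz k (fun w => ∑ i, V w i * S w i j) z = _
    rw [dz_sum fun i _ => (hol_d (hV i)).fun_mul (hol_d (hS i j))]
    exact Finset.sum_congr rfl fun i _ => dz_mul (hol_d (hV i)) (hol_d (hS i j))
  have e2 : ∀ i, ∑ k, W z k * S z k i = 0 := fun i => congrFun h0.self_of_nhds i
  have e3 : ∀ i j, ∑ k, dz i (fun w => W w k) z * S z k j =
      -∑ k, W z k * dz i (fun w => S w k j) z := fun i j =>
    dz_dot (v := fun w k => S w k j) hW (fun k => hS k j) (h0.mono fun w hw => congrFun hw j) i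
  funext j
  have a1 : (W z ᵥ* d1 (fun w => V w ᵥ* S w) z) j =
      ∑ i, (∑ k, W z k * dz k (fun w => V w i) z) * S z i j +
      ∑ i, V z i * ∑ k, W z k * (dz k (fun w => S w i j) z + dz j (fun w => S w k i) z) +
      ∑ i, dz j (fun w => V w i) z * ∑ k, W z k * S z k i := by
    show ∑ k, W z k * (dz k (fun w => (V w ᵥ* S w) j) z - dz j (fun w => (V w ᵥ* S w) k) z) = _
    simp only [e1, Finset.mul_sum, Finset.sum_mul, ← Finset.sum_sub_distrib,
      ← Finset.sum_add_distrib]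
    rw [Finset.sum_comm]
    refine Finset.sum_congr rfl fun i _ => Finset.sum_congr rfl fun k _ => ?_
    rw [s0 k i, s1 j k i]
    ring
  have a2 : (br W V z ᵥ* S z) j = ∑ i, (∑ k, W z k * dz k (fun w => V w i) z) * S z i j -
      ∑ i, V z i * ∑ k, dz i (fun w => W w k) z * S z k j := by
    show ∑ i, br W V z i * S z i j = _
    simp only [br, Finset.sum_sub_distrib, sub_mul, Finset.mul_sum, Finset.sum_mul]
    rw [Finset.sum_comm (f := fun i k => V z i * (dz i (fun w => W w k) z * S z k j))]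
    exact congrArg₂ _ rfl
      (Finset.sum_congr rfl fun i _ => Finset.sum_congr rfl fun k _ => by ring)
  have a3 : (V z ᵥ* iw W S z) j =
      ∑ i, V z i * ∑ k, W z k * (dz k (fun w => S w i j) z + dz j (fun w => S w k i) z) -
      ∑ i, V z i * ∑ k, W z k * dz i (fun w => S w k j) z := by
    show ∑ i, V z i * iw W S z i j = _
    simp only [iw, Matrix.of_apply, Finset.mul_sum, ← Finset.sum_sub_distrib]
    refine Finset.sum_congr rfl fun i _ => Finset.sum_congr rfl fun k _ => ?_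
    rw [s1 i k j]
    ring
  simp only [e2, mul_zero, Finset.sum_const_zero, add_zero] at a1
  simp only [e3, mul_neg, Finset.sum_neg_distrib] at a2
  rw [nb, yv, Matrix.sub_vecMul, Matrix.smul_vecMul, Pi.sub_apply, Pi.add_apply, Pi.sub_apply,
    a1, a2, a3]
  ring

/-- In dimension four the derivative of the form is given by the divergence of the bivector. -/
theorem iw_st (W : E 4 → E 4) (P : E 4 → Mat 4) {z : E 4} (ha : ∀ᶠ w in 𝓝 z, (P w)ᵀ = -P w) :
    iw W (fun w => st (P w)) z = st (wg (W z) (dvM P z)) := by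
  have s1 : ∀ k i j, dz k (fun w => P w j i) z = -dz k (fun w => P w i j) z := fun k i j => by
    have sk : (fun w => P w j i) =ᶠ[𝓝 z] fun w => -P w i j :=
      ha.mono fun w hw => congrFun (congrFun hw i) j
    rw [dz_congr sk, dz_neg]
  have s2 : ∀ k i, dz k (fun w => P w i i) z = 0 := fun k i => by
    linear_combination s1 k i i / 2
  ext i j
  fin_cases i <;> fin_cases j <;>
    simp [iw, st, wg, dvM, Fin.sum_univ_four, dz_neg, s2, s1 _ 0 1, s1 _ 0 2, s1 _ 0 3, s1 _ 1 2,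
      s1 _ 1 3, s1 _ 2 3] <;> ring

/-- The derivative of a vanishing exterior product. -/
theorem wg_nb (c c' : ℂ) {W r s : E n → E n} {z : E n} (hW : ∀ i, HolN (fun w => W w i) z)
    (hr : ∀ i, HolN (fun w => r w i) z) (hs : ∀ i, HolN (fun w => s w i) z)
    (r0 : ∀ᶠ w in 𝓝 z, r w ⬝ᵥ W w = 0) (s0 : ∀ᶠ w in 𝓝 z, s w ⬝ᵥ W w = 0)
    (h : ∀ᶠ w in 𝓝 z, wg (r w) (s w) = 0) :
    wg (nb c W r z) (s z) + wg (r z) (nb c' W s z) = 0 := by
  have L : ∀ {u : E n → E n}, (∀ i, HolN (fun w => u w i) z) → (∀ᶠ w in 𝓝 z, u w ⬝ᵥ W w = 0) →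
      ∀ j, (W z ᵥ* d1 u z) j = ∑ k, W z k * dz k (fun w => u w j) z +
        ∑ k, u z k * dz j (fun w => W w k) z := fun {u} hu u0 j => by
    show ∑ k, W z k * (dz k (fun w => u w j) z - dz j (fun w => u w k) z) = _
    have := dz_dot hu hW u0 j
    simp only [mul_sub, Finset.sum_sub_distrib]
    rw [Finset.sum_congr rfl fun k _ => mul_comm (W z k) (dz j (fun w => u w k) z), this]
    ring
  have p0 : ∀ i j, r z i * s z j - s z i * r z j = 0 := fun i j =>
    congrFun (congrFun h.self_of_nhds i) j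
  have p1 : ∀ k i j, dz k (fun w => r w i) z * s z j + r z i * dz k (fun w => s w j) z -
      (dz k (fun w => s w i) z * r z j + s z i * dz k (fun w => r w j) z) = 0 := fun k i j => by
    have e : (fun w => r w i * s w j - s w i * r w j) =ᶠ[𝓝 z] fun _ => 0 :=
      h.mono fun w hw => congrFun (congrFun hw i) j
    have := dz_congr (j := k) e
    rwa [dz_sub ((hol_d (hr i)).fun_mul (hol_d (hs j))) ((hol_d (hs i)).fun_mul (hol_d (hr j))),
      dz_mul (hol_d (hr i)) (hol_d (hs j)), dz_mul (hol_d (hs i)) (hol_d (hr j)), dz_const] at this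
  ext i j
  have q1 : ∑ k, W z k * (dz k (fun w => r w i) z * s z j + r z i * dz k (fun w => s w j) z -
      (dz k (fun w => s w i) z * r z j + s z i * dz k (fun w => r w j) z)) = 0 :=
    Finset.sum_eq_zero fun k _ => by rw [p1, mul_zero]
  have q2 : ∑ k, (r z k * s z j - s z k * r z j) * dz i (fun w => W w k) z = 0 :=
    Finset.sum_eq_zero fun k _ => by rw [p0, zero_mul]
  have q3 : ∑ k, (r z i * s z k - s z i * r z k) * dz j (fun w => W w k) z = 0 :=
    Finset.sum_eq_zero fun k _ => by rw [p0, zero_mul]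
  simp only [wg, nb, Matrix.add_apply, Matrix.of_apply, Pi.sub_apply, Pi.smul_apply, smul_eq_mul,
    L hr r0, L hs s0, Matrix.zero_apply]
  simp only [mul_sub, mul_add, sub_mul, Finset.sum_sub_distrib, Finset.sum_add_distrib, mul_assoc,
    ← Finset.mul_sum] at q1 q2 q3
  simp only [← mul_assoc, ← Finset.sum_mul] at q1
  have t1 : ∀ (u : E n) (b : ℂ) (d : Fin n → ℂ), ∑ k, u k * (b * d k) = b * ∑ k, u k * d k :=
    fun u b d => by
      rw [Finset.mul_sum]
      exact Finset.sum_congr rfl fun k _ => by ring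
  simp only [mul_assoc, t1] at q1 q2
  linear_combination q1 + q2 + q3 - (c + c') * dv W z * p0 i j

theorem wg_tr {a u v : E n} (ha : a ≠ 0) (h : wg a u = 0) (h' : wg a v = 0) : wg u v = 0 := by
  obtain ⟨k, hk⟩ := Function.ne_iff.1 ha
  ext i j
  have a1 := congrFun (congrFun h k) i
  have a2 := congrFun (congrFun h k) j
  have a3 := congrFun (congrFun h' k) i
  have a4 := congrFun (congrFun h' k) j
  have a5 := congrFun (congrFun h i) j
  simp only [wg, Matrix.of_apply, Matrix.zero_apply] at a1 a2 a3 a4 a5 ⊢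
  refine mul_left_cancel₀ hk ?_
  linear_combination u i * a4 - u j * a3 - v k * a5

theorem nb_zero (c : ℂ) {W r : E n → E n} {z : E n} (h : ∀ᶠ w in 𝓝 z, r w = 0) :
    nb c W r z = 0 := by
  have e : ∀ k j, dz k (fun w => r w j) z = 0 := fun k j => by
    rw [dz_congr (g := fun _ => 0) (h.mono fun w hw => congrFun hw j), dz_const]
  funext j
  show ∑ k, W z k * (dz k (fun w => r w j) z - dz j (fun w => r w k) z) - c * dv W z * r z j = 0
  simp only [e, h.self_of_nhds, Pi.zero_apply, sub_self, mul_zero, Finset.sum_const_zero]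

/-- The proportionality propagates. -/
theorem wg_step (c c' : ℂ) {W r : E n → E n} {U : Set (E n)} (hU : IsOpen U)
    (hW : ∀ z ∈ U, ∀ i, HolN (fun w => W w i) z) (hr : ∀ z ∈ U, ∀ i, HolN (fun w => r w i) z)
    (r0 : ∀ z ∈ U, r z ⬝ᵥ W z = 0) (h : ∀ z ∈ U, wg (r z) (nb c W r z) = 0) :
    ∀ z ∈ U, wg (nb c W r z) (nb c' W (nb c W r) z) = 0 := by
  have hs : ∀ z ∈ U, ∀ i, HolN (fun w => nb c W r w i) z :=
    fun z hz => hol_nb c (hW z hz) (hr z hz)
  have k1 : ∀ z ∈ U, r z ≠ 0 → wg (nb c W r z) (nb c' W (nb c W r) z) = 0 := fun z hz h0 => by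
    have m := hU.mem_nhds hz
    have := wg_nb c c' (hW z hz) (hr z hz) (hs z hz) (mem_of_superset m r0)
      (mem_of_superset m fun w hw => nb_dot c (r0 w hw)) (mem_of_superset m h)
    rw [(st_PT2.2 n 0 0 _ (r z)).2.2.1, zero_add] at this
    exact wg_tr h0 (h z hz) this
  intro z hz
  by_cases q : ∀ᶠ w in 𝓝 z, r w = 0
  · rw [nb_zero c q]
    ext i j
    simp [wg]
  · ext i j
    have ht := hol_nb c' (hW z hz) (hs z hz)
    have ct : ContinuousAt (fun w => wg (nb c W r w) (nb c' W (nb c W r) w) i j) z :=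
      (hol_d (hol_sub (hol_mul (hs z hz i) (ht j)) (hol_mul (ht i) (hs z hz j)))).continuousAt
    by_contra ne
    refine q ?_
    filter_upwards [ct.eventually_ne ne, hU.mem_nhds hz] with w h1 h2
    by_contra h3
    exact h1 (by rw [k1 w h2 h3, Matrix.zero_apply])

/-- The corrected brackets of two proportional fields. -/
theorem yv_prop (c c' : ℂ) {W W' V : E n → E n} {z : E n} (hW : ∀ i, HolN (fun w => W w i) z)
    (hW' : ∀ i, HolN (fun w => W' w i) z) (h : ∀ᶠ w in 𝓝 z, wg (W w) (W' w) = 0)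
    (hd : (c' * dv W' z) • W z = (c * dv W z) • W' z) (i : Fin n) :
    W z i • wg (W z) (yv c' W' V z) = W' z i • wg (W z) (yv c W V z) := by
  have p0 : ∀ i j, W z i * W' z j - W' z i * W z j = 0 := fun i j =>
    congrFun (congrFun h.self_of_nhds i) j
  have p1 : ∀ k i j, dz k (fun w => W w i) z * W' z j + W z i * dz k (fun w => W' w j) z -
      (dz k (fun w => W' w i) z * W z j + W' z i * dz k (fun w => W w j) z) = 0 := fun k i j => by
    have e : (fun w => W w i * W' w j - W' w i * W w j) =ᶠ[𝓝 z] fun _ => 0 :=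
      h.mono fun w hw => congrFun (congrFun hw i) j
    have := dz_congr (j := k) e
    rwa [dz_sub ((hol_d (hW i)).fun_mul (hol_d (hW' j))) ((hol_d (hW' i)).fun_mul (hol_d (hW j))),
      dz_mul (hol_d (hW i)) (hol_d (hW' j)), dz_mul (hol_d (hW' i)) (hol_d (hW j)),
      dz_const] at this
  have hi : c' * dv W' z * W z i = c * dv W z * W' z i := congrFun hd i
  have D : ∀ k, W z i * yv c' W' V z k - W' z i * yv c W V z k =
      (∑ a, V z a * dz a (fun w => W w i) z) * W' z k -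
        W z k * ∑ a, V z a * dz a (fun w => W' w i) z := fun k => by
    have e : W z i * br W' V z k - W' z i * br W V z k =
        (∑ a, V z a * dz a (fun w => W w i) z) * W' z k -
          W z k * ∑ a, V z a * dz a (fun w => W' w i) z := by
      simp only [br, Finset.mul_sum, Finset.sum_mul, ← Finset.sum_sub_distrib]
      refine Finset.sum_congr rfl fun a _ => ?_
      linear_combination dz a (fun y => V y k) z * p0 i a - V z a * p1 a i k
    simp only [yv, Pi.sub_apply, Pi.smul_apply, smul_eq_mul]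
    linear_combination e - V z k * hi
  ext j k
  simp only [wg, Matrix.smul_apply, Matrix.of_apply, smul_eq_mul]
  linear_combination W z j * D k - W z k * D j +
    (∑ a, V z a * dz a (fun w => W w i) z) * p0 j k

section mf

variable {M : Mf n}

theorem ht_ev {m : ℤ} {W : M.Fam (E n)} (hW : HT M m W) : M.Ov fun e e' x =>
    ∀ᶠ w in 𝓝 (e' x), jm (e ∘ e'.symm) w *ᵥ W e' w =
      (jm (e ∘ e'.symm) w).det ^ m • W e ((e ∘ e'.symm) w) := fun e he e' he' x hx hx' => by
  obtain ⟨-, -, -, h4, -⟩ := (mTR n M).2.1 e he e' he' x hx hx'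
  filter_upwards [h4] with w ⟨_, a2, a3, _, _, a6, a7⟩
  have := hW.cmp e he e' he' _ a2 a3
  simp only [jd, a6, a7] at this
  exact this

/-- The law of the divergence. -/
theorem dv_law {m : ℤ} {W : M.Fam (E n)} (hW : HT M m W) : M.Ov fun e e' x =>
    dv (W e') (e' x) = jd M e e' x ^ m * dv (W e) (e x) +
      (m - 1) * (W e' (e' x) ⬝ᵥ lj (e ∘ e'.symm) (e' x)) := fun e he e' he' x hx hx' => by
  obtain ⟨h1, h2, -⟩ := (mTR n M).2.1 e he e' he' x hx hx'
  have hex : (e ∘ e'.symm) (e' x) = e x := by simp [e'.left_inv hx']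
  have key := dv_lev (W := W e) (W' := W e') h1 h2
    (fun a => by rw [hex]; exact hol_d (hW.hol e he _ (e.map_source hx) a))
    (fun a => hol_d (hW.hol e' he' _ (e'.map_source hx') a)) (ht_ev hW e he e' he' x hx hx')
  rw [hex] at key
  exact key

/-- The law of the corrected bracket. -/
theorem yv_law {m l : ℤ} {c : ℂ} {W V : M.Fam (E n)} (hW : HT M m W) (hV : HT M l V)
    (hc : c * (m - 1) = l) : M.Ov fun e e' x =>
    M.J e e' x *ᵥ yv c (W e') (V e') (e' x) = jd M e e' x ^ (m + l) • yv c (W e) (V e) (e x) -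
      (m * jd M e e' x ^ m * (V e' (e' x) ⬝ᵥ lj (e ∘ e'.symm) (e' x))) • W e (e x) :=
  fun e he e' he' x hx hx' => by
  obtain ⟨h1, h2, -⟩ := (mTR n M).2.1 e he e' he' x hx hx'
  have hex : (e ∘ e'.symm) (e' x) = e x := by simp [e'.left_inv hx']
  have key := br_lev (W := W e) (W' := W e') (V := V e) (V' := V e') h1 h2
    (fun a => by rw [hex]; exact hol_d (hW.hol e he _ (e.map_source hx) a))
    (fun a => hol_d (hW.hol e' he' _ (e'.map_source hx') a))
    (fun a => by rw [hex]; exact hol_d (hV.hol e he _ (e.map_source hx) a))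
    (fun a => hol_d (hV.hol e' he' _ (e'.map_source hx') a))
    (ht_ev hW e he e' he' x hx hx') (ht_ev hV e he e' he' x hx hx')
  rw [hex] at key
  have k2 : M.J e e' x *ᵥ br (W e') (V e') (e' x) = _ := key
  rw [yv, yv, Matrix.mulVec_sub, Matrix.mulVec_smul, k2, hV.cmp e he e' he' x hx hx',
    dv_law hW e he e' he' x hx hx', zpow_add₀ h2, ← hc]
  funext i
  simp only [Pi.add_apply, Pi.sub_apply, Pi.smul_apply, smul_eq_mul, jd, Mf.J]
  ring

/-- The product with the corrected bracket is a tensor. -/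
theorem hb_yv {a m l : ℤ} {c : ℂ} {U W V : M.Fam (E n)} (hU : HT M a U) (hW : HT M m W)
    (hV : HT M l V) (hc : c * (m - 1) = l) (h0 : Zr M fun e z => wg (U e z) (W e z)) :
    HB M (a + (m + l)) fun e z => wg (U e z) (yv c (W e) (V e) z) := by
  refine ⟨fun e he z hz i j => ?_, fun e he z hz => (st_PT2.2 n 0 0 _ _).1,
    fun e he e' he' x hx hx' => ?_⟩
  · exact hol_sub
      (hol_mul (hU.hol e he z hz i) (hol_yv c (hW.hol e he z hz) (hV.hol e he z hz) j))
      (hol_mul (hol_yv c (hW.hol e he z hz) (hV.hol e he z hz) i) (hU.hol e he z hz j))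
  · have h2 := ((mTR n M).2.1 e he e' he' x hx hx').2.1
    have z0 := h0 e he _ (e.map_source hx)
    beta_reduce at z0 ⊢
    rw [(st_PT2.2 n 0 (M.J e e' x) _ _).2.2.2.2.1, hU.cmp e he e' he' x hx hx',
      yv_law hW hV hc e he e' he' x hx hx', zpow_add₀ h2 a]
    ext i j
    have z1 := congrFun (congrFun z0 i) j
    simp only [wg, Matrix.of_apply, Matrix.zero_apply, Matrix.smul_apply, Pi.sub_apply,
      Pi.smul_apply, smul_eq_mul] at z1 ⊢
    linear_combination (-(jd M e e' x ^ a * (m * jd M e e' x ^ m *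
      (V e' (e' x) ⬝ᵥ lj (e ∘ e'.symm) (e' x))))) * z1

/-- The connection is a tensor. -/
theorem h1_nb {a m : ℤ} {c : ℂ} {W α : M.Fam (E n)} (hW : HT M m W) (hα : H1 M a α)
    (hc : c * (m - 1) = a) (h0 : M.All fun e z => α e z ⬝ᵥ W e z = 0) :
    H1 M (a + m) (fun e => nb c (W e) (α e)) ∧
      M.All fun e z => nb c (W e) (α e) z ⬝ᵥ W e z = 0 := by
  refine ⟨⟨fun e he z hz => hol_nb c (hW.hol e he z hz) (hα.hol e he z hz),
    fun e he e' he' x hx hx' => ?_⟩, fun e he z hz => nb_dot c (h0 e he z hz)⟩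
  have h2 := ((mTR n M).2.1 e he e' he' x hx hx').2.1
  have z0 : W e' (e' x) ⬝ᵥ α e' (e' x) = 0 := by
    rw [dotProduct_comm]
    exact h0 e' he' _ (e'.map_source hx')
  have e1 : (fun k => a * dz k (fun w => (jm (e ∘ e'.symm) w).det) (e' x) / jd M e e' x) =
      (a : ℂ) • lj (e ∘ e'.symm) (e' x) := funext fun k => mul_div_assoc _ _ _
  beta_reduce
  rw [nb, nb, (st_D1 n M a α hα).2.2 e he e' he' x hx hx', e1, Matrix.vecMul_add, vm_wg, z0,
    zero_smul, sub_zero, Matrix.vecMul_smul, ← Matrix.vecMul_vecMul, ← Matrix.vecMul_vecMul,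
    Matrix.vecMul_transpose, hW.cmp e he e' he' x hx hx', dv_law hW e he e' he' x hx hx',
    dotProduct_smul, hα.cmp e he e' he' x hx hx', Matrix.sub_vecMul, Matrix.smul_vecMul,
    Matrix.smul_vecMul, Matrix.smul_vecMul, zpow_add₀ h2, ← hc]
  funext i
  simp only [Pi.add_apply, Pi.sub_apply, Pi.smul_apply, smul_eq_mul]
  ring

/-- The chain ends. -/
theorem chain {m : ℤ} {W : M.Fam (E n)} (hW : HT M m W) (hm : 2 ≤ m)
    (hN : ∃ N : ℤ, ∀ b, N ≤ b → ∀ ρ, H1 M b ρ → Zr M ρ) {a : ℤ} {α : M.Fam (E n)}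
    (hα : H1 M a α) (h0 : M.All fun e z => α e z ⬝ᵥ W e z = 0)
    (h1 : Zr M fun e z => wg (α e z) (nb (a / (m - 1)) (W e) (α e) z))
    (h2 : ¬Zr M fun e => nb (a / (m - 1)) (W e) (α e)) :
    ∃ (b : ℤ) (r0 r1 : M.Fam (E n)), a ≤ b ∧ H1 M b r0 ∧ H1 M (b + m) r1 ∧
      (M.All fun e z => r0 e z ⬝ᵥ W e z = 0) ∧ (M.All fun e z => r1 e z ⬝ᵥ W e z = 0) ∧
      (Zr M fun e z => wg (r0 e z) (r1 e z)) ∧ (∀ e, r1 e = nb (b / (m - 1)) (W e) (r0 e)) ∧
      (Zr M fun e => nb ((b + m : ℤ) / (m - 1)) (W e) (r1 e)) ∧ ¬Zr M r1 := by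
  obtain ⟨N, hN⟩ := hN
  have m1 : (m : ℂ) - 1 ≠ 0 := by
    have : ((m - 1 : ℤ) : ℂ) ≠ 0 := Int.cast_ne_zero.2 (by omega)
    simpa using this
  obtain ⟨k, hk⟩ : ∃ k : ℕ, N ≤ a + k := ⟨(N - a).toNat, by omega⟩
  induction k generalizing a α with
  | zero =>
    exact (h2 (hN _ (by omega) _ (h1_nb hW hα (div_mul_cancel₀ _ m1) h0).1)).elim
  | succ k ih =>
    obtain ⟨t1, t2⟩ := h1_nb hW hα (div_mul_cancel₀ _ m1) h0
    by_cases q : Zr M fun e => nb ((a + m : ℤ) / (m - 1)) (W e) (nb (a / (m - 1)) (W e) (α e))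
    · exact ⟨a, α, _, le_rfl, hα, t1, h0, t2, h1, fun _ => rfl, q, h2⟩
    · obtain ⟨b, r0, r1, hb, r⟩ := ih t1 t2 (fun e he => wg_step _ _ e.open_target (hW.hol e he)
        (hα.hol e he) (h0 e he) (h1 e he)) q (by push_cast at hk ⊢; omega)
      exact ⟨b, r0, r1, by omega, r⟩

end mf

/-- The first step: the form `i_V τ`, its derivative, and the proportionality. -/
theorem first {M : Mf 4} {P : M.Fam (Mat 4)} {W V : M.Fam (E 4)} (hP : HB M 2 P) (hW : HT M 2 W)
    (hV : HT M 1 V) (hk : Zr M fun e z => W e z ᵥ* st (P e z))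
    (hd : M.All fun e z => wg (W e z) (dvM (P e) z) = dv (W e) z • P e z) :
    H1 M 2 (fun e z => V e z ᵥ* st (P e z)) ∧
    (M.All fun e z => V e z ᵥ* st (P e z) ⬝ᵥ W e z = 0) ∧
    (M.All fun e z => nb 2 (W e) (fun w => V e w ᵥ* st (P e w)) z =
      yv 1 (W e) (V e) z ᵥ* st (P e z)) ∧
    ((∀ s, H0 M 5 s → Zr M s) → (M.All fun e z => pf (st (P e z)) = 0) → Zr M fun e z =>
      wg (V e z ᵥ* st (P e z)) (nb 2 (W e) (fun w => V e w ᵥ* st (P e w)) z)) := by
  have hS : H2 M 1 fun e z => st (P e z) := (st_OS st_PT1 M 1 P).2 hP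
  have hα : H1 M 2 fun e z => V e z ᵥ* st (P e z) := (st_OP 4 M 1 1 V V V _).2.1 hS hV
  have sk := fun (S : Mat 4) u v => (st_PT2.2 4 (st S) 0 u v).2.2.2.2.2.2 (st_PT1 S).1
  have h0 : M.All fun e z => V e z ᵥ* st (P e z) ⬝ᵥ W e z = 0 := fun e he z hz => by
    have := hk e he z hz
    beta_reduce at this ⊢
    rw [(sk _ _ _).1, this, zero_dotProduct, neg_zero]
  have h1 : M.All fun e z => nb 2 (W e) (fun w => V e w ᵥ* st (P e w)) z =
      yv 1 (W e) (V e) z ᵥ* st (P e z) := fun e he z hz => by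
    have m := e.open_target.mem_nhds hz
    beta_reduce
    rw [nb_vm 2 (hW.hol e he z hz) (hV.hol e he z hz) (hS.hol e he z hz)
      (mem_of_superset m (hS.alt e he)) (mem_of_superset m (hk e he)),
      iw_st _ _ (mem_of_superset m (hP.alt e he)), hd e he z hz, ((st_PT1 _).2.1 _).1,
      Matrix.vecMul_smul, ← Matrix.smul_vecMul, ← Matrix.add_vecMul, yv, yv]
    refine congrArg (· ᵥ* st (P e z)) (funext fun i => ?_)
    simp only [Pi.add_apply, Pi.sub_apply, Pi.smul_apply, smul_eq_mul]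
    ring
  refine ⟨hα, h0, h1, fun z5 hp e he z hz => ?_⟩
  have t := (h1_nb (c := 2) hW hα (by norm_num) h0).1
  have t5 := z5 _ ((st_OP 4 M (2 + 2) 1 _ V V P).1 t hV) e he z hz
  beta_reduce at t5 ⊢
  rw [h1 e he z hz] at t5 ⊢
  rw [(st_PT2.1 _ _ _ (st_PT1 _).1).1 (hp e he z hz), (sk _ _ _).1, t5, neg_zero, zero_smul]

end Pool.Agent.Lib.NU4.N87
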