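import Pool.Agent.Lib.HLK.B_NEAR

/-! Project nu4: almost minimal representatives, with the sign of the pairing. -/

noncomputable section

namespace Pool.Agent.Lib.NU4.Near16

open Pool.Agent.Lib.HLK.NEAR

/-- The statement of `St_NEAR`, with two more clauses. -/
theorem near2 (C : Type) [SeminormedAddCommGroup C] [InnerProductSpace ℂ C] (P Q : C →ₗ[ℂ] C)
    (hA : ∀ a b, inner ℂ (Q a) b = -inner ℂ a (P b)) (hO : ∀ a b, inner ℂ (Q a) (P b) = 0)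
    (hD : ∀ (t d : ℝ) (f : C), 0 < d → ∃ s, ‖s + (t : ℂ) • (Q s + P s) - f‖ ≤ d)
    (t d : ℝ) (f : C) (ht : 0 < t) (hd : 0 < d) :
    ∃ w y r : C, w + (t : ℂ) • (Q y + P y) = f + r ∧ ‖r‖ ≤ d ∧
      ‖w‖ ≤ ‖f‖ + d ∧ ‖y‖ ≤ ‖f‖ + d ∧ t * ‖Q w + P w‖ ≤ ‖f‖ + d ∧
      (t * ‖P y‖) ^ 2 ≤ 2 * t * ‖Q f‖ * (‖f‖ + d) + 2 * d ^ 2 ∧
      ‖y + (t : ℂ) • (Q w + P w)‖ ≤ d ∧
      ‖w‖ ^ 2 - 2 * d * (‖f‖ + d) ≤ (inner ℂ f w).re := by
  have sk : ∀ a : C, (inner ℂ a (Q a + P a)).re = 0 := fun a => by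
    rw [inner_add_right, Complex.add_re, re_symm a (Q a), hA, Complex.neg_re]
    ring
  have sk2 : ∀ a b : C, (inner ℂ (Q a + P a) b).re = -(inner ℂ a (Q b + P b)).re := fun a b => by
    rw [inner_add_left, inner_add_right, Complex.add_re, Complex.add_re, hA, re_symm a (Q b), hA,
      re_symm (P a) b, Complex.neg_re, Complex.neg_re]
    ring
  obtain ⟨u, hu⟩ := hD t d f hd
  obtain ⟨v, hv⟩ := hD (-t) d f hd
  obtain ⟨u1, u2⟩ := both _ _ _ _ _ (sk u) hu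
  obtain ⟨v1, v2⟩ := both _ _ _ _ _ (sk v) hv
  rw [abs_of_pos ht] at u2
  rw [abs_neg, abs_of_pos ht] at v2
  obtain ⟨r1, r2⟩ := half _ _ _ hu hv
  obtain ⟨w1, y1⟩ := half _ _ _ u1 v1
  have nt : ∀ a : C, ‖(t : ℂ) • a‖ = t * ‖a‖ := fun a => by
    rw [norm_smul, Complex.norm_real, Real.norm_eq_abs, abs_of_pos ht]
  obtain ⟨w2, -⟩ := half _ _ _ ((nt _).trans_le u2) ((nt _).trans_le v2)
  generalize hr : (2⁻¹ : ℂ) • (u + (t : ℂ) • (Q u + P u) - f +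
    (v + ((-t : ℝ) : ℂ) • (Q v + P v) - f)) = r at r1
  generalize hs : (2⁻¹ : ℂ) • (u + (t : ℂ) • (Q u + P u) - f -
    (v + ((-t : ℝ) : ℂ) • (Q v + P v) - f)) = s at r2
  have e1 : (2⁻¹ : ℂ) • (u + v) + (t : ℂ) • (Q ((2⁻¹ : ℂ) • (u - v)) + P ((2⁻¹ : ℂ) • (u - v))) =
      f + r := by
    rw [← hr]
    simp only [map_smul, map_sub, Complex.ofReal_neg]
    module
  have e2 : (2⁻¹ : ℂ) • (u - v) + (t : ℂ) • (Q ((2⁻¹ : ℂ) • (u + v)) + P ((2⁻¹ : ℂ) • (u + v))) =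
      s := by
    rw [← hs]
    simp only [map_smul, map_add, Complex.ofReal_neg]
    module
  have e3 : (t : ℂ) • (Q ((2⁻¹ : ℂ) • (u + v)) + P ((2⁻¹ : ℂ) • (u + v))) =
      (2⁻¹ : ℂ) • ((t : ℂ) • (Q u + P u) + (t : ℂ) • (Q v + P v)) := by
    simp only [map_smul, map_add]
    module
  generalize (2⁻¹ : ℂ) • (u + v) = w at *
  generalize (2⁻¹ : ℂ) • (u - v) = y at *
  refine ⟨w, y, r, e1, r1, w1, y1, by rw [← nt, e3]; exact w2, ?_, by rw [e2]; exact r2, ?_⟩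
  · have a1 := congrArg (fun x => (inner ℂ x (P y)).re) e1
    have a2 := congrArg (fun x => (inner ℂ (Q w) x).re) e2
    simp only [inner_add_left, inner_add_right, inner_smul_left, inner_smul_right, hO,
      Complex.conj_ofReal, Complex.add_re, Complex.re_ofReal_mul, re_self, zero_add, add_zero,
      Complex.zero_re] at a1 a2
    have b1 : (inner ℂ w (P y)).re = -(inner ℂ (Q w) y).re := by rw [hA, Complex.neg_re, neg_neg]
    have b2 : (inner ℂ f (P y)).re = -(inner ℂ (Q f) y).re := by rw [hA, Complex.neg_re, neg_neg]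
    have c1 := (abs_le.1 (re_le (Q f) y)).1
    have c2 := (abs_le.1 (re_le r (P y))).2
    have c3 := (abs_le.1 (re_le (Q w) s)).2
    have d1 : ‖Q f‖ * ‖y‖ ≤ ‖Q f‖ * (‖f‖ + d) := mul_le_mul_of_nonneg_left y1 (norm_nonneg _)
    have d2 : ‖r‖ * ‖P y‖ ≤ d * ‖P y‖ := mul_le_mul_of_nonneg_right r1 (norm_nonneg _)
    have d3 : ‖Q w‖ * ‖s‖ ≤ ‖Q w‖ * d := mul_le_mul_of_nonneg_left r2 (norm_nonneg _)
    have k : t * ‖P y‖ ^ 2 + t * ‖Q w‖ ^ 2 ≤ ‖Q f‖ * (‖f‖ + d) + d * ‖P y‖ + ‖Q w‖ * d := by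
      linarith
    have k2 := mul_le_mul_of_nonneg_left k ht.le
    nlinarith [sq_nonneg (t * ‖P y‖ - d), sq_nonneg (2 * (t * ‖Q w‖) - d), sq_nonneg d]
  · have a1 := congrArg (fun x => (inner ℂ x w).re) e1
    have a2 := congrArg (fun x => (inner ℂ y x).re) e2
    simp only [inner_add_left w, inner_add_left f, inner_add_right y y, inner_smul_left,
      inner_smul_right, Complex.conj_ofReal, Complex.add_re, Complex.re_ofReal_mul, re_self,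
      sk2 y w] at a1 a2
    have c1 := (abs_le.1 (re_le r w)).2
    have c2 := (abs_le.1 (re_le y s)).2
    have d1 : ‖r‖ * ‖w‖ ≤ d * (‖f‖ + d) := mul_le_mul r1 w1 (norm_nonneg _) hd.le
    have d2 : ‖y‖ * ‖s‖ ≤ (‖f‖ + d) * d :=
      mul_le_mul y1 r2 (norm_nonneg _) ((norm_nonneg _).trans y1)
    nlinarith [sq_nonneg ‖y‖]

end Pool.Agent.Lib.NU4.Near16
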