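import Pool.Agent.Lib.HLK.B_NEAR

/-! Project nu4: almost minimal representatives of a closed element, with the pairing. -/

noncomputable section

namespace Pool.Agent.Lib.NU4.Near84

open Pool.Agent.Lib.HLK.NEAR

/-- The resolvent construction, with the second relation kept. -/
theorem near2 (C : Type) [SeminormedAddCommGroup C] [InnerProductSpace ℂ C]
    (P Q : C →ₗ[ℂ] C) (hA : ∀ a b, inner ℂ (Q a) b = -inner ℂ a (P b))
    (hD : ∀ (t d : ℝ) (f : C), 0 < d → ∃ s, ‖s + (t : ℂ) • (Q s + P s) - f‖ ≤ d)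
    (t d : ℝ) (f : C) (ht : 0 < t) (hd : 0 < d) :
    ∃ w y r s : C, w + (t : ℂ) • (Q y + P y) = f + r ∧ y + (t : ℂ) • (Q w + P w) = s ∧
      ‖r‖ ≤ d ∧ ‖s‖ ≤ d ∧ ‖w‖ ≤ ‖f‖ + d ∧ ‖y‖ ≤ ‖f‖ + d ∧ t * ‖Q w + P w‖ ≤ ‖f‖ + d := by
  have sk : ∀ a : C, (inner ℂ a (Q a + P a)).re = 0 := fun a => by
    rw [inner_add_right, Complex.add_re, re_symm a (Q a), hA, Complex.neg_re]
    ring
  obtain ⟨u, hu⟩ := hD t d f hd
  obtain ⟨v, hv⟩ := hD (-t) d f hd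
  obtain ⟨u1, u2⟩ := both _ _ _ _ _ (sk u) hu
  obtain ⟨v1, v2⟩ := both _ _ _ _ _ (sk v) hv
  rw [abs_of_pos ht] at u2
  rw [abs_neg, abs_of_pos ht] at v2
  obtain ⟨r1, r2⟩ := half _ _ _ hu hv
  obtain ⟨w1, y1⟩ := half _ _ _ u1 v1
  have nt : ∀ a : C, ‖(t : ℂ) • a‖ = t * ‖a‖ := fun a => by
    rw [norm_smul, Complex.norm_real, Real.norm_eq_abs, abs_of_pos ht]
  obtain ⟨w2, -⟩ := half _ _ _ ((nt _).trans_le u2) ((nt _).trans_le v2)
  have e3 : (t : ℂ) • (Q ((2⁻¹ : ℂ) • (u + v)) + P ((2⁻¹ : ℂ) • (u + v))) =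
      (2⁻¹ : ℂ) • ((t : ℂ) • (Q u + P u) + (t : ℂ) • (Q v + P v)) := by
    simp only [map_smul, map_add]
    module
  refine ⟨(2⁻¹ : ℂ) • (u + v), (2⁻¹ : ℂ) • (u - v), _, _, ?_, ?_, r1, r2, w1, y1,
    by rw [← nt, e3]; exact w2⟩
  · simp only [map_smul, map_sub, Complex.ofReal_neg]
    module
  · simp only [map_smul, map_add, Complex.ofReal_neg]
    module

/-- A closed element is, up to a small error, an exact element plus an almost harmonic one whose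
pairing with the given element is at least its squared norm. -/
theorem near3 (C : Type) [SeminormedAddCommGroup C] [InnerProductSpace ℂ C]
    (P Q : C →ₗ[ℂ] C) (hA : ∀ a b, inner ℂ (Q a) b = -inner ℂ a (P b))
    (hO : ∀ a b, inner ℂ (Q a) (P b) = 0)
    (hD : ∀ (t d : ℝ) (f : C), 0 < d → ∃ s, ‖s + (t : ℂ) • (Q s + P s) - f‖ ≤ d)
    (f : C) (hf : ‖Q f‖ = 0) (η : ℝ) (hη : 0 < η) :
    ∃ w y : C, ‖f - w - Q y‖ ≤ η ∧ ‖Q w‖ ≤ η ∧ ‖P w‖ ≤ η ∧ ‖w‖ ≤ ‖f‖ + η ∧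
      ‖w‖ ^ 2 - η ≤ (inner ℂ f w).re := by
  have hf0 := norm_nonneg f
  obtain ⟨d, hd, hd1, hd2, hd3⟩ : ∃ d : ℝ, 0 < d ∧ d ≤ 1 ∧ 3 * d ≤ η ∧ 2 * d * (‖f‖ + 1) ≤ η := by
    refine ⟨min 1 (min (η / 3) (η / (2 * (‖f‖ + 1)))), by positivity, min_le_left _ _, ?_, ?_⟩
    · have := (min_le_right 1 _).trans (min_le_left (η / 3) (η / (2 * (‖f‖ + 1))))
      linarith
    · have := (min_le_right 1 _).trans (min_le_right (η / 3) (η / (2 * (‖f‖ + 1))))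
      rw [le_div_iff₀ (by positivity)] at this
      linarith
  have ht : 0 < (‖f‖ + 1) / η := by positivity
  obtain ⟨w, y, r, s, e1, e2, r1, r2, w1, y1, w2⟩ := near2 C P Q hA hD _ d f ht hd
  generalize ht' : (‖f‖ + 1) / η = t at *
  have htη : t * η = ‖f‖ + 1 := by rw [← ht']; field_simp
  have nt : ∀ a : C, ‖(t : ℂ) • a‖ = t * ‖a‖ := fun a => by
    rw [norm_smul, Complex.norm_real, Real.norm_eq_abs, abs_of_pos ht]
  have hB : ∀ a b, (inner ℂ a (P b)).re = -(inner ℂ (Q a) b).re := fun a b => by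
    rw [hA, Complex.neg_re, neg_neg]
  have hDw : ‖Q w + P w‖ ≤ η := by
    refine le_of_mul_le_mul_left ?_ ht
    linarith
  have py : ‖Q w + P w‖ ^ 2 = ‖Q w‖ ^ 2 + ‖P w‖ ^ 2 := by
    have := pyth (Q w) (P w) 1 (by rw [hO]; simp)
    simpa using this
  have sq : ‖Q w + P w‖ ^ 2 ≤ η ^ 2 := pow_le_pow_left₀ (norm_nonneg _) hDw 2
  have hQ : ‖Q w‖ ≤ η := (abs_le_of_sq_le_sq' (by nlinarith [sq_nonneg ‖P w‖]) hη.le).2
  have hP : ‖P w‖ ≤ η := (abs_le_of_sq_le_sq' (by nlinarith [sq_nonneg ‖Q w‖]) hη.le).2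
  have a1 := congrArg (fun x => (inner ℂ x (P y)).re) e1
  have a2 := congrArg (fun x => (inner ℂ (Q w) x).re) e2
  have a3 := congrArg (fun x => (inner ℂ x w).re) e1
  have a4 := congrArg (fun x => (inner ℂ y x).re) e2
  simp only [inner_add_left, inner_add_right, inner_smul_left, inner_smul_right, hO,
    Complex.conj_ofReal, Complex.add_re, Complex.re_ofReal_mul, re_self, zero_add, add_zero,
    Complex.zero_re] at a1 a2 a3 a4
  have b1 := hB w y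
  have b2 := hB f y
  have b3 := hB y w
  have b4 := re_symm (P y) w
  have b5 := re_symm y (Q w)
  have c1 := (abs_le.1 (re_le (Q f) y)).1
  have c2 := (abs_le.1 (re_le r (P y))).2
  have c3 := (abs_le.1 (re_le (Q w) s)).2
  have c4 := (abs_le.1 (re_le r w)).2
  have c5 := (abs_le.1 (re_le y s)).2
  rw [hf, zero_mul] at c1
  have d2 : ‖r‖ * ‖P y‖ ≤ d * ‖P y‖ := mul_le_mul_of_nonneg_right r1 (norm_nonneg _)
  have d3 : ‖Q w‖ * ‖s‖ ≤ ‖Q w‖ * d := mul_le_mul_of_nonneg_left r2 (norm_nonneg _)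
  have d4 : ‖r‖ * ‖w‖ ≤ d * (‖f‖ + 1) :=
    mul_le_mul r1 (by linarith) (norm_nonneg _) hd.le
  have d5 : ‖y‖ * ‖s‖ ≤ (‖f‖ + 1) * d :=
    mul_le_mul (by linarith) r2 (norm_nonneg _) (by linarith)
  have k : t * ‖P y‖ ^ 2 + t * ‖Q w‖ ^ 2 ≤ d * ‖P y‖ + ‖Q w‖ * d := by linarith
  have k2 := mul_le_mul_of_nonneg_left k ht.le
  have k3 : t * ‖P y‖ ≤ 2 * d :=
    (abs_le_of_sq_le_sq' (by
      nlinarith [sq_nonneg (t * ‖P y‖ - d), sq_nonneg (2 * (t * ‖Q w‖) - d), sq_nonneg d])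
      (by linarith)).2
  refine ⟨w, (t : ℂ) • y, ?_, hQ, hP, by linarith, ?_⟩
  · have e : f - w - Q ((t : ℂ) • y) = (t : ℂ) • P y - r := by
      rw [map_smul, show f = w + (t : ℂ) • (Q y + P y) - r by rw [e1]; abel]
      module
    rw [e]
    have := norm_sub_le ((t : ℂ) • P y) r
    rw [nt] at this
    linarith
  · have e : t * ((inner ℂ (Q y) w).re + (inner ℂ (P y) w).re) =
        -(t * ((inner ℂ y (Q w)).re + (inner ℂ y (P w)).re)) := by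
      rw [b3, b4, b1, b5]
      ring
    nlinarith [sq_nonneg ‖y‖]

end Pool.Agent.Lib.NU4.Near84
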