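import Pool.Agent.Lib.HS32.MAll

/-! Project nu4: forms with uniformly integrable potentials have no mass near the zero set of a
function whose logarithm is almost subharmonic. -/

open scoped Classical Topology ContDiff ComplexOrder Matrix
open Set Filter MeasureTheory

noncomputable section

namespace Pool.Agent.Lib.NU4.Nm43

open Pool.Agent.Lib.SV (E)
open Pool.Agent.Lib.HS32

variable {n : ℕ} {M : Mf n}

/-- The logarithmic cut-off. -/
def chi (ρ A : ℝ) : ℝ := A⁻¹ * (Real.log (ρ + Real.exp (-A)) - Real.log (ρ + Real.exp (-(2 * A))))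

theorem chi_nonneg {ρ A : ℝ} (h : 0 ≤ ρ) (hA : 0 < A) : 0 ≤ chi ρ A := by
  refine mul_nonneg (inv_nonneg.2 hA.le) (sub_nonneg.2 (Real.log_le_log (by positivity) ?_))
  have : Real.exp (-(2 * A)) ≤ Real.exp (-A) := Real.exp_le_exp.2 (by linarith)
  linarith

theorem chi_le_one {ρ A : ℝ} (h : 0 ≤ ρ) (hA : 0 < A) : chi ρ A ≤ 1 := by
  have e1 : Real.exp A * Real.exp (-(2 * A)) = Real.exp (-A) := by
    rw [← Real.exp_add]; ring_nf
  have e2 : 1 ≤ Real.exp A := Real.one_le_exp hA.le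
  have e3 : Real.log (ρ + Real.exp (-A)) ≤ Real.log (Real.exp A * (ρ + Real.exp (-(2 * A)))) :=
    Real.log_le_log (by positivity) (by nlinarith)
  rw [Real.log_mul (by positivity) (by positivity), Real.log_exp] at e3
  rw [chi, inv_mul_le_iff₀ hA]
  linarith

theorem half_le_chi {ρ A : ℝ} (h : 0 ≤ ρ) (hA : 2 ≤ A) (hs : ρ ≤ Real.exp (-(2 * A))) :
    1 / 2 ≤ chi ρ A := by
  have e1 : Real.log (Real.exp (-A)) ≤ Real.log (ρ + Real.exp (-A)) :=
    Real.log_le_log (by positivity) (by linarith)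
  have e2 : Real.log (ρ + Real.exp (-(2 * A))) ≤ Real.log (2 * Real.exp (-(2 * A))) :=
    Real.log_le_log (by positivity) (by linarith)
  rw [Real.log_mul (by positivity) (by positivity), Real.log_exp] at e2
  rw [Real.log_exp] at e1
  have e3 : Real.log 2 ≤ 1 := by
    have := Real.log_le_sub_one_of_pos (show (0 : ℝ) < 2 by norm_num)
    linarith
  rw [chi, le_inv_mul_iff₀ (by linarith)]
  linarith

theorem chi_le {ρ A : ℝ} (h : 0 < ρ) (hA : 0 < A) :
    chi ρ A ≤ A⁻¹ * (Real.log (ρ + 1) - Real.log ρ) := by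
  refine mul_le_mul_of_nonneg_left (sub_le_sub (Real.log_le_log (by positivity) ?_)
    (Real.log_le_log h ?_)) (inv_nonneg.2 hA.le)
  · have : Real.exp (-A) ≤ 1 := Real.exp_le_one_iff.2 (by linarith)
    linarith
  · have := Real.exp_pos (-(2 * A))
    linarith

theorem sm_log {ρ : M.X → ℝ} (hρ : M.Sm ρ) (h0 : ∀ x, 0 ≤ ρ x) {d : ℝ} (hd : 0 < d) :
    M.Sm fun x => Real.log (ρ x + d) :=
  (hρ.add (Mf.sm_const d)).log fun x => by have := h0 x; positivity

theorem sm_chi {ρ : M.X → ℝ} (hρ : M.Sm ρ) (h0 : ∀ x, 0 ≤ ρ x) (A : ℝ) :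
    M.Sm fun x => chi (ρ x) A :=
  ((sm_log hρ h0 (Real.exp_pos _)).sub (sm_log hρ h0 (Real.exp_pos _))).const_mul _

/-- The Laplacian and the gradient of the regularised logarithm. -/
theorem lap_log {H : M.Fam (Mat n)} (hH : M.Met H) {ρ : M.X → ℝ} (hρ : M.Sm ρ) (h0 : ∀ x, 0 ≤ ρ x)
    {d : ℝ} (hd : 0 < d) (x : M.X) : M.lap H (fun y => Real.log (ρ y + d)) x =
      (ρ x + d)⁻¹ * M.lap H ρ x - ((ρ x + d) ^ 2)⁻¹ * M.gr H ρ ρ x := by
  have c : ∀ y, ContDiffAt ℝ ∞ (fun t : ℝ => Real.log (t + d)) (ρ y) := fun y =>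
    (contDiffAt_id.add contDiffAt_const).log (by have := h0 y; simp only [id]; positivity)
  have e1 : deriv (fun t : ℝ => Real.log (t + d)) = fun t => (t + d)⁻¹ := funext fun t => by
    rw [deriv_comp_add_const, Real.deriv_log]
  have e2 : deriv (fun t : ℝ => (t + d)⁻¹) (ρ x) = -((ρ x + d) ^ 2)⁻¹ := by
    rw [deriv_comp_add_const (fun t : ℝ => t⁻¹), deriv_inv]
  rw [(((mLAP n M ρ ρ hρ hρ).2.2 H hH).2.2.2.1 _ c x).1, e1, e2]
  ring

theorem int_chi [M.Cpt] {H : M.Fam (Mat n)} (hH : M.Met H) {ρ : M.X → ℝ} (hρ : M.Sm ρ)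
    (h0 : ∀ x, 0 ≤ ρ x) (hz : M.mu H {x | ρ x = 0} = 0) :
    Tendsto (fun k : ℕ => ∫ x, chi (ρ x) (k + 1) ∂M.mu H) atTop (𝓝 0) := by
  have := (mMU n M H hH).2.1
  have := tendsto_integral_of_dominated_convergence (μ := M.mu H)
    (F := fun (k : ℕ) x => chi (ρ x) (k + 1)) (f := fun _ => (0 : ℝ)) (fun _ => (1 : ℝ))
    (fun k => (sm_chi hρ h0 _).continuous.aestronglyMeasurable) (integrable_const _)
    (fun k => Eventually.of_forall fun x => by
      rw [Real.norm_of_nonneg (chi_nonneg (h0 x) (by positivity))]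
      exact chi_le_one (h0 x) (by positivity)) ?_
  · simpa using this
  · have a : ∀ᵐ x ∂M.mu H, ρ x ≠ 0 := by
      rw [ae_iff]; simpa using hz
    filter_upwards [a] with x hx
    have p : 0 < ρ x := lt_of_le_of_ne (h0 x) hx.symm
    have t : Tendsto (fun k : ℕ => ((k : ℝ) + 1)⁻¹ * (Real.log (ρ x + 1) - Real.log (ρ x))) atTop
        (𝓝 0) := by
      have := (tendsto_one_div_add_atTop_nhds_zero_nat (𝕜 := ℝ)).mul_const
        (Real.log (ρ x + 1) - Real.log (ρ x))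
      simpa using this
    exact squeeze_zero (fun k => chi_nonneg (h0 x) (by positivity))
      (fun k => chi_le p (by positivity)) t

theorem le_exp {t m p : ℝ} (hp : 1 ≤ p) : t ≤ m + Real.exp (-(p * m)) * Real.exp (p * t) := by
  rw [← Real.exp_add]
  rcases le_total t m with h | h
  · have := Real.exp_pos (-(p * m) + p * t)
    linarith
  · have := Real.add_one_le_exp (-(p * m) + p * t)
    nlinarith

/-- The main estimate for the cut-off. -/
theorem chi_lap [M.Cpt] {H : M.Fam (Mat n)} (hH : M.Kae H) {ρ : M.X → ℝ} (hρ : M.Sm ρ)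
    (h0 : ∀ x, 0 ≤ ρ x) {C C₁ : ℝ} (hC0 : 0 ≤ C)
    (hC : ∀ d : ℝ, 0 < d → ∀ x, -C ≤ M.lap H (fun y => Real.log (ρ y + d)) x)
    (h1 : ∀ x, ‖M.lap H ρ x‖ ≤ C₁) {A p Cp : ℝ} (hA : 0 < A) (hp : 1 ≤ p) {u : M.X → ℝ}
    (hu : M.Sm u) (hu0 : ∀ x, u x ≤ 0) (hi : ∫ x, Real.exp (-(p * u x)) ∂M.mu H ≤ Cp) :
    ∫ x, chi (ρ x) A * M.lap H u x ∂M.mu H ≤
      2 * C * (M.mu H).real univ / p + (C₁ + C) * Cp / A := by
  have := (mMU n M H hH.toMet).2.1
  have I := (mMU n M H hH.toMet).2.2.2.2.1 ℝ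
  have s1 := sm_log hρ h0 (Real.exp_pos (-A))
  have s2 := sm_log hρ h0 (Real.exp_pos (-(2 * A)))
  set L₂ := fun y => Real.log (ρ y + Real.exp (-(2 * A))) with hL₂
  have sl := ((mLAP n M L₂ L₂ s2 s2).2.2 H hH.toMet).1
  have hC₁ : ∀ x : M.X, 0 ≤ C₁ := fun x => (norm_nonneg _).trans (h1 x)
  have key : ∀ x, u x * M.lap H (fun y => chi (ρ y) A) x ≤
      2 / p * (M.lap H L₂ x + C) + (C₁ + C) / A * Real.exp (-(p * u x)) := fun x => by
    have a1 := (((mLAP n M _ _ (s1.sub s2) s2).2.2 H hH.toMet).2.2.1 x A⁻¹).2.2.2.1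
    have a2 := (((mLAP n M _ _ s1 s2).2.2 H hH.toMet).2.2.1 x 0).2.2.1
    have a3 : M.lap H (fun y => chi (ρ y) A) x = A⁻¹ * (M.lap H (fun y =>
        Real.log (ρ y + Real.exp (-A))) x - M.lap H L₂ x) := by rw [← a2, ← a1]; rfl
    have b1 := hC _ (Real.exp_pos (-A)) x
    have b2 : -C ≤ M.lap H L₂ x := hC _ (Real.exp_pos (-(2 * A))) x
    have ee : Real.exp (-(2 * A)) * Real.exp (2 * A) = 1 := by rw [← Real.exp_add]; simp
    have e1 : 1 ≤ Real.exp (2 * A) := Real.one_le_exp (by linarith)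
    have b3 : M.lap H L₂ x ≤ C₁ * Real.exp (2 * A) := by
      rw [hL₂, lap_log hH.toMet hρ h0 (Real.exp_pos _)]
      have g := (((mLAP n M ρ ρ hρ hρ).2.2 H hH.toMet).2.2.1 x 0).2.2.2.2.2.2.1
      have r := h0 x
      have q : (ρ x + Real.exp (-(2 * A)))⁻¹ ≤ Real.exp (2 * A) := by
        rw [inv_le_iff_one_le_mul₀ (by positivity)]
        nlinarith
      have q1 : M.lap H ρ x ≤ C₁ := (le_abs_self _).trans (h1 x)
      have q2 : 0 ≤ (ρ x + Real.exp (-(2 * A)))⁻¹ := by positivity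
      have q3 : 0 ≤ ((ρ x + Real.exp (-(2 * A))) ^ 2)⁻¹ * M.gr H ρ ρ x := by positivity
      nlinarith [mul_le_mul_of_nonneg_left q1 q2, mul_le_mul_of_nonneg_left q (hC₁ x)]
    have c1 := le_exp (t := -u x) (m := 2 * A / p) hp
    have c2 : p * (2 * A / p) = 2 * A := by field_simp
    rw [c2, show p * -u x = -(p * u x) by ring] at c1
    set w := Real.exp (-(p * u x))
    have w0 : 0 < w := Real.exp_pos _
    have c3 : u x * M.lap H (fun y => chi (ρ y) A) x ≤ A⁻¹ * (-u x * (M.lap H L₂ x + C)) := by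
      rw [a3]
      have := mul_le_mul_of_nonneg_left b1 (neg_nonneg.2 (hu0 x))
      have i := inv_pos.2 hA
      nlinarith
    have c4 : -u x * (M.lap H L₂ x + C) ≤ 2 * A / p * (M.lap H L₂ x + C) + (C₁ + C) * w := by
      have d1 := mul_le_mul_of_nonneg_right c1 (show 0 ≤ M.lap H L₂ x + C by linarith)
      have d2 : Real.exp (-(2 * A)) * (M.lap H L₂ x + C) ≤ C₁ + C := by
        have d3 : M.lap H L₂ x + C ≤ (C₁ + C) * Real.exp (2 * A) := by nlinarith
        have := mul_le_mul_of_nonneg_left d3 (Real.exp_pos (-(2 * A))).le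
        nlinarith
      nlinarith [mul_le_mul_of_nonneg_left d2 w0.le]
    have c5 := mul_le_mul_of_nonneg_left c4 (inv_pos.2 hA).le
    have c6 : A⁻¹ * (2 * A / p * (M.lap H L₂ x + C) + (C₁ + C) * w) =
        2 / p * (M.lap H L₂ x + C) + (C₁ + C) / A * w := by field_simp
    linarith
  have sc := sm_chi hρ h0 A
  have ce : Continuous fun x => Real.exp (-(p * u x)) :=
    Real.continuous_exp.comp (continuous_const.mul hu.continuous).neg
  rw [((mGRN n M).2 H u _ hH hu sc).2.2]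
  have i1 : Integrable (fun x => 2 / p * (M.lap H L₂ x + C)) (M.mu H) :=
    I _ (continuous_const.mul (sl.continuous.add continuous_const))
  have i2 : Integrable (fun x => (C₁ + C) / A * Real.exp (-(p * u x))) (M.mu H) :=
    I _ (continuous_const.mul ce)
  refine (integral_mono (I _ (hu.continuous.mul
    ((mLAP n M _ _ sc sc).2.2 H hH.toMet).1.continuous)) (i1.add i2) key).trans ?_
  simp only [Pi.add_apply]
  rw [integral_add i1 i2, integral_const_mul, integral_const_mul,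
    integral_add (I _ sl.continuous) (integrable_const _), ((mGRN n M).2 H L₂ L₂ hH s2 s2).1,
    integral_const, smul_eq_mul]
  obtain ⟨x⟩ : Nonempty M.X := by
    by_contra h
    have := (mMU n M H hH.toMet).2.2.2.1
    rw [not_nonempty_iff] at h
    simp [univ_eq_empty_iff.2 h] at this
  have := mul_le_mul_of_nonneg_left hi (show 0 ≤ (C₁ + C) / A by have := hC₁ x; positivity)
  have e1 : 2 / p * (0 + (M.mu H).real univ * C) = 2 * C * (M.mu H).real univ / p := by ring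
  have e2 : (C₁ + C) / A * Cp = (C₁ + C) * Cp / A := by ring
  linarith

/-- No mass near the zero set, scalar form. -/
theorem nm [M.Cpt] {H : M.Fam (Mat n)} (hH : M.Kae H) {ρ : M.X → ℝ} (hρ : M.Sm ρ)
    (h0 : ∀ x, 0 ≤ ρ x) (hz : M.mu H {x | ρ x = 0} = 0)
    (hC : ∃ C : ℝ, ∀ d : ℝ, 0 < d → ∀ x, -C ≤ M.lap H (fun y => Real.log (ρ y + d)) x)
    (B η : ℝ) (hη : 0 < η) : ∃ p : ℕ, 0 < p ∧ ∀ Cp : ℝ, ∃ s : ℝ, 0 < s ∧ ∀ u f : M.X → ℝ, M.Sm u →
      (∀ x, u x ≤ 0) → Continuous f → (∀ x, f x ≤ B) → (∀ x, 0 ≤ f x + M.lap H u x) →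
      ∫ x, Real.exp (-(p * u x)) ∂M.mu H ≤ Cp →
      ∫ x in {x | ρ x ≤ s}, (f x + M.lap H u x) ∂M.mu H ≤ η := by
  have := (mMU n M H hH.toMet).2.1
  have I := (mMU n M H hH.toMet).2.2.2.2.1 ℝ
  obtain ⟨C', hC'⟩ := hC
  set C := max C' 0
  have hC0 : 0 ≤ C := le_max_right _ _
  have hC : ∀ d : ℝ, 0 < d → ∀ x, -C ≤ M.lap H (fun y => Real.log (ρ y + d)) x := fun d hd x =>
    (neg_le_neg (le_max_left _ _)).trans (hC' d hd x)
  obtain ⟨C₁, hC₁, h1⟩ := ((mLAP n M ρ ρ hρ hρ).2.2 H hH.toMet).1.exists_bound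
  set V := (M.mu H).real univ
  obtain ⟨p, hp⟩ := exists_nat_ge (12 * C * V / η)
  refine ⟨p + 1, p.succ_pos, fun Cp => ?_⟩
  have t1 := (int_chi hH.toMet hρ h0 hz).const_mul (max B 0)
  have t2 := (tendsto_one_div_add_atTop_nhds_zero_nat (𝕜 := ℝ)).const_mul ((C₁ + C) * Cp)
  rw [mul_zero] at t1 t2
  obtain ⟨k, k1, k2, k3⟩ := ((eventually_ge_atTop 1).and
    ((t1.eventually (gt_mem_nhds (show 0 < η / 6 by positivity))).and
      (t2.eventually (gt_mem_nhds (show 0 < η / 6 by positivity))))).exists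
  have k0 : (2 : ℝ) ≤ k + 1 := by
    have : (1 : ℝ) ≤ k := by exact_mod_cast k1
    linarith
  have kp : (0 : ℝ) < k + 1 := by positivity
  refine ⟨Real.exp (-(2 * (k + 1))), Real.exp_pos _, fun u f hu hu0 hf hB hg hi => ?_⟩
  have p1 : (1 : ℝ) ≤ ((p + 1 : ℕ) : ℝ) := by exact_mod_cast p.succ_pos
  have a := chi_lap hH hρ h0 hC0 hC h1 kp p1 hu hu0 hi
  have cl := ((mLAP n M u u hu hu).2.2 H hH.toMet).1.continuous
  have cc := (sm_chi hρ h0 (k + 1)).continuous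
  have ms : MeasurableSet {x | ρ x ≤ Real.exp (-(2 * ((k : ℝ) + 1)))} :=
    (isClosed_le hρ.continuous continuous_const).measurableSet
  have b1 : ∫ x in {x | ρ x ≤ Real.exp (-(2 * ((k : ℝ) + 1)))}, (f x + M.lap H u x) ∂M.mu H ≤
      ∫ x, 2 * (max B 0 * chi (ρ x) (k + 1) + chi (ρ x) (k + 1) * M.lap H u x) ∂M.mu H := by
    rw [← integral_indicator ms]
    refine integral_mono ((I _ (hf.add cl)).indicator ms)
      (I _ (continuous_const.mul ((continuous_const.mul cc).add (cc.mul cl)))) fun x => ?_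
    have c0 := chi_nonneg (h0 x) kp
    have c1 := mul_le_mul_of_nonneg_left ((hB x).trans (le_max_left B 0)) c0
    have c2 := mul_nonneg c0 (hg x)
    by_cases hx : x ∈ {x | ρ x ≤ Real.exp (-(2 * ((k : ℝ) + 1)))}
    · rw [indicator_of_mem hx]
      have c3 := mul_le_mul_of_nonneg_right (half_le_chi (h0 x) k0 hx) (hg x)
      nlinarith
    · rw [indicator_of_notMem hx]
      nlinarith
  have i1 : Integrable (fun x => max B 0 * chi (ρ x) (k + 1)) (M.mu H) :=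
    I _ (continuous_const.mul cc)
  have i2 : Integrable (fun x => chi (ρ x) (k + 1) * M.lap H u x) (M.mu H) := I _ (cc.mul cl)
  rw [integral_const_mul, integral_add i1 i2, integral_const_mul] at b1
  have b2 : 2 * C * V / ((p + 1 : ℕ) : ℝ) ≤ η / 6 := by
    rw [div_le_iff₀ hη] at hp
    rw [div_le_iff₀ (by linarith)]
    push_cast
    nlinarith
  have b3 : (C₁ + C) * Cp / ((k : ℝ) + 1) = (C₁ + C) * Cp * (1 / ((k : ℝ) + 1)) := by ring
  linarith

/-- No mass near the zero set. -/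
theorem nm_form [M.Cpt] {H θ : M.Fam (Mat n)} (hH : M.Kae H) (hθ : M.Ten θ) {ρ : M.X → ℝ}
    (hρ : M.Sm ρ) (h0 : ∀ x, 0 ≤ ρ x) (hz : M.mu H {x | ρ x = 0} = 0)
    (hC : ∃ C : ℝ, ∀ d : ℝ, 0 < d → ∀ x, -C ≤ M.lap H (fun y => Real.log (ρ y + d)) x)
    (η : ℝ) (hη : 0 < η) : ∃ p : ℕ, 0 < p ∧ ∀ Cp : ℝ, ∃ s : ℝ, 0 < s ∧ ∀ (ε : ℝ) (u : M.X → ℝ),
      ε ≤ 1 → M.Sm u → (∀ x, u x ≤ 0) → M.Le 0 (θ + ε • H + M.hs u) →
      ∫ x, Real.exp (-(p * u x)) ∂M.mu H ≤ Cp →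
      ∫ x in {x | ρ x ≤ s}, M.tr H (θ + ε • H + M.hs u) x ∂M.mu H ≤ η := by
  have st := ((mINV n M H hH.toMet).1 θ hθ).2.1
  obtain ⟨B, -, hB⟩ := st.exists_bound
  obtain ⟨p, hp, h⟩ := nm hH hρ h0 hz hC (B + n) η hη
  refine ⟨p, hp, fun Cp => ?_⟩
  obtain ⟨s, hs, h⟩ := h Cp
  refine ⟨s, hs, fun ε u hε hu hu0 hT hi => ?_⟩
  have e : ∀ x, M.tr H (θ + ε • H + M.hs u) x = (M.tr H θ x + ε * n) + M.lap H u x := fun x => by
    rw [Mf.tr_add, Mf.tr_add, Mf.tr_smul, hH.toMet.tr_self]; rfl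
  simp only [e]
  refine h u _ hu hu0 (st.continuous.add continuous_const) (fun x => ?_)
    (fun x => e x ▸ hH.toMet.tr_nonneg hT x) hi
  have := (le_abs_self _).trans (hB x)
  have := mul_le_mul_of_nonneg_right hε (Nat.cast_nonneg (α := ℝ) n)
  linarith

end Pool.Agent.Lib.NU4.Nm43
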