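import Pool.Agent.Lib.NU4.Ck23b
import Pool.Agent.Lib.F4.A_IDT

/-! Project nu4: the series of Cohen and Kuznetsov of a holomorphic tensor, in a chart. -/

open scoped Classical Topology Matrix ContDiff
open Set

set_option linter.unusedSectionVars false

noncomputable section

namespace Pool.Agent.Lib.NU4.R74

open Pool.Agent.Lib.SV (E)
open Pool.Agent.Lib.HS32 Pool.Agent.Lib.HLK

variable {n : ℕ} {f f' : E n → ℂ} {v : E n → E n} {z : E n}

theorem hD (hf : HolN f z) (hv : ∀ i, HolN (fun w => v w i) z) :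
    HolN (fun y => fderiv ℂ f y (v y)) z := by
  obtain ⟨U, ho, hz, hU⟩ := BHOL.smoothC hf
  filter_upwards [ho.mem_nhds hz, Filter.eventually_all.2 hv] with w hw h2
  exact (((hU.contDiffAt (ho.mem_nhds hw)).fderiv_right (m := ∞) (by simp)).differentiableAt
    (by simp)).clm_apply (differentiableAt_pi.2 h2)

theorem hC (a : ℂ) : HolN (fun _ : E n => a) z :=
  Filter.Eventually.of_forall fun _ => differentiableAt_const _

theorem hadd (h : HolN f z) (h' : HolN f' z) : HolN (fun y => f y + f' y) z := by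
  filter_upwards [h, h'] with w a b using a.fun_add b

theorem hsub (h : HolN f z) (h' : HolN f' z) : HolN (fun y => f y - f' y) z := by
  filter_upwards [h, h'] with w a b using a.fun_sub b

theorem hmul (h : HolN f z) (h' : HolN f' z) : HolN (fun y => f y * f' y) z := by
  filter_upwards [h, h'] with w a b using a.fun_mul b

theorem hinv (h : HolN f z) (h0 : f z ≠ 0) : HolN (fun y => (f y)⁻¹) z := by
  filter_upwards [h, h.self_of_nhds.continuousAt.eventually_ne h0] with w a b using a.fun_inv b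

theorem hsum {ι : Type} (s : Finset ι) {F : ι → E n → ℂ} (h : ∀ i, HolN (F i) z) :
    HolN (fun y => ∑ i ∈ s, F i y) z := by
  filter_upwards [(Filter.eventually_all_finset s).2 fun i _ => h i] with w a
    using DifferentiableAt.fun_sum a

theorem hcon (h : HolN f z) (e : f' =ᶠ[𝓝 z] f) : HolN f' z := by
  filter_upwards [h, e.eventually_nhds] with w a b using a.congr_of_eventuallyEq b

theorem dens {X : Type} [TopologicalSpace X] {z : X} {f f' : X → ℂ} {p : X → Prop}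
    (hp : ∃ᶠ w in 𝓝 z, p w) (h : ContinuousAt f z) (h' : ContinuousAt f' z)
    (e : ∀ᶠ w in 𝓝 z, p w → f w = f' w) : f z = f' z :=
  tendsto_nhds_unique_of_frequently_eq h h' (hp.mp e)

theorem pow_d (h : DifferentiableAt ℂ f z) (h' : DifferentiableAt ℂ f' z) (ξ : E n) (m : ℕ) :
    f z * fderiv ℂ (fun y => f y ^ m * f' y) z ξ =
      f z ^ m * (m * fderiv ℂ f z ξ * f' z + f z * fderiv ℂ f' z ξ) := by
  rw [fderiv_fun_mul (h.fun_pow _) h']
  simp only [add_apply, smul_apply, smul_eq_mul]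
  cases m with
  | zero => simp
  | succ m => rw [K23.hs_pow h]; push_cast; ring

/-- The scalar coefficients. -/
def cs (v : E n → E n) (l u : E n → ℂ) (k : ℕ) : ℕ → E n → ℂ
  | 0 => fun _ => 1
  | 1 => fun y => (k : ℂ)⁻¹ * l y
  | r + 2 => fun y => ((r + 2) * (r + 1 + k) : ℂ)⁻¹ * (fderiv ℂ (cs v l u k (r + 1)) y (v y) +
      l y * cs v l u k (r + 1) y - u y * cs v l u k r y)

variable {l u : E n → ℂ} {k : ℕ}

theorem cs0 (hk : 0 < k) (y : E n) :
    k * cs v l u k 1 y = fderiv ℂ (cs v l u k 0) y (v y) + l y * cs v l u k 0 y := by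
  have : (k : ℂ) ≠ 0 := Nat.cast_ne_zero.2 hk.ne'
  simp only [cs, fderiv_fun_const, Pi.zero_apply, zero_apply]
  field_simp
  ring

theorem cs1 (r : ℕ) (y : E n) : (r + 2) * (r + 1 + k) * cs v l u k (r + 2) y =
    fderiv ℂ (cs v l u k (r + 1)) y (v y) + l y * cs v l u k (r + 1) y - u y * cs v l u k r y := by
  have : ((r + 2) * (r + 1 + k) : ℂ) ≠ 0 := by exact_mod_cast (by positivity)
  rw [cs, mul_inv_cancel_left₀ this]

theorem two {P : ℕ → Prop} (h0 : P 0) (h1 : P 1) (h : ∀ r, P r → P (r + 1) → P (r + 2)) (r : ℕ) :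
    P r := by
  have : ∀ r, P r ∧ P (r + 1) := fun r => by
    induction r with
    | zero => exact ⟨h0, h1⟩
    | succ r ih => exact ⟨ih.2, h r ih.1 ih.2⟩
  exact (this r).1

theorem cs_hol (hv : ∀ i, HolN (fun w => v w i) z) (hl : HolN l z) (hu : HolN u z) (r : ℕ) :
    HolN (cs v l u k r) z :=
  two (P := fun r => HolN (cs v l u k r) z) (hC 1) (hmul (hC _) hl)
    (fun _ a b => hmul (hC _) (hsub (hadd (hD b hv) (hmul hl b)) (hmul hu a))) r

variable {σ : Type} [Fintype σ]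

/-- The derivative of a tensor. -/
def Lt (v : E n → E n) (A : E n → Mx σ) (a : E n → σ → ℂ) (y : E n) (i : σ) : ℂ :=
  fderiv ℂ (fun x => a x i) y (v y) + (A y *ᵥ a y) i

/-- The tensor coefficients. -/
def ts (v : E n → E n) (A : E n → Mx σ) (u : E n → ℂ) (k : ℕ) (g : E n → σ → ℂ) :
    ℕ → E n → σ → ℂ
  | 0 => g
  | 1 => fun y i => (k : ℂ)⁻¹ * Lt v A g y i
  | r + 2 => fun y i => ((r + 2) * (r + 1 + k) : ℂ)⁻¹ *
      (Lt v A (ts v A u k g (r + 1)) y i - u y * ts v A u k g r y i)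

variable {A : E n → Mx σ} {a g : E n → σ → ℂ}

theorem Lt_hol (hv : ∀ i, HolN (fun w => v w i) z) (hA : ∀ i j, HolN (fun w => A w i j) z)
    (ha : ∀ i, HolN (fun w => a w i) z) (i : σ) : HolN (fun w => Lt v A a w i) z :=
  hadd (hD (ha i) hv) (hsum _ fun j => hmul (hA i j) (ha j))

theorem ts_hol (hv : ∀ i, HolN (fun w => v w i) z) (hA : ∀ i j, HolN (fun w => A w i j) z)
    (hu : HolN u z) (hg : ∀ i, HolN (fun w => g w i) z) (r : ℕ) :
    ∀ i, HolN (fun w => ts v A u k g r w i) z :=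
  two (P := fun r => ∀ i, HolN (fun w => ts v A u k g r w i) z) hg
    (fun i => hmul (hC _) (Lt_hol hv hA hg i))
    (fun _ a b i => hmul (hC _) (hsub (Lt_hol hv hA b i) (hmul hu (a i)))) r

theorem Lt_mul (e : ∀ᶠ w in 𝓝 z, ∀ i, a w i = f w * g w i) (hf : DifferentiableAt ℂ f z)
    (hg : ∀ i, DifferentiableAt ℂ (fun w => g w i) z) (i : σ) :
    Lt v A a z i = fderiv ℂ f z (v z) * g z i + f z * Lt v A g z i := by
  have e1 : (fun x => a x i) =ᶠ[𝓝 z] fun x => f x * g x i := e.mono fun w hw => hw i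
  have e2 : a z = f z • g z := funext e.self_of_nhds
  rw [Lt, Lt, e1.fderiv_eq, fderiv_fun_mul hf (hg i), e2, Matrix.mulVec_smul]
  simp only [add_apply, smul_apply, smul_eq_mul, Pi.smul_apply]
  ring

theorem ts_eq {O : Set (E n)} (hO : IsOpen O)
    (h : ∀ y ∈ O, (∀ i, HolN (fun w => v w i) y) ∧ HolN l y ∧ HolN u y ∧
      (∀ i, HolN (fun w => g w i) y) ∧ ∀ i, Lt v A g y i = l y * g y i) (r : ℕ) :
    ∀ y ∈ O, ∀ i, ts v A u k g r y i = cs v l u k r y * g y i := by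
  refine two (P := fun r => ∀ y ∈ O, ∀ i, ts v A u k g r y i = cs v l u k r y * g y i)
    (fun y _ i => (one_mul _).symm) (fun y hy i => ?_) (fun r a b y hy i => ?_) r
  · simp only [ts, cs, (h y hy).2.2.2.2, mul_assoc]
  · obtain ⟨h1, h2, h3, h4, h5⟩ := h y hy
    rw [ts, cs]
    simp only []
    rw [Lt_mul (Filter.mem_of_superset (hO.mem_nhds hy) b) (cs_hol h1 h2 h3 _).self_of_nhds
      (fun i => (h4 i).self_of_nhds), h5, a y hy]
    ring

variable {τ : Type} [Fintype τ] (ε : τ ≃ σ × σ)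

/-- The product of two tensors. -/
def pt (a b : σ → ℂ) : τ → ℂ := fun t => a (ε t).1 * b (ε t).2

/-- The derivation on the products. -/
def a2 (B : Mx σ) : Mx τ := Matrix.of fun t s =>
  B (ε t).1 (ε s).1 * (1 : Mx σ) (ε t).2 (ε s).2 + (1 : Mx σ) (ε t).1 (ε s).1 * B (ε t).2 (ε s).2

theorem kr (B C : Mx σ) (a b : σ → ℂ) (t : τ) :
    ∑ s, B (ε t).1 (ε s).1 * C (ε t).2 (ε s).2 * pt ε a b s = pt ε (B *ᵥ a) (C *ᵥ b) t := by
  rw [← ε.symm.sum_comp, Fintype.sum_prod_type]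
  simp only [pt, Equiv.apply_symm_apply, Matrix.mulVec, dotProduct, Finset.sum_mul_sum]
  exact Finset.sum_congr rfl fun _ _ => Finset.sum_congr rfl fun _ _ => by ring

theorem a2_pt (B : Mx σ) (a b : σ → ℂ) (t : τ) :
    (a2 ε B *ᵥ pt ε a b) t = pt ε (B *ᵥ a) b t + pt ε a (B *ᵥ b) t := by
  have h1 := kr ε B 1 a b t
  have h2 := kr ε 1 B a b t
  rw [Matrix.one_mulVec] at h1 h2
  rw [← h1, ← h2, ← Finset.sum_add_distrib]
  exact Finset.sum_congr rfl fun _ _ => add_mul ..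

theorem Lt_pt (hg : ∀ i, DifferentiableAt ℂ (fun w => g w i) z) {c : ℂ}
    (h : ∀ i, Lt v A g z i = c * g z i) (t : τ) :
    Lt v (fun y => a2 ε (A y)) (fun y => pt ε (g y) (g y)) z t = 2 * c * pt ε (g z) (g z) t := by
  have h1 := h (ε t).1
  have h2 := h (ε t).2
  rw [Lt, a2_pt]
  simp only [pt, Lt] at h1 h2 ⊢
  rw [fderiv_fun_mul (hg _) (hg _)]
  simp only [add_apply, smul_apply, smul_eq_mul]
  linear_combination g z (ε t).2 * h1 + g z (ε t).1 * h2

theorem a2_hol (hA : ∀ i j, HolN (fun w => A w i j) z) (t s : τ) :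
    HolN (fun w => a2 ε (A w) t s) z := hadd (hmul (hA _ _) (hC _)) (hmul (hC _) (hA _ _))

theorem pt_ne {a : σ → ℂ} (h : a ≠ 0) : ∃ t, pt ε a a t ≠ 0 := by
  obtain ⟨i, hi⟩ := Function.ne_iff.1 h
  exact ⟨ε.symm (i, i), by simpa [pt] using hi⟩

/-- The brackets. -/
def brk (c : ℕ → E n → ℂ) (m : ℕ) (y : E n) : ℂ :=
  ∑ x ∈ Finset.HasAntidiagonal.antidiagonal m, c x.1 y * ((-1) ^ x.2 * c x.2 y)

/-- The brackets of tensors. -/
def bt (c : ℕ → E n → σ → ℂ) (m : ℕ) (y : E n) (t : τ) : ℂ :=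
  ∑ x ∈ Finset.HasAntidiagonal.antidiagonal m, c x.1 y (ε t).1 * ((-1) ^ x.2 * c x.2 y (ε t).2)

theorem bt_eq {c : ℕ → E n → σ → ℂ} {d : ℕ → E n → ℂ} (h : ∀ r i, c r z i = d r z * g z i) (m : ℕ)
    (t : τ) : bt ε c m z t = brk d m z * pt ε (g z) (g z) t := by
  simp only [bt, brk, pt, h, Finset.sum_mul]
  exact Finset.sum_congr rfl fun _ _ => by ring

end Pool.Agent.Lib.NU4.R74
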