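import Pool.Agent.Lib.NU4.Rc74a

/-! Project nu4: the brackets of Rankin and Cohen of a holomorphic tensor are tensors. -/

open scoped Classical Topology Matrix Kronecker
open Set

set_option linter.unusedSectionVars false

noncomputable section

namespace Pool.Agent.Lib.NU4.R74

open Pool.Agent.Lib.SV (E)
open Pool.Agent.Lib.HS32 Pool.Agent.Lib.HLK Pool.Agent.Lib.F4

variable {n : ℕ} {M : Mf n}

/-- The Jacobian determinant, read in the first chart. -/
def jf (e e' : M.Ch) (w : E n) : ℂ := jd M e e' (e.symm w)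

/-- Its derivative along the field. -/
def vj (V : M.Fam (E n)) (e e' : M.Ch) (w : E n) : ℂ := fderiv ℂ (jf e e') w (V e w)

section

variable {e e' : M.Ch} {x : M.X} {V : M.Fam (E n)} (he : e ∈ M.C) (he' : e' ∈ M.C)
  (hx : x ∈ e.source) (hx' : x ∈ e'.source)

include he he' hx hx'

theorem jj : jd M e e' x * jd M e' e x = 1 := by
  rw [← Matrix.det_mul, ((mTR n M).2.1 e he e' he' x hx hx').2.2.1, Matrix.det_one]

theorem jf_hol : HolN (jf e e') (e x) := by
  obtain ⟨h1, h2, -, h4, -⟩ := (mTR n M).2.1 e' he' e he x hx' hx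
  refine hcon (hinv (mCHN n _ _ h1).2.2.2.2.1 h2) (h4.mono fun w hw => ?_)
  have := eq_inv_of_mul_eq_one_left (jj he he' hw.2.2.1 hw.2.1)
  rw [jd, jd, hw.2.2.2.2.2.2] at this
  exact this

theorem chain (hV : HT M 1 V) {f : E n → ℂ} (hf : DifferentiableAt ℂ f (e' x)) :
    fderiv ℂ f (e' x) (V e' (e' x)) =
      jd M e e' x * fderiv ℂ (fun y => f (e' (e.symm y))) (e x) (V e (e x)) := by
  have h1 := ((mTR n M).2.1 e' he' e he x hx' hx).1
  have h2 : (e' ∘ e.symm) (e x) = e' x := congrArg e' (e.left_inv hx)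
  have h3 := fderiv_comp (e x) (h2 ▸ hf) h1.self_of_nhds
  have h4 : jm (e' ∘ e.symm) (e x) *ᵥ V e (e x) = _ := hV.cmp e' he' e he x hx' hx
  change _ = _ * fderiv ℂ (f ∘ e' ∘ e.symm) (e x) (V e (e x))
  rw [h3, ContinuousLinearMap.comp_apply, BCHN.fderiv_mulVec, h4, h2, map_smul, zpow_one,
    smul_eq_mul, ← mul_assoc, jj he he' hx hx', one_mul]

theorem J_con (i j : Fin n) : ContinuousAt (fun y => M.J e e' y i j) x :=
  ((mCHN n _ _ ((mTR n M).2.1 e he e' he' x hx hx').1).2.1 i j).continuousAt.comp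
    (e'.continuousAt hx')

theorem jd_con : ContinuousAt (fun y => jd M e e' y) x :=
  (mCHN n _ _ ((mTR n M).2.1 e he e' he' x hx hx').1).2.2.2.2.1.self_of_nhds.continuousAt.comp
    (e'.continuousAt hx')

end

theorem con {e : M.Ch} {x : M.X} (hx : x ∈ e.source) {f : E n → ℂ} (h : HolN f (e x)) :
    ContinuousAt (fun y => f (e y)) x := h.self_of_nhds.continuousAt.comp (e.continuousAt hx)

theorem denX {F : Type} [Zero F] {g : M.Fam F} (h : Den M g) {e : M.Ch} {x : M.X} (he : e ∈ M.C)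
    (hx : x ∈ e.source) : ∃ᶠ y in 𝓝 x, g e (e y) ≠ 0 :=
  (e.tendsto_symm hx).frequently ((h e he _ (e.map_source hx)).mp
    ((e.open_target.eventually_mem (e.map_source hx)).mono fun w hw k => by rwa [e.right_inv hw]))

variable {σ : Type} [Fintype σ]

/-- A tensor `g` that is an eigenvector of the derivative along `V`, and a projective structure. -/
structure Dat (V : M.Fam (E n)) (T : M.Ch → M.Ch → M.X → Mx σ) (l w : ℕ) (g : M.Fam (σ → ℂ))
    (A : M.Fam (Mx σ)) (b q : M.Fam ℂ) : Prop where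
  hV : HT M 1 V
  w0 : 0 < w
  hol : Hol g
  nz : Nz g
  cmp : M.Ov fun e e' x => g e (e x) = (jd M e e' x ^ l)⁻¹ • T e e' x *ᵥ g e' (e' x)
  tc : M.Ov fun e e' x => ∀ i j, ContinuousAt (fun y => T e e' y i j) x
  hA : M.All fun e z => ∀ i j, HolN (fun y => A e y i j) z
  hb : M.All fun e z => g e z ≠ 0 → HolN (b e) z
  eq : M.All fun e z => g e z ≠ 0 → ∀ i, Lt (V e) (A e) (g e) z i = w * b e z * g e z i
  law : M.Ov fun e e' x => g e (e x) ≠ 0 →
    b e' (e' x) = jd M e e' x * b e (e x) + vj V e e' (e x)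
  hq : M.All fun e z => HolN (q e) z
  qlaw : M.Ov fun e e' x => q e' (e' x) = jd M e e' x ^ 2 * q e (e x) +
    jd M e e' x * fderiv ℂ (vj V e e') (e x) (V e (e x)) - vj V e e' (e x) ^ 2 / 2

/-- The scalar coefficients. -/
def cf (V : M.Fam (E n)) (w : ℕ) (b q : M.Fam ℂ) (e : M.Ch) : ℕ → E n → ℂ :=
  cs (V e) (fun y => w * b e y) (fun y => q e y * 2⁻¹) (2 * w)

/-- The brackets. -/
def bf (V : M.Fam (E n)) (w : ℕ) (g : M.Fam (σ → ℂ)) (A : M.Fam (Mx σ)) (q : M.Fam ℂ) (m : ℕ) :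
    M.Fam (σ × σ → ℂ) :=
  fun e => bt (Equiv.refl _) (ts (V e) (A e) (fun y => q e y * 2⁻¹) (2 * w) (g e)) m

variable {V : M.Fam (E n)} {T : M.Ch → M.Ch → M.X → Mx σ} {l w : ℕ} {g : M.Fam (σ → ℂ)}
  {A : M.Fam (Mx σ)} {b q : M.Fam ℂ} (D : Dat V T l w g A b q) {e e' : M.Ch} {x : M.X} {z : E n}

include D

theorem Dat.gz : M.Ov fun e e' x => g e' (e' x) = 0 → g e (e x) = 0 :=
  fun e he e' he' x hx hx' h => by rw [D.cmp e he e' he' x hx hx', h, Matrix.mulVec_zero, smul_zero]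

theorem Dat.den [M.Cpt] : Den M g :=
  IDT.gen M (fun i (v : σ → ℂ) => v i) (fun _ => funext_iff) g D.hol D.gz fun h => by
    obtain ⟨e, he, z, hz, k⟩ := D.nz
    exact k (h e he z hz)

theorem Dat.ev (he : e ∈ M.C) (hz : z ∈ e.target) (h : g e z ≠ 0) :
    ∀ᶠ y in 𝓝 z, y ∈ e.target ∧ g e y ≠ 0 :=
  (e.open_target.eventually_mem hz).and ((continuousAt_pi.2 fun i =>
    (D.hol e he z hz i).self_of_nhds.continuousAt).eventually_ne h)

theorem Dat.op (he : e ∈ M.C) : IsOpen {y | y ∈ e.target ∧ g e y ≠ 0} :=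
  isOpen_iff_mem_nhds.2 fun _ hy => D.ev he hy.1 hy.2

theorem Dat.cf_hol (he : e ∈ M.C) (hz : z ∈ e.target) (h : g e z ≠ 0) (r : ℕ) :
    HolN (cf V w b q e r) z :=
  cs_hol (D.hV.hol e he z hz) (hmul (hC _) (D.hb e he z hz h)) (hmul (D.hq e he z hz) (hC _)) r

theorem Dat.bf_hol (m : ℕ) : Hol (bf V w g A q m) := fun e he z hz _ => by
  have h := ts_hol (k := 2 * w) (D.hV.hol e he z hz) (D.hA e he z hz)
    (hmul (D.hq e he z hz) (hC 2⁻¹)) (D.hol e he z hz)
  simp only [bf, bt]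
  exact hsum _ fun _ => hmul (h _ _) (hmul (hC _) (h _ _))

theorem Dat.bf_eq (he : e ∈ M.C) (hz : z ∈ e.target) (h : g e z ≠ 0) (m : ℕ) (t : σ × σ) :
    bf V w g A q m e z t = brk (cf V w b q e) m z * pt (Equiv.refl _) (g e z) (g e z) t :=
  bt_eq _ (fun r => ts_eq (D.op he) (fun y hy => ⟨D.hV.hol e he y hy.1,
    hmul (hC _) (D.hb e he y hy.1 hy.2), hmul (D.hq e he y hy.1) (hC _), D.hol e he y hy.1,
    D.eq e he y hy.1 hy.2⟩) r z ⟨hz, h⟩) m t

theorem Dat.cov (he : e ∈ M.C) (he' : e' ∈ M.C) (hz : z ∈ e.target) (hz' : e.symm z ∈ e'.source)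
    (h : g e z ≠ 0) (m : ℕ) :
    brk (cf V w b q e') m (e' (e.symm z)) = jf e e' z ^ m * brk (cf V w b q e) m z := by
  have k0 : 0 < 2 * w := Nat.mul_pos two_pos D.w0
  let O : Set (E n) := {y | (y ∈ e.target ∧ g e y ≠ 0) ∧ e.symm y ∈ e'.source}
  have hO : IsOpen O := isOpen_iff_mem_nhds.2 fun y hy => (D.ev he hy.1.1 hy.1.2).and
    ((e.continuousAt_symm hy.1.1).eventually (e'.open_source.eventually_mem hy.2))
  have ch : ∀ r, ∀ y ∈ O, fderiv ℂ (cf V w b q e' r) (e' (e.symm y)) (V e' (e' (e.symm y))) =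
      jf e e' y * fderiv ℂ (fun s => cf V w b q e' r (e' (e.symm s))) y (V e y) := fun r y hy => by
    have g0 := D.gz e he e' he' _ (e.map_target hy.1.1) hy.2
    simp only [e.right_inv hy.1.1] at g0
    have := chain he he' (e.map_target hy.1.1) hy.2 D.hV (D.cf_hol he' (e'.map_source hy.2)
      (fun c => hy.1.2 (g0 c)) r).self_of_nhds
    rwa [e.right_inv hy.1.1] at this
  have := K23.ckF hO (V e) (cf V w b q e) (fun r s => cf V w b q e' r (e' (e.symm s)))
    (fun y => w * b e y) (fun s => w * b e' (e' (e.symm s))) (fun y => q e y * 2⁻¹)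
    (fun s => q e' (e' (e.symm s)) * 2⁻¹) (jf e e') (fun y => vj V e e' y * 2⁻¹) (fun _ => 1)
    (2 * w) k0 (fun r y hy => (D.cf_hol he hy.1.1 hy.1.2 r).self_of_nhds) (fun y hy => ?_)
    (fun y _ => cs0 k0 y) (fun r y _ => cs1 r y)
    (fun y hy => by rw [← ch 0 y hy]; exact cs0 k0 _)
    (fun r y hy => by rw [← ch _ y hy]; exact cs1 r _)
  · rw [brk, brk, ← K23.pi_two (vj V e e' z * 2⁻¹) (jf e e' z) (fun s => cf V w b q e s z)
      (fun s => cf V w b q e s z)]
    simp only [fun r => this r z ⟨⟨hz, h⟩, hz'⟩, one_mul]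
  · have j1 := jf_hol he he' (e.map_target hy.1.1) hy.2
    have l1 := D.law e he e' he' _ (e.map_target hy.1.1) hy.2
    have l2 := D.qlaw e he e' he' _ (e.map_target hy.1.1) hy.2
    simp only [e.right_inv hy.1.1] at j1 l1 l2
    have j2 : DifferentiableAt ℂ (vj V e e') y := (hD j1 (D.hV.hol e he y hy.1.1)).self_of_nhds
    refine ⟨j1.self_of_nhds, j2.mul_const _, differentiableAt_const _, ?_, ?_, ?_, (one_mul _).symm⟩
    · rw [vj]
      ring
    · rw [l1 hy.1.2, jf]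
      simp only [fderiv_fun_const, Pi.zero_apply, zero_apply]
      push_cast
      ring
    · rw [l2, fderiv_mul_const j2, smul_apply, smul_eq_mul, jf]
      ring

theorem Dat.bf_cmp [M.Cpt] (m : ℕ) : M.Ov fun e e' x => bf V w g A q m e (e x) =
    (jd M e e' x ^ (2 * l + m))⁻¹ • (T e e' x ⊗ₖ T e e' x) *ᵥ bf V w g A q m e' (e' x) := by
  intro e he e' he' x hx hx'
  have j0 : ∀ y ∈ e.source, y ∈ e'.source → jd M e e' y ≠ 0 := fun y a b =>
    ((mTR n M).2.1 e he e' he' y a b).2.1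
  funext t
  refine dens (f := fun y => bf V w g A q m e (e y) t) (f' := fun y => (jd M e e' y ^ (2 * l + m))⁻¹ *
    ∑ s, T e e' y t.1 s.1 * T e e' y t.2 s.2 * bf V w g A q m e' (e' y) s) (denX D.den he hx)
    (con hx (D.bf_hol m e he _ (e.map_source hx) t))
    ((((jd_con he he' hx hx').pow _).inv₀ (pow_ne_zero _ (j0 x hx hx'))).mul
      (tendsto_finsetSum _ fun s _ => (((D.tc e he e' he' x hx hx' _ _).mul
        (D.tc e he e' he' x hx hx' _ _)).mul
        (con hx' (D.bf_hol m e' he' _ (e'.map_source hx') s))).tendsto)) ?_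
  filter_upwards [e.open_source.mem_nhds hx, e'.open_source.mem_nhds hx'] with y hy hy' h
  have h' : g e' (e' y) ≠ 0 := fun c => h (D.gz e he e' he' y hy hy' c)
  have c := D.cov he he' (e.map_source hy) (by rwa [e.left_inv hy]) h m
  have k := kr (Equiv.refl _) (T e e' y) (T e e' y) (g e' (e' y)) (g e' (e' y)) t
  have g1 := congrFun (D.cmp e he e' he' y hy hy')
  have j1 := j0 y hy hy'
  simp only [jf, e.left_inv hy, Equiv.refl_apply] at c k
  simp only [D.bf_eq he (e.map_source hy) h, D.bf_eq he' (e'.map_source hy') h', c,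
    mul_left_comm _ (_ * brk _ _ _), ← Finset.mul_sum, k]
  simp only [pt, Equiv.refl_apply, g1, Pi.smul_apply, smul_eq_mul]
  field_simp
  ring

end Pool.Agent.Lib.NU4.R74
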