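import Pool.Agent.Lib.NU4.Rc74b

/-! Project nu4: the last bracket of Rankin and Cohen solves the equation of Riccati. -/

open scoped Classical Topology Matrix Kronecker
open Set

set_option linter.unusedSectionVars false

noncomputable section

namespace Pool.Agent.Lib.NU4.R74

open Pool.Agent.Lib.SV (E)
open Pool.Agent.Lib.HS32 Pool.Agent.Lib.HLK Pool.Agent.Lib.F4

variable {n : ℕ} {M : Mf n} {σ : Type} [Fintype σ]

/-- The derivative of a tensor with two slots. -/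
def L2 (V : M.Fam (E n)) (A : M.Fam (Mx σ)) (h : M.Fam (σ × σ → ℂ)) : M.Fam (σ × σ → ℂ) :=
  fun e => Lt (V e) (fun y => a2 (Equiv.refl _) (A e y)) (h e)

/-- The logarithmic derivative. -/
def be (κ : ℂ) (k h : M.Fam (σ × σ → ℂ)) : M.Fam ℂ :=
  fun e z => Classical.epsilon fun c => ∀ t, k e z t = κ * c * h e z t

variable {V : M.Fam (E n)} {T : M.Ch → M.Ch → M.X → Mx σ} {l w : ℕ} {g : M.Fam (σ → ℂ)}
  {A : M.Fam (Mx σ)} {b q : M.Fam ℂ} (D : Dat V T l w g A b q) {e e' : M.Ch} {x : M.X} {z : E n}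

include D

theorem Dat.p_hol (he : e ∈ M.C) (hz : z ∈ e.target) (h : g e z ≠ 0) (m : ℕ) :
    HolN (brk (cf V w b q e) m) z :=
  hsum _ fun _ => hmul (D.cf_hol he hz h _) (hmul (hC _) (D.cf_hol he hz h _))

theorem Dat.L2_hol (m : ℕ) : Hol (L2 V A (bf V w g A q m)) := fun e he z hz =>
  Lt_hol (D.hV.hol e he z hz) (a2_hol _ (D.hA e he z hz)) (D.bf_hol m e he z hz)

theorem Dat.L2_eq (he : e ∈ M.C) (hz : z ∈ e.target) (h : g e z ≠ 0) (m : ℕ) (t : σ × σ) :
    L2 V A (bf V w g A q m) e z t = (fderiv ℂ (brk (cf V w b q e) m) z (V e z) +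
      2 * (w * b e z) * brk (cf V w b q e) m z) * pt (Equiv.refl _) (g e z) (g e z) t := by
  have d := fun i => (D.hol e he z hz i).self_of_nhds
  rw [L2, Lt_mul (g := fun y => pt (Equiv.refl _) (g e y) (g e y))
    ((D.ev he hz h).mono fun y hy => D.bf_eq he hy.1 hy.2 m) (D.p_hol he hz h m).self_of_nhds
    (fun i => (d _).fun_mul (d _)), Lt_pt _ d (D.eq e he z hz h)]
  ring

variable [M.Cpt] {κ : ℂ} (k0 : κ ≠ 0) {m : ℕ}

include k0

theorem Dat.be_eq (he : e ∈ M.C) (hz : z ∈ e.target) (h : bf V w g A q m e z ≠ 0) (t : σ × σ) :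
    L2 V A (bf V w g A q m) e z t =
      κ * be κ (L2 V A (bf V w g A q m)) (bf V w g A q m) e z * bf V w g A q m e z t := by
  obtain ⟨s, hs⟩ := Function.ne_iff.1 h
  refine Classical.epsilon_spec (p := fun c => ∀ t, L2 V A (bf V w g A q m) e z t =
    κ * c * bf V w g A q m e z t) ⟨L2 V A (bf V w g A q m) e z s / (κ * bf V w g A q m e z s),
      fun t => ?_⟩ t
  have a := fun i => (D.L2_hol m e he z hz i).self_of_nhds.continuousAt
  have c := fun i => (D.bf_hol m e he z hz i).self_of_nhds.continuousAt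
  have := dens (D.den e he z hz) ((a t).mul (c s)) ((a s).mul (c t))
    ((e.open_target.eventually_mem hz).mono fun y hy k => by
      simp only [Pi.mul_apply, D.L2_eq he hy k, D.bf_eq he hy k]
      ring)
  have hs' : bf V w g A q m e z s ≠ 0 := hs
  field_simp
  exact this

omit k0 in
theorem Dat.evh (he : e ∈ M.C) (hz : z ∈ e.target) (h : bf V w g A q m e z ≠ 0) :
    ∀ᶠ y in 𝓝 z, y ∈ e.target ∧ bf V w g A q m e y ≠ 0 :=
  (e.open_target.eventually_mem hz).and ((continuousAt_pi.2 fun i =>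
    (D.bf_hol m e he z hz i).self_of_nhds.continuousAt).eventually_ne h)

theorem Dat.be_hol (he : e ∈ M.C) (hz : z ∈ e.target) (h : bf V w g A q m e z ≠ 0) :
    HolN (be κ (L2 V A (bf V w g A q m)) (bf V w g A q m) e) z := by
  obtain ⟨s, hs⟩ := Function.ne_iff.1 h
  have c := D.bf_hol m e he z hz s
  refine hcon (hmul (D.L2_hol m e he z hz s) (hinv (hmul (hC κ) c) (mul_ne_zero k0 hs))) ?_
  filter_upwards [D.evh he hz h, c.self_of_nhds.continuousAt.eventually_ne hs] with y hy k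
  have k' : bf V w g A q m e y s ≠ 0 := k
  rw [D.be_eq k0 he hy.1 hy.2]
  field_simp

theorem Dat.be_p (he : e ∈ M.C) (hz : z ∈ e.target) (h : bf V w g A q m e z ≠ 0)
    (hg : g e z ≠ 0) : brk (cf V w b q e) m z ≠ 0 ∧
      κ * be κ (L2 V A (bf V w g A q m)) (bf V w g A q m) e z * brk (cf V w b q e) m z =
        fderiv ℂ (brk (cf V w b q e) m) z (V e z) + 2 * (w * b e z) * brk (cf V w b q e) m z := by
  obtain ⟨t, ht⟩ := pt_ne (Equiv.refl _) hg
  have := D.be_eq k0 he hz h t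
  rw [D.L2_eq he hz hg, D.bf_eq he hz hg, ← mul_assoc (κ * _)] at this
  exact ⟨fun c => h (funext fun s => by rw [D.bf_eq he hz hg, c, zero_mul, Pi.zero_apply]),
    (mul_right_cancel₀ ht this).symm⟩

theorem Dat.be_law (hk : κ = m + (2 * w : ℕ)) : M.Ov fun e e' x => bf V w g A q m e (e x) ≠ 0 →
    be κ (L2 V A (bf V w g A q m)) (bf V w g A q m) e' (e' x) = jd M e e' x *
      be κ (L2 V A (bf V w g A q m)) (bf V w g A q m) e (e x) + vj V e e' (e x) := by
  intro e he e' he' x hx hx' h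
  have hz : ∀ y ∈ e.source, y ∈ e'.source → bf V w g A q m e (e y) ≠ 0 →
      bf V w g A q m e' (e' y) ≠ 0 := fun y a c d f =>
    d (by rw [D.bf_cmp m e he e' he' y a c, f, Matrix.mulVec_zero, smul_zero])
  refine dens (denX D.den he hx) (con hx' (D.be_hol k0 he' (e'.map_source hx') (hz x hx hx' h)))
    (((jd_con he he' hx hx').mul (con hx (D.be_hol k0 he (e.map_source hx) h))).add
      (con hx (hD (jf_hol he he' hx hx') (D.hV.hol e he _ (e.map_source hx))))) ?_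
  filter_upwards [e.open_source.mem_nhds hx, e'.open_source.mem_nhds hx',
    (e.continuousAt hx).eventually (D.evh he (e.map_source hx) h)] with y hy hy' k hg
  have hg' : g e' (e' y) ≠ 0 := fun c => hg (D.gz e he e' he' y hy hy' c)
  obtain ⟨p0, p1⟩ := D.be_p k0 he k.1 k.2 hg
  obtain ⟨-, p2⟩ := D.be_p k0 he' (e'.map_source hy') (hz y hy hy' k.2) hg'
  have c1 : (fun s => brk (cf V w b q e') m (e' (e.symm s))) =ᶠ[𝓝 (e y)]
      fun s => jf e e' s ^ m * brk (cf V w b q e) m s := by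
    filter_upwards [D.ev he k.1 hg, (e.tendsto_symm hy).eventually
      (e'.open_source.eventually_mem hy')] with s a c using D.cov he he' a.1 c a.2 m
  have c2 := c1.self_of_nhds
  have c3 := pow_d (jf_hol he he' hy hy').self_of_nhds (D.p_hol he k.1 hg m).self_of_nhds
    (V e (e y)) m
  rw [chain he he' hy hy' D.hV (D.p_hol he' (e'.map_source hy') hg' m).self_of_nhds, c1.fderiv_eq,
    D.law e he e' he' y hy hy' hg] at p2
  have j1 : jf e e' (e y) = jd M e e' y := by rw [jf, e.left_inv hy]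
  simp only [e.left_inv hy, j1] at c2 c3
  rw [c3, c2] at p2
  refine mul_left_cancel₀ (mul_ne_zero k0 (mul_ne_zero
    (pow_ne_zero m ((mTR n M).2.1 e he e' he' y hy hy').2.1) p0)) ?_
  simp only [Pi.add_apply, Pi.mul_apply, vj] at p2 ⊢
  push_cast at hk
  linear_combination p2 - jd M e e' y ^ m * jd M e e' y * p1 - jd M e e' y ^ m *
    brk (cf V w b q e) m (e y) * fderiv ℂ (jf e e') (e y) (V e (e y)) * hk

theorem Dat.be_ric (hk : κ = m + (2 * w : ℕ)) (top : ∀ N, m < N → ¬Nz (bf V w g A q N))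
    (he : e ∈ M.C) (hz : z ∈ e.target) (h : bf V w g A q m e z ≠ 0) :
    fderiv ℂ (be κ (L2 V A (bf V w g A q m)) (bf V w g A q m) e) z (V e z) -
      be κ (L2 V A (bf V w g A q m)) (bf V w g A q m) e z ^ 2 / 2 = q e z := by
  have w0 : 0 < 2 * w := Nat.mul_pos two_pos D.w0
  obtain ⟨W, hW⟩ := wr74 (D.op he) (V e) (cf V w b q e) (fun y => w * b e y) (fun y => q e y * 2⁻¹)
    (2 * w) m w0 (brk (cf V w b q e)) (fun _ _ => rfl)
    (fun r y hy => (D.cf_hol he hy.1 hy.2 r).self_of_nhds) (fun y _ => cs0 w0 y)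
    (fun r y _ => cs1 r y) fun N hN y hy => by_contra fun c => by
      obtain ⟨t, ht⟩ := pt_ne (Equiv.refl _) hy.2
      exact top N hN ⟨e, he, y, hy.1, Function.ne_iff.2 ⟨t, by
        rw [D.bf_eq he hy.1 hy.2]
        exact mul_ne_zero c ht⟩⟩
  have b1 := D.be_hol k0 he hz h
  refine dens (D.den e he z hz) ((hD b1 (D.hV.hol e he z hz)).self_of_nhds.continuousAt.sub
    ((b1.self_of_nhds.continuousAt.pow 2).div_const 2))
    (D.hq e he z hz).self_of_nhds.continuousAt ((D.evh he hz h).mono fun y hy hg => ?_)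
  have e1 : be κ (L2 V A (bf V w g A q m)) (bf V w g A q m) e =ᶠ[𝓝 y]
      fun s => W s / brk (cf V w b q e) m s := by
    filter_upwards [D.evh he hy.1 hy.2, D.ev he hy.1 hg] with s a c
    obtain ⟨p0, p1⟩ := D.be_p k0 he a.1 a.2 c.2
    rw [(hW s c).2.2.1, ← hk, mul_assoc] at p1
    exact eq_div_of_mul_eq p0 (mul_left_cancel₀ k0 p1)
  obtain ⟨a1, a2, a3, a4⟩ := hW y ⟨hy.1, hg⟩
  have := (ric74 a1 a2 (D.be_p k0 he hy.1 hy.2 hg).1 a3 a4).2
  simp only [Pi.sub_apply, Pi.pow_apply]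
  rw [e1.fderiv_eq, e1.self_of_nhds, this]
  ring

omit k0 in
/-- The last bracket. -/
theorem Dat.last (fin : {N | ∃ h : M.Fam (σ × σ → ℂ), (Hol h ∧ M.Ov fun e e' x => h e (e x) =
      (jd M e e' x ^ N)⁻¹ • (T e e' x ⊗ₖ T e e' x) *ᵥ h e' (e' x)) ∧ Nz h}.Finite) :
    ∃ m, Nz (bf V w g A q m) ∧ ∀ N, m < N → ¬Nz (bf V w g A q N) := by
  have f : {m | Nz (bf V w g A q m)}.Finite :=
    (fin.preimage (add_right_injective (2 * l)).injOn).subset fun m h =>
      ⟨_, ⟨D.bf_hol m, D.bf_cmp m⟩, h⟩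
  obtain ⟨m, h1, h2⟩ := Set.exists_max_image _ id f ⟨0, by
    obtain ⟨e, he, z, hz, k⟩ := D.nz
    obtain ⟨t, ht⟩ := pt_ne (Equiv.refl _) k
    refine ⟨e, he, z, hz, Function.ne_iff.2 ⟨t, ?_⟩⟩
    rw [D.bf_eq he hz k]
    simpa [brk, cf, cs] using ht⟩
  exact ⟨m, h1, fun N hN c => (h2 N c).not_gt hN⟩

end Pool.Agent.Lib.NU4.R74
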