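import Pool.Agent.Lib.HLK.All

/-! Project nu4: lemmas for the estimate of the weighted divergence. -/

open scoped Classical Topology ContDiff ComplexOrder Matrix
open Set Filter MeasureTheory Complex

noncomputable section

namespace Pool.Agent.Lib.NU4

open Pool.Agent.Lib.SV (E)
open Pool.Agent.Lib.HS32 Pool.Agent.Lib.HLK Pool.Agent.Lib.KP
open Pool.Agent.Lib.EXH (aw)
open Pool.Agent.Lib.KP.T60 (phC)

namespace SG

variable {n : ℕ} {M : Mf n} {H : M.Fam (Mat n)} {L : M.Co} {φ : M.Fam ℝ}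

/-- The contraction with the differential of a function. -/
def ct (M : Mf n) (v : M.X → ℝ) (W : M.Fam (Fs n → ℂ)) : M.Fam (Fs n → ℂ) := fun e z =>
  ∑ k, dz k (M.lc v e) z • (an k *ᵥ W e z)

theorem oP_aw (hH : M.Met H) (hφ : M.WtC L φ) {v : M.X → ℝ} (hv : M.Sm v)
    (W : M.Fam (Fs n → ℂ)) : M.All fun e z =>
      (oP H (aw M φ v)).ap W e z = (oP H φ).ap W e z - ct M v W e z := fun e he z hz => by
  have h1 : ∀ k, dz k (fun w => (phC M H (aw M φ v) e w : ℂ)) z =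
      dz k (fun w => (phC M H φ e w : ℂ)) z + dz k (M.lc v e) z := fun k => by
    rw [← dz_add (cd_diff (cd_ofReal (T60.phC_sm hH hφ he hz))) (cd_diff (hv.lc e he z hz))]
    congr 1
    funext w
    simp only [phC, aw, Mf.lc, Pi.add_apply]
    push_cast
    ring
  simp only [Op.ap, oP, h1, ct, add_smul, Finset.sum_add_distrib, neg_add, Matrix.add_mulVec,
    Matrix.neg_mulVec, Matrix.sum_mulVec, Matrix.smul_mulVec]
  abel

theorem ct_comp {v : M.X → ℝ} (hv : M.Sm v) {g : ℝ → ℝ} {c : ℝ} {x : M.X}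
    (hg : HasDerivAt g c (v x)) (W : M.Fam (Fs n → ℂ)) :
    M.ev (ct M (fun y => g (v y)) W) x = (c : ℂ) • M.ev (ct M v W) x := by
  simp only [Mf.ev, ct, Finset.smul_sum, smul_smul]
  refine Finset.sum_congr rfl fun k _ => ?_
  congr 1
  exact dz_comp_real (u := fun w => v ((M.ch x).symm w)) (by rwa [Mf.ch_symm])
    ((hv _ (Mf.ch_mem x) _ (Mf.ch_tgt x)).differentiableAt (by simp))

theorem cu_add (b : Bun M (Fs n)) (S T : M.Fam (Mat n)) (W : M.Fam (Fs n → ℂ)) (x : M.X) :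
    cu (S + T) b W x = cu S b W x + cu T b W x := by
  simp only [cu, Mf.ev, Pi.add_apply, Matrix.add_apply, add_mul, Finset.sum_add_distrib, add_re]

theorem cu_smul (b : Bun M (Fs n)) (c : ℝ) (S : M.Fam (Mat n)) (W : M.Fam (Fs n → ℂ)) (x : M.X) :
    cu (c • S) b W x = c * cu S b W x := by
  simp only [cu, Mf.ev, Pi.smul_apply, Matrix.smul_apply, real_smul, mul_assoc, ← Finset.mul_sum,
    re_ofReal_mul]

theorem cu_congr (b : Bun M (Fs n)) {S T : M.Fam (Mat n)} (W : M.Fam (Fs n → ℂ)) {x : M.X}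
    (h : M.ev S x = M.ev T x) : cu S b W x = cu T b W x := by
  simp only [Mf.ev] at h
  simp only [cu, Mf.ev, h]

theorem cu_aw (S : M.Fam (Mat n)) (w : M.X → ℝ) (W : M.Fam (Fs n → ℂ)) (x : M.X) :
    cu S (lam H L (aw M φ w)) W x = cu S (lam H L φ) W x * Real.exp (-w x) := by
  simp only [cu, Mf.ev, LAM.g_aw, Matrix.smul_mulVec, dotProduct_smul, smul_eq_mul]
  rw [← re_mul_ofReal, Finset.sum_mul]
  refine congrArg re (Finset.sum_congr rfl fun k _ => ?_)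
  rw [Finset.sum_mul]
  exact Finset.sum_congr rfl fun l _ => by ring

theorem cu_ds (b : Bun M (Fs n)) {v : M.X → ℝ} (hv : M.Sm v) (W : M.Fam (Fs n → ℂ)) (x : M.X) :
    cu (M.ds v v) b W x = b.pn (ct M v W) x := by
  have h : ∀ l, dzb l (M.lc v (M.ch x)) (M.ch x x) = star (dz l (M.lc v (M.ch x)) (M.ch x x)) :=
    fun l => (star_dz_ofReal (u := fun w => v ((M.ch x).symm w))
      (cd_diff (hv.lc _ (Mf.ch_mem x) _ (Mf.ch_tgt x)))).symm
  simp only [cu, Bun.pn, Bun.pp, Mf.ev, ct, Mf.ds, dd, Matrix.of_apply, h, star_sum, star_smul,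
    Matrix.mulVec_sum, Matrix.mulVec_smul, sum_dotProduct, dotProduct_sum, smul_dotProduct,
    dotProduct_smul, smul_eq_mul, Finset.mul_sum]
  refine congrArg re (Finset.sum_congr rfl fun k _ => Finset.sum_congr rfl fun l _ => by ring)

/-- The squared norm of a difference. -/
theorem q_sub {σ : Type} [Fintype σ] {G : Mx σ} (hG : G.IsHermitian) (p r : σ → ℂ) (c : ℝ) :
    (star (p - (c : ℂ) • r) ⬝ᵥ G *ᵥ (p - (c : ℂ) • r)).re =
      (star p ⬝ᵥ G *ᵥ p).re - 2 * c * (star p ⬝ᵥ G *ᵥ r).re + c ^ 2 * (star r ⬝ᵥ G *ᵥ r).re := by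
  have s : (star r ⬝ᵥ G *ᵥ p).re = (star p ⬝ᵥ G *ᵥ r).re := by
    rw [Matrix.dotProduct_mulVec, ← hG.eq, ← Matrix.star_mulVec, hG.eq, Matrix.star_dotProduct]
    exact conj_re _
  simp only [star_sub, star_smul, Matrix.mulVec_sub, Matrix.mulVec_smul, sub_dotProduct,
    dotProduct_sub, smul_dotProduct, dotProduct_smul, smul_eq_mul, RCLike.star_def, conj_ofReal,
    sub_re, re_ofReal_mul, s]
  ring

theorem num {A B X t δ W C : ℝ} (hq : ∀ c : ℝ, 0 ≤ B - 2 * c * X + c ^ 2 * A) (hδ : 0 < δ)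
    (h1 : δ ≤ 1) (ht : 1 ≤ t) (hd : t - W ≤ δ * t ^ 2) (hC : B ≤ C) :
    t⁻¹ * (B - 2 * X + A) ≤ 8 * (W * B - 2 * (t / (1 + δ * t)) * X +
      t * (1 / (1 + δ * t)) ^ 2 * A) + 10 * C * δ * t ^ 2 ∧
    t * (B - 2 * (1 / (1 + δ * t)) * X + (1 / (1 + δ * t)) ^ 2 * A) ≤ 8 * (W * B -
      2 * (t / (1 + δ * t)) * X + t * (1 / (1 + δ * t)) ^ 2 * A) + 10 * C * δ * t ^ 2 := by
  have tp : 0 < t := lt_of_lt_of_le one_pos ht
  have B0 : 0 ≤ B := by simpa using hq 0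
  have p : 0 < δ * t := by positivity
  obtain ⟨s, hs⟩ : ∃ s, s = 1 / (1 + δ * t) := ⟨_, rfl⟩
  have s1 : s * (1 + δ * t) = 1 := by rw [hs]; field_simp
  have e1 : t / (1 + δ * t) = t * s := by rw [hs]; ring
  rw [e1, ← hs]
  obtain ⟨R, hR⟩ : ∃ R, R = B - 2 * s * X + s ^ 2 * A := ⟨_, rfl⟩
  have R0 : 0 ≤ R := hR ▸ hq s
  obtain ⟨a, ha⟩ : ∃ a, a = 1 + δ * t := ⟨_, rfl⟩
  rw [← ha] at s1
  have a0 : 0 < a := by rw [ha]; positivity
  have b0 : 0 < 2 * a - 1 := by rw [ha]; linarith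
  have k1 : B - 2 * X + A ≤ 2 * a ^ 2 * R + 2 * (a - 1) ^ 2 * B := by
    have h := mul_nonneg (sq_nonneg (2 * a - 1)) (hq (2 * a - 1)⁻¹)
    have e : (2 * a - 1) ^ 2 * (B - 2 * (2 * a - 1)⁻¹ * X + (2 * a - 1)⁻¹ ^ 2 * A) =
        (2 * a - 1) ^ 2 * B - 2 * (2 * a - 1) * X + A := by field_simp
    have e' : a ^ 2 * R = a ^ 2 * B - 2 * a * X + A := by
      rw [hR]
      linear_combination (-2 * a * X + (s * a + 1) * A) * s1
    rw [e] at h
    nlinarith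
  have k2 : a ^ 2 ≤ 4 * t ^ 2 := by
    have : a ≤ 2 * t := by rw [ha]; nlinarith
    nlinarith
  have k3 : (a - 1) ^ 2 * B ≤ t * (C * δ * t ^ 2) := by
    have : (a - 1) ^ 2 ≤ δ * t ^ 3 := by
      rw [ha, add_sub_cancel_left, mul_pow]
      have h2 : δ ^ 2 ≤ δ := by nlinarith
      have h3 : t ^ 2 ≤ t ^ 3 := pow_le_pow_right₀ ht (by norm_num)
      exact mul_le_mul h2 h3 (by positivity) hδ.le
    calc (a - 1) ^ 2 * B ≤ δ * t ^ 3 * C := mul_le_mul this hC B0 (by positivity)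
      _ = _ := by ring
  have k4 : (t - W) * B ≤ C * δ * t ^ 2 := by
    calc (t - W) * B ≤ δ * t ^ 2 * B := mul_le_mul_of_nonneg_right hd B0
      _ ≤ δ * t ^ 2 * C := mul_le_mul_of_nonneg_left hC (by positivity)
      _ = _ := by ring
  have e2 : W * B - 2 * (t * s) * X + t * s ^ 2 * A = t * R - (t - W) * B := by rw [hR]; ring
  rw [e2, inv_mul_le_iff₀ tp, ← hR]
  have C0 : 0 ≤ C * δ * t ^ 2 := mul_nonneg (mul_nonneg (B0.trans hC) hδ.le) (sq_nonneg t)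
  refine ⟨?_, by nlinarith [mul_nonneg tp.le R0]⟩
  nlinarith [mul_le_mul_of_nonneg_right k2 R0, mul_le_mul_of_nonneg_left k4 tp.le]

theorem wn {δ t : ℝ} (hδ : 0 < δ) (ht : 1 ≤ t) :
    0 < t / (1 + δ * t) ∧ t / (1 + δ * t) ≤ 1 / δ ∧
    t / (1 + δ * t) ≤ Real.log (1 + δ * t) / δ ∧ Real.log (1 + δ * t) / δ ≤ t ∧
    t - t / (1 + δ * t) ≤ δ * t ^ 2 := by
  have p : 0 < δ * t := by positivity
  have q : 0 < 1 + δ * t := by positivity
  refine ⟨by positivity, ?_, ?_, ?_, ?_⟩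
  · rw [div_le_div_iff₀ q hδ]; nlinarith
  · rw [le_div_iff₀ hδ]
    refine le_trans (le_of_eq ?_) (Real.one_sub_inv_le_log_of_pos q)
    field_simp
    ring
  · rw [div_le_iff₀ hδ]
    have := Real.log_le_sub_one_of_pos q
    linarith
  · rw [sub_le_iff_le_add, ← sub_le_iff_le_add', le_div_iff₀ q]
    nlinarith [mul_pos p p, mul_pos (mul_pos p p) (lt_of_lt_of_le one_pos ht)]

/-- The multiplier. -/
def wd (δ y : ℝ) : ℝ := Real.log (1 + δ * Real.exp (-y)) / δ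

/-- Minus its derivative. -/
def wf (δ y : ℝ) : ℝ := Real.exp (-y) / (1 + δ * Real.exp (-y))

theorem wd_pos {δ : ℝ} (hδ : 0 < δ) (y : ℝ) : 0 < wd δ y :=
  div_pos (Real.log_pos (lt_add_of_pos_right _ (by positivity))) hδ

theorem dW {δ : ℝ} (hδ : 0 < δ) (y : ℝ) : HasDerivAt (wd δ) (-wf δ y) y := by
  have q : 0 < 1 + δ * Real.exp (-y) := by positivity
  have h := ((((hasDerivAt_neg y).exp.const_mul δ).const_add 1).log q.ne').div_const δ
  refine h.congr_deriv ?_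
  rw [wf]
  field_simp

theorem df {δ : ℝ} (hδ : 0 < δ) (y : ℝ) :
    HasDerivAt (wf δ) (-(Real.exp (-y) * (1 / (1 + δ * Real.exp (-y))) ^ 2)) y := by
  have q : 0 < 1 + δ * Real.exp (-y) := by positivity
  have h := (hasDerivAt_neg y).exp.div (((hasDerivAt_neg y).exp.const_mul δ).const_add 1) q.ne'
  refine h.congr_deriv ?_
  field_simp
  ring

theorem dc {δ : ℝ} (hδ : 0 < δ) (y : ℝ) :
    HasDerivAt (fun y => -Real.log (wd δ y)) (wf δ y / wd δ y) y :=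
  ((dW hδ y).log (wd_pos hδ y).ne').neg.congr_deriv (by ring)

theorem dc2 {δ : ℝ} (hδ : 0 < δ) (y : ℝ) :
    deriv (deriv fun y => -Real.log (wd δ y)) y = (wf δ y / wd δ y) ^ 2 -
      Real.exp (-y) * (1 / (1 + δ * Real.exp (-y))) ^ 2 / wd δ y := by
  rw [show (deriv fun y => -Real.log (wd δ y)) = fun y => wf δ y / wd δ y from
    funext fun y => (dc hδ y).deriv]
  have := (wd_pos hδ y).ne'
  refine (((df hδ y).div (dW hδ y) this).deriv).trans ?_
  field_simp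
  ring

theorem sc {δ : ℝ} (hδ : 0 < δ) (y : ℝ) : ContDiffAt ℝ ∞ (fun y => -Real.log (wd δ y)) y := by
  have q : 0 < 1 + δ * Real.exp (-y) := by positivity
  refine (ContDiffAt.log ?_ (wd_pos hδ y).ne').neg
  unfold wd
  exact ((contDiffAt_const.add (contDiffAt_const.mul contDiffAt_id.neg.exp)).log q.ne').div_const δ

theorem wf_pos {δ : ℝ} (hδ : 0 < δ) (y : ℝ) : 0 < wf δ y := by
  unfold wf
  positivity

theorem de {δ : ℝ} (hδ : 0 < δ) (y : ℝ) :
    HasDerivAt (fun y => -Real.log (wf δ y)) (1 / (1 + δ * Real.exp (-y))) y := by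
  refine ((df hδ y).log (wf_pos hδ y).ne').neg.congr_deriv ?_
  have q : 0 < 1 + δ * Real.exp (-y) := by positivity
  rw [wf]
  field_simp

theorem sf {δ : ℝ} (hδ : 0 < δ) (y : ℝ) : ContDiffAt ℝ ∞ (wf δ) y := by
  have q : 0 < 1 + δ * Real.exp (-y) := by positivity
  unfold wf
  exact contDiffAt_id.neg.exp.div (contDiffAt_const.add
    (contDiffAt_const.mul contDiffAt_id.neg.exp)) q.ne'

theorem gb_hol {σ : Type} [Fintype σ] [DecidableEq σ] (b : Bun M σ) {W : M.Fam (σ → ℂ)}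
    (h : Hol W) (x : M.X) : gb H b W x = 0 ∧ ∀ k, dzbv k (W (M.ch x)) (M.ch x x) = 0 := by
  have z : ∀ k, dzbv k (W (M.ch x)) (M.ch x x) = 0 := fun k => funext fun i => by
    have d := (h _ (Mf.ch_mem x) _ (Mf.ch_tgt x) i).self_of_nhds
    exact ((mHOL n _ _).1 (d.restrictScalars ℝ)).1 d k
  exact ⟨by simp [gb, Mf.ev, z], z⟩

end SG

end Pool.Agent.Lib.NU4
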